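import Pool.Agent.Lib.MP_601e9e_an.Rg.Jet

open Complex Filter Topology Set Metric MeasureTheory
open scoped ComplexConjugate ContDiff

namespace Pool.Agent.Lib.MP_601e9e_an.Rg

variable {m : ℕ} {r δ t : ℝ} {g : Zs m → ℂ} {p : Xs m}

/-- The point and the tangential direction over `x = (t, p)`. -/
noncomputable def acPhi (ξ : Fin m → ℂ) (x : ℝ × Xs m) : Zs m × Zs m :=
  (pt x.2 x.1, tv (star x.2.1) ξ)

/-- The derivative of `acPhi` at a point over `z` in the direction `(a, b)`. -/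
noncomputable def acV (ξ z a : Fin m → ℂ) (b : ℝ) : Zs m × Zs m :=
  (mk a (b + I * (bil (star z) a + bil z (star a))), mk 0 (2 * I * bil (star a) ξ))

theorem ac_pt_none (p : Xs m) (t : ℝ) :
    pt p t none = (p.2 : ℂ) + I * (bil (star p.1) p.1 + t) := by
  rw [bil_star_self]
  simp [pt]

theorem ac_contDiff (ξ : Fin m → ℂ) : ContDiff ℝ 1 (acPhi ξ) := by
  have h1 : ∀ j, ContDiff ℝ 1 (fun x : ℝ × Xs m => x.2.1 j) := fun j => by fun_prop
  have h2 : ∀ j, ContDiff ℝ 1 (fun x : ℝ × Xs m => (star x.2.1 : Fin m → ℂ) j) := fun j =>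
    Complex.conjCLE.contDiff.comp (h1 j)
  have h3 : ContDiff ℝ 1 (fun x : ℝ × Xs m => (x.2.2 : ℂ)) :=
    Complex.ofRealCLM.contDiff.comp (by fun_prop)
  have h4 : ContDiff ℝ 1 (fun x : ℝ × Xs m => (x.1 : ℂ)) :=
    Complex.ofRealCLM.contDiff.comp (by fun_prop)
  refine ContDiff.prodMk (contDiff_pi.2 fun o => ?_) (contDiff_pi.2 fun o => ?_)
  · cases o with
    | none =>
      simp only [ac_pt_none, bil]
      exact h3.add (contDiff_const.mul ((ContDiff.sum fun j _ => (h2 j).mul (h1 j)).add h4))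
    | some j => exact h1 j
  · cases o with
    | none =>
      simp only [tv, mk_none, bil]
      exact contDiff_const.mul (ContDiff.sum fun j _ => (h2 j).mul contDiff_const)
    | some j => exact contDiff_const

theorem ac_jet2 (hg : DifferentiableOn ℂ g (Dom m r)) (j : ℕ) :
    ContDiffOn ℝ 1 (fun x : Zs m × Zs m => jet g j x.1 x.2) (Dom m r ×ˢ univ) :=
  (contDiffOn_of_hol ((isOpen_Dom r).prod isOpen_univ) (hol_jet2 (isOpen_Dom r) hg j)
    1).restrict_scalars ℝ

theorem ac_at (hg : DifferentiableOn ℂ g (Dom m r)) (j : ℕ) {Z : Zs m} (hZ : Z ∈ Dom m r)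
    (v : Zs m) : DifferentiableAt ℂ (fun x : Zs m × Zs m => jet g j x.1 x.2) (Z, v) :=
  (hol_jet2 (isOpen_Dom r) hg j).differentiableAt
    (((isOpen_Dom r).prod isOpen_univ).mem_nhds ⟨hZ, mem_univ _⟩)

theorem ac_jet_dd_zero (g : Zs m → ℂ) (j : ℕ) (Z v : Zs m) : jet (dd 0 g) j Z v = 0 := by
  have h : dd (0 : Zs m) g = fun _ => 0 := by
    funext Y
    simp [dd]
  rw [h]
  cases j with
  | zero => rfl
  | succ j => exact jet_const 0 (Nat.succ_ne_zero j) Z v

theorem ac_line (ξ a : Fin m → ℂ) (b t : ℝ) (p : Xs m) (s : ℝ) :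
    acPhi ξ (t, p + s • ((a, b) : Xs m)) = acPhi ξ (t, p) + s • acV ξ p.1 a b +
      s ^ 2 • ((mk 0 (I * bil (star a) a), 0) : Zs m × Zs m) := by
  have e1 : (p + s • ((a, b) : Xs m)).1 = p.1 + (s : ℂ) • a := by
    funext j
    simp
  have e2 : (p + s • ((a, b) : Xs m)).2 = p.2 + s * b := by simp
  have e3 : star (p.1 + (s : ℂ) • a) = star p.1 + (s : ℂ) • star a := by
    funext j
    simp
  refine Prod.ext (zs_ext ?_ fun j => ?_) (zs_ext ?_ fun j => ?_)
  · simp only [acPhi, acV, Prod.fst_add, Prod.smul_fst, Pi.add_apply, Pi.smul_apply, mk_none,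
      real_smul]
    rw [ac_pt_none, ac_pt_none, e1, e2, e3]
    simp only [bil_add_left, bil_add_right, bil_smul_left, bil_smul_right]
    rw [bil_comm (star a) p.1]
    push_cast
    ring
  · simp [acPhi, acV, pt]
  · simp only [acPhi, acV, Prod.snd_add, Prod.smul_snd, Pi.add_apply, Pi.smul_apply, mk_none,
      real_smul, tv]
    rw [e1, e3]
    simp only [bil_add_left, bil_smul_left, Pi.zero_apply]
    ring
  · simp [acPhi, acV, tv]

theorem contDiffOn_cj (hδ : Sm m r δ) (hg : DifferentiableOn ℂ g (Dom m r)) (ξ : Fin m → ℂ)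
    (j : ℕ) (ht : t ∈ Ioo 0 δ) : ContDiffOn ℝ 1 (cj g ξ j t) (ball 0 δ) := by
  have h : ContDiff ℝ 1 (fun p : Xs m => acPhi ξ (t, p)) := (ac_contDiff ξ).comp (by fun_prop)
  exact (ac_jet2 hg j).comp h.contDiffOn fun p hp => ⟨hδ.pt_mem hp ht, mem_univ _⟩

theorem continuousOn_cj (hδ : Sm m r δ) (hg : DifferentiableOn ℂ g (Dom m r)) (ξ : Fin m → ℂ)
    (j : ℕ) : ContinuousOn (fun x : ℝ × Xs m => cj g ξ j x.1 x.2) (Ioo 0 δ ×ˢ ball 0 δ) := by
  exact (ac_jet2 hg j).continuousOn.comp (ac_contDiff ξ).continuous.continuousOn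
    fun x hx => ⟨hδ.pt_mem hx.2 hx.1, mem_univ _⟩

theorem ac_fderiv (hδ : Sm m r δ) (hg : DifferentiableOn ℂ g (Dom m r)) (ξ : Fin m → ℂ) (j : ℕ)
    (ht : t ∈ Ioo 0 δ) (hp : p ∈ ball (0 : Xs m) δ) (a : Fin m → ℂ) (b : ℝ) :
    fderiv ℝ (cj g ξ j t) p (a, b) =
      fderiv ℂ (fun x : Zs m × Zs m => jet g j x.1 x.2) (pt p t, tv (star p.1) ξ)
        (acV ξ p.1 a b) := by
  have hd : DifferentiableAt ℝ (cj g ξ j t) p :=
    ((contDiffOn_cj hδ hg ξ j ht).differentiableOn one_ne_zero).differentiableAt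
      (isOpen_ball.mem_nhds hp)
  have l1 : HasDerivAt (fun s : ℝ => p + s • ((a, b) : Xs m)) (a, b) 0 := by
    simpa using ((hasDerivAt_id (0 : ℝ)).smul_const ((a, b) : Xs m)).const_add p
  have h1 := hd.hasFDerivAt.comp_hasDerivAt_of_eq (0 : ℝ) l1 (by simp)
  have l2 : HasDerivAt (fun s : ℝ => acPhi ξ (t, p + s • ((a, b) : Xs m))) (acV ξ p.1 a b) 0 := by
    simp only [ac_line]
    simpa using (((hasDerivAt_id (0 : ℝ)).smul_const (acV ξ p.1 a b)).const_add
      (acPhi ξ (t, p))).fun_add ((hasDerivAt_pow 2 (0 : ℝ)).smul_const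
        ((mk 0 (I * bil (star a) a), 0) : Zs m × Zs m))
  have h2 := ((ac_at hg j (hδ.pt_mem hp ht) (tv (star p.1) ξ)).hasFDerivAt.restrictScalars
    ℝ).comp_hasDerivAt_of_eq (0 : ℝ) l2 (by simp [acPhi])
  exact h1.unique h2

theorem Lx_cj (hδ : Sm m r δ) (hg : DifferentiableOn ℂ g (Dom m r)) (ξ : Fin m → ℂ) (j : ℕ)
    (ht : t ∈ Ioo 0 δ) (hp : p ∈ ball (0 : Xs m) δ) :
    Lx ξ (cj g ξ j t) p = cj g ξ (j + 1) t p := by
  have e : ((tv (star p.1) ξ, 0) : Zs m × Zs m) = (1 / 2 : ℂ) • acV ξ p.1 ξ 0 +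
      (-I / 2) • acV ξ p.1 (I • ξ) 0 + (I * bil (star p.1) ξ) • acV ξ p.1 0 1 := by
    have e3 : star (I • ξ) = (-I) • star ξ := by
      funext j
      simp
    refine Prod.ext (zs_ext ?_ fun j => ?_) (zs_ext ?_ fun j => ?_)
    · simp only [acV, tv, Prod.fst_add, Prod.smul_fst, Pi.add_apply, Pi.smul_apply, mk_none,
        smul_eq_mul, e3, bil_smul_right]
      simp only [bil, Pi.zero_apply, star_zero, mul_zero, Finset.sum_const_zero]
      push_cast
      linear_combination (I / 2 * (∑ j, (star p.1) j * ξ j - ∑ j, p.1 j * (star ξ) j)) * I_mul_I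
    · simp only [acV, tv, Prod.fst_add, Prod.smul_fst, Pi.add_apply, Pi.smul_apply, mk_some,
        smul_eq_mul, Pi.zero_apply]
      linear_combination (ξ j / 2) * I_mul_I
    · simp only [acV, Prod.snd_add, Prod.smul_snd, Pi.add_apply, Pi.smul_apply, mk_none,
        smul_eq_mul, e3, bil_smul_left]
      simp only [bil, Pi.zero_apply, star_zero, zero_mul, Finset.sum_const_zero]
      linear_combination (-I * ∑ j, (star ξ) j * ξ j) * I_mul_I
    · simp [acV]
  have h := fderiv_jet2 (isOpen_Dom r) hg j (hδ.pt_mem hp ht) (tv (star p.1) ξ)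
    (tv (star p.1) ξ) 0
  rw [ac_jet_dd_zero, mul_zero, add_zero, e, map_add, map_add, map_smul, map_smul, map_smul] at h
  rw [Lx, ac_fderiv hδ hg ξ j ht hp, ac_fderiv hδ hg ξ j ht hp, ac_fderiv hδ hg ξ j ht hp, cj,
    jet_succ, ← h]
  simp only [smul_eq_mul]
  ring

theorem Lb_cj (hδ : Sm m r δ) (hg : DifferentiableOn ℂ g (Dom m r)) (ξ η : Fin m → ℂ) (j : ℕ)
    (ht : t ∈ Ioo 0 δ) (hp : p ∈ ball (0 : Xs m) δ) :
    Lb η (cj g ξ j t) p =
      2 * I * j * bil ξ (star η) * cj (dd (ew m) g) ξ (j - 1) t p := by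
  have e : (2 * I * bil ξ (star η)) • ((0, ew m) : Zs m × Zs m) = (1 / 2 : ℂ) • acV ξ p.1 η 0 +
      (I / 2) • acV ξ p.1 (I • η) 0 + (-(I * bil p.1 (star η))) • acV ξ p.1 0 1 := by
    have e3 : star (I • η) = (-I) • star η := by
      funext j
      simp
    rw [bil_comm ξ]
    refine Prod.ext (zs_ext ?_ fun j => ?_) (zs_ext ?_ fun j => ?_)
    · simp only [acV, Prod.fst_add, Prod.smul_fst, Pi.add_apply, Pi.smul_apply, mk_none,
        smul_eq_mul, e3, bil_smul_right]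
      simp only [bil, Pi.zero_apply, star_zero, mul_zero, Finset.sum_const_zero]
      push_cast
      linear_combination (-I / 2 * (∑ j, (star p.1) j * η j - ∑ j, p.1 j * (star η) j)) * I_mul_I
    · simp only [acV, Prod.fst_add, Prod.smul_fst, Pi.add_apply, Pi.smul_apply, mk_some,
        smul_eq_mul, Pi.zero_apply]
      linear_combination (-η j / 2) * I_mul_I
    · simp only [acV, ew, Prod.snd_add, Prod.smul_snd, Pi.add_apply, Pi.smul_apply, mk_none,
        smul_eq_mul, e3, bil_smul_left]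
      simp only [bil, Pi.zero_apply, star_zero, zero_mul, Finset.sum_const_zero]
      linear_combination (I * ∑ j, (star η) j * ξ j) * I_mul_I
    · simp [acV, ew]
  have h := fderiv_jet2 (isOpen_Dom r) hg j (hδ.pt_mem hp ht) (tv (star p.1) ξ) 0 (ew m)
  rw [ac_jet_dd_zero, zero_add] at h
  have h2 := congrArg (fderiv ℂ (fun x : Zs m × Zs m => jet g j x.1 x.2)
    (pt p t, tv (star p.1) ξ)) e
  rw [map_add, map_add, map_smul, map_smul, map_smul, map_smul, h] at h2
  rw [Lb, ac_fderiv hδ hg ξ j ht hp, ac_fderiv hδ hg ξ j ht hp, ac_fderiv hδ hg ξ j ht hp, cj]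
  simp only [smul_eq_mul] at h2
  linear_combination -h2

theorem Lt_cj (hδ : Sm m r δ) (hg : DifferentiableOn ℂ g (Dom m r)) (ξ : Fin m → ℂ) (j : ℕ)
    (ht : t ∈ Ioo 0 δ) (hp : p ∈ ball (0 : Xs m) δ) :
    Lt (cj g ξ j t) p = cj (dd (ew m) g) ξ j t p := by
  have e : acV ξ p.1 0 1 = (ew m, 0) := by
    refine Prod.ext (zs_ext ?_ fun j => ?_) (zs_ext ?_ fun j => ?_) <;> simp [acV, ew, bil]
  rw [Lt, ac_fderiv hδ hg ξ j ht hp, e, fderiv_jet2 (isOpen_Dom r) hg j (hδ.pt_mem hp ht),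
    ac_jet_dd_zero, mul_zero, add_zero, cj]

theorem hasDerivAt_cj (hδ : Sm m r δ) (hg : DifferentiableOn ℂ g (Dom m r)) (ξ : Fin m → ℂ)
    (j : ℕ) (ht : t ∈ Ioo 0 δ) (hp : p ∈ ball (0 : Xs m) δ) :
    HasDerivAt (fun s : ℝ => cj g ξ j s p) (I * cj (dd (ew m) g) ξ j t p) t := by
  have e : ∀ s : ℝ, acPhi ξ (s, p) = acPhi ξ (0, p) + s • (I • ((ew m, 0) : Zs m × Zs m)) := by
    intro s
    refine Prod.ext (zs_ext ?_ fun j => ?_) ?_
    · simp only [acPhi, ew, Prod.fst_add, Prod.smul_fst, Pi.add_apply, Pi.smul_apply, mk_none,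
        real_smul, ac_pt_none, smul_eq_mul]
      push_cast
      ring
    · simp [acPhi, ew, pt]
    · simp [acPhi]
  have l2 : HasDerivAt (fun s : ℝ => acPhi ξ (s, p)) (I • ((ew m, 0) : Zs m × Zs m)) t := by
    have h0 := ((hasDerivAt_id t).smul_const (I • ((ew m, 0) : Zs m × Zs m))).const_add
      (acPhi ξ (0, p))
    rw [one_smul] at h0
    exact h0.congr_of_eventuallyEq (Eventually.of_forall e)
  have h2 := ((ac_at hg j (hδ.pt_mem hp ht) (tv (star p.1) ξ)).hasFDerivAt.restrictScalars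
    ℝ).comp_hasDerivAt_of_eq t l2 rfl
  rw [ContinuousLinearMap.coe_restrictScalars', map_smul,
    fderiv_jet2 (isOpen_Dom r) hg j (hδ.pt_mem hp ht), ac_jet_dd_zero, mul_zero, add_zero] at h2
  exact h2

/-- Cauchy estimate along the tangential line. -/
theorem cj_growth (hδ : Sm m r δ) (hg : DifferentiableOn ℂ g (Dom m r)) {M : ℝ}
    (hM : ∀ Z ∈ Dom m r, ‖g Z‖ ≤ M) (ξ : Fin m → ℂ) (j : ℕ) :
    ∃ C : ℝ, ∀ p ∈ ball (0 : Xs m) δ, ∀ t ∈ Ioo 0 δ, ‖cj g ξ j t p‖ ≤ C / t ^ j := by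
  have hδ0 := hδ.1
  have hr : 0 < r := by
    have h1 := hδ.2 0 (by simpa using hδ0.le) 0 (by simpa using hδ0.le)
    have h2 := norm_nonneg (pt (0 : Xs m) 0)
    linarith
  have hc : Continuous (fun p : Xs m => (acPhi ξ (0, p)).2) :=
    ((ac_contDiff ξ).continuous.comp (by fun_prop)).snd
  obtain ⟨T, hT⟩ := (isCompact_closedBall (0 : Xs m) δ).exists_bound_of_continuousOn
    hc.continuousOn
  have hT0 : 0 ≤ T := (norm_nonneg _).trans (hT 0 (mem_closedBall_self hδ0.le))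
  have hn := nsq_nonneg ξ
  obtain ⟨c, hc0, hc1, hc2⟩ : ∃ c : ℝ, 0 < c ∧ c * (δ * T) ≤ r / 2 ∧ c ^ 2 * (δ * nsq ξ) < 1 := by
    have a1 : 0 ≤ δ * T := by positivity
    have a2 : 0 ≤ δ * nsq ξ := by positivity
    refine ⟨min (r / 2 / (δ * T + 1)) (1 / (δ * nsq ξ + 1)), by positivity, ?_, ?_⟩
    · have b1 := (le_div_iff₀ (by positivity)).1
        (min_le_left (r / 2 / (δ * T + 1)) (1 / (δ * nsq ξ + 1)))
      have b0 : 0 < min (r / 2 / (δ * T + 1)) (1 / (δ * nsq ξ + 1)) := by positivity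
      nlinarith
    · have b1 := (le_div_iff₀ (by positivity)).1
        (min_le_right (r / 2 / (δ * T + 1)) (1 / (δ * nsq ξ + 1)))
      have b0 : 0 < min (r / 2 / (δ * T + 1)) (1 / (δ * nsq ξ + 1)) := by positivity
      generalize min (r / 2 / (δ * T + 1)) (1 / (δ * nsq ξ + 1)) = c at b0 b1
      have b2 : c * (δ * nsq ξ) < 1 := by nlinarith
      have b3 : c ≤ 1 := by nlinarith
      have b4 : 0 ≤ c * (δ * nsq ξ) := by positivity
      nlinarith
  refine ⟨j.factorial * M / c ^ j, fun p hp t ht => ?_⟩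
  have ht0 := ht.1
  have hin : ∀ s : ℂ, ‖s‖ ≤ c * t → pt p t + s • tv (star p.1) ξ ∈ Dom m r := by
    intro s hs
    have hs0 := norm_nonneg s
    refine ⟨?_, ?_⟩
    · have h1 := hδ.2 p (mem_ball_zero_iff.1 hp).le t (by rw [abs_of_pos ht.1]; exact ht.2.le)
      have h2 : ‖tv (star p.1) ξ‖ ≤ T := hT p (ball_subset_closedBall hp)
      have h3 : ‖s • tv (star p.1) ξ‖ ≤ c * δ * T := by
        rw [norm_smul]
        have := ht.2.le
        gcongr
        exact hs.trans (by gcongr)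
      have h4 := norm_add_le (pt p t) (s • tv (star p.1) ξ)
      nlinarith
    · have e1 : zc (pt p t + s • tv (star p.1) ξ) = p.1 + s • ξ := by
        funext i
        simp [pt, tv]
      have e3 : star (p.1 + s • ξ) = star p.1 + conj s • star ξ := by
        funext i
        simp
      have e4 : (nsq (p.1 + s • ξ) : ℂ) = nsq p.1 + (s * bil (star p.1) ξ +
          conj (s * bil (star p.1) ξ)) + (s * conj s) * nsq ξ := by
        rw [← bil_star_self, ← bil_star_self, ← bil_star_self, e3, map_mul, conj_bil, star_star]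
        simp only [bil_add_left, bil_add_right, bil_smul_left, bil_smul_right]
        rw [bil_comm (star ξ) p.1]
        ring
      rw [Complex.add_conj, Complex.mul_conj, Complex.normSq_eq_norm_sq] at e4
      have e5 : nsq (p.1 + s • ξ) = nsq p.1 + 2 * (s * bil (star p.1) ξ).re +
          ‖s‖ ^ 2 * nsq ξ := by exact_mod_cast e4
      have e6 : ((pt p t + s • tv (star p.1) ξ) none).im =
          nsq p.1 + t + 2 * (s * bil (star p.1) ξ).re := by
        rw [Pi.add_apply, Complex.add_im, pt_none_im]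
        simp [tv]
        ring
      rw [e1, e5, e6]
      have h5 : ‖s‖ ^ 2 * nsq ξ ≤ (c * t) ^ 2 * nsq ξ := by gcongr
      have h6 : (c * t) ^ 2 * nsq ξ ≤ c ^ 2 * (δ * nsq ξ) * t := by
        have : t * t ≤ δ * t := by gcongr; exact ht.2.le
        have h7 : 0 ≤ c ^ 2 * nsq ξ := by positivity
        nlinarith
      nlinarith
  have h := norm_jet_le (isOpen_Dom r) hg (by positivity : 0 < c * t) hin hM j
  rw [mul_pow, ← div_div] at h
  exact h

end Pool.Agent.Lib.MP_601e9e_an.Rg
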