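import Pool.Agent.Lib.MP_601e9e_an.Rg.Siegel

open Complex Filter Topology Set Metric MeasureTheory
open scoped ComplexConjugate ContDiff

namespace Pool.Agent.Lib.MP_601e9e_an.Rg

variable {m : ℕ}

abbrev Vs (m : ℕ) := EuclideanSpace ℂ (Fin (m + 1))

abbrev Bs (m : ℕ) := OrthonormalBasis (Fin (m + 1)) ℂ (Vs m)

noncomputable def lam (Z : Zs m) : ℂ := (I + Z none)⁻¹

noncomputable def cw (b : Bs m) (Z : Zs m) : Vs m :=
  (2 * I) • b 0 + ∑ j : Fin m, (2 * Z (some j)) • b j.succ

/-- The Cayley map. -/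
noncomputable def cay (b : Bs m) (Z : Zs m) : Vs m := -b 0 + lam Z • cw b Z

theorem repr_cay_zero (b : Bs m) (Z : Zs m) : b.repr (cay b Z) 0 = -1 + lam Z * (2 * I) := by
  simp [cay, cw, OrthonormalBasis.repr_self, Fin.succ_ne_zero, Ne.symm]

theorem repr_cay_succ (b : Bs m) (Z : Zs m) (j : Fin m) :
    b.repr (cay b Z) j.succ = lam Z * (2 * Z (some j)) := by
  simp [cay, cw, OrthonormalBasis.repr_self, Fin.succ_ne_zero, Pi.single_apply]

theorem norm_sq_cay (b : Bs m) {Z : Zs m} (h : I + Z none ≠ 0) :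
    ‖cay b Z‖ ^ 2 = 1 - 4 * ‖lam Z‖ ^ 2 * ((Z none).im - nsq (zc Z)) := by
  rw [← b.repr.norm_map, EuclideanSpace.norm_sq_eq, Fin.sum_univ_succ, repr_cay_zero]
  simp only [repr_cay_succ]
  have e1 : -1 + lam Z * (2 * I) = lam Z * (I - Z none) := by
    unfold lam
    field_simp
    ring
  have e2 : ‖lam Z‖ ^ 2 * ‖I + Z none‖ ^ 2 = 1 := by
    rw [← mul_pow, ← norm_mul, lam, inv_mul_cancel₀ h]
    simp
  have e3 : ‖I + Z none‖ ^ 2 = ‖I - Z none‖ ^ 2 + 4 * (Z none).im := by
    rw [Complex.sq_norm, Complex.sq_norm, Complex.normSq_apply, Complex.normSq_apply]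
    simp
    ring
  have e4 : ∑ j : Fin m, ‖lam Z * (2 * Z (some j))‖ ^ 2 = 4 * ‖lam Z‖ ^ 2 * nsq (zc Z) := by
    rw [nsq, Finset.mul_sum]
    refine Finset.sum_congr rfl fun j _ => ?_
    rw [norm_mul, norm_mul, zc_apply]
    simp
    ring
  rw [e1, e4, norm_mul, mul_pow]
  rw [e3] at e2
  linarith

theorem cay_zero (b : Bs m) : cay b 0 = b 0 := by
  have : lam (0 : Zs m) * (2 * I) = 2 := by
    simp only [lam, Pi.zero_apply, add_zero]
    field_simp
  simp only [cay, cw, Pi.zero_apply, mul_zero, zero_smul, Finset.sum_const_zero, add_zero,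
    smul_smul, this, two_smul]
  abel

theorem norm_I_add {Z : Zs m} (h : ‖Z‖ < 1 / 2) : 1 / 2 ≤ ‖I + Z none‖ := by
  have h1 : ‖Z none‖ ≤ ‖Z‖ := norm_le_pi_norm Z none
  have h2 : ‖I‖ ≤ ‖I + Z none‖ + ‖Z none‖ := by simpa using norm_sub_le (I + Z none) (Z none)
  rw [Complex.norm_I] at h2
  linarith

theorem I_add_ne {Z : Zs m} (h : ‖Z‖ < 1 / 2) : I + Z none ≠ 0 := by
  intro h0
  have := norm_I_add h
  rw [h0, norm_zero] at this
  linarith

theorem differentiableAt_cay (b : Bs m) {Z : Zs m} (h : I + Z none ≠ 0) :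
    DifferentiableAt ℂ (cay b) Z := by
  have h1 : DifferentiableAt ℂ (lam (m := m)) Z := by
    unfold lam
    exact DifferentiableAt.inv (by fun_prop) h
  have h2 : DifferentiableAt ℂ (cw b) Z := by
    unfold cw
    fun_prop
  exact (h1.smul h2).const_add _

theorem cw_line (b : Bs m) (Z : Zs m) (s : ℂ) : cw b (Z + s • ew m) = cw b Z := by
  simp [cw, ew]

theorem lam_line {Z : Zs m} (h : I + Z none ≠ 0) :
    HasDerivAt (fun s : ℂ => lam (Z + s • ew m)) (-(lam Z) ^ 2) 0 := by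
  have h1 : HasDerivAt (fun s : ℂ => I + Z none + s) 1 0 := (hasDerivAt_id _).const_add _
  have h2 := h1.inv (by simpa using h)
  have e : (fun s : ℂ => lam (Z + s • ew m)) = fun s : ℂ => (I + Z none + s)⁻¹ := by
    funext s
    simp [lam, ew, add_assoc]
  rw [e]
  refine HasDerivAt.congr_deriv h2 ?_
  simp [lam, div_eq_mul_inv]

theorem jet_cay (b : Bs m) {D : Set (Zs m)} (hD : IsOpen D) {U : Set (Vs m)} (hU : IsOpen U)
    (hne : ∀ Z ∈ D, I + Z none ≠ 0) (hmap : ∀ Z ∈ D, cay b Z ∈ U) (i : ℕ) :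
    ∃ c : ℕ → ℂ, ∀ h : Vs m → ℂ, DifferentiableOn ℂ h U → ∀ Z ∈ D,
      jet (fun Y => h (cay b Y)) i Z (ew m) =
        ∑ l ∈ Finset.range (i + 1), c l * (lam Z ^ (i + l) * jet h l (cay b Z) (cw b Z)) := by
  induction i with
  | zero => exact ⟨fun _ => 1, fun h _ Z _ => by simp [jet_zero]⟩
  | succ i ih =>
    obtain ⟨c, hc⟩ := ih
    refine ⟨fun l => (if l < i + 1 then -((i + l : ℕ) : ℂ) * c l else 0) +
      (if l = 0 then 0 else -c (l - 1)), fun h hh Z hZ => ?_⟩
    have hol : DifferentiableOn ℂ (fun Y => h (cay b Y)) D :=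
      hh.comp (fun Y hY => (differentiableAt_cay b (hne Y hY)).differentiableWithinAt) hmap
    have h1 := hasDerivAt_jet_line hD hol i Z (ew m) (s := 0) (by simpa using hZ)
    simp only [zero_smul, add_zero] at h1
    have hl := lam_line (hne Z hZ)
    have h2 : ∀ l, HasDerivAt
        (fun s : ℂ => jet h l (-b 0 + lam (Z + s • ew m) • cw b Z) (cw b Z))
        (jet h (l + 1) (cay b Z) (cw b Z) * -(lam Z) ^ 2) 0 := by
      intro l
      have h3 := hasDerivAt_jet_line hU hh l (-b 0) (cw b Z) (s := lam Z) (hmap Z hZ)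
      have h4 : lam Z = lam (Z + (0 : ℂ) • ew m) := by simp
      exact h3.comp_of_eq 0 hl h4
    have h5 := HasDerivAt.fun_sum (u := Finset.range (i + 1)) fun l _ =>
      ((hl.fun_pow (i + l)).fun_mul (h2 l)).const_mul (c l)
    have h6 : (fun s : ℂ => jet (fun Y => h (cay b Y)) i (Z + s • ew m) (ew m)) =ᶠ[𝓝 0]
        fun s : ℂ => ∑ l ∈ Finset.range (i + 1), c l * (lam (Z + s • ew m) ^ (i + l) *
          jet h l (-b 0 + lam (Z + s • ew m) • cw b Z) (cw b Z)) := by
      filter_upwards [eventually_line_mem hD hZ (ew m)] with s hs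
      rw [hc h hh _ hs]
      simp only [cay, cw_line]
    rw [h1.unique (h5.congr_of_eventuallyEq h6)]
    simp only [add_mul, Finset.sum_add_distrib, mul_add, zero_smul, add_zero]
    congr 1
    · rw [Finset.sum_range_succ (n := i + 1)]
      simp only [lt_irrefl, if_false, zero_mul, add_zero]
      refine Finset.sum_congr rfl fun l hl => ?_
      rw [if_pos (Finset.mem_range.1 hl)]
      change _ = _ * (_ * jet h l (-b 0 + lam Z • cw b Z) (cw b Z))
      rcases Nat.eq_zero_or_pos (i + l) with h0 | h0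
      · simp [h0]
      · obtain ⟨e, he⟩ := Nat.exists_eq_succ_of_ne_zero h0.ne'
        have : i + 1 + l = e + 2 := by omega
        rw [this, he]
        simp only [Nat.succ_eq_add_one, Nat.add_sub_cancel]
        ring
    · rw [Finset.sum_range_succ' (n := i + 1)]
      simp only [Nat.succ_ne_zero, if_false, Nat.add_sub_cancel, if_true, zero_mul, add_zero]
      refine Finset.sum_congr rfl fun l _ => ?_
      ring

theorem norm_cw_le (b : Bs m) {Z : Zs m} (h : ‖Z‖ < 1 / 2) : ‖cw b Z‖ ≤ 2 + m := by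
  unfold cw
  refine (norm_add_le _ _).trans (add_le_add ?_ ?_)
  · rw [norm_smul, b.orthonormal.1]
    simp
  · refine (norm_sum_le _ _).trans ?_
    have : ∀ j : Fin m, ‖(2 * Z (some j)) • b j.succ‖ ≤ 1 := by
      intro j
      have h1 : ‖Z (some j)‖ ≤ ‖Z‖ := norm_le_pi_norm Z _
      rw [norm_smul, b.orthonormal.1, norm_mul]
      simp only [Complex.norm_ofNat, mul_one]
      linarith
    simpa using Finset.sum_le_card_nsmul Finset.univ _ 1 fun j _ => this j

open MvPolynomial in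
/-- The coordinates in the basis `b` as linear polynomials. -/
noncomputable def crd (b : Bs m) (i : Fin (m + 1)) : MvPolynomial (Fin (m + 1)) ℂ :=
  ∑ l, C (conj (b i l)) * X l

theorem eval_crd (b : Bs m) (i : Fin (m + 1)) (x : Vs m) :
    MvPolynomial.eval (fun l => x l) (crd b i) = b.repr x i := by
  rw [b.repr_apply_apply, PiLp.inner_apply]
  simp [crd, mul_comm]

theorem deg_crd (b : Bs m) (i : Fin (m + 1)) : (crd b i).totalDegree ≤ 1 := by
  refine MvPolynomial.totalDegree_finsetSum_le fun l _ => ?_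
  refine (MvPolynomial.totalDegree_mul _ _).trans ?_
  simp

open MvPolynomial in
noncomputable def num (b : Bs m) : Option (Fin m) → MvPolynomial (Fin (m + 1)) ℂ :=
  fun o => o.elim (C I * (1 - crd b 0)) (fun j => C I * crd b j.succ)

noncomputable def den (b : Bs m) : MvPolynomial (Fin (m + 1)) ℂ := 1 + crd b 0

theorem deg_num (b : Bs m) (o : Option (Fin m)) : (num b o).totalDegree ≤ 1 := by
  cases o with
  | none =>
    refine (MvPolynomial.totalDegree_mul _ _).trans ?_
    have := (MvPolynomial.totalDegree_sub (1 : MvPolynomial (Fin (m + 1)) ℂ) (crd b 0)).trans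
      (max_le (by simp) (deg_crd b 0))
    simpa using this
  | some j =>
    refine (MvPolynomial.totalDegree_mul _ _).trans ?_
    simpa using deg_crd b j.succ

theorem deg_den (b : Bs m) : (den b).totalDegree ≤ 1 :=
  (MvPolynomial.totalDegree_add _ _).trans (max_le (by simp) (deg_crd b 0))

/-- The inverse of the Cayley map. -/
noncomputable def icay (b : Bs m) (x : Vs m) : Zs m := fun o =>
  MvPolynomial.eval (fun l => x l) (num b o) / MvPolynomial.eval (fun l => x l) (den b)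

theorem eval_den (b : Bs m) (x : Vs m) :
    MvPolynomial.eval (fun l => x l) (den b) = 1 + b.repr x 0 := by
  simp [den, eval_crd]

theorem icay_none (b : Bs m) (x : Vs m) :
    icay b x none = I * (1 - b.repr x 0) / (1 + b.repr x 0) := by
  simp [icay, num, eval_den, eval_crd]

theorem icay_some (b : Bs m) (x : Vs m) (j : Fin m) :
    icay b x (some j) = I * b.repr x j.succ / (1 + b.repr x 0) := by
  simp [icay, num, eval_den, eval_crd]

theorem den_cay (b : Bs m) {Z : Zs m} (h : I + Z none ≠ 0) : 1 + b.repr (cay b Z) 0 ≠ 0 := by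
  rw [repr_cay_zero]
  have : lam Z ≠ 0 := inv_ne_zero h
  simp [this]

theorem icay_cay (b : Bs m) {Z : Zs m} (h : I + Z none ≠ 0) : icay b (cay b Z) = Z := by
  have h2 := den_cay b h
  refine zs_ext ?_ fun j => ?_
  · rw [icay_none, div_eq_iff h2, repr_cay_zero]
    unfold lam
    field_simp
    ring
  · rw [icay_some, div_eq_iff h2, repr_cay_zero, repr_cay_succ]
    ring

theorem I_add_icay (b : Bs m) {x : Vs m} (h : 1 + b.repr x 0 ≠ 0) :
    I + icay b x none = 2 * I / (1 + b.repr x 0) := by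
  rw [icay_none]
  field_simp
  ring

theorem cay_icay (b : Bs m) {x : Vs m} (h : 1 + b.repr x 0 ≠ 0) : cay b (icay b x) = x := by
  have hl : lam (icay b x) = (1 + b.repr x 0) / (2 * I) := by
    rw [lam, I_add_icay b h, inv_div]
  apply b.repr.injective
  ext i
  refine Fin.cases ?_ (fun j => ?_) i
  · rw [repr_cay_zero, hl]
    field_simp
    ring
  · rw [repr_cay_succ, hl, icay_some]
    field_simp

theorem continuousAt_icay (b : Bs m) {x : Vs m} (h : 1 + b.repr x 0 ≠ 0) :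
    ContinuousAt (icay b) x := by
  refine continuousAt_pi.2 fun o => ?_
  cases o with
  | none =>
    simp only [icay_none]
    exact ContinuousAt.div (by fun_prop) (by fun_prop) h
  | some j =>
    simp only [icay_some]
    exact ContinuousAt.div (by fun_prop) (by fun_prop) h

theorem ball_rational (m N k K : ℕ) (hm : 0 < m) (hK : K ≤ 2 * k) (hN : N ≤ m * K)
    (x₀ : EuclideanSpace ℂ (Fin (m + 1))) (hx₀ : ‖x₀‖ = 1) (ρ : ℝ) (hρ : 0 < ρ)
    (F : EuclideanSpace ℂ (Fin (m + 1)) → EuclideanSpace ℂ (Fin N))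
    (hF : DifferentiableOn ℂ F (ball 0 1 ∩ ball x₀ ρ))
    (hc : ContinuousOn F (closedBall 0 1 ∩ ball x₀ ρ))
    (hs : ∀ x ∈ sphere 0 1 ∩ ball x₀ ρ, ‖F x‖ = 1)
    (hb : ∃ C : ℝ, ∀ i ≤ k, ∀ x ∈ ball 0 1 ∩ ball x₀ ρ, ‖iteratedFDeriv ℂ i F x‖ ≤ C) :
    ∃ (q : MvPolynomial (Fin (m + 1)) ℂ) (P : Fin N → MvPolynomial (Fin (m + 1)) ℂ),
      q ≠ 0 ∧ q.totalDegree ≤ K * (K - 1) / 2 ∧ (∀ a, (P a).totalDegree ≤ K * (K - 1) / 2) ∧
      ∀ x ∈ ball (0 : EuclideanSpace ℂ (Fin (m + 1))) 1 ∩ ball x₀ ρ, ∀ a,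
        MvPolynomial.eval (fun i => x i) q * F x a = MvPolynomial.eval (fun i => x i) (P a) := by
  obtain ⟨b, hb0⟩ : ∃ b : Bs m, b 0 = x₀ := by
    obtain ⟨b, h⟩ := Orthonormal.exists_orthonormalBasis_extension_of_card_eq (𝕜 := ℂ)
      (E := Vs m) (ι := Fin (m + 1)) (by simp) (v := fun _ => x₀) (s := {0})
      ⟨fun _ => hx₀, fun i j hij => absurd (Subsingleton.elim i j) hij⟩
    exact ⟨b, h 0 rfl⟩
  set U : Set (Vs m) := ball 0 1 ∩ ball x₀ ρ with hUdef
  have hU : IsOpen U := isOpen_ball.inter isOpen_ball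
  have hUc : Convex ℝ U := (convex_ball _ _).inter (convex_ball _ _)
  obtain ⟨r, hr, hr2, hrρ⟩ : ∃ r : ℝ, 0 < r ∧ r ≤ 1 / 2 ∧ ∀ Z : Zs m, ‖Z‖ < r →
      cay b Z ∈ ball x₀ ρ := by
    have h1 : ContinuousAt (cay b) 0 :=
      (differentiableAt_cay b (I_add_ne (by simp))).continuousAt
    rw [Metric.continuousAt_iff] at h1
    obtain ⟨d, hd, h⟩ := h1 ρ hρ
    refine ⟨min d (1 / 2), by positivity, min_le_right _ _, fun Z hZ => ?_⟩
    have := h (x := Z) (by simpa using hZ.trans_le (min_le_left _ _))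
    rwa [cay_zero, hb0] at this
  have hne : ∀ Z : Zs m, ‖Z‖ < r → I + Z none ≠ 0 := fun Z hZ => I_add_ne (hZ.trans_le hr2)
  have hmap : ∀ Z ∈ Dom m r, cay b Z ∈ U := by
    intro Z hZ
    refine ⟨mem_ball_zero_iff.2 ?_, hrρ Z hZ.1⟩
    have h1 := norm_sq_cay b (hne Z hZ.1)
    have h2 : 0 < ‖lam Z‖ := norm_pos_iff.2 (inv_ne_zero (hne Z hZ.1))
    have h3 : 0 < 4 * ‖lam Z‖ ^ 2 * ((Z none).im - nsq (zc Z)) := by
      have := sub_pos.2 hZ.2
      positivity
    nlinarith [norm_nonneg (cay b Z)]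
  have hFa : ∀ a, DifferentiableOn ℂ (fun x => F x a) U := differentiableOn_euclidean.1 hF
  have hyp : Hyp m N k r (fun a Z => F (cay b Z) a) := by
    refine ⟨hr, fun a => (hFa a).comp (fun Y hY =>
      (differentiableAt_cay b (hne Y hY.1)).differentiableWithinAt) hmap, fun p hp => ?_, ?_⟩
    · have hpt : Tendsto (fun t : ℝ => pt p t) (𝓝[>] 0) (𝓝 (pt p 0)) := by
        have : Continuous (fun t : ℝ => pt p t) :=
          continuous_pt.comp (continuous_const.prodMk continuous_id)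
        exact this.continuousAt.tendsto.mono_left nhdsWithin_le_nhds
      have h1 : ‖cay b (pt p 0)‖ = 1 := by
        have h2 := norm_sq_cay b (hne _ hp)
        rw [pt_none_im, zc_pt] at h2
        nlinarith [norm_nonneg (cay b (pt p 0))]
      have h3 : Tendsto (fun t : ℝ => cay b (pt p t)) (𝓝[>] 0)
          (𝓝[closedBall 0 1 ∩ ball x₀ ρ] (cay b (pt p 0))) := by
        refine tendsto_nhdsWithin_iff.2
          ⟨(differentiableAt_cay b (hne _ hp)).continuousAt.tendsto.comp hpt, ?_⟩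
        filter_upwards [hpt.norm.eventually_lt_const hp, self_mem_nhdsWithin] with t ht ht0
        have := hmap (pt p t) ⟨ht, by rw [pt_none_im, zc_pt]; exact lt_add_of_pos_right _ ht0⟩
        exact ⟨ball_subset_closedBall this.1, this.2⟩
      have h4 := ((hc _ ⟨mem_closedBall_zero_iff.2 h1.le, hrρ _ hp⟩).tendsto.comp h3).norm.pow 2
      rw [hs _ ⟨mem_sphere_zero_iff_norm.2 h1, hrρ _ hp⟩, one_pow] at h4
      simpa only [EuclideanSpace.norm_sq_eq, Function.comp] using h4
    · obtain ⟨C, hC⟩ := hb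
      choose c hcc using jet_cay b (isOpen_Dom r) hU (fun Z hZ => hne Z hZ.1) hmap
      refine ⟨∑ i ∈ Finset.range (k + 1), ∑ l ∈ Finset.range (i + 1),
        ‖c i l‖ * (2 ^ (i + l) * (|C| * (2 + m) ^ l)), fun a i hi Z hZ => ?_⟩
      refine le_trans ?_ (Finset.single_le_sum (f := fun i => ∑ l ∈ Finset.range (i + 1),
        ‖c i l‖ * (2 ^ (i + l) * (|C| * (2 + (m : ℝ)) ^ l)))
        (fun i _ => Finset.sum_nonneg fun l _ => by positivity)
        (Finset.mem_range.2 (Nat.lt_succ_of_le hi)))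
      rw [hcc i _ (hFa a) Z hZ]
      refine (norm_sum_le _ _).trans (Finset.sum_le_sum fun l hl => ?_)
      have hl' : l ≤ k := (Nat.lt_succ_iff.1 (Finset.mem_range.1 hl)).trans hi
      have h1 : ‖lam Z‖ ≤ 2 := by
        rw [lam, norm_inv]
        exact inv_le_of_inv_le₀ (by norm_num) (by simpa using norm_I_add (hZ.1.trans_le hr2))
      have h2 : ‖jet (fun x => F x a) l (cay b Z) (cw b Z)‖ ≤ |C| * (2 + m) ^ l := by
        rw [jet_eq_iteratedFDeriv hU (hFa a) l (hmap Z hZ)]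
        refine (ContinuousMultilinearMap.le_opNorm _ _).trans ?_
        have hcd : ContDiffAt ℂ l F (cay b Z) :=
          (contDiffOn_euclidean.2 fun a => contDiffOn_of_hol hU (hFa a) l).contDiffAt
            (hU.mem_nhds (hmap Z hZ))
        have h3 := (EuclideanSpace.proj (𝕜 := ℂ) a).norm_iteratedFDeriv_comp_left hcd le_rfl
        have h4 : ‖(EuclideanSpace.proj (𝕜 := ℂ) a : EuclideanSpace ℂ (Fin N) →L[ℂ] ℂ)‖ ≤ 1 :=
          ContinuousLinearMap.opNorm_le_bound _ zero_le_one fun x => by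
            simpa using PiLp.norm_apply_le x a
        have h5 : ‖iteratedFDeriv ℂ l (fun x => F x a) (cay b Z)‖ ≤ |C| := by
          refine le_trans h3 ?_
          have h6 := (hC l hl' _ (hmap Z hZ)).trans (le_abs_self C)
          nlinarith [norm_nonneg (iteratedFDeriv ℂ l F (cay b Z))]
        rw [Finset.prod_const, Finset.card_univ, Fintype.card_fin]
        have h7 := norm_cw_le b (hZ.1.trans_le hr2)
        gcongr
      rw [norm_mul, norm_mul, norm_pow]
      gcongr
  obtain ⟨q, P, hq0, hqd, hPd, hP⟩ := siegel hyp hm hK hN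
  obtain ⟨q', hq'd, hq'⟩ := exists_homog q hqd (num b) (den b) (deg_num b) (deg_den b)
  choose P' hP'd hP' using fun a =>
    exists_homog (P a) (hPd a) (num b) (den b) (deg_num b) (deg_den b)
  obtain ⟨δ, hδ⟩ := exists_Sm (m := m) hr
  have hmem : pt (0 : Xs m) (δ / 2) ∈ Dom m r :=
    hδ.pt_mem (mem_ball_self hδ.1) ⟨by linarith [hδ.1], by linarith [hδ.1]⟩
  obtain ⟨Z₁, hZ₁, hZ₁0⟩ := exists_eval_ne_zero hq0 (isOpen_Dom r) ⟨_, hmem⟩
  have hd₁ := den_cay b (hne _ hZ₁.1)
  have hi₁ := icay_cay b (hne _ hZ₁.1)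
  refine ⟨q', P', fun h0 => ?_, hq'd, hP'd, fun x hx a => ?_⟩
  · have h1 := hq' (fun l => cay b Z₁ l) (by rwa [eval_den])
    rw [h0, map_zero] at h1
    have h2 : (fun i => MvPolynomial.eval (fun l => cay b Z₁ l) (num b i) /
        MvPolynomial.eval (fun l => cay b Z₁ l) (den b)) = Z₁ := hi₁
    rw [h2, eval_den] at h1
    exact mul_ne_zero (pow_ne_zero _ hd₁) hZ₁0 h1.symm
  · have hev : ∀ R : MvPolynomial (Fin (m + 1)) ℂ,
        Differentiable ℂ (fun x : Vs m => MvPolynomial.eval (fun l => x l) R) := fun R =>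
      (hol_eval R).comp (differentiable_pi.2 fun l => by fun_prop)
    refine sub_eq_zero.1 (ident hU hUc (g := fun x : Vs m =>
      MvPolynomial.eval (fun l => x l) q' * F x a - MvPolynomial.eval (fun l => x l) (P' a))
      (((hev _).differentiableOn.mul (hFa a)).sub (hev _).differentiableOn) (hmap Z₁ hZ₁) ?_ x hx)
    have e1 : ∀ᶠ y in 𝓝 (cay b Z₁), 1 + b.repr y 0 ≠ 0 :=
      ContinuousAt.eventually_ne (by fun_prop) hd₁
    have e2 : ∀ᶠ y in 𝓝 (cay b Z₁), icay b y ∈ Dom m r :=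
      (continuousAt_icay b hd₁).preimage_mem_nhds ((isOpen_Dom r).mem_nhds (by rwa [hi₁]))
    filter_upwards [e1, e2] with y h1 h2
    have h3 := hP _ h2 a
    rw [cay_icay b h1] at h3
    rw [hq' _ (by rwa [eval_den]), hP' a _ (by rwa [eval_den]), mul_assoc]
    change _ * (MvPolynomial.eval (icay b y) q * _) - _ * MvPolynomial.eval (icay b y) (P a) = 0
    rw [h3, sub_self]

end Pool.Agent.Lib.MP_601e9e_an.Rg
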