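import Pool.Agent.Lib.MP_601e9e_an.Rg.Jet

open Complex Filter Topology Set Metric MeasureTheory
open scoped ComplexConjugate ContDiff Matrix

namespace Pool.Agent.Lib.MP_601e9e_an.Rg

open scoped NNReal

/-- Growth of the derivatives of a holomorphic map with a Hoelder derivative. -/
theorem hold {E : Type*} [NormedAddCommGroup E] [NormedSpace ℂ E] [FiniteDimensional ℂ E]
    {N : ℕ} {F : E → EuclideanSpace ℂ (Fin N)} {x₀ : E}
    (hx₀ : ‖x₀‖ = 1) {ρ : ℝ} (hρ : 0 < ρ) (hF : DifferentiableOn ℂ F (ball 0 1 ∩ ball x₀ ρ))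
    {k : ℕ} {C θ : ℝ≥0} (hθ : θ ≤ 1)
    (hH : HolderOnWith C θ (iteratedFDeriv ℂ k F) (ball 0 1 ∩ ball x₀ ρ)) :
    ∃ ρ' : ℝ, 0 < ρ' ∧ ρ' ≤ ρ ∧ ∃ C' : ℝ, ∀ x ∈ ball (0 : E) 1 ∩ ball x₀ ρ', ‖F x‖ ≤ C' ∧
      ∀ i ≤ k + 1, ‖iteratedFDeriv ℂ i F x‖ ≤ C' * (1 - ‖x‖) ^ ((θ : ℝ) - 1) := by
  set U : Set E := ball 0 1 ∩ ball x₀ ρ with hU
  have hUo : IsOpen U := isOpen_ball.inter isOpen_ball
  have hUc : Convex ℝ U := (convex_ball _ _).inter (convex_ball _ _)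
  have hcd : ∀ n : ℕ, ContDiffOn ℂ n F U := fun n =>
    contDiffOn_euclidean.2 fun a => contDiffOn_of_hol hUo (differentiableOn_euclidean.1 hF a) n
  have hd : ∀ i : ℕ, ∀ x ∈ U, DifferentiableAt ℂ (iteratedFDeriv ℂ i F) x := fun i x hx =>
    ((hcd (i + 1)).contDiffAt (hUo.mem_nhds hx)).differentiableAt_iteratedFDeriv
      (by exact_mod_cast Nat.lt_succ_self i)
  have h2 : ∀ x ∈ U, ∀ y ∈ U, ‖x - y‖ ≤ 2 := fun x hx y hy => by
    have h1 := mem_ball_zero_iff.1 hx.1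
    have h3 := mem_ball_zero_iff.1 hy.1
    have := norm_sub_le x y
    linarith
  have hb : ∀ j i : ℕ, i + j = k → ∃ B : ℝ, ∀ x ∈ U, ‖iteratedFDeriv ℂ i F x‖ ≤ B := by
    rcases U.eq_empty_or_nonempty with he | ⟨x₁, hx₁⟩
    · exact fun j i _ => ⟨0, fun x hx => by rw [he] at hx; exact hx.elim⟩
    intro j
    induction j with
    | zero =>
      intro i hi
      obtain rfl : i = k := hi
      refine ⟨‖iteratedFDeriv ℂ i F x₁‖ + C * (2 : ℝ) ^ (θ : ℝ), fun x hx => ?_⟩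
      have h := hH.dist_le_of_le hx hx₁ (d := 2) (by rw [dist_eq_norm]; exact h2 x hx x₁ hx₁)
      rw [dist_eq_norm] at h
      have := norm_sub_norm_le (iteratedFDeriv ℂ i F x) (iteratedFDeriv ℂ i F x₁)
      linarith
    | succ j ih =>
      intro i hi
      obtain ⟨B, hB⟩ := ih (i + 1) (by omega)
      have hB0 : 0 ≤ B := (norm_nonneg _).trans (hB x₁ hx₁)
      refine ⟨‖iteratedFDeriv ℂ i F x₁‖ + B * 2, fun x hx => ?_⟩
      have h := hUc.norm_image_sub_le_of_norm_fderiv_le (hd i)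
        (fun y hy => (norm_fderiv_iteratedFDeriv (𝕜 := ℂ)).le.trans (hB y hy)) hx₁ hx
      have h3 := mul_le_mul_of_nonneg_left (h2 x hx x₁ hx₁) hB0
      have := norm_sub_norm_le (iteratedFDeriv ℂ i F x) (iteratedFDeriv ℂ i F x₁)
      linarith
  have hb' : ∀ i : Fin (k + 1), ∃ B : ℝ, ∀ x ∈ U, ‖iteratedFDeriv ℂ i F x‖ ≤ B := fun i =>
    hb (k - i) i (by have := i.2; omega)
  choose B hB using hb'
  have hS : 0 ≤ ∑ i, |B i| := Finset.sum_nonneg fun i _ => abs_nonneg _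
  have hC : (0 : ℝ) ≤ C := C.2
  have low : ∀ i ≤ k, ∀ x ∈ U, ‖iteratedFDeriv ℂ i F x‖ ≤ C + ∑ i, |B i| := by
    intro i hi x hx
    have h1 := (hB ⟨i, by omega⟩ x hx).trans (le_abs_self _)
    have h3 : |B ⟨i, by omega⟩| ≤ ∑ i, |B i| :=
      Finset.single_le_sum (f := fun i => |B i|) (fun i _ => abs_nonneg _) (Finset.mem_univ _)
    linarith
  refine ⟨ρ / 2, by linarith, by linarith, C + ∑ i, |B i|, fun x hx => ?_⟩
  have hx1 := mem_ball_zero_iff.1 hx.1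
  have hx2 : ‖x - x₀‖ < ρ / 2 := mem_ball_iff_norm.1 hx.2
  have hxU : x ∈ U := ⟨hx.1, ball_subset_ball (by linarith) hx.2⟩
  have hR : 0 < 1 - ‖x‖ := by linarith
  have hR1 : 1 - ‖x‖ ≤ 1 := by linarith [norm_nonneg x]
  have hθ' : (θ : ℝ) - 1 ≤ 0 := sub_nonpos.2 (by exact_mod_cast hθ)
  have hp : 1 ≤ (1 - ‖x‖) ^ ((θ : ℝ) - 1) :=
    Real.one_le_rpow_of_pos_of_le_one_of_nonpos hR hR1 hθ'
  refine ⟨(norm_iteratedFDeriv_zero (𝕜 := ℂ)).symm.le.trans (low 0 k.zero_le x hxU),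
    fun i hi => ?_⟩
  rcases hi.eq_or_lt with rfl | hlt
  · have hsub : ball x (1 - ‖x‖) ⊆ U := by
      intro y hy
      have hy' : ‖y - x‖ < 1 - ‖x‖ := mem_ball_iff_norm.1 hy
      have e1 := norm_sub_norm_le y x
      have e2 := norm_sub_norm_le x₀ x
      have e3 := norm_sub_rev x₀ x
      have e4 := norm_sub_le_norm_sub_add_norm_sub y x x₀
      exact ⟨mem_ball_zero_iff.2 (by linarith), mem_ball_iff_norm.2 (by linarith)⟩
    have h := norm_fderiv_le_div_of_mapsTo_ball (f := iteratedFDeriv ℂ k F) (c := x)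
      (R₂ := C * (1 - ‖x‖) ^ (θ : ℝ))
      (fun y hy => (hd k y (hsub hy)).differentiableWithinAt)
      (fun y hy => mem_closedBall.2 (hH.dist_le_of_le (hsub hy) hxU (mem_ball.1 hy).le)) hR
    rw [norm_fderiv_iteratedFDeriv, mul_div_assoc, ← Real.rpow_sub_one hR.ne'] at h
    exact h.trans (mul_le_mul_of_nonneg_right (by linarith) (by linarith))
  · exact (low i (by omega) x hxU).trans (le_mul_of_one_le_right (by linarith) hp)

end Pool.Agent.Lib.MP_601e9e_an.Rg
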