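import Pool.Agent.Lib.MP_601e9e_an.Rg.Ord
import Pool.Agent.Lib.MP_601e9e_an.Rg.Act

open Complex Filter Topology Set Metric MeasureTheory
open scoped ComplexConjugate ContDiff Matrix

namespace Pool.Agent.Lib.MP_601e9e_an.Rg

variable {m : ℕ} {r α : ℝ} {l : ℕ} {g : Zs m → ℂ}

theorem gw_ht (p : Xs m) (t : ℝ) (ξ : Fin m → ℂ) (s : ℂ) :
    ht (pt p t + s • tv (star p.1) ξ) = t - ‖s‖ ^ 2 * nsq ξ := by
  have e1 : zc (pt p t + s • tv (star p.1) ξ) = p.1 + s • ξ := by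
    funext i
    simp [pt, tv]
  have e3 : star (p.1 + s • ξ) = star p.1 + conj s • star ξ := by
    funext i
    simp
  have e4 : (nsq (p.1 + s • ξ) : ℂ) = nsq p.1 + (s * bil (star p.1) ξ +
      conj (s * bil (star p.1) ξ)) + (s * conj s) * nsq ξ := by
    rw [← bil_star_self, ← bil_star_self, ← bil_star_self, e3, map_mul, conj_bil, star_star]
    simp only [bil_add_left, bil_add_right, bil_smul_left, bil_smul_right]
    rw [bil_comm (star ξ) p.1]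
    ring
  rw [Complex.add_conj, Complex.mul_conj, Complex.normSq_eq_norm_sq] at e4
  have e5 : nsq (p.1 + s • ξ) = nsq p.1 + 2 * (s * bil (star p.1) ξ).re +
      ‖s‖ ^ 2 * nsq ξ := by exact_mod_cast e4
  have e6 : ((pt p t + s • tv (star p.1) ξ) none).im =
      nsq p.1 + t + 2 * (s * bil (star p.1) ξ).re := by
    rw [Pi.add_apply, Complex.add_im, pt_none_im]
    simp [tv]
    ring
  rw [ht, e1, e5, e6]
  ring

theorem gw_cont : Continuous (ht : Zs m → ℝ) := by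
  have h1 : Continuous (fun Z : Zs m => nsq (zc Z)) :=
    continuous_nsq.comp (continuous_pi fun j => continuous_apply _)
  have h2 : Continuous (fun Z : Zs m => (Z none).im) := by fun_prop
  exact h2.sub h1

theorem gw_crude (hr : 0 < r) (hg : DifferentiableOn ℂ g (Dom m r)) {C e : ℝ} (he : e ≤ 0)
    (hb : ∀ Z ∈ Dom m r, ‖g Z‖ ≤ C * ht Z ^ e) (ξ : Fin m → ℂ) (j : ℕ) :
    Ord (e - j / 2) (cj g ξ j) := by
  obtain ⟨δ₀, h₀⟩ := exists_Sm (m := m) hr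
  have hδ : Sm m r (min δ₀ 1) := h₀.mono (lt_min h₀.1 one_pos) (min_le_left _ _)
  have hδ1 : min δ₀ 1 ≤ 1 := min_le_right _ _
  generalize min δ₀ 1 = δ at hδ hδ1
  have hδ0 := hδ.1
  have hc : Continuous (fun p : Xs m => (acPhi ξ (0, p)).2) :=
    ((ac_contDiff ξ).continuous.comp (by fun_prop)).snd
  obtain ⟨T, hT⟩ := (isCompact_closedBall (0 : Xs m) δ).exists_bound_of_continuousOn
    hc.continuousOn
  have hT0 : 0 ≤ T := (norm_nonneg _).trans (hT 0 (mem_closedBall_self hδ0.le))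
  have hn := nsq_nonneg ξ
  obtain ⟨c, hc0, hc1, hc2⟩ : ∃ c : ℝ, 0 < c ∧ c * T ≤ r / 2 ∧ c ^ 2 * nsq ξ ≤ 1 / 4 := by
    refine ⟨min (r / 2 / (T + 1)) (1 / (4 * nsq ξ + 1)), by positivity, ?_, ?_⟩
    · have b1 := (le_div_iff₀ (by positivity)).1
        (min_le_left (r / 2 / (T + 1)) (1 / (4 * nsq ξ + 1)))
      have b0 : 0 < min (r / 2 / (T + 1)) (1 / (4 * nsq ξ + 1)) := by positivity
      nlinarith
    · have b1 := (le_div_iff₀ (by positivity)).1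
        (min_le_right (r / 2 / (T + 1)) (1 / (4 * nsq ξ + 1)))
      have b0 : 0 < min (r / 2 / (T + 1)) (1 / (4 * nsq ξ + 1)) := by positivity
      generalize min (r / 2 / (T + 1)) (1 / (4 * nsq ξ + 1)) = c at b0 b1
      have b4 : 0 ≤ c * nsq ξ := by positivity
      have b2 : c * nsq ξ ≤ 1 / 4 := by nlinarith
      have b3 : c ≤ 1 := by nlinarith
      nlinarith
  refine ⟨δ, hδ0, j.factorial * (|C| * (1 / 2) ^ e) / c ^ j, fun p hp t htt => ?_⟩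
  have ht0 := htt.1
  have hs0 : 0 < √t := Real.sqrt_pos.2 ht0
  have hs1 : √t ≤ 1 := Real.sqrt_le_one.2 (htt.2.le.trans hδ1)
  have hD : IsOpen (Dom m r ∩ {Z | t / 2 < ht Z}) :=
    (isOpen_Dom r).inter (isOpen_lt continuous_const gw_cont)
  have hin : ∀ s : ℂ, ‖s‖ ≤ c * √t →
      pt p t + s • tv (star p.1) ξ ∈ Dom m r ∩ {Z | t / 2 < ht Z} := by
    intro s hs
    have h5 : ‖s‖ ^ 2 * nsq ξ ≤ (c * √t) ^ 2 * nsq ξ := by gcongr
    rw [mul_pow, Real.sq_sqrt ht0.le] at h5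
    have h6 : t / 2 < ht (pt p t + s • tv (star p.1) ξ) := by
      rw [gw_ht]
      nlinarith
    refine ⟨mem_Dom.2 ⟨?_, by linarith⟩, h6⟩
    have h1 := hδ.2 p (mem_ball_zero_iff.1 hp).le t (by rw [abs_of_pos ht0]; exact htt.2.le)
    have h2 : ‖tv (star p.1) ξ‖ ≤ T := hT p (ball_subset_closedBall hp)
    have h3 : ‖s • tv (star p.1) ξ‖ ≤ c * T := by
      rw [norm_smul]
      have h7 : ‖s‖ ≤ c := hs.trans (by nlinarith)
      gcongr
    have h4 := norm_add_le (pt p t) (s • tv (star p.1) ξ)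
    linarith
  have hM : ∀ Y ∈ Dom m r ∩ {Z | t / 2 < ht Z}, ‖g Y‖ ≤ |C| * (t / 2) ^ e := by
    intro Y hY
    have h1 : t / 2 < ht Y := hY.2
    have h2 : ht Y ^ e ≤ (t / 2) ^ e := Real.rpow_le_rpow_of_nonpos (by positivity) h1.le he
    have h3 : 0 ≤ ht Y ^ e := Real.rpow_nonneg (by linarith) _
    exact (hb Y hY.1).trans (mul_le_mul (le_abs_self C) h2 h3 (abs_nonneg C))
  have h := norm_jet_le hD (hg.mono inter_subset_left) (by positivity : 0 < c * √t) hin hM j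
  refine h.trans (le_of_eq ?_)
  have e1 : (t / 2) ^ e = (1 / 2) ^ e * t ^ e := by
    rw [← Real.mul_rpow (by norm_num) ht0.le]
    congr 1
    ring
  have e2 : √t ^ j = t ^ ((j : ℝ) / 2) := by
    rw [Real.sqrt_eq_rpow, ← Real.rpow_mul_natCast ht0.le]
    congr 1
    ring
  have e3 : 0 < t ^ ((j : ℝ) / 2) := Real.rpow_pos_of_pos ht0 _
  rw [e1, mul_pow, e2, Real.rpow_sub ht0]
  field_simp

theorem gw_ftc {f f' : ℝ → ℂ} {B B' : ℝ → ℝ} {a b : ℝ} (hab : a ≤ b)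
    (hf : ∀ s ∈ Icc a b, HasDerivAt f (f' s) s) (hB : ∀ s ∈ Icc a b, HasDerivAt B (B' s) s)
    (h : ∀ s ∈ Icc a b, ‖f' s‖ ≤ B' s) : ‖f b - f a‖ ≤ B b - B a :=
  image_norm_le_of_norm_deriv_right_le_deriv_boundary' (f := fun s => f s - f a) (f' := f')
    (B := fun s => B s - B a) (B' := B')
    (fun s hs => ((hf s hs).sub_const _).continuousAt.continuousWithinAt)
    (fun s hs => ((hf s (Ico_subset_Icc_self hs)).sub_const _).hasDerivWithinAt) (by simp)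
    (fun s hs => ((hB s hs).sub_const _).continuousAt.continuousWithinAt)
    (fun s hs => ((hB s (Ico_subset_Icc_self hs)).sub_const _).hasDerivWithinAt)
    (fun s hs => h s (Ico_subset_Icc_self hs)) (right_mem_Icc.2 hab)

theorem gw_int (hr : 0 < r) (hg : DifferentiableOn ℂ g (Dom m r)) (ξ : Fin m → ℂ) (j : ℕ)
    {γ e : ℝ} (hγ : γ ≠ 0) (h0 : Ord e (cj g ξ j))
    (h1 : Ord (γ - 1) (cj (dd (ew m) g) ξ j)) :
    ∃ δ : ℝ, 0 < δ ∧ δ ≤ 1 ∧ ∃ M K : ℝ, 0 ≤ M ∧ 0 ≤ K ∧ ∀ p ∈ ball (0 : Xs m) δ, ∀ t ∈ Ioo 0 δ,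
      ‖cj g ξ j t p‖ ≤ M + (K / γ * δ ^ γ - K / γ * t ^ γ) := by
  obtain ⟨δ₀, p₀, C₀, b₀⟩ := h0
  obtain ⟨δ₁, p₁, C₁, b₁⟩ := h1
  obtain ⟨δ₂, h₂⟩ := exists_Sm (m := m) hr
  have p₂ := h₂.1
  obtain ⟨δ, hp0, l0, l1, l2, l3⟩ : ∃ δ : ℝ, 0 < δ ∧ δ < δ₀ ∧ δ < δ₁ ∧ δ < δ₂ ∧ δ ≤ 1 := by
    have q0 : 0 < min (min δ₀ δ₁) (min δ₂ 1) := by positivity
    have q1 := min_le_left (min δ₀ δ₁) (min δ₂ 1)
    have q2 := min_le_right (min δ₀ δ₁) (min δ₂ 1)
    have q3 := min_le_left δ₀ δ₁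
    have q4 := min_le_right δ₀ δ₁
    have q5 := min_le_left δ₂ 1
    have q6 := min_le_right δ₂ 1
    exact ⟨min (min δ₀ δ₁) (min δ₂ 1) / 2, by linarith, by linarith, by linarith, by linarith,
      by linarith⟩
  refine ⟨δ, hp0, l3, |C₀ * δ ^ e|, |C₁|, abs_nonneg _, abs_nonneg _, fun p hp t htt => ?_⟩
  have hf := gw_ftc (f := fun s => cj g ξ j s p) (f' := fun s => I * cj (dd (ew m) g) ξ j s p)
    (B := fun s => |C₁| / γ * s ^ γ) (B' := fun s => |C₁| * s ^ (γ - 1)) htt.2.le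
    (fun s hs => hasDerivAt_cj h₂ hg ξ j ⟨htt.1.trans_le hs.1, hs.2.trans_lt l2⟩
      (ball_subset_ball l2.le hp))
    (fun s hs => by
      have := (Real.hasDerivAt_rpow_const (p := γ) (Or.inl (htt.1.trans_le hs.1).ne')).const_mul
        (|C₁| / γ)
      refine this.congr_deriv ?_
      field_simp)
    (fun s hs => by
      rw [norm_mul, Complex.norm_I, one_mul]
      exact (b₁ p (ball_subset_ball l1.le hp) s ⟨htt.1.trans_le hs.1, hs.2.trans_lt l1⟩).trans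
        (mul_le_mul_of_nonneg_right (le_abs_self _)
          (Real.rpow_nonneg (htt.1.trans_le hs.1).le _)))
  have h3 := (b₀ p (ball_subset_ball l0.le hp) δ ⟨hp0, l0⟩).trans (le_abs_self _)
  have h4 := norm_sub_le (cj g ξ j δ p) (cj g ξ j δ p - cj g ξ j t p)
  rw [sub_sub_cancel] at h4
  linarith

theorem gw_iter (hr : 0 < r) (hg : DifferentiableOn ℂ g (Dom m r)) (hα : α ≤ l)
    (hG : Gr m r l α g) (ξ : Fin m → ℂ) (i j : ℕ) (hi : i ≤ l) :
    Ord (α - l - j / 2) (cj ((dd (ew m))^[i] g) ξ j) := by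
  obtain ⟨C, hC⟩ := hG
  exact gw_crude hr (hol_jet (isOpen_Dom r) hg i (ew m)) (by linarith) (hC i hi) ξ j

theorem grow (hr : 0 < r) (hg : DifferentiableOn ℂ g (Dom m r)) (hα : α ≤ l)
    (hG : Gr m r l α g) (ξ : Fin m → ℂ) (i j : ℕ) (hi : i ≤ l) {β : ℝ} (hβ : 0 < β)
    (h : (j : ℝ) / 2 + i - α ≤ β) : Ord (-β) (cj ((dd (ew m))^[i] g) ξ j) := by
  obtain ⟨d, hd⟩ := Nat.exists_eq_add_of_le hi
  induction d generalizing i β with
  | zero =>
    have e : (l : ℝ) = i := by rw [hd]; simp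
    exact (gw_iter hr hg hα hG ξ i j hi).mono (by linarith)
  | succ d ih =>
    have h1 := ih (i + 1) (by omega) (β := β + 1) (by linarith) (by push_cast; linarith) (by omega)
    rw [Function.iterate_succ_apply', show -(β + 1) = -β - 1 by ring] at h1
    obtain ⟨δ, p0, p1, M, K, hM, hK, hb⟩ := gw_int hr (hol_jet (isOpen_Dom r) hg i (ew m)) ξ j
      (neg_ne_zero.2 hβ.ne') (gw_iter hr hg hα hG ξ i j hi) h1
    refine ⟨δ, p0, M + K / β, fun p hp t htt => (hb p hp t htt).trans ?_⟩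
    have q1 : 1 ≤ t ^ (-β) :=
      Real.one_le_rpow_of_pos_of_le_one_of_nonpos htt.1 (htt.2.le.trans p1) (by linarith)
    have q2 : 0 ≤ K / β * δ ^ (-β) := mul_nonneg (by positivity) (Real.rpow_nonneg p0.le _)
    rw [div_neg]
    nlinarith [mul_le_mul_of_nonneg_left q1 hM]

theorem grow0 (hr : 0 < r) (hg : DifferentiableOn ℂ g (Dom m r)) (hα : α ≤ l)
    (hG : Gr m r l α g) (hl : 1 ≤ l) (ξ : Fin m → ℂ) (j : ℕ) (h : (j : ℝ) / 2 < α) :
    Ord 0 (cj g ξ j) := by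
  have b1 : max ((j : ℝ) / 2 + 1 - α) (1 / 2) < 1 := max_lt (by linarith) (by norm_num)
  have b0 : 0 < max ((j : ℝ) / 2 + 1 - α) (1 / 2) := lt_max_of_lt_right (by norm_num)
  have h1 := grow hr hg hα hG ξ 1 j hl b0 (by push_cast; exact le_max_left _ _)
  generalize max ((j : ℝ) / 2 + 1 - α) (1 / 2) = β at b0 b1 h1
  rw [show -β = 1 - β - 1 by ring] at h1
  have hγ : 0 < 1 - β := by linarith
  obtain ⟨δ, p0, -, M, K, -, hK, hb⟩ := gw_int hr hg ξ j hγ.ne'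
    (gw_iter hr hg hα hG ξ 0 j (Nat.zero_le _)) h1
  refine ⟨δ, p0, M + K / (1 - β) * δ ^ (1 - β), fun p hp t htt => (hb p hp t htt).trans ?_⟩
  have q2 : 0 ≤ K / (1 - β) * t ^ (1 - β) :=
    mul_nonneg (by positivity) (Real.rpow_nonneg htt.1.le _)
  rw [Real.rpow_zero]
  linarith

end Pool.Agent.Lib.MP_601e9e_an.Rg
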