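import Pool.Agent.Lib.MP_601e9e_an.Rg.Rho
import Pool.Agent.Lib.MP_601e9e_an.Rg.Grow

open Complex Filter Topology Set Metric MeasureTheory
open scoped ComplexConjugate ContDiff Matrix

namespace Pool.Agent.Lib.MP_601e9e_an.Rg

variable {m N k l : ℕ} {r α : ℝ} {F : Fin N → Zs m → ℂ}

theorem bug_bdd (hF : Hyp m N k r F) (a : Fin N) : Ord 0 (fun t p => F a (pt p t)) := by
  obtain ⟨δ, hδ⟩ := exists_Sm (m := m) hF.rpos
  obtain ⟨C, hC⟩ := hF.bnd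
  refine ⟨δ, hδ.1, C, fun p hp t ht => ?_⟩
  rw [Real.rpow_zero, mul_one]
  exact hC a 0 (Nat.zero_le _) _ (hδ.pt_mem hp ht)

theorem bud_of_gr (hF : Hyp m N k r F) (hl : 1 ≤ l) (hα : α ≤ l) (hG : ∀ a, Gr m r l α (F a))
    {ε : ℝ} (hε : 0 < ε) :
    Bud F (fun j => max ((j : ℝ) / 2 - α) ε) (1 - max (1 - α) ε - ε) := by
  have hγ : 0 < max (1 - α) ε := lt_max_of_lt_right hε
  have hg : ∀ a ξ (j : ℕ), Ord (-max ((j : ℝ) / 2 - α) ε) (cj (F a) ξ j) := fun a ξ j =>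
    grow hF.rpos (hF.hol a) hα (hG a) ξ 0 j (Nat.zero_le _) (lt_max_of_lt_right hε)
      (by simp)
  refine ⟨fun i j hij => ?_, fun j => le_max_of_le_right hε.le, by linarith, bug_bdd hF, hg,
    fun ξ j hj => ?_⟩
  · have : (i : ℝ) ≤ j := Nat.cast_le.2 hij
    exact max_le_max (by linarith) le_rfl
  · refine rho hF ξ 0 (by simp [bil]) j 0 (β := max ((j : ℝ) / 2 - α) ε) (γ := max (1 - α) ε)
      (le_max_of_le_right hε.le) hγ.le (by linarith) (by linarith) (fun a => hg a ξ j)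
      (fun a => (bug_bdd hF a).mono (by linarith)) fun a => ?_
    exact grow hF.rpos (hF.hol a) hα (hG a) 0 1 0 hl hγ (by simp)

theorem bug_pr (hF : Hyp m N k r F) (hl : 1 ≤ l) (hα : α ≤ l) (hG : ∀ a, Gr m r l α (F a))
    {K : ℕ} (hK : (K : ℝ) / 2 < α) : ∃ θ : ℝ, 0 < θ ∧ ∀ (ξ η : Fin m → ℂ) (i j : ℕ), i ≤ K → j ≤ K →
      (j = 0 ∨ bil ξ (star η) = 0) → Ord θ (pr F ξ η i j) := by
  have hγ : (0 : ℝ) < max ((K : ℝ) / 2 + 1 - α) (1 / 2) := lt_max_of_lt_right (by norm_num)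
  have hγ1 : max ((K : ℝ) / 2 + 1 - α) (1 / 2) < 1 := max_lt (by linarith) (by norm_num)
  have h0 : ∀ a ξ (j : ℕ), j ≤ K → Ord 0 (cj (F a) ξ j) := fun a ξ j hj => by
    have : (j : ℝ) ≤ K := Nat.cast_le.2 hj
    exact grow0 hF.rpos (hF.hol a) hα (hG a) hl ξ j (by linarith)
  have key : ∀ (ξ η : Fin m → ℂ) (i j : ℕ), i ≤ K → j ≤ K → bil ξ (star η) = 0 →
      Ord ((1 - max ((K : ℝ) / 2 + 1 - α) (1 / 2)) / 2) (pr F ξ η i j) := by
    intro ξ η i j hi hj h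
    have hj' : (j : ℝ) ≤ K := Nat.cast_le.2 hj
    refine rho hF ξ η h i j (β := 0) (γ := max ((K : ℝ) / 2 + 1 - α) (1 / 2)) le_rfl hγ.le
      (by linarith) (by linarith) (fun a => by rw [neg_zero]; exact h0 a ξ i hi)
      (fun a => (h0 a η j hj).mono (by linarith)) fun a => ?_
    refine grow hF.rpos (hF.hol a) hα (hG a) η 1 j hl hγ (le_max_of_le_left ?_)
    push_cast
    linarith
  refine ⟨(1 - max ((K : ℝ) / 2 + 1 - α) (1 / 2)) / 2, by linarith, fun ξ η i j hi hj h => ?_⟩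
  rcases h with rfl | h
  · exact key ξ 0 i 0 hi hj (by simp [bil])
  · exact key ξ η i j hi hj h

theorem bu_of_gr (hF : Hyp m N k r F) (hl : 1 ≤ l) (hα : α ≤ l) (hG : ∀ a, Gr m r l α (F a))
    {K : ℕ} (hK : (K : ℝ) / 2 < α) : BU m N K r F := by
  intro δ hδ ι _ ξ φ hφ hb hlim
  obtain ⟨θ, hθ, hpr⟩ := bug_pr hF hl hα hG hK
  have h0 : ∀ x : Fin N × ι × Fin (K + 1), Ord 0 (cj (F x.1) (ξ x.2.1) x.2.2) := fun x => by
    have : ((x.2.2 : ℕ) : ℝ) ≤ K := Nat.cast_le.2 (Nat.lt_succ_iff.1 x.2.2.2)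
    exact grow0 hF.rpos (hF.hol x.1) hα (hG x.1) hl _ _ (by linarith)
  obtain ⟨δ₁, h1, h1', M, hM, hcol⟩ := Ord.unif (c := fun _ => 0) h0 hδ.1
  have h2 : ∀ x : {x : ι × ι × Fin (K + 1) × Fin (K + 1) //
      (x.2.2.2 : ℕ) = 0 ∨ bil (ξ x.1) (star (ξ x.2.1)) = 0},
      Ord θ (pr F (ξ x.1.1) (ξ x.1.2.1) x.1.2.2.1 x.1.2.2.2) := fun x =>
    hpr _ _ _ _ (Nat.lt_succ_iff.1 x.1.2.2.1.2) (Nat.lt_succ_iff.1 x.1.2.2.2.2) x.2
  obtain ⟨δ₂, h3, h3', M', -, hp2⟩ := Ord.unif (c := fun _ => θ) h2 h1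
  have hle : δ₂ ≤ δ := h3'.trans h1'
  have hcM : ∀ p ∈ ball (0 : Xs m) δ₂, ∀ t ∈ Ioo 0 δ₂, ‖col F ξ K t p‖ ≤ M := fun p hp t ht =>
    (pi_norm_le_iff_of_nonneg (by linarith)).2 fun x => by
      have := hcol x p (ball_subset_ball h3' hp) t ⟨ht.1, ht.2.trans_le h3'⟩
      rwa [Real.rpow_zero, mul_one] at this
  refine bu hF (hδ.mono h3 hle) (ι := Unit) (fun _ => 0) (K := 0) (Nat.zero_le _) hφ ?_ ?_
  · obtain ⟨C, c, hC⟩ := hb
    refine ⟨|C| * (1 + M) ^ c, 0, fun x hx => ?_⟩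
    rw [pow_zero, mul_one]
    refine (hC x ⟨⟨hx.1.1, hx.1.2.trans_le hle⟩, ball_subset_ball hle hx.2⟩).trans ?_
    have := hcM _ hx.2 _ hx.1
    have h4 := norm_nonneg (col F ξ K x.1 x.2)
    refine (mul_le_mul_of_nonneg_right (le_abs_self C) (by positivity)).trans ?_
    gcongr
  · intro p hp _ _ t ht ht0 _
    refine tendsto_of_subseq_tendsto fun ns hns => ?_
    obtain ⟨A, -, ms, hms, hA⟩ := tendsto_subseq_of_bounded
      (isBounded_closedBall (x := (0 : Fin N × ι × Fin (K + 1) → ℂ)) (r := M))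
      (x := fun n => col F ξ K (t (ns n)) p)
      (fun n => mem_closedBall_zero_iff.2 (hcM p hp _ (ht _)))
    have hT : Tendsto (fun n => t (ns (ms n))) atTop (𝓝 0) :=
      ht0.comp (hns.comp hms.tendsto_atTop)
    have hc : ∀ x, Tendsto (fun n => col F ξ K (t (ns (ms n))) p x) atTop (𝓝 (A x)) :=
      tendsto_pi_nhds.1 hA
    have rel : ∀ (i i' : ι) (j j' : Fin (K + 1)), ((j' : ℕ) = 0 ∨ bil (ξ i) (star (ξ i')) = 0) →
        ∑ a, A (a, i, j) * conj (A (a, i', j')) -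
          (if (j : ℕ) = 0 ∧ (j' : ℕ) = 0 then 1 else 0) = 0 := by
      intro i i' j j' h
      have l1 : Tendsto (fun n => pr F (ξ i) (ξ i') j j' (t (ns (ms n))) p) atTop
          (𝓝 (∑ a, A (a, i, j) * conj (A (a, i', j')) -
            (if (j : ℕ) = 0 ∧ (j' : ℕ) = 0 then 1 else 0))) :=
        (tendsto_finsetSum _ fun a _ => (hc (a, i, j)).mul
          ((Complex.continuous_conj.tendsto _).comp (hc (a, i', j')))).sub_const _
      have l2 : Tendsto (fun n => M' * t (ns (ms n)) ^ θ) atTop (𝓝 0) := by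
        have := (hT.rpow_const (Or.inr hθ.le)).const_mul M'
        rwa [Real.zero_rpow hθ.ne', mul_zero] at this
      exact tendsto_nhds_unique l1
        (squeeze_zero_norm (fun n => hp2 ⟨(i, i', j, j'), h⟩ p hp _ (ht _)) l2)
    refine ⟨ms, hlim p (ball_subset_ball hle hp) A ⟨fun i => ?_, fun i i' j hj => ?_,
      fun i i' j j' h hj hj' => ?_⟩ (fun n => t (ns (ms n)))
      (fun n => ⟨(ht _).1, (ht _).2.trans_le hle⟩) hT hA⟩
    · have h := rel i i 0 0 (Or.inl rfl)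
      rw [if_pos ⟨rfl, rfl⟩, sub_eq_zero] at h
      simp only [Complex.mul_conj, Complex.normSq_eq_norm_sq] at h
      exact_mod_cast h
    · have h := rel i i' j 0 (Or.inl rfl)
      rwa [if_neg fun e => hj (Fin.ext e.1), sub_zero] at h
    · have h := rel i i' j j' (Or.inr h)
      rwa [if_neg fun e => hj (Fin.ext e.1), sub_zero] at h

end Pool.Agent.Lib.MP_601e9e_an.Rg
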