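import Pool.Agent.Lib.MP_601e9e_an.Rg.Defs2

open Complex Filter Topology Set Metric MeasureTheory
open scoped ComplexConjugate ContDiff Matrix

namespace Pool.Agent.Lib.MP_601e9e_an.Rg

variable {m : ℕ} {r : ℝ}

theorem e2_nsq (z x : Fin m → ℂ) (s : ℂ) :
    nsq (z + s • x) = nsq z + 2 * (s * bil (star z) x).re + ‖s‖ ^ 2 * nsq x := by
  simp only [nsq, bil, Finset.mul_sum, Complex.re_sum, ← Finset.sum_add_distrib]
  refine Finset.sum_congr rfl fun j _ => ?_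
  simp only [Pi.add_apply, Pi.smul_apply, smul_eq_mul, Pi.star_apply, RCLike.star_def,
    Complex.sq_norm, Complex.normSq_apply, Complex.add_re, Complex.add_im, Complex.mul_re,
    Complex.mul_im, Complex.conj_re, Complex.conj_im]
  ring

theorem e2_ht (Z : Zs m) (ζ x : Fin m → ℂ) (s : ℂ) :
    ht (Z + s • tv ζ x) = ht Z + 2 * (s * (bil ζ x - bil (star (zc Z)) x)).re
      - ‖s‖ ^ 2 * nsq x := by
  have h1 : zc (Z + s • tv ζ x) = zc Z + s • x := by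
    funext j; simp [tv]
  have h2 : ((Z + s • tv ζ x) none).im = (Z none).im + 2 * (s * bil ζ x).re := by
    simp [tv]; ring
  rw [ht, ht, h1, h2, e2_nsq, mul_sub, Complex.sub_re]
  ring

theorem e2_le (x : Fin m → ℂ) (j : Fin m) : ‖x j‖ ≤ √(nsq x) :=
  Real.le_sqrt_of_sq_le
    (Finset.single_le_sum (f := fun j => ‖x j‖ ^ 2) (fun _ _ => sq_nonneg _) (Finset.mem_univ j))

theorem e2_bil {a x : Fin m → ℂ} {ε : ℝ} (h : ∀ j, ‖a j‖ ≤ ε) :
    ‖bil a x‖ ≤ m * (ε * √(nsq x)) := by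
  refine (norm_sum_le _ _).trans ?_
  refine (Finset.sum_le_card_nsmul _ _ (ε * √(nsq x)) fun j _ => ?_).trans ?_
  · rw [norm_mul]
    exact mul_le_mul (h j) (e2_le x j) (norm_nonneg _) ((norm_nonneg _).trans (h j))
  · simp

theorem e2_circle {H N : ℝ} (hH : 0 < H) (hN : 0 < N) (c : ℂ) :
    {s : ℂ | H + 2 * (s * c).re - ‖s‖ ^ 2 * N = 0}.Infinite := by
  have hq : 0 < H / N + (c.re ^ 2 + c.im ^ 2) / N ^ 2 := by positivity
  obtain ⟨ρ, hρ, hρ2⟩ : ∃ ρ : ℝ, 0 < ρ ∧ ρ ^ 2 = H / N + (c.re ^ 2 + c.im ^ 2) / N ^ 2 :=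
    ⟨_, Real.sqrt_pos.2 hq, Real.sq_sqrt hq.le⟩
  refine infinite_of_injOn_mapsTo (s := Icc (0 : ℝ) 1)
    (f := fun t => (⟨c.re / N + ρ * t, -c.im / N + ρ * √(1 - t ^ 2)⟩ : ℂ)) ?_ ?_
    (Icc_infinite zero_lt_one)
  · intro t _ t' _ h
    have h1 := congrArg Complex.re h
    simp only [add_right_inj] at h1
    exact mul_left_cancel₀ hρ.ne' h1
  · intro t ht
    have h1 : √(1 - t ^ 2) ^ 2 = 1 - t ^ 2 := Real.sq_sqrt (by nlinarith [ht.1, ht.2])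
    simp only [mem_ofPred_eq, Complex.sq_norm, Complex.normSq_apply, Complex.mul_re]
    generalize √(1 - t ^ 2) = q at h1
    have h2 : ρ ^ 2 * N ^ 2 = H * N + (c.re ^ 2 + c.im ^ 2) := by
      rw [hρ2]; field_simp
    have h3 : q ^ 2 + t ^ 2 = 1 := by linarith
    field_simp
    linear_combination (-1 : ℝ) * h2 - ρ ^ 2 * N ^ 2 * h3

theorem ext2 (hr : 0 < r) : ∃ ε : ℝ, 0 < ε ∧ ∀ (Z₀ : Zs m) (ζ x : Fin m → ℂ), ‖Z₀‖ < ε →
    ‖ζ‖ < ε → 0 < ht Z₀ → x ≠ 0 →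
      {s : ℂ | ht (Z₀ + s • tv ζ x) = 0 ∧ ‖Z₀ + s • tv ζ x‖ < r}.Infinite := by
  obtain ⟨R, hR, hR1, hRr⟩ : ∃ R : ℝ, 0 < R ∧ R ≤ 1 ∧ R ≤ r / 2 :=
    ⟨min 1 (r / 2), lt_min one_pos (by linarith), min_le_left _ _, min_le_right _ _⟩
  have hm : (0 : ℝ) ≤ m := Nat.cast_nonneg m
  obtain ⟨ε, hε, hε1, hε2⟩ : ∃ ε : ℝ, 0 < ε ∧ ε ≤ R ^ 2 / 8 ∧ m * ε ≤ R ^ 2 / 8 := by
    refine ⟨R ^ 2 / (8 * (m + 1)), by positivity, ?_, ?_⟩
    · exact div_le_div_of_nonneg_left (sq_nonneg _) (by norm_num) (by linarith)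
    · rw [← mul_div_assoc, div_le_div_iff₀ (by positivity) (by norm_num)]
      nlinarith [sq_nonneg R]
  refine ⟨ε, hε, fun Z₀ ζ x hZ hζ hh hx => ?_⟩
  have hN : 0 < nsq x := by
    obtain ⟨j, hj⟩ := Function.ne_iff.1 hx
    have h1 := e2_le x j
    have h2 : 0 < ‖x j‖ := norm_pos_iff.2 hj
    exact Real.sqrt_pos.1 (h2.trans_le h1)
  have hn : 0 < √(nsq x) := Real.sqrt_pos.2 hN
  have hb1 : ‖bil ζ x‖ ≤ m * (ε * √(nsq x)) :=
    e2_bil fun j => (norm_le_pi_norm ζ j).trans hζ.le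
  have hb2 : ‖bil (star (zc Z₀)) x‖ ≤ m * (ε * √(nsq x)) :=
    e2_bil fun j => by
      rw [Pi.star_apply, norm_star, zc_apply]
      exact (norm_le_pi_norm Z₀ _).trans hZ.le
  have hH : ht Z₀ ≤ ε := by
    have h1 : (Z₀ none).im ≤ ‖Z₀ none‖ := (le_abs_self _).trans (Complex.abs_im_le_norm _)
    have h2 := norm_le_pi_norm Z₀ none
    have h3 := nsq_nonneg (zc Z₀)
    rw [ht]; linarith
  refine (e2_circle hh hN (bil ζ x - bil (star (zc Z₀)) x)).mono fun s hs => ?_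
  rw [mem_ofPred_eq] at hs
  refine ⟨by rw [e2_ht]; exact hs, ?_⟩
  have h1 : (s * (bil ζ x - bil (star (zc Z₀)) x)).re ≤ ‖s‖ * (2 * (m * (ε * √(nsq x)))) := by
    refine (Complex.re_le_norm _).trans ?_
    rw [norm_mul]
    refine mul_le_mul_of_nonneg_left ((norm_sub_le _ _).trans ?_) (norm_nonneg _)
    linarith
  have h2 : (‖s‖ * √(nsq x)) ^ 2 = ‖s‖ ^ 2 * nsq x := by
    rw [mul_pow, Real.sq_sqrt hN.le]
  have ht0 : 0 ≤ ‖s‖ * √(nsq x) := by positivity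
  have h3 : ‖s‖ * √(nsq x) < R := by
    by_contra hc
    rw [not_lt] at hc
    have h4 : (‖s‖ * √(nsq x)) ^ 2 ≤ ε + 4 * (m * ε) * (‖s‖ * √(nsq x)) := by
      rw [h2]; nlinarith
    generalize ‖s‖ * √(nsq x) = t at h4 hc ht0
    have h5 : 4 * (m * ε) * t ≤ R / 2 * t := by
      refine mul_le_mul_of_nonneg_right ?_ ht0
      nlinarith
    nlinarith [mul_le_mul hc (show R / 2 ≤ t - R / 2 by linarith) (by linarith) ht0]
  have h6 : ‖tv ζ x‖ ≤ √(nsq x) := by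
    refine (pi_norm_le_iff_of_nonneg hn.le).2 fun o => ?_
    cases o with
    | none =>
      simp only [tv, mk_none, norm_mul, Complex.norm_I, Complex.norm_ofNat]
      have h7 : m * ε ≤ 1 / 2 := by nlinarith
      nlinarith [mul_le_mul_of_nonneg_right h7 hn.le]
    | some j => exact e2_le x j
  refine (norm_add_le _ _).trans_lt ?_
  rw [norm_smul]
  have h8 := mul_le_mul_of_nonneg_left h6 (norm_nonneg s)
  nlinarith

end Pool.Agent.Lib.MP_601e9e_an.Rg
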