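import Pool.Agent.Lib.MP_601e9e_an.Rg.Defs

open Complex Filter Topology Set Metric MeasureTheory
open scoped ComplexConjugate ContDiff

namespace Pool.Agent.Lib.MP_601e9e_an.Rg

variable {E : Type*} [NormedAddCommGroup E] [NormedSpace ℂ E] {D : Set E} {g h : E → ℂ} {m : ℕ}

/-- Identity theorem on a convex open set. -/
theorem ident (hD : IsOpen D) (hc : Convex ℝ D) (hg : DifferentiableOn ℂ g D) {x : E}
    (hx : x ∈ D) (h0 : ∀ᶠ y in 𝓝 x, g y = 0) : ∀ y ∈ D, g y = 0 := by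
  intro y hy
  have h1 : Differentiable ℂ fun s : ℂ => x + s • (y - x) := by fun_prop
  have h2 : Convex ℝ ((fun s : ℂ => x + s • (y - x)) ⁻¹' D) := fun s hs t ht a b ha hb hab => by
    have h3 := hc hs ht ha hb hab
    have h4 : x + (a • s + b • t) • (y - x) = a • (x + s • (y - x)) + b • (x + t • (y - x)) := by
      rw [smul_add, smul_add, add_add_add_comm, ← add_smul, hab, one_smul, add_smul, smul_assoc,
        smul_assoc]
    exact mem_preimage.2 (h4 ▸ h3)
  have h3 : DifferentiableOn ℂ (fun s : ℂ => g (x + s • (y - x)))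
      ((fun s : ℂ => x + s • (y - x)) ⁻¹' D) := hg.comp h1.differentiableOn fun _ h => h
  have h4 : Tendsto (fun s : ℂ => x + s • (y - x)) (𝓝 0) (𝓝 x) := by
    simpa using h1.continuous.tendsto 0
  have h5 := (h3.analyticOnNhd (hD.preimage h1.continuous)
    ).eqOn_zero_of_preconnected_of_eventuallyEq_zero h2.isPreconnected (z₀ := 0)
    (by simpa using hx) (h4.eventually h0) (x := 1) (by simpa using hy)
  simpa using h5

theorem exists_ne_zero (hD : IsOpen D) (hc : Convex ℝ D) (hg : DifferentiableOn ℂ g D)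
    (hg0 : ∃ y ∈ D, g y ≠ 0) {O : Set E} (hO : IsOpen O) (hne : (O ∩ D).Nonempty) :
    ∃ x ∈ O ∩ D, g x ≠ 0 := by
  by_contra h1
  push Not at h1
  obtain ⟨x, hx⟩ := hne
  obtain ⟨y, hy, h2⟩ := hg0
  exact h2 (ident hD hc hg hx.2 (by
    filter_upwards [(hO.inter hD).mem_nhds hx] with z hz using h1 z hz) y hy)

theorem exists_forall_ne_zero {ι : Type*} [Finite ι] (hD : IsOpen D) (hc : Convex ℝ D)
    (hne : D.Nonempty) {G : ι → E → ℂ} (hG : ∀ i, DifferentiableOn ℂ (G i) D)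
    (hG0 : ∀ i, ∃ y ∈ D, G i y ≠ 0) : ∃ x ∈ D, ∀ i, G i x ≠ 0 := by
  classical
  have := Fintype.ofFinite ι
  have h1 : ∀ s : Finset ι, ∃ O : Set E, IsOpen O ∧ (O ∩ D).Nonempty ∧
      ∀ x ∈ O ∩ D, ∀ i ∈ s, G i x ≠ 0 := fun s => by
    induction s using Finset.induction_on with
    | empty => exact ⟨univ, isOpen_univ, by simpa using hne, by simp⟩
    | insert i s _ ih =>
      obtain ⟨O, h2, h3, h4⟩ := ih
      obtain ⟨x, hx, h5⟩ := exists_ne_zero hD hc (hG i) (hG0 i) h2 h3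
      refine ⟨O ∩ (D ∩ G i ⁻¹' {0}ᶜ), h2.inter ((hG i).continuousOn.isOpen_inter_preimage hD
        isOpen_compl_singleton), ⟨x, ⟨hx.1, hx.2, h5⟩, hx.2⟩, fun y hy j hj => ?_⟩
      rcases Finset.mem_insert.1 hj with rfl | hj
      · exact hy.1.2.2
      · exact h4 y ⟨hy.1.1, hy.2⟩ j hj
  obtain ⟨O, -, ⟨x, hx⟩, h2⟩ := h1 Finset.univ
  exact ⟨x, hx.2, fun i => h2 x hx i (Finset.mem_univ i)⟩

theorem exists_mul_ne_zero (hD : IsOpen D) (hc : Convex ℝ D) (hg : DifferentiableOn ℂ g D)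
    (hh : DifferentiableOn ℂ h D) (hg0 : ∃ y ∈ D, g y ≠ 0) (hh0 : ∃ y ∈ D, h y ≠ 0) :
    ∃ x ∈ D, g x ≠ 0 ∧ h x ≠ 0 := by
  obtain ⟨y, hy, h1⟩ := hh0
  obtain ⟨x, hx, h2⟩ := exists_ne_zero hD hc hg hg0
    (hh.continuousOn.isOpen_inter_preimage hD (isOpen_compl_singleton (x := 0))) ⟨y, ⟨hy, h1⟩, hy⟩
  exact ⟨x, hx.2, h2, hx.1.2⟩

theorem eq_zero_of_mul (hD : IsOpen D) (hc : Convex ℝ D) (hg : DifferentiableOn ℂ g D)
    (hh : DifferentiableOn ℂ h D) (hg0 : ∃ y ∈ D, g y ≠ 0) (h0 : ∀ x ∈ D, g x * h x = 0) :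
    ∀ x ∈ D, h x = 0 := by
  intro x hx
  by_contra h1
  obtain ⟨y, hy, h2, h3⟩ := exists_mul_ne_zero hD hc hg hh hg0 ⟨x, hx, h1⟩
  exact mul_ne_zero h2 h3 (h0 y hy)

theorem id_real {f : ℂ → ℂ} {U : Set ℂ} (hf : DifferentiableOn ℂ f U) (hU : IsOpen U)
    (hc : IsPreconnected U) (h0 : (0 : ℂ) ∈ U) (h : ∀ᶠ s : ℝ in 𝓝 0, f s = 0) :
    ∀ s ∈ U, f s = 0 := by
  have h1 : Tendsto ((↑) : ℝ → ℂ) (𝓝[≠] 0) (𝓝[≠] 0) :=
    tendsto_nhdsWithin_iff.2 ⟨by
      simpa using (continuous_ofReal.tendsto 0).mono_left nhdsWithin_le_nhds, by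
      filter_upwards [self_mem_nhdsWithin] with s hs
      simpa using hs⟩
  exact (hf.analyticOnNhd hU).eqOn_zero_of_preconnected_of_frequently_eq_zero hc h0
    (h1.frequently (h.filter_mono nhdsWithin_le_nhds).frequently)

/-- Polarisation. -/
theorem tr {D : Set (Zs m)} (hD : IsOpen D) (hc : Convex ℝ D) {φ : Zs m × (Fin m → ℂ) → ℂ}
    (hφ : DifferentiableOn ℂ φ (D ×ˢ univ)) {O : Set (Zs m)} (hO : IsOpen O)
    (hne : (O ∩ D).Nonempty) (h0 : ∀ Z ∈ O ∩ D, φ (Z, star (zc Z)) = 0) :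
    ∀ x ∈ D ×ˢ (univ : Set (Fin m → ℂ)), φ x = 0 := by
  obtain ⟨Z0, hZ0⟩ := hne
  obtain ⟨ε, hε, hb⟩ := Metric.isOpen_iff.1 (hO.inter hD) Z0 hZ0
  let c : Zs m × (Fin m → ℂ) → Fin m → ℂ := fun x => (2 * I)⁻¹ • (x.2 - star (zc x.1))
  have hcc : Continuous fun x : Zs m × (Fin m → ℂ) => ‖x.1 - Z0‖ + 3 * ‖mk (star (c x)) 0‖ := by
    have h1 : Continuous fun x : Zs m × (Fin m → ℂ) => mk (star (c x)) 0 :=
      continuous_pi fun o => by
        cases o with
        | none => exact continuous_const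
        | some j =>
          simp only [c, mk_some, Pi.star_apply, Pi.smul_apply, Pi.sub_apply, zc_apply]
          fun_prop
    fun_prop
  have h1 : ∀ᶠ x : Zs m × (Fin m → ℂ) in 𝓝 (Z0, star (zc Z0)),
      ‖x.1 - Z0‖ + 3 * ‖mk (star (c x)) 0‖ < ε := by
    refine hcc.continuousAt.eventually_lt continuousAt_const ?_
    have h2 : mk (0 : Fin m → ℂ) 0 = 0 := zs_ext rfl fun _ => rfl
    simpa [c, h2] using hε
  refine ident (hD.prod isOpen_univ) (hc.prod convex_univ) hφ (x := (Z0, star (zc Z0)))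
    ⟨hZ0.2, trivial⟩ (h1.mono fun x hx => ?_)
  have h2 : ∀ s ∈ ball (0 : ℂ) 2, x.1 + (s - I) • mk (star (c x)) 0 ∈ O ∩ D := fun s hs => by
    refine hb (mem_ball_iff_norm.2 (lt_of_le_of_lt ?_ hx))
    rw [add_sub_right_comm]
    refine (norm_add_le _ _).trans (add_le_add le_rfl ?_)
    rw [norm_smul]
    have h3 := norm_sub_le s I
    rw [norm_I] at h3
    have h4 := mem_ball_zero_iff.1 hs
    exact mul_le_mul_of_nonneg_right (by linarith) (norm_nonneg _)
  have h3 : Differentiable ℂ fun s : ℂ =>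
      (x.1 + (s - I) • mk (star (c x)) 0, x.2 + (s - I) • c x) := by fun_prop
  have h4 := id_real (hφ.comp (s := ball (0 : ℂ) 2) h3.differentiableOn
    fun s hs => ⟨(h2 s hs).2, trivial⟩) isOpen_ball (convex_ball _ _).isPreconnected
    (mem_ball_self two_pos) (by
      filter_upwards [Ioo_mem_nhds (show (-2 : ℝ) < 0 by norm_num) two_pos] with s hs
      have h5 := h0 _ (h2 s (mem_ball_zero_iff.2 (by
        rw [Complex.norm_real, Real.norm_eq_abs]
        exact abs_lt.2 hs)))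
      have h7 : star (zc (x.1 + ((s : ℂ) - I) • mk (star (c x)) 0)) = x.2 + ((s : ℂ) - I) • c x := by
        funext j
        have h6 : (2 * I) * (2 * I)⁻¹ = 1 := mul_inv_cancel₀ (by simp)
        have h8 : c x j = (2 * I)⁻¹ * (x.2 j - conj (x.1 (some j))) := rfl
        show conj (x.1 (some j) + ((s : ℂ) - I) * conj (c x j)) = x.2 j + ((s : ℂ) - I) * c x j
        rw [map_add, map_mul, conj_conj, map_sub, conj_ofReal, conj_I, h8]
        linear_combination (x.2 j - conj (x.1 (some j))) * h6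
      rwa [h7] at h5) I (by simp)
  simpa using h4

/-- Polarisation from the real quadric. -/
theorem trq {φ : Zs m × (Fin m → ℂ) → ℂ} (hφ : Differentiable ℂ φ) {δ : ℝ} (hδ : 0 < δ)
    (h0 : ∀ p ∈ ball (0 : Xs m) δ, φ (pt p 0, star p.1) = 0) : ∀ x, φ x = 0 := by
  intro x
  have h1 : Continuous fun Z : Zs m => ‖zc Z‖ :=
    (continuous_pi fun j => continuous_apply (some j)).norm
  refine tr isOpen_univ convex_univ hφ.differentiableOn (isOpen_lt h1 continuous_const (g := fun _ => δ))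
    ⟨0, by
      have h2 : zc (0 : Zs m) = 0 := rfl
      simpa [h2] using hδ, trivial⟩ (fun Z hZ => ?_) x ⟨trivial, trivial⟩
  have h2 : Differentiable ℂ fun s : ℂ =>
      (mk (zc Z) (s + I * ((nsq (zc Z) + 0 : ℝ) : ℂ)), star (zc Z)) := by
    refine Differentiable.prodMk (differentiable_pi.2 fun o => ?_) (differentiable_const _)
    cases o with
    | none => simp only [mk_none]; fun_prop
    | some j => simp only [mk_some]; fun_prop
  have h3 := id_real (hφ.comp h2).differentiableOn isOpen_univ isPreconnected_univ (mem_univ _) (by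
    filter_upwards [Ioo_mem_nhds (neg_lt_zero.2 hδ) hδ] with s hs
    exact h0 (zc Z, s) (mem_ball_zero_iff.2 (max_lt hZ.1 (abs_lt.2 hs))))
    (Z none - I * ((nsq (zc Z) + 0 : ℝ) : ℂ)) (mem_univ _)
  rwa [Function.comp_apply, sub_add_cancel, mk_zc] at h3

theorem tr0 {φ : (Fin m → ℂ) × (Fin m → ℂ) → ℂ} (hφ : Differentiable ℂ φ)
    (h0 : ∀ z, φ (z, star z) = 0) : ∀ x, φ x = 0 := by
  intro x
  have h1 : Differentiable ℂ fun y : Zs m × (Fin m → ℂ) => (zc y.1, y.2) := by
    unfold zc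
    fun_prop
  exact tr isOpen_univ convex_univ (hφ.comp h1).differentiableOn isOpen_univ
    ⟨0, trivial, trivial⟩ (fun Z _ => h0 _) (mk x.1 0, x.2) ⟨trivial, trivial⟩

theorem hol_eval {σ : Type*} [Fintype σ] (P : MvPolynomial σ ℂ) :
    Differentiable ℂ (fun Z : σ → ℂ => MvPolynomial.eval Z P) := by
  simp only [MvPolynomial.eval_eq']
  fun_prop

theorem exists_eval_ne_zero {σ : Type*} [Fintype σ] {P : MvPolynomial σ ℂ} (hP : P ≠ 0)
    {O : Set (σ → ℂ)} (hO : IsOpen O) (hne : O.Nonempty) :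
    ∃ Z ∈ O, MvPolynomial.eval Z P ≠ 0 := by
  obtain ⟨Z, hZ, h⟩ := exists_ne_zero isOpen_univ convex_univ (hol_eval P).differentiableOn (by
    by_contra h
    push Not at h
    exact hP (MvPolynomial.funext fun x => by rw [h x trivial, map_zero])) hO (by simpa using hne)
  exact ⟨Z, hZ.1, h⟩

theorem hol_det {n : Type*} [Fintype n] [DecidableEq n] {M : E → Matrix n n ℂ}
    (hM : ∀ i j, DifferentiableOn ℂ (fun x => M x i j) D) :
    DifferentiableOn ℂ (fun x => (M x).det) D := by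
  simp only [Matrix.det_apply']
  refine DifferentiableOn.fun_sum fun σ _ => DifferentiableOn.const_mul ?_ _
  exact fun x hx => (HasFDerivWithinAt.finsetProd (u := Finset.univ)
    fun i _ => (hM (σ i) i x hx).hasFDerivWithinAt).differentiableWithinAt

theorem hol_adjugate {n : Type*} [Fintype n] [DecidableEq n] {M : E → Matrix n n ℂ}
    (hM : ∀ i j, DifferentiableOn ℂ (fun x => M x i j) D) (i j : n) :
    DifferentiableOn ℂ (fun x => (M x).adjugate i j) D := by
  simp only [Matrix.adjugate_apply]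
  refine hol_det fun a b => ?_
  simp only [Matrix.updateRow_apply]
  split_ifs
  · exact differentiableOn_const _
  · exact hM a b

theorem exists_left {ι κ : Type*} [Fintype ι] [Fintype κ] [DecidableEq κ] {M : Matrix ι κ ℂ}
    (hM : LinearIndependent ℂ (fun (j : κ) (a : ι) => M a j)) :
    ∃ π : Matrix κ ι ℂ, (π * M).det ≠ 0 := by
  classical
  obtain ⟨g, hg⟩ := (Matrix.toLin' M).exists_leftInverse_of_injective
    (LinearMap.ker_eq_bot.2 (Matrix.mulVec_injective_iff.2 hM))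
  refine ⟨LinearMap.toMatrix' g, ?_⟩
  rw [← LinearMap.toMatrix'_toLin' M, ← LinearMap.toMatrix'_comp, hg, LinearMap.toMatrix'_id,
    Matrix.det_one]
  exact one_ne_zero

theorem ind_of_det {ι κ : Type*} [Fintype ι] [Fintype κ] [DecidableEq κ] {M : Matrix ι κ ℂ}
    {π : Matrix κ ι ℂ} (h : (π * M).det ≠ 0) :
    LinearIndependent ℂ (fun (j : κ) (a : ι) => M a j) := by
  refine Matrix.mulVec_injective_iff.1 fun x y e => sub_eq_zero.1
    (Matrix.eq_zero_of_mulVec_eq_zero h ?_)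
  rw [← Matrix.mulVec_mulVec, Matrix.mulVec_sub, e, sub_self, Matrix.mulVec_zero]

theorem hol_mk {z : E → Fin m → ℂ} {w : E → ℂ} (hz : Differentiable ℂ z)
    (hw : Differentiable ℂ w) : Differentiable ℂ (fun x => mk (z x) (w x)) := by
  refine differentiable_pi.2 fun o => ?_
  cases o with
  | none => exact hw
  | some j => exact differentiable_pi.1 hz j

theorem hol_bil {a b : E → Fin m → ℂ} (ha : Differentiable ℂ a) (hb : Differentiable ℂ b) :
    Differentiable ℂ (fun x => bil (a x) (b x)) := by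
  unfold bil
  exact Differentiable.fun_sum fun j _ => (differentiable_pi.1 ha j).mul (differentiable_pi.1 hb j)

/-- A direction with a nonzero `z`-coordinate lies in some hyperplane of the family. -/
theorem exists_tv (v : Zs m) (j : Fin m) (hv : v (some j) ≠ 0) : ∃ ζ, tv ζ (zc v) = v := by
  refine ⟨Pi.single j (v none / (2 * I * v (some j))), zs_ext ?_ fun _ => rfl⟩
  have h1 : bil (Pi.single j (v none / (2 * I * v (some j)))) (zc v) =
      v none / (2 * I * v (some j)) * v (some j) := by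
    simp [bil, Pi.single_apply]
  rw [tv, mk_none, h1]
  field_simp

end Pool.Agent.Lib.MP_601e9e_an.Rg
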