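import Pool.Agent.Lib.MP_601e9e_an.Rg.Jet
import Pool.Agent.Lib.MP_601e9e_an.Rg.Ident

open Complex Filter Topology Set Metric MeasureTheory
open scoped ComplexConjugate ContDiff

namespace Pool.Agent.Lib.MP_601e9e_an.Rg

variable {E : Type*} [NormedAddCommGroup E] [NormedSpace ℂ E] {D : Set E} {ι : Type*} [Fintype ι]
  {G : ι → E → ℂ} {r : ℕ}

omit [Fintype ι] in
theorem wr_span {Z v : E} (h1 : Ind G r Z v) (h2 : ¬ Ind G (r + 1) Z v) :
    ∃ κ : Fin r → ℂ, (jm G r Z v).mulVec κ = fun a => jet (G a) r Z v := by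
  unfold Ind at h2
  rw [linearIndependent_finSucc', not_and, not_not] at h2
  obtain ⟨κ, hκ⟩ := (Submodule.mem_span_range_iff_exists_fun ℂ).1 (h2 h1)
  refine ⟨κ, funext fun a => ?_⟩
  have := congrFun hκ a
  simpa [Matrix.mulVec, dotProduct, jm, Fin.init, mul_comm] using this

theorem wr_open (hD : IsOpen D) (Z v : E) : IsOpen {s : ℂ | Z + s • v ∈ D} :=
  hD.preimage (by fun_prop)

theorem wr_convex (hc : Convex ℝ D) (Z v : E) : Convex ℝ {s : ℂ | Z + s • v ∈ D} := by
  intro s hs t ht a b ha hb hab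
  have := hc hs ht ha hb hab
  show Z + (a • s + b • t) • v ∈ D
  convert this using 1
  rw [smul_add, smul_add, add_add_add_comm, ← add_smul, hab, one_smul, add_smul, smul_assoc,
    smul_assoc]

/-- near the base point the next jet is a bounded combination of the first ones -/
theorem wr_rel (hD : IsOpen D) (hG : ∀ a, DifferentiableOn ℂ (G a) D)
    (hdep : ∀ Z ∈ D, ∀ v, ¬ Ind G (r + 1) Z v) {Z v : E} (hZ : Z ∈ D) (hind : Ind G r Z v) :
    ∃ B : ℝ, 0 ≤ B ∧ ∀ᶠ s in 𝓝 (0 : ℂ), Z + s • v ∈ D ∧ ∃ κ : Fin r → ℂ, ‖κ‖ ≤ B ∧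
      (jm G r (Z + s • v) v).mulVec κ = fun a => jet (G a) r (Z + s • v) v := by
  obtain ⟨π, hπ⟩ := exists_left (M := jm G r Z v) hind
  have h0 : Z + (0 : ℂ) • v ∈ D := by simpa using hZ
  have cj : ∀ a j, ContinuousAt (fun s : ℂ => jet (G a) j (Z + s • v) v) 0 := fun a j =>
    (hasDerivAt_jet_line hD (hG a) j Z v h0).continuousAt
  have cM : ContinuousAt (fun s : ℂ => π * jm G r (Z + s • v) v) 0 := by
    refine continuousAt_pi.2 fun i => continuousAt_pi.2 fun j => ?_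
    simp only [Matrix.mul_apply, jm, Matrix.of_apply]
    exact tendsto_finsetSum _ fun a _ => continuousAt_const.mul (cj a j)
  have cd : ContinuousAt (fun s : ℂ => (π * jm G r (Z + s • v) v).det) 0 :=
    (continuous_id.matrix_det.continuousAt).comp cM
  have ca : ContinuousAt (fun s : ℂ => (π * jm G r (Z + s • v) v).adjugate) 0 :=
    (continuous_id.matrix_adjugate.continuousAt).comp cM
  have hπ' : (π * jm G r (Z + (0 : ℂ) • v) v).det ≠ 0 := by simpa using hπ
  let w : ℂ → Fin r → ℂ := fun s => ((π * jm G r (Z + s • v) v).det)⁻¹ •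
    (π * jm G r (Z + s • v) v).adjugate.mulVec (π.mulVec fun a => jet (G a) r (Z + s • v) v)
  have cw : ContinuousAt w 0 := by
    refine (cd.inv₀ hπ').smul (continuousAt_pi.2 fun i => ?_)
    simp only [Matrix.mulVec, dotProduct]
    refine tendsto_finsetSum _ fun j _ => ContinuousAt.mul
      (continuousAt_pi.1 (continuousAt_pi.1 ca i) j) ?_
    exact tendsto_finsetSum _ fun a _ => continuousAt_const.mul (cj a r)
  refine ⟨‖w 0‖ + 1, by positivity, ?_⟩
  filter_upwards [(wr_open hD Z v).mem_nhds h0, cd.eventually_ne hπ',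
    cw.norm.eventually (gt_mem_nhds (lt_add_one ‖w 0‖))] with s hs h1 h2
  obtain ⟨κ, hκ⟩ := wr_span (G := G) (ind_of_det (M := jm G r (Z + s • v) v) h1) (hdep _ hs v)
  refine ⟨hs, κ, ?_, hκ⟩
  have : w s = κ := by
    simp only [w, ← hκ]
    rw [Matrix.mulVec_mulVec κ π, Matrix.mulVec_mulVec, Matrix.adjugate_mul, Matrix.smul_mulVec,
      Matrix.one_mulVec, smul_smul, inv_mul_cancel₀ h1, one_smul]
  exact this ▸ h2.le

theorem wron (hD : IsOpen D) (hc : Convex ℝ D) (hG : ∀ a, DifferentiableOn ℂ (G a) D)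
    (hdep : ∀ Z ∈ D, ∀ v, ¬ Ind G (r + 1) Z v) {Z v : E} (hZ : Z ∈ D) (hind : Ind G r Z v)
    {c : ι → ℂ} (h0 : ∀ j < r, ∑ a, c a * jet (G a) j Z v = 0) {s : ℂ} (hs : Z + s • v ∈ D)
    (j : ℕ) : ∑ a, c a * jet (G a) j (Z + s • v) v = 0 := by
  let f : ℕ → ℂ → ℂ := fun l s => ∑ a, c a * jet (G a) l (Z + s • v) v
  have hf : ∀ l s, Z + s • v ∈ D → HasDerivAt (f l) (f (l + 1) s) s := fun l s hs =>
    HasDerivAt.fun_sum fun a _ => (hasDerivAt_jet_line hD (hG a) l Z v hs).const_mul (c a)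
  obtain ⟨B, hB, hrel⟩ := wr_rel hD hG hdep hZ hind
  obtain ⟨d, hd, hball⟩ := Metric.eventually_nhds_iff_ball.1 hrel
  have key : ∀ s ∈ ball (0 : ℂ) d, ‖f r s‖ ≤ r * B * ‖fun l : Fin r => f l s‖ := by
    intro s hs
    obtain ⟨-, κ, hκ, h⟩ := hball s hs
    have e : f r s = ∑ l : Fin r, κ l * f l s := by
      simp only [f, ← congrFun h, Matrix.mulVec, dotProduct, jm, Matrix.of_apply, Finset.mul_sum]
      rw [Finset.sum_comm]
      exact Finset.sum_congr rfl fun l _ => Finset.sum_congr rfl fun a _ => by ring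
    rw [e, mul_assoc]
    refine (norm_sum_le _ _).trans ((Finset.sum_le_card_nsmul _ _ _ fun l _ => ?_).trans_eq
      (by rw [Finset.card_univ, Fintype.card_fin, nsmul_eq_mul]))
    rw [norm_mul]
    exact mul_le_mul ((norm_le_pi_norm κ l).trans hκ) (norm_le_pi_norm (fun l : Fin r => f l s) l)
      (norm_nonneg _) hB
  have h1 : ∀ s ∈ ball (0 : ℂ) d, (fun l : Fin r => f l s) = 0 := by
    intro s hs
    have hin : ∀ τ ∈ Icc (0 : ℝ) 1, (τ : ℂ) * s ∈ ball (0 : ℂ) d := fun τ hτ => by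
      rw [mem_ball_zero_iff] at hs ⊢
      rw [norm_mul, norm_real, Real.norm_of_nonneg hτ.1]
      exact (mul_le_of_le_one_left (norm_nonneg _) hτ.2).trans_lt hs
    have hder : ∀ τ ∈ Icc (0 : ℝ) 1, HasDerivAt (fun τ : ℝ => fun l : Fin r => f l (τ * s))
        (fun l : Fin r => f (l + 1) (τ * s) * s) τ := fun τ hτ =>
      hasDerivAt_pi.2 fun l => by
        have := ((hf l _ (hball _ (hin τ hτ)).1).comp (τ : ℂ)
          ((hasDerivAt_id (τ : ℂ)).mul_const s)).comp_ofReal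
        simpa using this
    have := eq_zero_of_abs_deriv_le_mul_abs_self_of_eq_zero_right (K := (1 + r * B) * ‖s‖)
      (fun τ hτ => (hder τ hτ).continuousAt.continuousWithinAt)
      (fun τ hτ => (hder τ (Ico_subset_Icc_self hτ)).hasDerivWithinAt)
      (funext fun l => by simpa [f] using h0 l l.2) (fun τ hτ => ?_) 1 ⟨zero_le_one, le_rfl⟩
    · simpa using this
    · refine (pi_norm_le_iff_of_nonneg (by positivity)).2 fun l => ?_
      rw [norm_mul, mul_right_comm]
      refine mul_le_mul_of_nonneg_right ?_ (norm_nonneg _)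
      have h2 := norm_nonneg fun l : Fin r => f l (τ * s)
      have h3 : 0 ≤ r * B := by positivity
      rcases (Nat.succ_le_of_lt l.2).lt_or_eq with h | h
      · have := norm_le_pi_norm (fun l : Fin r => f l (τ * s)) ⟨l + 1, h⟩
        nlinarith
      · have := key _ (hin τ (Ico_subset_Icc_self hτ))
        rw [show (l : ℕ) + 1 = r from h]
        nlinarith
  have h2 : ∀ s ∈ ball (0 : ℂ) d, f 0 s = 0 := by
    intro s hs
    rcases Nat.eq_zero_or_pos r with h | h
    · have := key s hs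
      rw [h1 s hs, norm_zero, mul_zero, norm_le_zero_iff] at this
      exact h ▸ this
    · exact congrFun (h1 s hs) ⟨0, h⟩
  have h3 : ∀ j s, Z + s • v ∈ D → f j s = 0 := by
    intro j
    induction j with
    | zero =>
      exact ident (wr_open hD Z v) (wr_convex hc Z v)
        (fun s hs => (hf 0 s hs).differentiableAt.differentiableWithinAt) (x := 0)
        (show Z + (0 : ℂ) • v ∈ D by simpa using hZ) (Metric.eventually_nhds_iff_ball.2 ⟨d, hd, h2⟩)
    | succ j ih =>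
      intro s hs
      refine (hf j s hs).unique ((hasDerivAt_const s (0 : ℂ)).congr_of_eventuallyEq ?_)
      filter_upwards [(wr_open hD Z v).mem_nhds hs] with t ht using ih t ht
  exact h3 j s hs

theorem wron_span (hD : IsOpen D) (hc : Convex ℝ D) (hG : ∀ a, DifferentiableOn ℂ (G a) D)
    (hdep : ∀ Z ∈ D, ∀ v, ¬ Ind G (r + 1) Z v) {Z v : E} (hZ : Z ∈ D) (hind : Ind G r Z v)
    {s : ℂ} (hs : Z + s • v ∈ D) (j : ℕ) :
    ∃ c : Fin r → ℂ, ∀ a, jet (G a) j (Z + s • v) v = ∑ l, c l * jet (G a) l Z v := by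
  classical
  have h : (fun a => jet (G a) j (Z + s • v) v) ∈
      Submodule.span ℂ (range fun (l : Fin r) (a : ι) => jet (G a) l Z v) := by
    by_contra h
    obtain ⟨φ, h1, h2⟩ := Submodule.exists_dual_map_eq_bot_of_notMem h inferInstance
    have e : ∀ x : ι → ℂ, φ x = ∑ a, φ (fun b => if a = b then 1 else 0) * x a := fun x => by
      rw [LinearMap.pi_apply_eq_sum_univ]
      exact Finset.sum_congr rfl fun a _ => mul_comm _ _
    refine h1 ?_
    rw [e]
    refine wron hD hc hG hdep hZ hind (fun l hl => ?_) hs j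
    rw [← e fun a => jet (G a) l Z v, ← Submodule.mem_bot ℂ, ← h2]
    exact Submodule.mem_map_of_mem (Submodule.subset_span ⟨⟨l, hl⟩, rfl⟩)
  obtain ⟨c, hc⟩ := (Submodule.mem_span_range_iff_exists_fun ℂ).1 h
  exact ⟨c, fun a => by simpa using (congrFun hc a).symm⟩

omit [Fintype ι] in
/-- The generic number of independent jets. -/
theorem exists_rank (hne : D.Nonempty) {K : ℕ} (hdep : ∀ Z ∈ D, ∀ v, ¬ Ind G (K + 1) Z v) :
    ∃ r ≤ K, (∀ Z ∈ D, ∀ v, ¬ Ind G (r + 1) Z v) ∧ ∃ Z ∈ D, ∃ v, Ind G r Z v := by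
  induction K with
  | zero =>
    obtain ⟨Z, hZ⟩ := hne
    exact ⟨0, le_rfl, hdep, Z, hZ, 0, linearIndependent_empty_type⟩
  | succ K ih =>
    by_cases h : ∀ Z ∈ D, ∀ v, ¬ Ind G (K + 1) Z v
    · obtain ⟨r, hr, h'⟩ := ih h
      exact ⟨r, hr.trans (Nat.le_succ K), h'⟩
    · push Not at h
      exact ⟨K + 1, le_rfl, hdep, h⟩

/-- A common holomorphic factor keeps the dependence of the jets. -/
theorem dep_mul (hD : IsOpen D) (hG : ∀ a, DifferentiableOn ℂ (G a) D) {h : E → ℂ}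
    (hh : DifferentiableOn ℂ h D) {H : ι → E → ℂ} (hH : ∀ a, ∀ Y ∈ D, H a Y = h Y * G a Y)
    {Z v : E} (hZ : Z ∈ D) (hdep : ¬ Ind G r Z v) : ¬ Ind H r Z v := by
  intro hI
  refine hdep (linearIndependent_iff_card_le_finrank_span.2
    ((linearIndependent_iff_card_le_finrank_span.1 hI).trans (Submodule.finrank_mono ?_)))
  rw [Submodule.span_le]
  rintro _ ⟨j, rfl⟩
  obtain ⟨c, hc⟩ := jet_mul hD hh j hZ v
  have e : (fun a => jet (H a) j Z v) =
      ∑ l ∈ Finset.range (j + 1), c l • fun a => jet (G a) l Z v := by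
    funext a
    rw [jet_congr hD (hH a) j hZ v, hc _ (hG a)]
    simp
  show (fun a => jet (H a) j Z v) ∈ Submodule.span ℂ _
  rw [e]
  refine Submodule.sum_mem _ fun l hl => Submodule.smul_mem _ _ (Submodule.subset_span
    ⟨⟨l, lt_of_le_of_lt (Nat.lt_succ_iff.1 (Finset.mem_range.1 hl)) j.2⟩, rfl⟩)

end Pool.Agent.Lib.MP_601e9e_an.Rg
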