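import Pool.Agent.Lib.MP_601e9e_an.Rg.Geo1
import Pool.Agent.Lib.MP_601e9e_an.Rg.Wron

open Complex Filter Topology Set Metric MeasureTheory
open scoped ComplexConjugate ContDiff Matrix

namespace Pool.Agent.Lib.MP_601e9e_an.Rg

variable {m N : ℕ} {F : Fin N → Zs m → ℂ} {ζ : Fin m → ℂ} {O D : Set (Zs m)}
  {P : Zs m → Matrix (Fin m) (Fin m) ℂ}

/-- The derivative of the field of projections in the direction over `w`. -/
noncomputable def geo2_T (ζ : Fin m → ℂ) (P : Zs m → Matrix (Fin m) (Fin m) ℂ) (Y : Zs m)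
    (w : Fin m → ℂ) : Matrix (Fin m) (Fin m) ℂ :=
  Matrix.of fun i j => dd (tv ζ w) (fun Y => P Y i j) Y

theorem geo2_T_add (Y : Zs m) (w w' : Fin m → ℂ) :
    geo2_T ζ P Y (w + w') = geo2_T ζ P Y w + geo2_T ζ P Y w' := by
  ext i j
  simp [geo2_T, dd, tv_add]

theorem geo2_dd_sum (g : Zs m → ℂ) (Y : Zs m) (w : Fin m → ℂ) :
    dd (tv ζ w) g Y = ∑ k, w k * dd (tv ζ (Pi.single k 1)) g Y := by
  unfold dd
  rw [tv_sum ζ w, map_sum]
  simp

theorem geo2_T_norm {Y : Zs m} {B : ℝ} (hB0 : 0 ≤ B)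
    (hB : ∀ k i j, ‖dd (tv ζ (Pi.single k 1)) (fun Y => P Y i j) Y‖ ≤ B) (w u : Fin m → ℂ) :
    ‖geo2_T ζ P Y w *ᵥ u‖ ≤ m * (m * (‖w‖ * B) * ‖u‖) := by
  refine (pi_norm_le_iff_of_nonneg (by positivity)).2 fun i => ?_
  simp only [Matrix.mulVec, dotProduct, geo2_T, Matrix.of_apply]
  refine (norm_sum_le _ _).trans ((Finset.sum_le_card_nsmul _ _ _ fun j _ => ?_).trans_eq
    (by rw [Finset.card_univ, Fintype.card_fin, nsmul_eq_mul]))
  rw [norm_mul]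
  refine mul_le_mul ?_ (norm_le_pi_norm u j) (norm_nonneg _) (by positivity)
  rw [geo2_dd_sum]
  refine (norm_sum_le _ _).trans ((Finset.sum_le_card_nsmul _ _ _ fun k _ => ?_).trans_eq
    (by rw [Finset.card_univ, Fintype.card_fin, nsmul_eq_mul]))
  rw [norm_mul]
  exact mul_le_mul (norm_le_pi_norm w k) (hB k i j) (norm_nonneg _) (norm_nonneg _)

theorem geo2_split (hO : IsOpen O) (hF : ∀ a, DifferentiableOn ℂ (F a) O) (hK : KD F ζ O P)
    {Y : Zs m} (hY : Y ∈ O) (x y : Fin m → ℂ) :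
    geo2_T ζ P Y y *ᵥ x = geo2_T ζ P Y (P Y *ᵥ y) *ᵥ (x - P Y *ᵥ x) +
      geo2_T ζ P Y (y - P Y *ᵥ y) *ᵥ x := by
  have hi : ∀ u, P Y *ᵥ (P Y *ᵥ u) = P Y *ᵥ u := fun u => by
    rw [Matrix.mulVec_mulVec, hK.idem Y hY]
  have h0 : geo2_T ζ P Y (P Y *ᵥ y) *ᵥ (P Y *ᵥ x) = 0 := geo1 hO hF hK hY (hi x) (hi y)
  have h1 : geo2_T ζ P Y y = geo2_T ζ P Y (P Y *ᵥ y) + geo2_T ζ P Y (y - P Y *ᵥ y) := by
    rw [← geo2_T_add, add_sub_cancel]
  rw [Matrix.mulVec_sub, h0, sub_zero, ← Matrix.add_mulVec, ← h1]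

theorem geo2 (hO : IsOpen O) (hc : Convex ℝ O) (hF : ∀ a, DifferentiableOn ℂ (F a) O)
    (hK : KD F ζ O P) {Z : Zs m} (hZ : Z ∈ O) {x y : Fin m → ℂ} (hx : P Z *ᵥ x = x)
    (hy : P Z *ᵥ y = y) {s : ℂ} (hs : Z + s • tv ζ y ∈ O) : P (Z + s • tv ζ y) *ᵥ x = x := by
  set v := tv ζ y with hv
  let γ : ℝ → Zs m := fun τ => Z + ((τ : ℂ) * s) • v
  have hγc : Continuous γ := by fun_prop
  have hin : ∀ τ ∈ Icc (0 : ℝ) 1, γ τ ∈ O := fun τ hτ => by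
    have h0 : (0 : ℂ) ∈ {s : ℂ | Z + s • v ∈ O} := by simpa using hZ
    have := wr_convex hc Z v h0 hs (sub_nonneg.2 hτ.2) hτ.1 (by ring)
    simpa [γ] using this
  have hder : ∀ (u : Fin m → ℂ), ∀ τ ∈ Icc (0 : ℝ) 1,
      HasDerivAt (fun τ : ℝ => u - P (γ τ) *ᵥ u) (-(s • (geo2_T ζ P (γ τ) y *ᵥ u))) τ := by
    intro u τ hτ
    refine HasDerivAt.const_sub u (hasDerivAt_pi.2 fun i => ?_)
    simp only [Matrix.mulVec, dotProduct, geo2_T, Matrix.of_apply, Pi.smul_apply, smul_eq_mul,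
      Finset.mul_sum]
    refine HasDerivAt.fun_sum fun j _ => ?_
    have := (((hasDerivAt_line hO (hK.hol i j) Z v (hin τ hτ)).comp (τ : ℂ)
      ((hasDerivAt_id (τ : ℂ)).mul_const s)).comp_ofReal).mul_const (u j)
    refine this.congr_deriv ?_
    simp only [γ, hv]
    ring
  obtain ⟨B, hB⟩ : ∃ B : ℝ, ∀ τ ∈ Icc (0 : ℝ) 1, ‖fun q : Fin m × Fin m × Fin m =>
      dd (tv ζ (Pi.single q.1 1)) (fun Y => P Y q.2.1 q.2.2) (γ τ)‖ ≤ B := by
    refine isCompact_Icc.exists_bound_of_continuousOn (continuousOn_pi.2 fun q => ?_)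
    exact (hol_dd hO (hK.hol q.2.1 q.2.2) _).continuousOn.comp hγc.continuousOn hin
  obtain ⟨B', hB'⟩ : ∃ B' : ℝ, ∀ τ ∈ Icc (0 : ℝ) 1, ‖P (γ τ) *ᵥ y‖ ≤ B' := by
    refine isCompact_Icc.exists_bound_of_continuousOn (continuousOn_pi.2 fun i => ?_)
    simp only [Matrix.mulVec, dotProduct]
    exact continuousOn_finsetSum _ fun j _ =>
      ((hK.hol i j).continuousOn.comp hγc.continuousOn hin).mul continuousOn_const
  have hB0 : 0 ≤ B := (norm_nonneg _).trans (hB 0 ⟨le_rfl, zero_le_one⟩)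
  have hB0' : 0 ≤ B' := (norm_nonneg _).trans (hB' 0 ⟨le_rfl, zero_le_one⟩)
  have hbd : ∀ τ ∈ Icc (0 : ℝ) 1, ∀ (u : Fin m → ℂ) (R : ℝ), ‖u‖ ≤ ‖x‖ + ‖y‖ →
      ‖u - P (γ τ) *ᵥ u‖ ≤ R → ‖y - P (γ τ) *ᵥ y‖ ≤ R →
      ‖-(s • (geo2_T ζ P (γ τ) y *ᵥ u))‖ ≤ ‖s‖ * (m * m * B * (B' + (‖x‖ + ‖y‖))) * R := by
    intro τ hτ u R hu h1 h2
    have hq : ∀ k i j, ‖dd (tv ζ (Pi.single k 1)) (fun Y => P Y i j) (γ τ)‖ ≤ B := fun k i j =>
      (norm_le_pi_norm (fun q : Fin m × Fin m × Fin m =>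
        dd (tv ζ (Pi.single q.1 1)) (fun Y => P Y q.2.1 q.2.2) (γ τ)) (k, i, j)).trans (hB τ hτ)
    have hR : 0 ≤ R := (norm_nonneg _).trans h1
    rw [norm_neg, norm_smul, mul_assoc, geo2_split hO hF hK (hin τ hτ) u y]
    refine mul_le_mul_of_nonneg_left ((norm_add_le _ _).trans ?_) (norm_nonneg _)
    have e1 := geo2_T_norm hB0 hq (P (γ τ) *ᵥ y) (u - P (γ τ) *ᵥ u)
    have e2 := geo2_T_norm hB0 hq (y - P (γ τ) *ᵥ y) u
    have e3 : (m : ℝ) * (m * (‖P (γ τ) *ᵥ y‖ * B) * ‖u - P (γ τ) *ᵥ u‖) ≤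
        m * (m * (B' * B) * R) := by
      have := hB' τ hτ
      gcongr
    have e4 : (m : ℝ) * (m * (‖y - P (γ τ) *ᵥ y‖ * B) * ‖u‖) ≤
        m * (m * (R * B) * (‖x‖ + ‖y‖)) := by gcongr
    calc _ ≤ m * (m * (B' * B) * R) + m * (m * (R * B) * (‖x‖ + ‖y‖)) := by linarith
      _ = _ := by ring
  have key := eq_zero_of_abs_deriv_le_mul_abs_self_of_eq_zero_right
    (f := fun τ : ℝ => (x - P (γ τ) *ᵥ x, y - P (γ τ) *ᵥ y))
    (f' := fun τ : ℝ => (-(s • (geo2_T ζ P (γ τ) y *ᵥ x)), -(s • (geo2_T ζ P (γ τ) y *ᵥ y))))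
    (K := ‖s‖ * (m * m * B * (B' + (‖x‖ + ‖y‖)))) (a := 0) (b := 1)
    (fun τ hτ => ((hder x τ hτ).prodMk (hder y τ hτ)).continuousAt.continuousWithinAt)
    (fun τ hτ => ((hder x τ (Ico_subset_Icc_self hτ)).prodMk
      (hder y τ (Ico_subset_Icc_self hτ))).hasDerivWithinAt)
    (by simp [γ, hx, hy]) (fun τ hτ => ?_) 1 ⟨zero_le_one, le_rfl⟩
  · have := congrArg Prod.fst key
    simp only [γ, ofReal_one, one_mul, Prod.fst_zero, sub_eq_zero] at this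
    exact this.symm
  · rw [Prod.norm_def, max_le_iff]
    exact ⟨hbd τ (Ico_subset_Icc_self hτ) x _ (by linarith [norm_nonneg y]) (norm_fst_le
        (x - P (γ τ) *ᵥ x, y - P (γ τ) *ᵥ y)) (norm_snd_le (x - P (γ τ) *ᵥ x, y - P (γ τ) *ᵥ y)),
      hbd τ (Ico_subset_Icc_self hτ) y _ (by linarith [norm_nonneg x]) (norm_snd_le
        (x - P (γ τ) *ᵥ x, y - P (γ τ) *ᵥ y)) (norm_snd_le (x - P (γ τ) *ᵥ x, y - P (γ τ) *ᵥ y))⟩

theorem geo3 (hO : IsOpen O) (hc : Convex ℝ O) (hD : IsOpen D) (hDc : Convex ℝ D) (hOD : O ⊆ D)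
    (hF : ∀ a, DifferentiableOn ℂ (F a) D) (hK : KD F ζ O P) {Z : Zs m} (hZ : Z ∈ O)
    {x : Fin m → ℂ} (hx : P Z *ᵥ x = x) {s : ℂ} (hs : Z + s • tv ζ x ∈ D) :
    ∃ μ : ℂ, ∀ a, F a (Z + s • tv ζ x) = F a Z + μ * dd (tv ζ x) (F a) Z := by
  by_cases hx0 : x = 0
  · refine ⟨0, fun a => ?_⟩
    have : tv ζ (0 : Fin m → ℂ) = 0 := by
      simpa using tv_smul ζ (0 : Fin m → ℂ) 0
    simp [hx0, this]
  have hFO : ∀ a, DifferentiableOn ℂ (F a) O := fun a => (hF a).mono hOD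
  set v := tv ζ x with hv
  obtain ⟨b, hb⟩ : ∃ b, jet (F b) 1 Z v ≠ 0 := by
    by_contra h
    push Not at h
    refine hx0 (funext fun i => Fintype.linearIndependent_iff.1 (hK.inj Z hZ) x (funext fun a => ?_) i)
    have := h a
    rw [hv, jet_one_eq] at this
    simpa [l1, Finset.sum_apply] using this
  have h0 : Z + (0 : ℂ) • v ∈ O := by simpa using hZ
  have hb' : jet (F b) 1 (Z + (0 : ℂ) • v) v ≠ 0 := by simpa using hb
  obtain ⟨d, hd, hball⟩ := Metric.eventually_nhds_iff_ball.1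
    (((wr_open hO Z v).eventually_mem h0).and
      ((hasDerivAt_jet_line hO (hFO b) 1 Z v h0).continuousAt.eventually_ne hb'))
  refine ⟨(F b (Z + s • v) - F b Z) / jet (F b) 1 Z v, fun a => ?_⟩
  have h1 : ∀ t ∈ ball (0 : ℂ) d, HasDerivAt
      (fun t : ℂ => jet (F a) 1 (Z + t • v) v / jet (F b) 1 (Z + t • v) v) 0 t := by
    intro t ht
    obtain ⟨ht1, ht2⟩ := hball t ht
    have hp := hK.par _ ht1 x (geo2 hO hc hFO hK hZ hx hx ht1) a b
    rw [← jet_one_eq, ← jet_one_eq, ← jet_two_eq hO hFO ht1, ← jet_two_eq hO hFO ht1] at hp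
    have := (hasDerivAt_jet_line hO (hFO a) 1 Z v ht1).div
      (hasDerivAt_jet_line hO (hFO b) 1 Z v ht1) ht2
    refine this.congr_deriv ?_
    rw [div_eq_zero_iff]
    left
    rw [← hv] at hp
    linear_combination hp
  have h2 : ∀ t ∈ ball (0 : ℂ) d, jet (F b) 1 Z v * jet (F a) 1 (Z + t • v) v -
      jet (F a) 1 Z v * jet (F b) 1 (Z + t • v) v = 0 := by
    intro t ht
    have := isOpen_ball.is_const_of_deriv_eq_zero (convex_ball (0 : ℂ) d).isPreconnected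
      (fun t ht => (h1 t ht).differentiableAt.differentiableWithinAt)
      (fun t ht => (h1 t ht).deriv) ht (mem_ball_self hd)
    simp only [zero_smul, add_zero] at this
    rw [div_eq_div_iff (hball t ht).2 hb] at this
    linear_combination this
  let g : ℂ → ℂ := fun t => jet (F b) 1 Z v * (F a (Z + t • v) - F a Z) -
    jet (F a) 1 Z v * (F b (Z + t • v) - F b Z)
  have h3 : ∀ t, Z + t • v ∈ D → HasDerivAt g (jet (F b) 1 Z v * jet (F a) 1 (Z + t • v) v -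
      jet (F a) 1 Z v * jet (F b) 1 (Z + t • v) v) t := fun t ht =>
    (((hasDerivAt_line hD (hF a) Z v ht).sub_const _).const_mul _).sub
      (((hasDerivAt_line hD (hF b) Z v ht).sub_const _).const_mul _)
  have h4 : ∀ t ∈ ball (0 : ℂ) d, g t = 0 := by
    intro t ht
    have := isOpen_ball.is_const_of_deriv_eq_zero (convex_ball (0 : ℂ) d).isPreconnected
      (fun t ht => (h3 t (hOD (hball t ht).1)).differentiableAt.differentiableWithinAt)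
      (fun t ht => (h3 t (hOD (hball t ht).1)).deriv.trans (h2 t ht)) ht (mem_ball_self hd)
    rw [this]
    simp [g]
  have h5 := ident (wr_open hD Z v) (wr_convex hDc Z v)
    (fun t ht => (h3 t ht).differentiableAt.differentiableWithinAt) (x := 0) (hOD h0)
    (Metric.eventually_nhds_iff_ball.2 ⟨d, hd, h4⟩) s hs
  have e : dd v (F a) Z = jet (F a) 1 Z v := rfl
  rw [e]
  simp only [g] at h5
  field_simp
  linear_combination h5

end Pool.Agent.Lib.MP_601e9e_an.Rg
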