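import Pool.Agent.Lib.MP_601e9e_an.Rg.Ext1
import Pool.Agent.Lib.MP_601e9e_an.Rg.Geo2

open Complex Filter Topology Set Metric MeasureTheory
open scoped ComplexConjugate ContDiff Matrix

namespace Pool.Agent.Lib.MP_601e9e_an.Rg

variable {m N : ℕ} {r : ℝ} {F : Fin N → Zs m → ℂ} {ζ : Fin m → ℂ} {O : Set (Zs m)}
  {P : Zs m → Matrix (Fin m) (Fin m) ℂ}

theorem ext3_hol (hP : ∀ i j, DifferentiableOn ℂ (fun Z => P Z i j) O) (ζ x : Fin m → ℂ) :
    DifferentiableOn ℂ (fun Z => tv ζ (P Z *ᵥ x)) O := by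
  have h1 : ∀ j, DifferentiableOn ℂ (fun Z => (P Z *ᵥ x) j) O := fun j => by
    simp only [Matrix.mulVec, dotProduct]
    exact DifferentiableOn.fun_sum fun k _ => (hP j k).mul_const _
  refine differentiableOn_pi.2 fun o => ?_
  cases o with
  | none =>
    simp only [tv, mk_none, bil]
    exact (DifferentiableOn.fun_sum fun j _ => (h1 j).const_mul _).const_mul _
  | some j => exact h1 j

theorem ext3_l1_inj {V : J2 m N} (hV : LinearIndependent ℂ V.1) {x : Fin m → ℂ}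
    (hx : ∀ a, l1 V x a = 0) : x = 0 := by
  funext i
  refine Fintype.linearIndependent_iff.1 hV x ?_ i
  funext a
  simpa [l1, Finset.sum_apply] using hx a

theorem ext3_minor {V : J2 m N} (hV : LinearIndependent ℂ V.1) {x y : Fin m → ℂ}
    (hxy : LinearIndependent ℂ ![x, y]) :
    ∃ a b, l1 V x a * l1 V y b - l1 V x b * l1 V y a ≠ 0 := by
  by_contra h
  push Not at h
  rw [LinearIndependent.pair_iff] at hxy
  have key : ∀ a, l1 V x a = 0 := by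
    intro a
    have h1 : (-(l1 V y a)) • x + (l1 V x a) • y = 0 := by
      refine ext3_l1_inj hV fun b => ?_
      have h2 : l1 V ((-(l1 V y a)) • x + (l1 V x a) • y) b =
          (-(l1 V y a)) * l1 V x b + l1 V x a * l1 V y b := by
        generalize l1 V y a = c
        generalize l1 V x a = d
        simp only [l1, Pi.add_apply, Pi.smul_apply, smul_eq_mul, Finset.mul_sum,
          ← Finset.sum_add_distrib]
        exact Finset.sum_congr rfl fun i _ => by ring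
      rw [h2]
      linear_combination h a b
    exact (hxy _ _ h1).2
  have hx : x = 0 := ext3_l1_inj hV key
  exact one_ne_zero (hxy 1 0 (by simp [hx])).1

theorem ext3 (hO : IsOpen O) (hc : Convex ℝ O) (hOD : O ⊆ Dom m r)
    (hF : ∀ a, DifferentiableOn ℂ (F a) (Dom m r)) (hK : KD F ζ O P) {Z₀ : Zs m} (hZ₀ : Z₀ ∈ O)
    (hT : ∀ x : Fin m → ℂ, x ≠ 0 →
      {s : ℂ | ht (Z₀ + s • tv ζ x) = 0 ∧ ‖Z₀ + s • tv ζ x‖ < r}.Infinite) : Ext m r F := by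
  obtain ⟨x₀, y₀, hx₀, hy₀, hxy⟩ := hK.two Z₀ hZ₀
  have hD := isOpen_Dom (m := m) r
  have hX := ext3_hol hK.hol ζ x₀
  have hY := ext3_hol hK.hol ζ y₀
  obtain ⟨a₀, b₀, hab⟩ := ext3_minor (hK.inj Z₀ hZ₀) hxy
  simp only [← jet_one_eq] at hab
  have hcont : ∀ a, ContinuousAt (fun e : ℂ => jet (F a) 1 (Z₀ + e • tv ζ y₀) (tv ζ y₀)) 0 :=
    fun a => (hasDerivAt_jet_line hD (hF a) 1 Z₀ (tv ζ y₀) (s := 0)
      (by simpa using hOD hZ₀)).continuousAt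
  have hc2 : ContinuousAt (fun e : ℂ =>
      jet (F a₀) 1 Z₀ (tv ζ x₀) * jet (F b₀) 1 (Z₀ + e • tv ζ y₀) (tv ζ y₀) -
        jet (F b₀) 1 Z₀ (tv ζ x₀) * jet (F a₀) 1 (Z₀ + e • tv ζ y₀) (tv ζ y₀)) 0 :=
    (continuousAt_const.mul (hcont b₀)).sub (continuousAt_const.mul (hcont a₀))
  have hev := (hc2.eventually_ne (y := 0) (by simpa using hab)).and
    (eventually_line_mem hO hZ₀ (tv ζ y₀))
  obtain ⟨e, ⟨he1, he2⟩, he0⟩ :=
    ((hev.filter_mono (nhdsWithin_le_nhds (s := {0}ᶜ))).and self_mem_nhdsWithin).exists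
  have he0' : e ≠ 0 := he0
  have hS : DifferentiableOn ℂ (fun Z => Z + e • tv ζ (P Z *ᵥ y₀)) O :=
    differentiableOn_id.add (hY.const_smul e)
  have hO' : IsOpen (O ∩ (fun Z => Z + e • tv ζ (P Z *ᵥ y₀)) ⁻¹' O) :=
    hS.continuousOn.isOpen_inter_preimage hO hO
  have hsub : O ∩ (fun Z => Z + e • tv ζ (P Z *ᵥ y₀)) ⁻¹' O ⊆ O := inter_subset_left
  have hFO : ∀ a, DifferentiableOn ℂ (F a) O := fun a => (hF a).mono hOD
  refine ext1 (F₀ := F) (X := fun Z => tv ζ (P Z *ᵥ x₀))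
    (A := fun a Z => jet (F a) 1 Z (tv ζ (P Z *ᵥ x₀)))
    (B := fun a Z => jet (F a) 1 (Z + e • tv ζ (P Z *ᵥ y₀)) (tv ζ (P Z *ᵥ x₀)))
    (C := fun a Z => e * jet (F a) 1 (Z + e • tv ζ (P Z *ᵥ y₀)) (tv ζ (P Z *ᵥ y₀)))
    (E := fun a Z => F a (Z + e • tv ζ (P Z *ᵥ y₀)) - F a Z)
    hO' (Z₀ := Z₀) ⟨hZ₀, by simpa [hy₀] using he2⟩ (hX.mono hsub)
    (fun a => (hFO a).mono hsub) (fun a => ?_) (fun a => ?_) (fun a => ?_) (fun a => ?_)
    ?_ ⟨a₀, b₀, ?_⟩ ?_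
  · exact (hol_jet2 hD (hF a) 1).comp ((differentiableOn_id.prodMk hX).mono hsub)
      fun Z hZ => ⟨hOD hZ.1, mem_univ _⟩
  · exact (hol_jet2 hD (hF a) 1).comp ((hS.prodMk hX).mono hsub)
      fun Z hZ => ⟨hOD hZ.2, mem_univ _⟩
  · exact ((hol_jet2 hD (hF a) 1).comp ((hS.prodMk hY).mono hsub)
      fun Z hZ => ⟨hOD hZ.2, mem_univ _⟩).const_mul e
  · exact ((hFO a).comp (hS.mono hsub) fun Z hZ => hZ.2).sub ((hFO a).mono hsub)
  · intro Z hZ s hs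
    have hZ' : Z + e • tv ζ (P Z *ᵥ y₀) ∈ O := hZ.2
    have hfix : ∀ x, P Z *ᵥ (P Z *ᵥ x) = P Z *ᵥ x := fun x => by
      rw [Matrix.mulVec_mulVec, hK.idem Z hZ.1]
    obtain ⟨μ, hμ⟩ := geo3 hO hc hD (convex_Dom r) hOD hF hK hZ.1 (hfix x₀) hs
    have h1 := geo2 hO hc hFO hK hZ.1 (hfix x₀) (hfix y₀) hZ'
    have h2 := geo2 hO hc hFO hK hZ.1 (hfix y₀) (hfix y₀) hZ'
    have h3 : P (Z + e • tv ζ (P Z *ᵥ y₀)) *ᵥ (s • (P Z *ᵥ x₀) + (-e) • (P Z *ᵥ y₀)) =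
        s • (P Z *ᵥ x₀) + (-e) • (P Z *ᵥ y₀) := by
      rw [Matrix.mulVec_add, Matrix.mulVec_smul, Matrix.mulVec_smul, h1, h2]
    have h4 : Z + e • tv ζ (P Z *ᵥ y₀) + (1 : ℂ) • tv ζ (s • (P Z *ᵥ x₀) + (-e) • (P Z *ᵥ y₀)) =
        Z + s • tv ζ (P Z *ᵥ x₀) := by
      rw [tv_add, tv_smul, tv_smul, one_smul, neg_smul]
      abel
    obtain ⟨ν, hν⟩ := geo3 hO hc hD (convex_Dom r) hOD hF hK hZ' h3 (s := 1) (h4 ▸ hs)
    refine ⟨μ, ν, hμ, fun a => ?_⟩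
    have h5 := hν a
    rw [h4, hμ a, tv_add, tv_smul, tv_smul] at h5
    simp only [dd, map_add, map_smul, smul_eq_mul] at h5
    simp only [jet_succ, jet_zero, dd]
    linear_combination h5
  · simp only [hx₀, hy₀]
    intro h
    apply he1
    apply mul_left_cancel₀ he0'
    linear_combination h
  · simp only [hx₀]
    refine hT x₀ fun h => ?_
    exact one_ne_zero (LinearIndependent.pair_iff.1 hxy 1 0 (by simp [h])).1

end Pool.Agent.Lib.MP_601e9e_an.Rg
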