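import Pool.Agent.Lib.MP_601e9e_an.Rg.Defs

open Complex Filter Topology Set Metric MeasureTheory
open scoped ComplexConjugate ContDiff

namespace Pool.Agent.Lib.MP_601e9e_an.Rg

variable {E : Type*} [NormedAddCommGroup E] [NormedSpace ℂ E] {D : Set E} {g h : E → ℂ}

theorem jet_zero (g : E → ℂ) (Z v : E) : jet g 0 Z v = g Z := rfl

theorem jet_succ (g : E → ℂ) (j : ℕ) (Z v : E) : jet g (j + 1) Z v = jet (dd v g) j Z v := rfl

theorem jet_succ' (g : E → ℂ) (j : ℕ) (Z v : E) :
    jet g (j + 1) Z v = dd v (fun Y => jet g j Y v) Z := by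
  unfold jet
  rw [Function.iterate_succ_apply']

theorem hol_dd (hD : IsOpen D) (hg : DifferentiableOn ℂ g D) (v : E) :
    DifferentiableOn ℂ (dd v g) D :=
  Pool.Agent.Lib.MP_08f711_an.differentiableOn_fderiv_apply hD hg v

theorem hol_jet (hD : IsOpen D) (hg : DifferentiableOn ℂ g D) (j : ℕ) (v : E) :
    DifferentiableOn ℂ (fun Z => jet g j Z v) D := by
  induction j generalizing g with
  | zero => exact hg
  | succ j ih => exact ih (hol_dd hD hg v)

theorem dd_congr (hD : IsOpen D) (hgh : EqOn g h D) (v : E) : EqOn (dd v g) (dd v h) D := by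
  intro Z hZ
  have : g =ᶠ[𝓝 Z] h := hgh.eventuallyEq_of_mem (hD.mem_nhds hZ)
  simp only [dd, this.fderiv_eq]

theorem jet_congr (hD : IsOpen D) (hgh : EqOn g h D) (j : ℕ) {Z : E} (hZ : Z ∈ D) (v : E) :
    jet g j Z v = jet h j Z v := by
  induction j generalizing g h with
  | zero => exact hgh hZ
  | succ j ih => exact ih (dd_congr hD hgh v)

theorem dd_add (hD : IsOpen D) (hg : DifferentiableOn ℂ g D) (hh : DifferentiableOn ℂ h D)
    (v : E) : EqOn (dd v (fun Y => g Y + h Y)) (fun Y => dd v g Y + dd v h Y) D := by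
  intro Z hZ
  simp only [dd]
  rw [fderiv_fun_add (hg.differentiableAt (hD.mem_nhds hZ)) (hh.differentiableAt (hD.mem_nhds hZ))]
  rfl

theorem dd_mul (hD : IsOpen D) (hg : DifferentiableOn ℂ g D) (hh : DifferentiableOn ℂ h D)
    (v : E) :
    EqOn (dd v (fun Y => g Y * h Y)) (fun Y => dd v g Y * h Y + g Y * dd v h Y) D := by
  intro Z hZ
  simp only [dd]
  rw [fderiv_fun_mul (hg.differentiableAt (hD.mem_nhds hZ)) (hh.differentiableAt (hD.mem_nhds hZ))]
  simp only [add_apply, smul_apply, smul_eq_mul]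
  ring

theorem dd_const (c : ℂ) (v : E) : dd v (fun _ : E => c) = fun _ => 0 := by
  funext Z
  simp [dd]

theorem dd_const_mul (hD : IsOpen D) (hg : DifferentiableOn ℂ g D) (c : ℂ) (v : E) :
    EqOn (dd v (fun Y => c * g Y)) (fun Y => c * dd v g Y) D := by
  intro Z hZ
  rw [dd_mul hD (differentiableOn_const c) hg v hZ, dd_const]
  simp

theorem jet_add (hD : IsOpen D) (hg : DifferentiableOn ℂ g D) (hh : DifferentiableOn ℂ h D)
    (j : ℕ) {Z : E} (hZ : Z ∈ D) (v : E) :
    jet (fun Y => g Y + h Y) j Z v = jet g j Z v + jet h j Z v := by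
  induction j generalizing g h with
  | zero => rfl
  | succ j ih =>
    rw [jet_succ, jet_congr hD (dd_add hD hg hh v) j hZ, ih (hol_dd hD hg v) (hol_dd hD hh v)]
    rfl

theorem jet_const_mul (hD : IsOpen D) (hg : DifferentiableOn ℂ g D) (c : ℂ)
    (j : ℕ) {Z : E} (hZ : Z ∈ D) (v : E) :
    jet (fun Y => c * g Y) j Z v = c * jet g j Z v := by
  induction j generalizing g with
  | zero => rfl
  | succ j ih =>
    rw [jet_succ, jet_congr hD (dd_const_mul hD hg c v) j hZ, ih (hol_dd hD hg v)]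
    rfl

theorem jet_zero_fun (j : ℕ) (Z v : E) : jet (fun _ : E => (0 : ℂ)) j Z v = 0 := by
  induction j with
  | zero => rfl
  | succ j ih => rw [jet_succ, dd_const, ih]

theorem jet_const (c : ℂ) {j : ℕ} (hj : j ≠ 0) (Z v : E) : jet (fun _ => c) j Z v = 0 := by
  obtain ⟨j, rfl⟩ := Nat.exists_eq_succ_of_ne_zero hj
  rw [jet_succ, dd_const, jet_zero_fun]

theorem jet_sum {ι : Type*} (s : Finset ι) (c : ι → ℂ) {G : ι → E → ℂ} (hD : IsOpen D)
    (hG : ∀ a, DifferentiableOn ℂ (G a) D) (j : ℕ) {Z : E} (hZ : Z ∈ D) (v : E) :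
    jet (fun Y => ∑ a ∈ s, c a * G a Y) j Z v = ∑ a ∈ s, c a * jet (G a) j Z v := by
  classical
  induction s using Finset.induction_on with
  | empty => simp only [Finset.sum_empty, jet_zero_fun]
  | insert a s ha ih =>
    simp only [Finset.sum_insert ha]
    rw [jet_add hD ((hG a).const_mul _)
      (DifferentiableOn.fun_sum fun b _ => (hG b).const_mul _) j hZ, jet_const_mul hD (hG a) _ j hZ,
      ih]

theorem contDiffOn_of_hol [FiniteDimensional ℂ E] (hD : IsOpen D) (hg : DifferentiableOn ℂ g D)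
    (n : ℕ) : ContDiffOn ℂ n g D := by
  induction n generalizing g with
  | zero => exact contDiffOn_zero.2 hg.continuousOn
  | succ n ih =>
    have : ((n + 1 : ℕ) : WithTop ℕ∞) = (n : WithTop ℕ∞) + 1 := by push_cast; rfl
    rw [this, contDiffOn_succ_iff_fderiv_of_isOpen hD]
    refine ⟨hg, by simp, ?_⟩
    rw [contDiffOn_clm_apply]
    exact fun v => ih (hol_dd hD hg v)

theorem dd_comm [FiniteDimensional ℂ E] (hD : IsOpen D) (hg : DifferentiableOn ℂ g D) (u v : E)
    {Z : E} (hZ : Z ∈ D) : dd u (dd v g) Z = dd v (dd u g) Z := by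
  have h2 : ContDiffAt ℂ 2 g Z := (contDiffOn_of_hol hD hg 2).contDiffAt (hD.mem_nhds hZ)
  have hs := h2.isSymmSndFDerivAt (by simp)
  have hd : DifferentiableAt ℂ (fderiv ℂ g) Z :=
    (h2.fderiv_right (m := 1) (by norm_num)).differentiableAt (by simp)
  have key : ∀ a b : E, dd a (dd b g) Z = fderiv ℂ (fderiv ℂ g) Z a b := by
    intro a b
    show fderiv ℂ (fun Y => fderiv ℂ g Y b) Z a = _
    rw [fderiv_clm_apply hd (differentiableAt_const b)]
    simp
  rw [key, key, hs u v]

theorem jet_dd [FiniteDimensional ℂ E] (hD : IsOpen D) (hg : DifferentiableOn ℂ g D) (u v : E)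
    (j : ℕ) {Z : E} (hZ : Z ∈ D) : jet (dd u g) j Z v = dd u (fun Y => jet g j Y v) Z := by
  induction j generalizing g with
  | zero => rfl
  | succ j ih =>
    rw [jet_succ, jet_congr hD (fun Y hY => dd_comm hD hg v u hY) j hZ, ih (hol_dd hD hg v)]
    rfl

theorem hasDerivAt_line (hD : IsOpen D) (hg : DifferentiableOn ℂ g D) (Z v : E)
    {s : ℂ} (hs : Z + s • v ∈ D) :
    HasDerivAt (fun s : ℂ => g (Z + s • v)) (dd v g (Z + s • v)) s := by
  have h1 : HasDerivAt (fun s : ℂ => Z + s • v) v s := by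
    simpa using ((hasDerivAt_id s).smul_const v).const_add Z
  exact (hg.differentiableAt (hD.mem_nhds hs)).hasFDerivAt.comp_hasDerivAt s h1

theorem hasDerivAt_jet_line (hD : IsOpen D) (hg : DifferentiableOn ℂ g D) (j : ℕ) (Z v : E)
    {s : ℂ} (hs : Z + s • v ∈ D) :
    HasDerivAt (fun s : ℂ => jet g j (Z + s • v) v) (jet g (j + 1) (Z + s • v) v) s := by
  rw [jet_succ']
  exact hasDerivAt_line hD (hol_jet hD hg j v) Z v hs

theorem jet_succ_lin (hD : IsOpen D) (hg : DifferentiableOn ℂ g D) (j : ℕ) {Z : E} (hZ : Z ∈ D)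
    (a b w : E) (s : ℂ) :
    jet (dd (a + s • b) g) j Z w = jet (dd a g) j Z w + s * jet (dd b g) j Z w := by
  have : dd (a + s • b) g = fun Y => dd a g Y + s * dd b g Y := by
    funext Y
    simp [dd]
  rw [this, jet_add hD (hol_dd hD hg a) ((hol_dd hD hg b).const_mul s) j hZ,
    jet_const_mul hD (hol_dd hD hg b) s j hZ]

theorem hol_jet2 [FiniteDimensional ℂ E] (hD : IsOpen D) (hg : DifferentiableOn ℂ g D) (j : ℕ) :
    DifferentiableOn ℂ (fun x : E × E => jet g j x.1 x.2) (D ×ˢ univ) := by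
  induction j generalizing g with
  | zero => exact hg.comp differentiableOn_fst fun x hx => hx.1
  | succ j ih =>
    let b := Module.finBasis ℂ E
    have key : ∀ x ∈ D ×ˢ (univ : Set E), jet g (j + 1) x.1 x.2 =
        ∑ i, b.repr x.2 i * jet (dd (b i) g) j x.1 x.2 := by
      intro x hx
      rw [jet_succ, ← jet_sum Finset.univ _ hD (fun i => hol_dd hD hg (b i)) j hx.1]
      congr 1
      funext Y
      simp only [dd]
      conv_lhs => rw [← b.sum_repr x.2, map_sum]
      simp only [map_smul, smul_eq_mul]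
    refine DifferentiableOn.congr ?_ key
    refine DifferentiableOn.fun_sum fun i _ => DifferentiableOn.mul ?_ (ih (hol_dd hD hg _))
    exact ((LinearMap.toContinuousLinearMap (b.coord i)).differentiable.comp
      differentiable_snd).differentiableOn

theorem hasDerivAt_jet_dir [FiniteDimensional ℂ E] (hD : IsOpen D) (hg : DifferentiableOn ℂ g D)
    (j : ℕ) {Z : E} (hZ : Z ∈ D) (v b : E) :
    HasDerivAt (fun s : ℂ => jet g j Z (v + s • b)) (j * jet (dd b g) (j - 1) Z v) 0 := by
  induction j generalizing g with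
  | zero => simpa [jet_zero] using hasDerivAt_const (0 : ℂ) (g Z)
  | succ j ih =>
    have e : (fun s : ℂ => jet g (j + 1) Z (v + s • b)) = fun s : ℂ =>
        jet (dd v g) j Z (v + s • b) + s * jet (dd b g) j Z (v + s • b) := by
      funext s
      rw [jet_succ, jet_succ_lin hD hg j hZ]
    rw [e]
    have h1 := ih (hol_dd hD hg v)
    have h2 := (hasDerivAt_id (0 : ℂ)).mul (ih (hol_dd hD hg b))
    refine (h1.add h2).congr_deriv ?_
    simp only [id, zero_smul, add_zero, one_mul, zero_mul, Nat.add_sub_cancel]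
    cases j with
    | zero => simp
    | succ j =>
      simp only [Nat.add_sub_cancel]
      rw [jet_congr hD (fun Y hY => dd_comm hD hg b v hY) j hZ, ← jet_succ]
      push_cast
      ring

theorem fderiv_jet2 [FiniteDimensional ℂ E] (hD : IsOpen D) (hg : DifferentiableOn ℂ g D) (j : ℕ)
    {Z : E} (hZ : Z ∈ D) (v a b : E) :
    fderiv ℂ (fun x : E × E => jet g j x.1 x.2) (Z, v) (a, b) =
      jet (dd a g) j Z v + j * jet (dd b g) (j - 1) Z v := by
  have hO : IsOpen (D ×ˢ (univ : Set E)) := hD.prod isOpen_univ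
  have hm : ∀ w : E × E, (Z, v) + (0 : ℂ) • w ∈ D ×ˢ (univ : Set E) := by
    intro w
    simpa using hZ
  have e : ((a, b) : E × E) = (a, 0) + (0, b) := by simp
  have h1 := hasDerivAt_line hO (hol_jet2 hD hg j) (Z, v) (a, 0) (hm _)
  have h2 := hasDerivAt_line hO (hol_jet2 hD hg j) (Z, v) (0, b) (hm _)
  have h1' := hasDerivAt_line hD (hol_jet hD hg j v) Z a (s := 0) (by simpa using hZ)
  have h2' := hasDerivAt_jet_dir hD hg j hZ v b
  simp only [Prod.smul_mk, Prod.mk_add_mk, smul_zero, add_zero, zero_smul] at h1 h2 h1'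
  rw [e, map_add, jet_dd hD hg a v j hZ, ← h1.unique h1', ← h2.unique h2']
  rfl

theorem polyLe_jet (hD : IsOpen D) (hg : DifferentiableOn ℂ g D) (j : ℕ) {Z : E} (hZ : Z ∈ D)
    (v₀ v₁ : E) : PolyLe j (fun s => jet g j Z (v₀ + s • v₁)) := by
  induction j generalizing g with
  | zero => exact ⟨Polynomial.C (g Z), by simp, fun s => by simp [jet_zero]⟩
  | succ j ih =>
    obtain ⟨p, hp, hp'⟩ := ih (hol_dd hD hg v₀)
    obtain ⟨q, hq, hq'⟩ := ih (hol_dd hD hg v₁)
    refine ⟨p + Polynomial.X * q, ?_, fun s => ?_⟩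
    · refine (Polynomial.natDegree_add_le _ _).trans (max_le (by omega) ?_)
      refine Polynomial.natDegree_mul_le.trans ?_
      rw [Polynomial.natDegree_X]
      omega
    · have h1 := hp' s
      have h2 := hq' s
      simp only at h1 h2 ⊢
      rw [jet_succ, jet_succ_lin hD hg j hZ, h1, h2]
      simp

theorem eventually_line_mem (hD : IsOpen D) {Z : E} (hZ : Z ∈ D) (v : E) :
    ∀ᶠ s in 𝓝 (0 : ℂ), Z + s • v ∈ D := by
  have hc : Continuous (fun s : ℂ => Z + s • v) := by fun_prop
  exact hc.continuousAt.preimage_mem_nhds (hD.mem_nhds (by simpa using hZ))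

theorem jet_eq_zero_of_line (hD : IsOpen D) (hg : DifferentiableOn ℂ g D) {Z : E} (hZ : Z ∈ D)
    {v : E} (h0 : ∀ᶠ s in 𝓝 (0 : ℂ), g (Z + s • v) = 0) (j : ℕ) : jet g j Z v = 0 := by
  have key : ∀ j, ∀ᶠ s in 𝓝 (0 : ℂ), jet g j (Z + s • v) v = 0 := by
    intro j
    induction j with
    | zero => exact h0
    | succ j ih =>
      filter_upwards [ih.eventually_nhds, eventually_line_mem hD hZ v] with s h1 h2
      have h3 := hasDerivAt_jet_line hD hg j Z v h2
      have h4 : HasDerivAt (fun s : ℂ => jet g j (Z + s • v) v) 0 s :=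
        (hasDerivAt_const s (0 : ℂ)).congr_of_eventuallyEq h1
      exact h3.unique h4
  simpa using (key j).self_of_nhds

theorem jet_mul (hD : IsOpen D) (hh : DifferentiableOn ℂ h D) (j : ℕ) {Z : E} (hZ : Z ∈ D)
    (v : E) : ∃ c : ℕ → ℂ, ∀ g : E → ℂ, DifferentiableOn ℂ g D →
      jet (fun Y => h Y * g Y) j Z v = ∑ l ∈ Finset.range (j + 1), c l * jet g l Z v := by
  induction j generalizing h with
  | zero => exact ⟨fun _ => h Z, fun g _ => by simp [jet_zero]⟩
  | succ j ih =>
    obtain ⟨c₁, h₁⟩ := ih (hol_dd hD hh v)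
    obtain ⟨c₂, h₂⟩ := ih hh
    refine ⟨fun l => (if l < j + 1 then c₁ l else 0) + (if l = 0 then 0 else c₂ (l - 1)),
      fun g hg => ?_⟩
    rw [jet_succ, jet_congr hD (dd_mul hD hh hg v) j hZ,
      jet_add hD ((hol_dd hD hh v).fun_mul hg) (hh.fun_mul (hol_dd hD hg v)) j hZ, h₁ g hg,
      h₂ _ (hol_dd hD hg v)]
    simp only [add_mul, Finset.sum_add_distrib]
    congr 1
    · rw [Finset.sum_range_succ (n := j + 1)]
      simp only [lt_irrefl, if_false, zero_mul, add_zero]
      exact Finset.sum_congr rfl fun l hl => by rw [if_pos (Finset.mem_range.1 hl)]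
    · rw [Finset.sum_range_succ' (n := j + 1)]
      simp [jet_succ]

theorem iteratedDeriv_line (hD : IsOpen D) (hg : DifferentiableOn ℂ g D) (j : ℕ) (Z v : E)
    {s : ℂ} (hs : Z + s • v ∈ D) :
    iteratedDeriv j (fun s : ℂ => g (Z + s • v)) s = jet g j (Z + s • v) v := by
  induction j generalizing s with
  | zero => rfl
  | succ j ih =>
    have hc : Continuous (fun s : ℂ => Z + s • v) := by fun_prop
    have hev : iteratedDeriv j (fun s : ℂ => g (Z + s • v)) =ᶠ[𝓝 s]
        fun s => jet g j (Z + s • v) v := by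
      filter_upwards [hc.continuousAt.preimage_mem_nhds (hD.mem_nhds hs)] with s' hs'
      exact ih hs'
    rw [iteratedDeriv_succ, hev.deriv_eq]
    exact (hasDerivAt_jet_line hD hg j Z v hs).deriv

theorem norm_jet_le (hD : IsOpen D) (hg : DifferentiableOn ℂ g D) {Z v : E} {R M : ℝ}
    (hR : 0 < R) (hin : ∀ s : ℂ, ‖s‖ ≤ R → Z + s • v ∈ D) (hM : ∀ Y ∈ D, ‖g Y‖ ≤ M) (j : ℕ) :
    ‖jet g j Z v‖ ≤ j.factorial * M / R ^ j := by
  have h0 := iteratedDeriv_line hD hg j Z v (hin 0 (by simpa using hR.le))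
  simp only [zero_smul, add_zero] at h0
  rw [← h0]
  refine norm_iteratedDeriv_le_of_forall_mem_sphere_norm_le j hR ?_ fun s hs =>
    hM _ (hin s (mem_sphere_zero_iff_norm.1 hs).le)
  refine DifferentiableOn.diffContOnCl ?_
  rw [closure_ball _ hR.ne']
  exact fun s hs => (hasDerivAt_line hD hg Z v
    (hin s (mem_closedBall_zero_iff.1 hs))).differentiableAt.differentiableWithinAt

theorem jet_conj {σ : Type*} [Fintype σ] {g : (σ → ℂ) → ℂ} (hg : Differentiable ℂ g) (j : ℕ)
    (Z v : σ → ℂ) :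
    jet (fun Y => conj (g (star Y))) j (star Z) (star v) = conj (jet g j Z v) := by
  induction j generalizing g with
  | zero => simp [jet_zero]
  | succ j ih =>
    have hd : Differentiable ℂ (dd v g) :=
      differentiableOn_univ.1 (hol_dd isOpen_univ hg.differentiableOn v)
    rw [jet_succ, jet_succ, ← ih hd]
    congr 1
    funext Y
    have h1 := (hg (star Y)).hasFDerivAt.star_star
    rw [star_star] at h1
    have h2 := h1.fderiv
    show fderiv ℂ (star ∘ g ∘ star) Y (star v) = _
    rw [h2]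
    simp [dd]

theorem jet_star {σ : Type*} [Fintype σ] (P : MvPolynomial σ ℂ) (j : ℕ) (Z v : σ → ℂ) :
    jet (fun Y => MvPolynomial.eval Y (MvPolynomial.map (starRingEnd ℂ) P)) j (star Z) (star v) =
      conj (jet (fun Y => MvPolynomial.eval Y P) j Z v) := by
  have hP : Differentiable ℂ (fun Y : σ → ℂ => MvPolynomial.eval Y P) := by
    induction P using MvPolynomial.induction_on with
    | C a => simp
    | add p q hp hq =>
      simp only [map_add]
      exact hp.add hq
    | mul_X p i hp =>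
      simp only [map_mul, MvPolynomial.eval_X]
      exact hp.mul (differentiable_apply i)
  rw [← jet_conj hP]
  congr 1
  funext Y
  clear hP
  induction P using MvPolynomial.induction_on with
  | C a => simp
  | add p q hp hq => simp only [map_add, hp, hq]
  | mul_X p i hp => simp only [map_mul, hp]; simp

theorem jet_eq_iteratedFDeriv [FiniteDimensional ℂ E] (hD : IsOpen D)
    (hg : DifferentiableOn ℂ g D) (j : ℕ) {Z : E} (hZ : Z ∈ D) (v : E) :
    jet g j Z v = iteratedFDeriv ℂ j g Z (fun _ => v) := by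
  induction j generalizing Z with
  | zero => simp [jet_zero]
  | succ j ih =>
    have hev : (fun Y => jet g j Y v) =ᶠ[𝓝 Z] fun Y => iteratedFDeriv ℂ j g Y (fun _ => v) := by
      filter_upwards [hD.mem_nhds hZ] with Y hY using ih hY
    have hc : ContDiffAt ℂ ((j + 1 : ℕ) : WithTop ℕ∞) g Z :=
      (contDiffOn_of_hol hD hg (j + 1)).contDiffAt (hD.mem_nhds hZ)
    have hd : DifferentiableAt ℂ (iteratedFDeriv ℂ j g) Z :=
      hc.differentiableAt_iteratedFDeriv (by exact_mod_cast Nat.lt_succ_self j)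
    rw [jet_succ', iteratedFDeriv_succ_apply_left]
    simp only [dd]
    rw [hev.fderiv_eq, fderiv_continuousMultilinear_apply_const_apply hd]
    rfl

end Pool.Agent.Lib.MP_601e9e_an.Rg
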