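import Pool.Agent.Lib.MP_601e9e_an.Rg.Defs

open Complex Filter Topology Set Metric MeasureTheory
open scoped ComplexConjugate ContDiff

namespace Pool.Agent.Lib.MP_601e9e_an.Rg

section polyLe

variable {d e : ℕ} {f g : ℂ → ℂ}

theorem PolyLe.const (c : ℂ) : PolyLe 0 (fun _ => c) := by
  exact ⟨Polynomial.C c, by simp, by simp⟩

theorem PolyLe.mono (h : PolyLe d f) (hde : d ≤ e) : PolyLe e f := by
  obtain ⟨p, h1, h2⟩ := h
  exact ⟨p, h1.trans hde, h2⟩

theorem PolyLe.lin (a b : ℂ) : PolyLe 1 (fun s => a + s * b) := by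
  refine ⟨Polynomial.C b * Polynomial.X + Polynomial.C a, Polynomial.natDegree_linear_le, fun s => ?_⟩
  simp only [Polynomial.eval_add, Polynomial.eval_mul, Polynomial.eval_C, Polynomial.eval_X]
  ring

theorem PolyLe.add (hf : PolyLe d f) (hg : PolyLe d g) : PolyLe d (fun s => f s + g s) := by
  obtain ⟨p, h1, h2⟩ := hf
  obtain ⟨q, k1, k2⟩ := hg
  exact ⟨p + q, (Polynomial.natDegree_add_le _ _).trans (max_le h1 k1), fun s => by simp [h2, k2]⟩

theorem PolyLe.sub (hf : PolyLe d f) (hg : PolyLe d g) : PolyLe d (fun s => f s - g s) := by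
  obtain ⟨p, h1, h2⟩ := hf
  obtain ⟨q, k1, k2⟩ := hg
  exact ⟨p - q, (Polynomial.natDegree_sub_le _ _).trans (max_le h1 k1), fun s => by simp [h2, k2]⟩

theorem PolyLe.mul (hf : PolyLe d f) (hg : PolyLe e g) :
    PolyLe (d + e) (fun s => f s * g s) := by
  obtain ⟨p, h1, h2⟩ := hf
  obtain ⟨q, k1, k2⟩ := hg
  exact ⟨p * q, Polynomial.natDegree_mul_le.trans (add_le_add h1 k1), fun s => by simp [h2, k2]⟩

theorem PolyLe.const_mul (hf : PolyLe d f) (c : ℂ) : PolyLe d (fun s => c * f s) := by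
  simpa using (PolyLe.const c).mul hf

theorem PolyLe.mul_const (hf : PolyLe d f) (c : ℂ) : PolyLe d (fun s => f s * c) := by
  simpa using hf.mul (PolyLe.const c)

theorem PolyLe.sum {ι : Type*} (s : Finset ι) {F : ι → ℂ → ℂ} (h : ∀ i ∈ s, PolyLe d (F i)) :
    PolyLe d (fun x => ∑ i ∈ s, F i x) := by
  classical
  induction s using Finset.induction_on with
  | empty => simpa using (PolyLe.const 0).mono (Nat.zero_le d)
  | insert a s ha ih =>
    simp only [Finset.sum_insert ha]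
    exact (h a (by simp)).add (ih fun i hi => h i (by simp [hi]))

theorem PolyLe.prod {ι : Type*} (s : Finset ι) (c : ι → ℕ) {F : ι → ℂ → ℂ}
    (h : ∀ i ∈ s, PolyLe (c i) (F i)) : PolyLe (∑ i ∈ s, c i) (fun x => ∏ i ∈ s, F i x) := by
  classical
  induction s using Finset.induction_on with
  | empty => simpa using PolyLe.const 1
  | insert a s ha ih =>
    simp only [Finset.prod_insert ha, Finset.sum_insert ha]
    exact (h a (by simp)).mul (ih fun i hi => h i (by simp [hi]))

theorem PolyLe.det {n : Type*} [Fintype n] [DecidableEq n] {M : ℂ → Matrix n n ℂ} (c : n → ℕ)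
    (h : ∀ i j, PolyLe (c j) (fun s => M s i j)) : PolyLe (∑ j, c j) (fun s => (M s).det) := by
  simp only [Matrix.det_apply']
  exact PolyLe.sum _ fun σ _ => (PolyLe.prod _ c fun j _ => h _ j).const_mul _

theorem PolyLe.adjugate {n : Type*} [Fintype n] [DecidableEq n] {M : ℂ → Matrix n n ℂ}
    (c : n → ℕ) (h : ∀ i j, PolyLe (c j) (fun s => M s i j)) (i j : n) :
    PolyLe (∑ j, c j) (fun s => (M s).adjugate i j) := by
  simp only [Matrix.adjugate_apply]
  refine PolyLe.det c fun a b => ?_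
  by_cases r : a = j
  · subst r
    simp only [Matrix.updateRow_self]
    exact (PolyLe.const _).mono (Nat.zero_le _)
  · simp only [Matrix.updateRow_ne r]
    exact h a b

end polyLe

section isPoly

variable {σ : Type*} {f g : (σ → ℂ) → ℂ}

theorem IsPoly.const (c : ℂ) : IsPoly (fun _ : σ → ℂ => c) := by
  exact ⟨MvPolynomial.C c, by simp⟩

theorem IsPoly.coord (i : σ) : IsPoly (fun Z : σ → ℂ => Z i) := by
  exact ⟨MvPolynomial.X i, by simp⟩

theorem IsPoly.add (hf : IsPoly f) (hg : IsPoly g) : IsPoly (fun Z => f Z + g Z) := by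
  obtain ⟨p, h⟩ := hf
  obtain ⟨q, k⟩ := hg
  exact ⟨p + q, fun Z => by simp [h, k]⟩

theorem IsPoly.sub (hf : IsPoly f) (hg : IsPoly g) : IsPoly (fun Z => f Z - g Z) := by
  obtain ⟨p, h⟩ := hf
  obtain ⟨q, k⟩ := hg
  exact ⟨p - q, fun Z => by simp [h, k]⟩

theorem IsPoly.neg (hf : IsPoly f) : IsPoly (fun Z => -f Z) := by
  obtain ⟨p, h⟩ := hf
  exact ⟨-p, fun Z => by simp [h]⟩

theorem IsPoly.mul (hf : IsPoly f) (hg : IsPoly g) : IsPoly (fun Z => f Z * g Z) := by
  obtain ⟨p, h⟩ := hf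
  obtain ⟨q, k⟩ := hg
  exact ⟨p * q, fun Z => by simp [h, k]⟩

theorem IsPoly.sum {ι : Type*} (s : Finset ι) {F : ι → (σ → ℂ) → ℂ} (h : ∀ i ∈ s, IsPoly (F i)) :
    IsPoly (fun Z => ∑ i ∈ s, F i Z) := by
  classical
  induction s using Finset.induction_on with
  | empty => simpa using IsPoly.const (σ := σ) 0
  | insert a s ha ih =>
    simp only [Finset.sum_insert ha]
    exact (h a (by simp)).add (ih fun i hi => h i (by simp [hi]))

theorem IsPoly.eval_comp {τ : Type*} {c : (σ → ℂ) → τ → ℂ} (hc : ∀ i, IsPoly (fun Z => c Z i))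
    (P : MvPolynomial τ ℂ) : IsPoly (fun Z => MvPolynomial.eval (c Z) P) := by
  induction P using MvPolynomial.induction_on with
  | C a => simpa using IsPoly.const (σ := σ) a
  | add p q hp hq => simpa using hp.add hq
  | mul_X p i hp => simpa using hp.mul (hc i)

/-- A linear system with polynomial coefficients, uniquely solvable at one point. -/
theorem cramer_poly {κ ν : Type*} [Fintype κ] [Fintype ν] {A : κ → ν → (σ → ℂ) → ℂ}
    {b : κ → (σ → ℂ) → ℂ} (hA : ∀ i j, IsPoly (A i j)) (hb : ∀ i, IsPoly (b i)) {Z₀ : σ → ℂ}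
    (hinj : ∀ y : ν → ℂ, (∀ i, ∑ j, A i j Z₀ * y j = 0) → y = 0) :
    ∃ (q : MvPolynomial σ ℂ) (P : ν → MvPolynomial σ ℂ), q ≠ 0 ∧
      ∀ (Z : σ → ℂ) (y : ν → ℂ), (∀ i, ∑ j, A i j Z * y j = b i Z) →
        ∀ j, MvPolynomial.eval Z q * y j = MvPolynomial.eval Z (P j) := by
  classical
  choose PA hPA using hA
  choose Pb hPb using hb
  let A' : Matrix κ ν (MvPolynomial σ ℂ) := Matrix.of PA
  let C' : Matrix ν κ (MvPolynomial σ ℂ) := Matrix.of fun j i => MvPolynomial.C (conj (A i j Z₀))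
  let A0 : Matrix κ ν ℂ := Matrix.of fun i j => A i j Z₀
  refine ⟨(C' * A').det, ((C' * A').adjugate * C').mulVec Pb, fun h0 => ?_, fun Z y hy j => ?_⟩
  · have e : (C' * A').map (MvPolynomial.eval Z₀) = A0.conjTranspose * A0 := by
      rw [Matrix.map_mul]
      congr 1 <;> ext i j <;> simp [C', A', A0, hPA]
    have h1 : (A0.conjTranspose * A0).det = 0 := by
      rw [← e, ← RingHom.mapMatrix_apply, ← RingHom.map_det, h0, map_zero]
    obtain ⟨v, v0, hv⟩ := Matrix.exists_mulVec_eq_zero_iff.2 h1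
    open scoped ComplexOrder in
    rw [Matrix.conjTranspose_mul_self_mulVec_eq_zero] at hv
    exact v0 (hinj v fun i => congrFun hv i)
  · have e1 : (A'.map (MvPolynomial.eval Z)).mulVec y = fun i => MvPolynomial.eval Z (Pb i) :=
      funext fun i => by
        rw [← hPb, ← hy]
        simp [Matrix.mulVec, dotProduct, A', hPA]
    have e2 : MvPolynomial.eval Z (((C' * A').adjugate * C').mulVec Pb j) =
        ((((C' * A').adjugate * C').map (MvPolynomial.eval Z)).mulVec
          fun i => MvPolynomial.eval Z (Pb i)) j := by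
      simp [Matrix.mulVec, dotProduct]
    rw [e2, ← e1, Matrix.mulVec_mulVec, ← Matrix.map_mul, Matrix.mul_assoc, Matrix.adjugate_mul]
    simp [Matrix.mulVec, dotProduct, Matrix.one_apply, apply_ite]

/-- Projective substitution keeps the degree bound. -/
theorem exists_homog {τ : Type*} [Fintype σ] (P : MvPolynomial σ ℂ) {d : ℕ}
    (hP : P.totalDegree ≤ d) (A : σ → MvPolynomial τ ℂ) (A₀ : MvPolynomial τ ℂ)
    (hA : ∀ i, (A i).totalDegree ≤ 1) (hA₀ : A₀.totalDegree ≤ 1) :
    ∃ Q : MvPolynomial τ ℂ, Q.totalDegree ≤ d ∧ ∀ x : τ → ℂ, MvPolynomial.eval x A₀ ≠ 0 →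
      MvPolynomial.eval x Q = MvPolynomial.eval x A₀ ^ d *
        MvPolynomial.eval (fun i => MvPolynomial.eval x (A i) / MvPolynomial.eval x A₀) P := by
  classical
  refine ⟨∑ a ∈ P.support, MvPolynomial.C (P.coeff a) * (∏ i, A i ^ a i) * A₀ ^ (d - ∑ i, a i),
    ?_, fun x hx => ?_⟩
  · refine MvPolynomial.totalDegree_finsetSum_le fun a ha => ?_
    have h1 : ∑ i, a i ≤ d := by
      have := (MvPolynomial.le_totalDegree ha).trans hP
      rwa [Finsupp.sum_fintype _ _ (fun _ => rfl)] at this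
    have h2 : (∏ i, A i ^ a i).totalDegree ≤ ∑ i, a i :=
      (MvPolynomial.totalDegree_finsetProd _ _).trans (Finset.sum_le_sum fun i _ =>
        (MvPolynomial.totalDegree_pow _ _).trans (by simpa using Nat.mul_le_mul_left _ (hA i)))
    have h3 : (A₀ ^ (d - ∑ i, a i)).totalDegree ≤ d - ∑ i, a i :=
      (MvPolynomial.totalDegree_pow _ _).trans (by simpa using Nat.mul_le_mul_left _ hA₀)
    have h4 := MvPolynomial.totalDegree_mul (MvPolynomial.C (P.coeff a) * ∏ i, A i ^ a i)
      (A₀ ^ (d - ∑ i, a i))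
    have h5 := MvPolynomial.totalDegree_mul (MvPolynomial.C (P.coeff a)) (∏ i, A i ^ a i)
    rw [MvPolynomial.totalDegree_C] at h5
    omega
  · rw [MvPolynomial.eval_eq' _ P, Finset.mul_sum, map_sum]
    refine Finset.sum_congr rfl fun a ha => ?_
    have h1 : ∑ i, a i ≤ d := by
      have := (MvPolynomial.le_totalDegree ha).trans hP
      rwa [Finsupp.sum_fintype _ _ (fun _ => rfl)] at this
    obtain ⟨e, rfl⟩ := Nat.exists_eq_add_of_le h1
    simp only [map_mul, map_prod, map_pow, MvPolynomial.eval_C, div_pow, Finset.prod_div_distrib,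
      Finset.prod_pow_eq_pow_sum, add_tsub_cancel_left, pow_add]
    field_simp

end isPoly

section pb

variable {α : Type*} {nm : α → ℝ} {S : Set α} {f g : α → ℂ}

theorem PB.of_bound {C : ℝ} (h : ∀ x ∈ S, ‖f x‖ ≤ C) : PB nm S f := by
  exact ⟨C, 0, by simpa using h⟩

theorem PB.of_le (h : ∀ x ∈ S, ‖f x‖ ≤ nm x) : PB nm S f := by
  exact ⟨1, 1, fun x hx => by have := h x hx; simp only [pow_one]; linarith⟩

theorem PB.add (h0 : ∀ x, 0 ≤ nm x) (hf : PB nm S f) (hg : PB nm S g) :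
    PB nm S (fun x => f x + g x) := by
  obtain ⟨C, c, h⟩ := hf
  obtain ⟨D, e, k⟩ := hg
  refine ⟨|C| + |D|, c + e, fun x hx => (norm_add_le _ _).trans ?_⟩
  have h1 : (1 : ℝ) ≤ 1 + nm x := by linarith [h0 x]
  rw [add_mul]
  refine add_le_add ((h x hx).trans ?_) ((k x hx).trans ?_)
  · exact mul_le_mul (le_abs_self C) (pow_le_pow_right₀ h1 (by omega)) (by positivity)
      (abs_nonneg C)
  · exact mul_le_mul (le_abs_self D) (pow_le_pow_right₀ h1 (by omega)) (by positivity)
      (abs_nonneg D)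

theorem PB.mul (h0 : ∀ x, 0 ≤ nm x) (hf : PB nm S f) (hg : PB nm S g) :
    PB nm S (fun x => f x * g x) := by
  obtain ⟨C, c, h⟩ := hf
  obtain ⟨D, e, k⟩ := hg
  refine ⟨C * D, c + e, fun x hx => ?_⟩
  rw [norm_mul, pow_add, mul_mul_mul_comm]
  exact mul_le_mul (h x hx) (k x hx) (norm_nonneg _) ((norm_nonneg _).trans (h x hx))

theorem PB.sum (h0 : ∀ x, 0 ≤ nm x) {ι : Type*} (s : Finset ι) {F : ι → α → ℂ}
    (h : ∀ i ∈ s, PB nm S (F i)) : PB nm S (fun x => ∑ i ∈ s, F i x) := by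
  classical
  induction s using Finset.induction_on with
  | empty => exact PB.of_bound (C := 0) (by simp)
  | insert a s ha ih =>
    simp only [Finset.sum_insert ha]
    exact (h a (by simp)).add h0 (ih fun i hi => h i (by simp [hi]))

theorem PB.prod (h0 : ∀ x, 0 ≤ nm x) {ι : Type*} (s : Finset ι) {F : ι → α → ℂ}
    (h : ∀ i ∈ s, PB nm S (F i)) : PB nm S (fun x => ∏ i ∈ s, F i x) := by
  classical
  induction s using Finset.induction_on with
  | empty => exact PB.of_bound (C := 1) (by simp)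
  | insert a s ha ih =>
    simp only [Finset.prod_insert ha]
    exact (h a (by simp)).mul h0 (ih fun i hi => h i (by simp [hi]))

theorem PB.det (h0 : ∀ x, 0 ≤ nm x) {n : Type*} [Fintype n] [DecidableEq n]
    {M : α → Matrix n n ℂ} (h : ∀ i j, PB nm S (fun x => M x i j)) :
    PB nm S (fun x => (M x).det) := by
  simp only [Matrix.det_apply']
  exact PB.sum h0 _ fun σ _ => (PB.of_bound (C := ‖((Equiv.Perm.sign σ : ℤ) : ℂ)‖)
    fun _ _ => le_rfl).mul h0 (PB.prod h0 _ fun j _ => h _ j)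

end pb

end Pool.Agent.Lib.MP_601e9e_an.Rg
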