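import Pool.Agent.Lib.MP_601e9e_an.Rg.Defs2
import Pool.Agent.Lib.MP_601e9e_an.Rg.Jet
import Pool.Agent.Lib.MP_601e9e_an.Rg.Ident
import Pool.Agent.Lib.MP_601e9e_an.Rg.Poly

open Complex Filter Topology Set Metric MeasureTheory
open scoped ComplexConjugate ContDiff Matrix

namespace Pool.Agent.Lib.MP_601e9e_an.Rg

variable {m N k : ℕ} {r : ℝ} {F : Fin N → Zs m → ℂ}

theorem bu2_dd (g : Zs m → ℂ) (ζ ξ : Fin m → ℂ) :
    dd (tv ζ ξ) g = fun Z => ∑ i, ξ i * dd (tv ζ (Pi.single i 1)) g Z := by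
  funext Z
  simp only [dd]
  rw [tv_sum ζ ξ, map_sum]
  simp only [map_smul, smul_eq_mul]

theorem jet_one_eq (Z : Zs m) (ζ ξ : Fin m → ℂ) (a : Fin N) :
    jet (F a) 1 Z (tv ζ ξ) = l1 (j2 F (Z, ζ)) ξ a :=
  congrFun (bu2_dd (F a) ζ ξ) Z

theorem dd_dd_eq {D : Set (Zs m)} (hD : IsOpen D) (hF : ∀ a, DifferentiableOn ℂ (F a) D)
    {Z : Zs m} (hZ : Z ∈ D) (ζ ξ η : Fin m → ℂ) (a : Fin N) :
    dd (tv ζ ξ) (dd (tv ζ η) (F a)) Z = l2 (j2 F (Z, ζ)) (Matrix.vecMulVec ξ η) a := by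
  rw [bu2_dd (dd (tv ζ η) (F a)) ζ ξ, bu2_dd (F a) ζ η]
  simp only [l2, j2, Matrix.vecMulVec_apply]
  refine Finset.sum_congr rfl fun i _ => ?_
  have h := jet_sum Finset.univ η (G := fun j => dd (tv ζ (Pi.single j 1)) (F a)) hD
    (fun j => hol_dd hD (hF a) _) 1 hZ (tv ζ (Pi.single i 1))
  have h' : dd (tv ζ (Pi.single i 1)) (fun Y => ∑ j, η j * dd (tv ζ (Pi.single j 1)) (F a) Y) Z =
      ∑ j, η j * dd (tv ζ (Pi.single i 1)) (dd (tv ζ (Pi.single j 1)) (F a)) Z := h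
  rw [h', Finset.mul_sum]
  exact Finset.sum_congr rfl fun j _ => (mul_assoc _ _ _).symm

theorem jet_two_eq {D : Set (Zs m)} (hD : IsOpen D) (hF : ∀ a, DifferentiableOn ℂ (F a) D)
    {Z : Zs m} (hZ : Z ∈ D) (ζ ξ : Fin m → ℂ) (a : Fin N) :
    jet (F a) 2 Z (tv ζ ξ) = q2 (j2 F (Z, ζ)) ξ a :=
  dd_dd_eq hD hF hZ ζ ξ ξ a

theorem j2_symm {D : Set (Zs m)} (hD : IsOpen D) (hF : ∀ a, DifferentiableOn ℂ (F a) D)
    {Z : Zs m} (hZ : Z ∈ D) (ζ : Fin m → ℂ) (i j : Fin m) :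
    (j2 F (Z, ζ)).2 i j = (j2 F (Z, ζ)).2 j i := by
  funext a
  exact dd_comm hD (hF a) _ _ hZ

theorem bu2_l1 (V : J2 m N) (i : Fin m) (a : Fin N) : l1 V (Pi.single i 1) a = V.1 i a := by
  simp [l1, Pi.single_apply]

theorem bu2_l2 (V : J2 m N) (i j : Fin m) (a : Fin N) :
    l2 V (Matrix.vecMulVec (Pi.single i 1) (Pi.single j 1)) a = V.2 i j a := by
  simp [l2, Matrix.vecMulVec_apply, Pi.single_apply]

theorem bu2_pol (V : J2 m N) (hV : ∀ i j, V.2 i j = V.2 j i) (i j : Fin m) (a : Fin N) :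
    V.2 i j a = (q2 V (Pi.single i 1 + Pi.single j 1) a - q2 V (Pi.single i 1) a -
      q2 V (Pi.single j 1) a) / 2 := by
  have h : ∀ x y : Fin m → ℂ, q2 V (x + y) a = q2 V x a + q2 V y a +
      l2 V (Matrix.vecMulVec x y) a + l2 V (Matrix.vecMulVec y x) a := by
    intro x y
    simp only [q2, l2, Matrix.vecMulVec_apply, Pi.add_apply, ← Finset.sum_add_distrib]
    exact Finset.sum_congr rfl fun i _ => Finset.sum_congr rfl fun j _ => by ring
  rw [h, bu2_l2, bu2_l2, hV j i]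
  ring

theorem bu2_hol {D : Set (Zs m)} (hD : IsOpen D) {g : Zs m → ℂ} (hg : DifferentiableOn ℂ g D)
    (j : ℕ) (ξ : Fin m → ℂ) :
    DifferentiableOn ℂ (fun x : Zs m × (Fin m → ℂ) => jet g j x.1 (tv x.2 ξ)) (D ×ˢ univ) := by
  have h1 : Differentiable ℂ fun x : Zs m × (Fin m → ℂ) => tv x.2 ξ :=
    hol_mk (differentiable_const _)
      ((hol_bil differentiable_snd (differentiable_const _)).const_mul _)
  exact (hol_jet2 hD hg j).comp (differentiable_fst.prodMk h1).differentiableOn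
    fun x hx => ⟨hx.1, mem_univ _⟩

theorem hol_j2 {D : Set (Zs m)} (hD : IsOpen D) (hF : ∀ a, DifferentiableOn ℂ (F a) D) :
    DifferentiableOn ℂ (j2 F) (D ×ˢ univ) := by
  refine DifferentiableOn.prodMk (differentiableOn_pi.2 fun i => differentiableOn_pi.2 fun a => ?_)
    (differentiableOn_pi.2 fun i => differentiableOn_pi.2 fun j => differentiableOn_pi.2 fun a => ?_)
  · exact bu2_hol hD (hF a) 1 _
  · refine ((((bu2_hol hD (hF a) 2 (Pi.single i 1 + Pi.single j 1)).sub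
      (bu2_hol hD (hF a) 2 (Pi.single i 1))).sub
      (bu2_hol hD (hF a) 2 (Pi.single j 1))).mul_const (2⁻¹ : ℂ)).congr fun x hx => ?_
    simp only [Pi.sub_apply]
    rw [jet_two_eq hD hF hx.1, jet_two_eq hD hF hx.1, jet_two_eq hD hF hx.1, ← div_eq_mul_inv]
    exact bu2_pol (j2 F (x.1, x.2)) (j2_symm hD hF hx.1 x.2) i j a

theorem bu2_fin {P κ : Type*} [Fintype κ] (w : P → κ → ℂ) : ∃ s : Finset P, ∀ g : κ → ℂ,
    (∀ p ∈ s, ∑ x, w p x * g x = 0) → ∀ p, ∑ x, w p x * g x = 0 := by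
  classical
  obtain ⟨t, ht, he⟩ := (Submodule.fg_span_iff_fg_span_finset_subset (range w)).1
    (IsNoetherian.noetherian (Submodule.span ℂ (range w)))
  choose c hc using fun x : t => ht x.2
  refine ⟨Finset.univ.image c, fun g hg p => ?_⟩
  have hp : w p ∈ Submodule.span ℂ (t : Set (κ → ℂ)) := he ▸ Submodule.subset_span ⟨p, rfl⟩
  refine Submodule.span_induction (p := fun u _ => ∑ x, u x * g x = 0) (fun u hu => ?_) (by simp)
    (fun u v _ _ hu hv => ?_) (fun a u _ hu => ?_) hp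
  · have := hg (c ⟨u, hu⟩) (Finset.mem_image_of_mem _ (Finset.mem_univ _))
    rwa [hc] at this
  · simp only [Pi.add_apply, add_mul, Finset.sum_add_distrib, hu, hv, add_zero]
  · simp only [Pi.smul_apply, smul_eq_mul, mul_assoc, ← Finset.mul_sum, hu, mul_zero]

theorem bu2_gram {σ τ : Type*} [Fintype σ] [Fintype τ] (x : σ → ℂ) (y : τ → ℂ)
    (X : σ → Fin N → ℂ) (Y : τ → Fin N → ℂ) :
    ∑ a, (∑ s, x s * X s a) * conj (∑ t, y t * Y t a) =
      ∑ p : σ × τ, x p.1 * conj (y p.2) * ∑ a, X p.1 a * conj (Y p.2 a) := by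
  have h : ∀ a, (∑ s, x s * X s a) * conj (∑ t, y t * Y t a) =
      ∑ p : σ × τ, x p.1 * conj (y p.2) * (X p.1 a * conj (Y p.2 a)) := by
    intro a
    rw [map_sum, Finset.sum_mul_sum, Fintype.sum_prod_type]
    exact Finset.sum_congr rfl fun s _ => Finset.sum_congr rfl fun t _ => by
      rw [map_mul]; ring
  simp only [h]
  rw [Finset.sum_comm]
  exact Finset.sum_congr rfl fun p _ => (Finset.mul_sum _ _ _).symm

theorem bu2_q2 (V : J2 m N) (ξ : Fin m → ℂ) (a : Fin N) :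
    q2 V ξ a = ∑ s : Fin m × Fin m, ξ s.1 * ξ s.2 * V.2 s.1 s.2 a := by
  simp only [q2, l2, Matrix.vecMulVec_apply, Fintype.sum_prod_type]

theorem bu2_pairs (m : ℕ) : ∃ s : Finset ((Fin m → ℂ) × (Fin m → ℂ)),
    (∀ p ∈ s, bil p.1 (star p.2) = 0) ∧ ∀ (N : ℕ) (V : J2 m N), (∀ i j, V.2 i j = V.2 j i) →
      (∀ p ∈ s, ∑ a, l1 V p.1 a * conj (l1 V p.2 a) = 0 ∧ ∑ a, q2 V p.1 a * conj (l1 V p.2 a) = 0 ∧
        ∑ a, q2 V p.1 a * conj (q2 V p.2 a) = 0) → Rel2 V := by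
  classical
  obtain ⟨s1, h1⟩ := bu2_fin (P := {p : (Fin m → ℂ) × (Fin m → ℂ) // bil p.1 (star p.2) = 0})
    (fun p (x : Fin m × Fin m) => p.1.1 x.1 * conj (p.1.2 x.2))
  obtain ⟨s2, h2⟩ := bu2_fin (P := {p : (Fin m → ℂ) × (Fin m → ℂ) // bil p.1 (star p.2) = 0})
    (fun p (x : (Fin m × Fin m) × Fin m) => p.1.1 x.1.1 * p.1.1 x.1.2 * conj (p.1.2 x.2))
  obtain ⟨s3, h3⟩ := bu2_fin (P := {p : (Fin m → ℂ) × (Fin m → ℂ) // bil p.1 (star p.2) = 0})
    (fun p (x : (Fin m × Fin m) × (Fin m × Fin m)) =>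
      p.1.1 x.1.1 * p.1.1 x.1.2 * conj (p.1.2 x.2.1 * p.1.2 x.2.2))
  refine ⟨(s1 ∪ s2 ∪ s3).image Subtype.val, fun p hp => ?_, fun N V hV h => ⟨hV, fun ξ η h0 => ?_⟩⟩
  · obtain ⟨q, -, rfl⟩ := Finset.mem_image.1 hp
    exact q.2
  · have e1 : ∀ x y : Fin m → ℂ, ∑ a, l1 V x a * conj (l1 V y a) =
        ∑ p : Fin m × Fin m, x p.1 * conj (y p.2) * ∑ a, V.1 p.1 a * conj (V.1 p.2 a) :=
      fun x y => bu2_gram x y V.1 V.1
    have e2 : ∀ x y : Fin m → ℂ, ∑ a, q2 V x a * conj (l1 V y a) =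
        ∑ p : (Fin m × Fin m) × Fin m, x p.1.1 * x p.1.2 * conj (y p.2) *
          ∑ a, V.2 p.1.1 p.1.2 a * conj (V.1 p.2 a) := fun x y => by
      simp only [bu2_q2]
      exact bu2_gram (fun s : Fin m × Fin m => x s.1 * x s.2) y (fun s => V.2 s.1 s.2) V.1
    have e3 : ∀ x y : Fin m → ℂ, ∑ a, q2 V x a * conj (q2 V y a) =
        ∑ p : (Fin m × Fin m) × (Fin m × Fin m), x p.1.1 * x p.1.2 * conj (y p.2.1 * y p.2.2) *
          ∑ a, V.2 p.1.1 p.1.2 a * conj (V.2 p.2.1 p.2.2 a) := fun x y => by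
      simp only [bu2_q2]
      exact bu2_gram (fun s : Fin m × Fin m => x s.1 * x s.2)
        (fun s : Fin m × Fin m => y s.1 * y s.2) (fun s => V.2 s.1 s.2) (fun s => V.2 s.1 s.2)
    refine ⟨?_, ?_, ?_⟩
    · rw [e1]
      refine h1 _ (fun p hp => ?_) ⟨(ξ, η), h0⟩
      rw [← e1]
      exact (h p.1 (Finset.mem_image_of_mem _ (by simp [hp]))).1
    · rw [e2]
      refine h2 _ (fun p hp => ?_) ⟨(ξ, η), h0⟩
      rw [← e2]
      exact (h p.1 (Finset.mem_image_of_mem _ (by simp [hp]))).2.1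
    · rw [e3]
      refine h3 _ (fun p hp => ?_) ⟨(ξ, η), h0⟩
      rw [← e3]
      exact (h p.1 (Finset.mem_image_of_mem _ (by simp [hp]))).2.2

/-- Recovery of the second order jet by polarisation. -/
noncomputable def bu2L {ι : Type*} (u : Fin m → ι) (v : Fin m → Fin m → ι)
    (A : Fin N × ι × Fin (2 + 1) → ℂ) : J2 m N :=
  (fun i a => A (a, u i, 1), fun i j a => (A (a, v i j, 2) - A (a, u i, 2) - A (a, u j, 2)) / 2)

theorem bu2L_cont {ι : Type*} (u : Fin m → ι) (v : Fin m → Fin m → ι) :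
    Continuous (bu2L (N := N) u v) := by
  unfold bu2L
  fun_prop

theorem bu2L_norm {ι : Type*} [Fintype ι] (u : Fin m → ι) (v : Fin m → Fin m → ι)
    (A : Fin N × ι × Fin (2 + 1) → ℂ) : ‖bu2L u v A‖ ≤ 2 * ‖A‖ := by
  have h0 := norm_nonneg A
  have h := norm_le_pi_norm A
  have h2 : 0 ≤ 2 * ‖A‖ := by linarith
  refine norm_prod_le_iff.2 ⟨(pi_norm_le_iff_of_nonneg h2).2 fun i =>
    (pi_norm_le_iff_of_nonneg h2).2 fun a => ?_, (pi_norm_le_iff_of_nonneg h2).2 fun i =>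
    (pi_norm_le_iff_of_nonneg h2).2 fun j => (pi_norm_le_iff_of_nonneg h2).2 fun a => ?_⟩
  · exact (h _).trans (by linarith)
  · show ‖(A (a, v i j, 2) - A (a, u i, 2) - A (a, u j, 2)) / 2‖ ≤ _
    have h3 := norm_sub_le (A (a, v i j, 2) - A (a, u i, 2)) (A (a, u j, 2))
    have h4 := norm_sub_le (A (a, v i j, 2)) (A (a, u i, 2))
    rw [norm_div, Complex.norm_two]
    linarith [h (a, v i j, 2), h (a, u i, 2), h (a, u j, 2)]

theorem bu2 (hF : Hyp m N k r F) (hB : BU m N 2 r F) {Φ : J2 m N → ℂ}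
    (hΦ : Differentiable ℂ Φ) (hb : PB (fun V : J2 m N => ‖V‖) univ Φ) {S : Set (J2 m N)}
    (hS : IsClosed S) (hin : ∀ x ∈ Dom m r ×ˢ (univ : Set (Fin m → ℂ)), j2 F x ∈ S)
    (h0 : ∀ V ∈ S, Rel2 V → Φ V = 0) :
    ∀ x ∈ Dom m r ×ˢ (univ : Set (Fin m → ℂ)), Φ (j2 F x) = 0 := by
  classical
  obtain ⟨δ, hδ⟩ := exists_Sm (m := m) hF.rpos
  obtain ⟨s, hs, hrel⟩ := bu2_pairs m
  have hD := isOpen_Dom (m := m) r
  let ι : Type := (s ⊕ s) ⊕ (Fin m ⊕ Fin m × Fin m)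
  let ξ : ι → Fin m → ℂ := Sum.elim (Sum.elim (fun p => p.1.1) fun p => p.1.2)
    (Sum.elim (fun i => Pi.single i 1) fun x => Pi.single x.1 1 + Pi.single x.2 1)
  let u : Fin m → ι := fun i => Sum.inr (Sum.inl i)
  let v : Fin m → Fin m → ι := fun i j => Sum.inr (Sum.inr (i, j))
  have c1 : ∀ p ∈ ball (0 : Xs m) δ, ∀ t ∈ Ioo 0 δ, ∀ a i,
      col F ξ 2 t p (a, i, 1) = l1 (j2 F (pt p t, star p.1)) (ξ i) a := fun p _ t _ a i =>
    jet_one_eq _ _ _ a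
  have c2 : ∀ p ∈ ball (0 : Xs m) δ, ∀ t ∈ Ioo 0 δ, ∀ a i,
      col F ξ 2 t p (a, i, 2) = q2 (j2 F (pt p t, star p.1)) (ξ i) a := fun p hp t ht a i =>
    jet_two_eq hD hF.hol (hδ.pt_mem hp ht) _ _ a
  have c3 : ∀ p ∈ ball (0 : Xs m) δ, ∀ t ∈ Ioo 0 δ,
      j2 F (pt p t, star p.1) = bu2L u v (col F ξ 2 t p) := by
    intro p hp t ht
    refine Prod.ext (funext fun i => funext fun a => ?_)
      (funext fun i => funext fun j => funext fun a => ?_)
    · exact ((c1 p hp t ht a (u i)).trans (bu2_l1 _ i a)).symm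
    · show _ = (col F ξ 2 t p (a, v i j, 2) - col F ξ 2 t p (a, u i, 2) -
        col F ξ 2 t p (a, u j, 2)) / 2
      rw [c2 p hp t ht, c2 p hp t ht, c2 p hp t ht]
      exact bu2_pol _ (j2_symm hD hF.hol (hδ.pt_mem hp ht) _) i j a
  refine hB δ hδ ι ξ (fun x => Φ (j2 F x)) (hΦ.comp_differentiableOn (hol_j2 hD hF.hol)) ?_ ?_
  · obtain ⟨C, c, hC⟩ := hb
    refine ⟨|C| * 2 ^ c, c, fun x hx => ?_⟩
    have h1 := hC (j2 F (pt x.2 x.1, star x.2.1)) (mem_univ _)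
    have h2 := bu2L_norm u v (col F ξ 2 x.1 x.2)
    rw [← c3 _ hx.2 _ hx.1] at h2
    have h3 := norm_nonneg (col F ξ 2 x.1 x.2)
    refine h1.trans ?_
    rw [mul_assoc, ← mul_pow]
    exact mul_le_mul (le_abs_self C) (pow_le_pow_left₀ (by positivity) (by linarith) c)
      (by positivity) (abs_nonneg C)
  · intro p hp A hA t ht _ hl
    have e : (fun n => j2 F (pt p (t n), star p.1)) = fun n => bu2L u v (col F ξ 2 (t n) p) :=
      funext fun n => c3 p hp _ (ht n)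
    have hV : Tendsto (fun n => j2 F (pt p (t n), star p.1)) atTop (𝓝 (bu2L u v A)) := by
      rw [e]
      exact ((bu2L_cont u v).tendsto A).comp hl
    have d1 : ∀ a i, A (a, i, 1) = l1 (bu2L u v A) (ξ i) a := by
      intro a i
      have hc : Continuous fun V : J2 m N => l1 V (ξ i) a := by
        unfold l1
        fun_prop
      refine tendsto_nhds_unique (tendsto_pi_nhds.1 hl (a, i, 1)) ?_
      exact ((hc.tendsto _).comp hV).congr fun n => (c1 p hp _ (ht n) a i).symm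
    have d2 : ∀ a i, A (a, i, 2) = q2 (bu2L u v A) (ξ i) a := by
      intro a i
      have hc : Continuous fun V : J2 m N => q2 V (ξ i) a := by
        unfold q2 l2
        fun_prop
      refine tendsto_nhds_unique (tendsto_pi_nhds.1 hl (a, i, 2)) ?_
      exact ((hc.tendsto _).comp hV).congr fun n => (c2 p hp _ (ht n) a i).symm
    have hm : bu2L u v A ∈ S := hS.mem_of_tendsto hV
      (Eventually.of_forall fun n => hin _ ⟨hδ.pt_mem hp (ht n), mem_univ _⟩)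
    have hsym : ∀ i j, (bu2L u v A).2 i j = (bu2L u v A).2 j i := by
      intro i j
      have hc : ∀ i j, Continuous fun V : J2 m N => V.2 i j := fun i j => by fun_prop
      refine tendsto_nhds_unique (((hc i j).tendsto _).comp hV) ?_
      exact (((hc j i).tendsto _).comp hV).congr fun n =>
        j2_symm hD hF.hol (hδ.pt_mem hp (ht n)) _ j i
    have hR : Rel2 (bu2L u v A) := by
      refine hrel N _ hsym fun q hq => ?_
      have k := fun j j' => hA.2.2 (Sum.inl (Sum.inl ⟨q, hq⟩)) (Sum.inl (Sum.inr ⟨q, hq⟩)) j j'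
        (hs q hq)
      have k1 := k 1 1 (by decide) (by decide)
      have k2 := k 2 1 (by decide) (by decide)
      have k3 := k 2 2 (by decide) (by decide)
      simp only [d1, d2] at k1 k2 k3
      exact ⟨k1, k2, k3⟩
    have := (hΦ.continuous.tendsto _).comp hV
    rwa [h0 _ hm hR] at this

end Pool.Agent.Lib.MP_601e9e_an.Rg
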