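import Pool.Agent.Lib.MP_601e9e_an.Rg.Defs3
import Pool.Agent.Lib.MP_601e9e_an.Rg.Ident

open Complex Filter Topology Set Metric MeasureTheory
open scoped ComplexConjugate ContDiff Matrix

namespace Pool.Agent.Lib.MP_601e9e_an.Rg

variable {m N e : ℕ} {ξ : Fin e → Fin m → ℂ} {π : Matrix (Fin m ⊕ Fin e) (Fin N) ℂ}
  {V : J2 m N}

noncomputable def kb24_l2 (V : J2 m N) : Matrix (Fin m) (Fin m) ℂ →ₗ[ℂ] (Fin N → ℂ) where
  toFun := l2 V
  map_add' A B := by
    funext a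
    simp [l2, add_mul, Finset.sum_add_distrib]
  map_smul' s A := by
    funext a
    simp [l2, Finset.mul_sum, mul_assoc]

noncomputable def kb24_C (ξ : Fin e → Fin m → ℂ) (π : Matrix (Fin m ⊕ Fin e) (Fin N) ℂ)
    (V : J2 m N) : Matrix (Fin m) (Fin m) ℂ →ₗ[ℂ] (Fin m ⊕ Fin e → ℂ) :=
  ((π * kM ξ V).adjugate * π).mulVecLin ∘ₗ kb24_l2 V

theorem kb24_C_apply (A : Matrix (Fin m) (Fin m) ℂ) : kb24_C ξ π V A = kC ξ π V A := rfl

noncomputable def kb24_K (ξ : Fin e → Fin m → ℂ) (π : Matrix (Fin m ⊕ Fin e) (Fin N) ℂ)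
    (V : J2 m N) : Matrix (Fin m) (Fin m) ℂ →ₗ[ℂ] Matrix (Fin m) (Fin m) ℂ where
  toFun := kK ξ π V
  map_add' A B := by
    simp only [kK, ← kb24_C_apply, map_add, Pi.add_apply, add_smul, smul_add,
      Finset.sum_add_distrib]
    abel
  map_smul' s A := by
    simp only [kK, ← kb24_C_apply, map_smul, Pi.smul_apply, smul_eq_mul, RingHom.id_apply,
      smul_sub, Finset.smul_sum, smul_smul, mul_comm s]

theorem kb24_sum {A : Matrix (Fin m) (Fin m) ℂ} (hA : A.IsSymm) :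
    ∑ k, ∑ l, A k l • kE k l = (2 : ℂ) • A := by
  ext i j
  have h := hA.apply i j
  simp only [kE, Matrix.sum_apply, Matrix.smul_apply, Matrix.add_apply, Matrix.single_apply,
    smul_eq_mul, mul_add, Finset.sum_add_distrib, mul_ite, mul_one, mul_zero, ite_and]
  simp [Finset.sum_ite_eq', h, two_mul]

theorem kb24_l1 (y : Fin m → ℂ) : l1 V y = kM ξ V *ᵥ Sum.elim y 0 := by
  funext a
  simp [l1, kM, Matrix.mulVec, dotProduct, Fintype.sum_sum_type, mul_comm]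

theorem kb_inj (hD : kD ξ π V ≠ 0) : LinearIndependent ℂ V.1 :=
  (ind_of_det hD).comp Sum.inl Sum.inl_injective

theorem kb_ker (hD : kD ξ π V ≠ 0) {A : Matrix (Fin m) (Fin m) ℂ} (hA : A.IsSymm)
    (h : ∃ y, l2 V A = l1 V y) (v : Fin m → ℂ) : ∃ τ, kX ξ π V *ᵥ τ = A *ᵥ v := by
  obtain ⟨y, hy⟩ := h
  have hC : kC ξ π V A = kD ξ π V • Sum.elim y 0 := by
    rw [kC, hy, kb24_l1 (ξ := ξ), Matrix.mulVec_mulVec, Matrix.mul_assoc, Matrix.adjugate_mul,
      Matrix.smul_mulVec, Matrix.one_mulVec, kD]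
  have hK : kK ξ π V A = kD ξ π V • A := by
    simp [kK, hC]
  have hs : ∑ k, ∑ l, A k l • kK ξ π V (kE k l) = (2 * kD ξ π V) • A := by
    have h1 := congrArg (kb24_K ξ π V) (kb24_sum hA)
    simp only [map_sum, map_smul] at h1
    rw [mul_smul, ← hK]
    exact h1
  refine ⟨fun s => A s.1 s.2.1 * v s.2.2 / (2 * kD ξ π V), ?_⟩
  funext i
  have h2 : (2 * kD ξ π V) ≠ 0 := mul_ne_zero two_ne_zero hD
  have hs' : ∀ j, ∑ k, ∑ l, A k l * kK ξ π V (kE k l) i j = 2 * kD ξ π V * A i j := fun j => by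
    have h1 := congrFun (congrFun hs i) j
    simpa only [Matrix.sum_apply, Matrix.smul_apply, smul_eq_mul] using h1
  have h3 : ∀ j, A i j * v j =
      ∑ k, ∑ l, kK ξ π V (kE k l) i j * (A k l * v j / (2 * kD ξ π V)) := fun j => by
    have h4 : A i j * v j = (2 * kD ξ π V * A i j) * (v j / (2 * kD ξ π V)) := by
      field_simp
    rw [h4, ← hs' j, Finset.sum_mul]
    refine Finset.sum_congr rfl fun k _ => ?_
    rw [Finset.sum_mul]
    refine Finset.sum_congr rfl fun l _ => ?_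
    ring
  simp only [Matrix.mulVec, dotProduct, kX, Matrix.of_apply, Fintype.sum_prod_type, h3]
  rw [Finset.sum_comm (γ := Fin m) (f := fun j k => ∑ l,
    kK ξ π V (kE k l) i j * (A k l * v j / (2 * kD ξ π V)))]
  exact Finset.sum_congr rfl fun k _ => Finset.sum_comm

noncomputable def kb24_phi (m : ℕ) : (Sym2 (Fin m) → ℂ) →ₗ[ℂ] Matrix (Fin m) (Fin m) ℂ where
  toFun c := Matrix.of fun i j => c s(i, j)
  map_add' _ _ := rfl
  map_smul' _ _ := rfl

theorem kb24_symm (c : Sym2 (Fin m) → ℂ) : (kb24_phi m c).IsSymm := by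
  ext i j
  change c s(j, i) = c s(i, j)
  rw [Sym2.eq_swap]

theorem kb24_col (hS : V ∈ kS ξ π) (hD : kD ξ π V ≠ 0) {A : Matrix (Fin m) (Fin m) ℂ}
    (hA : A.IsSymm) (h0 : ∀ c, kC ξ π V A (Sum.inr c) = 0) (j : Fin m) :
    ∃ τ, kX ξ π V *ᵥ τ = fun i => A i j := by
  have h1 : kD ξ π V • l2 V A = kM ξ V *ᵥ kC ξ π V A := by
    have h2 : (kD ξ π V • kb24_l2 V) ((2 : ℂ) • A) =
        ((kM ξ V).mulVecLin ∘ₗ kb24_C ξ π V) ((2 : ℂ) • A) := by
      rw [← kb24_sum hA]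
      simp only [map_sum, map_smul]
      refine Finset.sum_congr rfl fun k _ => Finset.sum_congr rfl fun l _ => ?_
      congr 1
      exact hS k l
    rw [map_smul, map_smul] at h2
    exact smul_right_injective _ two_ne_zero h2
  have h3 : kC ξ π V A = Sum.elim (fun i => kC ξ π V A (Sum.inl i)) 0 := by
    funext x
    cases x with
    | inl i => rfl
    | inr c => exact h0 c
  rw [h3, ← kb24_l1] at h1
  have h4 : l2 V A = l1 V ((kD ξ π V)⁻¹ • fun i => kC ξ π V A (Sum.inl i)) := by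
    funext a
    have h5 := congrFun h1 a
    simp only [Pi.smul_apply, smul_eq_mul, l1] at h5 ⊢
    simp only [mul_assoc, ← Finset.mul_sum, ← h5]
    rw [← mul_assoc, inv_mul_cancel₀ hD, one_mul]
  obtain ⟨τ, hτ⟩ := kb_ker hD hA ⟨_, h4⟩ (Pi.single j 1)
  refine ⟨τ, hτ.trans ?_⟩
  funext i
  simp [Matrix.mulVec, dotProduct, Pi.single_apply]

theorem kb_two (hS : V ∈ kS ξ π) (hD : kD ξ π V ≠ 0) (he : e + 2 ≤ (m + 1).choose 2) :
    ∃ τ τ', LinearIndependent ℂ ![kX ξ π V *ᵥ τ, kX ξ π V *ᵥ τ'] := by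
  classical
  by_contra hn
  push Not at hn
  have hc : Module.finrank ℂ (Sym2 (Fin m) → ℂ) = (m + 1).choose 2 := by
    rw [Module.finrank_fintype_fun_eq_card, Sym2.card, Fintype.card_fin]
  let ψ : (Sym2 (Fin m) → ℂ) →ₗ[ℂ] (Fin e → ℂ) :=
    LinearMap.funLeft ℂ ℂ Sum.inr ∘ₗ kb24_C ξ π V ∘ₗ kb24_phi m
  have hcol : ∀ c, ψ c = 0 → ∀ j, ∃ τ, kX ξ π V *ᵥ τ = fun i => c s(i, j) := fun c h j =>
    kb24_col hS hD (kb24_symm c) (fun x => congrFun h x) j
  have h1 : ∃ c, ψ c = 0 ∧ c ≠ 0 := by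
    by_contra h
    push Not at h
    have h2 := LinearMap.finrank_le_finrank_of_injective (f := ψ)
      ((injective_iff_map_eq_zero _).2 h)
    rw [hc, Module.finrank_fintype_fun_eq_card, Fintype.card_fin] at h2
    omega
  obtain ⟨c₀, hψ, hc₀⟩ := h1
  obtain ⟨x, hx⟩ := Function.ne_iff.1 hc₀
  induction x using Sym2.ind with
  | _ i j =>
  obtain ⟨τ₀, hτ₀⟩ := hcol c₀ hψ j
  have hi : (kX ξ π V *ᵥ τ₀) i ≠ 0 := by
    rw [hτ₀]
    exact hx
  have hw : kX ξ π V *ᵥ τ₀ ≠ 0 := fun h => hi (congrFun h i)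
  have hpar : ∀ c, ψ c = 0 → ∀ l, ∃ t : ℂ, ∀ k, c s(k, l) = t * (kX ξ π V *ᵥ τ₀) k := by
    intro c h l
    obtain ⟨τ, hτ⟩ := hcol c h l
    have h2 := hn τ₀ τ
    rw [LinearIndependent.pair_iff' hw] at h2
    push Not at h2
    obtain ⟨t, ht⟩ := h2
    exact ⟨t, fun k => (congrFun (ht.trans hτ) k).symm⟩
  have h2 := LinearMap.finrank_le_finrank_of_injective
    (f := ψ.prod (LinearMap.proj (R := ℂ) (φ := fun _ : Sym2 (Fin m) => ℂ) s(i, i)))
    ((injective_iff_map_eq_zero _).2 fun c h => by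
      have ha : ψ c = 0 := congrArg Prod.fst h
      have hb : c s(i, i) = 0 := congrArg Prod.snd h
      obtain ⟨t, ht⟩ := hpar c ha i
      have ht0 : t = 0 := (mul_eq_zero.1 ((ht i).symm.trans hb)).resolve_right hi
      funext y
      induction y using Sym2.ind with
      | _ k l =>
      obtain ⟨u, hu⟩ := hpar c ha l
      have h3 : c s(i, l) = 0 := by
        rw [Sym2.eq_swap, ht l, ht0, zero_mul]
      have hu0 : u = 0 := (mul_eq_zero.1 ((hu i).symm.trans h3)).resolve_right hi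
      rw [hu k, hu0, zero_mul]
      rfl)
  rw [hc, Module.finrank_prod, Module.finrank_fintype_fun_eq_card, Fintype.card_fin,
    Module.finrank_self] at h2
  omega

end Pool.Agent.Lib.MP_601e9e_an.Rg
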