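import Pool.Agent.Lib.MP_601e9e_an.Rg.KerA
import Pool.Agent.Lib.MP_601e9e_an.Rg.KerB
import Pool.Agent.Lib.MP_601e9e_an.Rg.Bu2

open Complex Filter Topology Set Metric MeasureTheory
open scoped ComplexConjugate ContDiff Matrix

namespace Pool.Agent.Lib.MP_601e9e_an.Rg

variable {m N k : ℕ} {r : ℝ} {F : Fin N → Zs m → ℂ}

/-- Independent columns at some point. -/
def Ker1P (m : ℕ) (r : ℝ) (F : Fin N → Zs m → ℂ) (e : ℕ) : Prop :=
  ∃ ξ : Fin e → Fin m → ℂ, ∃ x ∈ Dom m r ×ˢ (univ : Set (Fin m → ℂ)),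
    ∀ g, kM ξ (j2 F x) *ᵥ g = 0 → g = 0

theorem ker1_ind {ι κ : Type*} [Fintype κ] {M : Matrix ι κ ℂ} (h : ∀ g, M *ᵥ g = 0 → g = 0) :
    LinearIndependent ℂ (fun (j : κ) (a : ι) => M a j) := by
  rw [Fintype.linearIndependent_iff]
  intro g hg j
  have h1 : M *ᵥ g = 0 := by
    funext a
    have h2 := congrFun hg a
    simp only [Finset.sum_apply, Pi.smul_apply, smul_eq_mul, Pi.zero_apply] at h2
    simp only [Matrix.mulVec, dotProduct, Pi.zero_apply]
    rw [← h2]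
    exact Finset.sum_congr rfl fun _ _ => mul_comm _ _
  exact congrFun (h g h1) j

theorem ker1_bound (hF : Hyp m N k r F)
    (h2 : ∀ (κ : Type) [Fintype κ] (C : κ → ℕ × (Fin m → ℂ)), (∀ x, (C x).1 ≤ 2) →
      (∃ Z ∈ Dom m r, ∃ ζ, HInd (hat F) C Z ζ) → Fintype.card κ + 2 ≤ (m + 2).choose 2)
    {e : ℕ} (h : Ker1P m r F e) : e + 2 ≤ (m + 1).choose 2 := by
  obtain ⟨ξ, ⟨Z, ζ⟩, hx0, hg⟩ := h
  have hZ : Z ∈ Dom m r := hx0.1
  let C : Option (Fin m ⊕ Fin e) → ℕ × (Fin m → ℂ) := fun o =>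
    o.elim (0, 0) (Sum.elim (fun i => (1, Pi.single i 1)) (fun c => (2, ξ c)))
  have hC : ∀ x, (C x).1 ≤ 2 := by
    rintro (_ | i | c) <;> simp [C]
  have hn : ∀ y, hx (hat F) C Z ζ none (some y) = 0 := by
    rintro (i | c)
    · exact jet_const 1 (j := 1) one_ne_zero _ _
    · exact jet_const 1 (j := 2) two_ne_zero _ _
  have hs : ∀ a y, hx (hat F) C Z ζ (some a) (some y) = kM ξ (j2 F (Z, ζ)) a y := by
    rintro a (i | c)
    · rfl
    · exact jet_two_eq (isOpen_Dom r) hF.hol hZ ζ (ξ c) a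
  have hI : HInd (hat F) C Z ζ := by
    refine ker1_ind (M := hx (hat F) C Z ζ) fun g hg0 => ?_
    have h0 : g none = 0 := by
      have h3 := congrFun hg0 none
      have h4 : hx (hat F) C Z ζ none none = 1 := rfl
      simpa [Matrix.mulVec, dotProduct, Fintype.sum_option, hn, h4] using h3
    have h5 : (fun y => g (some y)) = 0 := by
      refine hg _ ?_
      funext a
      have h3 := congrFun hg0 (some a)
      simpa [Matrix.mulVec, dotProduct, Fintype.sum_option, hs, h0] using h3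
    funext o
    cases o with
    | none => exact h0
    | some y => exact congrFun h5 y
  have h6 := h2 _ C hC ⟨Z, hZ, ζ, hI⟩
  have h7 : (m + 2).choose 2 = (m + 1) + (m + 1).choose 2 := by
    rw [show m + 2 = (m + 1) + 1 from rfl, Nat.choose_succ_succ' (m + 1) 1, Nat.choose_one_right]
  simp only [Fintype.card_option, Fintype.card_sum, Fintype.card_fin] at h6
  omega

theorem ker1_zero (h1 : ∃ ξ, ∃ Z ∈ Dom m r, ∃ ζ, HInd (hat F) (frC ξ 1) Z ζ) :
    Ker1P m r F 0 := by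
  classical
  obtain ⟨ξ, Z, hZ, ζ, hI⟩ := h1
  set V := j2 F (Z, ζ) with hV
  let X : Matrix (Fin m) (Fin m) ℂ := Matrix.of fun j i => ξ i j
  let W : Matrix (Fin N) (Fin m) ℂ := Matrix.of fun a j => V.1 j a
  have hWX : ∀ g, W *ᵥ (X *ᵥ g) = 0 → g = 0 := by
    intro g hg
    have h2 := Fintype.linearIndependent_iff.1 hI (fun o => o.elim 0 fun y => g y.1) (by
      funext o
      simp only [Finset.sum_apply, Pi.smul_apply, smul_eq_mul, Pi.zero_apply, Fintype.sum_option,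
        Option.elim_none, zero_mul, zero_add, Option.elim_some, Fintype.sum_prod_type,
        Fin.sum_univ_one]
      cases o with
      | none =>
        refine Finset.sum_eq_zero fun i _ => ?_
        have h3 : hx (hat F) (frC ξ 1) Z ζ none (some (i, 0)) = 0 :=
          jet_const 1 (j := 1) one_ne_zero _ _
        rw [h3, mul_zero]
      | some a =>
        have h3 : ∀ i, hx (hat F) (frC ξ 1) Z ζ (some a) (some (i, 0)) = l1 V (ξ i) a :=
          fun i => jet_one_eq Z ζ (ξ i) a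
        have h4 := congrFun hg a
        simp only [Matrix.mulVec, dotProduct, W, X, Matrix.of_apply, Pi.zero_apply,
          Finset.mul_sum] at h4
        rw [Finset.sum_comm] at h4
        rw [← h4]
        refine Finset.sum_congr rfl fun i _ => ?_
        rw [h3, l1, Finset.mul_sum]
        exact Finset.sum_congr rfl fun j _ => by ring)
    funext i
    exact h2 (some (i, 0))
  have hX : Function.Injective X.mulVecLin := by
    rw [← LinearMap.ker_eq_bot, LinearMap.ker_eq_bot']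
    intro g hg
    refine hWX g ?_
    rw [show X *ᵥ g = 0 from hg, Matrix.mulVec_zero]
  have hXs : Function.Surjective X.mulVecLin := LinearMap.injective_iff_surjective.1 hX
  refine ⟨Fin.elim0, (Z, ζ), ⟨hZ, mem_univ _⟩, fun g hg => ?_⟩
  obtain ⟨g', hg'⟩ := hXs fun i => g (Sum.inl i)
  have h5 : X *ᵥ g' = fun i => g (Sum.inl i) := hg'
  have h6 : g' = 0 := by
    refine hWX g' ?_
    rw [h5]
    funext a
    have h7 := congrFun hg a
    simpa [Matrix.mulVec, dotProduct, Fintype.sum_sum_type, kM, W] using h7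
  rw [h6, Matrix.mulVec_zero] at h5
  funext y
  rcases y with i | c
  · exact (congrFun h5 i).symm
  · exact c.elim0

theorem ker1_step {e : ℕ} {ξ : Fin e → Fin m → ℂ} {V : J2 m N}
    (hg : ∀ g, kM ξ V *ᵥ g = 0 → g = 0) {η : Fin m → ℂ} (h : ¬ ∃ y, q2 V η = kM ξ V *ᵥ y) :
    ∀ g, kM (Fin.cons η ξ : Fin (e + 1) → Fin m → ℂ) V *ᵥ g = 0 → g = 0 := by
  intro g hg0
  let g' : Fin m ⊕ Fin e → ℂ := Sum.elim (fun i => g (Sum.inl i)) fun c => g (Sum.inr c.succ)
  have h1 : kM ξ V *ᵥ g' + g (Sum.inr 0) • q2 V η = 0 := by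
    funext a
    have h2 := congrFun hg0 a
    simp only [Matrix.mulVec, dotProduct, Fintype.sum_sum_type, kM, Matrix.of_apply,
      Sum.elim_inl, Sum.elim_inr, Fin.sum_univ_succ, Fin.cons_zero, Fin.cons_succ,
      Pi.zero_apply] at h2
    simp only [Matrix.mulVec, dotProduct, Fintype.sum_sum_type, kM, Matrix.of_apply,
      Sum.elim_inl, Sum.elim_inr, Pi.zero_apply, Pi.add_apply, Pi.smul_apply, smul_eq_mul, g']
    linear_combination h2
  have h3 : g (Sum.inr 0) = 0 := by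
    by_contra h4
    refine h ⟨(-(g (Sum.inr 0))⁻¹) • g', ?_⟩
    rw [Matrix.mulVec_smul, eq_neg_of_add_eq_zero_left h1, smul_neg, neg_smul, neg_neg, smul_smul,
      inv_mul_cancel₀ h4, one_smul]
  rw [h3, zero_smul, add_zero] at h1
  have h5 := hg g' h1
  funext y
  rcases y with i | c
  · exact congrFun h5 (Sum.inl i)
  · refine Fin.cases h3 (fun c => congrFun h5 (Sum.inr c)) c

theorem ker1_inj {e : ℕ} {ξ : Fin e → Fin m → ℂ} {π : Matrix (Fin m ⊕ Fin e) (Fin N) ℂ}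
    {V : J2 m N} (hD : kD ξ π V ≠ 0) : ∀ g, kM ξ V *ᵥ g = 0 → g = 0 := by
  intro g hg
  refine Matrix.eq_zero_of_mulVec_eq_zero hD ?_
  rw [← Matrix.mulVec_mulVec, hg, Matrix.mulVec_zero]

theorem ker1 (hF : Hyp m N k r F) (hB : BU m N 2 r F)
    (h1 : ∃ ξ, ∃ Z ∈ Dom m r, ∃ ζ, HInd (hat F) (frC ξ 1) Z ζ)
    (h2 : ∀ (κ : Type) [Fintype κ] (C : κ → ℕ × (Fin m → ℂ)), (∀ x, (C x).1 ≤ 2) →
      (∃ Z ∈ Dom m r, ∃ ζ, HInd (hat F) C Z ζ) → Fintype.card κ + 2 ≤ (m + 2).choose 2) :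
    ∃ (e : ℕ) (ξ : Fin e → Fin m → ℂ) (π : Matrix (Fin m ⊕ Fin e) (Fin N) ℂ),
      e + 2 ≤ (m + 1).choose 2 ∧
      (∃ x ∈ Dom m r ×ˢ (univ : Set (Fin m → ℂ)), kD ξ π (j2 F x) ≠ 0) ∧
      ∀ x ∈ Dom m r ×ˢ (univ : Set (Fin m → ℂ)), j2 F x ∈ kS ξ π ∧
        ∀ τ, Par (j2 F x) (kX ξ π (j2 F x) *ᵥ τ) := by
  classical
  have hb : ∀ e, Ker1P m r F e → e + 2 ≤ (m + 1).choose 2 := fun e h => ker1_bound hF h2 h
  obtain ⟨e, he, hmax⟩ : ∃ e, Ker1P m r F e ∧ ¬ Ker1P m r F (e + 1) := by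
    by_contra h3
    push Not at h3
    have h4 : ∀ e, Ker1P m r F e := fun e => by
      induction e with
      | zero => exact ker1_zero h1
      | succ e ih => exact h3 e ih
    have h5 := hb _ (h4 ((m + 1).choose 2))
    omega
  have hbe := hb e he
  obtain ⟨ξ, x0, hx0, hg⟩ := he
  obtain ⟨π, hπ⟩ := exists_left (ker1_ind hg)
  have hO : IsOpen (Dom m r ×ˢ (univ : Set (Fin m → ℂ))) := (isOpen_Dom r).prod isOpen_univ
  have hc : Convex ℝ (Dom m r ×ˢ (univ : Set (Fin m → ℂ))) := (convex_Dom r).prod convex_univ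
  have hj := hol_j2 (isOpen_Dom r) hF.hol
  have hS : ∀ x ∈ Dom m r ×ˢ (univ : Set (Fin m → ℂ)), j2 F x ∈ kS ξ π := by
    intro x hx i j
    funext a
    have h5 := eq_zero_of_mul hO hc ((ka_holD (ξ := ξ) (π := π)).comp_differentiableOn hj)
      ((ka_holS (ξ := ξ) (π := π) i j a).comp_differentiableOn hj) ⟨x0, hx0, hπ⟩ (fun y hy => by
        by_cases h6 : kD ξ π (j2 F y) = 0
        · simp only [Function.comp_apply]
          rw [h6, zero_mul]
        · have h7 : j2 F y ∈ kS ξ π := by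
            refine ka_mem (fun i j => j2_symm (isOpen_Dom r) hF.hol hy.1 y.2 i j) h6 fun η => ?_
            by_contra h8
            exact hmax ⟨_, y, hy, ker1_step (ker1_inj h6) h8⟩
          simp only [Function.comp_apply]
          rw [h7 i j, sub_self, Pi.zero_apply, mul_zero]) x hx
    exact sub_eq_zero.1 h5
  refine ⟨e, ξ, π, hbe, ⟨x0, hx0, hπ⟩, fun x hx => ⟨hS x hx, fun τ a b => ?_⟩⟩
  exact bu2 hF hB (ka_holP τ a b).1 (ka_holP τ a b).2 ka_closed hS
    (fun V hV hR => ka_par hV hR τ a b) x hx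

end Pool.Agent.Lib.MP_601e9e_an.Rg
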