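import Pool.Agent.Lib.MP_601e9e_an.Rg.Ident

open Complex Filter Topology Set Metric MeasureTheory
open scoped ComplexConjugate ContDiff Matrix

namespace Pool.Agent.Lib.MP_601e9e_an.Rg

theorem k2_max {Q : ℕ → Prop} (h0 : Q 0) {N : ℕ} (hN : ¬ Q N) : ∃ s, Q s ∧ ¬ Q (s + 1) := by
  by_contra h
  push Not at h
  exact hN (Nat.rec h0 h N)

theorem k2_span {n σ : Type*} [Fintype σ] {s : ℕ} {X : Matrix n σ ℂ} {τ : Matrix σ (Fin s) ℂ}
    (h1 : LinearIndependent ℂ (fun (j : Fin s) (a : n) => (X * τ) a j))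
    (h2 : ∀ τ' : Matrix σ (Fin (s + 1)) ℂ,
      ¬ LinearIndependent ℂ (fun (j : Fin (s + 1)) (a : n) => (X * τ') a j)) (w : σ → ℂ) :
    ∃ c, (X * τ) *ᵥ c = X *ᵥ w := by
  by_contra h
  refine h2 (Matrix.of fun a j => (Fin.cons (w a) (τ a) : Fin (s + 1) → ℂ) j) ?_
  have e : (fun (j : Fin (s + 1)) (a : n) =>
      (X * Matrix.of fun a j => (Fin.cons (w a) (τ a) : Fin (s + 1) → ℂ) j) a j) =
      (Fin.cons (X *ᵥ w) (fun (j : Fin s) (a : n) => (X * τ) a j) : Fin (s + 1) → n → ℂ) := by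
    funext j a
    refine Fin.cases ?_ (fun j => ?_) j
    · simp [Matrix.mul_apply, Matrix.mulVec, dotProduct]
    · simp [Matrix.mul_apply]
  rw [e, linearIndependent_finCons]
  refine ⟨h1, fun h3 => h ?_⟩
  obtain ⟨c, hc⟩ := (Submodule.mem_span_range_iff_exists_fun ℂ).1 h3
  refine ⟨c, ?_⟩
  rw [← hc]
  funext a
  simp [Matrix.mulVec, dotProduct, Finset.sum_apply, mul_comm]

/-- A holomorphic matrix has constant rank near a generic point. -/
theorem ker2 {E : Type*} [NormedAddCommGroup E] [NormedSpace ℂ E] {D : Set E} (hD : IsOpen D)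
    (hc : Convex ℝ D) {n σ : Type*} [Fintype n] [DecidableEq n] [Fintype σ]
    {X : E → Matrix n σ ℂ} (hX : ∀ i s, DifferentiableOn ℂ (fun x => X x i s) D) {Δ : E → ℂ}
    (hΔ : DifferentiableOn ℂ Δ D) (hΔ0 : ∃ x ∈ D, Δ x ≠ 0) {W : Set E} (hW : IsOpen W)
    (hne : (W ∩ D).Nonempty) :
    ∃ O : Set E, IsOpen O ∧ O.Nonempty ∧ O ⊆ W ∩ D ∧ (∀ x ∈ O, Δ x ≠ 0) ∧
      ∃ P : E → Matrix n n ℂ, (∀ i j, DifferentiableOn ℂ (fun x => P x i j) O) ∧
        ∀ x ∈ O, P x * P x = P x ∧ ∀ v, P x *ᵥ v = v ↔ ∃ τ, X x *ᵥ τ = v := by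
  obtain ⟨s, ⟨τ, x0, hx0, h1⟩, h2⟩ := k2_max (Q := fun s => ∃ τ : Matrix σ (Fin s) ℂ, ∃ x ∈ D,
    LinearIndependent ℂ (fun (j : Fin s) (a : n) => (X x * τ) a j)) (N := Fintype.card n + 1)
    ⟨0, hne.some, hne.some_mem.2, linearIndependent_empty_type⟩ (by
      rintro ⟨τ, x, -, h⟩
      have h3 := h.fintype_card_le_finrank
      rw [Module.finrank_fintype_fun_eq_card, Fintype.card_fin] at h3
      omega)
  obtain ⟨π, hπ⟩ := exists_left h1
  have hM : ∀ i j, DifferentiableOn ℂ (fun x => (X x * τ) i j) D := fun i j => by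
    simp only [Matrix.mul_apply]
    exact DifferentiableOn.fun_sum fun a _ => (hX i a).mul_const _
  have hπM : ∀ i j, DifferentiableOn ℂ (fun x => (π * (X x * τ)) i j) D := fun i j => by
    simp only [Matrix.mul_apply (M := π)]
    exact DifferentiableOn.fun_sum fun a _ => (hM a j).const_mul _
  have hd := hol_det hπM
  obtain ⟨x1, hx1, a1, a2⟩ := exists_mul_ne_zero hD hc hΔ hd hΔ0 ⟨x0, hx0, hπ⟩
  obtain ⟨x2, hx2, a3⟩ := exists_ne_zero hD hc (hΔ.mul hd) ⟨x1, hx1, mul_ne_zero a1 a2⟩ hW hne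
  refine ⟨W ∩ (D ∩ (Δ * fun x => (π * (X x * τ)).det) ⁻¹' {0}ᶜ),
    hW.inter ((hΔ.mul hd).continuousOn.isOpen_inter_preimage hD isOpen_compl_singleton),
    ⟨x2, hx2.1, hx2.2, a3⟩, fun x hx => ⟨hx.1, hx.2.1⟩, fun x hx => left_ne_zero_of_mul hx.2.2,
    fun x => (π * (X x * τ)).det⁻¹ • (X x * τ * (π * (X x * τ)).adjugate * π), fun i j => ?_,
    fun x hx => ?_⟩
  · simp only [Matrix.smul_apply, smul_eq_mul, Matrix.mul_apply (N := π),
      Matrix.mul_apply (N := Matrix.adjugate _)]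
    refine ((hd.mono fun x hx => hx.2.1).inv fun x hx => right_ne_zero_of_mul hx.2.2).mul
      (DifferentiableOn.mono ?_ fun x hx => hx.2.1)
    exact DifferentiableOn.fun_sum fun a _ => (DifferentiableOn.fun_sum fun b _ =>
      (hM i b).mul (hol_adjugate hπM b a)).mul_const _
  · have a4 : (π * (X x * τ)).det ≠ 0 := right_ne_zero_of_mul hx.2.2
    have a5 := k2_span (ind_of_det a4) fun τ' h => h2 ⟨τ', x, hx.2.1, h⟩
    have a6 : ((π * (X x * τ)).det⁻¹ • (X x * τ * (π * (X x * τ)).adjugate * π)) * (X x * τ) =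
        X x * τ := by
      rw [Matrix.smul_mul, Matrix.mul_assoc _ π, Matrix.mul_assoc _ (Matrix.adjugate _),
        Matrix.adjugate_mul, Matrix.mul_smul, Matrix.mul_one, smul_smul, inv_mul_cancel₀ a4,
        one_smul]
    beta_reduce
    generalize (π * (X x * τ)).adjugate = B at a6 ⊢
    generalize (π * (X x * τ)).det⁻¹ = d at a6 ⊢
    refine ⟨?_, fun v => ⟨fun h => ?_, ?_⟩⟩
    · rw [Matrix.mul_smul, ← Matrix.mul_assoc _ _ π, ← Matrix.mul_assoc _ _ B, a6]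
    · refine ⟨d • (τ * B * π) *ᵥ v, ?_⟩
      rw [Matrix.mulVec_smul, Matrix.mulVec_mulVec, ← Matrix.mul_assoc, ← Matrix.mul_assoc,
        ← Matrix.smul_mulVec]
      exact h
    · rintro ⟨w, rfl⟩
      obtain ⟨c, hc⟩ := a5 w
      rw [← hc, Matrix.mulVec_mulVec, a6]

end Pool.Agent.Lib.MP_601e9e_an.Rg
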