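import Pool.Agent.Lib.MP_601e9e_an.Rg.Chain
import Pool.Agent.Lib.MP_601e9e_an.Rg.Bug
import Pool.Agent.Lib.MP_601e9e_an.Rg.Ker1
import Pool.Agent.Lib.MP_601e9e_an.Rg.Ker2
import Pool.Agent.Lib.MP_601e9e_an.Rg.Ext2
import Pool.Agent.Lib.MP_601e9e_an.Rg.Ext3

open Complex Filter Topology Set Metric MeasureTheory
open scoped ComplexConjugate ContDiff Matrix

namespace Pool.Agent.Lib.MP_601e9e_an.Rg

variable {m N k : ℕ} {r : ℝ} {F : Fin N → Zs m → ℂ}

/-- Small rank of the second fundamental form. -/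
theorem route_small (hF : Hyp m N k r F) (hB : BU m N 2 r F)
    (h1 : ∃ ξ, ∃ Z ∈ Dom m r, ∃ ζ, HInd (hat F) (frC ξ 1) Z ζ)
    (h2 : ∀ (κ : Type) [Fintype κ] (C : κ → ℕ × (Fin m → ℂ)), (∀ x, (C x).1 ≤ 2) →
      (∃ Z ∈ Dom m r, ∃ ζ, HInd (hat F) C Z ζ) → Fintype.card κ + 2 ≤ (m + 2).choose 2) :
    Ext m r F := by
  obtain ⟨e, ξ, π, he, hD0, hall⟩ := ker1 hF hB h1 h2
  obtain ⟨ε, hε, hT⟩ := ext2 (m := m) hF.rpos
  have hD : IsOpen (Dom m r ×ˢ (univ : Set (Fin m → ℂ))) := (isOpen_Dom r).prod isOpen_univ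
  have hc : Convex ℝ (Dom m r ×ˢ (univ : Set (Fin m → ℂ))) := (convex_Dom r).prod convex_univ
  have hj := hol_j2 (isOpen_Dom r) hF.hol
  have hne : ((ball (0 : Zs m) ε ×ˢ ball (0 : Fin m → ℂ) ε) ∩
      Dom m r ×ˢ (univ : Set (Fin m → ℂ))).Nonempty := by
    obtain ⟨δ, hδ⟩ := exists_Sm (m := m) (lt_min hF.rpos hε)
    have h := hδ.pt_mem (mem_ball_self hδ.1) ⟨half_pos hδ.1, half_lt_self hδ.1⟩
    exact ⟨(pt 0 (δ / 2), 0), ⟨mem_ball_zero_iff.2 (h.1.trans_le (min_le_right _ _)),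
      mem_ball_self hε⟩, ⟨h.1.trans_le (min_le_left _ _), h.2⟩, mem_univ _⟩
  obtain ⟨O, hO, ⟨⟨Z₀, ζ⟩, hx⟩, hOW, hΔ, P, hP, hPP⟩ := ker2 hD hc
    (X := fun x => kX ξ π (j2 F x)) (Δ := fun x => kD ξ π (j2 F x))
    (fun i s => (ka_holX i s).comp_differentiableOn hj) (ka_holD.comp_differentiableOn hj) hD0
    (isOpen_ball.prod isOpen_ball) hne
  have hcont : Continuous fun Z : Zs m => (Z, ζ) := by fun_prop
  obtain ⟨η, hη, hball⟩ := Metric.isOpen_iff.1 (hO.preimage hcont) Z₀ hx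
  have hmem : ∀ Z ∈ ball Z₀ η, (Z, ζ) ∈ O := fun Z hZ => hball hZ
  have hK : KD F ζ (ball Z₀ η) (fun Z => P (Z, ζ)) := by
    refine ⟨fun i j => (hP i j).comp (by fun_prop) hmem, fun Z hZ => (hPP _ (hmem Z hZ)).1,
      fun Z hZ => kb_inj (hΔ _ (hmem Z hZ)), fun Z hZ x hx => ?_, fun Z hZ A hA hy => ?_,
      fun Z hZ => ?_⟩
    · obtain ⟨τ, hτ⟩ := ((hPP _ (hmem Z hZ)).2 x).1 hx
      rw [← hτ]
      exact (hall _ (hOW (hmem Z hZ)).2).2 τ
    · refine Matrix.ext_iff_mulVec.2 fun v => ?_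
      rw [← Matrix.mulVec_mulVec]
      exact ((hPP _ (hmem Z hZ)).2 _).2 (kb_ker (hΔ _ (hmem Z hZ)) hA hy v)
    · obtain ⟨τ, τ', h⟩ := kb_two (hall _ (hOW (hmem Z hZ)).2).1 (hΔ _ (hmem Z hZ)) he
      exact ⟨_, _, ((hPP _ (hmem Z hZ)).2 _).2 ⟨τ, rfl⟩, ((hPP _ (hmem Z hZ)).2 _).2 ⟨τ', rfl⟩, h⟩
  have h0 := hOW hx
  exact ext3 isOpen_ball (convex_ball _ _) (fun Z hZ => (hOW (hmem Z hZ)).2.1) hF.hol hK
    (mem_ball_self hη) fun x hx0 => hT Z₀ ζ x (mem_ball_zero_iff.1 h0.1.1)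
      (mem_ball_zero_iff.1 h0.1.2) (mem_Dom.1 h0.2.1).2 hx0

theorem hyp_of_gr (hF : Hyp m N 0 r F) (hG : ∀ a, Gr m r k k (F a)) : Hyp m N k r F := by
  refine ⟨hF.rpos, hF.hol, hF.bdry, ?_⟩
  choose C hC using hG
  refine ⟨∑ a, |C a|, fun a i hi Z hZ => ?_⟩
  have h1 := hC a i hi Z hZ
  rw [sub_self, Real.rpow_zero, mul_one] at h1
  exact h1.trans ((le_abs_self _).trans
    (Finset.single_le_sum (f := fun a => |C a|) (fun _ _ => abs_nonneg _) (Finset.mem_univ a)))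

theorem main1 (hF : Hyp m N 0 r F) (hG : ∀ a, Gr m r k k (F a)) (hk : 1 ≤ k) (hm : 0 < m)
    (hN : N ≤ m * (2 * k) + 1 ∨ N + 3 ≤ (m + 2).choose 2 + 2 * k) : Ext m r F := by
  have hF' := hyp_of_gr hF hG
  set ε : ℝ := 1 / (4 * (N + 2 * k + 4)) with hε
  have hε0 : 0 < ε := by positivity
  have hε1 : (N + 2 * k + 4) * ε = 1 / 4 := by
    rw [hε]
    field_simp
  have hk' : (1 : ℝ) ≤ k := by exact_mod_cast hk
  have hN0 : (0 : ℝ) ≤ N := Nat.cast_nonneg N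
  have hε2 : ε ≤ 1 / 2 := by nlinarith
  have hB := bud_of_gr hF hk le_rfl hG hε0
  have hc : max (1 - (k : ℝ)) ε = ε := max_eq_right (by linarith)
  rw [hc] at hB
  have hb : ∀ j : ℕ, j ≤ 2 * k → max ((j : ℝ) / 2 - k) ε = ε := by
    intro j hj
    have : (j : ℝ) ≤ 2 * k := by exact_mod_cast hj
    exact max_eq_right (by linarith)
  have hb' : max (((2 * k + 1 : ℕ) : ℝ) / 2 - k) ε = 1 / 2 := by
    push_cast
    rw [max_eq_left (by linarith)]
    ring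
  rcases hN with hN | hN
  · refine rat_ext hF.rpos (route_frame hF' hm hB (bu_of_hyp hF' le_rfl) hN ?_)
    simp only [Finset.sum_range_one, add_zero]
    rw [hb _ le_rfl, hb']
    nlinarith
  · by_cases h1 : ∃ Z ∈ Dom m r, ∃ v, Ind (hat F) (1 + 1) Z v
    · by_cases h2 : ∀ (κ : Type) [Fintype κ] (C : κ → ℕ × (Fin m → ℂ)), (∀ x, (C x).1 ≤ 2) →
        (∃ Z ∈ Dom m r, ∃ ζ, HInd (hat F) C Z ζ) → Fintype.card κ + 2 ≤ (m + 2).choose 2
      · exact route_small hF' (bu_of_hyp hF' (by omega))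
          (frame hF' hm (bu_of_hyp hF' (by omega)) h1) h2
      · push Not at h2
        obtain ⟨κ, _, C, hC, h0, hcard⟩ := h2
        obtain ⟨n, rfl⟩ : ∃ n, k = n + 1 := ⟨k - 1, by omega⟩
        refine rat_ext hF.rpos (chain' hF' hm hB (E := 2 * n + 1) hC (by omega) ?_ h0)
        rw [Finset.sum_range_succ, hb 2 (by omega),
          Finset.sum_congr rfl fun i hi => hb (2 + 1 + i) (by
            have := Finset.mem_range.1 hi
            omega), show 2 + 1 + 2 * n = 2 * (n + 1) + 1 by ring, hb']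
        simp only [Finset.sum_const, Finset.card_range, nsmul_eq_mul]
        push_cast at hε1 ⊢
        nlinarith
    · push Not at h1
      exact rat_ext hF.rpos (rational hF' hm (bu_of_hyp hF' (by omega)) h1)

theorem main2 {l K e : ℕ} {α : ℝ} (hF : Hyp m N 0 r F) (hG : ∀ a, Gr m r l α (F a))
    (hl : 1 ≤ l) (hα : α ≤ l) (hm : 0 < m) (he : e ≤ 1) (h1 : (K : ℝ) / 2 + e / 4 < α)
    (h2 : 5 / 6 < α)
    (hN : N ≤ m * K + (e + 1) ∨ (2 ≤ K ∧ N + 3 ≤ (m + 2).choose 2 + K + e)) : Ext m r F := by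
  have he0 : (0 : ℝ) ≤ e := Nat.cast_nonneg e
  have hN0 : (0 : ℝ) ≤ N := Nat.cast_nonneg N
  have hK0 : (0 : ℝ) ≤ K := Nat.cast_nonneg K
  set d : ℝ := min (α - K / 2 - e / 4) (min (α - 5 / 6) (1 / 4)) with hd
  have hd0 : 0 < d := lt_min (by linarith) (lt_min (by linarith) (by norm_num))
  have hd1 : d ≤ α - K / 2 - e / 4 := min_le_left _ _
  have hd2 : d ≤ α - 5 / 6 := (min_le_right _ _).trans (min_le_left _ _)
  have hd3 : d ≤ 1 / 4 := (min_le_right _ _).trans (min_le_right _ _)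
  set ε : ℝ := d / (N + K + 6) with hε
  have hε0 : 0 < ε := by positivity
  have hε1 : (N + K + 6) * ε = d := by
    rw [hε]
    field_simp
  have hB := bud_of_gr hF hl hα hG hε0
  have hb : ∀ j : ℕ, j ≤ K → max ((j : ℝ) / 2 - α) ε = ε := by
    intro j hj
    have : (j : ℝ) ≤ K := by exact_mod_cast hj
    exact max_eq_right (by linarith)
  have hU : ∀ j : ℕ, j ≤ K → BU m N j r F := by
    intro j hj
    have : (j : ℝ) ≤ K := by exact_mod_cast hj
    exact bu_of_gr hF hl hα hG (by linarith)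
  have hKc : K = 0 ∨ K = 1 ∨ (2 : ℝ) ≤ K := by
    rcases Nat.lt_or_ge K 2 with h | h
    · omega
    · exact Or.inr (Or.inr (by exact_mod_cast h))
  have hNε : 0 ≤ N * ε := by positivity
  have hKε : 0 ≤ K * ε := by positivity
  have hS : (N + 1 + K) * ε + ∑ i ∈ Finset.range (e + 1), max (((K + 1 + i : ℕ) : ℝ) / 2 - α) ε <
      1 - max (1 - α) ε - ε := by
    interval_cases e
    · simp only [zero_add, Finset.sum_range_one, add_zero]
      push_cast at *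
      rcases max_cases (1 - α) ε with ⟨a1, _⟩ | ⟨a1, _⟩ <;>
        rcases max_cases (((K : ℝ) + 1) / 2 - α) ε with ⟨a2, _⟩ | ⟨a2, _⟩ <;>
        rw [a1, a2] <;> nlinarith
    · simp only [Finset.sum_range_succ, Finset.sum_range_zero, zero_add, add_zero]
      push_cast at *
      rcases max_cases (1 - α) ε with ⟨a1, _⟩ | ⟨a1, _⟩ <;>
        rcases max_cases (((K : ℝ) + 1) / 2 - α) ε with ⟨a2, _⟩ | ⟨a2, _⟩ <;>
        rcases max_cases (((K : ℝ) + 1 + 1) / 2 - α) ε with ⟨a3, _⟩ | ⟨a3, _⟩ <;>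
        rw [a1, a2, a3] <;> rcases hKc with h | h | h <;> (try subst h) <;>
        (try push_cast at *) <;> nlinarith
  rcases hN with hN | ⟨hK, hN⟩
  · refine rat_ext hF.rpos (route_frame hF hm hB (hU K le_rfl) hN ?_)
    simp only [hb K le_rfl]
    nlinarith
  · by_cases h3 : ∃ Z ∈ Dom m r, ∃ v, Ind (hat F) (1 + 1) Z v
    · by_cases h4 : ∀ (κ : Type) [Fintype κ] (C : κ → ℕ × (Fin m → ℂ)), (∀ x, (C x).1 ≤ 2) →
        (∃ Z ∈ Dom m r, ∃ ζ, HInd (hat F) C Z ζ) → Fintype.card κ + 2 ≤ (m + 2).choose 2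
      · exact route_small hF (hU 2 hK) (frame hF hm (hU 1 (by omega)) h3) h4
      · push Not at h4
        obtain ⟨κ, _, C, hC, h0, hcard⟩ := h4
        obtain ⟨n, rfl⟩ : ∃ n, K = n + 2 := ⟨K - 2, by omega⟩
        refine rat_ext hF.rpos (chain' hF hm hB (E := n + (e + 1)) hC (by omega) ?_ h0)
        rw [Finset.sum_range_add, hb 2 hK,
          Finset.sum_congr rfl fun i hi => hb (2 + 1 + i) (by
            have := Finset.mem_range.1 hi
            omega)]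
        have h5 : ∑ i ∈ Finset.range (e + 1), max (((2 + 1 + (n + i) : ℕ) : ℝ) / 2 - α) ε =
            ∑ i ∈ Finset.range (e + 1), max (((n + 2 + 1 + i : ℕ) : ℝ) / 2 - α) ε :=
          Finset.sum_congr rfl fun i _ => by
            rw [show 2 + 1 + (n + i) = n + 2 + 1 + i by ring]
        rw [h5]
        simp only [Finset.sum_const, Finset.card_range, nsmul_eq_mul]
        have h6 : ((n + 2 : ℕ) : ℝ) = n + 2 := by push_cast; ring
        rw [h6] at hS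
        nlinarith
    · push Not at h3
      exact rat_ext hF.rpos (rational hF hm (hU 1 (by omega)) h3)

end Pool.Agent.Lib.MP_601e9e_an.Rg
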