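import Pool.Agent.Lib.MP_601e9e_an.Rg.Ball
import Pool.Agent.Lib.MP_601e9e_an.Rg.Main
import Pool.Agent.Lib.MP_601e9e_an.Rg.Hold

open Complex Filter Topology Set Metric MeasureTheory
open scoped ComplexConjugate ContDiff NNReal

namespace Pool.Agent.Lib.MP_601e9e_an.Rg

variable {m N : ℕ}

theorem differentiableAt_icay (b : Bs m) {x : Vs m} (h : 1 + b.repr x 0 ≠ 0) :
    DifferentiableAt ℂ (icay b) x := by
  have hev : ∀ R : MvPolynomial (Fin (m + 1)) ℂ,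
      Differentiable ℂ (fun x : Vs m => MvPolynomial.eval (fun l => x l) R) := fun R =>
    (hol_eval R).comp (differentiable_pi.2 fun l => by fun_prop)
  refine differentiableAt_pi.2 fun o => ?_
  simp only [icay, div_eq_mul_inv]
  exact (hev _ x).mul ((hev _ x).inv (by rwa [eval_den]))

/-- Passage to the Siegel model. -/
theorem ball_hyp (l : ℕ) {α : ℝ} (hα : α ≤ l) {x₀ : Vs m} (hx₀ : ‖x₀‖ = 1) {ρ : ℝ} (hρ : 0 < ρ)
    {F : Vs m → EuclideanSpace ℂ (Fin N)} (hF : DifferentiableOn ℂ F (ball 0 1 ∩ ball x₀ ρ))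
    (hc : ContinuousOn F (closedBall 0 1 ∩ ball x₀ ρ))
    (hs : ∀ x ∈ sphere 0 1 ∩ ball x₀ ρ, ‖F x‖ = 1)
    (hb : ∃ C : ℝ, ∀ x ∈ ball (0 : Vs m) 1 ∩ ball x₀ ρ, ‖F x‖ ≤ C ∧
      ∀ i ≤ l, ‖iteratedFDeriv ℂ i F x‖ ≤ C * (1 - ‖x‖) ^ (α - l)) :
    ∃ (b : Bs m) (r : ℝ), r ≤ 1 / 2 ∧ (∀ Z : Zs m, ‖Z‖ < r → cay b Z ∈ ball x₀ ρ) ∧
      Hyp m N 0 r (fun a Z => F (cay b Z) a) ∧ ∀ a, Gr m r l α (fun Z => F (cay b Z) a) := by
  obtain ⟨b, hb0⟩ : ∃ b : Bs m, b 0 = x₀ := by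
    obtain ⟨b, h⟩ := Orthonormal.exists_orthonormalBasis_extension_of_card_eq (𝕜 := ℂ)
      (E := Vs m) (ι := Fin (m + 1)) (by simp) (v := fun _ => x₀) (s := {0})
      ⟨fun _ => hx₀, fun i j hij => absurd (Subsingleton.elim i j) hij⟩
    exact ⟨b, h 0 rfl⟩
  set U : Set (Vs m) := ball 0 1 ∩ ball x₀ ρ with hUdef
  have hU : IsOpen U := isOpen_ball.inter isOpen_ball
  obtain ⟨r, hr, hr2, hrρ⟩ : ∃ r : ℝ, 0 < r ∧ r ≤ 1 / 2 ∧ ∀ Z : Zs m, ‖Z‖ < r →
      cay b Z ∈ ball x₀ ρ := by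
    have h1 : ContinuousAt (cay b) 0 :=
      (differentiableAt_cay b (I_add_ne (by simp))).continuousAt
    rw [Metric.continuousAt_iff] at h1
    obtain ⟨d, hd, h⟩ := h1 ρ hρ
    refine ⟨min d (1 / 2), by positivity, min_le_right _ _, fun Z hZ => ?_⟩
    have := h (x := Z) (by simpa using hZ.trans_le (min_le_left _ _))
    rwa [cay_zero, hb0] at this
  have hne : ∀ Z : Zs m, ‖Z‖ < r → I + Z none ≠ 0 := fun Z hZ => I_add_ne (hZ.trans_le hr2)
  have hmap : ∀ Z ∈ Dom m r, cay b Z ∈ U := by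
    intro Z hZ
    refine ⟨mem_ball_zero_iff.2 ?_, hrρ Z hZ.1⟩
    have h1 := norm_sq_cay b (hne Z hZ.1)
    have h2 : 0 < ‖lam Z‖ := norm_pos_iff.2 (inv_ne_zero (hne Z hZ.1))
    have h3 : 0 < 4 * ‖lam Z‖ ^ 2 * ((Z none).im - nsq (zc Z)) := by
      have := sub_pos.2 hZ.2
      positivity
    nlinarith [norm_nonneg (cay b Z)]
  have hFa : ∀ a, DifferentiableOn ℂ (fun x => F x a) U := differentiableOn_euclidean.1 hF
  obtain ⟨C, hC⟩ := hb
  refine ⟨b, r, hr2, hrρ, ⟨hr, fun a => (hFa a).comp (fun Y hY =>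
      (differentiableAt_cay b (hne Y hY.1)).differentiableWithinAt) hmap, fun p hp => ?_, ?_⟩,
      fun a => ?_⟩
  · have hpt : Tendsto (fun t : ℝ => pt p t) (𝓝[>] 0) (𝓝 (pt p 0)) := by
      have : Continuous (fun t : ℝ => pt p t) :=
        continuous_pt.comp (continuous_const.prodMk continuous_id)
      exact this.continuousAt.tendsto.mono_left nhdsWithin_le_nhds
    have h1 : ‖cay b (pt p 0)‖ = 1 := by
      have h2 := norm_sq_cay b (hne _ hp)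
      rw [pt_none_im, zc_pt] at h2
      nlinarith [norm_nonneg (cay b (pt p 0))]
    have h3 : Tendsto (fun t : ℝ => cay b (pt p t)) (𝓝[>] 0)
        (𝓝[closedBall 0 1 ∩ ball x₀ ρ] (cay b (pt p 0))) := by
      refine tendsto_nhdsWithin_iff.2
        ⟨(differentiableAt_cay b (hne _ hp)).continuousAt.tendsto.comp hpt, ?_⟩
      filter_upwards [hpt.norm.eventually_lt_const hp, self_mem_nhdsWithin] with t ht ht0
      have := hmap (pt p t) ⟨ht, by rw [pt_none_im, zc_pt]; exact lt_add_of_pos_right _ ht0⟩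
      exact ⟨ball_subset_closedBall this.1, this.2⟩
    have h4 := ((hc _ ⟨mem_closedBall_zero_iff.2 h1.le, hrρ _ hp⟩).tendsto.comp h3).norm.pow 2
    rw [hs _ ⟨mem_sphere_zero_iff_norm.2 h1, hrρ _ hp⟩, one_pow] at h4
    simpa only [EuclideanSpace.norm_sq_eq, Function.comp] using h4
  · refine ⟨C, fun a i hi Z hZ => ?_⟩
    obtain rfl : i = 0 := by omega
    exact (PiLp.norm_apply_le _ a).trans (hC _ (hmap Z hZ)).1
  · choose c hcc using jet_cay b (isOpen_Dom r) hU (fun Z hZ => hne Z hZ.1) hmap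
    refine ⟨(∑ i ∈ Finset.range (l + 1), ∑ j ∈ Finset.range (i + 1),
      ‖c i j‖ * (2 ^ (i + j) * (|C| * (2 + m) ^ j))) * (1 / 2) ^ (α - l), fun i hi Z hZ => ?_⟩
    have hh : 0 < ht Z := (mem_Dom.1 hZ).2
    have hw : (1 - ‖cay b Z‖) ^ (α - l) ≤ (1 / 2) ^ (α - l) * ht Z ^ (α - l) := by
      rw [← Real.mul_rpow (by norm_num) hh.le]
      refine Real.rpow_le_rpow_of_nonpos (by positivity) ?_ (by linarith)
      have h1 := norm_sq_cay b (hne Z hZ.1)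
      have h2 : 1 / 2 ≤ ‖lam Z‖ := by
        rw [lam, norm_inv]
        have h3 : ‖I + Z none‖ ≤ 2 := by
          refine (norm_add_le _ _).trans ?_
          have := norm_le_pi_norm Z none
          have := hZ.1
          rw [Complex.norm_I]
          linarith
        have h4 : 0 < ‖I + Z none‖ := norm_pos_iff.2 (hne Z hZ.1)
        rw [le_inv_comm₀ (by norm_num) h4]
        simpa using h3
      have h5 : ‖cay b Z‖ < 1 := mem_ball_zero_iff.1 (hmap Z hZ).1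
      have h6 : 1 / 4 ≤ ‖lam Z‖ ^ 2 := by nlinarith
      change ‖cay b Z‖ ^ 2 = 1 - 4 * ‖lam Z‖ ^ 2 * ht Z at h1
      nlinarith [norm_nonneg (cay b Z), mul_le_mul_of_nonneg_right h6 hh.le,
        sq_nonneg (1 - ‖cay b Z‖)]
    have hw0 : 0 ≤ (1 - ‖cay b Z‖) ^ (α - l) :=
      Real.rpow_nonneg (sub_nonneg.2 (mem_ball_zero_iff.1 (hmap Z hZ).1).le) _
    rw [mul_assoc]
    refine le_trans ?_ (mul_le_mul (Finset.single_le_sum
      (f := fun i => ∑ j ∈ Finset.range (i + 1),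
        ‖c i j‖ * (2 ^ (i + j) * (|C| * (2 + (m : ℝ)) ^ j)))
      (fun i _ => Finset.sum_nonneg fun l _ => by positivity)
      (Finset.mem_range.2 (Nat.lt_succ_of_le hi))) hw hw0
      (Finset.sum_nonneg fun i _ => Finset.sum_nonneg fun l _ => by positivity))
    rw [hcc i _ (hFa a) Z hZ, Finset.sum_mul]
    refine (norm_sum_le _ _).trans (Finset.sum_le_sum fun j hj => ?_)
    have hj' : j ≤ l := (Nat.lt_succ_iff.1 (Finset.mem_range.1 hj)).trans hi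
    have h1 : ‖lam Z‖ ≤ 2 := by
      rw [lam, norm_inv]
      exact inv_le_of_inv_le₀ (by norm_num) (by simpa using norm_I_add (hZ.1.trans_le hr2))
    have h2 : ‖jet (fun x => F x a) j (cay b Z) (cw b Z)‖ ≤
        |C| * (1 - ‖cay b Z‖) ^ (α - l) * (2 + m) ^ j := by
      rw [jet_eq_iteratedFDeriv hU (hFa a) j (hmap Z hZ)]
      refine (ContinuousMultilinearMap.le_opNorm _ _).trans ?_
      have hcd : ContDiffAt ℂ j F (cay b Z) :=
        (contDiffOn_euclidean.2 fun a => contDiffOn_of_hol hU (hFa a) j).contDiffAt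
          (hU.mem_nhds (hmap Z hZ))
      have h3 := (EuclideanSpace.proj (𝕜 := ℂ) a).norm_iteratedFDeriv_comp_left hcd le_rfl
      have h4 : ‖(EuclideanSpace.proj (𝕜 := ℂ) a : EuclideanSpace ℂ (Fin N) →L[ℂ] ℂ)‖ ≤ 1 :=
        ContinuousLinearMap.opNorm_le_bound _ zero_le_one fun x => by
          simpa using PiLp.norm_apply_le x a
      have h5 : ‖iteratedFDeriv ℂ j (fun x => F x a) (cay b Z)‖ ≤
          |C| * (1 - ‖cay b Z‖) ^ (α - l) := by
        refine le_trans h3 ?_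
        have h6 := ((hC _ (hmap Z hZ)).2 j hj').trans
          (mul_le_mul_of_nonneg_right (le_abs_self C) hw0)
        nlinarith [norm_nonneg (iteratedFDeriv ℂ j F (cay b Z))]
      rw [Finset.prod_const, Finset.card_univ, Fintype.card_fin]
      have h7 := norm_cw_le b (hZ.1.trans_le hr2)
      gcongr
    rw [norm_mul, norm_mul, norm_pow]
    calc ‖c i j‖ * (‖lam Z‖ ^ (i + j) * ‖jet (fun x => F x a) j (cay b Z) (cw b Z)‖)
        ≤ ‖c i j‖ * (2 ^ (i + j) * (|C| * (1 - ‖cay b Z‖) ^ (α - l) * (2 + m) ^ j)) := by gcongr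
      _ = _ := by ring

/-- From an extension across one boundary point to rationality. -/
theorem ball_ext (K : ℕ) (hm : 0 < m) (hN : N ≤ m * K) {x₀ : Vs m} {ρ : ℝ}
    {F : Vs m → EuclideanSpace ℂ (Fin N)} (hF : DifferentiableOn ℂ F (ball 0 1 ∩ ball x₀ ρ))
    (hc : ContinuousOn F (closedBall 0 1 ∩ ball x₀ ρ))
    (hs : ∀ x ∈ sphere 0 1 ∩ ball x₀ ρ, ‖F x‖ = 1) {b : Bs m} {r : ℝ} (hr : r ≤ 1 / 2)
    (hrρ : ∀ Z : Zs m, ‖Z‖ < r → cay b Z ∈ ball x₀ ρ)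
    (hE : Ext m r (fun a Z => F (cay b Z) a)) :
    ∃ (q : MvPolynomial (Fin (m + 1)) ℂ) (P : Fin N → MvPolynomial (Fin (m + 1)) ℂ),
      q ≠ 0 ∧ q.totalDegree ≤ K * (K - 1) / 2 ∧ (∀ a, (P a).totalDegree ≤ K * (K - 1) / 2) ∧
      ∀ x ∈ ball (0 : Vs m) 1 ∩ ball x₀ ρ, ∀ a,
        MvPolynomial.eval (fun i => x i) q * F x a = MvPolynomial.eval (fun i => x i) (P a) := by
  obtain ⟨p, hp, W, hW, hpW, G, hG, hGF⟩ := hE
  have hne := I_add_ne (hp.trans_le hr)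
  set x₁ := cay b (pt p 0) with hx₁
  have h1 : ‖x₁‖ = 1 := by
    have h2 := norm_sq_cay b hne
    rw [pt_none_im, zc_pt] at h2
    nlinarith [norm_nonneg x₁]
  have hd₁ := den_cay b hne
  have hi₁ := icay_cay b hne
  have e1 : ∀ᶠ y in 𝓝 x₁, 1 + b.repr y 0 ≠ 0 := ContinuousAt.eventually_ne (by fun_prop) hd₁
  have e2 : ∀ᶠ y in 𝓝 x₁, icay b y ∈ W ∩ ball 0 r :=
    (continuousAt_icay b hd₁).preimage_mem_nhds ((hW.inter isOpen_ball).mem_nhds
      (by rw [hi₁]; exact ⟨hpW, mem_ball_zero_iff.2 hp⟩))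
  have e3 : ∀ᶠ y in 𝓝 x₁, y ∈ ball x₀ ρ := isOpen_ball.mem_nhds (hrρ _ hp)
  obtain ⟨η, hη, hball⟩ := Metric.eventually_nhds_iff_ball.1 (e1.and (e2.and e3))
  set H : Vs m → EuclideanSpace ℂ (Fin N) := fun x => WithLp.toLp 2 fun a => G a (icay b x)
    with hH
  have hHa : ∀ a, DifferentiableOn ℂ (fun x => H x a) (ball x₁ η) := fun a =>
    (hG a).comp (fun y hy => (differentiableAt_icay b (hball y hy).1).differentiableWithinAt)
      fun y hy => (hball y hy).2.1.1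
  have hHF : ∀ x ∈ ball (0 : Vs m) 1 ∩ ball x₁ η, F x = H x := by
    intro x hx
    obtain ⟨a1, a2, _⟩ := hball x hx.2
    have a4 := cay_icay b a1
    have a5 : ‖icay b x‖ < r := mem_ball_zero_iff.1 a2.2
    have a6 := I_add_ne (a5.trans_le hr)
    have a7 : icay b x ∈ Dom m r := by
      refine mem_Dom.2 ⟨a5, ?_⟩
      have b1 := norm_sq_cay b a6
      rw [a4] at b1
      change ‖x‖ ^ 2 = 1 - 4 * ‖lam (icay b x)‖ ^ 2 * ht (icay b x) at b1
      have b2 : ‖x‖ < 1 := mem_ball_zero_iff.1 hx.1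
      by_contra b3
      push Not at b3
      nlinarith [norm_nonneg x, mul_nonneg (sq_nonneg ‖lam (icay b x)‖) (neg_nonneg.2 b3)]
    ext a
    have := hGF a _ ⟨a2.1, a7⟩
    simp only [a4] at this
    exact this.symm
  have hsub : ball x₁ (η / 2) ⊆ ball x₀ ρ := fun y hy =>
    (hball y (ball_subset_ball (by linarith) hy)).2.2
  have hcd : ∀ i : ℕ, ContDiffOn ℂ i H (ball x₁ η) := fun i =>
    contDiffOn_euclidean.2 fun a => contDiffOn_of_hol isOpen_ball (hHa a) i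
  have hbd : ∀ i : ℕ, ∃ C : ℝ, ∀ x ∈ closedBall x₁ (η / 2), ‖iteratedFDeriv ℂ i H x‖ ≤ C := by
    intro i
    refine (isCompact_closedBall x₁ (η / 2)).exists_bound_of_continuousOn ?_
    intro x hx
    have hx' : x ∈ ball x₁ η := closedBall_subset_ball (by linarith) hx
    exact (((hcd i).contDiffAt (isOpen_ball.mem_nhds hx')).continuousAt_iteratedFDeriv
      le_rfl).continuousWithinAt
  choose C hC using hbd
  obtain ⟨q, P, hq, hqd, hPd, hP⟩ := ball_rational m N K K hm (by omega) hN x₁ h1 (η / 2)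
    (half_pos hη) F (hF.mono (inter_subset_inter_right _ hsub))
    (hc.mono (inter_subset_inter_right _ hsub))
    (fun x hx => hs x ⟨hx.1, hsub hx.2⟩)
    ⟨∑ i ∈ Finset.range (K + 1), |C i|, fun i hi x hx => by
      have a1 : F =ᶠ[𝓝 x] H := by
        filter_upwards [(isOpen_ball.inter isOpen_ball).mem_nhds hx] with y hy
        exact hHF y ⟨hy.1, ball_subset_ball (by linarith) hy.2⟩
      rw [(a1.iteratedFDeriv ℂ i).eq_of_nhds]
      exact ((hC i x (ball_subset_closedBall hx.2)).trans (le_abs_self _)).trans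
        (Finset.single_le_sum (f := fun i => |C i|) (fun _ _ => abs_nonneg _)
          (Finset.mem_range.2 (Nat.lt_succ_of_le hi)))⟩
  refine ⟨q, P, hq, hqd, hPd, fun x hx a => ?_⟩
  have hev : ∀ R : MvPolynomial (Fin (m + 1)) ℂ,
      Differentiable ℂ (fun x : Vs m => MvPolynomial.eval (fun l => x l) R) := fun R =>
    (hol_eval R).comp (differentiable_pi.2 fun l => by fun_prop)
  obtain ⟨y, hy⟩ : (ball (0 : Vs m) 1 ∩ ball x₁ (η / 2)).Nonempty := by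
    have : x₁ ∈ closure (ball (0 : Vs m) 1) := by
      rw [closure_ball _ one_ne_zero]
      exact mem_closedBall_zero_iff.2 h1.le
    obtain ⟨y, hy1, hy2⟩ := mem_closure_iff.1 this _ isOpen_ball (mem_ball_self (half_pos hη))
    exact ⟨y, hy2, hy1⟩
  refine sub_eq_zero.1 (ident (isOpen_ball.inter isOpen_ball)
    ((convex_ball _ _).inter (convex_ball _ _)) (g := fun x : Vs m =>
      MvPolynomial.eval (fun l => x l) q * F x a - MvPolynomial.eval (fun l => x l) (P a))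
    (((hev _).differentiableOn.mul (differentiableOn_euclidean.1 hF a)).sub
      (hev _).differentiableOn) (x := y) ⟨hy.1, hsub hy.2⟩ ?_ x hx)
  filter_upwards [(isOpen_ball.inter isOpen_ball).mem_nhds hy] with z hz
  exact sub_eq_zero.2 (hP z hz a)

theorem deg_choice (hm : 0 < m) : N ≤ m * ((N - 1) / m + 1) := by
  have := Nat.lt_mul_div_succ (N - 1) hm
  omega

theorem ball_main1 (k : ℕ) (hm : 0 < m) (hk : 1 ≤ k)
    (hN : N ≤ m * (2 * k) + 1 ∨ N + 3 ≤ (m + 2).choose 2 + 2 * k) {x₀ : Vs m} (hx₀ : ‖x₀‖ = 1)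
    {ρ : ℝ} (hρ : 0 < ρ) {F : Vs m → EuclideanSpace ℂ (Fin N)}
    (hF : DifferentiableOn ℂ F (ball 0 1 ∩ ball x₀ ρ))
    (hc : ContinuousOn F (closedBall 0 1 ∩ ball x₀ ρ))
    (hs : ∀ x ∈ sphere 0 1 ∩ ball x₀ ρ, ‖F x‖ = 1)
    (hb : ∃ C : ℝ, ∀ i ≤ k, ∀ x ∈ ball 0 1 ∩ ball x₀ ρ, ‖iteratedFDeriv ℂ i F x‖ ≤ C) :
    ∃ (q : MvPolynomial (Fin (m + 1)) ℂ) (P : Fin N → MvPolynomial (Fin (m + 1)) ℂ),
      q ≠ 0 ∧ q.totalDegree ≤ ((N - 1) / m + 1) * ((N - 1) / m) / 2 ∧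
      (∀ a, (P a).totalDegree ≤ ((N - 1) / m + 1) * ((N - 1) / m) / 2) ∧
      ∀ x ∈ ball (0 : Vs m) 1 ∩ ball x₀ ρ, ∀ a,
        MvPolynomial.eval (fun i => x i) q * F x a = MvPolynomial.eval (fun i => x i) (P a) := by
  obtain ⟨C, hC⟩ := hb
  obtain ⟨b, r, hr, hrρ, hyp, hG⟩ := ball_hyp k (α := k) le_rfl hx₀ hρ hF hc hs
    ⟨C, fun x hx => ⟨by simpa using hC 0 (Nat.zero_le k) x hx, fun i hi => by
      simpa using hC i hi x hx⟩⟩
  exact ball_ext ((N - 1) / m + 1) hm (deg_choice hm) hF hc hs hr hrρ (main1 hyp hG hk hm hN)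

theorem ball_main2 (k K e : ℕ) (hm : 0 < m) (he : e ≤ 1)
    (hN : N ≤ m * K + (e + 1) ∨ (2 ≤ K ∧ N + 3 ≤ (m + 2).choose 2 + K + e))
    {C θ : ℝ≥0} (hθ : θ ≤ 1) (h1 : (K : ℝ) / 2 + e / 4 < k + θ) (h2 : (5 : ℝ) / 6 < k + θ)
    {x₀ : Vs m} (hx₀ : ‖x₀‖ = 1) {ρ : ℝ} (hρ : 0 < ρ) {F : Vs m → EuclideanSpace ℂ (Fin N)}
    (hF : DifferentiableOn ℂ F (ball 0 1 ∩ ball x₀ ρ))
    (hc : ContinuousOn F (closedBall 0 1 ∩ ball x₀ ρ))
    (hs : ∀ x ∈ sphere 0 1 ∩ ball x₀ ρ, ‖F x‖ = 1)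
    (hH : HolderOnWith C θ (iteratedFDeriv ℂ k F) (ball 0 1 ∩ ball x₀ ρ)) :
    ∃ (q : MvPolynomial (Fin (m + 1)) ℂ) (P : Fin N → MvPolynomial (Fin (m + 1)) ℂ),
      q ≠ 0 ∧ q.totalDegree ≤ ((N - 1) / m + 1) * ((N - 1) / m) / 2 ∧
      (∀ a, (P a).totalDegree ≤ ((N - 1) / m + 1) * ((N - 1) / m) / 2) ∧
      ∀ x ∈ ball (0 : Vs m) 1 ∩ ball x₀ ρ, ∀ a,
        MvPolynomial.eval (fun i => x i) q * F x a = MvPolynomial.eval (fun i => x i) (P a) := by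
  obtain ⟨ρ', hρ', hle, C', hC'⟩ := hold hx₀ hρ hF hθ hH
  have hsub : ball x₀ ρ' ⊆ ball x₀ ρ := ball_subset_ball hle
  have hθ' : (θ : ℝ) ≤ 1 := by exact_mod_cast hθ
  have hα : (k : ℝ) + θ ≤ (k + 1 : ℕ) := by
    push_cast
    linarith
  obtain ⟨b, r, hr, hrρ, hyp, hG⟩ := ball_hyp (k + 1) hα hx₀ hρ'
    (hF.mono (inter_subset_inter_right _ hsub)) (hc.mono (inter_subset_inter_right _ hsub))
    (fun x hx => hs x ⟨hx.1, hsub hx.2⟩)
    ⟨C', fun x hx => ⟨(hC' x hx).1, fun i hi => by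
      have := (hC' x hx).2 i hi
      rwa [show (k : ℝ) + θ - (k + 1 : ℕ) = θ - 1 by push_cast; ring]⟩⟩
  exact ball_ext ((N - 1) / m + 1) hm (deg_choice hm) hF hc hs hr (fun Z hZ => hsub (hrρ Z hZ))
    (main2 hyp hG (Nat.le_add_left 1 k) hα hm he h1 h2 hN)

end Pool.Agent.Lib.MP_601e9e_an.Rg
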