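import Pool.Agent.Lib.MP_601e9e_an.Rg.Defs

open Complex Filter Topology Set Metric MeasureTheory
open scoped ComplexConjugate ContDiff

namespace Pool.Agent.Lib.MP_601e9e_an.Rg

/-- Real differentiability with the two Wirtinger derivatives. -/
def grW (g : ℂ → ℂ) (α β z : ℂ) : Prop :=
  ∃ L : ℂ →L[ℝ] ℂ, HasFDerivAt g L z ∧ ∀ e, L e = e * α + conj e * β

lemma gr_hol {g : ℂ → ℂ} {g' z : ℂ} (h : HasDerivAt g g' z) : grW g g' 0 z :=
  ⟨_, h.complexToReal_fderiv, fun e => by simp [mul_comm]⟩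

lemma gr_conj {g : ℂ → ℂ} {α β z : ℂ} (h : grW g α β z) :
    grW (fun w => conj (g w)) (conj β) (conj α) z := by
  obtain ⟨L, h, e⟩ := h
  exact ⟨_, (conjCLE : ℂ →L[ℝ] ℂ).hasFDerivAt.comp z h, fun x => by simp [e, add_comm]⟩

lemma gr_add {g k : ℂ → ℂ} {α β γ δ z : ℂ} (h : grW g α β z) (h' : grW k γ δ z) :
    grW (fun w => g w + k w) (α + γ) (β + δ) z := by
  obtain ⟨L, h, e⟩ := h
  obtain ⟨L', h', e'⟩ := h'
  exact ⟨_, h.add h', fun x => by simp [e, e']; ring⟩

lemma gr_mul {g k : ℂ → ℂ} {α β γ δ z : ℂ} (h : grW g α β z) (h' : grW k γ δ z) :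
    grW (fun w => g w * k w) (α * k z + g z * γ) (β * k z + g z * δ) z := by
  obtain ⟨L, h, e⟩ := h
  obtain ⟨L', h', e'⟩ := h'
  exact ⟨_, h.mul h', fun x => by simp [e, e']; ring⟩

lemma gr_comp {g φ : ℂ → ℂ} {α β φ' z : ℂ} (h : grW g α β z) (h' : HasDerivAt φ φ' (g z)) :
    grW (fun w => φ (g w)) (φ' * α) (φ' * β) z := by
  obtain ⟨L, h, e⟩ := h
  exact ⟨_, h'.complexToReal_fderiv.comp z h, fun x => by simp [e]; ring⟩

/-- The field whose boundary integral is used. -/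
noncomputable def grPhi (f h h' : ℂ → ℂ) (ε : ℝ) (z : ℂ) : ℂ :=
  2 * (h z).im * (deriv f z * conj (f z) / (‖f z‖ ^ 2 + ε ^ 2 : ℝ)) +
    I * Real.log (‖f z‖ ^ 2 + ε ^ 2) * h' z

/-- Its antiholomorphic derivative. -/
noncomputable def grBeta (f h h' : ℂ → ℂ) (ε : ℝ) (z : ℂ) : ℂ :=
  I * (2 * (conj (h' z) * (deriv f z * conj (f z) / (‖f z‖ ^ 2 + ε ^ 2 : ℝ))).re : ℝ) +
    (2 * (h z).im * ‖deriv f z‖ ^ 2 * ε ^ 2 / (‖f z‖ ^ 2 + ε ^ 2) ^ 2 : ℝ)

lemma gr_phi {f h h' : ℂ → ℂ} {ε : ℝ} (hε : 0 < ε) {z f'' h'' : ℂ}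
    (hf : HasDerivAt f (deriv f z) z) (hf' : HasDerivAt (deriv f) f'' z)
    (hh : HasDerivAt h (h' z) z) (hh' : HasDerivAt h' h'' z) :
    ∃ α, grW (grPhi f h h' ε) α (grBeta f h h' ε z) z := by
  have hN : ∀ w, ((‖f w‖ ^ 2 + ε ^ 2 : ℝ) : ℂ) = f w * conj (f w) + ε ^ 2 := fun w => by
    rw [mul_conj, normSq_eq_norm_sq]; push_cast; rfl
  have hp : ∀ w, 0 < ‖f w‖ ^ 2 + ε ^ 2 := fun w => by positivity
  have h0 : f z * conj (f z) + ε ^ 2 ≠ 0 := by rw [← hN]; exact_mod_cast (hp z).ne'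
  have hs : f z * conj (f z) + ε ^ 2 ∈ slitPlane := by
    rw [← hN]; exact ofReal_mem_slitPlane.2 (hp z)
  have D := gr_add (gr_mul (gr_hol hf) (gr_conj (gr_hol hf)))
    (gr_hol (hasDerivAt_const z ((ε : ℂ) ^ 2)))
  have A := gr_add (gr_mul (gr_add (gr_mul (gr_hol (hasDerivAt_const z (-I))) (gr_hol hh))
      (gr_mul (gr_hol (hasDerivAt_const z I)) (gr_conj (gr_hol hh))))
      (gr_mul (gr_mul (gr_hol hf') (gr_conj (gr_hol hf))) (gr_comp D (hasDerivAt_inv h0))))
    (gr_mul (gr_mul (gr_hol (hasDerivAt_const z I)) (gr_comp D (hasDerivAt_log hs))) (gr_hol hh'))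
  have him : ∀ w : ℂ, (2 * w.im : ℂ) = -I * w + I * conj w := fun w => by
    apply Complex.ext <;> simp; ring
  obtain ⟨α, A⟩ : ∃ α, grW _ α _ z := ⟨_, A⟩
  refine ⟨α, ?_⟩
  convert A using 1
  · funext w
    rw [grPhi, him, ofReal_log (hp w).le, hN, div_eq_mul_inv]
  · rw [grBeta, ← add_conj]
    have e2 : ((‖deriv f z‖ : ℂ)) ^ 2 = deriv f z * conj (deriv f z) := by
      rw [mul_conj, normSq_eq_norm_sq]; push_cast; rfl
    rw [ofReal_div, ofReal_pow (‖f z‖ ^ 2 + ε ^ 2), hN, ofReal_mul, ofReal_mul, ofReal_mul,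
      ofReal_pow, e2, ofReal_ofNat, him]
    simp only [map_mul, map_div₀, map_add, map_pow, conj_conj, conj_ofReal,
      mul_comm (conj (f z)) (f z)]
    push_cast
    obtain ⟨N, hN'⟩ : ∃ N, N = f z * conj (f z) + ε ^ 2 := ⟨_, rfl⟩
    have e3 : (ε : ℂ) ^ 2 = N - f z * conj (f z) := by rw [hN']; ring
    rw [← hN'] at h0 ⊢
    rw [e3]
    field_simp
    ring

lemma gr_re_nonneg {g : ℝ → ℂ} {a b : ℝ} (hab : a ≤ b) (h : ∀ x ∈ Icc a b, 0 ≤ (g x).im) :
    0 ≤ (∫ x in a..b, g x).im := by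
  by_cases hi : IntervalIntegrable g volume a b
  · have := imCLM.intervalIntegral_comp_comm hi
    simp only [imCLM_apply] at this
    rw [← this]
    exact intervalIntegral.integral_nonneg hab h
  · rw [intervalIntegral.integral_undef hi]; simp

lemma gr_le {g : ℝ → ℝ} {a b K : ℝ} (hab : a ≤ b) (hK : 0 ≤ K) (h : ∀ x ∈ Icc a b, g x ≤ K) :
    ∫ x in a..b, g x ≤ K * (b - a) := by
  by_cases hi : IntervalIntegrable g volume a b
  · have := intervalIntegral.integral_mono_on hab hi (intervalIntegrable_const (c := K)) h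
    simpa [mul_comm] using this
  · rw [intervalIntegral.integral_undef hi]; exact mul_nonneg hK (sub_nonneg.2 hab)

/-- The Green inequality on a rectangle. -/
lemma gr_rect {f h h' : ℂ → ℂ} {U : Set ℂ} (hU : IsOpen U) (hf : DifferentiableOn ℂ f U) {ε : ℝ}
    (hε : 0 < ε) (hh : ∀ z, HasDerivAt h (h' z) z) (hh' : Differentiable ℂ h') {p q t y : ℝ}
    (hpq : p ≤ q) (hty : t ≤ y) (hs : ∀ u ∈ Icc p q, ∀ v ∈ Icc t y, (u : ℂ) + (v : ℂ) * I ∈ U)
    (hG : ∀ u ∈ Icc p q, ∀ v ∈ Icc t y, 0 ≤ (h ((u : ℂ) + (v : ℂ) * I)).im) :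
    0 ≤ ((∫ x : ℝ in p..q, grPhi f h h' ε (x + t * I)) -
      (∫ x : ℝ in p..q, grPhi f h h' ε (x + y * I)) +
      I * (∫ v : ℝ in t..y, grPhi f h h' ε (q + v * I)) -
      I * ∫ v : ℝ in t..y, grPhi f h h' ε (p + v * I)).im := by
  have hf' := hf.deriv hU
  have key : ∀ z ∈ U, ∃ L : ℂ →L[ℝ] ℂ, HasFDerivAt (grPhi f h h' ε) L z ∧
      I • L 1 - L I = 2 * I * grBeta f h h' ε z := fun z hz => by
    obtain ⟨α, L, h1, h2⟩ := gr_phi hε (hf.differentiableAt (hU.mem_nhds hz)).hasDerivAt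
      (hf'.differentiableAt (hU.mem_nhds hz)).hasDerivAt (hh z) (hh' z).hasDerivAt
    exact ⟨L, h1, by simp [h2]; ring⟩
  choose! L h1 h2 using key
  have hR : Icc p q ×ℂ Icc t y ⊆ U := fun z hz => by
    simpa using hs _ hz.1 _ hz.2
  have hc : IsCompact (Icc p q ×ℂ Icc t y) := isCompact_Icc.reProdIm isCompact_Icc
  have hp : ∀ w, ‖f w‖ ^ 2 + ε ^ 2 ≠ 0 := fun w => by positivity
  have hB : ContinuousOn (fun z => 2 * I * grBeta f h h' ε z) U := by
    have c1 := hf.continuousOn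
    have c2 := hf'.continuousOn
    have c3 : Continuous h := continuous_iff_continuousAt.2 fun z => (hh z).continuousAt
    have c4 := hh'.continuous
    have c5 : ContinuousOn (fun z => conj (f z)) U := continuous_conj.comp_continuousOn c1
    have c6 : Continuous fun z => conj (h' z) := continuous_conj.comp c4
    unfold grBeta
    refine continuousOn_const.mul ((continuousOn_const.mul (continuous_ofReal.comp_continuousOn
      (continuousOn_const.mul (continuous_re.comp_continuousOn (c6.continuousOn.mul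
        ((c2.mul c5).div (by fun_prop) fun z _ => by exact_mod_cast hp z)))))).add
      (continuous_ofReal.comp_continuousOn (ContinuousOn.div (by fun_prop) (by fun_prop)
        fun z _ => pow_ne_zero _ (hp z))))
  have E := integral_boundary_rect_of_hasFDerivAt_real_off_countable (grPhi f h h' ε) L
    ⟨p, t⟩ ⟨q, y⟩ ∅ countable_empty
    (by
      simp only [uIcc_of_le hpq, uIcc_of_le hty]
      exact fun z hz => (h1 z (hR hz)).continuousAt.continuousWithinAt)
    (by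
      simp only [min_eq_left hpq, max_eq_right hpq, min_eq_left hty, max_eq_right hty]
      exact fun z hz => h1 z (hR ⟨Ioo_subset_Icc_self hz.1.1, Ioo_subset_Icc_self hz.1.2⟩))
    (by
      simp only [uIcc_of_le hpq, uIcc_of_le hty]
      exact ((hB.mono hR).integrableOn_compact hc).congr_fun (fun z hz => (h2 z (hR hz)).symm)
        hc.measurableSet)
  simp only [smul_eq_mul] at E h2
  rw [E]
  refine gr_re_nonneg hpq fun u hu => gr_re_nonneg hty fun v hv => ?_
  rw [h2 _ (hs u hu v hv), grBeta]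
  have := hG u hu v hv
  simp only [mul_im, mul_re, add_re, add_im, ofReal_re, ofReal_im, I_re, I_im, re_ofNat, im_ofNat]
  simp only [mul_zero, zero_mul, mul_one, add_zero, zero_add, sub_self]
  positivity

lemma gr_sinh (s : ℝ) : Real.sinh s ≤ s * Real.exp s := by
  have h1 := Real.add_one_le_exp (-s + -s)
  have h2 : Real.exp (-s) = Real.exp s * Real.exp (-s + -s) := by
    rw [← Real.exp_add]; congr 1; ring
  have h3 := Real.exp_pos s
  rw [Real.sinh_eq, h2]
  nlinarith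

lemma gr_log {C y ε r : ℝ} (hy : 0 < y) (hε : ε ∈ Ioc (0 : ℝ) 1) (h0 : 0 ≤ r)
    (hr : r ≤ Real.exp (C / y)) : Real.log (r ^ 2 + ε ^ 2) ≤ 2 * |C| / y + 1 := by
  have h1 : r ≤ Real.exp (|C| / y) :=
    hr.trans (Real.exp_le_exp.2 (div_le_div_of_nonneg_right (le_abs_self C) hy.le))
  have h2 : 1 ≤ Real.exp (|C| / y) := Real.one_le_exp (by positivity)
  have h3 : (2 : ℝ) ≤ Real.exp 1 := by have := Real.add_one_le_exp (1 : ℝ); linarith
  have h4 := hε.1
  have h5 : ε ^ 2 ≤ 1 := pow_le_one₀ h4.le hε.2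
  rw [Real.log_le_iff_le_exp (by positivity),
    show 2 * |C| / y + 1 = |C| / y + |C| / y + 1 by ring, Real.exp_add, Real.exp_add]
  have h6 : r ^ 2 ≤ Real.exp (|C| / y) * Real.exp (|C| / y) := by nlinarith
  nlinarith

/-- A lower bound for the logarithmic mean near the real axis. -/
theorem green {a y₀ c C : ℝ} (ha : 0 < a) (hy : 0 < y₀) (hc : 0 < c) :
    ∃ C₅ : ℝ, ∀ (f : ℂ → ℂ) (U : Set ℂ), IsOpen U → DifferentiableOn ℂ f U →
      (∀ u ∈ Icc (-a) a, ∀ y ∈ Ioc 0 y₀, (u : ℂ) + (y : ℂ) * I ∈ U) →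
      (∀ u ∈ Icc (-a) a, ∀ y ∈ Ioc 0 y₀, ‖f ((u : ℂ) + (y : ℂ) * I)‖ ≤ Real.exp (C / y)) →
      (∀ u ∈ Icc (-a) a, c ≤ ‖f ((u : ℂ) + (y₀ : ℂ) * I)‖ ∧
        ‖deriv f ((u : ℂ) + (y₀ : ℂ) * I)‖ ≤ C) →
      ∀ t ∈ Ioo 0 y₀, ∀ ε ∈ Ioc (0 : ℝ) 1,
        a * Real.log (1 / ε ^ 2) - C₅ ≤
          ∫ u in (-a)..a, Real.log (1 + ‖f ((u : ℂ) + (t : ℂ) * I)‖ ^ 2 / ε ^ 2) := by
  obtain ⟨k, hk⟩ : ∃ k : ℝ, k = Real.pi / (2 * a) := ⟨_, rfl⟩
  have hk0 : 0 < k := by rw [hk]; have := Real.pi_pos; positivity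
  have hka : k * a = Real.pi / 2 := by rw [hk]; field_simp
  obtain ⟨E, hE⟩ : ∃ E, E = Real.exp (k * y₀) := ⟨_, rfl⟩
  have hE0 : 0 < E := hE ▸ Real.exp_pos _
  obtain ⟨M, hM⟩ : ∃ M, M = 2 * E * (|C| / c) + (2 * |Real.log c| + (2 * |C| / y₀ + 1)) * (k * E) :=
    ⟨_, rfl⟩
  obtain ⟨K, hK⟩ : ∃ K, K = k * (k * E * (2 * |C| + y₀)) := ⟨_, rfl⟩
  have hK0 : 0 ≤ K := by rw [hK]; positivity
  refine ⟨(M * (2 * a) + 2 * (K * y₀)) / k, fun f U hU hf hs hg h0 t ht ε hε => ?_⟩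
  have hε0 := hε.1
  have haa : -a ≤ a := by linarith
  have hI : ∀ v ∈ Icc t y₀, v ∈ Ioc 0 y₀ := fun v hv => ⟨ht.1.trans_le hv.1, hv.2⟩
  let h : ℂ → ℂ := fun z => Complex.sin (k * (z - t * I))
  let h' : ℂ → ℂ := fun z => k * Complex.cos (k * (z - t * I))
  have hh : ∀ z, HasDerivAt h (h' z) z := fun z => by
    simpa [h, h', mul_comm] using (((hasDerivAt_id z).sub_const ((t : ℂ) * I)).const_mul (k : ℂ)).csin
  have harg : ∀ u v : ℝ, (k : ℂ) * (u + v * I - t * I) = (k * u : ℝ) + (k * (v - t) : ℝ) * I :=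
    fun u v => by push_cast; ring
  have e1 : ∀ u v : ℝ, (h (u + v * I)).im = Real.cos (k * u) * Real.sinh (k * (v - t)) :=
    fun u v => by
      simp only [h, harg, sin_add_mul_I, ← ofReal_sin, ← ofReal_cos, ← ofReal_sinh, ← ofReal_cosh,
        ← ofReal_mul]
      simp only [add_im, mul_im, ofReal_re, ofReal_im, I_re, I_im]
      ring
  have e2 : ∀ u v : ℝ, h' (u + v * I) = (k * (Real.cos (k * u) * Real.cosh (k * (v - t))) : ℝ) -
      (k * (Real.sin (k * u) * Real.sinh (k * (v - t))) : ℝ) * I := fun u v => by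
    simp only [h', harg, cos_add_mul_I]
    push_cast
    ring
  have hcos : ∀ u ∈ Icc (-a) a, 0 ≤ Real.cos (k * u) := fun u hu =>
    Real.cos_nonneg_of_mem_Icc ⟨by nlinarith [hu.1], by nlinarith [hu.2]⟩
  have hsh : ∀ v ∈ Icc t y₀, 0 ≤ Real.sinh (k * (v - t)) := fun v hv =>
    Real.sinh_nonneg_iff.2 (mul_nonneg hk0.le (sub_nonneg.2 hv.1))
  have hex : ∀ v ∈ Icc t y₀, Real.exp (k * (v - t)) ≤ E := fun v hv => by
    rw [hE]; exact Real.exp_le_exp.2 (by nlinarith [hv.2, ht.1])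
  have G := gr_rect hU hf hε0 hh (by fun_prop) haa ht.2.le (fun u hu v hv => hs u hu v (hI v hv))
    fun u hu v hv => by rw [e1]; exact mul_nonneg (hcos u hu) (hsh v hv)
  obtain ⟨V, hV⟩ : ∃ V : ℝ → ℝ → ℝ, ∀ u v : ℝ,
      Real.log (‖f (u + v * I)‖ ^ 2 + ε ^ 2) = V u v := ⟨_, fun _ _ => rfl⟩
  have b1 : (∫ x : ℝ in (-a)..a, grPhi f h h' ε (x + t * I)) =
      I * (k * (∫ x in (-a)..a, Real.cos (k * x) * V x t) : ℝ) := by
    rw [← intervalIntegral.integral_const_mul, ← intervalIntegral.integral_ofReal,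
      ← intervalIntegral.integral_const_mul]
    congr 1
    funext x
    rw [grPhi, e1, e2, hV]
    simp
    ring
  have b2 : (∫ v : ℝ in t..y₀, grPhi f h h' ε (a + v * I)) =
      (∫ v in t..y₀, k * (Real.sinh (k * (v - t)) * V a v) : ℝ) := by
    rw [← intervalIntegral.integral_ofReal]
    congr 1
    funext x
    rw [grPhi, e1, e2, hV, hka, Real.cos_pi_div_two, Real.sin_pi_div_two]
    push_cast
    linear_combination (-(k : ℂ) * Complex.sinh (k * (x - t)) * V a x) * I_mul_I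
  have b3 : (∫ v : ℝ in t..y₀, grPhi f h h' ε ((-a : ℝ) + v * I)) =
      -(∫ v in t..y₀, k * (Real.sinh (k * (v - t)) * V (-a) v) : ℝ) := by
    rw [← intervalIntegral.integral_ofReal, ← intervalIntegral.integral_neg]
    congr 1
    funext x
    rw [grPhi, e1, e2, hV, mul_neg, hka, Real.cos_neg, Real.sin_neg, Real.cos_pi_div_two,
      Real.sin_pi_div_two]
    push_cast
    linear_combination ((k : ℂ) * Complex.sinh (k * (x - t)) * V (-a) x) * I_mul_I
  have side : ∀ u ∈ Icc (-a) a, ∫ v in t..y₀, k * (Real.sinh (k * (v - t)) * V u v) ≤ K * y₀ :=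
    fun u hu => by
      refine (gr_le ht.2.le hK0 fun v hv => ?_).trans (by nlinarith [ht.1])
      have hv0 := (hI v hv).1
      have l1 := gr_log hv0 hε (norm_nonneg _) (hg u hu v (hI v hv))
      rw [hV] at l1
      have l2 : Real.sinh (k * (v - t)) ≤ k * v * E :=
        (gr_sinh _).trans
          (mul_le_mul (by nlinarith [ht.1]) (hex v hv) (Real.exp_pos _).le (by positivity))
      rw [hK]
      refine mul_le_mul_of_nonneg_left (((mul_le_mul_of_nonneg_left l1 (hsh v hv)).trans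
        (mul_le_mul_of_nonneg_right l2 (by positivity))).trans ?_) hk0.le
      rw [show k * v * E * (2 * |C| / v + 1) = k * E * (2 * |C| + v) by field_simp]
      exact mul_le_mul_of_nonneg_left (by linarith [hv.2]) (by positivity)
  have top : ‖∫ x : ℝ in (-a)..a, grPhi f h h' ε (x + y₀ * I)‖ ≤ M * (2 * a) := by
    refine (intervalIntegral.norm_integral_le_of_norm_le_const (C := M) fun x hx => ?_).trans_eq
      (by rw [abs_of_nonneg (by linarith)]; ring)
    rw [uIoc_of_le haa] at hx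
    have hx' := Ioc_subset_Icc_self hx
    have hy' : y₀ ∈ Icc t y₀ := ⟨ht.2.le, le_rfl⟩
    obtain ⟨p1, p2⟩ := h0 x hx'
    have l1 := gr_log hy hε (norm_nonneg _) (hg x hx' y₀ ⟨hy, le_rfl⟩)
    have s0 := hsh _ hy'
    have s1 := hex _ hy'
    have s2 := Real.cosh_pos (k * (y₀ - t))
    have s3 := Real.cosh_add_sinh (k * (y₀ - t))
    have c0 := hcos x hx'
    have c1 := Real.cos_le_one (k * x)
    have c2 := Real.abs_sin_le_one (k * x)
    have l2 : 2 * Real.log c ≤ Real.log (‖f (x + y₀ * I)‖ ^ 2 + ε ^ 2) := by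
      rw [show 2 * Real.log c = Real.log (c ^ 2) by simp]
      exact Real.log_le_log (by positivity) (by nlinarith)
    have l3 : |Real.log (‖f (x + y₀ * I)‖ ^ 2 + ε ^ 2)| ≤ 2 * |Real.log c| + (2 * |C| / y₀ + 1) := by
      have : 0 ≤ 2 * |C| / y₀ := by positivity
      exact abs_le.2 ⟨by linarith [neg_abs_le (Real.log c)], by linarith [abs_nonneg (Real.log c)]⟩
    have l4 : ‖h' (x + y₀ * I)‖ ≤ k * E := by
      rw [e2]
      refine (norm_sub_le _ _).trans ?_
      rw [norm_mul, norm_I, mul_one, norm_real, norm_real, Real.norm_eq_abs, Real.norm_eq_abs,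
        abs_of_nonneg (by positivity), abs_mul, abs_mul, abs_of_pos hk0, abs_of_nonneg s0,
        ← mul_add]
      exact mul_le_mul_of_nonneg_left (by nlinarith) hk0.le
    have l5 : ‖deriv f (x + y₀ * I) * conj (f (x + y₀ * I)) /
        (‖f (x + y₀ * I)‖ ^ 2 + ε ^ 2 : ℝ)‖ ≤ |C| / c := by
      rw [norm_div, norm_mul, norm_conj, norm_real, Real.norm_eq_abs, abs_of_pos (by positivity),
        div_le_div_iff₀ (by positivity) hc]
      have q1 := p2.trans (le_abs_self C)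
      have q2 : ‖deriv f (x + y₀ * I)‖ * ‖f (x + y₀ * I)‖ * c ≤
          |C| * ‖f (x + y₀ * I)‖ * ‖f (x + y₀ * I)‖ := by gcongr
      nlinarith [abs_nonneg C, sq_nonneg ε]
    rw [grPhi, hM]
    refine (norm_add_le _ _).trans (add_le_add ?_ ?_)
    · rw [norm_mul, norm_mul, norm_real, e1, Real.norm_eq_abs, abs_of_nonneg (by positivity),
        Complex.norm_ofNat]
      exact mul_le_mul (by nlinarith) l5 (norm_nonneg _) (by positivity)
    · rw [norm_mul, norm_mul, norm_I, one_mul, norm_real, Real.norm_eq_abs]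
      exact mul_le_mul l3 l4 (norm_nonneg _) (by positivity)
  rw [b1, b2, b3] at G
  simp only [sub_im, add_im, mul_im, neg_re, neg_im, ofReal_re, ofReal_im, I_re, I_im] at G
  have t1 := (abs_le.1 ((abs_im_le_norm _).trans top)).1
  have t2 := side a ⟨haa, le_rfl⟩
  have t3 := side (-a) ⟨le_rfl, haa⟩
  have low : -((M * (2 * a) + 2 * (K * y₀)) / k) ≤ ∫ x in (-a)..a, Real.cos (k * x) * V x t := by
    rw [← neg_div, div_le_iff₀ hk0]
    linarith
  have cf : ContinuousOn (fun x : ℝ => f (x + t * I)) (Icc (-a) a) :=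
    hf.continuousOn.comp (by fun_prop) fun x hx => hs x hx t ⟨ht.1, ht.2.le⟩
  have cV : ContinuousOn (fun x => V x t) (Icc (-a) a) := by
    simp only [← hV]
    exact ContinuousOn.log ((cf.norm.pow 2).add continuousOn_const) fun x _ => by positivity
  have eL : ∀ x : ℝ, Real.log (1 + ‖f (x + t * I)‖ ^ 2 / ε ^ 2) = V x t + Real.log (1 / ε ^ 2) :=
    fun x => by
      rw [← hV, ← Real.log_mul (by positivity) (by positivity)]
      congr 1
      field_simp
      ring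
  have hL : 0 ≤ Real.log (1 / ε ^ 2) :=
    Real.log_nonneg (one_le_one_div (by positivity) (pow_le_one₀ hε0.le hε.2))
  have i1 : IntervalIntegrable (fun x => Real.cos (k * x) * V x t) volume (-a) a :=
    (ContinuousOn.mul (by fun_prop) cV).intervalIntegrable_of_Icc haa
  have i2 : IntervalIntegrable (fun x => Real.cos (k * x) * Real.log (1 / ε ^ 2)) volume (-a) a :=
    Continuous.intervalIntegrable (by fun_prop) _ _
  have i3 : a ≤ ∫ x in (-a)..a, Real.cos (k * x) := by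
    rw [intervalIntegral.integral_comp_mul_left _ hk0.ne', integral_cos, mul_neg, hka, Real.sin_neg,
      Real.sin_pi_div_two, smul_eq_mul, ← div_eq_inv_mul, le_div_iff₀ hk0]
    linarith [Real.pi_le_four]
  have m := intervalIntegral.integral_mono_on haa (i1.add i2)
    ((cV.add (continuousOn_const (c := Real.log (1 / ε ^ 2)))).intervalIntegrable_of_Icc haa)
    fun x hx => by
      have n0 : 0 ≤ V x t + Real.log (1 / ε ^ 2) := by
        rw [← eL]; exact Real.log_nonneg (le_add_of_nonneg_right (by positivity))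
      have := mul_le_mul_of_nonneg_right (Real.cos_le_one (k * x)) n0
      simp only [Pi.add_apply]
      linarith
  rw [intervalIntegral.integral_add i1 i2, intervalIntegral.integral_mul_const] at m
  simp only [eL]
  have := mul_le_mul_of_nonneg_right i3 hL
  simp only [Pi.add_apply] at m
  linarith

end Pool.Agent.Lib.MP_601e9e_an.Rg
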