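import Pool.Agent.Lib.MP_601e9e_an.Rg.Bv
import Pool.Agent.Lib.MP_601e9e_an.Rg.Green
import Pool.Agent.Lib.MP_601e9e_an.Rg.Ident

open Complex Filter Topology Set Metric MeasureTheory
open scoped ComplexConjugate ContDiff

namespace Pool.Agent.Lib.MP_601e9e_an.Rg

variable {m N k : ℕ} {r δ : ℝ} {F : Fin N → Zs m → ℂ}

theorem bu_vitali {α : Type*} [MeasurableSpace α] {μ : Measure α} [IsFiniteMeasure μ]
    {f h : ℕ → α → ℝ} (hf : ∀ n, Integrable (f n) μ) (hh : ∀ n, Integrable (h n) μ)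
    (h0 : ∀ n x, 0 ≤ f n x) (h1 : ∀ n, ∀ᵐ x ∂μ, f n x ^ 2 ≤ h n x) {C : ℝ}
    (h2 : ∀ n, ∫ x, h n x ∂μ ≤ C) (h3 : ∀ᵐ x ∂μ, Tendsto (fun n => f n x) atTop (𝓝 0)) {V : ℝ}
    (hV : 0 < V) : ∀ᶠ n in atTop, ∫ x, f n x ∂μ < V := by
  obtain ⟨T, T0, hT⟩ : ∃ T, 0 < T ∧ C / T ≤ V / 2 := ⟨2 * (|C| + 1) / V, by positivity, by
    rw [div_le_iff₀ (by positivity)]
    field_simp
    linarith [le_abs_self C]⟩
  have i : ∀ n, Integrable (fun x => min (f n x) T) μ := fun n => (hf n).inf (integrable_const T)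
  have t := tendsto_integral_of_dominated_convergence (μ := μ) (F := fun n x => min (f n x) T)
    (f := fun _ => 0) (fun _ => T) (fun n => (i n).1) (integrable_const T)
    (fun n => Eventually.of_forall fun x => by
      rw [Real.norm_of_nonneg (le_min (h0 n x) T0.le)]; exact min_le_right _ _)
    (h3.mono fun x hx => by simpa [T0.le] using hx.min (tendsto_const_nhds (x := T)))
  rw [integral_zero] at t
  filter_upwards [t.eventually (gt_mem_nhds (half_pos hV))] with n hn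
  calc _ ≤ ∫ x, (min (f n x) T + h n x / T) ∂μ := by
        refine integral_mono_ae (hf n) ((i n).add ((hh n).div_const T)) ((h1 n).mono fun x hx => ?_)
        have := div_le_div_of_nonneg_right hx T0.le
        have a : 0 ≤ f n x ^ 2 / T := by positivity
        rcases le_total (f n x) T with c | c
        · simp only [min_eq_left c]; linarith
        · have : f n x ≤ f n x ^ 2 / T := by rw [le_div_iff₀ T0]; nlinarith
          simp only [min_eq_right c]; linarith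
    _ < V := by
        rw [integral_add (i n) ((hh n).div_const T), integral_div]
        linarith [div_le_div_of_nonneg_right (h2 n) T0.le]

theorem bu_col (hF : Hyp m N k r F) (hδ : Sm m r δ) {ι : Type} [Fintype ι] (ξ : ι → Fin m → ℂ)
    (K : ℕ) : ∃ B : ℝ, 0 ≤ B ∧ ∀ p ∈ ball (0 : Xs m) δ, ∀ t ∈ Ioo 0 δ,
      ‖col F ξ K t p‖ ≤ B * Real.exp (K / t) := by
  obtain ⟨M, hM⟩ := hF.bnd
  choose C hC using fun x : Fin N × ι × Fin (K + 1) =>
    cj_growth hδ (hF.hol x.1) (fun Z hZ => hM x.1 0 (Nat.zero_le _) Z hZ) (ξ x.2.1) x.2.2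
  refine ⟨‖C‖, norm_nonneg _, fun p hp t ht => (pi_norm_le_iff_of_nonneg (by positivity)).2
    fun x => (hC x p hp t ht).trans ?_⟩
  have t0 := ht.1
  rw [div_eq_mul_inv]
  refine mul_le_mul ((le_abs_self _).trans (norm_le_pi_norm C x)) ?_ (by positivity) (norm_nonneg _)
  calc _ = t⁻¹ ^ (x.2.2 : ℕ) := (inv_pow _ _).symm
    _ ≤ Real.exp t⁻¹ ^ (x.2.2 : ℕ) := by gcongr; linarith [Real.add_one_le_exp t⁻¹]
    _ ≤ Real.exp t⁻¹ ^ K :=
        pow_le_pow_right₀ (Real.one_le_exp (by positivity)) (Nat.lt_succ_iff.1 x.2.2.2)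
    _ = _ := by rw [← Real.exp_nat_mul, div_eq_mul_inv]

theorem bu_exp {C B t δ s x : ℝ} {K e : ℕ} (hB : 0 ≤ B) (t0 : 0 < t) (t1 : t < δ) (s0 : 0 ≤ s)
    (hs : s ≤ B * Real.exp (K / t)) (hx : x ≤ C * (1 + s) ^ e) :
    x ≤ Real.exp ((|C| * (1 + B) ^ e * δ + e * K) / t) := by
  have a : 1 ≤ Real.exp (K / t) := Real.one_le_exp (by positivity)
  have b : |C| * (1 + B) ^ e ≤ Real.exp (|C| * (1 + B) ^ e * δ / t) := by
    have : |C| * (1 + B) ^ e ≤ |C| * (1 + B) ^ e * δ / t := by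
      rw [le_div_iff₀ t0]; gcongr
    linarith [Real.add_one_le_exp (|C| * (1 + B) ^ e * δ / t)]
  calc x ≤ |C| * ((1 + B) * Real.exp (K / t)) ^ e := by
        refine hx.trans (mul_le_mul (le_abs_self C) ?_ (by positivity) (abs_nonneg C))
        gcongr; linarith
    _ = |C| * (1 + B) ^ e * Real.exp (e * K / t) := by
        rw [mul_pow, ← Real.exp_nat_mul, mul_assoc, mul_div_assoc]
    _ ≤ _ := by rw [add_div, Real.exp_add]; gcongr

theorem bu_log {C ε s x : ℝ} {e : ℕ} (s0 : 0 ≤ s) (x0 : 0 ≤ x) (hx : x ≤ C * (1 + s) ^ e) :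
    Real.log (1 + x ^ 2 / ε ^ 2) ^ 2 ≤ 2 * (C ^ 2 / ε ^ 2 + 2 * e) ^ 2 * (1 + s ^ 2) := by
  have a : 1 ≤ ((1 + s) ^ e) ^ 2 := one_le_pow₀ (one_le_pow₀ (by linarith))
  have b : 1 + x ^ 2 / ε ^ 2 ≤ (1 + C ^ 2 / ε ^ 2) * ((1 + s) ^ e) ^ 2 := by
    have : x ^ 2 / ε ^ 2 ≤ (C * (1 + s) ^ e) ^ 2 / ε ^ 2 := by gcongr
    rw [mul_pow, mul_div_right_comm] at this
    linarith
  have c0 : 0 ≤ C ^ 2 / ε ^ 2 := by positivity
  have c := Real.log_le_log (by positivity) b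
  rw [Real.log_mul (by positivity) (by positivity), Real.log_pow, Real.log_pow] at c
  have d1 := Real.log_le_sub_one_of_pos (show 0 < 1 + C ^ 2 / ε ^ 2 by positivity)
  have d2 := mul_le_mul_of_nonneg_left (Real.log_le_sub_one_of_pos (show 0 < 1 + s by positivity))
    (Nat.cast_nonneg (α := ℝ) e)
  have l0 : 0 ≤ Real.log (1 + x ^ 2 / ε ^ 2) :=
    Real.log_nonneg (le_add_of_nonneg_right (by positivity))
  have e0 := Nat.cast_nonneg (α := ℝ) e
  have d : Real.log (1 + x ^ 2 / ε ^ 2) ≤ (C ^ 2 / ε ^ 2 + 2 * e) * (1 + s) := by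
    push_cast at c
    nlinarith [mul_nonneg c0 s0]
  refine (pow_le_pow_left₀ l0 d 2).trans ?_
  rw [mul_pow]
  nlinarith [mul_nonneg (sq_nonneg (C ^ 2 / ε ^ 2 + 2 * e)) (sq_nonneg (1 - s))]

theorem bu_pt (z : Fin m → ℂ) (u₀ u y : ℝ) :
    pt (z, u₀) 0 + ((u : ℂ) + (y : ℂ) * I) • ew m = pt (z, u₀ + u) y :=
  zs_ext (by simp [pt, ew]; ring) fun j => by simp [pt, ew]

theorem bu_fub {L : Xs m → ℝ} {p₀ : Xs m} {η : ℝ} (hη : 0 < η) (hL : IntegrableOn L (ball p₀ η))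
    (h : ∀ z ∈ ball p₀.1 η, 1 ≤ ∫ u in (-η)..η, L (z, p₀.2 + u)) :
    volume.real (ball p₀.1 η) ≤ ∫ p in ball p₀ η, L p := by
  obtain ⟨z₀, u₀⟩ := p₀
  rw [← ball_prod_same, Measure.volume_eq_prod] at hL ⊢
  rw [setIntegral_prod _ hL, ← one_mul (Measure.real _ _)]
  refine setIntegral_ge_of_const_le_real measurableSet_ball measure_ball_lt_top.ne (fun z hz => ?_)
    (Integrable.integral_prod_left (by rwa [Measure.prod_restrict]))
  refine (h z hz).trans (le_of_eq ?_)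
  rw [intervalIntegral.integral_comp_add_left (fun u => L (z, u)), Real.ball_eq_Ioo,
    intervalIntegral.integral_of_le (by linarith), integral_Ioc_eq_integral_Ioo, sub_eq_add_neg]

/-- Boundary uniqueness for polynomial expressions in the tangential jets. -/
theorem bu (hF : Hyp m N k r F) (hδ : Sm m r δ) {ι : Type} [Fintype ι] (ξ : ι → Fin m → ℂ)
    {K : ℕ} (hK : K ≤ 2 * k) {φ : Zs m × (Fin m → ℂ) → ℂ}
    (hφ : DifferentiableOn ℂ φ (Dom m r ×ˢ univ))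
    (hb : PB (fun x : ℝ × Xs m => ‖col F ξ K x.1 x.2‖) (Ioo 0 δ ×ˢ ball 0 δ)
      (fun x => φ (pt x.2 x.1, star x.2.1)))
    (hl : ∀ p ∈ ball (0 : Xs m) δ, ∀ A, Rel ξ K A → ∀ t : ℕ → ℝ, (∀ n, t n ∈ Ioo 0 δ) →
      Tendsto t atTop (𝓝 0) → Tendsto (fun n => col F ξ K (t n) p) atTop (𝓝 A) →
      Tendsto (fun n => φ (pt p (t n), star p.1)) atTop (𝓝 0)) :
    ∀ x ∈ Dom m r ×ˢ (univ : Set (Fin m → ℂ)), φ x = 0 := by
  have δ0 := hδ.1
  have hD : IsOpen (Dom m r ×ˢ (univ : Set (Fin m → ℂ))) := (isOpen_Dom r).prod isOpen_univ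
  suffices H : ∀ p ∈ ball (0 : Xs m) δ, ∀ t ∈ Ioo 0 δ, φ (pt p t, star p.1) = 0 by
    have c0 : Continuous (zc : Zs m → _) := continuous_pi fun j => continuous_apply _
    have c1 : Continuous fun Z : Zs m => ((zc Z, (Z none).re) : Xs m) := by fun_prop
    have c2 : Continuous fun Z : Zs m => (Z none).im - nsq (zc Z) :=
      Continuous.sub (by fun_prop) (continuous_nsq.comp c0)
    refine tr (isOpen_Dom r) (convex_Dom r) hφ
      ((isOpen_ball (x := 0) (ε := δ).preimage c1).inter ((isOpen_Ioo (a := 0) (b := δ)).preimage c2))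
      ⟨pt 0 (δ / 2), ⟨?_, ?_⟩, hδ.pt_mem (mem_ball_self δ0) ⟨by linarith, by linarith⟩⟩
      fun Z hZ => ?_
    · simpa [pt, Prod.mk_zero_zero] using δ0
    · simpa [pt] using δ0
    · have := H _ hZ.1.1 _ hZ.1.2
      rwa [show pt (zc Z, (Z none).re) ((Z none).im - nsq (zc Z)) = Z from
        zs_ext (by simp [pt, mul_comm I]) fun _ => rfl] at this
  intro p₀ hp₀ y₀ hy₀
  by_contra h0
  have cg : ∀ {g : Zs m × (Fin m → ℂ) → ℂ}, DifferentiableOn ℂ g (Dom m r ×ˢ univ) →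
      ∀ t ∈ Ioo 0 δ, ContinuousOn (fun p : Xs m => g (pt p t, star p.1)) (ball 0 δ) :=
    fun hg t ht => hg.continuousOn.comp
      (((continuous_pt.comp (continuous_id.prodMk continuous_const)).prodMk
        (by fun_prop)).continuousOn) fun p hp => ⟨hδ.pt_mem hp ht, trivial⟩
  have n0 := isOpen_ball.mem_nhds hp₀
  have c0 : 0 < ‖φ (pt p₀ y₀, star p₀.1)‖ := norm_pos_iff.2 h0
  obtain ⟨η, η0, hη⟩ := nhds_basis_closedBall.eventually_iff.1
    (Eventually.and (p := fun p => p ∈ ball (0 : Xs m) δ) n0 (((((cg hφ y₀ hy₀).continuousAt n0).norm.eventually (lt_mem_nhds (half_lt_self c0))).and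
    (((cg (hol_dd hD hφ (ew m, 0)) y₀ hy₀).continuousAt n0).norm.eventually
      (gt_mem_nhds (lt_add_one _))))))
  obtain ⟨C, e, hC⟩ := hb
  obtain ⟨B, B0, hB⟩ := bu_col hF hδ ξ K
  obtain ⟨C₅, hG⟩ := green (C := max (|C| * (1 + B) ^ e * δ + e * K)
    (‖dd (ew m, 0) φ (pt p₀ y₀, star p₀.1)‖ + 1)) η0 hy₀.1 (half_pos c0)
  obtain ⟨ε, hε, hε'⟩ : ∃ ε ∈ Ioc (0 : ℝ) 1, 1 ≤ η * Real.log (1 / ε ^ 2) - C₅ := by
    refine ⟨Real.exp (-((|C₅| + 1) / (2 * η))), ⟨Real.exp_pos _,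
      Real.exp_le_one_iff.2 (neg_nonpos.2 (by positivity))⟩, ?_⟩
    rw [one_div, Real.log_inv, Real.log_pow, Real.log_exp]
    have : η * -((2 : ℕ) * -((|C₅| + 1) / (2 * η))) = |C₅| + 1 := by push_cast; field_simp
    linarith [le_abs_self C₅]
  have sub : closedBall p₀ η ⊆ ball 0 δ := fun p hp => (hη hp).1
  have io : ∀ {L : Xs m → ℝ}, ContinuousOn L (ball 0 δ) → IntegrableOn L (ball p₀ η) := fun hL =>
    ((hL.mono sub).integrableOn_compact (isCompact_closedBall _ _)).mono_set ball_subset_closedBall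
  have iL : ∀ t ∈ Ioo 0 δ, IntegrableOn
      (fun p : Xs m => Real.log (1 + ‖φ (pt p t, star p.1)‖ ^ 2 / ε ^ 2)) (ball p₀ η) :=
    fun t ht => io ((continuousOn_const.add (((cg hφ t ht).norm.pow 2).div_const _)).log
      fun p _ => (add_pos_of_pos_of_nonneg one_pos (div_nonneg (sq_nonneg _) (sq_nonneg _))).ne')
  have low : ∀ t ∈ Ioo 0 y₀, volume.real (ball p₀.1 η) ≤
      ∫ p in ball p₀ η, Real.log (1 + ‖φ (pt p t, star p.1)‖ ^ 2 / ε ^ 2) := by
    intro t ht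
    refine bu_fub η0 (iL t ⟨ht.1, ht.2.trans hy₀.2⟩) fun z hz => hε'.trans ?_
    have mem : ∀ u ∈ Icc (-η) η, ((z, p₀.2 + u) : Xs m) ∈ closedBall p₀ η := fun u hu => by
      rw [mem_closedBall, Prod.dist_eq]
      exact max_le (le_of_lt hz) (by simpa using abs_le.2 hu)
    have dl : ∀ s : ℂ, HasDerivAt (fun s : ℂ => ((pt (z, p₀.2) 0 + s • ew m, star z) :
        Zs m × (Fin m → ℂ))) (ew m, 0) s := fun s => by
      simpa using (((hasDerivAt_id s).smul_const (ew m)).const_add (pt (z, p₀.2) 0)).prodMk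
        (hasDerivAt_const s (star z))
    have df : ∀ s : ℂ, pt (z, p₀.2) 0 + s • ew m ∈ Dom m r →
        HasDerivAt (fun s : ℂ => φ (pt (z, p₀.2) 0 + s • ew m, star z))
          (dd (ew m, 0) φ (pt (z, p₀.2) 0 + s • ew m, star z)) s := fun s hs =>
      HasFDerivAt.comp_hasDerivAt (l := φ) s
        (hφ.differentiableAt (hD.mem_nhds (mk_mem_prod hs trivial))).hasFDerivAt (dl s)
    have yI : ∀ y ∈ Ioc 0 y₀, y ∈ Ioo 0 δ := fun y hy => ⟨hy.1, hy.2.trans_lt hy₀.2⟩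
    have inU : ∀ u ∈ Icc (-η) η, ∀ y ∈ Ioc 0 y₀,
        pt (z, p₀.2) 0 + ((u : ℂ) + (y : ℂ) * I) • ew m ∈ Dom m r := fun u hu y hy => by
      rw [bu_pt]; exact hδ.pt_mem (sub (mem u hu)) (yI y hy)
    have := hG (fun s => φ (pt (z, p₀.2) 0 + s • ew m, star z))
      {s | pt (z, p₀.2) 0 + s • ew m ∈ Dom m r} ((isOpen_Dom r).preimage (by fun_prop))
      (fun s hs => (df s hs).differentiableAt.differentiableWithinAt) inU
      (fun u hu y hy => by
        rw [bu_pt]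
        refine (bu_exp B0 hy.1 (yI y hy).2 (norm_nonneg _) (hB _ (sub (mem u hu)) y (yI y hy))
          (hC (y, (z, p₀.2 + u)) ⟨yI y hy, sub (mem u hu)⟩)).trans ?_
        have := hy.1
        gcongr
        exact le_max_left _ _)
      (fun u hu => by
        rw [(df _ (inU u hu y₀ ⟨hy₀.1, le_rfl⟩)).deriv, bu_pt]
        exact ⟨(hη (mem u hu)).2.1.le, (hη (mem u hu)).2.2.le.trans (le_max_right _ _)⟩)
      t ht ε hε
    simpa only [bu_pt] using this
  obtain ⟨t, t1, t2, ⟨C', t3⟩, t4⟩ := bv hF hδ ξ hK sub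
  have fin : IsFiniteMeasure (volume.restrict (ball p₀ η)) :=
    isFiniteMeasure_restrict.2 measure_ball_lt_top.ne
  have ic : ∀ n, IntegrableOn (fun p => ‖col F ξ K (t n) p‖ ^ 2) (ball p₀ η) := fun n => by
    have : ContinuousOn (col F ξ K (t n)) (ball 0 δ) := continuousOn_pi.2 fun x =>
      (contDiffOn_cj hδ (hF.hol x.1) (ξ x.2.1) x.2.2 (t1 n)).continuousOn
    exact io (this.norm.pow 2)
  have ae := ae_restrict_mem (μ := volume) (measurableSet_ball (x := p₀) (ε := η))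
  have up := bu_vitali (μ := volume.restrict (ball p₀ η))
    (f := fun n p => Real.log (1 + ‖φ (pt p (t n), star p.1)‖ ^ 2 / ε ^ 2)) (fun n => iL _ (t1 n))
    (h := fun n p => 2 * (C ^ 2 / ε ^ 2 + 2 * e) ^ 2 * (1 + ‖col F ξ K (t n) p‖ ^ 2))
    (fun n => ((integrable_const 1).add (ic n)).const_mul _)
    (fun n p => Real.log_nonneg (le_add_of_nonneg_right (by positivity)))
    (fun n => ae.mono fun p hp => bu_log (norm_nonneg _) (norm_nonneg _)
      (hC (t n, p) ⟨t1 n, sub (ball_subset_closedBall hp)⟩))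
    (C := 2 * (C ^ 2 / ε ^ 2 + 2 * e) ^ 2 * ((∫ _ in ball p₀ η, (1 : ℝ)) + C'))
    (fun n => by
      rw [integral_const_mul, integral_add (integrable_const 1) (ic n)]
      gcongr
      exact t3 n)
    (by
      filter_upwards [t4, ae] with p ⟨A, hA, hp⟩ hp'
      simpa using (((((hl p (sub (ball_subset_closedBall hp')) A hA t t1 t2 hp).norm.pow
        2).div_const (ε ^ 2)).const_add 1).log (by simp)))
    (V := volume.real (ball p₀.1 η))
    (ENNReal.toReal_pos (measure_ball_pos _ _ η0).ne' measure_ball_lt_top.ne)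
  obtain ⟨n, h1, h2⟩ := (up.and (t2.eventually (gt_mem_nhds hy₀.1))).exists
  exact absurd (low _ ⟨(t1 n).1, h2⟩) (not_le.2 h1)

theorem bu_of_hyp (hF : Hyp m N k r F) {K : ℕ} (hK : K ≤ 2 * k) : BU m N K r F :=
  fun _ hδ _ _ ξ _ hφ hb hl => bu hF hδ ξ hK hφ hb hl

end Pool.Agent.Lib.MP_601e9e_an.Rg
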