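import Pool.Agent.Lib.MP_601e9e_an.Rg.L2

open Complex Filter Topology Set Metric MeasureTheory
open scoped ComplexConjugate ContDiff

namespace Pool.Agent.Lib.MP_601e9e_an.Rg

section abstract

variable {X V : Type*} [MeasurableSpace X] {μ : Measure X} [NormedAddCommGroup V]

theorem bv_norm_sq (u : Lp V 2 μ) : ‖u‖ ^ 2 = ∫ x, ‖u x‖ ^ 2 ∂μ := by
  have h := (Lp.memLp u).eLpNorm_eq_integral_rpow_norm two_ne_zero ENNReal.ofNat_ne_top
  have h0 : 0 ≤ ∫ x, ‖u x‖ ^ 2 ∂μ := integral_nonneg fun x => by positivity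
  simp only [ENNReal.toReal_ofNat, Real.rpow_two] at h
  rw [Lp.norm_def, h, ENNReal.toReal_ofReal (Real.rpow_nonneg h0 _), ← Real.rpow_natCast,
    ← Real.rpow_mul h0]
  norm_num

theorem bv_lim [CompleteSpace V] {f : ℕ → X → V} (hf : ∀ n, MemLp (f n) 2 μ)
    (hc : Tendsto (fun x : ℕ × ℕ => ∫ p, ‖f x.1 p - f x.2 p‖ ^ 2 ∂μ) (atTop ×ˢ atTop) (𝓝 0)) :
    ∃ g : X → V, MemLp g 2 μ ∧ Tendsto (fun n => ∫ p, ‖f n p - g p‖ ^ 2 ∂μ) atTop (𝓝 0) ∧
      (∃ C : ℝ, ∀ n, ∫ p, ‖f n p‖ ^ 2 ∂μ ≤ C) ∧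
      ∃ ns : ℕ → ℕ, StrictMono ns ∧ ∀ᵐ p ∂μ, Tendsto (fun i => f (ns i) p) atTop (𝓝 (g p)) := by
  obtain ⟨u, hu⟩ : ∃ u : ℕ → Lp V 2 μ, ∀ n, u n =ᵐ[μ] f n :=
    ⟨fun n => (hf n).toLp (f n), fun n => (hf n).coeFn_toLp⟩
  have h1 : ∀ n m, ‖u n - u m‖ ^ 2 = ∫ p, ‖f n p - f m p‖ ^ 2 ∂μ := by
    intro n m
    rw [bv_norm_sq]
    refine integral_congr_ae ?_
    filter_upwards [Lp.coeFn_sub (u n) (u m), hu n, hu m] with p a b c
    rw [a, Pi.sub_apply, b, c]
  have hcau : CauchySeq u := by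
    rw [cauchySeq_iff_tendsto_dist_atTop_0, ← prod_atTop_atTop_eq]
    have h2 := hc.sqrt
    rw [Real.sqrt_zero] at h2
    refine h2.congr fun x => ?_
    rw [← h1, Real.sqrt_sq (norm_nonneg _), dist_eq_norm]
  obtain ⟨U, hU⟩ := cauchySeq_tendsto_of_complete hcau
  refine ⟨U, Lp.memLp U, ?_, ?_, ?_⟩
  · have h2 := (tendsto_iff_norm_sub_tendsto_zero.1 hU).pow 2
    rw [zero_pow two_ne_zero] at h2
    refine h2.congr fun n => ?_
    rw [bv_norm_sq]
    refine integral_congr_ae ?_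
    filter_upwards [Lp.coeFn_sub (u n) U, hu n] with p a b
    rw [a, Pi.sub_apply, b]
  · obtain ⟨C, hC⟩ := (hU.norm.pow 2).bddAbove_range
    refine ⟨C, fun n => ?_⟩
    have h2 : ‖u n‖ ^ 2 ≤ C := hC (mem_range_self n)
    rw [bv_norm_sq] at h2
    refine le_of_eq_of_le (integral_congr_ae ?_) h2
    filter_upwards [hu n] with p b
    rw [b]
  · obtain ⟨ns, hns, h⟩ := (tendstoInMeasure_of_tendsto_Lp hU).exists_seq_tendsto_ae
    refine ⟨ns, hns, ?_⟩
    filter_upwards [h, ae_all_iff.2 hu] with p a b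
    exact a.congr fun i => b (ns i)

theorem bv_eps {a b : ℕ → ℝ} {L D : ℝ} (ha : Tendsto a atTop (𝓝 0)) (hb0 : ∀ n, 0 ≤ b n)
    (hb : ∀ ε > 0, ∀ n, b n ≤ L * (a n / ε + ε * D)) : Tendsto b atTop (𝓝 0) := by
  refine tendsto_order.2 ⟨fun c hc => Eventually.of_forall fun n => hc.trans_le (hb0 n),
    fun c hc => ?_⟩
  have h1 : Tendsto (fun ε : ℝ => L * (ε * D)) (𝓝[>] 0) (𝓝 0) := by
    have : Continuous (fun ε : ℝ => L * (ε * D)) := by fun_prop
    have h := this.tendsto 0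
    simp only [zero_mul, mul_zero] at h
    exact h.mono_left nhdsWithin_le_nhds
  obtain ⟨ε, hε, hε0⟩ := ((h1.eventually (gt_mem_nhds hc)).and self_mem_nhdsWithin).exists
  have h2 : Tendsto (fun n => L * (a n / ε + ε * D)) atTop (𝓝 (L * (0 / ε + ε * D))) :=
    ((ha.div_const ε).add_const _).const_mul L
  rw [zero_div, zero_add] at h2
  filter_upwards [h2.eventually (gt_mem_nhds hε)] with n hn
  exact (hb ε hε0 n).trans_lt hn

theorem bv_int {g : X → V} (hg : MemLp g 2 μ) {Q : V → ℂ} (hQ : Continuous Q) {L : ℝ}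
    (hL : ∀ v w, ‖Q v - Q w‖ ≤ L * (‖v - w‖ * (‖v‖ + ‖w‖))) (hQ0 : Q 0 = 0) :
    Integrable (fun p => Q (g p)) μ := by
  have h1 := ((memLp_two_iff_integrable_sq_norm hg.1).1 hg).const_mul L
  refine h1.mono' (hQ.comp_aestronglyMeasurable hg.1) (Eventually.of_forall fun p => ?_)
  have := hL (g p) 0
  rw [hQ0, sub_zero, sub_zero, norm_zero, add_zero] at this
  rw [sq]
  exact this

theorem bv_pair {f : ℕ → X → V} {g : X → V} (hf : ∀ n, MemLp (f n) 2 μ) (hg : MemLp g 2 μ)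
    (h : Tendsto (fun n => ∫ p, ‖f n p - g p‖ ^ 2 ∂μ) atTop (𝓝 0)) {C : ℝ}
    (hC : ∀ n, ∫ p, ‖f n p‖ ^ 2 ∂μ ≤ C) {Q : V → ℂ} (hQ : Continuous Q) {L : ℝ} (hL0 : 0 ≤ L)
    (hL : ∀ v w, ‖Q v - Q w‖ ≤ L * (‖v - w‖ * (‖v‖ + ‖w‖))) (hQ0 : Q 0 = 0)
    {ψ : X → ℝ} (hψ : AEStronglyMeasurable ψ μ) {M : ℝ} (hM : ∀ x, ‖ψ x‖ ≤ M) :
    Tendsto (fun n => ∫ p, ψ p • Q (f n p) ∂μ) atTop (𝓝 (∫ p, ψ p • Q (g p) ∂μ)) := by
  have hi : ∀ {u : X → V}, MemLp u 2 μ → Integrable (fun p => ψ p • Q (u p)) μ := by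
    intro u hu
    have h1 := bv_int hu hQ hL hQ0
    refine (h1.norm.const_mul M).mono' (hψ.smul h1.1) (Eventually.of_forall fun p => ?_)
    rw [norm_smul]
    exact mul_le_mul_of_nonneg_right (hM p) (norm_nonneg _)
  have hs : ∀ {u : X → V}, MemLp u 2 μ → Integrable (fun p => ‖u p‖ ^ 2) μ :=
    fun hu => (memLp_two_iff_integrable_sq_norm hu.1).1 hu
  rw [tendsto_iff_norm_sub_tendsto_zero]
  refine bv_eps (L := |M| * L) (D := 2 * C + 2 * ∫ p, ‖g p‖ ^ 2 ∂μ) h (fun n => norm_nonneg _)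
    fun ε hε n => ?_
  have hd : Integrable (fun p => ‖f n p - g p‖ ^ 2) μ := hs ((hf n).sub hg)
  have hb : Integrable (fun p => (|M| * L) *
      (‖f n p - g p‖ ^ 2 / ε + ε * (2 * ‖f n p‖ ^ 2 + 2 * ‖g p‖ ^ 2))) μ :=
    ((hd.div_const ε).add ((((hs (hf n)).const_mul 2).add ((hs hg).const_mul 2)).const_mul
      ε)).const_mul _
  rw [← integral_sub (hi (hf n)) (hi hg)]
  refine (norm_integral_le_of_norm_le hb (Eventually.of_forall fun p => ?_)).trans ?_
  · rw [← smul_sub, norm_smul, mul_assoc]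
    refine mul_le_mul ((hM p).trans (le_abs_self M)) ((hL _ _).trans ?_) (norm_nonneg _)
      (abs_nonneg _)
    refine mul_le_mul_of_nonneg_left ?_ hL0
    generalize ‖f n p - g p‖ = x
    generalize ‖f n p‖ = y
    generalize ‖g p‖ = z
    have e : x ^ 2 / ε + ε * (2 * y ^ 2 + 2 * z ^ 2) - x * (y + z) =
        (x - ε * (y + z) / 2) ^ 2 / ε + ε * ((y - z) ^ 2 + 3 / 4 * (y + z) ^ 2) := by
      field_simp
      ring
    have : 0 ≤ (x - ε * (y + z) / 2) ^ 2 / ε + ε * ((y - z) ^ 2 + 3 / 4 * (y + z) ^ 2) := by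
      positivity
    linarith
  · have hb2 : Integrable (fun p => ε * (2 * ‖f n p‖ ^ 2 + 2 * ‖g p‖ ^ 2)) μ :=
      (((hs (hf n)).const_mul 2).add ((hs hg).const_mul 2)).const_mul ε
    rw [integral_const_mul, integral_add (hd.div_const ε) hb2, integral_div,
      integral_const_mul, integral_add ((hs (hf n)).const_mul 2) ((hs hg).const_mul 2),
      integral_const_mul, integral_const_mul]
    have := hC n
    gcongr

end abstract

theorem bv_pi_sq {J : Type*} [Fintype J] (v : J → ℂ) : ‖v‖ ^ 2 ≤ ∑ x, ‖v x‖ ^ 2 := by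
  have h0 : 0 ≤ ∑ x, ‖v x‖ ^ 2 := Finset.sum_nonneg fun _ _ => sq_nonneg _
  have h1 : ‖v‖ ≤ Real.sqrt (∑ x, ‖v x‖ ^ 2) :=
    (pi_norm_le_iff_of_nonneg (Real.sqrt_nonneg _)).2 fun x => Real.le_sqrt_of_sq_le
      (Finset.single_le_sum (f := fun x => ‖v x‖ ^ 2) (fun _ _ => sq_nonneg _)
        (Finset.mem_univ x))
  calc ‖v‖ ^ 2 ≤ Real.sqrt (∑ x, ‖v x‖ ^ 2) ^ 2 := by gcongr
    _ = _ := Real.sq_sqrt h0

theorem bv_form {N : ℕ} {J : Type*} [Fintype J] (y y' : J) (v w : Fin N × J → ℂ) :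
    ‖∑ a, v (a, y) * conj (v (a, y')) - ∑ a, w (a, y) * conj (w (a, y'))‖ ≤
      N * (‖v - w‖ * (‖v‖ + ‖w‖)) := by
  rw [← Finset.sum_sub_distrib]
  refine (norm_sum_le _ _).trans ?_
  have h : ∀ a ∈ (Finset.univ : Finset (Fin N)),
      ‖v (a, y) * conj (v (a, y')) - w (a, y) * conj (w (a, y'))‖ ≤ ‖v - w‖ * (‖v‖ + ‖w‖) := by
    intro a _
    have e : v (a, y) * conj (v (a, y')) - w (a, y) * conj (w (a, y')) =
        (v - w) (a, y) * conj (v (a, y')) + conj ((v - w) (a, y')) * w (a, y) := by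
      simp only [Pi.sub_apply, map_sub]
      ring
    rw [e, mul_add]
    refine (norm_add_le _ _).trans (add_le_add ?_ ?_)
    · rw [norm_mul, RCLike.norm_conj]
      exact mul_le_mul (norm_le_pi_norm _ _) (norm_le_pi_norm _ _) (norm_nonneg _) (norm_nonneg _)
    · rw [norm_mul, RCLike.norm_conj]
      exact mul_le_mul (norm_le_pi_norm _ _) (norm_le_pi_norm _ _) (norm_nonneg _) (norm_nonneg _)
  refine (Finset.sum_le_sum h).trans (le_of_eq ?_)
  simp

variable {m N k : ℕ} {r δ : ℝ} {F : Fin N → Zs m → ℂ}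

/-- Boundary values of the tangential jets. -/
theorem bv (hF : Hyp m N k r F) (hδ : Sm m r δ) {ι : Type} [Fintype ι] (ξ : ι → Fin m → ℂ)
    {K : ℕ} (hK : K ≤ 2 * k) {p₀ : Xs m} {η : ℝ} (hη : closedBall p₀ η ⊆ ball 0 δ) :
    ∃ t : ℕ → ℝ, (∀ n, t n ∈ Ioo 0 δ) ∧ Tendsto t atTop (𝓝 0) ∧
      (∃ C : ℝ, ∀ n, ∫ p in ball p₀ η, ‖col F ξ K (t n) p‖ ^ 2 ≤ C) ∧
      ∀ᵐ p ∂(volume.restrict (ball p₀ η)),
        ∃ A, Rel ξ K A ∧ Tendsto (fun n => col F ξ K (t n) p) atTop (𝓝 A) := by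
  obtain ⟨t, -, ht, ht0⟩ := exists_seq_strictAnti_tendsto' hδ.1
  have ht1 : Tendsto t atTop (𝓝[>] 0) :=
    tendsto_nhdsWithin_iff.2 ⟨ht0, Eventually.of_forall fun n => (ht n).1⟩
  have hS : IsCompact (closedBall p₀ η) := isCompact_closedBall p₀ η
  have : IsFiniteMeasure ((volume : Measure (Xs m)).restrict (closedBall p₀ η)) :=
    isFiniteMeasure_restrict.2 hS.measure_lt_top.ne
  have hco : ∀ n x, ContinuousOn (fun p => col F ξ K (t n) p x) (closedBall p₀ η) := fun n x =>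
    (contDiffOn_cj hδ (hF.hol x.1) (ξ x.2.1) x.2.2 (ht n)).continuousOn.mono hη
  have hc : ∀ n, ContinuousOn (col F ξ K (t n)) (closedBall p₀ η) := fun n =>
    continuousOn_pi.2 (hco n)
  have hf : ∀ n, MemLp (col F ξ K (t n)) 2 (volume.restrict (closedBall p₀ η)) := by
    intro n
    obtain ⟨C, hC⟩ := hS.exists_bound_of_continuousOn (hc n)
    exact MemLp.of_bound ((hc n).aestronglyMeasurable hS.measurableSet) C
      ((ae_restrict_mem hS.measurableSet).mono hC)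
  have hcau : Tendsto (fun x : ℕ × ℕ => ∫ p in closedBall p₀ η,
      ‖col F ξ K (t x.1) p - col F ξ K (t x.2) p‖ ^ 2) (atTop ×ˢ atTop) (𝓝 0) := by
    have h1 : ∀ y : Fin N × ι × Fin (K + 1), Tendsto (fun x : ℕ × ℕ => ∫ p in closedBall p₀ η,
        ‖col F ξ K (t x.1) p y - col F ξ K (t x.2) p y‖ ^ 2) (atTop ×ˢ atTop) (𝓝 0) := by
      intro y
      have hy : (y.2.2 : ℕ) + 2 * 0 ≤ 2 * k := by
        have := y.2.2.2
        omega
      have h := (small_cj hF hδ (ξ y.2.1) y.1 y.2.2 0 hy _ hS hη).comp (ht1.prodMap ht1)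
      refine h.congr fun x => ?_
      simp only [Function.comp_apply, Prod.map_fst, Prod.map_snd, Function.iterate_zero, id_eq, col]
    have h2 := tendsto_finsetSum (Finset.univ : Finset (Fin N × ι × Fin (K + 1)))
      fun y _ => h1 y
    rw [Finset.sum_const_zero] at h2
    refine squeeze_zero (fun x => integral_nonneg fun p => sq_nonneg _) (fun x => ?_) h2
    have hi : ∀ y : Fin N × ι × Fin (K + 1), IntegrableOn
        (fun p => ‖col F ξ K (t x.1) p y - col F ξ K (t x.2) p y‖ ^ 2) (closedBall p₀ η) :=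
      fun y => (((hco x.1 y).sub (hco x.2 y)).norm.pow 2).integrableOn_compact hS
    rw [← integral_finsetSum _ fun y _ => hi y]
    refine integral_mono ((((hc x.1).sub (hc x.2)).norm.pow 2).integrableOn_compact hS)
      (integrable_finsetSum _ fun y _ => hi y) fun p => ?_
    exact bv_pi_sq _
  obtain ⟨g, hg, hlim, ⟨C, hC⟩, ns, hns, hae⟩ := bv_lim hf hcau
  have hweak : ∀ y y' : ι × Fin (K + 1), (∀ ψ : Xs m → ℂ, Tst (ball 0 δ) ψ →
      Tendsto (fun s => ∫ p, ψ p *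
        ∑ a, col F ξ K s p (a, y) * conj (col F ξ K s p (a, y'))) (𝓝[>] 0) (𝓝 0)) →
      ∀ᵐ p ∂(volume.restrict (closedBall p₀ η)), p ∈ ball p₀ η →
        ∑ a, g p (a, y) * conj (g p (a, y')) = 0 := by
    intro y y' hy
    have hQ : Continuous (fun v : Fin N × ι × Fin (K + 1) → ℂ =>
        ∑ a, v (a, y) * conj (v (a, y'))) := by fun_prop
    have hQ0 : (fun v : Fin N × ι × Fin (K + 1) → ℂ => ∑ a, v (a, y) * conj (v (a, y'))) 0 = 0 := by
      simp
    refine isOpen_ball.ae_eq_zero_of_integral_contDiff_smul_eq_zero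
      ((bv_int hg hQ (bv_form y y') hQ0).locallyIntegrable.locallyIntegrableOn _)
      fun ψ hψ hψc hψs => ?_
    obtain ⟨M, hM⟩ := hψ.continuous.bounded_above_of_compact_support hψc
    have h1 := bv_pair hf hg hlim hC hQ (Nat.cast_nonneg N) (bv_form y y') hQ0
      hψ.continuous.aestronglyMeasurable hM
    have hT : Tst (ball 0 δ) (fun p => (ψ p : ℂ)) := by
      refine ⟨Complex.ofRealCLM.contDiff.comp hψ, hψc.comp_left Complex.ofReal_zero, ?_⟩
      refine (closure_mono (Function.support_comp_subset Complex.ofReal_zero ψ)).trans ?_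
      exact hψs.trans (ball_subset_closedBall.trans hη)
    have h2 := (hy _ hT).comp ht1
    refine tendsto_nhds_unique h1 (h2.congr fun n => ?_)
    rw [setIntegral_eq_integral_of_forall_compl_eq_zero]
    · simp only [Function.comp_apply, Complex.real_smul]
    · intro p hp
      rw [image_eq_zero_of_notMem_tsupport fun h => hp (ball_subset_closedBall (hψs h)), zero_smul]
  have h2 : ∀ (i i' : ι) (j : Fin (K + 1)), ∀ᵐ p ∂(volume.restrict (closedBall p₀ η)),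
      p ∈ ball p₀ η → j ≠ 0 → ∑ a, g p (a, i, j) * conj (g p (a, i', 0)) = 0 := by
    intro i i' j
    by_cases hj : j = 0
    · exact Eventually.of_forall fun p _ h => absurd hj h
    have hj' : ¬ ((j : ℕ) = 0 ∧ 0 = 0) := fun h => hj (Fin.ext h.1)
    have := hweak (i, j) (i', 0) fun ψ hψ => by
      have h := weak_rel hF hδ (ξ i) 0 (by simp [bil]) j 0 hψ
      rw [if_neg hj'] at h
      simp only [sub_zero] at h
      refine h.congr fun s => ?_
      simp only [col, cj, Fin.val_zero, jet_zero]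
    filter_upwards [this] with p hp h _
    exact hp h
  have h3 : ∀ (i i' : ι) (j j' : Fin (K + 1)), ∀ᵐ p ∂(volume.restrict (closedBall p₀ η)),
      p ∈ ball p₀ η → bil (ξ i) (star (ξ i')) = 0 → j ≠ 0 → j' ≠ 0 →
        ∑ a, g p (a, i, j) * conj (g p (a, i', j')) = 0 := by
    intro i i' j j'
    by_cases hj : j = 0
    · exact Eventually.of_forall fun p _ _ h => absurd hj h
    by_cases hb : bil (ξ i) (star (ξ i')) = 0
    swap
    · exact Eventually.of_forall fun p _ h => absurd h hb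
    have hj' : ¬ ((j : ℕ) = 0 ∧ (j' : ℕ) = 0) := fun h => hj (Fin.ext h.1)
    have := hweak (i, j) (i', j') fun ψ hψ => by
      have h := weak_rel hF hδ (ξ i) (ξ i') hb j j' hψ
      simp only [if_neg hj', sub_zero] at h
      exact h
    filter_upwards [this] with p hp h _ _ _
    exact hp h
  refine ⟨fun n => t (ns n), fun n => ht _, ht0.comp hns.tendsto_atTop, ⟨C, fun n => ?_⟩, ?_⟩
  · refine le_trans (setIntegral_mono_set (((hc (ns n)).norm.pow 2).integrableOn_compact hS)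
      (Eventually.of_forall fun p => sq_nonneg _) ball_subset_closedBall.eventuallyLE) (hC _)
  · have h2' := ae_all_iff.2 fun i => ae_all_iff.2 fun i' => ae_all_iff.2 fun j => h2 i i' j
    have h3' := ae_all_iff.2 fun i => ae_all_iff.2 fun i' => ae_all_iff.2 fun j =>
      ae_all_iff.2 fun j' => h3 i i' j j'
    filter_upwards [ae_restrict_mem measurableSet_ball,
      ae_restrict_of_ae_restrict_of_subset ball_subset_closedBall hae,
      ae_restrict_of_ae_restrict_of_subset ball_subset_closedBall h2',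
      ae_restrict_of_ae_restrict_of_subset ball_subset_closedBall h3'] with p hp a b c
    refine ⟨g p, ⟨fun i => ?_, fun i i' j => b i i' j hp, fun i i' j j' => c i i' j j' hp⟩, a⟩
    have hp' : ‖p‖ ≤ δ := (mem_ball_zero_iff.1 (hη (ball_subset_closedBall hp))).le
    have hr : ‖pt p 0‖ < r := by
      have := hδ.2 p hp' 0 (by rw [abs_zero]; exact hδ.1.le)
      have := hF.rpos
      linarith
    have e1 := (hF.bdry p hr).comp (ht1.comp hns.tendsto_atTop)
    have hQ : Continuous (fun v : Fin N × ι × Fin (K + 1) → ℂ => ∑ a, ‖v (a, i, 0)‖ ^ 2) := by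
      fun_prop
    exact tendsto_nhds_unique ((hQ.tendsto _).comp a) e1

end Pool.Agent.Lib.MP_601e9e_an.Rg
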