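import Pool.Agent.Lib.MP_601e9e_an.Rg.Bu
import Pool.Agent.Lib.MP_601e9e_an.Rg.Poly

open Complex Filter Topology Set Metric MeasureTheory
open scoped ComplexConjugate ContDiff

namespace Pool.Agent.Lib.MP_601e9e_an.Rg

variable {m N k : ℕ} {r : ℝ} {F : Fin N → Zs m → ℂ}

/-- Orthogonal blocks of independent vectors together with a unit vector orthogonal to them. -/
theorem ln_card {ι κ : Type} [Fintype ι] [Fintype κ] (u : Fin N → ℂ) (w : ι → κ → Fin N → ℂ)
    (hu : ∑ a, ‖u a‖ ^ 2 = 1) (h1 : ∀ i j, ∑ a, w i j a * conj (u a) = 0)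
    (h2 : ∀ i i' j j', i ≠ i' → ∑ a, w i j a * conj (w i' j' a) = 0)
    (h3 : ∀ i, LinearIndependent ℂ (w i)) : Fintype.card ι * Fintype.card κ + 1 ≤ N := by
  classical
  have h1' : ∀ i j, w i j ⬝ᵥ star u = 0 := h1
  have h2' : ∀ i i' j j', i ≠ i' → w i j ⬝ᵥ star (w i' j') = 0 := h2
  have hu' : u ⬝ᵥ star u = 1 := by
    have : u ⬝ᵥ star u = ((∑ a, ‖u a‖ ^ 2 : ℝ) : ℂ) := by
      simp only [dotProduct, Pi.star_apply, RCLike.star_def]
      push_cast
      refine Finset.sum_congr rfl fun a _ => ?_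
      rw [Complex.mul_conj, Complex.normSq_eq_norm_sq]
      push_cast
      rfl
    rw [this, hu]
    simp
  have hli : LinearIndependent ℂ (fun o : Option (ι × κ) => o.elim u (fun x => w x.1 x.2)) := by
    rw [Fintype.linearIndependent_iff]
    intro g hg
    rw [Fintype.sum_option, Fintype.sum_prod_type] at hg
    simp only [Option.elim_none, Option.elim_some] at hg
    have g0 : g none = 0 := by
      have h := congrArg (fun y => y ⬝ᵥ star u) hg
      simp only [add_dotProduct, sum_dotProduct, smul_dotProduct, h1', hu', zero_dotProduct,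
        mul_zero, Finset.sum_const_zero, add_zero, smul_eq_mul, mul_one] at h
      exact h
    rw [g0, zero_smul, zero_add] at hg
    have hB : ∀ i, ∑ j, g (some (i, j)) • w i j = 0 := by
      intro i
      have h4 : ∀ j', (∑ j, g (some (i, j)) • w i j) ⬝ᵥ star (w i j') = 0 := by
        intro j'
        have h := congrArg (fun y => y ⬝ᵥ star (w i j')) hg
        simp only [zero_dotProduct] at h
        rw [sum_dotProduct, Finset.sum_eq_single i] at h
        · exact h
        · intro i' _ hi'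
          rw [sum_dotProduct]
          refine Finset.sum_eq_zero fun j _ => ?_
          rw [smul_dotProduct, h2' i' i j j' hi', smul_zero]
        · intro hi
          exact absurd (Finset.mem_univ i) hi
      have h5 : (∑ j, g (some (i, j)) • w i j) ⬝ᵥ star (∑ j, g (some (i, j)) • w i j) = 0 := by
        conv_lhs => rw [star_sum, dotProduct_sum]
        refine Finset.sum_eq_zero fun j' _ => ?_
        rw [star_smul, dotProduct_smul, h4, smul_zero]
      open ComplexOrder in
      exact dotProduct_self_star_eq_zero.1 h5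
    intro o
    cases o with
    | none => exact g0
    | some x =>
      exact Fintype.linearIndependent_iff.1 (h3 x.1) (fun j => g (some (x.1, j))) (hB x.1) x.2
  have h := hli.fintype_card_le_finrank
  simpa using h

theorem ln_hol_prod {E ι : Type*} [NormedAddCommGroup E] [NormedSpace ℂ E] {D : Set E}
    (s : Finset ι) {G : ι → E → ℂ} (hG : ∀ i, DifferentiableOn ℂ (G i) D) :
    DifferentiableOn ℂ (fun x => ∏ i ∈ s, G i x) D := by
  classical
  induction s using Finset.induction_on with
  | empty => simp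
  | insert a s ha ih =>
    simp only [Finset.prod_insert ha]
    exact (hG a).mul ih

/-- The reflected frame. -/
noncomputable def lnFr (i : Fin m) (x y : Fin m → ℂ) : Fin m → ℂ :=
  fun l => (if l = i then bil x y else 0) - 2 * y i * x l

theorem ln_fr_orth (x : Fin m → ℂ) {i j : Fin m} (hij : i ≠ j) :
    bil (lnFr i x (star x)) (star (lnFr j x (star x))) = 0 := by
  have hs : conj (bil x (star x)) = bil x (star x) := by
    rw [conj_bil, star_star, bil_comm]
  have h1 : ∀ l, lnFr i x (star x) l * star (lnFr j x (star x)) l =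
      -(if l = i then 2 * bil x (star x) * x j * conj (x i) else 0) -
        (if l = j then 2 * bil x (star x) * x j * conj (x i) else 0) +
        4 * x j * conj (x i) * (x l * star x l) := by
    intro l
    simp only [lnFr, Pi.star_apply, RCLike.star_def, map_sub, map_mul, Complex.conj_conj,
      map_ofNat]
    by_cases h1 : l = i
    · subst h1
      simp only [if_true, if_neg hij, map_zero]
      ring
    · by_cases h2 : l = j
      · subst h2
        simp only [if_true, if_neg h1, hs]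
        ring
      · simp only [if_neg h1, if_neg h2, map_zero]
        ring
  have h2 : bil (lnFr i x (star x)) (star (lnFr j x (star x))) =
      ∑ l, lnFr i x (star x) l * star (lnFr j x (star x)) l := rfl
  rw [h2, Finset.sum_congr rfl fun l _ => h1 l, Finset.sum_add_distrib, Finset.sum_sub_distrib,
    Finset.sum_neg_distrib, ← Finset.mul_sum]
  have h3 : ∑ l, x l * star x l = bil x (star x) := rfl
  rw [h3]
  simp only [Finset.sum_ite_eq', Finset.mem_univ, if_true]
  ring

theorem ln_fr_onto (i : Fin m) (ξ : Fin m → ℂ) : ∃ x y, lnFr i x y = ξ := by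
  refine ⟨fun l => if l = i then -ξ l else -ξ l / 2, Pi.single i 1, ?_⟩
  funext l
  have h : bil (fun l => if l = i then -ξ l else -ξ l / 2) (Pi.single i 1) = -ξ i := by
    simp [bil, Pi.single_apply]
  simp only [lnFr, h, Pi.single_eq_same]
  by_cases hl : l = i
  · subst hl
    simp only [if_true]
    ring
  · simp only [if_neg hl]
    ring

theorem ln_fr_hol (i : Fin m) :
    Differentiable ℂ (fun x : (Fin m → ℂ) × (Fin m → ℂ) => lnFr i x.1 x.2) := by
  refine differentiable_pi.2 fun l => ?_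
  have h : Differentiable ℂ (fun x : (Fin m → ℂ) × (Fin m → ℂ) => bil x.1 x.2) :=
    hol_bil differentiable_fst differentiable_snd
  unfold lnFr
  by_cases hl : l = i
  · simp only [if_pos hl]
    fun_prop
  · simp only [if_neg hl]
    fun_prop

/-- An orthogonal frame off the zero set of an entire function. -/
theorem ln_exists_frame {ν : (Fin m → ℂ) → ℂ} (hν : Differentiable ℂ ν) {ξ₁ : Fin m → ℂ}
    (h1 : ν ξ₁ ≠ 0) : ∃ ξ : Fin m → Fin m → ℂ, (∀ i, ν (ξ i) ≠ 0) ∧
      ∀ i j, i ≠ j → bil (ξ i) (star (ξ j)) = 0 := by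
  have hG : ∀ i : Fin m,
      Differentiable ℂ (fun x : (Fin m → ℂ) × (Fin m → ℂ) => ν (lnFr i x.1 x.2)) :=
    fun i => hν.comp (ln_fr_hol i)
  obtain ⟨x, -, hx⟩ := exists_forall_ne_zero isOpen_univ convex_univ univ_nonempty
    (G := fun (i : Fin m) (x : (Fin m → ℂ) × (Fin m → ℂ)) => ν (lnFr i x.1 x.2))
    (fun i => (hG i).differentiableOn) (fun i => by
      obtain ⟨x, y, h⟩ := ln_fr_onto i ξ₁
      exact ⟨(x, y), mem_univ _, by simpa [h] using h1⟩)
  have hP : Differentiable ℂ
      (fun x : (Fin m → ℂ) × (Fin m → ℂ) => ∏ i, ν (lnFr i x.1 x.2)) :=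
    differentiableOn_univ.1 (ln_hol_prod _ fun i => (hG i).differentiableOn)
  by_contra hcon
  have h0 : ∀ z : Fin m → ℂ, ∏ i, ν (lnFr i z (star z)) = 0 := by
    intro z
    by_contra hz
    exact hcon ⟨fun i => lnFr i z (star z), fun i => Finset.prod_ne_zero_iff.1 hz i
      (Finset.mem_univ i), fun i j hij => ln_fr_orth z hij⟩
  exact Finset.prod_ne_zero_iff.2 (fun i _ => hx i) (tr0 hP h0 x)

/-- The product of the block determinants. -/
noncomputable def lnPs {K : ℕ} (π : Matrix (Fin K) (Fin N) ℂ)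
    (A : Fin N × Fin m × Fin (K + 1) → ℂ) : ℂ :=
  ∏ i, (π * Matrix.of fun a (j : Fin K) => A (a, i, j.succ)).det

theorem ln_ps_cont {K : ℕ} (π : Matrix (Fin K) (Fin N) ℂ) :
    Continuous (lnPs (m := m) π) := by
  unfold lnPs
  refine continuous_finsetProd _ fun i _ => ?_
  refine Continuous.matrix_det (continuous_const.matrix_mul ?_)
  refine continuous_pi fun a => continuous_pi fun j => ?_
  exact continuous_apply _

theorem ln_ps_zero (hm : 0 < m) {K : ℕ} (hN : N ≤ m * K) (π : Matrix (Fin K) (Fin N) ℂ)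
    {ξ : Fin m → Fin m → ℂ} (hξ : ∀ i j, i ≠ j → bil (ξ i) (star (ξ j)) = 0)
    {A : Fin N × Fin m × Fin (K + 1) → ℂ} (hA : Rel ξ K A) : lnPs π A = 0 := by
  by_contra h
  have h1 := fun i => ind_of_det (Finset.prod_ne_zero_iff.1 h i (Finset.mem_univ i))
  have h2 := ln_card (fun a => A (a, ⟨0, hm⟩, 0)) (fun i (j : Fin K) a => A (a, i, j.succ))
    (hA.1 _) (fun i j => hA.2.1 i _ _ (Fin.succ_ne_zero j))
    (fun i i' j j' hi => hA.2.2 i i' _ _ (hξ i i' hi) (Fin.succ_ne_zero j) (Fin.succ_ne_zero j'))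
    h1
  simp only [Fintype.card_fin] at h2
  omega

theorem ln_ps_pb {α : Type} {K : ℕ} (π : Matrix (Fin K) (Fin N) ℂ) (S : Set α)
    (c : α → Fin N × Fin m × Fin (K + 1) → ℂ) :
    PB (fun x => ‖c x‖) S (fun x => lnPs π (c x)) := by
  have h0 : ∀ x, 0 ≤ ‖c x‖ := fun x => norm_nonneg _
  unfold lnPs
  refine PB.prod h0 _ fun i _ => PB.det h0 fun j l => ?_
  simp only [Matrix.mul_apply, Matrix.of_apply]
  refine PB.sum h0 _ fun a _ => PB.mul h0 (PB.of_bound (C := ‖π j a‖) fun _ _ => le_rfl) ?_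
  exact PB.of_le fun x _ => norm_le_pi_norm (c x) _

/-- Lines go into affine subspaces of small dimension. -/
theorem line_dep (hF : Hyp m N k r F) (hm : 0 < m) {K : ℕ} (hK : BU m N K r F) (hN : N ≤ m * K) :
    ∀ Z ∈ Dom m r, ∀ v, ¬ Ind (hat F) (K + 1) Z v := by
  intro Z₀ hZ₀ v₀ hI
  set M : Zs m × Zs m → Matrix (Fin N) (Fin K) ℂ :=
    fun x => Matrix.of fun a (j : Fin K) => jet (F a) (j + 1) x.1 x.2 with hM
  have hind : LinearIndependent ℂ (fun (j : Fin K) (a : Fin N) => M (Z₀, v₀) a j) := by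
    have h1 := LinearIndependent.comp hI Fin.succ (Fin.succ_injective K)
    rw [Fintype.linearIndependent_iff] at h1 ⊢
    intro g hg
    refine h1 g ?_
    funext o
    cases o with
    | none =>
      simp only [Finset.sum_apply, Pi.smul_apply, Function.comp_apply, hat_none, Pi.zero_apply]
      refine Finset.sum_eq_zero fun j _ => ?_
      rw [jet_const 1 (by simp), smul_zero]
    | some a =>
      have h2 := congrFun hg a
      simpa [hM] using h2
  obtain ⟨π, hπ⟩ := exists_left hind
  have hD : IsOpen (Dom m r ×ˢ (univ : Set (Zs m))) := (isOpen_Dom r).prod isOpen_univ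
  have hc : Convex ℝ (Dom m r ×ˢ (univ : Set (Zs m))) := (convex_Dom r).prod convex_univ
  have hDel : DifferentiableOn ℂ (fun x => (π * M x).det) (Dom m r ×ˢ univ) := by
    refine hol_det fun i j => ?_
    simp only [hM, Matrix.mul_apply, Matrix.of_apply]
    refine DifferentiableOn.fun_sum fun a _ => DifferentiableOn.const_mul ?_ _
    exact hol_jet2 (isOpen_Dom r) (hF.hol a) _
  have hco : DifferentiableOn ℂ (fun x : Zs m × Zs m => x.2 (some ⟨0, hm⟩))
      (Dom m r ×ˢ univ) := by
    fun_prop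
  obtain ⟨⟨Z₁, v₁⟩, hx, hx1, hx2⟩ := exists_mul_ne_zero hD hc hDel hco
    ⟨(Z₀, v₀), ⟨hZ₀, mem_univ _⟩, hπ⟩ ⟨(Z₀, fun _ => 1), ⟨hZ₀, mem_univ _⟩, one_ne_zero⟩
  obtain ⟨ζ₁, hζ⟩ := exists_tv v₁ _ hx2
  have hν : Differentiable ℂ (fun ξ : Fin m → ℂ => (π * M (Z₁, tv ζ₁ ξ)).det) := by
    have h1 : Differentiable ℂ (fun ξ : Fin m → ℂ => ((Z₁, tv ζ₁ ξ) : Zs m × Zs m)) :=
      (differentiable_const _).prodMk (hol_mk differentiable_id
        ((hol_bil (differentiable_const _) differentiable_id).const_mul _))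
    rw [← differentiableOn_univ]
    exact hDel.comp h1.differentiableOn fun ξ _ => ⟨hx.1, mem_univ _⟩
  obtain ⟨ξ, hξ1, hξ2⟩ := ln_exists_frame hν (ξ₁ := zc v₁) (by rw [hζ]; exact hx1)
  obtain ⟨δ, hδ⟩ := exists_Sm (m := m) hF.rpos
  have hφ : DifferentiableOn ℂ
      (fun x : Zs m × (Fin m → ℂ) => ∏ i, (π * M (x.1, tv x.2 (ξ i))).det)
      (Dom m r ×ˢ univ) := by
    refine ln_hol_prod _ fun i => ?_
    have h1 : Differentiable ℂ
        (fun x : Zs m × (Fin m → ℂ) => ((x.1, tv x.2 (ξ i)) : Zs m × Zs m)) :=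
      differentiable_fst.prodMk (hol_mk (differentiable_const _)
        ((hol_bil differentiable_snd (differentiable_const _)).const_mul _))
    exact hDel.comp h1.differentiableOn fun x hx => ⟨hx.1, mem_univ _⟩
  have h0 := hK _ hδ _ ξ _ hφ (ln_ps_pb π _ (fun x : ℝ × Xs m => col F ξ K x.1 x.2))
    (fun p _ A hA t _ _ ht => by
      have h1 := ((ln_ps_cont π).tendsto A).comp ht
      rw [ln_ps_zero hm hN π hξ2 hA] at h1
      exact h1) (Z₁, ζ₁) ⟨hx.1, mem_univ _⟩
  exact Finset.prod_ne_zero_iff.2 (fun i _ => hξ1 i) h0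

end Pool.Agent.Lib.MP_601e9e_an.Rg
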