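import Pool.Agent.Lib.MP_601e9e_an.Rg.Defs2
import Pool.Agent.Lib.MP_601e9e_an.Rg.Line

open Complex Filter Topology Set Metric MeasureTheory
open scoped ComplexConjugate ContDiff Matrix

namespace Pool.Agent.Lib.MP_601e9e_an.Rg

variable {m N k : ℕ} {r : ℝ} {F : Fin N → Zs m → ℂ}

/-- Mutually orthogonal blocks of independent vectors are independent. -/
theorem fr_blocks {ι κ : Type} [Fintype ι] [Fintype κ] (w : ι → κ → Fin N → ℂ)
    (h2 : ∀ i i' j j', i ≠ i' → ∑ a, w i j a * conj (w i' j' a) = 0)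
    (h3 : ∀ i, LinearIndependent ℂ (w i)) :
    LinearIndependent ℂ (fun x : ι × κ => w x.1 x.2) := by
  classical
  have h2' : ∀ i i' j j', i ≠ i' → w i j ⬝ᵥ star (w i' j') = 0 := h2
  rw [Fintype.linearIndependent_iff]
  intro g hg
  rw [Fintype.sum_prod_type] at hg
  have hB : ∀ i, ∑ j, g (i, j) • w i j = 0 := by
    intro i
    have h4 : ∀ j', (∑ j, g (i, j) • w i j) ⬝ᵥ star (w i j') = 0 := by
      intro j'
      have h := congrArg (fun y => y ⬝ᵥ star (w i j')) hg
      simp only [zero_dotProduct] at h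
      rw [sum_dotProduct, Finset.sum_eq_single i] at h
      · exact h
      · intro i' _ hi'
        rw [sum_dotProduct]
        refine Finset.sum_eq_zero fun j _ => ?_
        rw [smul_dotProduct, h2' i' i j j' hi', smul_zero]
      · intro hi
        exact absurd (Finset.mem_univ i) hi
    have h5 : (∑ j, g (i, j) • w i j) ⬝ᵥ star (∑ j, g (i, j) • w i j) = 0 := by
      conv_lhs => rw [star_sum, dotProduct_sum]
      refine Finset.sum_eq_zero fun j' _ => ?_
      rw [star_smul, dotProduct_smul, h4, smul_zero]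
    open ComplexOrder in
    exact dotProduct_self_star_eq_zero.1 h5
  intro x
  exact Fintype.linearIndependent_iff.1 (h3 x.1) (fun j => g (x.1, j)) (hB x.1) x.2

/-- Independent jets of positive order give an independent family with the constant adjoined. -/
theorem fr_hat {K : ℕ} (ξ : Fin m → Fin m → ℂ) (Z : Zs m) (ζ : Fin m → ℂ)
    (h : LinearIndependent ℂ
      (fun (x : Fin m × Fin K) (a : Fin N) => jet (F a) (x.2 + 1) Z (tv ζ (ξ x.1)))) :
    HInd (hat F) (frC ξ K) Z ζ := by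
  unfold HInd
  rw [Fintype.linearIndependent_iff] at h ⊢
  intro g hg
  rw [Fintype.sum_option] at hg
  have g0 : g none = 0 := by
    have h1 := congrFun hg none
    have h2 : hx (hat F) (frC ξ K) Z ζ none none = 1 := rfl
    have h3 : ∀ x, hx (hat F) (frC ξ K) Z ζ none (some x) = 0 := fun x =>
      jet_const 1 (Nat.succ_ne_zero _) _ _
    simpa [Finset.sum_apply, h2, h3] using h1
  rw [g0, zero_smul, zero_add] at hg
  have h4 := h (fun x => g (some x)) (by
    funext a
    have h5 := congrFun hg (some a)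
    rw [Finset.sum_apply] at h5 ⊢
    exact h5)
  intro o
  cases o with
  | none => exact g0
  | some x => exact h4 x

theorem fr_ps_zero {K : ℕ} (π : Matrix (Fin K) (Fin N) ℂ)
    {ξ : Fin m → Fin m → ℂ} (hξ : ∀ i j, i ≠ j → bil (ξ i) (star (ξ j)) = 0)
    {A : Fin N × Fin m × Fin (K + 1) → ℂ} (hA : Rel ξ K A)
    {c : ℕ → Fin N × Fin m × Fin (K + 1) → ℂ} (hc : Tendsto c atTop (𝓝 A))
    (hd : ∀ n, ¬ LinearIndependent ℂ
      (fun (x : Fin m × Fin K) (a : Fin N) => c n (a, x.1, x.2.succ))) : lnPs π A = 0 := by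
  by_contra h
  have h1 := fun i => ind_of_det (Finset.prod_ne_zero_iff.1 h i (Finset.mem_univ i))
  have h2 := fr_blocks (fun i (j : Fin K) a => A (a, i, j.succ))
    (fun i i' j j' hi => hA.2.2 i i' _ _ (hξ i i' hi) (Fin.succ_ne_zero j) (Fin.succ_ne_zero j'))
    h1
  have h3 : Continuous (fun (B : Fin N × Fin m × Fin (K + 1) → ℂ) (x : Fin m × Fin K)
      (a : Fin N) => B (a, x.1, x.2.succ)) :=
    continuous_pi fun x => continuous_pi fun a => continuous_apply _
  have h4 := ((h3.tendsto A).comp hc).eventually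
    ((isOpen_setOfPred_linearIndependent (𝕜 := ℂ)).mem_nhds h2)
  obtain ⟨n, hn⟩ := h4.exists
  exact hd n hn

theorem frame (hF : Hyp m N k r F) (hm : 0 < m) {K : ℕ} (hB : BU m N K r F)
    (hI : ∃ Z ∈ Dom m r, ∃ v, Ind (hat F) (K + 1) Z v) :
    ∃ ξ : Fin m → Fin m → ℂ, ∃ Z ∈ Dom m r, ∃ ζ, HInd (hat F) (frC ξ K) Z ζ := by
  obtain ⟨Z₀, hZ₀, v₀, hI⟩ := hI
  by_contra hcon
  set M : Zs m × Zs m → Matrix (Fin N) (Fin K) ℂ :=
    fun x => Matrix.of fun a (j : Fin K) => jet (F a) (j + 1) x.1 x.2 with hM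
  have hind : LinearIndependent ℂ (fun (j : Fin K) (a : Fin N) => M (Z₀, v₀) a j) := by
    have h1 := LinearIndependent.comp hI Fin.succ (Fin.succ_injective K)
    rw [Fintype.linearIndependent_iff] at h1 ⊢
    intro g hg
    refine h1 g ?_
    funext o
    cases o with
    | none =>
      simp only [Finset.sum_apply, Pi.smul_apply, Function.comp_apply, hat_none, Pi.zero_apply]
      refine Finset.sum_eq_zero fun j _ => ?_
      rw [jet_const 1 (by simp), smul_zero]
    | some a =>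
      have h2 := congrFun hg a
      simpa [hM] using h2
  obtain ⟨π, hπ⟩ := exists_left hind
  have hD : IsOpen (Dom m r ×ˢ (univ : Set (Zs m))) := (isOpen_Dom r).prod isOpen_univ
  have hc : Convex ℝ (Dom m r ×ˢ (univ : Set (Zs m))) := (convex_Dom r).prod convex_univ
  have hDel : DifferentiableOn ℂ (fun x => (π * M x).det) (Dom m r ×ˢ univ) := by
    refine hol_det fun i j => ?_
    simp only [hM, Matrix.mul_apply, Matrix.of_apply]
    refine DifferentiableOn.fun_sum fun a _ => DifferentiableOn.const_mul ?_ _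
    exact hol_jet2 (isOpen_Dom r) (hF.hol a) _
  have hco : DifferentiableOn ℂ (fun x : Zs m × Zs m => x.2 (some ⟨0, hm⟩))
      (Dom m r ×ˢ univ) := by
    fun_prop
  obtain ⟨⟨Z₁, v₁⟩, hx, hx1, hx2⟩ := exists_mul_ne_zero hD hc hDel hco
    ⟨(Z₀, v₀), ⟨hZ₀, mem_univ _⟩, hπ⟩ ⟨(Z₀, fun _ => 1), ⟨hZ₀, mem_univ _⟩, one_ne_zero⟩
  obtain ⟨ζ₁, hζ⟩ := exists_tv v₁ _ hx2
  have hν : Differentiable ℂ (fun ξ : Fin m → ℂ => (π * M (Z₁, tv ζ₁ ξ)).det) := by
    have h1 : Differentiable ℂ (fun ξ : Fin m → ℂ => ((Z₁, tv ζ₁ ξ) : Zs m × Zs m)) :=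
      (differentiable_const _).prodMk (hol_mk differentiable_id
        ((hol_bil (differentiable_const _) differentiable_id).const_mul _))
    rw [← differentiableOn_univ]
    exact hDel.comp h1.differentiableOn fun ξ _ => ⟨hx.1, mem_univ _⟩
  obtain ⟨ξ, hξ1, hξ2⟩ := ln_exists_frame hν (ξ₁ := zc v₁) (by rw [hζ]; exact hx1)
  obtain ⟨δ, hδ⟩ := exists_Sm (m := m) hF.rpos
  have hφ : DifferentiableOn ℂ
      (fun x : Zs m × (Fin m → ℂ) => ∏ i, (π * M (x.1, tv x.2 (ξ i))).det)
      (Dom m r ×ˢ univ) := by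
    refine ln_hol_prod _ fun i => ?_
    have h1 : Differentiable ℂ
        (fun x : Zs m × (Fin m → ℂ) => ((x.1, tv x.2 (ξ i)) : Zs m × Zs m)) :=
      differentiable_fst.prodMk (hol_mk (differentiable_const _)
        ((hol_bil differentiable_snd (differentiable_const _)).const_mul _))
    exact hDel.comp h1.differentiableOn fun x hx => ⟨hx.1, mem_univ _⟩
  have h0 := hB _ hδ _ ξ _ hφ (ln_ps_pb π _ (fun x : ℝ × Xs m => col F ξ K x.1 x.2))
    (fun p hp A hA t htm _ ht => by
      have h1 := ((ln_ps_cont π).tendsto A).comp ht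
      rw [fr_ps_zero π hξ2 hA ht fun n hn =>
        hcon ⟨ξ, pt p (t n), hδ.pt_mem hp (htm n), star p.1, fr_hat ξ _ _ hn⟩] at h1
      exact h1) (Z₁, ζ₁) ⟨hx.1, mem_univ _⟩
  exact Finset.prod_ne_zero_iff.2 (fun i _ => hξ1 i) h0

end Pool.Agent.Lib.MP_601e9e_an.Rg
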