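import Pool.Agent.Lib.MP_601e9e_an.Rg.Hrat
import Pool.Agent.Lib.MP_601e9e_an.Rg.Frame

open Complex Filter Topology Set Metric MeasureTheory
open scoped ComplexConjugate ContDiff Matrix

namespace Pool.Agent.Lib.MP_601e9e_an.Rg

variable {m N k : ℕ} {r c : ℝ} {b : ℕ → ℝ} {F : Fin N → Zs m → ℂ}

theorem hind_card {κ : Type*} [Fintype κ] {C : κ → ℕ × (Fin m → ℂ)} {Z : Zs m} {ζ : Fin m → ℂ}
    (h : HInd (hat F) C Z ζ) : Fintype.card κ ≤ N + 1 := by
  have := LinearIndependent.fintype_card_le_finrank h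
  simpa using this

theorem chain (hF : Hyp m N k r F) (hm : 0 < m) (hB : Bud F b c) (e : ℕ) :
    ∀ (J : ℕ) (κ : Type) [Fintype κ] (C : κ → ℕ × (Fin m → ℂ)), (∀ x, (C x).1 ≤ J) →
      Fintype.card κ + e = N + 1 →
      ∑ x, b (C x).1 + ∑ i ∈ Finset.range e, b (J + 1 + i) < c →
      (∃ Z ∈ Dom m r, ∃ ζ, HInd (hat F) C Z ζ) → IsRat m r F := by
  induction e with
  | zero =>
    intro J κ _ C _ hcard hS ⟨Z, hZ, ζ, h⟩
    exact absurd h (endpt hF hB C hcard (by simpa using hS) Z hZ ζ)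
  | succ e ih =>
    intro J κ _ C hJ hcard hS h0
    have hn : 0 ≤ ∑ i ∈ Finset.range (e + 1), b (J + 1 + i) :=
      Finset.sum_nonneg fun i _ => hB.nonneg _
    by_cases hcl : Cl (hat F) C (Dom m r)
    · exact hrat hF hm hB (by linarith) hcl h0
    · unfold Cl at hcl
      push Not at hcl
      obtain ⟨y, hy, Z, hZ, ζ, h⟩ := hcl
      have hyJ : y.1 ≤ J + 1 := by
        rcases hy with hy | ⟨x, hy⟩
        · omega
        · have := hJ x
          omega
      refine ih (J + 1) (Option κ) (snoc C y) (fun x => ?_) ?_ ?_ ⟨Z, hZ, ζ, h⟩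
      · cases x with
        | none => exact hyJ
        | some x => exact (hJ x).trans (Nat.le_succ J)
      · rw [Fintype.card_option]
        omega
      · rw [Finset.sum_range_succ'] at hS
        rw [Fintype.sum_option]
        have h1 : b y.1 ≤ b (J + 1) := hB.mono hyJ
        have h2 : ∑ i ∈ Finset.range e, b (J + 1 + 1 + i) =
            ∑ i ∈ Finset.range e, b (J + 1 + (i + 1)) :=
          Finset.sum_congr rfl fun i _ => by congr 1; omega
        have h3 : ∑ x : κ, b (snoc C y (some x)).1 = ∑ x, b (C x).1 := rfl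
        have h4 : b (snoc C y none).1 = b y.1 := rfl
        rw [h2, h3, h4]
        simp only [add_zero] at hS
        linarith

theorem chain' (hF : Hyp m N k r F) (hm : 0 < m) (hB : Bud F b c) {J E : ℕ} {κ : Type}
    [Fintype κ] {C : κ → ℕ × (Fin m → ℂ)} (hJ : ∀ x, (C x).1 ≤ J)
    (hcard : N + 1 ≤ Fintype.card κ + E)
    (hS : (N + 1) * b J + ∑ i ∈ Finset.range E, b (J + 1 + i) < c)
    (h0 : ∃ Z ∈ Dom m r, ∃ ζ, HInd (hat F) C Z ζ) : IsRat m r F := by
  obtain ⟨Z, hZ, ζ, h⟩ := h0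
  have hc := hind_card h
  refine chain hF hm hB (N + 1 - Fintype.card κ) J κ C hJ (by omega) ?_ ⟨Z, hZ, ζ, h⟩
  have h1 : ∑ x, b (C x).1 ≤ (N + 1) * b J := by
    refine (Finset.sum_le_card_nsmul _ _ (b J) fun x _ => hB.mono (hJ x)).trans ?_
    rw [Finset.card_univ, nsmul_eq_mul]
    have : (Fintype.card κ : ℝ) ≤ N + 1 := by exact_mod_cast hc
    exact mul_le_mul_of_nonneg_right this (hB.nonneg J)
  have h2 : ∑ i ∈ Finset.range (N + 1 - Fintype.card κ), b (J + 1 + i) ≤
      ∑ i ∈ Finset.range E, b (J + 1 + i) :=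
    Finset.sum_le_sum_of_subset_of_nonneg (Finset.range_mono (by omega))
      fun i _ _ => hB.nonneg _
  linarith

theorem route_frame (hF : Hyp m N k r F) (hm : 0 < m) (hB : Bud F b c) {K E : ℕ}
    (hU : BU m N K r F) (hN : N ≤ m * K + E)
    (hS : (N + 1) * b K + ∑ i ∈ Finset.range E, b (K + 1 + i) < c) : IsRat m r F := by
  by_cases h : ∃ Z ∈ Dom m r, ∃ v, Ind (hat F) (K + 1) Z v
  · obtain ⟨ξ, h0⟩ := frame hF hm hU h
    refine chain' hF hm hB (J := K) (E := E) (fun x => ?_) ?_ hS h0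
    · cases x with
      | none => exact Nat.zero_le _
      | some x => exact x.2.2
    · simp only [Fintype.card_option, Fintype.card_prod, Fintype.card_fin]
      omega
  · push Not at h
    exact rational hF hm hU h

theorem rat_ext (hr : 0 < r) (h : IsRat m r F) : Ext m r F := by
  obtain ⟨q, P, hq, hP⟩ := h
  obtain ⟨δ, hδ⟩ := exists_Sm (m := m) hr
  obtain ⟨p, hp, hp0⟩ : ∃ p ∈ ball (0 : Xs m) δ, MvPolynomial.eval (pt p 0) q ≠ 0 := by
    by_contra hc
    push Not at hc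
    have h1 := trq (φ := fun x => MvPolynomial.eval x.1 q)
      ((hol_eval q).comp differentiable_fst) hδ.1 hc
    obtain ⟨Z, _, hZ⟩ := exists_eval_ne_zero hq isOpen_univ univ_nonempty
    exact hZ (h1 (Z, 0))
  refine ⟨p, ?_, {Z | MvPolynomial.eval Z q ≠ 0}, isOpen_ne_fun (hol_eval q).continuous
    continuous_const, hp0, fun a Z => MvPolynomial.eval Z (P a) * (MvPolynomial.eval Z q)⁻¹,
    fun a => (hol_eval _).differentiableOn.mul
      ((hol_eval q).differentiableOn.inv fun Z hZ => hZ),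
    fun a Z hZ => ?_⟩
  · have h1 := hδ.2 p (mem_ball_zero_iff.1 hp).le 0 (by simpa using hδ.1.le)
    linarith
  · change MvPolynomial.eval Z (P a) * (MvPolynomial.eval Z q)⁻¹ = F a Z
    rw [← div_eq_mul_inv, div_eq_iff hZ.1, ← hP Z hZ.2 a, mul_comm]

end Pool.Agent.Lib.MP_601e9e_an.Rg
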