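import Mathlib
import Pool.Agent.Lib.MP_08f711_an.Holo

/-!
Definitions for the rationality theorem for maps into spheres with bounded derivatives.
-/

open Complex Filter Topology Set Metric MeasureTheory
open scoped ComplexConjugate ContDiff

namespace Pool.Agent.Lib.MP_601e9e_an.Rg

/-- Points `(z, w)` of the Siegel model: `w = Z none`, `z j = Z (some j)`. -/
abbrev Zs (m : ℕ) := Option (Fin m) → ℂ

/-- Parameters `(z, u)` of the Heisenberg hypersurface. -/
abbrev Xs (m : ℕ) := (Fin m → ℂ) × ℝ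

variable {m N : ℕ}

def mk (z : Fin m → ℂ) (w : ℂ) : Zs m := fun o => o.elim w z

def zc (Z : Zs m) : Fin m → ℂ := fun j => Z (some j)

noncomputable def nsq (z : Fin m → ℂ) : ℝ := ∑ j, ‖z j‖ ^ 2

noncomputable def bil (a b : Fin m → ℂ) : ℂ := ∑ j, a j * b j

/-- The direction of `w`. -/
def ew (m : ℕ) : Zs m := mk 0 1

/-- The direction over `ξ` in the hyperplane with slope `ζ`. -/
noncomputable def tv (ζ ξ : Fin m → ℂ) : Zs m := mk ξ (2 * I * bil ζ ξ)

/-- The dual point. -/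
noncomputable def du (Z : Zs m) (ζ : Fin m → ℂ) : Zs m := mk ζ (Z none - 2 * I * bil ζ (zc Z))

/-- The dual direction. -/
noncomputable def dv (z ξ : Fin m → ℂ) : Zs m := mk ξ (-(2 * I * bil z ξ))

/-- A convex piece of the Siegel domain. -/
def Dom (m : ℕ) (r : ℝ) : Set (Zs m) := {Z | ‖Z‖ < r ∧ nsq (zc Z) < (Z none).im}

/-- The point over `p` at height `t`. -/
noncomputable def pt (p : Xs m) (t : ℝ) : Zs m :=
  mk p.1 ((p.2 : ℂ) + I * ((nsq p.1 + t : ℝ) : ℂ))

/-- `δ` is small against `r`. -/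
def Sm (m : ℕ) (r δ : ℝ) : Prop :=
  0 < δ ∧ ∀ p : Xs m, ‖p‖ ≤ δ → ∀ t : ℝ, |t| ≤ δ → ‖pt p t‖ < r / 2

section jets

variable {E : Type*} [NormedAddCommGroup E] [NormedSpace ℂ E]

/-- Derivative in the direction `v`. -/
noncomputable def dd (v : E) (g : E → ℂ) : E → ℂ := fun Z => fderiv ℂ g Z v

/-- The `j`-th derivative of `g` at `Z` in the direction `v`. -/
noncomputable def jet (g : E → ℂ) (j : ℕ) (Z v : E) : ℂ := (dd v)^[j] g Z

/-- The matrix of the first `r` jets of a family. -/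
noncomputable def jm {ι : Type*} (G : ι → E → ℂ) (r : ℕ) (Z v : E) : Matrix ι (Fin r) ℂ :=
  Matrix.of fun a j => jet (G a) j Z v

/-- The first `r` jets of the family are linearly independent. -/
def Ind {ι : Type*} (G : ι → E → ℂ) (r : ℕ) (Z v : E) : Prop :=
  LinearIndependent ℂ (fun (j : Fin r) (a : ι) => jet (G a) j Z v)

end jets

/-- `f` is a polynomial function of degree at most `d`. -/
def PolyLe (d : ℕ) (f : ℂ → ℂ) : Prop :=
  ∃ p : Polynomial ℂ, p.natDegree ≤ d ∧ ∀ s, f s = p.eval s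

/-- `f` is a polynomial function. -/
def IsPoly {σ : Type*} (f : (σ → ℂ) → ℂ) : Prop :=
  ∃ P : MvPolynomial σ ℂ, ∀ Z, f Z = MvPolynomial.eval Z P

/-- Polynomial bound in terms of a size function. -/
def PB {α : Type*} (nm : α → ℝ) (S : Set α) (f : α → ℂ) : Prop :=
  ∃ (C : ℝ) (c : ℕ), ∀ x ∈ S, ‖f x‖ ≤ C * (1 + nm x) ^ c

/-- The family with the constant `1` adjoined. -/
def hat {E : Type*} (F : Fin N → E → ℂ) : Option (Fin N) → E → ℂ :=
  fun o => o.elim (fun _ => 1) F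

/-- Signs of the Hermitian form of signature `(N, 1)`. -/
def sg : Option (Fin N) → ℂ := fun o => o.elim (-1) (fun _ => 1)

/-- The standing hypotheses in the Siegel model. -/
structure Hyp (m N k : ℕ) (r : ℝ) (F : Fin N → Zs m → ℂ) : Prop where
  rpos : 0 < r
  hol : ∀ a, DifferentiableOn ℂ (F a) (Dom m r)
  bdry : ∀ p : Xs m, ‖pt p 0‖ < r →
    Tendsto (fun t : ℝ => ∑ a, ‖F a (pt p t)‖ ^ 2) (𝓝[>] 0) (𝓝 1)
  bnd : ∃ C : ℝ, ∀ a, ∀ i ≤ k, ∀ Z ∈ Dom m r, ‖jet (F a) i Z (ew m)‖ ≤ C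

/-- Tangential jets on the level `t`. -/
noncomputable def cj (g : Zs m → ℂ) (ξ : Fin m → ℂ) (j : ℕ) (t : ℝ) (p : Xs m) : ℂ :=
  jet g j (pt p t) (tv (star p.1) ξ)

/-- All tangential jets of order at most `K` along the directions `ξ i`. -/
noncomputable def col {ι : Type*} (F : Fin N → Zs m → ℂ) (ξ : ι → Fin m → ℂ) (K : ℕ) (t : ℝ)
    (p : Xs m) : Fin N × ι × Fin (K + 1) → ℂ :=
  fun x => cj (F x.1) (ξ x.2.1) x.2.2 t p

/-- The orthogonality relations of the boundary values. -/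
def Rel {ι : Type*} (ξ : ι → Fin m → ℂ) (K : ℕ) (A : Fin N × ι × Fin (K + 1) → ℂ) : Prop :=
  (∀ i, ∑ a, ‖A (a, i, 0)‖ ^ 2 = 1) ∧
  (∀ i i' j, j ≠ 0 → ∑ a, A (a, i, j) * conj (A (a, i', 0)) = 0) ∧
  (∀ i i' j j', bil (ξ i) (star (ξ i')) = 0 → j ≠ 0 → j' ≠ 0 →
    ∑ a, A (a, i, j) * conj (A (a, i', j')) = 0)

/-- Boundary uniqueness for expressions in the tangential jets of order at most `K`. -/
def BU (m N K : ℕ) (r : ℝ) (F : Fin N → Zs m → ℂ) : Prop :=
  ∀ δ : ℝ, Sm m r δ → ∀ (ι : Type) [Fintype ι] (ξ : ι → Fin m → ℂ)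
    (φ : Zs m × (Fin m → ℂ) → ℂ), DifferentiableOn ℂ φ (Dom m r ×ˢ univ) →
    PB (fun x : ℝ × Xs m => ‖col F ξ K x.1 x.2‖) (Ioo 0 δ ×ˢ ball 0 δ)
      (fun x => φ (pt x.2 x.1, star x.2.1)) →
    (∀ p ∈ ball (0 : Xs m) δ, ∀ A, Rel ξ K A → ∀ t : ℕ → ℝ, (∀ n, t n ∈ Ioo 0 δ) →
      Tendsto t atTop (𝓝 0) → Tendsto (fun n => col F ξ K (t n) p) atTop (𝓝 A) →
      Tendsto (fun n => φ (pt p (t n), star p.1)) atTop (𝓝 0)) →
    ∀ x ∈ Dom m r ×ˢ (univ : Set (Fin m → ℂ)), φ x = 0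

/-- The tangential field of type `(1,0)`. -/
noncomputable def Lx (ξ : Fin m → ℂ) (f : Xs m → ℂ) (p : Xs m) : ℂ :=
  (fderiv ℝ f p (ξ, 0) - I * fderiv ℝ f p (I • ξ, 0)) / 2 +
    I * bil (star p.1) ξ * fderiv ℝ f p (0, 1)

/-- The tangential field of type `(0,1)`. -/
noncomputable def Lb (ξ : Fin m → ℂ) (f : Xs m → ℂ) (p : Xs m) : ℂ :=
  (fderiv ℝ f p (ξ, 0) + I * fderiv ℝ f p (I • ξ, 0)) / 2 -
    I * bil p.1 (star ξ) * fderiv ℝ f p (0, 1)

/-- The field `∂/∂u`. -/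
noncomputable def Lt (f : Xs m → ℂ) (p : Xs m) : ℂ := fderiv ℝ f p (0, 1)

/-- Test functions on `B`. -/
def Tst (B : Set (Xs m)) (ψ : Xs m → ℂ) : Prop :=
  ContDiff ℝ ∞ ψ ∧ HasCompactSupport ψ ∧ tsupport ψ ⊆ B

/-- The family tends to zero in `L²` of every compact subset of `B`. -/
def Small {κ : Type*} (l : Filter κ) (B : Set (Xs m)) (c : κ → Xs m → ℂ) : Prop :=
  ∀ S : Set (Xs m), IsCompact S → S ⊆ B → Tendsto (fun x => ∫ p in S, ‖c x p‖ ^ 2) l (𝓝 0)

@[simp] theorem mk_none (z : Fin m → ℂ) (w : ℂ) : mk z w none = w := rfl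
@[simp] theorem mk_some (z : Fin m → ℂ) (w : ℂ) (j : Fin m) : mk z w (some j) = z j := rfl
@[simp] theorem zc_mk (z : Fin m → ℂ) (w : ℂ) : zc (mk z w) = z := rfl
@[simp] theorem zc_apply (Z : Zs m) (j : Fin m) : zc Z j = Z (some j) := rfl
theorem mk_zc (Z : Zs m) : mk (zc Z) (Z none) = Z := by
  funext o; cases o <;> rfl
theorem zs_ext {Z Z' : Zs m} (h0 : Z none = Z' none) (h : ∀ j, Z (some j) = Z' (some j)) :
    Z = Z' := by
  funext o; cases o with
  | none => exact h0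
  | some j => exact h j
@[simp] theorem zc_pt (p : Xs m) (t : ℝ) : zc (pt p t) = p.1 := rfl
@[simp] theorem zc_tv (ζ ξ : Fin m → ℂ) : zc (tv ζ ξ) = ξ := rfl
@[simp] theorem hat_none {E : Type*} (F : Fin N → E → ℂ) : hat F none = fun _ => 1 := rfl
@[simp] theorem hat_some {E : Type*} (F : Fin N → E → ℂ) (a : Fin N) : hat F (some a) = F a := rfl
@[simp] theorem sg_none : sg (none : Option (Fin N)) = -1 := rfl
@[simp] theorem sg_some (a : Fin N) : sg (some a) = 1 := rfl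

theorem nsq_nonneg (z : Fin m → ℂ) : 0 ≤ nsq z :=
  Finset.sum_nonneg fun _ _ => sq_nonneg _

theorem bil_star_self (z : Fin m → ℂ) : bil (star z) z = (nsq z : ℂ) := by
  simp only [bil, nsq, Pi.star_apply, RCLike.star_def]
  push_cast
  refine Finset.sum_congr rfl fun j _ => ?_
  rw [mul_comm, Complex.mul_conj, Complex.normSq_eq_norm_sq]
  push_cast
  rfl

theorem bil_comm (a b : Fin m → ℂ) : bil a b = bil b a :=
  Finset.sum_congr rfl fun _ _ => mul_comm _ _

theorem conj_bil (a b : Fin m → ℂ) : conj (bil a b) = bil (star a) (star b) := by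
  simp [bil]

theorem bil_add_left (a a' b : Fin m → ℂ) : bil (a + a') b = bil a b + bil a' b := by
  simp [bil, add_mul, Finset.sum_add_distrib]

theorem bil_add_right (a b b' : Fin m → ℂ) : bil a (b + b') = bil a b + bil a b' := by
  simp [bil, mul_add, Finset.sum_add_distrib]

theorem bil_smul_left (s : ℂ) (a b : Fin m → ℂ) : bil (s • a) b = s * bil a b := by
  simp [bil, Finset.mul_sum, mul_assoc]

theorem bil_smul_right (s : ℂ) (a b : Fin m → ℂ) : bil a (s • b) = s * bil a b := by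
  rw [bil_comm, bil_smul_left, bil_comm]

theorem continuous_nsq : Continuous (nsq : (Fin m → ℂ) → ℝ) := by
  unfold nsq
  fun_prop

theorem continuous_pt : Continuous (fun x : Xs m × ℝ => pt x.1 x.2) := by
  refine continuous_pi fun o => ?_
  cases o with
  | none =>
    have := continuous_nsq (m := m)
    simp only [pt, mk_none]
    fun_prop
  | some j =>
    simp only [pt, mk_some]
    fun_prop

theorem isOpen_Dom (r : ℝ) : IsOpen (Dom m r) := by
  have h1 : Continuous (fun Z : Zs m => nsq (zc Z)) :=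
    continuous_nsq.comp (continuous_pi fun j => continuous_apply _)
  have h2 : Continuous (fun Z : Zs m => (Z none).im) := by fun_prop
  exact (isOpen_lt continuous_norm continuous_const).inter (isOpen_lt h1 h2)

theorem convex_Dom (r : ℝ) : Convex ℝ (Dom m r) := by
  intro x hx y hy a b ha hb hab
  refine ⟨?_, ?_⟩
  · have := convex_ball (0 : Zs m) r (mem_ball_zero_iff.2 hx.1) (mem_ball_zero_iff.2 hy.1) ha hb hab
    exact mem_ball_zero_iff.1 this
  · have h1 : nsq (zc (a • x + b • y)) ≤ a * nsq (zc x) + b * nsq (zc y) := by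
      simp only [nsq, Finset.mul_sum, ← Finset.sum_add_distrib]
      refine Finset.sum_le_sum fun j _ => ?_
      have h2 : ‖zc (a • x + b • y) j‖ ≤ a * ‖zc x j‖ + b * ‖zc y j‖ := by
        simp only [zc_apply, Pi.add_apply, Pi.smul_apply]
        refine (norm_add_le _ _).trans ?_
        rw [norm_smul, norm_smul, Real.norm_of_nonneg ha, Real.norm_of_nonneg hb]
      have h3 : ‖zc (a • x + b • y) j‖ ^ 2 ≤ (a * ‖zc x j‖ + b * ‖zc y j‖) ^ 2 := by gcongr
      have hb' : b = 1 - a := by linarith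
      subst hb'
      nlinarith [mul_nonneg ha hb, sq_nonneg (‖zc x j‖ - ‖zc y j‖)]
    have h4 : ((a • x + b • y) none).im = a * (x none).im + b * (y none).im := by simp
    rw [h4]
    have hx2 := hx.2
    have hy2 := hy.2
    rcases eq_or_lt_of_le ha with h0 | h0
    · subst h0
      have : b = 1 := by linarith
      subst this
      linarith
    · nlinarith [mul_lt_mul_of_pos_left hx2 h0, mul_le_mul_of_nonneg_left hy2.le hb]

theorem pt_none_im (p : Xs m) (t : ℝ) : (pt p t none).im = nsq p.1 + t := by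
  simp [pt]

theorem Sm.pt_mem {r δ : ℝ} (h : Sm m r δ) {p : Xs m} (hp : p ∈ ball (0 : Xs m) δ) {t : ℝ}
    (ht : t ∈ Ioo 0 δ) : pt p t ∈ Dom m r := by
  have h1 := h.2 p (mem_ball_zero_iff.1 hp).le t (by rw [abs_of_pos ht.1]; exact ht.2.le)
  have h2 := norm_nonneg (pt p t)
  refine ⟨by linarith, ?_⟩
  rw [pt_none_im, zc_pt]
  linarith [ht.1]

theorem exists_Sm {r : ℝ} (hr : 0 < r) : ∃ δ, Sm m r δ := by
  have h0 : pt (0 : Xs m) 0 = 0 := by
    refine zs_ext ?_ fun j => ?_ <;> simp [pt, nsq]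
  have hc : ContinuousAt (fun x : Xs m × ℝ => pt x.1 x.2) (0, 0) := continuous_pt.continuousAt
  rw [Metric.continuousAt_iff] at hc
  obtain ⟨d, hd, h⟩ := hc (r / 2) (by linarith)
  refine ⟨d / 2, by linarith, fun p hp t ht => ?_⟩
  have : dist ((p, t) : Xs m × ℝ) (0, 0) < d := by
    rw [Prod.dist_eq, dist_zero_right, dist_zero_right, Real.norm_eq_abs]
    exact max_lt (by linarith) (by linarith)
  have h2 := h this
  simp only [h0, dist_zero_right] at h2
  exact h2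

end Pool.Agent.Lib.MP_601e9e_an.Rg
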