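import Pool.Agent.Lib.MP_601e9e_an.Rg.Defs

open Complex Filter Topology Set Metric MeasureTheory
open scoped ComplexConjugate ContDiff Matrix

namespace Pool.Agent.Lib.MP_601e9e_an.Rg

variable {m N : ℕ}

/-- The height over the Heisenberg hypersurface. -/
noncomputable def ht (Z : Zs m) : ℝ := (Z none).im - nsq (zc Z)

/-- Growth of the derivatives in `w` of order at most `l`. -/
def Gr (m : ℕ) (r : ℝ) (l : ℕ) (α : ℝ) (g : Zs m → ℂ) : Prop :=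
  ∃ C : ℝ, ∀ i ≤ l, ∀ Z ∈ Dom m r, ‖jet g i Z (ew m)‖ ≤ C * ht Z ^ (α - l)

/-- The family is of size `t ^ e` near the origin. -/
def Ord (e : ℝ) (f : ℝ → Xs m → ℂ) : Prop :=
  ∃ δ : ℝ, 0 < δ ∧ ∃ C : ℝ, ∀ p ∈ ball (0 : Xs m) δ, ∀ t ∈ Ioo 0 δ, ‖f t p‖ ≤ C * t ^ e

/-- The pairing of two tangential jets on the level `t`. -/
noncomputable def pr (F : Fin N → Zs m → ℂ) (ξ η : Fin m → ℂ) (i j : ℕ) (t : ℝ) (p : Xs m) : ℂ :=
  ∑ a, cj (F a) ξ i t p * conj (cj (F a) η j t p) - if i = 0 ∧ j = 0 then 1 else 0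

/-- Exponents of growth of the jets and of decay of the pairings with the map. -/
structure Bud (F : Fin N → Zs m → ℂ) (b : ℕ → ℝ) (c : ℝ) : Prop where
  mono : Monotone b
  nonneg : ∀ j, 0 ≤ b j
  le_one : c ≤ 1
  bdd : ∀ a, Ord 0 (fun t p => F a (pt p t))
  grow : ∀ a ξ j, Ord (-b j) (cj (F a) ξ j)
  rho : ∀ ξ j, b j < c → Ord (c - b j) (pr F ξ 0 j 0)

/-- The matrix of a family of jets along the hyperplane with slope `ζ`. -/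
noncomputable def hx {ι κ : Type*} (G : ι → Zs m → ℂ) (C : κ → ℕ × (Fin m → ℂ)) (Z : Zs m)
    (ζ : Fin m → ℂ) : Matrix ι κ ℂ :=
  Matrix.of fun a x => jet (G a) (C x).1 Z (tv ζ (C x).2)

/-- The family of jets is linearly independent. -/
def HInd {ι κ : Type*} (G : ι → Zs m → ℂ) (C : κ → ℕ × (Fin m → ℂ)) (Z : Zs m)
    (ζ : Fin m → ℂ) : Prop :=
  LinearIndependent ℂ (fun (x : κ) (a : ι) => hx G C Z ζ a x)

/-- One more column. -/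
def snoc {κ : Type*} (C : κ → ℕ × (Fin m → ℂ)) (y : ℕ × (Fin m → ℂ)) :
    Option κ → ℕ × (Fin m → ℂ) := fun o => o.elim y C

/-- The family cannot be enlarged by the map itself or by a jet of the next order. -/
def Cl {ι κ : Type*} (G : ι → Zs m → ℂ) (C : κ → ℕ × (Fin m → ℂ)) (D : Set (Zs m)) : Prop :=
  ∀ y : ℕ × (Fin m → ℂ), (y.1 = 0 ∨ ∃ x, y.1 = (C x).1 + 1) →
    ∀ Z ∈ D, ∀ ζ, ¬ HInd G (snoc C y) Z ζ

/-- The jets of order at most `K` along a frame. -/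
def frC (ξ : Fin m → Fin m → ℂ) (K : ℕ) : Option (Fin m × Fin K) → ℕ × (Fin m → ℂ) :=
  fun o => o.elim (0, 0) fun x => (x.2 + 1, ξ x.1)

/-- The map is rational. -/
def IsRat (m : ℕ) (r : ℝ) (F : Fin N → Zs m → ℂ) : Prop :=
  ∃ (q : MvPolynomial (Option (Fin m)) ℂ) (P : Fin N → MvPolynomial (Option (Fin m)) ℂ),
    q ≠ 0 ∧ ∀ Z ∈ Dom m r, ∀ a, MvPolynomial.eval Z q * F a Z = MvPolynomial.eval Z (P a)

/-- The map extends holomorphically across some boundary point. -/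
def Ext (m : ℕ) (r : ℝ) (F : Fin N → Zs m → ℂ) : Prop :=
  ∃ p : Xs m, ‖pt p 0‖ < r ∧ ∃ U : Set (Zs m), IsOpen U ∧ pt p 0 ∈ U ∧
    ∃ G : Fin N → Zs m → ℂ, (∀ a, DifferentiableOn ℂ (G a) U) ∧
      ∀ a, ∀ Z ∈ U ∩ Dom m r, G a Z = F a Z

/-- First and second derivatives along a hyperplane. -/
abbrev J2 (m N : ℕ) := (Fin m → Fin N → ℂ) × (Fin m → Fin m → Fin N → ℂ)

noncomputable def j2 (F : Fin N → Zs m → ℂ) (x : Zs m × (Fin m → ℂ)) : J2 m N :=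
  (fun i a => dd (tv x.2 (Pi.single i 1)) (F a) x.1,
    fun i j a => dd (tv x.2 (Pi.single i 1)) (dd (tv x.2 (Pi.single j 1)) (F a)) x.1)

noncomputable def l1 (V : J2 m N) (ξ : Fin m → ℂ) : Fin N → ℂ := fun a => ∑ i, ξ i * V.1 i a

noncomputable def l2 (V : J2 m N) (A : Matrix (Fin m) (Fin m) ℂ) : Fin N → ℂ :=
  fun a => ∑ i, ∑ j, A i j * V.2 i j a

noncomputable def q2 (V : J2 m N) (ξ : Fin m → ℂ) : Fin N → ℂ := l2 V (Matrix.vecMulVec ξ ξ)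

/-- The second jet in the direction `ξ` is parallel to the first. -/
def Par (V : J2 m N) (ξ : Fin m → ℂ) : Prop :=
  ∀ a b, q2 V ξ a * l1 V ξ b - q2 V ξ b * l1 V ξ a = 0

/-- The orthogonality relations of order two. -/
def Rel2 (V : J2 m N) : Prop :=
  (∀ i j, V.2 i j = V.2 j i) ∧ ∀ ξ η : Fin m → ℂ, bil ξ (star η) = 0 →
    ∑ a, l1 V ξ a * conj (l1 V η a) = 0 ∧ ∑ a, q2 V ξ a * conj (l1 V η a) = 0 ∧
      ∑ a, q2 V ξ a * conj (q2 V η a) = 0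

/-- A holomorphic field of projections onto the directions of flatness. -/
structure KD (F : Fin N → Zs m → ℂ) (ζ : Fin m → ℂ) (O : Set (Zs m))
    (P : Zs m → Matrix (Fin m) (Fin m) ℂ) : Prop where
  hol : ∀ i j, DifferentiableOn ℂ (fun Z => P Z i j) O
  idem : ∀ Z ∈ O, P Z * P Z = P Z
  inj : ∀ Z ∈ O, LinearIndependent ℂ (j2 F (Z, ζ)).1
  par : ∀ Z ∈ O, ∀ x, P Z *ᵥ x = x → Par (j2 F (Z, ζ)) x
  ker : ∀ Z ∈ O, ∀ A : Matrix (Fin m) (Fin m) ℂ, A.IsSymm →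
    (∃ y, l2 (j2 F (Z, ζ)) A = l1 (j2 F (Z, ζ)) y) → P Z * A = A
  two : ∀ Z ∈ O, ∃ x y, P Z *ᵥ x = x ∧ P Z *ᵥ y = y ∧ LinearIndependent ℂ ![x, y]

/-- A rectangle. -/
def Rc (a : ℝ) : Set ℂ := {w | |w.re| < a ∧ 0 < w.im ∧ w.im < 2 * a}

/-- The kernel. -/
noncomputable def kap (t : ℝ) (w : ℂ) : ℂ := t / ((w - t * I) * (w + t / 2 * I))

/-- A functional that vanishes on holomorphic functions. -/
noncomputable def Lam (χ : ℝ → ℝ) (b : ℂ → ℂ) (y₁ y₂ : ℝ) : ℂ :=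
  (∫ u : ℝ, χ u * b (u + y₁ * I)) - (∫ u : ℝ, χ u * b (u + y₂ * I)) -
    I * ∫ y in y₁..y₂, ∫ u : ℝ, (deriv χ u : ℝ) * b (u + y * I)

/-- A cut-off function. -/
structure Cut (a : ℝ) (χ : ℝ → ℝ) : Prop where
  smooth : ContDiff ℝ ∞ χ
  cpt : HasCompactSupport χ
  supp : tsupport χ ⊆ Ioo (-a) a
  one : ∀ u, |u| < a / 2 → χ u = 1
  nonneg : ∀ u, 0 ≤ χ u
  le_one : ∀ u, χ u ≤ 1

/-- A pair of holomorphic functions with growth bounds. -/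
structure Pair (a β γ M : ℝ) (g f : ℂ → ℂ) : Prop where
  pos : 0 ≤ M
  hg : DifferentiableOn ℂ g (Rc a)
  hf : DifferentiableOn ℂ f (Rc a)
  bg : ∀ w ∈ Rc a, ‖g w‖ ≤ M * w.im ^ (-β)
  bf : ∀ w ∈ Rc a, ‖f w‖ ≤ M * w.im ^ (-γ)
  bd : ∀ w ∈ Rc a, ‖deriv f w‖ ≤ M * w.im ^ (-γ)

theorem ht_pt (p : Xs m) (t : ℝ) : ht (pt p t) = t := by
  simp [ht, pt_none_im]

theorem mem_Dom {r : ℝ} {Z : Zs m} : Z ∈ Dom m r ↔ ‖Z‖ < r ∧ 0 < ht Z := by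
  simp [Dom, ht]

theorem Sm.mono {r δ δ' : ℝ} (h : Sm m r δ) (h0 : 0 < δ') (hle : δ' ≤ δ) : Sm m r δ' :=
  ⟨h0, fun p hp t ht => h.2 p (hp.trans hle) t (ht.trans hle)⟩

theorem tv_add (ζ ξ η : Fin m → ℂ) : tv ζ (ξ + η) = tv ζ ξ + tv ζ η := by
  refine zs_ext ?_ fun j => ?_
  · simp [tv, bil_add_right, mul_add]
  · simp [tv]

theorem tv_smul (ζ ξ : Fin m → ℂ) (s : ℂ) : tv ζ (s • ξ) = s • tv ζ ξ := by
  refine zs_ext ?_ fun j => ?_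
  · simp [tv, bil_smul_right]; ring
  · simp [tv]

theorem tv_sum (ζ ξ : Fin m → ℂ) : tv ζ ξ = ∑ i, ξ i • tv ζ (Pi.single i 1) := by
  refine zs_ext ?_ fun j => ?_
  · simp [tv, bil, Finset.sum_apply, Pi.single_apply, Finset.mul_sum]
    exact Finset.sum_congr rfl fun i _ => by ring
  · simp [tv, Finset.sum_apply, Pi.single_apply]

end Pool.Agent.Lib.MP_601e9e_an.Rg
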