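import Pool.Agent.Lib.MP_601e9e_an.Rg.Defs2

open Complex Filter Topology Set Metric MeasureTheory
open scoped ComplexConjugate ContDiff Matrix

namespace Pool.Agent.Lib.MP_601e9e_an.Rg

variable {m N e : ℕ}

/-- First derivatives and chosen second jets as columns. -/
noncomputable def kM (ξ : Fin e → Fin m → ℂ) (V : J2 m N) : Matrix (Fin N) (Fin m ⊕ Fin e) ℂ :=
  Matrix.of fun a x => Sum.elim (fun i => V.1 i a) (fun c => q2 V (ξ c) a) x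

noncomputable def kD (ξ : Fin e → Fin m → ℂ) (π : Matrix (Fin m ⊕ Fin e) (Fin N) ℂ)
    (V : J2 m N) : ℂ := (π * kM ξ V).det

noncomputable def kC (ξ : Fin e → Fin m → ℂ) (π : Matrix (Fin m ⊕ Fin e) (Fin N) ℂ)
    (V : J2 m N) (A : Matrix (Fin m) (Fin m) ℂ) : Fin m ⊕ Fin e → ℂ :=
  ((π * kM ξ V).adjugate * π) *ᵥ l2 V A

noncomputable def kK (ξ : Fin e → Fin m → ℂ) (π : Matrix (Fin m ⊕ Fin e) (Fin N) ℂ)
    (V : J2 m N) (A : Matrix (Fin m) (Fin m) ℂ) : Matrix (Fin m) (Fin m) ℂ :=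
  kD ξ π V • A - ∑ c, kC ξ π V A (Sum.inr c) • Matrix.vecMulVec (ξ c) (ξ c)

def kE (i j : Fin m) : Matrix (Fin m) (Fin m) ℂ := Matrix.single i j 1 + Matrix.single j i 1

noncomputable def kX (ξ : Fin e → Fin m → ℂ) (π : Matrix (Fin m ⊕ Fin e) (Fin N) ℂ)
    (V : J2 m N) : Matrix (Fin m) (Fin m × Fin m × Fin m) ℂ :=
  Matrix.of fun i s => kK ξ π V (kE s.1 s.2.1) i s.2.2

def kS (ξ : Fin e → Fin m → ℂ) (π : Matrix (Fin m ⊕ Fin e) (Fin N) ℂ) : Set (J2 m N) :=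
  {V | ∀ i j, kD ξ π V • l2 V (kE i j) = kM ξ V *ᵥ kC ξ π V (kE i j)}

end Pool.Agent.Lib.MP_601e9e_an.Rg
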