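import Pool.Agent.Lib.MP_601e9e_an.Rg.Wron
import Pool.Agent.Lib.MP_601e9e_an.Rg.Poly

open Complex Filter Topology Set Metric MeasureTheory
open scoped ComplexConjugate ContDiff

namespace Pool.Agent.Lib.MP_601e9e_an.Rg

variable {m N : ℕ}

/-- Evaluation of a polynomial. -/
noncomputable def dgE (Q : MvPolynomial (Option (Fin m)) ℂ) : Zs m → ℂ :=
  fun Y => MvPolynomial.eval Y Q

/-- Evaluation of the conjugate polynomial. -/
noncomputable def dgS (Q : MvPolynomial (Option (Fin m)) ℂ) : Zs m → ℂ :=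
  dgE (MvPolynomial.map (starRingEnd ℂ) Q)

/-- The polarised Gram matrix of the jets. -/
noncomputable def dgG (P : Option (Fin N) → MvPolynomial (Option (Fin m)) ℂ) (Z v η u : Zs m)
    (j l : ℕ) : ℂ :=
  ∑ o, sg o * jet (dgE (P o)) j Z v * jet (dgS (P o)) l η u

/-- Its square part. -/
noncomputable def dgM (P : Option (Fin N) → MvPolynomial (Option (Fin m)) ℂ) (r : ℕ)
    (Z v η u : Zs m) : Matrix (Fin r) (Fin r) ℂ :=
  Matrix.of fun j l => dgG P Z v η u (j + 1) (l + 1)

/-- The polarised equation. -/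
def dgPol (P : Option (Fin N) → MvPolynomial (Option (Fin m)) ℂ) : Prop :=
  ∀ (Z : Zs m) (ζ : Fin m → ℂ), ∑ o, sg o * dgE (P o) Z * dgS (P o) (du Z ζ) = 0

variable {P : Option (Fin N) → MvPolynomial (Option (Fin m)) ℂ}

theorem dg_hol (Q : MvPolynomial (Option (Fin m)) ℂ) : Differentiable ℂ (dgE Q) := hol_eval Q

theorem dg_hol2 (Q : MvPolynomial (Option (Fin m)) ℂ) (j : ℕ) :
    Differentiable ℂ (fun x : Zs m × Zs m => jet (dgE Q) j x.1 x.2) := by
  have h := hol_jet2 isOpen_univ (dg_hol Q).differentiableOn j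
  rwa [univ_prod_univ, differentiableOn_univ] at h

theorem dg_zc {E : Type*} [NormedAddCommGroup E] [NormedSpace ℂ E] {f : E → Zs m}
    (hf : Differentiable ℂ f) : Differentiable ℂ (fun x => zc (f x)) :=
  differentiable_pi.2 fun j => differentiable_pi.1 hf (some j)

theorem dg_du : Differentiable ℂ (fun x : Zs m × (Fin m → ℂ) => du x.1 x.2) :=
  hol_mk differentiable_snd (Differentiable.fun_sub (by fun_prop)
    ((hol_bil differentiable_snd (dg_zc differentiable_fst)).const_mul _))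

theorem dg_du_real (p : Xs m) : du (pt p 0) (star p.1) = star (pt p 0) := by
  refine zs_ext ?_ fun j => rfl
  simp only [du, mk_none, bil_star_self, pt, Pi.star_apply, RCLike.star_def, map_add,
    map_mul, conj_ofReal, conj_I, add_zero, zc_mk]
  ring

theorem dg_dv_real (z ξ : Fin m → ℂ) : dv z (star ξ) = star (tv (star z) ξ) := by
  refine zs_ext ?_ fun j => rfl
  simp only [dv, tv, mk_none, Pi.star_apply, RCLike.star_def, map_mul, conj_bil, star_star,
    conj_I, map_ofNat]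
  ring

theorem dg_star (Q : MvPolynomial (Option (Fin m)) ℂ) (j : ℕ) (Z v : Zs m) :
    jet (dgS Q) j (star Z) (star v) = conj (jet (dgE Q) j Z v) := jet_star Q j Z v

theorem dg_pol {δ : ℝ} (hδ : 0 < δ)
    (hq : ∀ p ∈ ball (0 : Xs m) δ, ∑ a, ‖MvPolynomial.eval (pt p 0) (P (some a))‖ ^ 2 =
      ‖MvPolynomial.eval (pt p 0) (P none)‖ ^ 2) : dgPol P := fun Z ζ => by
  refine trq (φ := fun x => ∑ o, sg o * dgE (P o) x.1 * dgS (P o) (du x.1 x.2))
    (Differentiable.fun_sum fun o _ => ((((dg_hol _).comp differentiable_fst).const_mul _).mul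
      ((dg_hol _).comp dg_du))) hδ (fun p hp => ?_) (Z, ζ)
  have h1 : ∀ o, dgS (P o) (star (pt p 0)) = conj (dgE (P o) (pt p 0)) := fun o =>
    dg_star (P o) 0 _ 0
  have h2 := congrArg (fun x : ℝ => (x : ℂ)) (hq p hp)
  simp only [dg_du_real, h1, Fintype.sum_option, sg_none, sg_some, one_mul, mul_assoc, mul_conj,
    normSq_eq_norm_sq]
  simp only [ofReal_sum] at h2
  simp only [dgE]
  rw [h2]
  ring

theorem dg_du_line {v : Zs m} {ζ : Fin m → ℂ} (hv : tv ζ (zc v) = v) (Z : Zs m) (s τ : ℂ)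
    (ξ : Fin m → ℂ) : du (Z + s • v) (ζ + τ • ξ) =
      du Z ζ + τ • (dv (zc Z) ξ + s • mk 0 (-(2 * I * bil (zc v) ξ))) := by
  refine zs_ext ?_ fun j => by simp [du, dv]
  have h1 : v none = 2 * I * bil ζ (zc v) := by
    conv_lhs => rw [← hv]
    rfl
  have h2 : zc (Z + s • v) = zc Z + s • zc v := rfl
  simp only [du, dv, mk_none, Pi.add_apply, Pi.smul_apply, smul_eq_mul, h2, bil_add_left,
    bil_add_right, bil_smul_left, bil_smul_right, h1, bil_comm ξ]
  ring

theorem dg_orth (hP : dgPol P) {v : Zs m} {ζ : Fin m → ℂ} (hv : tv ζ (zc v) = v) (Z u : Zs m)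
    (j : ℕ) : dgG P Z v (du Z ζ) u j 0 = 0 := by
  have h1 := jet_eq_zero_of_line (g := fun Y => ∑ o, sg o * dgS (P o) (du Z ζ) * dgE (P o) Y)
    isOpen_univ (Differentiable.fun_sum fun o _ => (dg_hol _).const_mul _).differentiableOn
    (mem_univ Z) (v := v) (Eventually.of_forall fun s => by
      have h2 := hP (Z + s • v) (ζ + (0 : ℂ) • 0)
      rw [dg_du_line hv, zero_smul, add_zero] at h2
      rw [← h2]
      exact Finset.sum_congr rfl fun o _ => by ring) j
  rw [jet_sum _ _ isOpen_univ (fun o => (dg_hol (P o)).differentiableOn) j (mem_univ Z)] at h1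
  rw [← h1]
  exact Finset.sum_congr rfl fun o _ => by rw [jet_zero]; ring

theorem dg_orth' (hP : dgPol P) {v : Zs m} {ζ : Fin m → ℂ} (hv : tv ζ (zc v) = v) (Z : Zs m)
    (s : ℂ) (ξ : Fin m → ℂ) (l : ℕ) : ∑ o, sg o * dgE (P o) (Z + s • v) *
      jet (dgS (P o)) l (du Z ζ) (dv (zc Z) ξ + s • mk 0 (-(2 * I * bil (zc v) ξ))) = 0 := by
  have h1 := jet_eq_zero_of_line (g := fun Y => ∑ o, sg o * dgE (P o) (Z + s • v) * dgS (P o) Y)
    isOpen_univ (Differentiable.fun_sum fun o _ => (dg_hol _).const_mul _).differentiableOn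
    (mem_univ (du Z ζ)) (v := dv (zc Z) ξ + s • mk 0 (-(2 * I * bil (zc v) ξ)))
    (Eventually.of_forall fun τ => by
      have h2 := hP (Z + s • v) (ζ + τ • ξ)
      rwa [dg_du_line hv] at h2) l
  rwa [jet_sum (G := fun o => dgS (P o)) _ _ isOpen_univ
    (fun o => (dg_hol _).differentiableOn) l (mem_univ _)] at h1

theorem dg_ind {r : ℕ} {Z v : Zs m} (hind : Ind (fun o => dgE (P o)) (r + 1) Z v) (c₀ : ℂ)
    (c : Fin r → ℂ)
    (h : ∀ o, c₀ * dgE (P o) Z + ∑ j, c j * jet (dgE (P o)) (j + 1) Z v = 0) :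
    c₀ = 0 ∧ c = 0 := by
  have h1 := Fintype.linearIndependent_iff.1 hind (Fin.cons c₀ c) (funext fun o => by
    rw [Finset.sum_apply, Fin.sum_univ_succ]
    exact h o)
  exact ⟨h1 0, funext fun j => h1 j.succ⟩

theorem dg_gram (hP : dgPol P) {r : ℕ} (p : Xs m) (ξ : Fin m → ℂ)
    (hind : Ind (fun o => dgE (P o)) (r + 1) (pt p 0) (tv (star p.1) ξ))
    (h0 : dgE (P none) (pt p 0) ≠ 0) :
    (dgM P r (pt p 0) (tv (star p.1) ξ) (du (pt p 0) (star p.1)) (dv p.1 (star ξ))).det ≠ 0 := by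
  intro hd
  obtain ⟨c, hc, h1⟩ := Matrix.exists_vecMul_eq_zero_iff.2 hd
  have h2 := fun j => dg_orth hP (v := tv (star p.1) ξ) (ζ := star p.1) rfl (pt p 0)
    (dv p.1 (star ξ)) j
  have h3 : ∀ l : Fin r, ∑ j, c j * dgG P (pt p 0) (tv (star p.1) ξ) (du (pt p 0) (star p.1))
      (dv p.1 (star ξ)) (j + 1) (l + 1) = 0 := fun l => congrFun h1 l
  simp only [dgG, dg_du_real, dg_dv_real, dg_star] at h2 h3
  set W : ℕ → Option (Fin N) → ℂ := fun j o => jet (dgE (P o)) j (pt p 0) (tv (star p.1) ξ)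
    with hW
  change ∀ j, ∑ o, sg o * W j o * conj (W 0 o) = 0 at h2
  change ∀ l : Fin r, ∑ j : Fin r, c j * ∑ o, sg o * W (j + 1) o * conj (W (l + 1) o) = 0 at h3
  change W 0 none ≠ 0 at h0
  obtain ⟨t, ht⟩ : ∃ t, t * W 0 none + ∑ j : Fin r, c j * W (j + 1) none = 0 :=
    ⟨-(∑ j : Fin r, c j * W (j + 1) none) / W 0 none, by field_simp; ring⟩
  set y : Option (Fin N) → ℂ := fun o => t * W 0 o + ∑ j : Fin r, c j * W (j + 1) o with hy
  have h4 : ∀ x : Option (Fin N) → ℂ, ∑ o, sg o * y o * x o =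
      t * ∑ o, sg o * W 0 o * x o + ∑ j : Fin r, c j * ∑ o, sg o * W (j + 1) o * x o := fun x => by
    simp only [hy, Finset.mul_sum, mul_add, add_mul, Finset.sum_add_distrib, Finset.sum_mul]
    rw [Finset.sum_comm]
    congr 1 <;> simp only [mul_assoc, mul_left_comm]
  have h5 : ∀ l, ∑ o, sg o * W 0 o * conj (W l o) = 0 := fun l => by
    have h6 := congrArg conj (h2 l)
    rw [map_sum, map_zero] at h6
    rw [← h6]
    refine Finset.sum_congr rfl fun o _ => ?_
    cases o <;> simp [mul_comm]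
  have h6 : ∑ o, sg o * y o * conj (y o) = 0 := by
    have h7 : ∑ o, sg o * y o * conj (y o) = conj t * ∑ o, sg o * y o * conj (W 0 o) +
        ∑ l : Fin r, conj (c l) * ∑ o, sg o * y o * conj (W (l + 1) o) := by
      conv_lhs => enter [2, o, 2]; rw [hy]
      simp only [map_add, map_mul, map_sum, Finset.mul_sum, mul_add, Finset.sum_add_distrib]
      rw [Finset.sum_comm]
      congr 1 <;> simp only [mul_assoc, mul_left_comm]
    simp only [h7, h4, h2, h3, h5, mul_zero, Finset.sum_const_zero, add_zero]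
  have h7 : y none = 0 := ht
  simp only [Fintype.sum_option, h7, mul_zero, zero_mul, zero_add, sg_some, one_mul,
    mul_conj] at h6
  have h8 : ∑ a, normSq (y (some a)) = 0 := by exact_mod_cast h6
  rw [Finset.sum_eq_zero_iff_of_nonneg fun a _ => normSq_nonneg _] at h8
  refine hc (dg_ind hind t c fun o => ?_).2
  cases o with
  | none => exact ht
  | some a => exact normSq_eq_zero.1 (h8 a (Finset.mem_univ a))

theorem dg_diff {d : ℕ} {f : ℂ → ℂ} (h : PolyLe d f) : Differentiable ℂ f := by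
  obtain ⟨p, -, hp⟩ := h
  rw [show f = fun s => p.eval s from funext hp]
  exact p.differentiable

theorem dg_line (hP : dgPol P) {r : ℕ}
    (hdep : ∀ Z ∈ (univ : Set (Zs m)), ∀ v, ¬ Ind (fun o => dgE (P o)) (r + 1 + 1) Z v)
    {Z v : Zs m} {ζ ξ : Fin m → ℂ} (hv : tv ζ (zc v) = v)
    (hind : Ind (fun o => dgE (P o)) (r + 1) Z v)
    (hdet : (dgM P r Z v (du Z ζ) (dv (zc Z) ξ)).det ≠ 0) :
    ∃ p : Option (Fin N) → ℂ → ℂ, (∀ a, PolyLe (∑ l : Fin r, ((l : ℕ) + 1)) (p a)) ∧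
      (∃ a s, p a s ≠ 0) ∧ ∀ a b (s : ℂ),
        dgE (P a) (Z + s • v) * p b s = dgE (P b) (Z + s • v) * p a s := by
  set u : ℂ → Zs m := fun s => dv (zc Z) ξ + s • mk 0 (-(2 * I * bil (zc v) ξ)) with hu
  set Γ : ℂ → Matrix (Fin r) (Fin r) ℂ := fun s => dgM P r Z v (du Z ζ) (u s) with hΓ
  set R : ℂ → Fin r → ℂ := fun s l => dgG P Z v (du Z ζ) (u s) 0 (l + 1) with hR
  have h1 : ∀ j l, PolyLe l fun s => dgG P Z v (du Z ζ) (u s) j l := fun j l =>
    PolyLe.sum _ fun o _ => (polyLe_jet isOpen_univ (dg_hol _).differentiableOn l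
      (mem_univ _) _ _).const_mul _
  have h2 : PolyLe (∑ l : Fin r, ((l : ℕ) + 1)) fun s => (Γ s).det :=
    PolyLe.det _ fun j l => h1 _ _
  have h3 : ∀ j, PolyLe (∑ l : Fin r, ((l : ℕ) + 1)) fun s =>
      ((Γ s).updateRow j (R s)).det := fun j => PolyLe.det _ fun i l => by
    by_cases h : i = j
    · simp only [h, Matrix.updateRow_self]
      exact h1 _ _
    · simp only [Matrix.updateRow_ne h]
      exact h1 _ _
  have h4 : (Γ 0).det ≠ 0 := by simpa [hΓ, hu] using hdet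
  set p : Option (Fin N) → ℂ → ℂ := fun o s => (Γ s).det * dgE (P o) Z +
    ∑ j, -((Γ s).updateRow j (R s)).det * jet (dgE (P o)) (j + 1) Z v with hp
  have h5 : ∀ o, PolyLe (∑ l : Fin r, ((l : ℕ) + 1)) (p o) := fun o =>
    (h2.mul_const _).add (PolyLe.sum _ fun j _ => by
      simpa using ((h3 j).const_mul (-1)).mul_const (jet (dgE (P o)) (j + 1) Z v))
  have h6 : ∀ s, ∃ c₀, ∀ o, (Γ s).det * dgE (P o) (Z + s • v) = c₀ * p o s := fun s => by
    obtain ⟨c, hc⟩ := wron_span isOpen_univ convex_univ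
      (fun o => (dg_hol (P o)).differentiableOn) hdep (mem_univ Z) hind (mem_univ (Z + s • v)) 0
    simp only [jet_zero, Fin.sum_univ_succ, Fin.val_zero, Fin.val_succ] at hc
    have h7 : ∑ j : Fin r, c j.succ • Γ s j = (-c 0) • R s := funext fun l => by
      have h8 := dg_orth' hP hv Z s ξ (l + 1)
      simp only [hc, mul_add, add_mul, Finset.sum_add_distrib, Finset.mul_sum,
        Finset.sum_mul] at h8
      rw [Finset.sum_comm] at h8
      simp only [Finset.sum_apply, Pi.smul_apply, smul_eq_mul, hΓ, hR, dgM, dgG, Matrix.of_apply,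
        jet_zero, neg_mul, Finset.mul_sum, Finset.sum_neg_distrib]
      rw [eq_neg_iff_add_eq_zero, ← h8, add_comm]
      congr 1 <;> simp only [hu, mul_assoc, mul_left_comm]
    refine ⟨c 0, fun o => ?_⟩
    have h8 : ∀ j : Fin r, c j.succ * (Γ s).det = -c 0 * ((Γ s).updateRow j (R s)).det :=
      fun j => by
        rw [← Matrix.det_updateRow_smul, ← h7, Matrix.det_updateRow_sum, smul_eq_mul]
    rw [hc o, hp]
    simp only [mul_add, Finset.mul_sum]
    congr 1
    · ring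
    · exact Finset.sum_congr rfl fun j _ => by
        linear_combination jet (dgE (P o)) (j + 1) Z v * h8 j
  refine ⟨p, h5, ?_, fun a b s => sub_eq_zero.1 ?_⟩
  · by_contra! h
    exact h4 (dg_ind hind _ _ fun o => h o 0).1
  · have h7 : ∀ o, Differentiable ℂ fun s : ℂ => dgE (P o) (Z + s • v) := fun o =>
      (dg_hol _).comp (by fun_prop)
    refine eq_zero_of_mul (h := fun s => dgE (P a) (Z + s • v) * p b s -
      dgE (P b) (Z + s • v) * p a s) isOpen_univ convex_univ (dg_diff h2).differentiableOn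
      (((h7 a).mul (dg_diff (h5 b))).sub ((h7 b).mul (dg_diff (h5 a)))).differentiableOn
      ⟨0, mem_univ _, h4⟩ (fun s _ => ?_) s (mem_univ s)
    obtain ⟨c₀, h8⟩ := h6 s
    linear_combination p b s * h8 a - p a s * h8 b

/-- The degree of a polynomial map between the quadric cones on generic lines. -/
theorem deg_lines (hm : 0 < m) (P : Option (Fin N) → MvPolynomial (Option (Fin m)) ℂ)
    (h0 : P none ≠ 0) {δ : ℝ} (hδ : 0 < δ)
    (hq : ∀ p ∈ ball (0 : Xs m) δ, ∑ a, ‖MvPolynomial.eval (pt p 0) (P (some a))‖ ^ 2 =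
      ‖MvPolynomial.eval (pt p 0) (P none)‖ ^ 2) {K : ℕ}
    (hdep : ∀ Z v : Zs m, ¬ Ind (fun o Y => MvPolynomial.eval Y (P o)) (K + 1) Z v) :
    ∃ O : Set (Zs m × Zs m), IsOpen O ∧ O.Nonempty ∧
      ∀ x ∈ O, ∃ p : Option (Fin N) → ℂ → ℂ, (∀ a, PolyLe (K * (K - 1) / 2) (p a)) ∧
        (∃ a s, p a s ≠ 0) ∧
        ∀ a b (s : ℂ), MvPolynomial.eval (x.1 + s • x.2) (P a) * p b s =
          MvPolynomial.eval (x.1 + s • x.2) (P b) * p a s := by
  have hP := dg_pol hδ hq
  obtain ⟨r, hrK, h1, Z₀, -, v₀, h2⟩ := exists_rank (D := univ) (G := fun o => dgE (P o))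
    univ_nonempty fun Z _ v => hdep Z v
  obtain ⟨Z₁, -, h3⟩ := exists_eval_ne_zero h0 isOpen_univ univ_nonempty
  obtain _ | r := r
  · exact absurd ((linearIndependent_unique_iff (ι := Fin 1)).2 fun h => h3 (congrFun h none))
      (h1 Z₁ (mem_univ _) 0)
  obtain ⟨π, hπ⟩ := exists_left (M := jm (fun o => dgE (P o)) (r + 1) Z₀ v₀) h2
  set Δ : Zs m × Zs m → ℂ := fun x => (π * jm (fun o => dgE (P o)) (r + 1) x.1 x.2).det with hΔ
  have h4 : Differentiable ℂ Δ := differentiableOn_univ.1 (hol_det fun i j => by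
    simp only [Matrix.mul_apply]
    exact (Differentiable.fun_sum fun o _ => (dg_hol2 _ _).const_mul _).differentiableOn)
  let j₀ : Fin m := ⟨0, hm⟩
  have h5 : Differentiable ℂ fun x : Zs m × Zs m => dgE (P none) x.1 * x.2 (some j₀) :=
    ((dg_hol _).comp differentiable_fst).mul (differentiable_pi.1 differentiable_snd _)
  obtain ⟨x₁, -, h6, h7⟩ := exists_mul_ne_zero isOpen_univ convex_univ h4.differentiableOn
    h5.differentiableOn ⟨(Z₀, v₀), mem_univ _, hπ⟩
    ⟨(Z₁, fun _ => 1), mem_univ _, mul_ne_zero h3 one_ne_zero⟩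
  obtain ⟨h7, h8⟩ := mul_ne_zero_iff.1 h7
  obtain ⟨ζ₁, h9⟩ := exists_tv x₁.2 j₀ h8
  obtain ⟨p, h10⟩ : ∃ p : Xs m,
      Δ (pt p 0, tv (star p.1) (zc x₁.2)) * dgE (P none) (pt p 0) ≠ 0 := by
    by_contra! h
    have h10 := trq (φ := fun x => Δ (x.1, tv x.2 (zc x₁.2)) * dgE (P none) x.1)
      ((h4.comp (differentiable_fst.prodMk (hol_mk (differentiable_const _)
        ((hol_bil differentiable_snd (differentiable_const _)).const_mul _)))).mul
        ((dg_hol _).comp differentiable_fst)) one_pos (fun p _ => h p) (x₁.1, ζ₁)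
    simp only [h9] at h10
    exact mul_ne_zero h6 h7 h10
  obtain ⟨h10, h11⟩ := mul_ne_zero_iff.1 h10
  have h12 := dg_gram hP p _ (ind_of_det h10) h11
  set ξ := zc x₁.2
  set x₀ : Zs m × Zs m := (pt p 0, tv (star p.1) ξ) with hx₀
  set ζ : Zs m → Fin m → ℂ := fun v => star p.1 +
    ((v none - 2 * I * bil (star p.1) (zc v)) / (2 * I * v (some j₀))) • Pi.single j₀ 1 with hζ
  have h13 : ζ x₀.2 = star p.1 := by simp [hζ, hx₀, tv]
  have h14 : x₀.2 (some j₀) ≠ 0 := h8
  have h15 : ContinuousAt (fun x : Zs m × Zs m => ζ x.2) x₀ := by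
    have h15 := (hol_bil (differentiable_const (star p.1))
      (dg_zc (differentiable_snd (𝕜 := ℂ) (E := Zs m) (F := Zs m)))).continuous
    have h16 := mul_ne_zero (mul_ne_zero two_ne_zero I_ne_zero) h14
    simp only [hζ]
    fun_prop (disch := exact h16)
  have h16 : ContinuousAt (fun x : Zs m × Zs m =>
      (dgM P r x.1 x.2 (du x.1 (ζ x.2)) (dv (zc x.1) (star ξ))).det) x₀ := by
    refine (continuous_id.matrix_det.continuousAt).comp
      (continuousAt_pi.2 fun j => continuousAt_pi.2 fun l => ?_)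
    simp only [dgG, Matrix.of_apply]
    refine tendsto_finsetSum _ fun o _ => ContinuousAt.mul (f := fun x : Zs m × Zs m =>
      sg o * jet (dgE (P o)) (j + 1) x.1 x.2)
      ((dg_hol2 _ _).const_mul _).continuous.continuousAt ?_
    exact (dg_hol2 _ _).continuous.continuousAt.comp (f := fun x : Zs m × Zs m =>
      (du x.1 (ζ x.2), dv (zc x.1) (star ξ))) (ContinuousAt.prodMk
        (dg_du.continuous.continuousAt.comp (continuousAt_fst.prodMk h15))
        (hol_mk (differentiable_const _) ((hol_bil (dg_zc differentiable_fst)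
          (differentiable_const _)).const_mul _).neg).continuous.continuousAt)
  have h17 := ((h4.continuous.continuousAt.eventually_ne h10).and
    (h16.eventually_ne (by rw [h13]; exact h12))).and
    ((show ContinuousAt (fun x : Zs m × Zs m => x.2 (some j₀)) x₀ by fun_prop).eventually_ne h14)
  refine ⟨interior _, isOpen_interior, ⟨x₀, mem_interior_iff_mem_nhds.2 h17⟩, fun x hx => ?_⟩
  obtain ⟨⟨h18, h19⟩, h20⟩ := interior_subset hx
  obtain ⟨q, h21, h22⟩ := dg_line hP h1 (ζ := ζ x.2) (zs_ext (by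
    have h21 : bil (Pi.single j₀ 1) (zc x.2) = x.2 (some j₀) := by simp [bil, Pi.single_apply]
    simp only [tv, mk_none, hζ, bil_add_left, bil_smul_left, h21]
    field_simp
    ring) fun _ => rfl) (ind_of_det h18) h19
  refine ⟨q, fun a => (h21 a).mono ?_, h22⟩
  rw [Fin.sum_univ_eq_sum_range (fun l => l + 1), ← add_zero (Finset.sum _ _),
    ← Finset.sum_range_succ' (fun l => l), Finset.sum_range_id]
  exact Nat.div_le_div_right (Nat.mul_le_mul hrK (by omega))

end Pool.Agent.Lib.MP_601e9e_an.Rg
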