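import Pool.Agent.Lib.MP_601e9e_an.Rg.Ident

open Complex Filter Topology Set Metric MeasureTheory
open scoped ComplexConjugate ContDiff

namespace Pool.Agent.Lib.MP_601e9e_an.Rg

theorem dl_prod {ι : Type*} (s : Finset ι) (f : ι → Polynomial ℂ) (n : ι → ℕ)
    (h : ∀ i ∈ s, (f i).natDegree ≤ n i) :
    (∏ i ∈ s, f i).natDegree ≤ ∑ i ∈ s, n i ∧
      (∏ i ∈ s, f i).coeff (∑ i ∈ s, n i) = ∏ i ∈ s, (f i).coeff (n i) := by
  classical
  induction s using Finset.induction_on with
  | empty => simp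
  | insert a s ha ih =>
    obtain ⟨h1, h2⟩ := ih fun i hi => h i (Finset.mem_insert_of_mem hi)
    have h3 := h a (Finset.mem_insert_self a s)
    rw [Finset.prod_insert ha, Finset.sum_insert ha, Finset.prod_insert ha]
    exact ⟨Polynomial.natDegree_mul_le.trans (add_le_add h3 h1),
      by rw [Polynomial.coeff_mul_add_eq_of_natDegree_le h3 h1, h2]⟩

/-- Restriction of a polynomial to the line through `Z` with direction `v`. -/
noncomputable def dlL {σ : Type*} (Z v : σ → ℂ) : MvPolynomial σ ℂ →+* Polynomial ℂ :=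
  MvPolynomial.eval₂Hom Polynomial.C
    (fun i => Polynomial.C (Z i) + Polynomial.C (v i) * Polynomial.X)

theorem dlL_eval {σ : Type*} (Z v : σ → ℂ) (Q : MvPolynomial σ ℂ) (s : ℂ) :
    (dlL Z v Q).eval s = MvPolynomial.eval (Z + s • v) Q := by
  induction Q using MvPolynomial.induction_on with
  | C a => simp [dlL]
  | add p q hp hq => simp [hp, hq]
  | mul_X p i hp =>
    rw [map_mul, Polynomial.eval_mul, hp, map_mul]
    congr 1
    simp only [dlL, MvPolynomial.eval₂Hom_X', Polynomial.eval_add, Polynomial.eval_mul,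
      Polynomial.eval_C, Polynomial.eval_X, MvPolynomial.eval_X, Pi.add_apply, Pi.smul_apply,
      smul_eq_mul]
    ring

theorem dlL_monomial {σ : Type*} (Z v : σ → ℂ) (a : σ →₀ ℕ) (c : ℂ) {e : ℕ}
    (he : a.degree ≤ e) :
    (dlL Z v (MvPolynomial.monomial a c)).coeff e =
      if a.degree = e then MvPolynomial.eval v (MvPolynomial.monomial a c) else 0 := by
  have hl : ∀ i, (Polynomial.C (Z i) + Polynomial.C (v i) * Polynomial.X).natDegree ≤ 1 := by
    intro i
    compute_degree
  obtain ⟨h1, h2⟩ := dl_prod a.support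
    (fun i => (Polynomial.C (Z i) + Polynomial.C (v i) * Polynomial.X) ^ a i) (fun i => a i)
    (fun i _ => by simpa using Polynomial.natDegree_pow_le_of_le (a i) (hl i))
  have hd : a.degree = ∑ i ∈ a.support, a i := rfl
  have hL : dlL Z v (MvPolynomial.monomial a c) = Polynomial.C c *
      ∏ i ∈ a.support, (Polynomial.C (Z i) + Polynomial.C (v i) * Polynomial.X) ^ a i := by
    simp [dlL, MvPolynomial.eval₂Hom_monomial, Finsupp.prod]
  rw [hL, Polynomial.coeff_C_mul]
  split_ifs with h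
  · rw [← h, hd, h2, MvPolynomial.eval_monomial, Finsupp.prod]
    congr 1
    refine Finset.prod_congr rfl fun i _ => ?_
    have := Polynomial.coeff_pow_of_natDegree_le (m := a i) (hl i)
    rw [mul_one] at this
    rw [this]
    simp
  · rw [Polynomial.coeff_eq_zero_of_natDegree_lt (by omega), mul_zero]

theorem dlL_coeff {σ : Type*} (Z v : σ → ℂ) (Q : MvPolynomial σ ℂ) :
    (dlL Z v Q).coeff Q.totalDegree =
      MvPolynomial.eval v (MvPolynomial.homogeneousComponent Q.totalDegree Q) := by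
  classical
  have h1 : dlL Z v Q = ∑ a ∈ Q.support, dlL Z v (MvPolynomial.monomial a (Q.coeff a)) := by
    rw [← map_sum, ← Q.as_sum]
  rw [h1, Polynomial.finsetSum_coeff, MvPolynomial.homogeneousComponent_apply, map_sum,
    Finset.sum_filter]
  exact Finset.sum_congr rfl fun a ha => dlL_monomial Z v a _ (MvPolynomial.le_totalDegree ha)

theorem dl_top_ne {σ : Type*} {Q : MvPolynomial σ ℂ} (hQ : Q ≠ 0) :
    MvPolynomial.homogeneousComponent Q.totalDegree Q ≠ 0 := by
  classical
  obtain ⟨a, ha, h⟩ := Finset.exists_mem_eq_sup Q.support (MvPolynomial.support_nonempty.2 hQ)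
    (fun s : σ →₀ ℕ => s.sum fun _ e => e)
  intro h0
  have h1 := congrArg (MvPolynomial.coeff a) h0
  have h2 : a.degree = Q.totalDegree := h.symm
  rw [MvPolynomial.coeff_homogeneousComponent, if_pos h2, MvPolynomial.coeff_zero] at h1
  exact MvPolynomial.mem_support_iff.1 ha h1

/-- The generic line with direction `v`. -/
noncomputable def dlP {σ : Type*} (v : σ → ℂ) :
    MvPolynomial σ ℂ →+* Polynomial (MvPolynomial σ ℂ) :=
  MvPolynomial.eval₂Hom (Polynomial.C.comp MvPolynomial.C)
    (fun i => Polynomial.C (MvPolynomial.X i) +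
      Polynomial.C (MvPolynomial.C (v i)) * Polynomial.X)

/-- The shear with direction `v`. -/
noncomputable def dlT {σ : Type*} (v : σ → ℂ) :
    Polynomial (MvPolynomial σ ℂ) →+* Polynomial (MvPolynomial σ ℂ) :=
  Polynomial.eval₂RingHom (dlP v) Polynomial.X

theorem dlT_P {σ : Type*} (v : σ → ℂ) (Q : MvPolynomial σ ℂ) :
    dlT (-v) (dlP v Q) = Polynomial.C Q := by
  induction Q using MvPolynomial.induction_on with
  | C a => simp [dlT, dlP]
  | add p q hp hq => simp [hp, hq]
  | mul_X p i hp =>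
    rw [map_mul, map_mul, hp, map_mul]
    congr 1
    simp [dlT, dlP]
    ring

theorem dlT_T {σ : Type*} (v : σ → ℂ) (r : Polynomial (MvPolynomial σ ℂ)) :
    dlT v (dlT (-v) r) = r := by
  have h : (dlT v).comp (dlT (-v)) = RingHom.id _ := by
    refine Polynomial.ringHom_ext (fun Q => ?_) ?_
    · have := dlT_P (-v) Q
      rw [neg_neg] at this
      simpa [dlT] using this
    · simp [dlT]
  exact RingHom.congr_fun h r

theorem dlP_map {σ : Type*} (Z v : σ → ℂ) (Q : MvPolynomial σ ℂ) :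
    (dlP v Q).map (MvPolynomial.eval Z) = dlL Z v Q := by
  induction Q using MvPolynomial.induction_on with
  | C a => simp [dlL, dlP]
  | add p q hp hq => simp [hp, hq]
  | mul_X p i hp =>
    rw [map_mul, Polynomial.map_mul, hp, map_mul]
    simp [dlL, dlP]

/-- Polynomials without a common non-unit divisor generate a nonzero constant. -/
theorem dl_bezout {A ι : Type*} [CommRing A] [IsDomain A] [UniqueFactorizationMonoid A]
    [Fintype ι] (R : ι → Polynomial A) {a₀ : ι} (h0 : R a₀ ≠ 0)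
    (hc : ∀ r, (∀ a, r ∣ R a) → IsUnit r) :
    ∃ (H : A) (B : ι → Polynomial A), H ≠ 0 ∧ ∑ a, B a * R a = Polynomial.C H := by
  classical
  let _i : NormalizedGCDMonoid A := Nonempty.some inferInstance
  let K := FractionRing A
  have hinj : Function.Injective (algebraMap A K) := IsFractionRing.injective A K
  have hnorm : ∀ p : Polynomial K, ∃ (b : A) (q : Polynomial A), b ≠ 0 ∧
      q.map (algebraMap A K) = Polynomial.C (algebraMap A K b) * p := by
    intro p
    obtain ⟨b, hb, h⟩ := IsLocalization.integerNormalization_spec (nonZeroDivisors A) p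
    exact ⟨b, _, nonZeroDivisors.ne_zero hb, by
      rw [h, ← Polynomial.smul_eq_C_mul, algebraMap_smul]⟩
  obtain ⟨G, hG⟩ := (IsPrincipalIdealRing.principal
    (Ideal.span (Set.range fun a => (R a).map (algebraMap A K)))).principal
  have hdvd : ∀ a, G ∣ (R a).map (algebraMap A K) := by
    intro a
    rw [← Ideal.mem_span_singleton, ← Ideal.submodule_span_eq, ← hG]
    exact Ideal.subset_span ⟨a, rfl⟩
  obtain ⟨b, q, hb, hq⟩ := hnorm G
  have hbK : algebraMap A K b ≠ 0 := fun h => hb (hinj (by rw [h, map_zero]))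
  have hu : IsUnit (Polynomial.C (algebraMap A K b)) := Polynomial.isUnit_C.2 (Ne.isUnit hbK)
  have hp : IsUnit q.primPart := by
    refine hc _ fun a => q.isPrimitive_primPart.dvd_of_fraction_map_dvd_fraction_map (K := K) ?_
    refine Dvd.dvd.trans ?_ (hdvd a)
    have := Polynomial.map_dvd (algebraMap A K) q.primPart_dvd
    rw [hq] at this
    exact (hu.dvd_mul_left).1 this
  have hG0 : G ≠ 0 := by
    rintro rfl
    exact h0 ((Polynomial.map_eq_zero_iff hinj).1 (zero_dvd_iff.1 (hdvd a₀)))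
  have hmem : ∀ x ∈ Ideal.span (Set.range fun a => (R a).map (algebraMap A K)),
      ∃ (H : A) (y : Polynomial A), H ≠ 0 ∧ y ∈ Ideal.span (Set.range R) ∧
        y.map (algebraMap A K) = Polynomial.C (algebraMap A K H) * x := by
    intro x hx
    induction hx using Submodule.span_induction with
    | mem x hx =>
      obtain ⟨a, rfl⟩ := hx
      exact ⟨1, R a, one_ne_zero, Ideal.subset_span ⟨a, rfl⟩, by simp⟩
    | zero => exact ⟨1, 0, one_ne_zero, Ideal.zero_mem _, by simp⟩
    | add x y _ _ hx hy =>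
      obtain ⟨H1, y1, h1, m1, e1⟩ := hx
      obtain ⟨H2, y2, h2, m2, e2⟩ := hy
      refine ⟨H1 * H2, Polynomial.C H2 * y1 + Polynomial.C H1 * y2, mul_ne_zero h1 h2,
        Ideal.add_mem _ (Ideal.mul_mem_left _ _ m1) (Ideal.mul_mem_left _ _ m2), ?_⟩
      simp only [Polynomial.map_add, Polynomial.map_mul, Polynomial.map_C, e1, e2, map_mul]
      ring
    | smul c x _ hx =>
      obtain ⟨H1, y1, h1, m1, e1⟩ := hx
      obtain ⟨b', q', hb', hq'⟩ := hnorm c
      refine ⟨H1 * b', q' * y1, mul_ne_zero h1 hb', Ideal.mul_mem_left _ _ m1, ?_⟩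
      simp only [Polynomial.map_mul, e1, hq', map_mul, smul_eq_mul]
      ring
  have hq0 : q ≠ 0 := by
    rintro rfl
    rw [Polynomial.map_zero] at hq
    exact mul_ne_zero hu.ne_zero hG0 hq.symm
  have hGu : IsUnit G := by
    have h1 : IsUnit (q.map (algebraMap A K)) := by
      rw [q.eq_C_content_mul_primPart, Polynomial.map_mul, Polynomial.map_C]
      refine IsUnit.mul (Polynomial.isUnit_C.2 (Ne.isUnit fun h => ?_))
        (hp.map (Polynomial.mapRingHom (algebraMap A K)))
      exact hq0 (Polynomial.content_eq_zero_iff.1 (hinj (by rw [h, map_zero])))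
    rw [hq] at h1
    exact isUnit_of_mul_isUnit_right h1
  obtain ⟨H, y, hH, hy, e⟩ := hmem 1 (by
    rw [hG, Ideal.submodule_span_eq, Ideal.mem_span_singleton]
    exact hGu.dvd)
  obtain ⟨B, hB⟩ := Ideal.mem_span_range_iff_exists_fun.1 hy
  refine ⟨H, B, hH, ?_⟩
  rw [hB]
  exact Polynomial.map_injective _ hinj (by rw [e, mul_one, Polynomial.map_C])

/-- A degree bound on an open set of lines gives a bound on the total degree. -/
theorem degLine {τ ι : Type*} [Fintype τ] [Fintype ι] (P : ι → MvPolynomial (Option τ) ℂ)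
    {a₀ : ι} (h0 : P a₀ ≠ 0) (d : ℕ) {O : Set ((Option τ → ℂ) × (Option τ → ℂ))}
    (hO : IsOpen O) (hne : O.Nonempty)
    (h : ∀ x ∈ O, ∃ p : ι → ℂ → ℂ, (∀ a, PolyLe d (p a)) ∧ (∃ a s, p a s ≠ 0) ∧
      ∀ a b (s : ℂ), MvPolynomial.eval (x.1 + s • x.2) (P a) * p b s =
        MvPolynomial.eval (x.1 + s • x.2) (P b) * p a s) :
    ∃ (g : MvPolynomial (Option τ) ℂ) (P' : ι → MvPolynomial (Option τ) ℂ),
      (∀ a, P a = g * P' a) ∧ ∀ a, (P' a).totalDegree ≤ d := by
  classical
  let _i : NormalizedGCDMonoid (MvPolynomial (Option τ) ℂ) := Nonempty.some inferInstance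
  obtain ⟨P', hP, hg⟩ := Finset.extract_gcd (s := Finset.univ) P ⟨a₀, Finset.mem_univ _⟩
  set g := Finset.univ.gcd P with hgdef
  have hP' : ∀ a, P a = g * P' a := fun a => hP a (Finset.mem_univ a)
  have hg0 : g ≠ 0 := fun e => h0 (by rw [hP' a₀, e, zero_mul])
  have ha0 : P' a₀ ≠ 0 := fun e => h0 (by rw [hP' a₀, e, mul_zero])
  refine ⟨g, P', hP', fun b => ?_⟩
  by_contra hb
  have hb0 : P' b ≠ 0 := fun e => hb (by rw [e]; simp)
  obtain ⟨⟨Z0, v0⟩, hx0⟩ := hne
  obtain ⟨v, hv, hv0⟩ := exists_eval_ne_zero (mul_ne_zero (dl_top_ne hg0) (dl_top_ne hb0))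
    (O := (fun v => (Z0, v)) ⁻¹' O) (hO.preimage (by fun_prop)) ⟨v0, hx0⟩
  rw [map_mul, mul_ne_zero_iff] at hv0
  have hC : dlP v (P' a₀) ≠ 0 := fun e => ha0 (Polynomial.C_eq_zero.1 (by
    rw [← dlT_P v, e, map_zero]))
  obtain ⟨H, B, hH, hB⟩ := dl_bezout (fun a => dlP v (P' a)) hC (fun r hr => by
    have h1 : ∀ a, dlT (-v) r ∣ Polynomial.C (P' a) := fun a => by
      rw [← dlT_P v]
      exact map_dvd _ (hr a)
    have h2 : (dlT (-v) r).natDegree = 0 := by
      have := Polynomial.natDegree_le_of_dvd (h1 a₀) (Polynomial.C_ne_zero.2 ha0)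
      simpa using this
    obtain ⟨c, hc⟩ := Polynomial.natDegree_eq_zero.1 h2
    have h3 : c ∣ Finset.univ.gcd P' := Finset.dvd_gcd fun a _ => by
      have := h1 a
      rw [← hc] at this
      exact (Polynomial.C_dvd_iff_dvd_coeff _ _).1 this 0 |>.trans (by simp)
    rw [hg] at h3
    rw [← dlT_T v r, ← hc]
    exact (Polynomial.isUnit_C.2 (isUnit_of_dvd_one h3)).map _)
  obtain ⟨Z, hZ, hZ0⟩ := exists_eval_ne_zero hH
    (O := (fun Z => (Z, v)) ⁻¹' O) (hO.preimage (by fun_prop)) ⟨Z0, hv⟩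
  obtain ⟨p, hp, ⟨a₁, s₁, hs₁⟩, hcr⟩ := h (Z, v) hZ
  choose q hq hpq using hp
  have hgL : dlL Z v g ≠ 0 := fun e => hv0.1 (by rw [← dlL_coeff Z v g, e, Polynomial.coeff_zero])
  have hcross : ∀ a c, dlL Z v (P' a) * q c = dlL Z v (P' c) * q a := by
    intro a c
    refine mul_left_cancel₀ hgL (Polynomial.funext fun s => ?_)
    have := hcr a c s
    rw [hP' a, hP' c, hpq, hpq] at this
    simp only [Polynomial.eval_mul, dlL_eval, map_mul] at this ⊢
    linear_combination this
  have hB' : ∑ a, (B a).map (MvPolynomial.eval Z) * dlL Z v (P' a) =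
      Polynomial.C (MvPolynomial.eval Z H) := by
    have := congrArg (Polynomial.map (MvPolynomial.eval Z)) hB
    simpa only [Polynomial.map_sum, Polynomial.map_mul, dlP_map, Polynomial.map_C] using this
  have hkey : ∀ c, Polynomial.C (MvPolynomial.eval Z H) * q c =
      dlL Z v (P' c) * ∑ a, (B a).map (MvPolynomial.eval Z) * q a := by
    intro c
    rw [← hB', Finset.sum_mul, Finset.mul_sum]
    refine Finset.sum_congr rfl fun a _ => ?_
    linear_combination ((B a).map (MvPolynomial.eval Z)) * hcross a c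
  have hS : ∑ a, (B a).map (MvPolynomial.eval Z) * q a ≠ 0 := by
    intro e
    have := hkey a₁
    rw [e, mul_zero, mul_eq_zero, Polynomial.C_eq_zero] at this
    rcases this with h1 | h1
    · exact hZ0 h1
    · exact hs₁ (by rw [hpq, h1, Polynomial.eval_zero])
  have hcf : (dlL Z v (P' b)).coeff (P' b).totalDegree ≠ 0 := by
    rw [dlL_coeff]
    exact hv0.2
  have hLb : dlL Z v (P' b) ≠ 0 := fun e => hcf (by rw [e, Polynomial.coeff_zero])
  have h1 := Polynomial.le_natDegree_of_ne_zero hcf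
  have h2 := congrArg Polynomial.natDegree (hkey b)
  rw [Polynomial.natDegree_mul hLb hS] at h2
  have h3 : (Polynomial.C (MvPolynomial.eval Z H) * q b).natDegree ≤ d :=
    (Polynomial.natDegree_C_mul_le _ _).trans (hq b)
  omega

end Pool.Agent.Lib.MP_601e9e_an.Rg
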