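import Pool.Agent.Lib.MP_601e9e_an.Rg.Ord
import Pool.Agent.Lib.MP_601e9e_an.Rg.Jet
import Pool.Agent.Lib.MP_601e9e_an.Rg.Ident

open Complex Filter Topology Set Metric MeasureTheory
open scoped ComplexConjugate ContDiff Matrix

namespace Pool.Agent.Lib.MP_601e9e_an.Rg

variable {m N k : ℕ} {r c : ℝ} {b : ℕ → ℝ} {F : Fin N → Zs m → ℂ}

theorem hat_pr (F : Fin N → Zs m → ℂ) (ξ : Fin m → ℂ) (j : ℕ) (t : ℝ) (p : Xs m) :
    ∑ a, sg a * conj (hat F a (pt p t)) * jet (hat F a) j (pt p t) (tv (star p.1) ξ) =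
      pr F ξ 0 j 0 t p := by
  rw [Fintype.sum_option]
  have h1 : jet (hat F none) j (pt p t) (tv (star p.1) ξ) = if j = 0 ∧ 0 = 0 then 1 else 0 := by
    by_cases hj : j = 0
    · subst hj
      simp [jet_zero]
    · rw [hat_none, jet_const 1 hj]
      simp [hj]
  rw [h1]
  have h2 : ∑ a : Fin N, sg (some a) * conj (hat F (some a) (pt p t)) *
      jet (hat F (some a)) j (pt p t) (tv (star p.1) ξ) =
      ∑ a, cj (F a) ξ j t p * conj (cj (F a) 0 0 t p) := by
    refine Finset.sum_congr rfl fun a _ => ?_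
    rw [sg_some, hat_some, one_mul, mul_comm]
    rfl
  rw [h2]
  unfold pr
  simp only [sg_none, hat_none, map_one]
  ring

theorem ord_hx (hB : Bud F b c) {κ : Type*} (C : κ → ℕ × (Fin m → ℂ)) (a : Option (Fin N))
    (x : κ) : Ord (-b (C x).1) (fun t p => hx (hat F) C (pt p t) (star p.1) a x) := by
  cases a with
  | some a => exact hB.grow a (C x).2 (C x).1
  | none =>
    by_cases hj : (C x).1 = 0
    · have h : (fun (t : ℝ) (p : Xs m) => hx (hat F) C (pt p t) (star p.1) none x) =
          fun _ _ => (1 : ℂ) := by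
        funext t p
        simp [hx, hj, jet_zero]
      rw [h]
      exact (Ord.const 1).mono (by linarith [hB.nonneg (C x).1])
    · have h : (fun (t : ℝ) (p : Xs m) => hx (hat F) C (pt p t) (star p.1) none x) =
          fun _ _ => (0 : ℂ) := by
        funext t p
        simp only [hx, Matrix.of_apply, hat_none]
        exact jet_const 1 hj _ _
      rw [h]
      exact Ord.zero _

theorem hol_hx {ι κ : Type*} {G : ι → Zs m → ℂ} {D : Set (Zs m)} (hD : IsOpen D)
    (hG : ∀ a, DifferentiableOn ℂ (G a) D) (C : κ → ℕ × (Fin m → ℂ)) (a : ι) (x : κ) :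
    DifferentiableOn ℂ (fun y : Zs m × (Fin m → ℂ) => hx G C y.1 y.2 a x) (D ×ˢ univ) := by
  have h1 : Differentiable ℂ (fun y : Zs m × (Fin m → ℂ) => tv y.2 (C x).2) :=
    hol_mk (differentiable_const _)
      ((hol_bil differentiable_snd (differentiable_const _)).const_mul _)
  exact (hol_jet2 hD (hG a) (C x).1).comp (differentiable_fst.prodMk h1).differentiableOn
    fun y hy => ⟨hy.1, mem_univ _⟩

theorem endpt (hF : Hyp m N k r F) (hB : Bud F b c) {κ : Type*} [Fintype κ]
    (C : κ → ℕ × (Fin m → ℂ)) (hcard : Fintype.card κ = N + 1) (hS : ∑ x, b (C x).1 < c) :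
    ∀ Z ∈ Dom m r, ∀ ζ, ¬ HInd (hat F) C Z ζ := by
  classical
  intro Z hZ ζ hI
  obtain ⟨e⟩ : Nonempty (Option (Fin N) ≃ κ) :=
    ⟨Fintype.equivOfCardEq (by rw [hcard, Fintype.card_option, Fintype.card_fin])⟩
  let M : Zs m × (Fin m → ℂ) → Matrix (Option (Fin N)) (Option (Fin N)) ℂ :=
    fun y => Matrix.of fun a x => hx (hat F) C y.1 y.2 a (e x)
  have hG : ∀ a, DifferentiableOn ℂ (hat F a) (Dom m r) := by
    intro a
    cases a with
    | none => exact differentiableOn_const 1
    | some a => exact hF.hol a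
  have hφ : DifferentiableOn ℂ (fun y => (M y).det) (Dom m r ×ˢ univ) :=
    hol_det fun a x => hol_hx (isOpen_Dom r) hG C a (e x)
  let M' : ℝ → Xs m → Matrix (Option (Fin N)) (Option (Fin N)) ℂ := fun t p =>
    (M (pt p t, star p.1)).updateRow none fun x => pr F (C (e x)).2 0 (C (e x)).1 0 t p
  have hdet : ∀ t p, (M (pt p t, star p.1)).det = -1 * (M' t p).det := by
    intro t p
    have h1 := Matrix.det_updateRow_sum (M (pt p t, star p.1)) none
      (fun a => sg a * conj (hat F a (pt p t)))
    have h2 : (∑ a, (sg a * conj (hat F a (pt p t))) • M (pt p t, star p.1) a) =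
        fun x => pr F (C (e x)).2 0 (C (e x)).1 0 t p := by
      funext x
      rw [← hat_pr, Finset.sum_apply]
      rfl
    rw [h2] at h1
    have h3 : (M' t p).det = -(M (pt p t, star p.1)).det := by
      simpa using h1
    rw [h3]
    ring
  have hb : ∀ x, b (C x).1 < c := fun x =>
    (Finset.single_le_sum (f := fun x => b (C x).1) (fun y _ => hB.nonneg _)
      (Finset.mem_univ x)).trans_lt hS
  have hO := Ord.det (M := M') (fun o : Option (Fin N) => o.elim c fun _ => 0)
    (fun x => -b (C (e x)).1) (by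
      intro i x
      cases i with
      | none =>
        simp only [M', Matrix.updateRow_self, Option.elim_none, ← sub_eq_add_neg]
        exact hB.rho _ _ (hb _)
      | some a =>
        simp only [M', Matrix.updateRow_ne (Option.some_ne_none a), Option.elim_some, zero_add]
        exact ord_hx hB C (some a) (e x))
  have hpos : 0 < ∑ i : Option (Fin N), (i.elim c fun _ => 0) +
      ∑ x : Option (Fin N), -b (C (e x)).1 := by
    rw [Finset.sum_neg_distrib, Equiv.sum_comp e (fun x => b (C x).1), Fintype.sum_option]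
    simp only [Option.elim_none, Option.elim_some, Finset.sum_const_zero]
    linarith
  have h0 := bu0 hF hφ hpos (by
    simp only [hdet]
    exact hO.const_mul (-1)) (Z, ζ) ⟨hZ, mem_univ _⟩
  have hI' : LinearIndependent ℂ (fun (x : Option (Fin N)) (a : Option (Fin N)) => M (Z, ζ) a x) :=
    LinearIndependent.comp hI e e.injective
  obtain ⟨π, hπ⟩ := exists_left hI'
  rw [Matrix.det_mul, h0, mul_zero] at hπ
  exact hπ rfl

end Pool.Agent.Lib.MP_601e9e_an.Rg
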