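import Pool.Agent.Lib.MP_601e9e_an.Rg.Defs2
import Pool.Agent.Lib.MP_601e9e_an.Rg.Jet
import Pool.Agent.Lib.MP_601e9e_an.Rg.Ident

open Complex Filter Topology Set Metric MeasureTheory
open scoped ComplexConjugate ContDiff Matrix

namespace Pool.Agent.Lib.MP_601e9e_an.Rg

variable {m N : ℕ} {r : ℝ} {F : Fin N → Zs m → ℂ}

theorem x1_finite (D : Zs m →L[ℂ] Zs m) :
    {s : ℂ | ¬ Function.Injective (ContinuousLinearMap.id ℂ (Zs m) + s • D)}.Finite := by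
  refine ((Module.End.finite_hasEigenvalue (D : Zs m →ₗ[ℂ] Zs m)).image fun l => -l⁻¹).subset ?_
  intro s hs
  rw [mem_ofPred_eq, injective_iff_map_eq_zero] at hs
  push Not at hs
  obtain ⟨v, hv, hv0⟩ := hs
  have h1 : v + s • D v = 0 := by simpa using hv
  have hs0 : s ≠ 0 := by
    rintro rfl
    exact hv0 (by simpa using h1)
  refine ⟨-s⁻¹, Module.End.hasEigenvalue_of_hasEigenvector (x := v) ⟨?_, hv0⟩, by simp⟩
  rw [Module.End.mem_eigenspace_iff]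
  have h2 : s • D v = -v := (neg_eq_of_add_eq_zero_right h1).symm
  have h3 : D v = s⁻¹ • (s • D v) := by rw [smul_smul, inv_mul_cancel₀ hs0, one_smul]
  change D v = _
  rw [h3, h2, smul_neg, neg_smul]

theorem x1_inv {O : Set (Zs m)} (hO : IsOpen O) {Z₀ : Zs m} (hZ₀ : Z₀ ∈ O) {T : Zs m → Zs m}
    (hT : DifferentiableOn ℂ T O) {L : Zs m →L[ℂ] Zs m} (hL : HasFDerivAt T L Z₀)
    (hi : Function.Injective L) :
    ∃ U : Set (Zs m), IsOpen U ∧ T Z₀ ∈ U ∧ ∃ P : Zs m → Zs m, DifferentiableOn ℂ P U ∧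
      ∀ W ∈ U, P W ∈ O ∧ T (P W) = W := by
  let e : Zs m ≃L[ℂ] Zs m :=
    (LinearEquiv.ofInjectiveEndo (L : Zs m →ₗ[ℂ] Zs m) hi).toContinuousLinearEquiv
  have he : HasFDerivAt T (e : Zs m →L[ℂ] Zs m) Z₀ := by
    have : (e : Zs m →L[ℂ] Zs m) = L := by
      ext v o
      rfl
    rwa [this]
  have hc : ContDiffAt ℂ 1 T Z₀ := by
    refine contDiffAt_pi.2 fun o => ?_
    exact (contDiffOn_of_hol hO (differentiableOn_pi.1 hT o) 1).contDiffAt (hO.mem_nhds hZ₀)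
  have h1 := hc.to_localInverse he one_ne_zero
  have h2 : ∀ᶠ W in 𝓝 (T Z₀), T (hc.localInverse he one_ne_zero W) = W :=
    (hc.hasStrictFDerivAt' he one_ne_zero).eventually_right_inverse
  have h3 : ∀ᶠ W in 𝓝 (T Z₀), hc.localInverse he one_ne_zero W ∈ O := by
    refine h1.continuousAt.preimage_mem_nhds ?_
    rw [hc.localInverse_apply_image]
    exact hO.mem_nhds hZ₀
  obtain ⟨U, hU, hUo, hUm⟩ :=
    _root_.eventually_nhds_iff.1 (((h1.eventually (by simp)).and h3).and h2)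
  exact ⟨U, hUo, hUm, _, fun W hW =>
    ((hU W hW).1.1.differentiableAt one_ne_zero).differentiableWithinAt,
    fun W hW => ⟨(hU W hW).1.2, (hU W hW).2⟩⟩

theorem ext1 {O : Set (Zs m)} (hO : IsOpen O) {Z₀ : Zs m} (hZ₀ : Z₀ ∈ O) {X : Zs m → Zs m}
    (hX : DifferentiableOn ℂ X O) {F₀ A B C E : Fin N → Zs m → ℂ}
    (hF₀ : ∀ a, DifferentiableOn ℂ (F₀ a) O) (hA : ∀ a, DifferentiableOn ℂ (A a) O)
    (hB : ∀ a, DifferentiableOn ℂ (B a) O) (hC : ∀ a, DifferentiableOn ℂ (C a) O)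
    (hE : ∀ a, DifferentiableOn ℂ (E a) O)
    (hL : ∀ Z ∈ O, ∀ s : ℂ, Z + s • X Z ∈ Dom m r → ∃ μ μ' : ℂ,
      (∀ a, F a (Z + s • X Z) = F₀ a Z + μ * A a Z) ∧
        ∀ a, μ * A a Z - μ' * (s * B a Z - C a Z) = E a Z)
    (hAC : ∃ a b, A a Z₀ * C b Z₀ - A b Z₀ * C a Z₀ ≠ 0)
    (hT : {s : ℂ | ht (Z₀ + s • X Z₀) = 0 ∧ ‖Z₀ + s • X Z₀‖ < r}.Infinite) : Ext m r F := by
  obtain ⟨a, b, hab⟩ := hAC
  have hfin : {s : ℂ | s * (A a Z₀ * B b Z₀ - A b Z₀ * B a Z₀) =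
      A a Z₀ * C b Z₀ - A b Z₀ * C a Z₀}.Finite := by
    refine Set.Subsingleton.finite fun s hs s' hs' => ?_
    rw [mem_ofPred_eq] at hs hs'
    refine mul_right_cancel₀ (fun h => hab ?_) (hs.trans hs'.symm)
    rw [← hs, h, mul_zero]
  obtain ⟨s, ⟨hs0, hsr⟩, hs⟩ :=
    (hT.sdiff ((x1_finite (fderiv ℂ X Z₀)).union hfin)).nonempty
  rw [mem_union, not_or, mem_ofPred_eq, mem_ofPred_eq, not_not] at hs
  set den : Zs m → ℂ := fun Z =>
    A a Z * (s * B b Z - C b Z) - A b Z * (s * B a Z - C a Z) with hden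
  set num : Zs m → ℂ := fun Z =>
    E a Z * (s * B b Z - C b Z) - E b Z * (s * B a Z - C a Z) with hnum
  have hdd : DifferentiableOn ℂ den O :=
    ((hA a).mul (((hB b).const_mul s).sub (hC b))).sub
      ((hA b).mul (((hB a).const_mul s).sub (hC a)))
  have hdn : DifferentiableOn ℂ num O :=
    ((hE a).mul (((hB b).const_mul s).sub (hC b))).sub
      ((hE b).mul (((hB a).const_mul s).sub (hC a)))
  have hO' : IsOpen (O ∩ den ⁻¹' {0}ᶜ) :=
    hdd.continuousOn.isOpen_inter_preimage hO isOpen_compl_singleton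
  have hZ' : Z₀ ∈ O ∩ den ⁻¹' {0}ᶜ := by
    refine ⟨hZ₀, fun h => hs.2 ?_⟩
    have h1 : den Z₀ = 0 := h
    rw [hden] at h1
    linear_combination h1
  have hTd : DifferentiableOn ℂ (fun Z => Z + s • X Z) (O ∩ den ⁻¹' {0}ᶜ) :=
    (differentiableOn_id.add (hX.const_smul s)).mono inter_subset_left
  have hLd : HasFDerivAt (fun Z => Z + s • X Z)
      (ContinuousLinearMap.id ℂ (Zs m) + s • fderiv ℂ X Z₀) Z₀ :=
    (hasFDerivAt_id Z₀).add
      ((hX.differentiableAt (hO.mem_nhds hZ₀)).hasFDerivAt.const_smul s)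
  obtain ⟨U, hU, hUm, P, hP, hPU⟩ := x1_inv hO' hZ' hTd hLd hs.1
  have hpt : pt (zc (Z₀ + s • X Z₀), ((Z₀ + s • X Z₀) none).re) 0 = Z₀ + s • X Z₀ := by
    refine zs_ext ?_ fun j => rfl
    have h1 : nsq (zc (Z₀ + s • X Z₀)) = ((Z₀ + s • X Z₀) none).im := by
      have := hs0
      unfold ht at this
      linarith
    simp only [pt, mk_none, add_zero, h1]
    rw [mul_comm, Complex.re_add_im]
  have hm : MapsTo P U O := fun W hW => (hPU W hW).1.1
  refine ⟨(zc (Z₀ + s • X Z₀), ((Z₀ + s • X Z₀) none).re), by rwa [hpt], U, hU, by rwa [hpt],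
    fun c W => F₀ c (P W) + num (P W) / den (P W) * A c (P W), fun c => ?_, fun c W hW => ?_⟩
  · have h1 : DifferentiableOn ℂ (fun W => (den (P W))⁻¹) U :=
      (hdd.comp hP hm).inv fun W hW => (hPU W hW).1.2
    simp only [div_eq_mul_inv]
    exact ((hF₀ c).comp hP hm).add (((hdn.comp hP hm).mul h1).mul ((hA c).comp hP hm))
  · obtain ⟨⟨h1, h2⟩, h3⟩ := hPU W hW.1
    have h3' : P W + s • X (P W) = W := h3
    obtain ⟨μ, μ', h4, h5⟩ := hL (P W) h1 s (by rw [h3']; exact hW.2)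
    have h6 : num (P W) / den (P W) = μ := by
      rw [div_eq_iff h2]
      simp only [hnum, hden]
      rw [← h5 a, ← h5 b]
      ring
    have h7 := h4 c
    rw [h3'] at h7
    simp only [h6, h7]

end Pool.Agent.Lib.MP_601e9e_an.Rg
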