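import Pool.Agent.Lib.MP_601e9e_an.Rg.Bu2

open Complex Filter Topology Set Metric MeasureTheory
open scoped ComplexConjugate ContDiff Matrix

namespace Pool.Agent.Lib.MP_601e9e_an.Rg

variable {m N : ℕ} {F : Fin N → Zs m → ℂ} {ζ : Fin m → ℂ} {O : Set (Zs m)}
  {P : Zs m → Matrix (Fin m) (Fin m) ℂ}

theorem g1_line {g : Zs m → ℂ} (hO : IsOpen O) (hg : DifferentiableOn ℂ g O) {Z : Zs m}
    (hZ : Z ∈ O) (v : Zs m) : HasDerivAt (fun s : ℂ => g (Z + s • v)) (dd v g Z) 0 := by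
  have := hasDerivAt_line hO hg Z v (s := 0) (by simpa using hZ)
  simpa using this

theorem g1_range (hO : IsOpen O) {M : Zs m → Matrix (Fin N) (Fin m) ℂ} {W : Zs m → Fin N → ℂ}
    (hM : ∀ a i, DifferentiableOn ℂ (fun Y => M Y a i) O)
    (hW : ∀ a, DifferentiableOn ℂ (fun Y => W Y a) O)
    (h : ∀ Y ∈ O, ∃ c, W Y = M Y *ᵥ c) {Z : Zs m} (hZ : Z ∈ O)
    (hi : LinearIndependent ℂ (fun (j : Fin m) (a : Fin N) => M Z a j)) {c0 : Fin m → ℂ}
    (hc : W Z = M Z *ᵥ c0) (v : Zs m) :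
    ∃ d : Fin m → ℂ, ∀ a, dd v (fun Y => W Y a) Z =
      ∑ i, dd v (fun Y => M Y a i) Z * c0 i + (M Z *ᵥ d) a := by
  obtain ⟨π, hπ⟩ := exists_left hi
  obtain ⟨Δ, hΔe⟩ : ∃ Δ : Zs m → ℂ, Δ = fun Y => (π * M Y).det := ⟨_, rfl⟩
  obtain ⟨C, hCe⟩ : ∃ C : Zs m → Fin m → ℂ,
      C = fun Y => (π * M Y).adjugate *ᵥ (π *ᵥ W Y) := ⟨_, rfl⟩
  have hπM : ∀ i j, DifferentiableOn ℂ (fun Y => (π * M Y) i j) O := by
    intro i j
    simp only [Matrix.mul_apply]
    exact DifferentiableOn.fun_sum fun a _ => (hM a j).const_mul _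
  have hΔ : DifferentiableOn ℂ Δ O := hΔe ▸ hol_det hπM
  have hC : ∀ i, DifferentiableOn ℂ (fun Y => C Y i) O := by
    intro i
    simp only [hCe, Matrix.mulVec, dotProduct]
    exact DifferentiableOn.fun_sum fun j _ => (hol_adjugate hπM i j).mul
      (DifferentiableOn.fun_sum fun a _ => (hW a).const_mul _)
  have hCc : ∀ Y c, W Y = M Y *ᵥ c → C Y = Δ Y • c := by
    intro Y c e
    simp only [hCe, hΔe]
    rw [e, Matrix.mulVec_mulVec c π, Matrix.mulVec_mulVec, Matrix.adjugate_mul,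
      Matrix.smul_mulVec, Matrix.one_mulVec]
  have hΔ0 : Δ Z ≠ 0 := by simpa [hΔe] using hπ
  refine ⟨fun i => (dd v (fun Y => C Y i) Z - dd v Δ Z * c0 i) / Δ Z, fun a => ?_⟩
  have h1 := (g1_line hO hΔ hZ v).mul (g1_line hO (hW a) hZ v)
  have h2 := HasDerivAt.fun_sum (u := Finset.univ) fun i _ =>
    (g1_line hO (hM a i) hZ v).mul (g1_line hO (hC i) hZ v)
  have h3 := h1.unique (h2.congr_of_eventuallyEq (by
    filter_upwards [eventually_line_mem hO hZ v] with s hs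
    obtain ⟨c, e⟩ := h _ hs
    simp only [Pi.mul_apply, hCc _ _ e, Pi.smul_apply, smul_eq_mul]
    rw [e]
    simp only [Matrix.mulVec, dotProduct, Finset.mul_sum]
    exact Finset.sum_congr rfl fun i _ => by ring))
  simp only [zero_smul, add_zero, hCc _ _ hc, Pi.smul_apply, smul_eq_mul] at h3
  rw [hc] at h3
  simp only [Matrix.mulVec, dotProduct, Finset.mul_sum] at h3
  apply mul_left_cancel₀ hΔ0
  rw [eq_sub_of_add_eq' h3, ← Finset.sum_sub_distrib]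
  simp only [Matrix.mulVec, dotProduct, ← Finset.sum_add_distrib, Finset.mul_sum]
  refine Finset.sum_congr rfl fun i _ => ?_
  field_simp
  ring

theorem g1_l1_add (V : J2 m N) (x y : Fin m → ℂ) : l1 V (x + y) = l1 V x + l1 V y := by
  funext a
  simp [l1, add_mul, Finset.sum_add_distrib]

theorem g1_l1_sub (V : J2 m N) (x y : Fin m → ℂ) : l1 V (x - y) = l1 V x - l1 V y := by
  funext a
  simp [l1, sub_mul, Finset.sum_sub_distrib]

theorem g1_l1_smul (V : J2 m N) (t : ℂ) (x : Fin m → ℂ) : l1 V (t • x) = t • l1 V x := by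
  funext a
  simp [l1, Finset.mul_sum, mul_assoc]

theorem g1_l2_add (V : J2 m N) (A B : Matrix (Fin m) (Fin m) ℂ) :
    l2 V (A + B) = l2 V A + l2 V B := by
  funext a
  simp [l2, add_mul, Finset.sum_add_distrib]

theorem g1_l2_sub (V : J2 m N) (A B : Matrix (Fin m) (Fin m) ℂ) :
    l2 V (A - B) = l2 V A - l2 V B := by
  funext a
  simp [l2, sub_mul, Finset.sum_sub_distrib]

theorem g1_l2_symm {V : J2 m N} (hs : ∀ i j, V.2 i j = V.2 j i) (x y : Fin m → ℂ) :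
    l2 V (Matrix.vecMulVec x y) = l2 V (Matrix.vecMulVec y x) := by
  funext a
  simp only [l2, Matrix.vecMulVec_apply]
  rw [Finset.sum_comm]
  exact Finset.sum_congr rfl fun i _ => Finset.sum_congr rfl fun j _ => by rw [hs j i]; ring

theorem g1_par {V : J2 m N} (hi : LinearIndependent ℂ V.1) {x : Fin m → ℂ} (hp : Par V x) :
    ∃ t : ℂ, q2 V x = l1 V (t • x) := by
  by_cases h : ∀ b, l1 V x b = 0
  · have hx : ∀ i, x i = 0 := by
      refine Fintype.linearIndependent_iff.1 hi x ?_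
      funext b
      simpa [l1, Finset.sum_apply] using h b
    refine ⟨0, ?_⟩
    funext a
    simp [q2, l2, l1, Matrix.vecMulVec_apply, hx]
  · push Not at h
    obtain ⟨b, hb⟩ := h
    refine ⟨q2 V x b / l1 V x b, ?_⟩
    funext a
    rw [g1_l1_smul, Pi.smul_apply, smul_eq_mul]
    field_simp
    linear_combination hp a b

theorem g1_pol {V : J2 m N} (hs : ∀ i j, V.2 i j = V.2 j i) (hi : LinearIndependent ℂ V.1)
    {Q : Matrix (Fin m) (Fin m) ℂ} (hp : ∀ x, Q *ᵥ x = x → Par V x) {x y : Fin m → ℂ}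
    (hx : Q *ᵥ x = x) (hy : Q *ᵥ y = y) :
    ∃ c, Q *ᵥ c = c ∧ l2 V (Matrix.vecMulVec x y) = l1 V c := by
  have hxy : Q *ᵥ (x + y) = x + y := by rw [Matrix.mulVec_add, hx, hy]
  obtain ⟨t1, h1⟩ := g1_par hi (hp x hx)
  obtain ⟨t2, h2⟩ := g1_par hi (hp y hy)
  obtain ⟨t3, h3⟩ := g1_par hi (hp _ hxy)
  refine ⟨(1 / 2 : ℂ) • (t3 • (x + y) - t1 • x - t2 • y), ?_, ?_⟩
  · simp only [Matrix.mulVec_smul, Matrix.mulVec_sub, hxy, hx, hy]
  · rw [g1_l1_smul, g1_l1_sub, g1_l1_sub, ← h1, ← h2, ← h3]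
    simp only [q2, Matrix.add_vecMulVec, Matrix.vecMulVec_add, g1_l2_add, g1_l2_symm hs y x]
    funext a
    simp only [Pi.smul_apply, Pi.sub_apply, Pi.add_apply, smul_eq_mul]
    ring

theorem g1_alg {Q : Matrix (Fin m) (Fin m) ℂ} {B : (Fin m → ℂ) → Matrix (Fin m) (Fin m) ℂ}
    (hB : ∀ y z, B (y + z) = B y + B z)
    (two : ∃ x y, Q *ᵥ x = x ∧ Q *ᵥ y = y ∧ LinearIndependent ℂ ![x, y])
    (h : ∀ x y, Q *ᵥ x = x → Q *ᵥ y = y → ∀ i j,
      (2 * (B y *ᵥ x) i - (B x *ᵥ y) i) * x j = (B x *ᵥ x) i * y j)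
    {x y : Fin m → ℂ} (hx : Q *ᵥ x = x) (hy : Q *ᵥ y = y) : B y *ᵥ x = 0 := by
  obtain ⟨x0, y0, hx0, hy0, hi⟩ := two
  have hd : ∀ x, Q *ᵥ x = x → B x *ᵥ x = 0 := by
    intro x hx
    funext i
    by_contra hb
    have e1 := h x x0 hx hx0 i
    have e2 := h x y0 hx hy0 i
    generalize 2 * (B x0 *ᵥ x) i - (B x *ᵥ x0) i = u at e1
    generalize 2 * (B y0 *ᵥ x) i - (B x *ᵥ y0) i = u' at e2
    have e3 : u' • x0 + (-u) • y0 = 0 := by
      funext j
      apply mul_left_cancel₀ hb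
      simp only [Pi.add_apply, Pi.smul_apply, smul_eq_mul, Pi.zero_apply]
      linear_combination u * e2 j - u' * e1 j
    have e4 := (LinearIndependent.pair_iff.1 hi _ _ e3).2
    have e5 : (1 : ℂ) • x0 + (0 : ℂ) • y0 = 0 := by
      funext j
      apply mul_left_cancel₀ hb
      simp only [Pi.add_apply, Pi.smul_apply, smul_eq_mul, Pi.zero_apply]
      linear_combination (-1 : ℂ) * e1 j - x j * e4
    exact one_ne_zero (LinearIndependent.pair_iff.1 hi _ _ e5).1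
  by_cases h0 : ∀ j, x j = 0
  · have : x = 0 := funext h0
    rw [this, Matrix.mulVec_zero]
  · push Not at h0
    obtain ⟨j, hj⟩ := h0
    have e1 := hd (x + y) (by rw [Matrix.mulVec_add, hx, hy])
    rw [hB, Matrix.add_mulVec, Matrix.mulVec_add, Matrix.mulVec_add, hd x hx, hd y hy] at e1
    funext i
    have e2 := h x y hx hy i j
    rw [hd x hx] at e2
    have e3 := congrFun e1 i
    simp only [Pi.add_apply, Pi.zero_apply] at e2 e3 ⊢
    apply mul_left_cancel₀ hj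
    linear_combination (1 / 3 : ℂ) * e2 + (1 / 3 : ℂ) * x j * e3

theorem g1_hol2 (hO : IsOpen O) (hF : ∀ a, DifferentiableOn ℂ (F a) O) (i j : Fin m) (a : Fin N) :
    DifferentiableOn ℂ (fun Y => (j2 F (Y, ζ)).2 i j a) O :=
  hol_dd hO (hol_dd hO (hF a) (tv ζ (Pi.single j 1))) (tv ζ (Pi.single i 1))

theorem g1_dW (hO : IsOpen O) (hF : ∀ a, DifferentiableOn ℂ (F a) O) {X U : Zs m → Fin m → ℂ}
    (hX : ∀ i, DifferentiableOn ℂ (fun Y => X Y i) O)
    (hU : ∀ i, DifferentiableOn ℂ (fun Y => U Y i) O) {Z : Zs m} (hZ : Z ∈ O) (v : Zs m)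
    (a : Fin N) :
    dd v (fun Y => l2 (j2 F (Y, ζ)) (Matrix.vecMulVec (X Y) (U Y)) a) Z =
      l2 (j2 F (Z, ζ)) (Matrix.vecMulVec (fun i => dd v (fun Y => X Y i) Z) (U Z)) a +
      l2 (j2 F (Z, ζ)) (Matrix.vecMulVec (X Z) (fun i => dd v (fun Y => U Y i) Z)) a +
      ∑ i, ∑ j, X Z i * U Z j * dd v (fun Y => (j2 F (Y, ζ)).2 i j a) Z := by
  have hd : DifferentiableOn ℂ
      (fun Y => l2 (j2 F (Y, ζ)) (Matrix.vecMulVec (X Y) (U Y)) a) O := by
    simp only [l2, Matrix.vecMulVec_apply]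
    exact DifferentiableOn.fun_sum fun i _ => DifferentiableOn.fun_sum fun j _ =>
      ((hX i).mul (hU j)).mul (g1_hol2 hO hF i j a)
  have h1 := g1_line hO hd hZ v
  have h2 := HasDerivAt.fun_sum (u := Finset.univ) fun i _ =>
    HasDerivAt.fun_sum (u := Finset.univ) fun j _ =>
      ((g1_line hO (hX i) hZ v).fun_mul (g1_line hO (hU j) hZ v)).fun_mul
        (g1_line hO (g1_hol2 (ζ := ζ) hO hF i j a) hZ v)
  rw [h1.unique h2]
  simp only [l2, Matrix.vecMulVec_apply, ← Finset.sum_add_distrib, zero_smul, add_zero]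
  exact Finset.sum_congr rfl fun i _ => Finset.sum_congr rfl fun j _ => by ring

theorem g1_t3 (hO : IsOpen O) (hF : ∀ a, DifferentiableOn ℂ (F a) O) {Z : Zs m} (hZ : Z ∈ O)
    (v : Zs m) (x y : Fin m → ℂ) (a : Fin N) :
    ∑ i, ∑ j, x i * y j * dd v (fun Y => (j2 F (Y, ζ)).2 i j a) Z =
      dd v (dd (tv ζ x) (dd (tv ζ y) (F a))) Z := by
  have h := g1_dW (ζ := ζ) hO hF (X := fun _ => x) (U := fun _ => y)
    (fun i => differentiableOn_const _) (fun i => differentiableOn_const _) hZ v a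
  rw [dd_congr hO (fun Y hY => dd_dd_eq hO hF hY ζ x y a) v hZ, h]
  simp [dd_const, l2, Matrix.vecMulVec_apply]

theorem g1_key (hO : IsOpen O) (hF : ∀ a, DifferentiableOn ℂ (F a) O) (hK : KD F ζ O P)
    {Z : Zs m} (hZ : Z ∈ O) {x y z : Fin m → ℂ} (hx : P Z *ᵥ x = x) (hy : P Z *ᵥ y = y)
    (hz : P Z *ᵥ z = z) : ∃ d,
      l2 (j2 F (Z, ζ)) (Matrix.vecMulVec
        ((Matrix.of fun i j => dd (tv ζ z) (fun Y => P Y i j) Z) *ᵥ x) y) +
      l2 (j2 F (Z, ζ)) (Matrix.vecMulVec x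
        ((Matrix.of fun i j => dd (tv ζ z) (fun Y => P Y i j) Z) *ᵥ y)) +
      (fun a => dd (tv ζ z) (dd (tv ζ x) (dd (tv ζ y) (F a))) Z) = l1 (j2 F (Z, ζ)) d := by
  have hM : ∀ (Y : Zs m) (c : Fin m → ℂ),
      (Matrix.of fun a i => (j2 F (Y, ζ)).1 i a) *ᵥ c = l1 (j2 F (Y, ζ)) c := by
    intro Y c
    funext a
    simp [Matrix.mulVec, dotProduct, l1, mul_comm]
  have hPv : ∀ (w : Fin m → ℂ) i, DifferentiableOn ℂ (fun Y => (P Y *ᵥ w) i) O := by
    intro w i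
    simp only [Matrix.mulVec, dotProduct]
    exact DifferentiableOn.fun_sum fun j _ => (hK.hol i j).mul_const _
  have hPd : ∀ w : Fin m → ℂ, (fun i => dd (tv ζ z) (fun Y => (P Y *ᵥ w) i) Z) =
      (Matrix.of fun i j => dd (tv ζ z) (fun Y => P Y i j) Z) *ᵥ w := by
    intro w
    funext i
    exact (g1_line hO (hPv w i) hZ _).unique (HasDerivAt.fun_sum (u := Finset.univ) fun j _ =>
      (g1_line hO (hK.hol i j) hZ (tv ζ z)).mul_const (w j))
  have hpol : ∀ Y ∈ O, ∀ a b : Fin m → ℂ, P Y *ᵥ a = a → P Y *ᵥ b = b →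
      ∃ c, P Y *ᵥ c = c ∧ l2 (j2 F (Y, ζ)) (Matrix.vecMulVec a b) = l1 (j2 F (Y, ζ)) c :=
    fun Y hY a b ha hb => g1_pol (j2_symm hO hF hY ζ) (hK.inj Y hY) (hK.par Y hY) ha hb
  obtain ⟨c0, hc0, hc⟩ := hpol Z hZ x y hx hy
  obtain ⟨c1, -, hc1⟩ := hpol Z hZ z c0 hz hc0
  obtain ⟨d, hd⟩ := g1_range hO (M := fun Y => Matrix.of fun a i => (j2 F (Y, ζ)).1 i a)
    (W := fun Y => l2 (j2 F (Y, ζ)) (Matrix.vecMulVec (P Y *ᵥ x) (P Y *ᵥ y)))
    (fun a i => hol_dd hO (hF a) (tv ζ (Pi.single i 1)))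
    (fun a => by
      simp only [l2, Matrix.vecMulVec_apply]
      exact DifferentiableOn.fun_sum fun i _ => DifferentiableOn.fun_sum fun j _ =>
        ((hPv x i).mul (hPv y j)).mul (g1_hol2 hO hF i j a))
    (fun Y hY => by
      obtain ⟨c, -, e⟩ := hpol Y hY (P Y *ᵥ x) (P Y *ᵥ y)
        (by rw [Matrix.mulVec_mulVec, hK.idem Y hY]) (by rw [Matrix.mulVec_mulVec, hK.idem Y hY])
      exact ⟨c, by rw [hM, e]⟩)
    hZ (hK.inj Z hZ) (c0 := c0) (by simp only [hx, hy]; rw [hM, hc]) (tv ζ z)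
  refine ⟨c1 + d, funext fun a => ?_⟩
  have h1 := hd a
  rw [g1_dW hO hF (hPv x) (hPv y) hZ, hPd, hPd, hx, hy, g1_t3 hO hF hZ, hM] at h1
  rw [g1_l1_add, ← hc1]
  simp only [Pi.add_apply]
  rw [h1]
  congr 1
  have h2 : ∀ i, dd (tv ζ z) (fun Y => (Matrix.of fun a i => (j2 F (Y, ζ)).1 i a) a i) Z =
      l2 (j2 F (Z, ζ)) (Matrix.vecMulVec z (Pi.single i 1)) a :=
    fun i => dd_dd_eq hO hF hZ ζ z _ a
  simp only [h2, l2, Matrix.vecMulVec_apply]
  rw [Finset.sum_comm (f := fun i j => z i * c0 j * (j2 F (Z, ζ)).2 i j a)]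
  refine Finset.sum_congr rfl fun i _ => ?_
  simp only [Pi.single_apply, mul_ite, ite_mul, mul_one, mul_zero, zero_mul, Finset.sum_ite_eq',
    Finset.mem_univ, if_true, Finset.sum_mul]
  exact Finset.sum_congr rfl fun k _ => by ring

theorem g1_idem (hO : IsOpen O) (hK : KD F ζ O P) {Z : Zs m} (hZ : Z ∈ O) (v : Zs m)
    {x : Fin m → ℂ} (hx : P Z *ᵥ x = x) :
    P Z *ᵥ ((Matrix.of fun i j => dd v (fun Y => P Y i j) Z) *ᵥ x) = 0 := by
  have h : (Matrix.of fun i j => dd v (fun Y => P Y i j) Z) =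
      (Matrix.of fun i j => dd v (fun Y => P Y i j) Z) * P Z +
        P Z * (Matrix.of fun i j => dd v (fun Y => P Y i j) Z) := by
    ext i j
    have h2 := HasDerivAt.fun_sum (u := Finset.univ) fun k _ =>
      (g1_line hO (hK.hol i k) hZ v).fun_mul (g1_line hO (hK.hol k j) hZ v)
    have h3 := (g1_line hO (hK.hol i j) hZ v).unique (h2.congr_of_eventuallyEq (by
      filter_upwards [eventually_line_mem hO hZ v] with s hs
      rw [← Matrix.mul_apply, hK.idem _ hs]))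
    simpa [Matrix.mul_apply, Finset.sum_add_distrib] using h3
  have h4 := congrArg (· *ᵥ x) h
  simp only [Matrix.add_mulVec, ← Matrix.mulVec_mulVec, hx] at h4
  exact left_eq_add.1 h4

/-- The field of flat directions is parallel along itself. -/
theorem geo1 (hO : IsOpen O) (hF : ∀ a, DifferentiableOn ℂ (F a) O) (hK : KD F ζ O P)
    {Z : Zs m} (hZ : Z ∈ O) {x y : Fin m → ℂ} (hx : P Z *ᵥ x = x) (hy : P Z *ᵥ y = y) :
    (Matrix.of fun i j => dd (tv ζ y) (fun Y => P Y i j) Z) *ᵥ x = 0 := by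
  refine g1_alg (Q := P Z) (B := fun y => Matrix.of fun i j => dd (tv ζ y) (fun Y => P Y i j) Z)
    (fun y z => ?_) (hK.two Z hZ) (fun x y hx hy => ?_) hx hy
  · ext i j
    simp [dd, tv_add]
  have hs := j2_symm hO hF hZ ζ
  obtain ⟨d1, h1⟩ := g1_key hO hF hK hZ hx hx hy
  obtain ⟨d2, h2⟩ := g1_key hO hF hK hZ hx hy hx
  have p1 := g1_idem hO hK hZ (tv ζ y) hx
  have p2 := g1_idem hO hK hZ (tv ζ x) hy
  have p3 := g1_idem hO hK hZ (tv ζ x) hx
  have h3 : (fun a => dd (tv ζ y) (dd (tv ζ x) (dd (tv ζ x) (F a))) Z) =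
      fun a => dd (tv ζ x) (dd (tv ζ x) (dd (tv ζ y) (F a))) Z := by
    funext a
    rw [dd_comm hO (hol_dd hO (hF a) _) _ _ hZ]
    exact dd_congr hO (fun Y hY => dd_comm hO (hF a) _ _ hY) _ hZ
  rw [h3] at h1
  generalize (Matrix.of fun i j => dd (tv ζ y) (fun Y => P Y i j) Z) *ᵥ x = a at *
  generalize (Matrix.of fun i j => dd (tv ζ x) (fun Y => P Y i j) Z) *ᵥ y = c at *
  generalize (Matrix.of fun i j => dd (tv ζ x) (fun Y => P Y i j) Z) *ᵥ x = b at *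
  have hA := hK.ker Z hZ (Matrix.vecMulVec (a + a - c) x + Matrix.vecMulVec x (a + a - c) -
    Matrix.vecMulVec b y - Matrix.vecMulVec y b)
    (by
      ext i j
      simp only [Matrix.transpose_apply, Matrix.sub_apply, Matrix.add_apply,
        Matrix.vecMulVec_apply]
      ring)
    ⟨(d1 - d2) + (d1 - d2), by
      rw [g1_l1_add, g1_l1_sub, ← h1, ← h2]
      simp only [Matrix.add_vecMulVec, Matrix.sub_vecMulVec, Matrix.vecMulVec_add,
        Matrix.vecMulVec_sub, g1_l2_add, g1_l2_sub, g1_l2_symm hs a x, g1_l2_symm hs c x,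
        g1_l2_symm hs y b]
      abel⟩
  simp only [Matrix.mul_add, Matrix.mul_sub, Matrix.mul_vecMulVec, Matrix.mulVec_add,
    Matrix.mulVec_sub, p1, p2, p3, hx, hy] at hA
  intro i j
  have e := congrFun (congrFun hA i) j
  simp only [Matrix.sub_apply, Matrix.add_apply, Matrix.vecMulVec_apply, Pi.add_apply,
    Pi.sub_apply, Pi.zero_apply] at e
  linear_combination (-1 : ℂ) * e

end Pool.Agent.Lib.MP_601e9e_an.Rg
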