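import Pool.Agent.Lib.MP_601e9e_an.Rg.Ident

open Complex Filter Topology Set Metric MeasureTheory
open scoped ComplexConjugate ContDiff

namespace Pool.Agent.Lib.MP_601e9e_an.Rg

theorem sr_exists_deg (n d : ℕ) : ∃ T : ℕ, (T + d + 1) ^ n < 2 * (T + 1) ^ n := by
  have h1 : Tendsto (fun T : ℕ => (1 + (d : ℝ) * (1 / ((T : ℝ) + 1))) ^ n) atTop
      (𝓝 ((1 + (d : ℝ) * 0) ^ n)) :=
    ((tendsto_one_div_add_atTop_nhds_zero_nat.const_mul _).const_add 1).pow n
  obtain ⟨T, hT⟩ := (h1.eventually (gt_mem_nhds (show (1 + (d : ℝ) * 0) ^ n < 2 by simp))).exists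
  refine ⟨T, ?_⟩
  have h2 : (0 : ℝ) < (T : ℝ) + 1 := by positivity
  have h3 : (1 + (d : ℝ) * (1 / ((T : ℝ) + 1))) = ((T : ℝ) + d + 1) / (T + 1) := by
    field_simp
    ring
  rw [h3, div_pow, div_lt_iff₀ (by positivity)] at hT
  exact_mod_cast hT

/-- The polynomial with coefficients `c` and degree in each variable at most `T`. -/
noncomputable def srPoly {τ : Type*} [Fintype τ] [DecidableEq τ] {T : ℕ}
    (c : (τ → Fin (T + 1)) → ℂ) : MvPolynomial τ ℂ :=
  ∑ k, MvPolynomial.monomial (Finsupp.equivFunOnFinite.symm fun i => (k i : ℕ)) (c k)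

theorem sr_eval {τ : Type*} [Fintype τ] [DecidableEq τ] {T : ℕ} (c : (τ → Fin (T + 1)) → ℂ)
    (x : τ → ℂ) : MvPolynomial.eval x (srPoly c) = ∑ k, c k * ∏ i, x i ^ (k i : ℕ) := by
  simp [srPoly, MvPolynomial.eval_monomial, Finsupp.prod_fintype]

theorem sr_eq_zero {τ : Type*} [Fintype τ] [DecidableEq τ] {T : ℕ} {c : (τ → Fin (T + 1)) → ℂ}
    (h : srPoly c = 0) : c = 0 := by
  funext k
  have := congrArg (MvPolynomial.coeff (Finsupp.equivFunOnFinite.symm fun i => (k i : ℕ))) h
  rw [srPoly, MvPolynomial.coeff_sum, Finset.sum_eq_single k (fun k' _ hk => by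
    rw [MvPolynomial.coeff_monomial, if_neg]
    exact fun e => hk (funext fun i => Fin.ext (congrFun
      (Finsupp.equivFunOnFinite.symm.injective e) i))) (by simp)] at this
  simpa using this

theorem sr_line {τ : Type*} [Fintype τ] [DecidableEq τ] {T : ℕ} (c : (τ → Fin (T + 1)) → ℂ)
    (x : τ → ℂ) (i : τ) : PolyLe T fun s => MvPolynomial.eval (Function.update x i s) (srPoly c) := by
  refine ⟨∑ k, Polynomial.monomial (k i) (c k * ∏ j ∈ Finset.univ.erase i, x j ^ (k j : ℕ)),
    Polynomial.natDegree_sum_le_of_forall_le _ _ fun k _ =>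
      (Polynomial.natDegree_monomial_le _).trans (Nat.lt_succ_iff.1 (k i).2), fun s => ?_⟩
  beta_reduce
  rw [sr_eval, Polynomial.eval_finsetSum]
  refine Finset.sum_congr rfl fun k _ => ?_
  rw [Polynomial.eval_monomial, mul_assoc, ← Finset.prod_erase_mul _ _ (Finset.mem_univ i),
    Function.update_self]
  congr 2
  exact Finset.prod_congr rfl fun j hj => by rw [Function.update_of_ne (Finset.ne_of_mem_erase hj)]

/-- Separately rational of bounded degree implies rational. -/
theorem sepRat {τ : Type*} [Fintype τ] [DecidableEq τ] {f : (τ → ℂ) → ℂ} {x₀ : τ → ℂ} {ε : ℝ}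
    (hε : 0 < ε) (d : ℕ)
    (h : ∀ i, ∀ x ∈ ball x₀ ε, ∃ p q : ℂ → ℂ, PolyLe d p ∧ PolyLe d q ∧
      ∀ s, Function.update x i s ∈ ball x₀ ε → q s ≠ 0 ∧ q s * f (Function.update x i s) = p s) :
    ∃ P Q : MvPolynomial τ ℂ, Q ≠ 0 ∧
      ∀ x ∈ ball x₀ ε, MvPolynomial.eval x Q * f x = MvPolynomial.eval x P := by
  obtain ⟨T, hT⟩ := sr_exists_deg (Fintype.card τ) d
  have hN : (0 : ℝ) < (T + d + 1 : ℕ) := by positivity
  set a : τ → Fin (T + d + 1) → ℂ := fun i l =>
    x₀ i + ((ε * ((l : ℕ) / (T + d + 1 : ℕ)) : ℝ) : ℂ) with ha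
  have a1 : ∀ i l, a i l ∈ ball (x₀ i) ε := fun i l => by
    rw [mem_ball, dist_eq_norm, ha, add_sub_cancel_left, norm_real,
      Real.norm_of_nonneg (by positivity)]
    exact mul_lt_of_lt_one_right hε ((div_lt_one hN).2 (by exact_mod_cast l.2))
  have a2 : ∀ i, Function.Injective (a i) := fun i l l' e => by
    have e1 := mul_left_cancel₀ hε.ne' (ofReal_injective (add_left_cancel e))
    exact Fin.ext (by exact_mod_cast (div_left_inj' hN.ne').1 e1)
  let Φ : (((τ → Fin (T + 1)) → ℂ) × ((τ → Fin (T + 1)) → ℂ)) →ₗ[ℂ]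
      (τ → Fin (T + d + 1)) → ℂ :=
    { toFun := fun c g => MvPolynomial.eval (fun i => a i (g i)) (srPoly c.2) * f (fun i => a i (g i))
        - MvPolynomial.eval (fun i => a i (g i)) (srPoly c.1)
      map_add' := fun c c' => funext fun g => by
        simp only [sr_eval, Prod.snd_add, Prod.fst_add, Pi.add_apply, add_mul,
          Finset.sum_add_distrib]
        ring
      map_smul' := fun r c => funext fun g => by
        simp only [sr_eval, Prod.smul_snd, Prod.smul_fst, Pi.smul_apply, smul_eq_mul, mul_assoc,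
          ← Finset.mul_sum, RingHom.id_apply]
        ring }
  obtain ⟨c, hc, hc0⟩ := Submodule.exists_mem_ne_zero_of_ne_bot
    (LinearMap.ker_ne_bot_of_finrank_lt (f := Φ) (by simpa [two_mul] using hT))
  have upd : ∀ x ∈ ball x₀ ε, ∀ i l, Function.update x i (a i l) ∈ ball x₀ ε := fun x hx i l => by
    rw [ball_pi _ hε] at hx ⊢
    intro j _
    by_cases hj : j = i
    · simpa [hj] using a1 i l
    · simpa [hj] using hx j trivial
  have key : ∀ S : Finset τ, ∀ x ∈ ball x₀ ε, (∀ i ∉ S, ∃ l, x i = a i l) →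
      MvPolynomial.eval x (srPoly c.2) * f x = MvPolynomial.eval x (srPoly c.1) := by
    intro S
    induction S using Finset.induction_on with
    | empty =>
      intro x _ hx
      choose g hg using fun i => hx i (by simp)
      obtain rfl : x = fun i => a i (g i) := funext hg
      exact sub_eq_zero.1 (congrFun (LinearMap.mem_ker.1 hc) g)
    | insert i S _ ih =>
      intro x hx hS
      obtain ⟨p, q, ⟨p', p1, p2⟩, ⟨q', q1, q2⟩, hpq⟩ := h i x hx
      obtain ⟨A, A1, A2⟩ := sr_line c.1 x i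
      obtain ⟨B, B1, B2⟩ := sr_line c.2 x i
      beta_reduce at A2 B2
      have hz : B * p' - A * q' = 0 := by
        refine Polynomial.eq_zero_of_natDegree_lt_card_of_eval_eq_zero _ (a2 i) (fun l => ?_) ?_
        · have e1 := (hpq _ (upd x hx i l)).2
          have e2 := ih _ (upd x hx i l) fun j hj => by
            by_cases hji : j = i
            · exact ⟨l, by simp [hji]⟩
            · simpa [hji] using hS j (by simp [hji, hj])
          rw [Polynomial.eval_sub, Polynomial.eval_mul, Polynomial.eval_mul, ← p2, ← q2, ← A2,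
            ← B2, ← e1, ← e2]
          ring
        · have := Polynomial.natDegree_sub_le (B * p') (A * q')
          have := Polynomial.natDegree_mul_le (p := B) (q := p')
          have := Polynomial.natDegree_mul_le (p := A) (q := q')
          rw [Fintype.card_fin]
          omega
      have e0 := congrArg (Polynomial.eval (x i)) hz
      obtain ⟨e1, e2⟩ := hpq (x i) (by simpa using hx)
      rw [Polynomial.eval_sub, Polynomial.eval_mul, Polynomial.eval_mul, ← p2, ← q2, ← A2,
        ← B2, ← e2, Polynomial.eval_zero] at e0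
      simp only [Function.update_eq_self] at e0
      exact mul_left_cancel₀ e1 (by linear_combination e0)
  have fin := fun x hx => key Finset.univ x hx (by simp)
  refine ⟨srPoly c.1, srPoly c.2, fun hQ => hc0 (Prod.ext (sr_eq_zero ?_) (sr_eq_zero hQ)), fin⟩
  refine MvPolynomial.funext_set (fun i => ball (x₀ i) ε)
    (fun i => infinite_of_mem_nhds _ (ball_mem_nhds _ hε)) fun x hx => ?_
  rw [← fin x (by rwa [ball_pi _ hε]), hQ]
  simp

end Pool.Agent.Lib.MP_601e9e_an.Rg
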