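import Pool.Agent.Lib.MP_601e9e_an.Rg.Wron
import Pool.Agent.Lib.MP_601e9e_an.Rg.SepRat
import Pool.Agent.Lib.MP_601e9e_an.Rg.Poly

open Complex Filter Topology Set Metric MeasureTheory
open scoped ComplexConjugate ContDiff

namespace Pool.Agent.Lib.MP_601e9e_an.Rg

theorem pj_alg {ι κ : Type*} [Fintype ι] [Fintype κ] [DecidableEq κ] (M : Matrix ι κ ℂ)
    (π : Matrix κ ι ℂ) (C : Matrix κ κ ℂ) (a b : ι) :
    (π * (M * C)).det * (M * (π * M).adjugate * π) a b =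
      (π * M).det * (M * C * (π * (M * C)).adjugate * π) a b := by
  rw [← Matrix.mul_assoc π, Matrix.adjugate_mul_distrib, Matrix.det_mul, Matrix.mul_assoc M C,
    ← Matrix.mul_assoc C, Matrix.mul_adjugate, Matrix.smul_mul, Matrix.one_mul, Matrix.mul_smul,
    Matrix.smul_mul, Matrix.smul_apply, smul_eq_mul, mul_assoc]

theorem pj_fix {ι κ : Type*} [Fintype ι] [Fintype κ] [DecidableEq κ] (M : Matrix ι κ ℂ)
    (π : Matrix κ ι ℂ) (c : κ → ℂ) :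
    (M * (π * M).adjugate * π).mulVec (M.mulVec c) = (π * M).det • M.mulVec c := by
  rw [Matrix.mulVec_mulVec, Matrix.mul_assoc, Matrix.mul_assoc, Matrix.adjugate_mul,
    Matrix.mul_smul, Matrix.mul_one, Matrix.smul_mulVec]

section

variable {E : Type*} [NormedAddCommGroup E] [NormedSpace ℂ E] {D : Set E} {ι : Type*} [Fintype ι]
  {G : ι → E → ℂ} {r : ℕ}

theorem pj_poly (hD : IsOpen D) (hG : ∀ a, DifferentiableOn ℂ (G a) D) (π : Matrix (Fin r) ι ℂ)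
    {Z : E} (hZ : Z ∈ D) (v w : E) (a b : ι) :
    PolyLe (r + ∑ j : Fin r, (j : ℕ))
      (fun s => (jm G r Z (v + s • w) * (π * jm G r Z (v + s • w)).adjugate * π) a b) ∧
    PolyLe (r + ∑ j : Fin r, (j : ℕ)) (fun s => (π * jm G r Z (v + s • w)).det) := by
  have h : ∀ i j : Fin r, PolyLe j fun s : ℂ => (π * jm G r Z (v + s • w)) i j := fun i j =>
    PolyLe.sum Finset.univ fun a _ => (polyLe_jet hD (hG a) j hZ v w).const_mul (π i a)
  exact ⟨PolyLe.sum Finset.univ fun l _ => (PolyLe.sum Finset.univ fun (j : Fin r) _ =>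
    ((polyLe_jet hD (hG a) j hZ v w).mono j.2.le).mul
      (PolyLe.adjugate (fun j : Fin r => (j : ℕ)) h j l)).mul_const (π l b),
    (PolyLe.det (fun j : Fin r => (j : ℕ)) h).mono (Nat.le_add_left _ _)⟩

theorem pj_hol [FiniteDimensional ℂ E] (hD : IsOpen D) (hG : ∀ a, DifferentiableOn ℂ (G a) D)
    (π : Matrix (Fin r) ι ℂ) :
    (∀ a b, DifferentiableOn ℂ (fun x : E × E =>
      (jm G r x.1 x.2 * (π * jm G r x.1 x.2).adjugate * π) a b) (D ×ˢ univ)) ∧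
    DifferentiableOn ℂ (fun x : E × E => (π * jm G r x.1 x.2).det) (D ×ˢ univ) := by
  have h : ∀ i j : Fin r, DifferentiableOn ℂ (fun x : E × E => (π * jm G r x.1 x.2) i j)
      (D ×ˢ univ) := fun i j =>
    DifferentiableOn.fun_sum fun a _ => (hol_jet2 hD (hG a) j).const_mul (π i a)
  exact ⟨fun a b => DifferentiableOn.fun_sum (u := Finset.univ) fun l _ =>
    (DifferentiableOn.fun_sum (u := Finset.univ) fun (j : Fin r) _ => (hol_jet2 hD (hG a) j).fun_mul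
      (hol_adjugate h j l)).mul_const (π l b), hol_det h⟩

theorem pj_move (hD : IsOpen D) (hc : Convex ℝ D) (hG : ∀ a, DifferentiableOn ℂ (G a) D)
    (hdep : ∀ Z ∈ D, ∀ v, ¬ Ind G (r + 1) Z v) {π : Matrix (Fin r) ι ℂ} {Z Y v : E} (hZ : Z ∈ D)
    (hY : Y ∈ D) (e : Z + v = Y) (h : (π * jm G r Z v).det ≠ 0) (a b : ι) :
    (π * jm G r Y v).det *
        ((jm G r Z v * (π * jm G r Z v).adjugate * π) a b / (π * jm G r Z v).det) =
      (jm G r Y v * (π * jm G r Y v).adjugate * π) a b := by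
  have e1 : Z + (1 : ℂ) • v = Y := by rw [one_smul, e]
  choose c hc using fun j : Fin r => wron_span hD hc hG hdep hZ (ind_of_det h) (e1 ▸ hY) j
  have e2 : jm G r Y v = jm G r Z v * Matrix.of fun l j => c j l := by
    ext a j
    rw [Matrix.mul_apply, ← e1]
    exact (hc j a).trans (Finset.sum_congr rfl fun l _ => mul_comm _ _)
  rw [e2, ← mul_div_assoc, pj_alg, mul_div_cancel_left₀ _ h]

theorem pj_base [FiniteDimensional ℂ E] (hD : IsOpen D) (hc : Convex ℝ D) {f : E × E → ℂ}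
    (hf : DifferentiableOn ℂ f (D ×ˢ univ)) {Z v : E} (hZ : Z ∈ D) (h : f (Z, v) ≠ 0) :
    ∃ Z ∈ D, ∃ v, Z + v ∈ D ∧ f (Z, v) ≠ 0 ∧ f (Z + v, v) ≠ 0 := by
  have ho : IsOpen (D ×ˢ (univ : Set E)) := hD.prod isOpen_univ
  let A : E × E →L[ℝ] E := .fst ℝ E E + .snd ℝ E E
  have hA : IsOpen (A ⁻¹' D) := hD.preimage A.continuous
  obtain ⟨x, hx, h1⟩ := exists_ne_zero ho (hc.prod convex_univ) hf ⟨_, ⟨hZ, trivial⟩, h⟩ hA
    ⟨(Z, 0), by simpa [A] using hZ, hZ, trivial⟩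
  obtain ⟨y, hy, h2⟩ := exists_ne_zero (g := fun x : E × E => f (x.1 + x.2, x.2)) hA
    (hc.linear_preimage A.toLinearMap)
    (hf.comp (f := fun x : E × E => (x.1 + x.2, x.2)) (by fun_prop) fun x hx => ⟨hx, trivial⟩)
    ⟨(Z - v, v), by simpa [A] using hZ, by simpa using h⟩
    (hf.continuousOn.isOpen_inter_preimage ho isOpen_compl_singleton) ⟨x, ⟨hx.2, h1⟩, hx.1⟩
  exact ⟨y.1, hy.1.1.1, y.2, hy.2, hy.1.2, h2⟩

end

theorem pj_local {σ ι : Type*} [Fintype σ] [DecidableEq σ] [Fintype ι]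
    {D : Set (σ → ℂ)} (hD : IsOpen D) (hc : Convex ℝ D)
    {G : ι → (σ → ℂ) → ℂ} (hG : ∀ a, DifferentiableOn ℂ (G a) D) {r : ℕ}
    (hdep : ∀ Z ∈ D, ∀ v, ¬ Ind G (r + 1) Z v) {π : Matrix (Fin r) ι ℂ} {X₀ : σ ⊕ σ → ℂ} {ε : ℝ}
    (hε : 0 < ε) (h : ∀ X ∈ ball X₀ ε, X ∘ Sum.inl ∈ D ∧ X ∘ Sum.inr ∈ D ∧
      (π * jm G r (X ∘ Sum.inl) (X ∘ Sum.inr - X ∘ Sum.inl)).det ≠ 0 ∧
      (π * jm G r (X ∘ Sum.inr) (X ∘ Sum.inr - X ∘ Sum.inl)).det ≠ 0) (a b : ι) :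
    ∃ P Q : MvPolynomial (σ ⊕ σ) ℂ, Q ≠ 0 ∧ ∀ Z v, Sum.elim Z (Z + v) ∈ ball X₀ ε →
      MvPolynomial.eval (Sum.elim Z (Z + v)) Q * (jm G r Z v * (π * jm G r Z v).adjugate * π) a b =
        (π * jm G r Z v).det * MvPolynomial.eval (Sum.elim Z (Z + v)) P := by
  obtain ⟨P, Q, hQ, k⟩ := sepRat (x₀ := X₀) (f := fun X =>
    (jm G r (X ∘ Sum.inl) (X ∘ Sum.inr - X ∘ Sum.inl) *
      (π * jm G r (X ∘ Sum.inl) (X ∘ Sum.inr - X ∘ Sum.inl)).adjugate * π) a b /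
      (π * jm G r (X ∘ Sum.inl) (X ∘ Sum.inr - X ∘ Sum.inl)).det) hε (r + ∑ j : Fin r, (j : ℕ)) (by
    rintro (i | i) X hX
    · obtain ⟨p1, p2⟩ := pj_poly hD hG π (h X hX).2.1
        (X ∘ Sum.inr - Function.update (X ∘ Sum.inl) i 0) (-Pi.single i 1) a b
      refine ⟨_, _, p1, p2, fun s hs => ?_⟩
      obtain ⟨h1, h2, h3, h4⟩ := h _ hs
      have e1 : Function.update X (Sum.inl i) s ∘ Sum.inr = X ∘ Sum.inr := by
        funext j
        simp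
      have e2 : X ∘ Sum.inr - Function.update (X ∘ Sum.inl) i 0 + s • -Pi.single i 1 =
          X ∘ Sum.inr - Function.update X (Sum.inl i) s ∘ Sum.inl := by
        funext j
        by_cases hj : j = i
        · subst hj
          simp [sub_eq_add_neg]
        · simp [hj]
      rw [e1] at h2 h3 h4
      simp only [e1, e2]
      exact ⟨h4, pj_move hD hc hG hdep h1 h2 (add_sub_cancel _ _) h3 a b⟩
    · obtain ⟨p1, p2⟩ := pj_poly hD hG π (h X hX).1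
        (Function.update (X ∘ Sum.inr) i 0 - X ∘ Sum.inl) (Pi.single i 1) a b
      refine ⟨_, _, p1, p2, fun s hs => ?_⟩
      obtain ⟨-, -, h3, -⟩ := h _ hs
      have e1 : Function.update X (Sum.inr i) s ∘ Sum.inl = X ∘ Sum.inl := by
        funext j
        simp
      have e2 : Function.update (X ∘ Sum.inr) i 0 - X ∘ Sum.inl + s • Pi.single i 1 =
          Function.update X (Sum.inr i) s ∘ Sum.inr - X ∘ Sum.inl := by
        funext j
        by_cases hj : j = i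
        · subst hj
          simp [sub_eq_neg_add]
        · simp [hj]
      rw [e1] at h3
      simp only [e1, e2]
      exact ⟨h3, mul_div_cancel₀ _ h3⟩)
  refine ⟨P, Q, hQ, fun Z v hX => ?_⟩
  have h3 := (h _ hX).2.2.1
  have := k _ hX
  simp only [Sum.elim_comp_inl, Sum.elim_comp_inr, add_sub_cancel_left] at this h3
  rw [← this]
  field_simp

/-- The span of the image of a line depends rationally on the line. -/
theorem proj {σ ι : Type*} [Fintype σ] [DecidableEq σ] [Fintype ι] [DecidableEq ι]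
    {D : Set (σ → ℂ)} (hD : IsOpen D) (hc : Convex ℝ D) (hne : D.Nonempty)
    {G : ι → (σ → ℂ) → ℂ} (hG : ∀ a, DifferentiableOn ℂ (G a) D) {K : ℕ}
    (hdep : ∀ Z ∈ D, ∀ v, ¬ Ind G (K + 1) Z v) :
    ∃ r ≤ K, ∃ (π : Matrix (Fin r) ι ℂ) (q : MvPolynomial (σ ⊕ σ) ℂ)
      (P : ι → ι → MvPolynomial (σ ⊕ σ) ℂ), q ≠ 0 ∧
      (∃ Z ∈ D, ∃ v, (π * jm G r Z v).det ≠ 0) ∧
      (∀ Z ∈ D, ∀ v a b, MvPolynomial.eval (Sum.elim Z (Z + v)) q *
          (jm G r Z v * (π * jm G r Z v).adjugate * π) a b =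
        (π * jm G r Z v).det * MvPolynomial.eval (Sum.elim Z (Z + v)) (P a b)) ∧
      (∀ Z ∈ D, ∀ v a, ∑ b, MvPolynomial.eval (Sum.elim Z (Z + v)) (P a b) * G b Z =
        MvPolynomial.eval (Sum.elim Z (Z + v)) q * G a Z) := by
  obtain ⟨r, hr, hd, Z₁, hZ₁, v₁, hi⟩ := exists_rank hne hdep
  obtain ⟨π, hπ⟩ := exists_left (M := jm G r Z₁ v₁) hi
  obtain ⟨hN, hΔ⟩ := pj_hol hD hG π
  obtain ⟨Z₀, hZ₀, v₀, hY₀, k0, k1⟩ := pj_base hD hc hΔ hZ₁ hπ
  have ho : IsOpen (D ×ˢ (univ : Set (σ → ℂ))) := hD.prod isOpen_univ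
  have hcv : Convex ℝ (D ×ˢ (univ : Set (σ → ℂ))) := hc.prod convex_univ
  have hS := hΔ.continuousOn.isOpen_inter_preimage ho (isOpen_compl_singleton (x := 0))
  obtain ⟨ε, hε, hb⟩ := Metric.isOpen_iff.1
    ((hS.preimage (f := fun X : σ ⊕ σ → ℂ => (X ∘ Sum.inl, X ∘ Sum.inr - X ∘ Sum.inl))
      (by fun_prop)).inter
    (hS.preimage (f := fun X : σ ⊕ σ → ℂ => (X ∘ Sum.inr, X ∘ Sum.inr - X ∘ Sum.inl))
      (by fun_prop))) (Sum.elim Z₀ (Z₀ + v₀))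
    ⟨⟨⟨hZ₀, trivial⟩, by simpa using k0⟩, ⟨hY₀, trivial⟩, by simpa using k1⟩
  choose P Q hQ k using pj_local hD hc hG hd hε
    fun X hX => ⟨(hb hX).1.1.1, (hb hX).2.1.1, (hb hX).1.2, (hb hX).2.2⟩
  have hB : Differentiable ℂ fun x : (σ → ℂ) × (σ → ℂ) => Sum.elim x.1 (x.1 + x.2) :=
    differentiable_pi.2 (by rintro (i | i) <;> simp only [Sum.elim_inl, Sum.elim_inr] <;> fun_prop)
  have hE : ∀ R : MvPolynomial (σ ⊕ σ) ℂ, DifferentiableOn ℂ
      (fun x : (σ → ℂ) × (σ → ℂ) => MvPolynomial.eval (Sum.elim x.1 (x.1 + x.2)) R) (D ×ˢ univ) :=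
    fun R => ((hol_eval R).comp hB).differentiableOn
  have h1 : ∀ Z ∈ D, ∀ v a b, MvPolynomial.eval (Sum.elim Z (Z + v)) (∏ x : ι × ι, Q x.1 x.2) *
      (jm G r Z v * (π * jm G r Z v).adjugate * π) a b = (π * jm G r Z v).det *
        MvPolynomial.eval (Sum.elim Z (Z + v))
          (P a b * ∏ x ∈ Finset.univ.erase (a, b), Q x.1 x.2) := by
    intro Z hZ v a b
    have := ident ho hcv (((hE (Q a b)).mul (hN a b)).sub (hΔ.mul (hE (P a b)))) (x := (Z₀, v₀))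
      ⟨hZ₀, trivial⟩ ((hB.continuous.continuousAt.eventually (ball_mem_nhds _ hε)).mono
        fun x hx => sub_eq_zero.2 (k a b x.1 x.2 hx)) (Z, v) ⟨hZ, trivial⟩
    simp only [Pi.sub_apply, Pi.mul_apply] at this
    rw [← Finset.mul_prod_erase _ _ (Finset.mem_univ (a, b)), map_mul, map_mul, ← mul_assoc,
      ← sub_eq_zero.1 this]
    ring
  refine ⟨r, hr, π, _, _, Finset.prod_ne_zero_iff.2 fun x _ => hQ x.1 x.2, ⟨Z₁, hZ₁, v₁, hπ⟩, h1,
    fun Z hZ v a => ?_⟩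
  have hG' : ∀ b, DifferentiableOn ℂ (fun x : (σ → ℂ) × (σ → ℂ) => G b x.1) (D ×ˢ univ) :=
    fun b => (hG b).comp differentiableOn_fst fun x hx => hx.1
  refine sub_eq_zero.1 (eq_zero_of_mul ho hcv hΔ
    ((DifferentiableOn.fun_sum fun b _ => (hE _).mul (hG' b)).sub ((hE _).mul (hG' a)))
    ⟨(Z₁, v₁), ⟨hZ₁, trivial⟩, hπ⟩ ?_ (Z, v) ⟨hZ, trivial⟩)
  rintro ⟨Y, w⟩ ⟨hY, -⟩
  by_cases h0 : (π * jm G r Y w).det = 0
  · exact mul_eq_zero_of_left h0 _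
  obtain ⟨c, hc'⟩ := wron_span hD hc hG hd hY (ind_of_det h0) (s := 0) (by simpa using hY) 0
  have e : (fun a => G a Y) = (jm G r Y w).mulVec c := by
    funext a
    have := hc' a
    rw [zero_smul, add_zero, jet_zero] at this
    exact this.trans (Finset.sum_congr rfl fun l _ => mul_comm _ _)
  have h2 := congrFun (pj_fix (jm G r Y w) π c) a
  rw [← e] at h2
  simp only [Matrix.mulVec, dotProduct, Pi.smul_apply, smul_eq_mul] at h2
  simp only [Pi.sub_apply, Pi.mul_apply]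
  rw [mul_sub, Finset.mul_sum, mul_left_comm, ← h2, Finset.mul_sum, sub_eq_zero]
  exact Finset.sum_congr rfl fun b _ => by rw [← mul_assoc, ← h1 Y hY w a b, mul_assoc]

end Pool.Agent.Lib.MP_601e9e_an.Rg
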