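import Pool.Agent.Lib.MP_601e9e_an.Rg.Hwron
import Pool.Agent.Lib.MP_601e9e_an.Rg.Proj
import Pool.Agent.Lib.MP_601e9e_an.Rg.End

open Complex Filter Topology Set Metric MeasureTheory
open scoped ComplexConjugate ContDiff Matrix

namespace Pool.Agent.Lib.MP_601e9e_an.Rg

variable {m : ℕ} {ι κ : Type*} [Fintype ι] [DecidableEq ι] [Fintype κ] [DecidableEq κ]
  {G : ι → Zs m → ℂ} {D : Set (Zs m)} {C : κ → ℕ × (Fin m → ℂ)}

theorem hp_tv (ζ₀ ζ₁ ξ : Fin m → ℂ) (s : ℂ) :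
    tv (ζ₀ + s • ζ₁) ξ = tv ζ₀ ξ + s • mk 0 (2 * I * bil ζ₁ ξ) := by
  refine zs_ext ?_ fun j => ?_
  · simp only [tv, mk_none, bil_add_left, bil_smul_left, Pi.add_apply, Pi.smul_apply, smul_eq_mul]
    ring
  · simp [tv]

omit [DecidableEq ι] in
theorem hp_poly (hD : IsOpen D) (hG : ∀ a, DifferentiableOn ℂ (G a) D) (π : Matrix κ ι ℂ)
    {Z : Zs m} (hZ : Z ∈ D) (ζ₀ ζ₁ : Fin m → ℂ) (a b : ι) :
    PolyLe (∑ x, (C x).1 + ∑ x, (C x).1) (fun s =>
      (hx G C Z (ζ₀ + s • ζ₁) * (π * hx G C Z (ζ₀ + s • ζ₁)).adjugate * π) a b) ∧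
    PolyLe (∑ x, (C x).1 + ∑ x, (C x).1) (fun s => (π * hx G C Z (ζ₀ + s • ζ₁)).det) := by
  have h0 : ∀ a x, PolyLe (C x).1 fun s : ℂ => hx G C Z (ζ₀ + s • ζ₁) a x := fun a x => by
    simp only [hx, Matrix.of_apply, hp_tv]
    exact polyLe_jet hD (hG a) _ hZ _ _
  have h : ∀ i j : κ, PolyLe (C j).1 fun s : ℂ => (π * hx G C Z (ζ₀ + s • ζ₁)) i j := fun i j =>
    PolyLe.sum Finset.univ fun a _ => (h0 a j).const_mul (π i a)
  exact ⟨PolyLe.sum Finset.univ fun l _ => (PolyLe.sum Finset.univ fun (j : κ) _ =>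
    ((h0 a j).mono (Finset.single_le_sum (f := fun x => (C x).1) (fun _ _ => Nat.zero_le _)
      (Finset.mem_univ j))).mul
      (PolyLe.adjugate (fun j : κ => (C j).1) h j l)).mul_const (π l b),
    (PolyLe.det (fun j : κ => (C j).1) h).mono (Nat.le_add_left _ _)⟩

omit [DecidableEq ι] in
theorem hp_hol (hD : IsOpen D) (hG : ∀ a, DifferentiableOn ℂ (G a) D) (π : Matrix κ ι ℂ) :
    (∀ a b, DifferentiableOn ℂ (fun x : Zs m × (Fin m → ℂ) =>
      (hx G C x.1 x.2 * (π * hx G C x.1 x.2).adjugate * π) a b) (D ×ˢ univ)) ∧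
    DifferentiableOn ℂ (fun x : Zs m × (Fin m → ℂ) => (π * hx G C x.1 x.2).det) (D ×ˢ univ) := by
  have h : ∀ i j : κ, DifferentiableOn ℂ (fun x : Zs m × (Fin m → ℂ) => (π * hx G C x.1 x.2) i j)
      (D ×ˢ univ) := fun i j =>
    DifferentiableOn.fun_sum fun a _ => (hol_hx hD hG C a j).const_mul (π i a)
  exact ⟨fun a b => DifferentiableOn.fun_sum (u := Finset.univ) fun l _ =>
    (DifferentiableOn.fun_sum (u := Finset.univ) fun (j : κ) _ => (hol_hx hD hG C a j).fun_mul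
      (hol_adjugate h j l)).mul_const (π l b), hol_det h⟩

omit [DecidableEq ι] in
theorem hp_move (hD : IsOpen D) (hc : Convex ℝ D) (hG : ∀ a, DifferentiableOn ℂ (G a) D)
    (hcl : Cl G C D) {π : Matrix κ ι ℂ} {Z Y : Zs m} {ζ ξ : Fin m → ℂ} (hZ : Z ∈ D)
    (hY : Y ∈ D) (e : Z + tv ζ ξ = Y) (h : (π * hx G C Z ζ).det ≠ 0) (a b : ι) :
    (π * hx G C Y ζ).det *
        ((hx G C Z ζ * (π * hx G C Z ζ).adjugate * π) a b / (π * hx G C Z ζ).det) =
      (hx G C Y ζ * (π * hx G C Y ζ).adjugate * π) a b := by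
  obtain ⟨T, hT⟩ := hwron hD hc hG hcl hZ (ind_of_det h) (e ▸ hY)
  rw [e] at hT
  rw [hT, ← mul_div_assoc, pj_alg, mul_div_cancel_left₀ _ h]

/-- The slope of the hyperplane with given heights. -/
noncomputable def hpS (ε : ℂ) (X : Zs m) : Fin m → ℂ :=
  fun i => (X (some i) - X none) / (2 * I * ε)

/-- The heights of a hyperplane. -/
noncomputable def hpL (z₀ : Fin m → ℂ) (ε : ℂ) (η : Zs m) : Zs m :=
  mk (fun i => η none + 2 * I * bil (zc η) z₀ + 2 * I * ε * η (some i))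
    (η none + 2 * I * bil (zc η) z₀)

theorem hp_ne {ε : ℂ} (hε : ε ≠ 0) : 2 * I * ε ≠ 0 :=
  mul_ne_zero (mul_ne_zero two_ne_zero I_ne_zero) hε

theorem hpS_hpL (z₀ : Fin m → ℂ) {ε : ℂ} (hε : ε ≠ 0) (η : Zs m) :
    hpS ε (hpL z₀ ε η) = zc η := by
  funext i
  simp only [hpS, hpL, mk_some, mk_none, zc_apply, add_sub_cancel_left]
  exact mul_div_cancel_left₀ _ (hp_ne hε)

theorem hpL_onto (z₀ : Fin m → ℂ) {ε : ℂ} (hε : ε ≠ 0) (X : Zs m) :
    hpL z₀ ε (mk (hpS ε X) (X none - 2 * I * bil (hpS ε X) z₀)) = X := by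
  refine zs_ext ?_ fun j => ?_
  · simp [hpL]
  · simp only [hpL, mk_some, mk_none, zc_mk, sub_add_cancel, hpS]
    rw [mul_div_cancel₀ _ (hp_ne hε), add_sub_cancel]

theorem hpL_poly (z₀ : Fin m → ℂ) (ε : ℂ) (o : Option (Fin m)) :
    IsPoly fun η : Zs m => hpL z₀ ε η o := by
  have h : IsPoly fun η : Zs m => η none + 2 * I * bil (zc η) z₀ :=
    (IsPoly.coord none).add ((IsPoly.const _).mul
      (IsPoly.sum Finset.univ fun j _ => (IsPoly.coord (some j)).mul (IsPoly.const (z₀ j))))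
  cases o with
  | none => exact h
  | some i => exact h.add ((IsPoly.const _).mul (IsPoly.coord (some i)))

theorem hp_step (z₀ : Fin m → ℂ) {ε : ℂ} (hε : ε ≠ 0) (i₀ : Fin m) (X : Zs m) :
    mk z₀ (X none) + tv (hpS ε X) (Pi.single i₀ ε) = mk (z₀ + Pi.single i₀ ε) (X (some i₀)) := by
  refine zs_ext ?_ fun j => ?_
  · have : bil (hpS ε X) (Pi.single i₀ ε) = hpS ε X i₀ * ε := by
      simp [bil, Pi.single_apply]
    simp only [tv, Pi.add_apply, mk_none, this, hpS]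
    have h2 := hp_ne hε
    field_simp
    ring
  · simp [tv]

theorem hp_back (z₀ : Fin m → ℂ) (ε : ℂ) (Z : Zs m) (ζ : Fin m → ℂ) :
    Z + tv ζ (z₀ - zc Z) = mk z₀ (hpL z₀ ε (du Z ζ) none) := by
  refine zs_ext ?_ fun j => ?_
  · have : bil ζ (z₀ - zc Z) = bil ζ z₀ - bil ζ (zc Z) := by
      simp [bil, mul_sub, Finset.sum_sub_distrib]
    simp only [tv, hpL, du, Pi.add_apply, mk_none, zc_mk, this]
    ring
  · simp [tv]

omit [DecidableEq ι] in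
theorem hp_local (hD : IsOpen D) (hc : Convex ℝ D) (hG : ∀ a, DifferentiableOn ℂ (G a) D)
    (hcl : Cl G C D) {π : Matrix κ ι ℂ} {z₀ : Fin m → ℂ} {ε : ℂ} (hε : ε ≠ 0) (i₀ : Fin m)
    {X₀ : Zs m} {ρ : ℝ} (hρ : 0 < ρ)
    (h : ∀ X ∈ ball X₀ ρ, mk z₀ (X none) ∈ D ∧ mk (z₀ + Pi.single i₀ ε) (X (some i₀)) ∈ D ∧
      (π * hx G C (mk z₀ (X none)) (hpS ε X)).det ≠ 0 ∧
      (π * hx G C (mk (z₀ + Pi.single i₀ ε) (X (some i₀))) (hpS ε X)).det ≠ 0) (a b : ι) :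
    ∃ P Q : MvPolynomial (Option (Fin m)) ℂ, Q ≠ 0 ∧ ∀ Z ∈ D, ∀ ζ,
      hpL z₀ ε (du Z ζ) ∈ ball X₀ ρ → (π * hx G C Z ζ).det ≠ 0 →
      MvPolynomial.eval (du Z ζ) Q * (hx G C Z ζ * (π * hx G C Z ζ).adjugate * π) a b =
        (π * hx G C Z ζ).det * MvPolynomial.eval (du Z ζ) P := by
  obtain ⟨P, Q, hQ, k⟩ := sepRat (x₀ := X₀) (f := fun X =>
    (hx G C (mk z₀ (X none)) (hpS ε X) * (π * hx G C (mk z₀ (X none)) (hpS ε X)).adjugate * π) a b /
      (π * hx G C (mk z₀ (X none)) (hpS ε X)).det) hρ (∑ x, (C x).1 + ∑ x, (C x).1) (by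
    rintro (_ | i) X hX
    · obtain ⟨p1, p2⟩ := hp_poly (C := C) hD hG π (h X hX).2.1
        (fun j => X (some j) / (2 * I * ε)) (fun _ => -1 / (2 * I * ε)) a b
      refine ⟨_, _, p1, p2, fun s hs => ?_⟩
      obtain ⟨h1, h2, h3, h4⟩ := h _ hs
      have e1 : Function.update X none s (some i₀) = X (some i₀) := by simp
      have e2 : ((fun j => X (some j) / (2 * I * ε)) + s • fun _ => -1 / (2 * I * ε)) =
          hpS ε (Function.update X none s) := by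
        funext j
        simp only [hpS, Pi.add_apply, Pi.smul_apply, smul_eq_mul, Function.update_self,
          Function.update_of_ne (Option.some_ne_none j)]
        ring
      have e3 := hp_step z₀ hε i₀ (Function.update X none s)
      rw [e1] at h2 h4 e3
      simp only [e2]
      exact ⟨h4, hp_move hD hc hG hcl h1 h2 e3 h3 a b⟩
    · obtain ⟨p1, p2⟩ := hp_poly (C := C) hD hG π (h X hX).1
        (hpS ε (Function.update X (some i) 0)) (Pi.single i (1 / (2 * I * ε))) a b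
      refine ⟨_, _, p1, p2, fun s hs => ?_⟩
      obtain ⟨-, -, h3, -⟩ := h _ hs
      have e1 : Function.update X (some i) s none = X none := by simp
      have e2 : hpS ε (Function.update X (some i) 0) + s • Pi.single i (1 / (2 * I * ε)) =
          hpS ε (Function.update X (some i) s) := by
        funext j
        by_cases hj : j = i
        · subst hj
          simp only [hpS, Pi.add_apply, Pi.smul_apply, smul_eq_mul, Function.update_self,
            Pi.single_eq_same, Function.update_of_ne (Option.some_ne_none j).symm]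
          ring
        · simp [hpS, hj]
      rw [e1] at h3
      simp only [e1, e2]
      exact ⟨h3, mul_div_cancel₀ _ h3⟩)
  obtain ⟨P', hP'⟩ := IsPoly.eval_comp (hpL_poly z₀ ε) P
  obtain ⟨Q', hQ'⟩ := IsPoly.eval_comp (hpL_poly z₀ ε) Q
  refine ⟨P', Q', ?_, fun Z hZ ζ hX h0 => ?_⟩
  · obtain ⟨X, -, h1⟩ := exists_eval_ne_zero hQ isOpen_univ univ_nonempty
    rintro rfl
    have := hQ' (mk (hpS ε X) (X none - 2 * I * bil (hpS ε X) z₀))
    simp only [hpL_onto z₀ hε, map_zero] at this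
    exact h1 this
  · obtain ⟨h1, -, h3, -⟩ := h _ hX
    have h5 := k _ hX
    have e : hpS ε (hpL z₀ ε (du Z ζ)) = ζ := hpS_hpL z₀ hε _
    simp only [e] at h3 h5
    have h6 := hp_move hD hc hG hcl hZ h1 (hp_back z₀ ε Z ζ) h0 a b
    rw [← h6, mul_div_cancel_left₀ _ h3] at h5
    simp only at hP' hQ'
    rw [← hP', ← hQ', ← h5]
    field_simp

theorem hproj (hm : 0 < m) (hD : IsOpen D) (hc : Convex ℝ D)
    (hG : ∀ a, DifferentiableOn ℂ (G a) D) (hcl : Cl G C D)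
    (h0 : ∃ Z ∈ D, ∃ ζ, HInd G C Z ζ) :
    ∃ (π : Matrix κ ι ℂ) (q : MvPolynomial (Option (Fin m)) ℂ)
      (P : ι → ι → MvPolynomial (Option (Fin m)) ℂ), q ≠ 0 ∧
      (∃ Z ∈ D, ∃ ζ, (π * hx G C Z ζ).det ≠ 0) ∧
      (∀ Z ∈ D, ∀ ζ a b, MvPolynomial.eval (du Z ζ) q *
          (hx G C Z ζ * (π * hx G C Z ζ).adjugate * π) a b =
        (π * hx G C Z ζ).det * MvPolynomial.eval (du Z ζ) (P a b)) ∧
      (∀ Z ∈ D, ∀ ζ a, ∑ b, MvPolynomial.eval (du Z ζ) (P a b) * G b Z =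
        MvPolynomial.eval (du Z ζ) q * G a Z) := by
  obtain ⟨Z₀, hZ₀, ζ₀, hi⟩ := h0
  obtain ⟨π, hπ⟩ := exists_left (M := hx G C Z₀ ζ₀) hi
  obtain ⟨hN, hΔ⟩ := hp_hol (C := C) hD hG π
  have ho : IsOpen (D ×ˢ (univ : Set (Fin m → ℂ))) := hD.prod isOpen_univ
  have hcv : Convex ℝ (D ×ˢ (univ : Set (Fin m → ℂ))) := hc.prod convex_univ
  have hS := hΔ.continuousOn.isOpen_inter_preimage ho (isOpen_compl_singleton (x := 0))
  let i₀ : Fin m := ⟨0, hm⟩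
  have hmk : ∀ z : Fin m → ℂ, ∀ o, Continuous fun X : Zs m => mk z (X o) := fun z o =>
    continuous_pi fun o' => by
      cases o' with
      | none => exact continuous_apply o
      | some j => exact continuous_const
  have hsl : ∀ ε : ℂ, Continuous (hpS ε : Zs m → Fin m → ℂ) := fun ε => by
    unfold hpS
    fun_prop
  obtain ⟨ε, hε1, hε⟩ : ∃ ε : ℂ, ((Z₀ + ε • tv ζ₀ (Pi.single i₀ 1), ζ₀) ∈ (D ×ˢ univ) ∩
      (fun x : Zs m × (Fin m → ℂ) => (π * hx G C x.1 x.2).det) ⁻¹' {0}ᶜ) ∧ ε ≠ 0 := by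
    have h1 : Continuous fun ε : ℂ => (Z₀ + ε • tv ζ₀ (Pi.single i₀ 1), ζ₀) := by fun_prop
    have h2 := (hS.preimage h1).mem_nhds (x := 0) (by simpa using ⟨hZ₀, hπ⟩)
    exact ((mem_nhdsWithin_of_mem_nhds (t := {0}ᶜ) h2 |> Filter.Eventually.and
      (q := fun ε => ε ≠ 0)) self_mem_nhdsWithin).exists
  have e0 : hpS ε (hpL (zc Z₀) ε (du Z₀ ζ₀)) = ζ₀ := hpS_hpL _ hε _
  have e1 : mk (zc Z₀) (hpL (zc Z₀) ε (du Z₀ ζ₀) none) = Z₀ := by
    rw [← hp_back, sub_self]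
    refine zs_ext ?_ fun j => ?_ <;> simp [tv, bil]
  have e2 : mk (zc Z₀ + Pi.single i₀ ε) (hpL (zc Z₀) ε (du Z₀ ζ₀) (some i₀)) =
      Z₀ + ε • tv ζ₀ (Pi.single i₀ 1) := by
    rw [← hp_step _ hε, e0, e1, ← tv_smul, ← Pi.single_smul', smul_eq_mul, mul_one]
  obtain ⟨ρ, hρ, hb⟩ := Metric.isOpen_iff.1
    ((hS.preimage ((hmk (zc Z₀) none).prodMk (hsl ε))).inter
      (hS.preimage ((hmk (zc Z₀ + Pi.single i₀ ε) (some i₀)).prodMk (hsl ε))))
    (hpL (zc Z₀) ε (du Z₀ ζ₀))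
    ⟨by simp only [mem_preimage, e0, e1]; exact ⟨⟨hZ₀, trivial⟩, hπ⟩,
      by simp only [mem_preimage, e0, e2]; exact hε1⟩
  choose P Q hQ k using hp_local hD hc hG hcl hε i₀ hρ
    fun X hX => ⟨(hb hX).1.1.1, (hb hX).2.1.1, (hb hX).1.2, (hb hX).2.2⟩
  have hB : Differentiable ℂ fun x : Zs m × (Fin m → ℂ) => du x.1 x.2 :=
    differentiable_pi.2 (by
      rintro (_ | i)
      · simp only [du, mk_none, bil, zc_apply]
        fun_prop
      · simp only [du, mk_some]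
        fun_prop)
  have hL : Continuous (hpL (zc Z₀) ε) := continuous_pi fun o => by
    obtain ⟨R, hR⟩ := hpL_poly (zc Z₀) ε o
    simp only at hR
    simp only [hR]
    exact (hol_eval R).continuous
  have hE : ∀ R : MvPolynomial (Option (Fin m)) ℂ, DifferentiableOn ℂ
      (fun x : Zs m × (Fin m → ℂ) => MvPolynomial.eval (du x.1 x.2) R) (D ×ˢ univ) :=
    fun R => ((hol_eval R).comp hB).differentiableOn
  have h1 : ∀ Z ∈ D, ∀ ζ a b, MvPolynomial.eval (du Z ζ) (∏ x : ι × ι, Q x.1 x.2) *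
      (hx G C Z ζ * (π * hx G C Z ζ).adjugate * π) a b = (π * hx G C Z ζ).det *
        MvPolynomial.eval (du Z ζ) (P a b * ∏ x ∈ Finset.univ.erase (a, b), Q x.1 x.2) := by
    intro Z hZ ζ a b
    have hc1 : Continuous fun x : Zs m × (Fin m → ℂ) => hpL (zc Z₀) ε (du x.1 x.2) :=
      hL.comp hB.continuous
    have n1 : ∀ᶠ x : Zs m × (Fin m → ℂ) in 𝓝 (Z₀, ζ₀),
        hpL (zc Z₀) ε (du x.1 x.2) ∈ ball (hpL (zc Z₀) ε (du Z₀ ζ₀)) ρ :=
      (hc1.continuousAt (x := (Z₀, ζ₀))).eventually (ball_mem_nhds _ hρ)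
    have n2 : ∀ᶠ x : Zs m × (Fin m → ℂ) in 𝓝 (Z₀, ζ₀),
        x.1 ∈ D ∧ (π * hx G C x.1 x.2).det ≠ 0 :=
      Filter.mem_of_superset (hS.mem_nhds (x := (Z₀, ζ₀)) ⟨⟨hZ₀, trivial⟩, hπ⟩)
        fun x hx => ⟨hx.1.1, hx.2⟩
    have := ident ho hcv (((hE (Q a b)).mul (hN a b)).sub (hΔ.mul (hE (P a b)))) (x := (Z₀, ζ₀))
      ⟨hZ₀, trivial⟩ ((n1.and n2).mono
        fun x hx => sub_eq_zero.2 (k a b x.1 hx.2.1 x.2 hx.1 hx.2.2)) (Z, ζ) ⟨hZ, trivial⟩
    simp only [Pi.sub_apply, Pi.mul_apply] at this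
    rw [← Finset.mul_prod_erase _ _ (Finset.mem_univ (a, b)), map_mul, map_mul, ← mul_assoc,
      ← sub_eq_zero.1 this]
    ring
  refine ⟨π, _, _, Finset.prod_ne_zero_iff.2 fun x _ => hQ x.1 x.2, ⟨Z₀, hZ₀, ζ₀, hπ⟩, h1,
    fun Z hZ ζ a => ?_⟩
  have hG' : ∀ b, DifferentiableOn ℂ (fun x : Zs m × (Fin m → ℂ) => G b x.1) (D ×ˢ univ) :=
    fun b => (hG b).comp differentiableOn_fst fun x hx => hx.1
  refine sub_eq_zero.1 (eq_zero_of_mul ho hcv hΔ
    ((DifferentiableOn.fun_sum fun b _ => (hE _).mul (hG' b)).sub ((hE _).mul (hG' a)))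
    ⟨(Z₀, ζ₀), ⟨hZ₀, trivial⟩, hπ⟩ ?_ (Z, ζ) ⟨hZ, trivial⟩)
  rintro ⟨Y, w⟩ ⟨hY, -⟩
  by_cases h0 : (π * hx G C Y w).det = 0
  · exact mul_eq_zero_of_left h0 _
  have h3 := hcl (0, 0) (Or.inl rfl) Y hY w
  unfold HInd at h3
  rw [linearIndependent_option, not_and, not_not] at h3
  obtain ⟨c, hc'⟩ := (Submodule.mem_span_range_iff_exists_fun ℂ).1 (h3 (ind_of_det h0))
  have e : (fun a => G a Y) = (hx G C Y w).mulVec c := by
    funext a
    have := congrFun hc' a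
    simp only [Finset.sum_apply, Pi.smul_apply, smul_eq_mul, Function.comp_apply] at this
    exact this.symm.trans (Finset.sum_congr rfl fun l _ => mul_comm _ _)
  have h2 := congrFun (pj_fix (hx G C Y w) π c) a
  rw [← e] at h2
  simp only [Matrix.mulVec, dotProduct, Pi.smul_apply, smul_eq_mul] at h2
  simp only [Pi.sub_apply, Pi.mul_apply]
  rw [mul_sub, Finset.mul_sum, mul_left_comm, ← h2, Finset.mul_sum, sub_eq_zero]
  exact Finset.sum_congr rfl fun b _ => by rw [← mul_assoc, ← h1 Y hY w a b, mul_assoc]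

end Pool.Agent.Lib.MP_601e9e_an.Rg
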