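import Pool.Agent.Lib.MP_601e9e_an.Rg.Bu
import Pool.Agent.Lib.MP_601e9e_an.Rg.Proj

open Complex Filter Topology Set Metric MeasureTheory
open scoped ComplexConjugate ContDiff

namespace Pool.Agent.Lib.MP_601e9e_an.Rg

variable {m N k : ℕ} {r : ℝ} {F : Fin N → Zs m → ℂ}

/-- Two points of the line through `x.1` in the hyperplane with slope `x.2`. -/
noncomputable def rtY (ξ : Fin m → ℂ) (x : Zs m × (Fin m → ℂ)) :
    Option (Fin m) ⊕ Option (Fin m) → ℂ := Sum.elim x.1 (x.1 + tv x.2 ξ)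

/-- Two points of the dual line. -/
noncomputable def rtS (ξ : Fin m → ℂ) (x : Zs m × (Fin m → ℂ)) :
    Option (Fin m) ⊕ Option (Fin m) → ℂ :=
  Sum.elim (du x.1 x.2) (du x.1 x.2 + dv (zc x.1) (star ξ))

/-- The jets of the family with the constant adjoined, read off a column. -/
def rtE {K : ℕ} (A : Fin N × Unit × Fin (K + 1) → ℂ) (a : Option (Fin N)) (j : Fin (K + 1)) : ℂ :=
  a.elim (if j = 0 then 1 else 0) fun a => A (a, (), j)

theorem rt_star (ξ : Fin m → ℂ) (p : Xs m) :
    rtS ξ (pt p 0, star p.1) = star (rtY ξ (pt p 0, star p.1)) := by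
  have h1 : du (pt p 0) (star p.1) = star (pt p 0) := by
    refine zs_ext ?_ fun j => rfl
    simp only [du, mk_none, bil_star_self, Pi.star_apply, pt, RCLike.star_def, map_add,
      map_mul, conj_ofReal, conj_I, add_zero, zc_mk]
    ring
  have h2 : dv p.1 (star ξ) = star (tv (star p.1) ξ) := by
    refine zs_ext ?_ fun j => rfl
    simp only [dv, tv, mk_none, Pi.star_apply, RCLike.star_def, map_mul, conj_I, conj_bil,
      star_star, map_ofNat]
    ring
  funext i
  rcases i with i | i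
  · exact congrFun h1 i
  · simp only [rtS, rtY, Sum.elim_inr, zc_pt, h1, h2, Pi.add_apply, Pi.star_apply, star_add]

theorem rt_conj {σ : Type*} (Y : σ → ℂ) (P : MvPolynomial σ ℂ) :
    MvPolynomial.eval (star Y) (MvPolynomial.map (starRingEnd ℂ) P) =
      conj (MvPolynomial.eval Y P) := by
  induction P using MvPolynomial.induction_on with
  | C a => simp
  | add p q hp hq => simp [hp, hq]
  | mul_X p i hp => simp [hp]

theorem rt_zc : Differentiable ℂ fun x : Zs m × (Fin m → ℂ) => zc x.1 :=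
  differentiable_pi.2 fun j => differentiable_pi.1 differentiable_fst (some j)

theorem rt_tv (ξ : Fin m → ℂ) : Differentiable ℂ fun x : Zs m × (Fin m → ℂ) => tv x.2 ξ :=
  hol_mk (differentiable_const _)
    ((hol_bil differentiable_snd (differentiable_const _)).const_mul _)

theorem rt_elim {E σ : Type*} [NormedAddCommGroup E] [NormedSpace ℂ E] [Fintype σ]
    {f g : E → σ → ℂ} (hf : Differentiable ℂ f) (hg : Differentiable ℂ g) :
    Differentiable ℂ fun x => Sum.elim (f x) (g x) :=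
  differentiable_pi.2 fun i => by
    rcases i with i | i
    exacts [differentiable_pi.1 hf i, differentiable_pi.1 hg i]

theorem rt_holY (ξ : Fin m → ℂ) : Differentiable ℂ (rtY ξ) :=
  rt_elim differentiable_fst (differentiable_fst.add (rt_tv ξ))

theorem rt_holS (ξ : Fin m → ℂ) : Differentiable ℂ (rtS ξ) := by
  have h : Differentiable ℂ fun x : Zs m × (Fin m → ℂ) => du x.1 x.2 :=
    hol_mk differentiable_snd (((differentiable_apply none).comp differentiable_fst).sub
      ((hol_bil differentiable_snd rt_zc).const_mul _))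
  exact rt_elim h (h.add (hol_mk (differentiable_const _)
    ((hol_bil rt_zc (differentiable_const _)).const_mul _).neg))

theorem rt_polyY (ξ ζ : Fin m → ℂ) (i) : IsPoly fun Z : Zs m => rtY ξ (Z, ζ) i := by
  rcases i with i | i
  exacts [IsPoly.coord i, (IsPoly.coord i).add (IsPoly.const (tv ζ ξ i))]

theorem rt_polyS (ξ ζ : Fin m → ℂ) (i) : IsPoly fun Z : Zs m => rtS ξ (Z, ζ) i := by
  have h : ∀ i, IsPoly fun Z : Zs m => du Z ζ i := fun i => by
    cases i with
    | none => exact (IsPoly.coord none).sub ((IsPoly.const _).mul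
        (IsPoly.sum _ fun j _ => (IsPoly.const _).mul (IsPoly.coord (some j))))
    | some j => exact IsPoly.const (ζ j)
  rcases i with i | i
  · exact h i
  · refine (h i).add (g := fun Z => dv (zc Z) (star ξ) i) ?_
    cases i with
    | none => exact ((IsPoly.const _).mul
        (IsPoly.sum _ fun j _ => (IsPoly.coord (some j)).mul (IsPoly.const _))).neg
    | some j => exact IsPoly.const (star ξ j)

theorem rt_contE {K : ℕ} (a : Option (Fin N)) (j : Fin (K + 1)) :
    Continuous fun A : Fin N × Unit × Fin (K + 1) → ℂ => rtE A a j := by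
  cases a with
  | none => exact continuous_const
  | some a => exact continuous_apply _

theorem rt_jet (F : Fin N → Zs m → ℂ) (ξ : Fin m → ℂ) (K : ℕ) (t : ℝ) (p : Xs m)
    (a : Option (Fin N)) (j : Fin (K + 1)) :
    jet (hat F a) j (pt p t) (tv (star p.1) ξ) = rtE (col F (fun _ : Unit => ξ) K t p) a j := by
  cases a with
  | none =>
    change jet (fun _ => 1) j _ _ = if j = 0 then 1 else 0
    split_ifs with h
    · rw [h]; rfl
    · exact jet_const _ (fun h' => h (Fin.ext h')) _ _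
  | some a => rfl

theorem rt_rel {ξ : Unit → Fin m → ℂ} {K : ℕ} {A : Fin N × Unit × Fin (K + 1) → ℂ}
    (h : Rel ξ K A) (j : Fin (K + 1)) : ∑ a, sg a * conj (rtE A a 0) * rtE A a j = 0 := by
  rw [Fintype.sum_option]
  by_cases hj : j = 0
  · have := congrArg (fun x : ℝ => (x : ℂ)) (h.1 ())
    simp only [ofReal_sum, ofReal_pow, ofReal_one] at this
    simp [rtE, hj, conj_mul', this]
  · have := h.2.1 () () j hj
    simpa [rtE, hj, mul_comm] using this

theorem rt_ev {E σ : Type*} [NormedAddCommGroup E] [NormedSpace ℂ E] [Fintype σ] {f : E → σ → ℂ}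
    (hf : Differentiable ℂ f) (P : MvPolynomial σ ℂ) :
    Differentiable ℂ fun x => MvPolynomial.eval (f x) P :=
  Differentiable.comp (g := fun Z : σ → ℂ => MvPolynomial.eval Z P) (hol_eval P) hf

theorem rt_pick (hm : 0 < m) {f : Zs m × Zs m → ℂ} (hf : DifferentiableOn ℂ f (Dom m r ×ˢ univ))
    {Z2 v2 : Zs m} (hZ2 : Z2 ∈ Dom m r) (h2 : f (Z2, v2) ≠ 0)
    {q : MvPolynomial (Option (Fin m) ⊕ Option (Fin m)) ℂ} (hq : q ≠ 0) :
    ∃ Z1 ζ ξ, Z1 ∈ Dom m r ∧ f (Z1, tv ζ ξ) ≠ 0 ∧ MvPolynomial.eval (rtY ξ (Z1, ζ)) q ≠ 0 := by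
  have o := (isOpen_Dom (m := m) r).prod (isOpen_univ (X := Zs m))
  have c := (convex_Dom (m := m) r).prod (convex_univ (𝕜 := ℝ) (E := Zs m))
  have d : DifferentiableOn ℂ
      (fun x : Zs m × Zs m => MvPolynomial.eval (Sum.elim x.1 (x.1 + x.2)) q) (Dom m r ×ˢ univ) :=
    (rt_ev (rt_elim differentiable_fst (differentiable_fst.add differentiable_snd))
      q).differentiableOn
  obtain ⟨Y, hY, hY0⟩ := exists_eval_ne_zero hq (O := {Y | (fun i => Y (Sum.inl i)) ∈ Dom m r})
    ((isOpen_Dom r).preimage (continuous_pi fun i => continuous_apply _)) ⟨Sum.elim Z2 0, hZ2⟩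
  obtain ⟨x, hx, a1, a2⟩ := exists_mul_ne_zero o c hf d ⟨(Z2, v2), ⟨hZ2, trivial⟩, h2⟩
    ⟨(fun i => Y (Sum.inl i), fun i => Y (Sum.inr i) - Y (Sum.inl i)), ⟨hY, trivial⟩, by
      refine fun h => hY0 (Eq.trans ?_ h)
      refine congrArg (fun y => MvPolynomial.eval y q) (funext fun i => ?_)
      rcases i with i | i <;> simp⟩
  obtain ⟨y, hy, a3, a4⟩ := exists_mul_ne_zero o c (hf.fun_mul d)
    (h := fun x => x.2 (some ⟨0, hm⟩))
    (differentiable_pi.1 differentiable_snd _).differentiableOn ⟨x, hx, mul_ne_zero a1 a2⟩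
    ⟨(Z2, 1), ⟨hZ2, trivial⟩, one_ne_zero⟩
  obtain ⟨ζ, hζ⟩ := exists_tv y.2 _ a4
  refine ⟨y.1, ζ, zc y.2, hy.1, ?_, ?_⟩
  · rw [hζ]
    exact left_ne_zero_of_mul a3
  · rw [rtY, hζ]
    exact right_ne_zero_of_mul a3

/-- The matrix of jets, read off a column. -/
def rtM {K s : ℕ} (hs : s ≤ K) (A : Fin N × Unit × Fin (K + 1) → ℂ) :
    Matrix (Option (Fin N)) (Fin s) ℂ :=
  Matrix.of fun a j => rtE A a (j.castLE (by omega))

theorem rt_contM {K s : ℕ} (hs : s ≤ K) : Continuous (rtM (N := N) hs) :=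
  continuous_matrix fun _ _ => rt_contE _ _

theorem rt_jm {K s : ℕ} (hs : s ≤ K) (F : Fin N → Zs m → ℂ) (ξ : Fin m → ℂ) (t : ℝ) (p : Xs m) :
    jm (hat F) s (pt p t) (tv (star p.1) ξ) = rtM hs (col F (fun _ : Unit => ξ) K t p) := by
  ext a j
  exact rt_jet F ξ K t p a (j.castLE (by omega))

theorem rt_alg {ξ : Unit → Fin m → ℂ} {K s : ℕ} (hs : s ≤ K) {A : Fin N × Unit × Fin (K + 1) → ℂ}
    (hA : Rel ξ K A) (π : Matrix (Fin s) (Option (Fin N)) ℂ) {q : ℂ} {P : Option (Fin N) → ℂ}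
    {c : Option (Fin N)}
    (h : ∀ a, q * (rtM hs A * (π * rtM hs A).adjugate * π) a c = (π * rtM hs A).det * P a) :
    (π * rtM hs A).det * ∑ a, sg a * conj (P a) * rtE A a 0 = 0 := by
  have e1 : ∀ a, (π * rtM hs A).det * (sg a * P a * conj (rtE A a 0)) =
      ∑ j, q * ((π * rtM hs A).adjugate * π) j c *
        (sg a * conj (rtE A a 0) * rtE A a (j.castLE (by omega))) := fun a => by
    have := h a
    rw [Matrix.mul_assoc, Matrix.mul_apply] at this
    rw [show ∀ x y z w : ℂ, x * (y * z * w) = y * w * (x * z) from fun _ _ _ _ => by ring,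
      ← this, Finset.mul_sum, Finset.mul_sum]
    refine Finset.sum_congr rfl fun j _ => ?_
    rw [show rtM hs A a j = rtE A a (j.castLE (by omega)) from rfl]
    ring
  have e0 : (π * rtM hs A).det * ∑ a, sg a * P a * conj (rtE A a 0) = 0 := by
    rw [Finset.mul_sum, Finset.sum_congr rfl fun a _ => e1 a, Finset.sum_comm]
    exact Finset.sum_eq_zero fun j _ => by rw [← Finset.mul_sum, rt_rel hA, mul_zero]
  refine mul_eq_zero.2 ((mul_eq_zero.1 e0).imp id fun h => ?_)
  have := congrArg conj h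
  rw [map_sum, map_zero] at this
  refine Eq.trans (Finset.sum_congr rfl fun a _ => ?_) this
  rw [map_mul, map_mul, conj_conj]
  cases a <;> simp

theorem rt_hat (hF : Hyp m N k r F) (a : Option (Fin N)) :
    DifferentiableOn ℂ (hat F a) (Dom m r) := by
  cases a with
  | none => exact differentiableOn_const _
  | some a => exact hF.hol a

theorem rt_del (hF : Hyp m N k r F) {s : ℕ} (π : Matrix (Fin s) (Option (Fin N)) ℂ) :
    DifferentiableOn ℂ (fun x : Zs m × Zs m => (π * jm (hat F) s x.1 x.2).det)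
      (Dom m r ×ˢ univ) := hol_det fun i j => by
  simp only [Matrix.mul_apply]
  exact DifferentiableOn.fun_sum fun a _ => (hol_jet2 (isOpen_Dom r) (rt_hat hF a) j).const_mul _

theorem rt_pt : Continuous fun x : ℝ × Xs m => (pt x.2 x.1, star x.2.1) :=
  (continuous_pt.comp continuous_swap).prodMk (by fun_prop)

theorem rt_zero (hF : Hyp m N k r F) {K s : ℕ} (hK : BU m N K r F) (hs : s ≤ K)
    (π : Matrix (Fin s) (Option (Fin N)) ℂ) (ξ : Fin m → ℂ) {c : Option (Fin N)}
    {q : Zs m × (Fin m → ℂ) → ℂ} {P S : Option (Fin N) → Zs m × (Fin m → ℂ) → ℂ}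
    (hq : Continuous q) (hP : ∀ a, Continuous (P a)) (hS : ∀ a, Differentiable ℂ (S a))
    (hSP : ∀ a (p : Xs m), S a (pt p 0, star p.1) = conj (P a (pt p 0, star p.1)))
    (h0 : ∃ Z ∈ Dom m r, ∃ ζ, (π * jm (hat F) s Z (tv ζ ξ)).det ≠ 0)
    (h1 : ∀ Z ∈ Dom m r, ∀ ζ a, q (Z, ζ) * (jm (hat F) s Z (tv ζ ξ) *
      (π * jm (hat F) s Z (tv ζ ξ)).adjugate * π) a c =
        (π * jm (hat F) s Z (tv ζ ξ)).det * P a (Z, ζ)) :
    ∀ x ∈ Dom m r ×ˢ (univ : Set (Fin m → ℂ)), ∑ a, sg a * S a x * hat F a x.1 = 0 := by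
  obtain ⟨δ, hδ⟩ := exists_Sm (m := m) hF.rpos
  obtain ⟨Z1, hZ1, ζ1, hD1⟩ := h0
  have hDel : DifferentiableOn ℂ
      (fun x : Zs m × (Fin m → ℂ) => (π * jm (hat F) s x.1 (tv x.2 ξ)).det) (Dom m r ×ˢ univ) :=
    DifferentiableOn.comp (f := fun x : Zs m × (Fin m → ℂ) => (x.1, tv x.2 ξ)) (rt_del hF π)
      (differentiable_fst.prodMk (rt_tv ξ)).differentiableOn fun x hx => ⟨hx.1, trivial⟩
  have hψ : DifferentiableOn ℂ (fun x : Zs m × (Fin m → ℂ) => ∑ a, sg a * S a x * hat F a x.1)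
      (Dom m r ×ˢ univ) := DifferentiableOn.fun_sum fun a _ =>
    ((hS a).const_mul _).differentiableOn.fun_mul
      ((rt_hat hF a).comp differentiable_fst.differentiableOn fun x hx => hx.1)
  have hG0 : ∀ t p a, hat F a (pt p t) = rtE (col F (fun _ : Unit => ξ) K t p) a 0 :=
    fun t p a => rt_jet F ξ K t p a 0
  have hMx := rt_contM (N := N) hs
  refine eq_zero_of_mul ((isOpen_Dom r).prod isOpen_univ) ((convex_Dom r).prod convex_univ) hDel hψ
    ⟨(Z1, ζ1), ⟨hZ1, trivial⟩, hD1⟩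
    (hK _ hδ _ (fun _ : Unit => ξ) _ (hDel.fun_mul hψ) ?_ fun p hp A hA t ht ht0 hc => ?_)
  · have n0 : ∀ x : ℝ × Xs m, 0 ≤ ‖col F (fun _ : Unit => ξ) K x.1 x.2‖ := fun _ => norm_nonneg _
    have hE : ∀ a j, PB (fun x : ℝ × Xs m => ‖col F (fun _ : Unit => ξ) K x.1 x.2‖)
        (Ioo 0 δ ×ˢ ball 0 δ) fun x => rtE (col F (fun _ : Unit => ξ) K x.1 x.2) a j := by
      intro a j
      cases a with
      | none => exact PB.of_bound (C := ‖if j = 0 then (1 : ℂ) else 0‖) fun _ _ => le_rfl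
      | some a => exact PB.of_le fun x _ => norm_le_pi_norm (col F (fun _ => ξ) K x.1 x.2) _
    simp only [rt_jm hs, hG0]
    refine PB.mul n0 (PB.det n0 fun i j => ?_) (PB.sum n0 _ fun a _ => PB.mul n0 ?_ (hE a 0))
    · simp only [Matrix.mul_apply]
      exact PB.sum n0 _ fun a _ => PB.mul n0 (PB.of_bound fun _ _ => le_rfl) (hE a _)
    · obtain ⟨C, hC⟩ := ((isCompact_Icc (a := (0 : ℝ)) (b := δ)).prod
        (isCompact_closedBall (0 : Xs m) δ)).exists_bound_of_continuousOn
        (((hS a).const_mul (sg a)).continuous.comp rt_pt).continuousOn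
      exact PB.of_bound fun x hx => hC x ⟨Ioo_subset_Icc_self hx.1, ball_subset_closedBall hx.2⟩
  · have l1 : Tendsto (fun n => (pt p (t n), star p.1)) atTop (𝓝 (pt p 0, star p.1)) :=
      (rt_pt.tendsto (0, p)).comp (ht0.prodMk_nhds tendsto_const_nhds)
    have c1 : Continuous fun A => π * rtM hs A := continuous_const.matrix_mul hMx
    have l3 := (c1.matrix_det.tendsto A).comp hc
    have e2 := rt_alg hs hA π (q := q (pt p 0, star p.1)) (P := fun a => P a (pt p 0, star p.1))
      (c := c) fun a => by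
        refine tendsto_nhds_unique (((hq.tendsto _).comp l1).mul
          (((((hMx.matrix_mul c1.matrix_adjugate).matrix_mul
            (continuous_const (y := π))).matrix_elem a c).tendsto A).comp hc)) ?_
        refine (l3.mul (((hP a).tendsto _).comp l1)).congr fun n => ?_
        have := h1 _ (hδ.pt_mem hp (ht n)) (star p.1) a
        rw [rt_jm hs] at this
        exact this.symm
    simp only [← hSP] at e2
    simp only [rt_jm hs, hG0]
    rw [← e2]
    exact l3.mul (tendsto_finsetSum _ fun a _ =>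
      ((((hS a).const_mul (sg a)).continuous.tendsto _).comp l1).mul
        (((rt_contE a 0).tendsto A).comp hc))

theorem rt_inj {q : ℂ} (hq : q ≠ 0) {P : Fin N → Fin N → ℂ} {y : Fin N → ℂ}
    (h1 : ∀ a, ∑ b, (P a b - (if a = b then 1 else 0) * q) * y b = 0)
    (h2 : ∀ c, ∑ b, conj (P b c) * y b = 0) : y = 0 := by
  have y2 := fun c => congrArg conj (h2 c)
  simp only [sub_mul, Finset.sum_sub_distrib, ite_mul, one_mul, zero_mul,
    Finset.sum_ite_eq, Finset.mem_univ, if_true, sub_eq_zero] at h1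
  simp only [map_sum, map_mul, conj_conj, map_zero] at y2
  have y3 : q * bil (star y) y = 0 := by
    simp only [bil, Finset.mul_sum, mul_left_comm q, ← h1]
    rw [Finset.sum_comm]
    refine Finset.sum_eq_zero fun b _ => ?_
    rw [← zero_mul (y b), ← y2 b, Finset.sum_mul]
    exact Finset.sum_congr rfl fun a _ => by
      simp only [Pi.star_apply, RCLike.star_def]; ring
  rw [bil_star_self, mul_eq_zero, or_iff_right hq, ofReal_eq_zero, nsq,
    Finset.sum_eq_zero_iff_of_nonneg fun _ _ => sq_nonneg _] at y3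
  funext b
  simpa using y3 b (Finset.mem_univ b)

theorem rational (hF : Hyp m N k r F) (hm : 0 < m) {K : ℕ} (hK : BU m N K r F)
    (hdep : ∀ Z ∈ Dom m r, ∀ v, ¬ Ind (hat F) (K + 1) Z v) :
    ∃ (q : MvPolynomial (Option (Fin m)) ℂ) (P : Fin N → MvPolynomial (Option (Fin m)) ℂ),
      q ≠ 0 ∧ ∀ Z ∈ Dom m r, ∀ a,
        MvPolynomial.eval Z q * F a Z = MvPolynomial.eval Z (P a) := by
  obtain ⟨δ, hδ⟩ := exists_Sm (m := m) hF.rpos
  obtain ⟨s, hs, π, q, P, hq, ⟨Z2, hZ2, v2, hD2⟩, h1, h2⟩ :=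
    proj (isOpen_Dom r) (convex_Dom r)
      ⟨_, hδ.pt_mem (mem_ball_self hδ.1) ⟨half_pos hδ.1, half_lt_self hδ.1⟩⟩ (rt_hat hF) hdep
  obtain ⟨Z1, ζ1, ξ, hZ1, hD1, hq1⟩ := rt_pick hm (rt_del hF π) hZ2 hD2 hq
  have hzero := fun c => rt_zero hF hK hs π ξ (c := c)
    (q := fun x => MvPolynomial.eval (rtY ξ x) q)
    (P := fun a x => MvPolynomial.eval (rtY ξ x) (P a c))
    (S := fun a x => MvPolynomial.eval (rtS ξ x) (MvPolynomial.map (starRingEnd ℂ) (P a c)))
    (rt_ev (rt_holY ξ) q).continuous (fun a => (rt_ev (rt_holY ξ) _).continuous)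
    (fun a => rt_ev (rt_holS ξ) _) (fun a p => by simp only [rt_star, rt_conj])
    ⟨Z1, hZ1, ζ1, hD1⟩ fun Z hZ ζ a => h1 Z hZ (tv ζ ξ) a c
  obtain ⟨p, hp⟩ : ∃ p : Xs m, MvPolynomial.eval (rtY ξ (pt p 0, star p.1)) q ≠ 0 := by
    by_contra h
    push Not at h
    exact hq1 (trq (rt_ev (rt_holY ξ) q) one_pos (fun p _ => h p) (Z1, ζ1))
  obtain ⟨Q, R, hQ, hR⟩ := cramer_poly (κ := Fin N ⊕ Fin N) (ν := Fin N) (Z₀ := pt p 0)
    (A := Sum.elim (fun a b Z => MvPolynomial.eval (rtY ξ (Z, star p.1)) (P (some a) (some b)) -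
        (if a = b then 1 else 0) * MvPolynomial.eval (rtY ξ (Z, star p.1)) q)
      fun c b Z => MvPolynomial.eval (rtS ξ (Z, star p.1))
        (MvPolynomial.map (starRingEnd ℂ) (P (some b) (some c))))
    (b := Sum.elim (fun a Z => -MvPolynomial.eval (rtY ξ (Z, star p.1)) (P (some a) none))
      fun c Z => MvPolynomial.eval (rtS ξ (Z, star p.1))
        (MvPolynomial.map (starRingEnd ℂ) (P none (some c))))
    (fun i j => by
      rcases i with a | c
      · exact (IsPoly.eval_comp (rt_polyY ξ _) _).sub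
          ((IsPoly.const _).mul (IsPoly.eval_comp (rt_polyY ξ _) _))
      · exact IsPoly.eval_comp (rt_polyS ξ _) _)
    (fun i => by
      rcases i with a | c
      · exact (IsPoly.eval_comp (rt_polyY ξ _) _).neg
      · exact IsPoly.eval_comp (rt_polyS ξ _) _)
    fun y hy => rt_inj hp (fun a => hy (Sum.inl a)) fun c => by
      have := hy (Sum.inr c)
      simpa only [Sum.elim_inr, rt_star, rt_conj] using this
  refine ⟨Q, R, hQ, fun Z hZ => hR Z (fun b => F b Z) fun i => ?_⟩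
  rcases i with a | c
  · have := h2 Z hZ (tv (star p.1) ξ) (some a)
    rw [Fintype.sum_option] at this
    simp only [Sum.elim_inl, sub_mul, Finset.sum_sub_distrib, ite_mul, one_mul, zero_mul,
      Finset.sum_ite_eq, Finset.mem_univ, if_true]
    simp only [hat_none, hat_some, mul_one] at this
    unfold rtY
    linear_combination this
  · have := hzero (some c) (Z, star p.1) ⟨hZ, trivial⟩
    rw [Fintype.sum_option] at this
    simp only [hat_none, hat_some, mul_one, sg_none, sg_some, one_mul] at this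
    simp only [Sum.elim_inr]
    linear_combination this

end Pool.Agent.Lib.MP_601e9e_an.Rg
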