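import Pool.Agent.Lib.MP_601e9e_an.Rg.Hproj
import Pool.Agent.Lib.MP_601e9e_an.Rg.Rat

open Complex Filter Topology Set Metric MeasureTheory
open scoped ComplexConjugate ContDiff Matrix

namespace Pool.Agent.Lib.MP_601e9e_an.Rg

variable {m N k : ℕ} {r c : ℝ} {b : ℕ → ℝ} {F : Fin N → Zs m → ℂ}

theorem hr_du (p : Xs m) (t : ℝ) : du (pt p t) (star p.1) = star (pt p (-t)) := by
  refine zs_ext ?_ fun j => rfl
  simp only [du, mk_none, bil_star_self, Pi.star_apply, pt, RCLike.star_def, map_add,
    map_mul, conj_ofReal, conj_I, zc_mk]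
  push_cast
  ring

theorem hr_holdu : Differentiable ℂ fun x : Zs m × (Fin m → ℂ) => du x.1 x.2 :=
  hol_mk differentiable_snd (((differentiable_apply none).comp differentiable_fst).sub
    ((hol_bil differentiable_snd rt_zc).const_mul _))

theorem hr_polydu (ζ : Fin m → ℂ) (i) : IsPoly fun Z : Zs m => du Z ζ i := by
  cases i with
  | none => exact (IsPoly.coord none).sub ((IsPoly.const _).mul
      (IsPoly.sum _ fun j _ => (IsPoly.const _).mul (IsPoly.coord (some j))))
  | some j => exact IsPoly.const (ζ j)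

theorem hr_conj {σ : Type*} (Y : σ → ℂ) (P : MvPolynomial σ ℂ) :
    conj (MvPolynomial.eval Y (MvPolynomial.map (starRingEnd ℂ) P)) =
      MvPolynomial.eval (star Y) P := by
  have := rt_conj (star Y) P
  rw [star_star] at this
  rw [this, conj_conj]

theorem hr_cramer {κ : Type*} [Fintype κ] [DecidableEq κ] (A : Matrix κ κ ℂ) (ρ : κ → ℂ) (y : κ) :
    ∑ x, ρ x * A.adjugate x y = (A.updateRow y ρ).det := by
  rw [← Matrix.cramer_transpose_apply, Matrix.cramer_eq_adjugate_mulVec,
    ← Matrix.adjugate_transpose]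
  simp only [Matrix.mulVec, dotProduct, Matrix.transpose_apply]
  exact Finset.sum_congr rfl fun x _ => mul_comm _ _

theorem hr_alg {ι κ : Type*} [Fintype ι] [Fintype κ] [DecidableEq κ] (M : Matrix ι κ ℂ)
    (π : Matrix κ ι ℂ) (n P P' : ι → ℂ) (q : ℂ) (d : ι) (ρ : κ → ℂ)
    (hρ : ∀ x, ∑ a, n a * M a x = ρ x)
    (h : ∀ a, q * (M * (π * M).adjugate * π) a d = (π * M).det * P a) :
    (π * M).det * ∑ a, n a * P' a = (∑ a, (π * M).det * (n a * (P' a - P a))) +
      q * ∑ y, π y d * ((π * M).updateRow y ρ).det := by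
  have e1 : ∑ a, n a * (M * (π * M).adjugate * π) a d =
      ∑ y, π y d * ((π * M).updateRow y ρ).det := by
    have e2 : ∀ a, n a * (M * (π * M).adjugate * π) a d =
        ∑ y, ∑ x, π y d * (n a * M a x * (π * M).adjugate x y) := fun a => by
      rw [Matrix.mul_apply, Finset.mul_sum]
      refine Finset.sum_congr rfl fun y _ => ?_
      rw [Matrix.mul_apply, Finset.sum_mul, Finset.mul_sum]
      exact Finset.sum_congr rfl fun x _ => by ring
    rw [Finset.sum_congr rfl fun a _ => e2 a, Finset.sum_comm]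
    refine Finset.sum_congr rfl fun y _ => ?_
    rw [← hr_cramer, Finset.sum_comm, Finset.mul_sum]
    refine Finset.sum_congr rfl fun x _ => ?_
    rw [← hρ x, Finset.sum_mul, Finset.mul_sum]
  rw [← e1, Finset.mul_sum, Finset.mul_sum, ← Finset.sum_add_distrib]
  refine Finset.sum_congr rfl fun a _ => ?_
  have := h a
  linear_combination (-n a) * this

theorem hr_cont {ψ : Zs m × (Fin m → ℂ) → ℂ} (h : Continuous ψ) :
    Ord 0 (fun t (p : Xs m) => ψ (pt p t, star p.1)) :=
  Ord.cont (φ := fun x : ℝ × Xs m => ψ (pt x.2 x.1, star x.2.1)) (h.comp rt_pt)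

theorem hr_div (hF : Hyp m N k r F) {g h : Zs m × (Fin m → ℂ) → ℂ} {e : ℝ}
    (hg : DifferentiableOn ℂ g (Dom m r ×ˢ univ)) (hh : DifferentiableOn ℂ h (Dom m r ×ˢ univ))
    (h0 : ∃ y ∈ Dom m r ×ˢ (univ : Set (Fin m → ℂ)), g y ≠ 0) (he : 0 < e)
    (ho : Ord e (fun t (p : Xs m) => g (pt p t, star p.1) * h (pt p t, star p.1))) :
    ∀ x ∈ Dom m r ×ˢ (univ : Set (Fin m → ℂ)), h x = 0 :=
  eq_zero_of_mul ((isOpen_Dom r).prod isOpen_univ) ((convex_Dom r).prod convex_univ) hg hh h0
    (bu0 hF (φ := fun x => g x * h x) (hg.fun_mul hh) he ho)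

theorem hr_zero (hF : Hyp m N k r F) (hB : Bud F b c) {κ : Type*} [Fintype κ] [DecidableEq κ]
    {C : κ → ℕ × (Fin m → ℂ)} (hS : ∑ x, b (C x).1 < c) (π : Matrix κ (Option (Fin N)) ℂ)
    (q : MvPolynomial (Option (Fin m)) ℂ) (P : Option (Fin N) → MvPolynomial (Option (Fin m)) ℂ)
    (d : Option (Fin N)) (h0 : ∃ Z ∈ Dom m r, ∃ ζ, (π * hx (hat F) C Z ζ).det ≠ 0)
    (h1 : ∀ Z ∈ Dom m r, ∀ ζ a, MvPolynomial.eval (du Z ζ) q *
      (hx (hat F) C Z ζ * (π * hx (hat F) C Z ζ).adjugate * π) a d =
        (π * hx (hat F) C Z ζ).det * MvPolynomial.eval (du Z ζ) (P a)) :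
    ∀ Z ∈ Dom m r, ∑ a, sg a * MvPolynomial.eval Z (MvPolynomial.map (starRingEnd ℂ) (P a)) *
      hat F a Z = 0 := by
  obtain ⟨δ, hδ⟩ := exists_Sm (m := m) hF.rpos
  obtain ⟨Z1, hZ1, ζ1, hD1⟩ := h0
  have hDel : DifferentiableOn ℂ
      (fun x : Zs m × (Fin m → ℂ) => (π * hx (hat F) C x.1 x.2).det) (Dom m r ×ˢ univ) :=
    hol_det fun i j => by
      simp only [Matrix.mul_apply]
      exact DifferentiableOn.fun_sum fun a _ =>
        (hol_hx (isOpen_Dom r) (rt_hat hF) C a j).const_mul _
  have hψ : DifferentiableOn ℂ (fun x : Zs m × (Fin m → ℂ) => ∑ a, sg a *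
      MvPolynomial.eval x.1 (MvPolynomial.map (starRingEnd ℂ) (P a)) * hat F a x.1)
      (Dom m r ×ˢ univ) := DifferentiableOn.fun_sum fun a _ =>
    ((rt_ev differentiable_fst _).const_mul _).differentiableOn.fun_mul
      ((rt_hat hF a).comp differentiable_fst.differentiableOn fun x hx => hx.1)
  have oG : ∀ a, Ord 0 (fun t (p : Xs m) => sg a * conj (hat F a (pt p t))) := fun a => by
    refine Ord.const_mul (Ord.cnj ?_) _
    cases a with
    | none => exact Ord.const 1
    | some a => exact hB.bdd a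
  have oA : ∀ i x, Ord (-b (C x).1)
      (fun t (p : Xs m) => (π * hx (hat F) C (pt p t) (star p.1)) i x) := fun i x => by
    simp only [Matrix.mul_apply]
    exact Ord.sum _ fun a _ => (ord_hx hB C a x).const_mul _
  have oD : Ord (-∑ x, b (C x).1)
      (fun t (p : Xs m) => (π * hx (hat F) C (pt p t) (star p.1)).det) := by
    have := Ord.det (M := fun t (p : Xs m) => π * hx (hat F) C (pt p t) (star p.1))
      (fun _ => 0) (fun x => -b (C x).1) fun i x => by simpa using oA i x
    simpa using this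
  have oR : ∀ y, Ord (c - ∑ x, b (C x).1) (fun t (p : Xs m) =>
      ((π * hx (hat F) C (pt p t) (star p.1)).updateRow y
        fun x => pr F (C x).2 0 (C x).1 0 t p).det) := fun y => by
    have := Ord.det (M := fun t (p : Xs m) => (π * hx (hat F) C (pt p t) (star p.1)).updateRow y
        fun x => pr F (C x).2 0 (C x).1 0 t p)
      (fun i => if i = y then c else 0) (fun x => -b (C x).1) fun i x => by
        by_cases hi : i = y
        · subst hi
          simp only [Matrix.updateRow_self, if_true, ← sub_eq_add_neg]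
          exact hB.rho _ _ (lt_of_le_of_lt (Finset.single_le_sum
            (f := fun x => b (C x).1) (fun x _ => hB.nonneg _) (Finset.mem_univ x)) hS)
        · simp only [Matrix.updateRow_ne hi, if_neg hi, zero_add]
          exact oA i x
    simpa [sub_eq_add_neg] using this
  have oq : Ord 0 (fun t (p : Xs m) => MvPolynomial.eval (du (pt p t) (star p.1)) q) :=
    hr_cont (ψ := fun x => MvPolynomial.eval (du x.1 x.2) q) (rt_ev hr_holdu q).continuous
  have oP : ∀ a, Ord 1 (fun t (p : Xs m) => MvPolynomial.eval (star (pt p t)) (P a) -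
      MvPolynomial.eval (du (pt p t) (star p.1)) (P a)) := fun a => by
    have := (ord_diff (m := m) (hol_eval (MvPolynomial.map (starRingEnd ℂ) (P a)))).cnj
    simpa only [map_sub, hr_conj, hr_du] using this
  have oT : Ord (c - ∑ x, b (C x).1) (fun t (p : Xs m) =>
      (∑ a, (π * hx (hat F) C (pt p t) (star p.1)).det * (sg a * conj (hat F a (pt p t)) *
        (MvPolynomial.eval (star (pt p t)) (P a) -
          MvPolynomial.eval (du (pt p t) (star p.1)) (P a)))) +
      MvPolynomial.eval (du (pt p t) (star p.1)) q * ∑ y, π y d *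
        ((π * hx (hat F) C (pt p t) (star p.1)).updateRow y
          fun x => pr F (C x).2 0 (C x).1 0 t p).det) := by
    refine Ord.add (Ord.sum _ fun a _ => (oD.mul ((oG a).mul (oP a))).mono ?_) ?_
    · linarith [hB.le_one]
    · have := oq.mul (Ord.sum Finset.univ fun y _ => (oR y).const_mul (π y d))
      simpa only [zero_add] using this
  have oF : Ord (c - ∑ x, b (C x).1) (fun t (p : Xs m) =>
      (π * hx (hat F) C (pt p t) (star p.1)).det * ∑ a, sg a *
        MvPolynomial.eval (pt p t) (MvPolynomial.map (starRingEnd ℂ) (P a)) *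
          hat F a (pt p t)) := by
    refine oT.of_le hδ.1 fun p hp t ht => le_of_eq ?_
    have e1 := hr_alg (hx (hat F) C (pt p t) (star p.1)) π
      (fun a => sg a * conj (hat F a (pt p t)))
      (fun a => MvPolynomial.eval (du (pt p t) (star p.1)) (P a))
      (fun a => MvPolynomial.eval (star (pt p t)) (P a))
      (MvPolynomial.eval (du (pt p t) (star p.1)) q) d (fun x => pr F (C x).2 0 (C x).1 0 t p)
      (fun x => hat_pr F (C x).2 (C x).1 t p) (h1 _ (hδ.pt_mem hp ht) _)
    have e2 : conj (∑ a, sg a *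
        MvPolynomial.eval (pt p t) (MvPolynomial.map (starRingEnd ℂ) (P a)) * hat F a (pt p t)) =
        ∑ a, sg a * conj (hat F a (pt p t)) * MvPolynomial.eval (star (pt p t)) (P a) := by
      rw [map_sum]
      refine Finset.sum_congr rfl fun a _ => ?_
      have e3 : conj (sg a) = sg a := by cases a <;> simp
      rw [map_mul, map_mul, hr_conj, e3]
      ring
    refine Eq.trans ?_ (congrArg norm e1)
    rw [norm_mul, norm_mul, ← e2, Complex.norm_conj]
  exact fun Z hZ => hr_div hF hDel hψ ⟨(Z1, ζ1), ⟨hZ1, trivial⟩, hD1⟩ (sub_pos.2 hS) oF (Z, 0)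
    ⟨hZ, trivial⟩

theorem hrat (hF : Hyp m N k r F) (hm : 0 < m) (hB : Bud F b c) {κ : Type*} [Fintype κ]
    {C : κ → ℕ × (Fin m → ℂ)} (hS : ∑ x, b (C x).1 < c) (hcl : Cl (hat F) C (Dom m r))
    (h0 : ∃ Z ∈ Dom m r, ∃ ζ, HInd (hat F) C Z ζ) : IsRat m r F := by
  classical
  obtain ⟨π, q, P, hq, hD, h1, h2⟩ := hproj hm (isOpen_Dom r) (convex_Dom r) (rt_hat hF) hcl h0
  have hzero := fun d => hr_zero hF hB hS π q (fun a => P a d) d hD
    fun Z hZ ζ a => h1 Z hZ ζ a d
  obtain ⟨p, hp⟩ : ∃ p : Xs m, MvPolynomial.eval (du (pt p 0) (star p.1)) q ≠ 0 := by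
    by_contra h
    push Not at h
    obtain ⟨Y, -, hY⟩ := exists_eval_ne_zero hq isOpen_univ univ_nonempty
    have h3 := trq (rt_ev hr_holdu q) one_pos (fun p _ => h p) (mk 0 (Y none), zc Y)
    have h4 : du (mk 0 (Y none)) (zc Y) = Y := by
      refine zs_ext ?_ fun j => rfl
      simp [du, bil]
    exact hY (by simpa only [h4] using h3)
  obtain ⟨Q, R, hQ, hR⟩ := cramer_poly (κ := Fin N ⊕ Fin N) (ν := Fin N) (Z₀ := pt p 0)
    (A := Sum.elim (fun a b Z => MvPolynomial.eval (du Z (star p.1)) (P (some a) (some b)) -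
        (if a = b then 1 else 0) * MvPolynomial.eval (du Z (star p.1)) q)
      fun c b Z => MvPolynomial.eval Z (MvPolynomial.map (starRingEnd ℂ) (P (some b) (some c))))
    (b := Sum.elim (fun a Z => -MvPolynomial.eval (du Z (star p.1)) (P (some a) none))
      fun c Z => MvPolynomial.eval Z (MvPolynomial.map (starRingEnd ℂ) (P none (some c))))
    (fun i j => by
      rcases i with a | c
      · exact (IsPoly.eval_comp (hr_polydu _) _).sub
          ((IsPoly.const _).mul (IsPoly.eval_comp (hr_polydu _) _))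
      · exact ⟨_, fun _ => rfl⟩)
    (fun i => by
      rcases i with a | c
      · exact (IsPoly.eval_comp (hr_polydu _) _).neg
      · exact ⟨_, fun _ => rfl⟩)
    fun y hy => rt_inj hp (fun a => hy (Sum.inl a)) fun c => by
      have := hy (Sum.inr c)
      simp only [Sum.elim_inr] at this
      simpa only [hr_du, neg_zero, ← rt_conj, star_star] using this
  refine ⟨Q, R, hQ, fun Z hZ => hR Z (fun b => F b Z) fun i => ?_⟩
  rcases i with a | c
  · have := h2 Z hZ (star p.1) (some a)
    rw [Fintype.sum_option] at this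
    simp only [Sum.elim_inl, sub_mul, Finset.sum_sub_distrib, ite_mul, one_mul, zero_mul,
      Finset.sum_ite_eq, Finset.mem_univ, if_true]
    simp only [hat_none, hat_some, mul_one] at this
    linear_combination this
  · have := hzero (some c) Z hZ
    rw [Fintype.sum_option] at this
    simp only [hat_none, hat_some, mul_one, sg_none, sg_some, one_mul] at this
    simp only [Sum.elim_inr]
    linear_combination this

end Pool.Agent.Lib.MP_601e9e_an.Rg
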