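import Pool.Agent.Lib.MP_601e9e_an.Rg.Defs2
import Pool.Agent.Lib.MP_601e9e_an.Rg.Wron

open Complex Filter Topology Set Metric MeasureTheory
open scoped ComplexConjugate ContDiff Matrix

namespace Pool.Agent.Lib.MP_601e9e_an.Rg

variable {m : ℕ} {ι κ : Type*} [Fintype ι] [Fintype κ] [DecidableEq κ] {G : ι → Zs m → ℂ}
  {D : Set (Zs m)} {C : κ → ℕ × (Fin m → ℂ)}

omit [DecidableEq κ] in
theorem hw86_span {M : Matrix ι κ ℂ} {w : ι → ℂ}
    (h : ∀ n : ι → ℂ, (∀ x, ∑ a, n a * M a x = 0) → ∑ a, n a * w a = 0) :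
    ∃ c : κ → ℂ, M *ᵥ c = w := by
  classical
  have h1 : w ∈ Submodule.span ℂ (range fun (x : κ) (a : ι) => M a x) := by
    by_contra h0
    obtain ⟨φ, h1, h2⟩ := Submodule.exists_dual_map_eq_bot_of_notMem h0 inferInstance
    have e : ∀ x : ι → ℂ, φ x = ∑ a, φ (fun b => if a = b then 1 else 0) * x a := fun x => by
      rw [LinearMap.pi_apply_eq_sum_univ]
      exact Finset.sum_congr rfl fun a _ => mul_comm _ _
    refine h1 ?_
    rw [e]
    refine h _ fun x => ?_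
    rw [← e fun a => M a x, ← Submodule.mem_bot ℂ, ← h2]
    exact Submodule.mem_map_of_mem (Submodule.subset_span ⟨x, rfl⟩)
  obtain ⟨c, hc⟩ := (Submodule.mem_span_range_iff_exists_fun ℂ).1 h1
  refine ⟨c, funext fun a => ?_⟩
  have := congrFun hc a
  simpa [Matrix.mulVec, dotProduct, mul_comm] using this

omit [DecidableEq κ] in
theorem hw86_sum (n : ι → ℂ) (M : Matrix ι κ ℂ) (c : κ → ℂ) :
    ∑ a, n a * (M *ᵥ c) a = ∑ x, c x * ∑ a, n a * M a x := by
  simp only [Matrix.mulVec, dotProduct, Finset.mul_sum]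
  rw [Finset.sum_comm]
  exact Finset.sum_congr rfl fun l _ => Finset.sum_congr rfl fun a _ => by ring

omit [DecidableEq κ] in
theorem hw86_mixed (hD : IsOpen D) (hG : ∀ a, DifferentiableOn ℂ (G a) D) (hcl : Cl G C D)
    {Y : Zs m} {ζ : Fin m → ℂ} (hY : Y ∈ D) (hind : HInd G C Y ζ) (ξ : Fin m → ℂ) (x : κ) :
    ∃ c : κ → ℂ, hx G C Y ζ *ᵥ c =
      fun a => jet (dd (tv ζ ξ) (G a)) (C x).1 Y (tv ζ (C x).2) := by
  refine hw86_span fun n hn => ?_
  have h1 : ∀ η, ∑ a, n a * jet (G a) ((C x).1 + 1) Y (tv ζ η) = 0 := by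
    intro η
    have h2 := hcl ((C x).1 + 1, η) (Or.inr ⟨x, rfl⟩) Y hY ζ
    unfold HInd at h2
    rw [linearIndependent_option, not_and, not_not] at h2
    obtain ⟨c, hc⟩ := (Submodule.mem_span_range_iff_exists_fun ℂ).1 (h2 hind)
    have e : (fun a => jet (G a) ((C x).1 + 1) Y (tv ζ η)) = hx G C Y ζ *ᵥ c := by
      funext a
      have := congrFun hc a
      simpa [Matrix.mulVec, dotProduct, mul_comm, hx, snoc] using this.symm
    have e2 := hw86_sum n (hx G C Y ζ) c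
    rw [← e] at e2
    rw [e2]
    simp [hn]
  have h3 : HasDerivAt (fun s : ℂ => ∑ a, n a * jet (G a) ((C x).1 + 1) Y
      (tv ζ (C x).2 + s • tv ζ ξ))
      (∑ a, n a * ((((C x).1 + 1 : ℕ) : ℂ) *
        jet (dd (tv ζ ξ) (G a)) ((C x).1 + 1 - 1) Y (tv ζ (C x).2))) 0 :=
    HasDerivAt.fun_sum fun a _ => (hasDerivAt_jet_dir hD (hG a) _ hY _ _).const_mul (n a)
  have h4 : (fun s : ℂ => ∑ a, n a * jet (G a) ((C x).1 + 1) Y
      (tv ζ (C x).2 + s • tv ζ ξ)) = fun _ => 0 := by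
    funext s
    rw [← tv_smul, ← tv_add, h1]
  rw [h4] at h3
  have h5 := h3.unique (hasDerivAt_const (0 : ℂ) (0 : ℂ))
  simp only [Nat.add_sub_cancel, mul_left_comm _ (((C x).1 + 1 : ℕ) : ℂ),
    ← Finset.mul_sum] at h5
  exact (mul_eq_zero.1 h5).resolve_left (Nat.cast_ne_zero.2 (Nat.succ_ne_zero _))

theorem hw86_ode {U : Set ℂ} (hU : IsOpen U) (hc : Convex ℝ U) (h0 : (0 : ℂ) ∈ U)
    {M M' : ℂ → Matrix ι κ ℂ}
    (hM : ∀ s ∈ U, ∀ a x, HasDerivAt (fun s => M s a x) (M' s a x) s)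
    (hM' : ∀ a x, ContinuousAt (fun s => M' s a x) 0)
    (hind : LinearIndependent ℂ (fun (x : κ) (a : ι) => M 0 a x))
    (hrel : ∀ s ∈ U, LinearIndependent ℂ (fun (x : κ) (a : ι) => M s a x) →
      ∀ x, ∃ c : κ → ℂ, M s *ᵥ c = fun a => M' s a x)
    {n : ι → ℂ} (hn : ∀ x, ∑ a, n a * M 0 a x = 0) {s : ℂ} (hs : s ∈ U) (x : κ) :
    ∑ a, n a * M s a x = 0 := by
  obtain ⟨π, hπ⟩ := exists_left hind
  have cM : ContinuousAt (fun s : ℂ => π * M s) 0 := by
    refine continuousAt_pi.2 fun i => continuousAt_pi.2 fun j => ?_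
    simp only [Matrix.mul_apply]
    exact tendsto_finsetSum _ fun a _ => continuousAt_const.mul (hM 0 h0 a j).continuousAt
  have cd : ContinuousAt (fun s : ℂ => (π * M s).det) 0 :=
    (continuous_id.matrix_det.continuousAt).comp cM
  have ca : ContinuousAt (fun s : ℂ => (π * M s).adjugate) 0 :=
    (continuous_id.matrix_adjugate.continuousAt).comp cM
  let w : ℂ → κ → κ → ℂ := fun s x => ((π * M s).det)⁻¹ •
    (π * M s).adjugate.mulVec (π.mulVec fun a => M' s a x)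
  have cw : ContinuousAt w 0 := by
    refine continuousAt_pi.2 fun x => (cd.inv₀ hπ).smul (continuousAt_pi.2 fun i => ?_)
    simp only [Matrix.mulVec, dotProduct]
    refine tendsto_finsetSum _ fun j _ => ContinuousAt.mul
      (continuousAt_pi.1 (continuousAt_pi.1 ca i) j) ?_
    exact tendsto_finsetSum _ fun a _ => continuousAt_const.mul (hM' a x)
  let f : κ → ℂ → ℂ := fun x s => ∑ a, n a * M s a x
  let f' : κ → ℂ → ℂ := fun x s => ∑ a, n a * M' s a x
  have hf : ∀ x, ∀ s ∈ U, HasDerivAt (f x) (f' x s) s := fun x s hs =>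
    HasDerivAt.fun_sum fun a _ => (hM s hs a x).const_mul (n a)
  set B : ℝ := ‖w 0‖ + 1 with hB
  have hB0 : 0 ≤ B := by positivity
  have hev : ∀ᶠ s in 𝓝 (0 : ℂ), s ∈ U ∧
      ∀ x, ‖f' x s‖ ≤ Fintype.card κ * B * ‖fun y => f y s‖ := by
    filter_upwards [hU.mem_nhds h0, cd.eventually_ne hπ,
      cw.norm.eventually (gt_mem_nhds (lt_add_one ‖w 0‖))] with s hs h1 h2
    refine ⟨hs, fun x => ?_⟩
    obtain ⟨c, hc⟩ := hrel s hs (ind_of_det h1) x
    have e0 : w s x = c := by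
      simp only [w, ← hc]
      rw [Matrix.mulVec_mulVec c π, Matrix.mulVec_mulVec, Matrix.adjugate_mul, Matrix.smul_mulVec,
        Matrix.one_mulVec, smul_smul, inv_mul_cancel₀ h1, one_smul]
    have e1 : ‖c‖ ≤ B := e0 ▸ (norm_le_pi_norm (w s) x).trans h2.le
    have e : f' x s = ∑ y, c y * f y s := by
      have := hw86_sum n (M s) c
      rw [hc] at this
      exact this
    rw [e, mul_assoc]
    refine (norm_sum_le _ _).trans ((Finset.sum_le_card_nsmul _ _ _ fun l _ => ?_).trans_eq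
      (by rw [Finset.card_univ, nsmul_eq_mul]))
    rw [norm_mul]
    exact mul_le_mul ((norm_le_pi_norm c l).trans e1) (norm_le_pi_norm (fun y => f y s) l)
      (norm_nonneg _) hB0
  obtain ⟨d, hd, hball⟩ := Metric.eventually_nhds_iff_ball.1 hev
  have h1 : ∀ s ∈ ball (0 : ℂ) d, (fun y => f y s) = 0 := by
    intro s hs
    have hin : ∀ τ ∈ Icc (0 : ℝ) 1, (τ : ℂ) * s ∈ ball (0 : ℂ) d := fun τ hτ => by
      rw [mem_ball_zero_iff] at hs ⊢
      rw [norm_mul, norm_real, Real.norm_of_nonneg hτ.1]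
      exact (mul_le_of_le_one_left (norm_nonneg _) hτ.2).trans_lt hs
    have hder : ∀ τ ∈ Icc (0 : ℝ) 1, HasDerivAt (fun τ : ℝ => fun y => f y (τ * s))
        (fun y => f' y (τ * s) * s) τ := fun τ hτ =>
      hasDerivAt_pi.2 fun l => by
        have := ((hf l _ (hball _ (hin τ hτ)).1).comp (τ : ℂ)
          ((hasDerivAt_id (τ : ℂ)).mul_const s)).comp_ofReal
        simpa using this
    have := eq_zero_of_abs_deriv_le_mul_abs_self_of_eq_zero_right
      (K := Fintype.card κ * B * ‖s‖)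
      (fun τ hτ => (hder τ hτ).continuousAt.continuousWithinAt)
      (fun τ hτ => (hder τ (Ico_subset_Icc_self hτ)).hasDerivWithinAt)
      (funext fun l => by simpa [f] using hn l) (fun τ hτ => ?_) 1 ⟨zero_le_one, le_rfl⟩
    · simpa using this
    · refine (pi_norm_le_iff_of_nonneg (by positivity)).2 fun l => ?_
      rw [norm_mul, mul_right_comm]
      exact mul_le_mul_of_nonneg_right ((hball _ (hin τ (Ico_subset_Icc_self hτ))).2 l)
        (norm_nonneg _)
  exact ident hU hc (fun s hs => (hf x s hs).differentiableAt.differentiableWithinAt) h0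
    (Metric.eventually_nhds_iff_ball.2 ⟨d, hd, fun s hs => congrFun (h1 s hs) x⟩) s hs

theorem hwron (hD : IsOpen D) (hc : Convex ℝ D) (hG : ∀ a, DifferentiableOn ℂ (G a) D)
    (hcl : Cl G C D) {Z : Zs m} {ζ : Fin m → ℂ} (hZ : Z ∈ D) (hind : HInd G C Z ζ)
    {ξ : Fin m → ℂ} (hZ' : Z + tv ζ ξ ∈ D) :
    ∃ T : Matrix κ κ ℂ, hx G C (Z + tv ζ ξ) ζ = hx G C Z ζ * T := by
  have h0 : Z + (0 : ℂ) • tv ζ ξ = Z := by simp
  have h1 : Z + (1 : ℂ) • tv ζ ξ = Z + tv ζ ξ := by simp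
  have key : ∀ n : ι → ℂ, (∀ x, ∑ a, n a * hx G C Z ζ a x = 0) →
      ∀ x, ∑ a, n a * hx G C (Z + tv ζ ξ) ζ a x = 0 := by
    intro n hn x
    rw [← h1]
    refine hw86_ode (M := fun s => hx G C (Z + s • tv ζ ξ) ζ)
      (M' := fun s => Matrix.of fun a x =>
        jet (dd (tv ζ ξ) (G a)) (C x).1 (Z + s • tv ζ ξ) (tv ζ (C x).2))
      (wr_open hD Z (tv ζ ξ)) (wr_convex hc Z (tv ζ ξ))
      (show Z + (0 : ℂ) • tv ζ ξ ∈ D by rwa [h0]) (fun s hs a x => ?_) (fun a x => ?_)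
      (by simpa only [h0, HInd] using hind) (fun s hs hi x => hw86_mixed hD hG hcl hs hi ξ x)
      (by simpa only [h0] using hn) (show Z + (1 : ℂ) • tv ζ ξ ∈ D by rwa [h1]) x
    · simp only [Matrix.of_apply, hx]
      rw [jet_dd hD (hG a) _ _ _ hs]
      exact hasDerivAt_line hD (hol_jet hD (hG a) _ _) Z _ hs
    · exact (hasDerivAt_line hD (hol_jet hD (hol_dd hD (hG a) _) _ _) Z _
        (show Z + (0 : ℂ) • tv ζ ξ ∈ D by rwa [h0])).continuousAt
  choose c hc using fun x => hw86_span (M := hx G C Z ζ)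
    (w := fun a => hx G C (Z + tv ζ ξ) ζ a x) fun n hn => key n hn x
  refine ⟨Matrix.of fun y x => c x y, ?_⟩
  ext a x
  rw [← congrFun (hc x) a]
  rfl

end Pool.Agent.Lib.MP_601e9e_an.Rg
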