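import Pool.Agent.Lib.MP_601e9e_an.Rg.Defs

open Complex Filter Topology Set Metric MeasureTheory
open scoped ComplexConjugate ContDiff

namespace Pool.Agent.Lib.MP_601e9e_an.Rg

variable {m : ℕ} {f g ψ : Xs m → ℂ} {p : Xs m} {B : Set (Xs m)}

/-- A first order operator whose last coefficient does not depend on `u`. -/
noncomputable def ibG (v w : Xs m) (a b : ℂ) (c : (Fin m → ℂ) → ℂ) (f : Xs m → ℂ) (p : Xs m) :
    ℂ :=
  a * fderiv ℝ f p v + b * fderiv ℝ f p w + c p.1 * fderiv ℝ f p (0, 1)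

theorem ib_Lx (ξ : Fin m → ℂ) (f : Xs m → ℂ) :
    Lx ξ f = ibG (ξ, 0) (I • ξ, 0) (1 / 2) (-I / 2) (fun z => I * bil (star z) ξ) f := by
  funext p
  simp only [Lx, ibG]
  ring

theorem ib_Lb (ξ : Fin m → ℂ) (f : Xs m → ℂ) :
    Lb ξ f = ibG (ξ, 0) (I • ξ, 0) (1 / 2) (I / 2) (fun z => -(I * bil z (star ξ))) f := by
  funext p
  simp only [Lb, ibG]
  ring

theorem ib_Lt (f : Xs m → ℂ) : Lt f = ibG 0 0 0 0 (fun _ => 1) f := by
  funext p
  simp only [Lt, ibG]
  ring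

theorem ib_cx (ξ : Fin m → ℂ) : ContDiff ℝ ∞ (fun z : Fin m → ℂ => I * bil (star z) ξ) := by
  refine contDiff_const.mul ?_
  unfold bil
  refine ContDiff.sum fun j _ => ContDiff.mul ?_ contDiff_const
  exact conjCLE.contDiff.comp (contDiff_apply ℝ ℂ j)

theorem ib_cb (ξ : Fin m → ℂ) : ContDiff ℝ ∞ (fun z : Fin m → ℂ => -(I * bil z (star ξ))) := by
  refine (contDiff_const.mul ?_).neg
  unfold bil
  exact ContDiff.sum fun j _ => ContDiff.mul (contDiff_apply ℝ ℂ j) contDiff_const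

theorem ib_fd_mul (hf : DifferentiableAt ℝ f p) (hg : DifferentiableAt ℝ g p) (v : Xs m) :
    fderiv ℝ (fun q => f q * g q) p v = fderiv ℝ f p v * g p + f p * fderiv ℝ g p v := by
  rw [fderiv_fun_mul hf hg]
  simp only [add_apply, smul_apply, smul_eq_mul]
  ring

theorem ib_fd_sub (hf : DifferentiableAt ℝ f p) (hg : DifferentiableAt ℝ g p) (v : Xs m) :
    fderiv ℝ (fun q => f q - g q) p v = fderiv ℝ f p v - fderiv ℝ g p v := by
  rw [fderiv_fun_sub hf hg]
  rfl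

theorem ib_fd_conj (hf : DifferentiableAt ℝ f p) (v : Xs m) :
    fderiv ℝ (fun q => conj (f q)) p v = conj (fderiv ℝ f p v) := by
  have h : HasFDerivAt (fun q => conj (f q))
      ((conjCLE : ℂ →L[ℝ] ℂ).comp (fderiv ℝ f p)) p :=
    conjCLE.hasFDerivAt.comp p hf.hasFDerivAt
  rw [h.fderiv]
  rfl

theorem ib_tst_fd (h : Tst B ψ) (v : Xs m) : Tst B (fun p => fderiv ℝ ψ p v) := by
  refine ⟨?_, h.2.1.fderiv_apply ℝ v, (tsupport_fderiv_apply_subset ℝ v).trans h.2.2⟩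
  exact (h.1.fderiv_right (m := ∞) le_rfl).clm_apply contDiff_const

theorem ib_tst_mul {c : Xs m → ℂ} (hc : ContDiff ℝ ∞ c) (h : Tst B ψ) :
    Tst B (fun p => c p * ψ p) :=
  ⟨hc.mul h.1, h.2.1.mul_left, tsupport_mul_subset_right.trans h.2.2⟩

theorem ib_tst_add {φ : Xs m → ℂ} (h : Tst B ψ) (h' : Tst B φ) : Tst B (fun p => ψ p + φ p) :=
  ⟨h.1.add h'.1, h.2.1.add h'.2.1, (tsupport_add ψ φ).trans (union_subset h.2.2 h'.2.2)⟩

theorem ib_tst_G (h : Tst B ψ) (v w : Xs m) (a b : ℂ) {c : (Fin m → ℂ) → ℂ}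
    (hc : ContDiff ℝ ∞ c) : Tst B (ibG v w a b c ψ) :=
  ib_tst_add (ib_tst_add (ib_tst_mul contDiff_const (ib_tst_fd h v))
    (ib_tst_mul contDiff_const (ib_tst_fd h w)))
    (ib_tst_mul (hc.comp contDiff_fst) (ib_tst_fd h (0, 1)))

theorem ib_integrable (h : Tst B ψ) (hf : ContinuousOn f B) :
    Integrable (fun p => ψ p * f p) := by
  have h1 : IntegrableOn (fun p => ψ p * f p) (tsupport ψ) :=
    (h.1.continuous.continuousOn.mul (hf.mono h.2.2)).integrableOn_compact h.2.1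
  refine (integrableOn_iff_integrable_of_support_subset ?_).1 h1
  exact (Function.support_mul_subset_left ψ f).trans (subset_tsupport ψ)

theorem ib_cont_fd (hB : IsOpen B) (hf : ContDiffOn ℝ 1 f B) (v : Xs m) :
    ContinuousOn (fun p => fderiv ℝ f p v) B :=
  (hf.continuousOn_fderiv_of_isOpen hB le_rfl).clm_apply continuousOn_const

theorem ib_haar : (volume : Measure (Xs m)).IsAddHaarMeasure :=
  Measure.prod.instIsAddHaarMeasure _ _

theorem ib_dir (hB : IsOpen B) (h : Tst B ψ) (hf : ContDiffOn ℝ 1 f B) (v : Xs m) :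
    ∫ p, ψ p * fderiv ℝ f p v = -∫ p, fderiv ℝ ψ p v * f p :=
  haveI := ib_haar (m := m)
  integral_mul_fderiv_eq_neg_fderiv_mul_of_integrable
    (ib_integrable (ib_tst_fd h v) hf.continuousOn) (ib_integrable h (ib_cont_fd hB hf v))
    (ib_integrable h hf.continuousOn)
    (fun x _ => h.1.differentiable (by simp) x)
    (fun x hx => (hf.differentiableOn one_ne_zero x (h.2.2 hx)).differentiableAt
      (hB.mem_nhds (h.2.2 hx)))

theorem ib_dir_c (hB : IsOpen B) (h : Tst B ψ) (hf : ContDiffOn ℝ 1 f B) (v : Xs m)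
    {c : Xs m → ℂ} (hc : ContDiff ℝ ∞ c) (h0 : ∀ p, fderiv ℝ c p v = 0) :
    ∫ p, ψ p * (c p * fderiv ℝ f p v) = -∫ p, c p * fderiv ℝ ψ p v * f p := by
  have h1 := ib_dir hB (ib_tst_mul hc h) hf v
  have h2 : ∀ p, fderiv ℝ (fun q => c q * ψ q) p v = c p * fderiv ℝ ψ p v := fun p => by
    rw [ib_fd_mul (hc.differentiable (by simp) p) (h.1.differentiable (by simp) p), h0, zero_mul,
      zero_add]
  simp only [h2] at h1
  rw [← h1]
  congr 1
  funext p
  ring

theorem ib_G (hB : IsOpen B) (h : Tst B ψ) (hf : ContDiffOn ℝ 1 f B) (v w : Xs m) (a b : ℂ)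
    {c : (Fin m → ℂ) → ℂ} (hc : ContDiff ℝ ∞ c) :
    ∫ p, ψ p * ibG v w a b c f p = -∫ p, ibG v w a b c ψ p * f p := by
  have hc' : ContDiff ℝ ∞ (fun p : Xs m => c p.1) := hc.comp contDiff_fst
  have h0 : ∀ p : Xs m, fderiv ℝ (fun p : Xs m => c p.1) p (0, 1) = 0 := fun p => by
    have h1 : HasFDerivAt (fun p : Xs m => c p.1)
        ((fderiv ℝ c p.1).comp (ContinuousLinearMap.fst ℝ _ _)) p :=
      (hc.differentiable (by simp) p.1).hasFDerivAt.comp p hasFDerivAt_fst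
    rw [h1.fderiv]
    simp
  have e1 := ib_dir_c hB h hf v (c := fun _ => a) contDiff_const (by simp)
  have e2 := ib_dir_c hB h hf w (c := fun _ => b) contDiff_const (by simp)
  have e3 := ib_dir_c hB h hf (0, 1) hc' h0
  have i1 := ib_integrable h (continuousOn_const (c := a) |>.mul (ib_cont_fd hB hf v))
  have i2 := ib_integrable h (continuousOn_const (c := b) |>.mul (ib_cont_fd hB hf w))
  have i3 := ib_integrable h (hc'.continuous.continuousOn.mul (ib_cont_fd hB hf (0, 1)))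
  have j1 := ib_integrable (ib_tst_mul (c := fun _ => a) contDiff_const (ib_tst_fd h v))
    hf.continuousOn
  have j2 := ib_integrable (ib_tst_mul (c := fun _ => b) contDiff_const (ib_tst_fd h w))
    hf.continuousOn
  have j3 := ib_integrable (ib_tst_mul hc' (ib_tst_fd h (0, 1))) hf.continuousOn
  simp only [Pi.mul_apply] at i1 i2 i3
  simp only [ibG, mul_add, add_mul]
  rw [integral_add (i1.fun_add i2) i3, integral_add i1 i2, integral_add (j1.fun_add j2) j3,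
    integral_add j1 j2, e1, e2, e3]
  ring

theorem Lx_mul (ξ : Fin m → ℂ) (hf : DifferentiableAt ℝ f p) (hg : DifferentiableAt ℝ g p) :
    Lx ξ (fun q => f q * g q) p = Lx ξ f p * g p + f p * Lx ξ g p := by
  simp only [Lx, ib_fd_mul hf hg]
  ring

theorem Lb_mul (ξ : Fin m → ℂ) (hf : DifferentiableAt ℝ f p) (hg : DifferentiableAt ℝ g p) :
    Lb ξ (fun q => f q * g q) p = Lb ξ f p * g p + f p * Lb ξ g p := by
  simp only [Lb, ib_fd_mul hf hg]
  ring

theorem Lt_mul (hf : DifferentiableAt ℝ f p) (hg : DifferentiableAt ℝ g p) :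
    Lt (fun q => f q * g q) p = Lt f p * g p + f p * Lt g p := by
  simp only [Lt, ib_fd_mul hf hg]

theorem Lx_sub (ξ : Fin m → ℂ) (hf : DifferentiableAt ℝ f p) (hg : DifferentiableAt ℝ g p) :
    Lx ξ (fun q => f q - g q) p = Lx ξ f p - Lx ξ g p := by
  simp only [Lx, ib_fd_sub hf hg]
  ring

theorem Lb_sub (ξ : Fin m → ℂ) (hf : DifferentiableAt ℝ f p) (hg : DifferentiableAt ℝ g p) :
    Lb ξ (fun q => f q - g q) p = Lb ξ f p - Lb ξ g p := by
  simp only [Lb, ib_fd_sub hf hg]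
  ring

theorem Lx_conj (ξ : Fin m → ℂ) (hf : DifferentiableAt ℝ f p) :
    Lx ξ (fun q => conj (f q)) p = conj (Lb ξ f p) := by
  simp only [Lx, Lb, ib_fd_conj hf, map_sub, map_add, map_mul, map_div₀, conj_I, conj_bil,
    star_star, map_ofNat]
  ring

theorem Lb_conj (ξ : Fin m → ℂ) (hf : DifferentiableAt ℝ f p) :
    Lb ξ (fun q => conj (f q)) p = conj (Lx ξ f p) := by
  simp only [Lx, Lb, ib_fd_conj hf, map_sub, map_add, map_mul, map_div₀, conj_I, conj_bil,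
    star_star, map_ofNat]
  ring

theorem Lt_conj (hf : DifferentiableAt ℝ f p) :
    Lt (fun q => conj (f q)) p = conj (Lt f p) := by
  simp only [Lt, ib_fd_conj hf]

theorem Tst.lx (h : Tst B ψ) (ξ : Fin m → ℂ) : Tst B (Lx ξ ψ) := by
  rw [ib_Lx]
  exact ib_tst_G h _ _ _ _ (ib_cx ξ)

theorem Tst.lb (h : Tst B ψ) (ξ : Fin m → ℂ) : Tst B (Lb ξ ψ) := by
  rw [ib_Lb]
  exact ib_tst_G h _ _ _ _ (ib_cb ξ)

theorem Tst.lt (h : Tst B ψ) : Tst B (Lt ψ) := by
  rw [ib_Lt]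
  exact ib_tst_G h _ _ _ _ contDiff_const

theorem Tst.integrable_mul (h : Tst B ψ) (hf : ContinuousOn f B) :
    Integrable (fun p => ψ p * f p) := by
  exact ib_integrable h hf

theorem ibp_Lx (hB : IsOpen B) (h : Tst B ψ) (hf : ContDiffOn ℝ 1 f B) (ξ : Fin m → ℂ) :
    ∫ p, ψ p * Lx ξ f p = -∫ p, Lx ξ ψ p * f p := by
  rw [ib_Lx, ib_Lx]
  exact ib_G hB h hf _ _ _ _ (ib_cx ξ)

theorem ibp_Lb (hB : IsOpen B) (h : Tst B ψ) (hf : ContDiffOn ℝ 1 f B) (ξ : Fin m → ℂ) :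
    ∫ p, ψ p * Lb ξ f p = -∫ p, Lb ξ ψ p * f p := by
  rw [ib_Lb, ib_Lb]
  exact ib_G hB h hf _ _ _ _ (ib_cb ξ)

theorem ibp_Lt (hB : IsOpen B) (h : Tst B ψ) (hf : ContDiffOn ℝ 1 f B) :
    ∫ p, ψ p * Lt f p = -∫ p, Lt ψ p * f p := by
  rw [ib_Lt, ib_Lt]
  exact ib_G hB h hf _ _ _ _ contDiff_const

/-- A real cut-off function. -/
theorem exists_cutoff (hB : IsOpen B) {S : Set (Xs m)} (hS : IsCompact S) (hSB : S ⊆ B) :
    ∃ χ : Xs m → ℝ, Tst B (fun p => (χ p : ℂ)) ∧ (∀ p, 0 ≤ χ p) ∧ ∀ p ∈ S, χ p = 1 := by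
  obtain ⟨K, hK, hSK, hKB⟩ := exists_compact_between hS hB hSB
  obtain ⟨χ, h1, h0, h01⟩ := exists_contMDiffMap_one_nhds_of_subset_interior (n := ⊤)
    (modelWithCornersSelf ℝ (Xs m)) hS.isClosed hSK
  have hs : tsupport (fun p => (χ p : ℂ)) ⊆ K := by
    refine closure_minimal (fun p hp => ?_) hK.isClosed
    by_contra hp'
    exact hp (by simp [h0 p hp'])
  refine ⟨χ, ⟨?_, hK.of_isClosed_subset (isClosed_tsupport _) hs, hs.trans hKB⟩,
    fun p => (h01 p).1, fun p hp => h1.self_of_nhdsSet p hp⟩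
  exact ofRealCLM.contDiff.comp χ.contMDiff.contDiff

theorem Small.pair {κ : Type*} {l : Filter κ} {a b : κ → Xs m → ℂ} (ha : Small l B a)
    (hb : Small l B b) (hac : ∀ᶠ x in l, ContinuousOn (a x) B)
    (hbc : ∀ᶠ x in l, ContinuousOn (b x) B) (h : Tst B ψ) :
    Tendsto (fun x => ∫ p, ψ p * (a x p * conj (b x p))) l (𝓝 0) := by
  obtain ⟨C, hC⟩ := h.1.continuous.bounded_above_of_compact_support h.2.1
  have hS : IsCompact (tsupport ψ) := h.2.1
  have hlim := ((ha _ hS h.2.2).add (hb _ hS h.2.2)).const_mul C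
  rw [add_zero, mul_zero] at hlim
  refine squeeze_zero_norm' ?_ hlim
  filter_upwards [hac, hbc] with x hax hbx
  have ia : IntegrableOn (fun p => ‖a x p‖ ^ 2) (tsupport ψ) :=
    ((hax.mono h.2.2).norm.pow 2).integrableOn_compact hS
  have ib : IntegrableOn (fun p => ‖b x p‖ ^ 2) (tsupport ψ) :=
    ((hbx.mono h.2.2).norm.pow 2).integrableOn_compact hS
  rw [← setIntegral_eq_integral_of_forall_compl_eq_zero (s := tsupport ψ)
    (fun p hp => by rw [image_eq_zero_of_notMem_tsupport hp, zero_mul]),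
    ← integral_add ia ib, ← integral_const_mul]
  refine norm_integral_le_of_norm_le ((ia.add ib).const_mul C) (Eventually.of_forall fun p => ?_)
  rw [norm_mul, norm_mul, RCLike.norm_conj]
  have h1 := hC p
  have h2 := norm_nonneg (ψ p)
  have h3 := norm_nonneg (a x p)
  have h4 := norm_nonneg (b x p)
  refine mul_le_mul h1 ?_ (mul_nonneg h3 h4) (h2.trans h1)
  nlinarith [sq_nonneg (‖a x p‖ - ‖b x p‖), mul_nonneg h3 h4]

theorem small_of_tst {κ : Type*} {l : Filter κ} {a : κ → Xs m → ℂ} (hB : IsOpen B)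
    (hac : ∀ᶠ x in l, ContinuousOn (a x) B)
    (h : ∀ χ : Xs m → ℝ, Tst B (fun p => (χ p : ℂ)) → (∀ p, 0 ≤ χ p) →
      Tendsto (fun x => ∫ p, (χ p : ℂ) * (a x p * conj (a x p))) l (𝓝 0)) : Small l B a := by
  intro S hS hSB
  obtain ⟨χ, hχ, h0, h1⟩ := exists_cutoff hB hS hSB
  have hlim := (h χ hχ h0).norm
  rw [norm_zero] at hlim
  refine squeeze_zero' (Eventually.of_forall fun x => integral_nonneg fun p => sq_nonneg _) ?_ hlim
  filter_upwards [hac] with x hax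
  have e : ∀ p, (χ p : ℂ) * (a x p * conj (a x p)) = ((χ p * ‖a x p‖ ^ 2 : ℝ) : ℂ) := fun p => by
    rw [Complex.mul_conj, Complex.normSq_eq_norm_sq]
    push_cast
    rfl
  have hi : Integrable (fun p => χ p * ‖a x p‖ ^ 2) := by
    have h2 := ib_integrable hχ (hax.mul (continuous_conj.comp_continuousOn hax))
    simp only [Pi.mul_apply, Function.comp_apply, e] at h2
    exact h2.re.congr (Eventually.of_forall fun p => ofReal_re _)
  simp only [e]
  rw [integral_complex_ofReal, Complex.norm_real]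
  calc ∫ p in S, ‖a x p‖ ^ 2 = ∫ p in S, χ p * ‖a x p‖ ^ 2 :=
        setIntegral_congr_fun hS.measurableSet fun p hp => by simp [h1 p hp]
    _ ≤ ∫ p, χ p * ‖a x p‖ ^ 2 :=
        setIntegral_le_integral hi (Eventually.of_forall fun p => mul_nonneg (h0 p) (sq_nonneg _))
    _ ≤ _ := le_abs_self _

end Pool.Agent.Lib.MP_601e9e_an.Rg
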