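import Pool.Agent.Lib.MP_601e9e_an.Rg.Defs2

open Complex Filter Topology Set Metric MeasureTheory
open scoped ComplexConjugate ContDiff Matrix

namespace Pool.Agent.Lib.MP_601e9e_an.Rg

variable {m N : ℕ}

/-- The Hermitian product. -/
noncomputable def qdIp {n : ℕ} (u v : Fin n → ℂ) : ℂ := ∑ a, u a * conj (v a)

theorem qd_conj {n : ℕ} (u v : Fin n → ℂ) : conj (qdIp u v) = qdIp v u := by
  simp [qdIp, mul_comm]

theorem qd_sub_left {n : ℕ} (u u' v : Fin n → ℂ) : qdIp (u - u') v = qdIp u v - qdIp u' v := by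
  simp [qdIp, sub_mul, Finset.sum_sub_distrib]

theorem qd_sub_right {n : ℕ} (u v v' : Fin n → ℂ) : qdIp u (v - v') = qdIp u v - qdIp u v' := by
  simp [qdIp, mul_sub, Finset.sum_sub_distrib]

theorem qd_self {n : ℕ} (u : Fin n → ℂ) : qdIp u u = ((∑ a, normSq (u a) : ℝ) : ℂ) := by
  simp [qdIp, mul_conj]

theorem qd_zero {n : ℕ} {u : Fin n → ℂ} (h : (qdIp u u).re = 0) : u = 0 := by
  rw [qd_self, ofReal_re] at h
  funext a
  exact normSq_eq_zero.1
    ((Finset.sum_eq_zero_iff_of_nonneg fun a _ => normSq_nonneg (u a)).1 h a (Finset.mem_univ a))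

theorem qd_l1_left (V : J2 m N) (y : Fin m → ℂ) (w : Fin N → ℂ) :
    qdIp (l1 V y) w = ∑ k, y k * qdIp (V.1 k) w := by
  simp only [qdIp, l1, Finset.sum_mul, Finset.mul_sum]
  rw [Finset.sum_comm]
  exact Finset.sum_congr rfl fun _ _ => Finset.sum_congr rfl fun _ _ => by ring

theorem qd_l1_right (V : J2 m N) (y : Fin m → ℂ) (w : Fin N → ℂ) :
    qdIp w (l1 V y) = ∑ k, conj (y k) * qdIp w (V.1 k) := by
  rw [← qd_conj, qd_l1_left]
  simp [qd_conj]

theorem qd_l2_left (V : J2 m N) (A : Matrix (Fin m) (Fin m) ℂ) (w : Fin N → ℂ) :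
    qdIp (l2 V A) w = ∑ i, ∑ j, A i j * qdIp (V.2 i j) w := by
  simp only [qdIp, l2, Finset.sum_mul, Finset.mul_sum]
  rw [Finset.sum_comm]
  refine Finset.sum_congr rfl fun _ _ => ?_
  rw [Finset.sum_comm]
  exact Finset.sum_congr rfl fun _ _ => Finset.sum_congr rfl fun _ _ => by ring

theorem qd_l2_right (V : J2 m N) (A : Matrix (Fin m) (Fin m) ℂ) (w : Fin N → ℂ) :
    qdIp w (l2 V A) = ∑ i, ∑ j, conj (A i j) * qdIp w (V.2 i j) := by
  rw [← qd_conj, qd_l2_left]
  simp [qd_conj]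

/-- The bilinear form of a table. -/
noncomputable def qdB (ρ : Fin m → Fin m → ℂ) (x y : Fin m → ℂ) : ℂ := ∑ i, ∑ j, x i * y j * ρ i j

theorem qdB_symm {ρ : Fin m → Fin m → ℂ} (h : ∀ i j, ρ i j = ρ j i) (x y : Fin m → ℂ) :
    qdB ρ x y = qdB ρ y x := by
  simp only [qdB]
  rw [Finset.sum_comm]
  exact Finset.sum_congr rfl fun i _ => Finset.sum_congr rfl fun j _ => by rw [h j i]; ring

theorem qdB_left (ρ : Fin m → Fin m → ℂ) (s t : ℂ) (x x' y : Fin m → ℂ) :
    qdB ρ (s • x + t • x') y = s * qdB ρ x y + t * qdB ρ x' y := by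
  simp only [qdB, Finset.mul_sum, ← Finset.sum_add_distrib, Pi.add_apply, Pi.smul_apply,
    smul_eq_mul]
  exact Finset.sum_congr rfl fun _ _ => Finset.sum_congr rfl fun _ _ => by ring

theorem qdB_sq {ρ : Fin m → Fin m → ℂ} (h : ∀ i j, ρ i j = ρ j i) (s t : ℂ) (x y : Fin m → ℂ) :
    qdB ρ (s • x + t • y) (s • x + t • y) =
      s ^ 2 * qdB ρ x x + 2 * s * t * qdB ρ x y + t ^ 2 * qdB ρ y y := by
  rw [qdB_left, qdB_symm h x, qdB_symm h y, qdB_left, qdB_left, qdB_symm h y x]
  ring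

theorem qdB_single (ρ : Fin m → Fin m → ℂ) (k : Fin m) (y : Fin m → ℂ) :
    qdB ρ (Pi.single k 1) y = ∑ j, y j * ρ k j := by
  simp only [qdB]
  rw [Finset.sum_eq_single k]
  · simp
  · intro i _ hi
    simp [Pi.single_eq_of_ne hi]
  · simp

theorem qdB_single2 (ρ : Fin m → Fin m → ℂ) (k l : Fin m) :
    qdB ρ (Pi.single k 1) (Pi.single l 1) = ρ k l := by
  rw [qdB_single]
  simp [Pi.single_apply]

theorem qd_q2_left (V : J2 m N) (ξ : Fin m → ℂ) (w : Fin N → ℂ) :
    qdIp (q2 V ξ) w = qdB (fun i j => qdIp (V.2 i j) w) ξ ξ := by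
  rw [q2, qd_l2_left]
  simp [qdB, Matrix.vecMulVec_apply]

theorem qd_q2_right (V : J2 m N) (ζ : Fin m → ℂ) (w : Fin N → ℂ) :
    qdIp w (q2 V (star ζ)) = qdB (fun i j => qdIp w (V.2 i j)) ζ ζ := by
  rw [q2, qd_l2_right]
  simp [qdB, Matrix.vecMulVec_apply]

/-- Division of the form of bidegree two by the bilinear pairing. -/
theorem qd_core {V : J2 m N} (hs : ∀ i j, V.2 i j = V.2 j i)
    (h : ∀ ξ η : Fin m → ℂ, bil ξ (star η) = 0 → qdIp (q2 V ξ) (q2 V η) = 0) :
    ∃ c : Fin m → Fin m → ℂ, ∀ (ξ : Fin m → ℂ) (k l : Fin m),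
      2 * qdIp (q2 V ξ) (V.2 k l) = ξ k * ∑ j, ξ j * c j l + ξ l * ∑ j, ξ j * c j k := by
  have h' : ∀ ξ ζ : Fin m → ℂ, bil ξ ζ = 0 →
      qdB (fun i j => qdIp (q2 V ξ) (V.2 i j)) ζ ζ = 0 := fun ξ ζ hb => by
    rw [← qd_q2_right]
    exact h ξ (star ζ) (by rwa [star_star])
  refine ⟨fun j k => 2 * qdIp (V.2 k j) (V.2 k k) -
    (Pi.single k 1 : Fin m → ℂ) j * qdIp (V.2 k k) (V.2 k k), ?_⟩
  set c : Fin m → Fin m → ℂ := fun j k => 2 * qdIp (V.2 k j) (V.2 k k) -
    (Pi.single k 1 : Fin m → ℂ) j * qdIp (V.2 k k) (V.2 k k) with hc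
  have d : ∀ (ξ : Fin m → ℂ) (k : Fin m),
      qdIp (q2 V ξ) (V.2 k k) = ξ k * ∑ j, ξ j * c j k := by
    intro ξ k
    have h1 := h' ((1 : ℂ) • ξ + (-ξ k) • (Pi.single k 1 : Fin m → ℂ)) (Pi.single k 1)
      (by simp [bil, Pi.single_apply])
    have hsy : ∀ i j, qdIp (V.2 i j) (V.2 k k) = qdIp (V.2 j i) (V.2 k k) := fun i j => by
      rw [hs i j]
    rw [qdB_single2, qd_q2_left, qdB_sq hsy, qdB_single2, qdB_symm hsy ξ (Pi.single k 1),
      qdB_single] at h1
    have h2 : ∑ j, ξ j * c j k =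
        2 * ∑ j, ξ j * qdIp (V.2 k j) (V.2 k k) - ξ k * qdIp (V.2 k k) (V.2 k k) := by
      simp only [hc, mul_sub, Finset.sum_sub_distrib, Finset.mul_sum]
      congr 1
      · exact Finset.sum_congr rfl fun _ _ => by ring
      · simp [Pi.single_apply]
    rw [qd_q2_left, h2]
    linear_combination h1
  have e : ∀ (ξ : Fin m → ℂ) (k l : Fin m), ξ k * ξ l * (2 * qdIp (q2 V ξ) (V.2 k l) -
      (ξ k * ∑ j, ξ j * c j l + ξ l * ∑ j, ξ j * c j k)) = 0 := by
    intro ξ k l
    have h1 := h' ξ (ξ l • (Pi.single k 1 : Fin m → ℂ) + (-ξ k) • (Pi.single l 1 : Fin m → ℂ))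
      (by simp [bil, Pi.single_apply, mul_add, Finset.sum_add_distrib]; ring)
    rw [qdB_sq (fun i j => by rw [hs i j]), qdB_single2, qdB_single2, qdB_single2, d, d] at h1
    linear_combination -h1
  intro ξ k l
  have hf : Continuous fun t : ℂ => 2 * qdIp (q2 V (fun j => ξ j + t)) (V.2 k l) -
      ((ξ k + t) * ∑ j, (ξ j + t) * c j l + (ξ l + t) * ∑ j, (ξ j + t) * c j k) := by
    simp only [qd_q2_left, qdB]
    fun_prop
  have hne : ∀ z : ℂ, ∀ᶠ t in 𝓝[≠] (0 : ℂ), z + t ≠ 0 := fun z =>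
    nhdsNE_le_cofinite (0 : ℂ) ((Set.finite_singleton (-z)).subset fun t ht => by
      have : z + t = 0 := by simpa using ht
      exact eq_neg_of_add_eq_zero_right this)
  have h0 := tendsto_nhds_unique_of_eventuallyEq (l := 𝓝[≠] (0 : ℂ))
    ((hf.tendsto 0).mono_left nhdsWithin_le_nhds) (tendsto_const_nhds (x := (0 : ℂ))) (by
      filter_upwards [hne (ξ k), hne (ξ l)] with t h1 h2
      exact (mul_eq_zero.1 (e (fun j => ξ j + t) k l)).resolve_left (mul_ne_zero h1 h2))
  simp only [add_zero] at h0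
  linear_combination h0

theorem qd_null {V : J2 m N} (hs : ∀ i j, V.2 i j = V.2 j i)
    (h : ∀ ξ η : Fin m → ℂ, bil ξ (star η) = 0 → qdIp (q2 V ξ) (q2 V η) = 0)
    {σ : Type*} [Fintype σ] {A : σ → Matrix (Fin m) (Fin m) ℂ} (hA : ∀ s, (A s).IsSymm)
    (hk : ∀ s, l2 V (A s) = 0) (τ : σ → Fin m → ℂ) : q2 V (∑ s, A s *ᵥ τ s) = 0 := by
  obtain ⟨c, hc⟩ := qd_core hs h
  let B : (Fin m → ℂ) → ℂ := fun x => ∑ l, conj (x l) * ∑ j, x j * c j l
  have hq : ∀ x, qdIp (q2 V x) (q2 V x) = qdIp x x * B x := by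
    intro x
    have h1 := qd_q2_right V (star x) (q2 V x)
    rw [star_star] at h1
    have h2 : 2 * qdB (fun i j => qdIp (q2 V x) (V.2 i j)) (star x) (star x) =
        qdIp x x * B x + B x * qdIp x x := by
      simp only [qdB, B, Finset.mul_sum]
      simp only [← Finset.mul_sum]
      rw [qdIp, Finset.sum_mul_sum, Finset.sum_mul_sum, ← Finset.sum_add_distrib, Finset.mul_sum]
      refine Finset.sum_congr rfl fun k _ => ?_
      rw [← Finset.sum_add_distrib, Finset.mul_sum]
      refine Finset.sum_congr rfl fun l _ => ?_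
      have := hc x k l
      simp only [Pi.star_apply, RCLike.star_def]
      linear_combination conj (x k) * conj (x l) * this
    rw [h1]
    linear_combination h2 / 2
  have hq' : ∀ x, (qdIp (q2 V x) (q2 V x)).re = (∑ a, normSq (x a)) * (B x).re := fun x => by
    rw [hq, qd_self x, re_ofReal_mul]
  have hpos : ∀ x, 0 ≤ (B x).re := by
    intro x
    by_cases hx : x = 0
    · simp [B, hx]
    · have h1 : 0 < ∑ a, normSq (x a) := by
        refine lt_of_le_of_ne (Finset.sum_nonneg fun a _ => normSq_nonneg _) fun e => hx ?_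
        exact qd_zero (by rw [qd_self, ofReal_re, ← e])
      have h2 := hq' x
      rw [qd_self, ofReal_re] at h2
      have h3 : 0 ≤ ∑ a, normSq (q2 V x a) := Finset.sum_nonneg fun a _ => normSq_nonneg _
      exact le_of_mul_le_mul_left (by rw [mul_zero, ← h2]; exact h3) h1
  have hadd : ∀ x y, (B x).re = 0 → (B y).re = 0 → (B (x + y)).re = 0 := by
    intro x y hx hy
    have h1 : B (x + y) + B (x - y) = 2 * B x + 2 * B y := by
      simp only [B, Finset.mul_sum, ← Finset.sum_add_distrib, Pi.add_apply, Pi.sub_apply, map_add,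
        map_sub]
      exact Finset.sum_congr rfl fun _ _ => Finset.sum_congr rfl fun _ _ => by ring
    have h2 := congrArg Complex.re h1
    simp only [add_re, mul_re, re_ofNat, im_ofNat, hx, hy] at h2
    linarith [hpos (x + y), hpos (x - y)]
  have hsmul : ∀ (t : ℂ) x, (B x).re = 0 → (B (t • x)).re = 0 := by
    intro t x hx
    have h1 : B (t • x) = (normSq t : ℂ) * B x := by
      simp only [B, Finset.mul_sum, Pi.smul_apply, smul_eq_mul, map_mul, ← mul_conj]
      exact Finset.sum_congr rfl fun _ _ => Finset.sum_congr rfl fun _ _ => by ring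
    rw [h1, re_ofReal_mul, hx, mul_zero]
  have hpol : ∀ i j k l, 4 * qdIp (V.2 i j) (V.2 k l) =
      (Pi.single i 1 : Fin m → ℂ) k * c j l + (Pi.single j 1 : Fin m → ℂ) k * c i l +
        (Pi.single i 1 : Fin m → ℂ) l * c j k + (Pi.single j 1 : Fin m → ℂ) l * c i k := by
    intro i j k l
    have hsy : ∀ i j, qdIp (V.2 i j) (V.2 k l) = qdIp (V.2 j i) (V.2 k l) := fun i j => by
      rw [hs i j]
    have h1 := hc ((1 : ℂ) • (Pi.single i 1 : Fin m → ℂ) + (1 : ℂ) • (Pi.single j 1 : Fin m → ℂ)) k l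
    have h2 := hc (Pi.single i 1) k l
    have h3 := hc (Pi.single j 1) k l
    rw [qd_q2_left] at h1 h2 h3
    rw [qdB_sq hsy, qdB_single2 _ i j] at h1
    have e : ∀ (i l : Fin m), ∑ j, (Pi.single i 1 : Fin m → ℂ) j * c j l = c i l := fun i l => by
      simp [Pi.single_apply]
    simp only [one_smul, Pi.add_apply, add_mul, Finset.sum_add_distrib, e] at h1 h2 h3
    linear_combination h1 - h2 - h3
  have hcol : ∀ s k, (B (A s k)).re = 0 := by
    intro s
    have ha : ∀ i j, A s i j = A s j i := fun i j => (hA s).apply j i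
    have h1 : ∀ k l, ∑ j, A s k j * c j l + ∑ j, A s l j * c j k = 0 := by
      intro k l
      have h2 : qdIp (l2 V (A s)) (V.2 k l) = 0 := by rw [hk s]; simp [qdIp]
      rw [qd_l2_left] at h2
      have h3 : 4 * ∑ i, ∑ j, A s i j * qdIp (V.2 i j) (V.2 k l) =
          ∑ j, A s k j * c j l + ∑ j, A s j k * c j l + ∑ j, A s l j * c j k +
            ∑ j, A s j l * c j k := by
        have : ∀ i j, 4 * (A s i j * qdIp (V.2 i j) (V.2 k l)) =
            A s i j * (4 * qdIp (V.2 i j) (V.2 k l)) := fun i j => by ring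
        simp only [Finset.mul_sum, this, hpol, mul_add, Finset.sum_add_distrib]
        congr 1
        · congr 1
          · congr 1
            · rw [Finset.sum_comm]; simp [Pi.single_apply]
            · simp [Pi.single_apply]
          · rw [Finset.sum_comm]; simp [Pi.single_apply]
        · simp [Pi.single_apply]
      simp only [ha _ k, ha _ l] at h3
      simp only [ha k, ha l]
      simp only [ha k, ha l] at h3
      linear_combination 2 * h2 - h3 / 2
    have h4 : ∑ k, B (A s k) = 0 := by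
      have h5 : ∑ k, B (A s k) = ∑ k, ∑ l, conj (A s k l) * ∑ j, A s l j * c j k := by
        simp only [B]
        rw [Finset.sum_comm]
        exact Finset.sum_congr rfl fun k _ => Finset.sum_congr rfl fun l _ => by rw [ha l k]
      have h6 : ∑ k, B (A s k) + ∑ k, ∑ l, conj (A s k l) * ∑ j, A s l j * c j k = 0 := by
        simp only [B, ← Finset.sum_add_distrib, ← mul_add, h1, mul_zero, Finset.sum_const_zero]
      linear_combination (h5 + h6) / 2
    have h7 := congrArg Complex.re h4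
    rw [re_sum, zero_re] at h7
    exact fun k => (Finset.sum_eq_zero_iff_of_nonneg fun k _ => hpos _).1 h7 k (Finset.mem_univ k)
  have h0 : (B 0).re = 0 := by simp [B]
  have hx : (B (∑ s, A s *ᵥ τ s)).re = 0 := by
    refine Finset.sum_induction _ (fun x => (B x).re = 0) hadd h0 fun s _ => ?_
    have : A s *ᵥ τ s = ∑ k, τ s k • A s k := by
      funext i
      simp only [Matrix.mulVec, dotProduct, Finset.sum_apply, Pi.smul_apply, smul_eq_mul]
      exact Finset.sum_congr rfl fun k _ => by rw [(hA s).apply k i]; ring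
    rw [this]
    exact Finset.sum_induction _ (fun x => (B x).re = 0) hadd h0 fun k _ => hsmul _ _ (hcol s k)
  exact qd_zero (by rw [hq', hx, mul_zero])

theorem quad {V : J2 m N} (hV : Rel2 V) {σ : Type*} [Fintype σ]
    {A : σ → Matrix (Fin m) (Fin m) ℂ} (hA : ∀ s, (A s).IsSymm)
    (hk : ∀ s, ∃ y, l2 V (A s) = l1 V y) (τ : σ → Fin m → ℂ) : Par V (∑ s, A s *ᵥ τ s) := by
  obtain ⟨hs, hR⟩ := hV
  have r1 : ∀ ξ η, bil ξ (star η) = 0 → qdIp (l1 V ξ) (l1 V η) = 0 := fun ξ η h => (hR ξ η h).1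
  have r2 : ∀ ξ η, bil ξ (star η) = 0 → qdIp (q2 V ξ) (l1 V η) = 0 := fun ξ η h => (hR ξ η h).2.1
  have r3 : ∀ ξ η, bil ξ (star η) = 0 → qdIp (q2 V ξ) (q2 V η) = 0 := fun ξ η h => (hR ξ η h).2.2
  by_cases hz : ∀ i, qdIp (V.1 i) (V.1 i) = 0
  · have h0 : ∀ i, V.1 i = 0 := fun i => qd_zero (by rw [hz i, zero_re])
    intro a b
    simp [l1, h0]
  obtain ⟨i0, hi0⟩ := not_forall.1 hz
  set lam := qdIp (V.1 i0) (V.1 i0) with hlam
  have hoff : ∀ i j, i ≠ j → qdIp (V.1 i) (V.1 j) = 0 := by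
    intro i j hij
    have := r1 (Pi.single i 1) (Pi.single j 1) (by simp [bil, Pi.single_apply, hij.symm])
    rw [qd_l1_left] at this
    simp only [qd_l1_right] at this
    simpa [Pi.single_apply] using this
  have hdiag : ∀ i, qdIp (V.1 i) (V.1 i) = lam := by
    intro i
    by_cases hi : i = i0
    · rw [hi]
    have := r1 (Pi.single i 1 + Pi.single i0 1) (Pi.single i 1 - Pi.single i0 1)
      (by simp [bil, Pi.single_apply, hi, Ne.symm hi, add_mul, Finset.sum_add_distrib])
    rw [qd_l1_left] at this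
    simp only [qd_l1_right] at this
    simp [Pi.single_apply, add_mul, sub_mul, Finset.sum_add_distrib, Finset.sum_sub_distrib,
      hoff i i0 hi, hoff i0 i (Ne.symm hi)] at this
    linear_combination this
  have hl : ∀ y k, qdIp (l1 V y) (V.1 k) = y k * lam := by
    intro y k
    rw [qd_l1_left, Finset.sum_eq_single k, hdiag]
    · intro i _ hi
      rw [hoff i k hi, mul_zero]
    · simp
  let co : (Fin N → ℂ) → Fin m → ℂ := fun w k => qdIp w (V.1 k) / lam
  let W : J2 m N := (V.1, fun i j => V.2 i j - l1 V (co (V.2 i j)))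
  have hW : ∀ M : Matrix (Fin m) (Fin m) ℂ, l2 W M = l2 V M - l1 V (co (l2 V M)) := by
    intro M
    funext a
    simp only [W, co, qd_l2_left]
    simp only [l2, l1, Pi.sub_apply, mul_sub, Finset.sum_sub_distrib, Finset.mul_sum,
      Finset.sum_div, Finset.sum_mul]
    congr 1
    refine Eq.trans (Finset.sum_congr rfl fun i _ => Finset.sum_comm) ?_
    rw [Finset.sum_comm]
    exact Finset.sum_congr rfl fun _ _ => Finset.sum_congr rfl fun _ _ =>
      Finset.sum_congr rfl fun _ _ => by ring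
  have hperp : ∀ w y, qdIp (l1 V y) (w - l1 V (co w)) = 0 := by
    intro w y
    rw [← qd_conj, qd_l1_right]
    simp only [qd_sub_left, hl, co, div_mul_cancel₀ _ hi0, sub_self, mul_zero,
      Finset.sum_const_zero, map_zero]
  have hpar : ∀ ξ k l, co (q2 V ξ) k * ξ l = co (q2 V ξ) l * ξ k := by
    intro ξ k l
    have := r2 ξ (conj (ξ l) • (Pi.single k 1 : Fin m → ℂ) - conj (ξ k) • (Pi.single l 1 : Fin m → ℂ))
      (by simp [bil, Pi.single_apply, mul_sub, Finset.sum_sub_distrib, apply_ite conj]; ring)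
    rw [qd_l1_right] at this
    simp [Pi.single_apply, sub_mul, Finset.sum_sub_distrib, apply_ite conj] at this
    simp only [co]
    linear_combination this / lam
  have hWq : ∀ ξ η : Fin m → ℂ, bil ξ (star η) = 0 → qdIp (q2 W ξ) (q2 W η) = 0 := by
    intro ξ η hb
    have h1 : bil ξ (star (co (q2 V η))) = 0 := by
      by_cases hη : ∀ l, η l = 0
      · simp [bil, co, qd_q2_left, qdB, hη]
      · obtain ⟨l, hl0⟩ := not_forall.1 hη
        have h2 : bil ξ (star (co (q2 V η))) * conj (η l) =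
            conj (co (q2 V η) l) * bil ξ (star η) := by
          simp only [bil, Finset.sum_mul, Finset.mul_sum, Pi.star_apply, RCLike.star_def]
          refine Finset.sum_congr rfl fun k _ => ?_
          have := congrArg conj (hpar η k l)
          rw [map_mul, map_mul] at this
          linear_combination ξ k * this
        rw [hb, mul_zero] at h2
        exact (mul_eq_zero.1 h2).resolve_right (by simpa using hl0)
    have e1 : q2 W ξ = q2 V ξ - l1 V (co (q2 V ξ)) := hW _
    have e2 : q2 W η = q2 V η - l1 V (co (q2 V η)) := hW _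
    rw [e1, e2, qd_sub_left, hperp, qd_sub_right, r3 ξ η hb, r2 ξ _ h1]
    ring
  have hWk : ∀ s, l2 W (A s) = 0 := by
    intro s
    obtain ⟨y, hy⟩ := hk s
    have : co (l1 V y) = y := funext fun k => by
      simp only [co, hl, mul_div_cancel_right₀ _ hi0]
    rw [hW, hy, this, sub_self]
  have hx := qd_null (V := W) (fun i j => by simp only [W, hs i j]) hWq hA hWk τ
  set x := ∑ s, A s *ᵥ τ s
  have e : q2 V x = l1 V (co (q2 V x)) := sub_eq_zero.1 ((hW _).symm.trans hx)
  intro a b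
  rw [e]
  simp only [l1, Finset.sum_mul_sum]
  rw [Finset.sum_comm (f := fun i j => co (q2 V x) i * V.1 i b * (x j * V.1 j a)), sub_eq_zero]
  refine Finset.sum_congr rfl fun k _ => Finset.sum_congr rfl fun l _ => ?_
  linear_combination V.1 k a * V.1 l b * hpar x k l

end Pool.Agent.Lib.MP_601e9e_an.Rg
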