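import Pool.Agent.Lib.MP_601e9e_an.Rg.Defs3
import Pool.Agent.Lib.MP_601e9e_an.Rg.Quad
import Pool.Agent.Lib.MP_601e9e_an.Rg.Ident
import Pool.Agent.Lib.MP_601e9e_an.Rg.Poly

open Complex Filter Topology Set Metric MeasureTheory
open scoped ComplexConjugate ContDiff Matrix

namespace Pool.Agent.Lib.MP_601e9e_an.Rg

variable {m N e : ℕ} {ξ : Fin e → Fin m → ℂ} {π : Matrix (Fin m ⊕ Fin e) (Fin N) ℂ}
  {V : J2 m N}

/-- Entire with a polynomial bound. -/
def KaG (f : J2 m N → ℂ) : Prop := Differentiable ℂ f ∧ PB (fun V : J2 m N => ‖V‖) univ f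

section kag

variable {f g : J2 m N → ℂ}

theorem KaG.const (c : ℂ) : KaG (fun _ : J2 m N => c) :=
  ⟨differentiable_const c, PB.of_bound (C := ‖c‖) fun _ _ => le_rfl⟩

theorem KaG.fst (i : Fin m) (a : Fin N) : KaG (fun V : J2 m N => V.1 i a) :=
  ⟨by fun_prop, PB.of_le fun V _ =>
    (norm_le_pi_norm (V.1 i) a).trans ((norm_le_pi_norm V.1 i).trans (norm_fst_le V))⟩

theorem KaG.snd (i j : Fin m) (a : Fin N) : KaG (fun V : J2 m N => V.2 i j a) :=
  ⟨by fun_prop, PB.of_le fun V _ => (norm_le_pi_norm (V.2 i j) a).trans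
    ((norm_le_pi_norm (V.2 i) j).trans ((norm_le_pi_norm V.2 i).trans (norm_snd_le V)))⟩

theorem KaG.add (hf : KaG f) (hg : KaG g) : KaG (fun V => f V + g V) :=
  ⟨hf.1.add hg.1, PB.add (fun _ => norm_nonneg _) hf.2 hg.2⟩

theorem KaG.mul (hf : KaG f) (hg : KaG g) : KaG (fun V => f V * g V) :=
  ⟨hf.1.mul hg.1, PB.mul (fun _ => norm_nonneg _) hf.2 hg.2⟩

theorem KaG.sub (hf : KaG f) (hg : KaG g) : KaG (fun V => f V - g V) := by
  have := hf.add ((KaG.const (-1)).mul hg)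
  simpa only [neg_one_mul, ← sub_eq_add_neg] using this

theorem KaG.sum {ι : Type*} (s : Finset ι) {F : ι → J2 m N → ℂ} (h : ∀ i, KaG (F i)) :
    KaG (fun V => ∑ i ∈ s, F i V) :=
  ⟨Differentiable.fun_sum fun i _ => (h i).1,
    PB.sum (fun _ => norm_nonneg _) s fun i _ => (h i).2⟩

theorem KaG.det {n : Type*} [Fintype n] [DecidableEq n] {M : J2 m N → Matrix n n ℂ}
    (h : ∀ i j, KaG (fun V => M V i j)) : KaG (fun V => (M V).det) :=
  ⟨differentiableOn_univ.1 (hol_det fun i j => (h i j).1.differentiableOn),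
    PB.det (fun _ => norm_nonneg _) fun i j => (h i j).2⟩

theorem KaG.adjugate {n : Type*} [Fintype n] [DecidableEq n] {M : J2 m N → Matrix n n ℂ}
    (h : ∀ i j, KaG (fun V => M V i j)) (i j : n) : KaG (fun V => (M V).adjugate i j) := by
  simp only [Matrix.adjugate_apply]
  refine KaG.det fun a b => ?_
  simp only [Matrix.updateRow_apply]
  split_ifs
  · exact KaG.const _
  · exact h a b

theorem kag_l1 {x : J2 m N → Fin m → ℂ} (hx : ∀ i, KaG (fun V => x V i)) (a : Fin N) :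
    KaG (fun V => l1 V (x V) a) :=
  KaG.sum _ fun i => (hx i).mul (KaG.fst i a)

theorem kag_l2 {A : J2 m N → Matrix (Fin m) (Fin m) ℂ} (hA : ∀ i j, KaG (fun V => A V i j))
    (a : Fin N) : KaG (fun V => l2 V (A V) a) :=
  KaG.sum _ fun i => KaG.sum _ fun j => (hA i j).mul (KaG.snd i j a)

theorem kag_q2 {x : J2 m N → Fin m → ℂ} (hx : ∀ i, KaG (fun V => x V i)) (a : Fin N) :
    KaG (fun V => q2 V (x V) a) :=
  kag_l2 (A := fun V => Matrix.vecMulVec (x V) (x V)) (fun i j => (hx i).mul (hx j)) a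

theorem kag_kM (a : Fin N) (x : Fin m ⊕ Fin e) : KaG (fun V => kM ξ V a x) := by
  cases x with
  | inl i => exact KaG.fst i a
  | inr c => exact kag_q2 (x := fun _ => ξ c) (fun _ => KaG.const _) a

theorem kag_pM (x y : Fin m ⊕ Fin e) :
    KaG (fun V : J2 m N => (π * kM ξ V : Matrix (Fin m ⊕ Fin e) (Fin m ⊕ Fin e) ℂ) x y) := by
  simp only [Matrix.mul_apply]
  exact KaG.sum _ fun a => (KaG.const _).mul (kag_kM a y)

theorem kag_kD : KaG (kD ξ π) := KaG.det kag_pM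

theorem kag_kC (A : Matrix (Fin m) (Fin m) ℂ) (x : Fin m ⊕ Fin e) :
    KaG (fun V => kC ξ π V A x) := by
  simp only [kC, Matrix.mulVec, dotProduct, Matrix.mul_apply (M := Matrix.adjugate _)]
  exact KaG.sum _ fun a =>
    (KaG.sum _ fun y => (KaG.adjugate kag_pM x y).mul (KaG.const (π y a))).mul
    (kag_l2 (A := fun _ => A) (fun _ _ => KaG.const _) a)

theorem kag_kK (A : Matrix (Fin m) (Fin m) ℂ) (i j : Fin m) :
    KaG (fun V => kK ξ π V A i j) := by
  simp only [kK, Matrix.sub_apply, Matrix.smul_apply, Matrix.sum_apply, smul_eq_mul]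
  exact (kag_kD.mul (KaG.const _)).sub (KaG.sum _ fun c => (kag_kC A _).mul (KaG.const _))

theorem kag_kX (τ : Fin m × Fin m × Fin m → ℂ) (i : Fin m) :
    KaG (fun V => (kX ξ π V *ᵥ τ) i) :=
  KaG.sum _ fun s => (kag_kK (kE s.1 s.2.1) i s.2.2).mul (KaG.const (τ s))

end kag

theorem ka_l2_sub (A B : Matrix (Fin m) (Fin m) ℂ) : l2 V (A - B) = l2 V A - l2 V B := by
  funext a
  simp [l2, sub_mul, Finset.sum_sub_distrib]

theorem ka_l2_add (A B : Matrix (Fin m) (Fin m) ℂ) : l2 V (A + B) = l2 V A + l2 V B := by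
  funext a
  simp [l2, add_mul, Finset.sum_add_distrib]

theorem ka_l2_smul (c : ℂ) (A : Matrix (Fin m) (Fin m) ℂ) : l2 V (c • A) = c • l2 V A := by
  funext a
  simp [l2, Finset.mul_sum, mul_assoc]

theorem ka_l2_sum {ι : Type*} (s : Finset ι) (A : ι → Matrix (Fin m) (Fin m) ℂ) :
    l2 V (∑ i ∈ s, A i) = ∑ i ∈ s, l2 V (A i) := by
  classical
  induction s using Finset.induction_on with
  | empty => funext a; simp [l2]
  | insert i s hi ih => rw [Finset.sum_insert hi, Finset.sum_insert hi, ka_l2_add, ih]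

theorem ka_mulVec (y : Fin m ⊕ Fin e → ℂ) :
    kM ξ V *ᵥ y = l1 V (fun i => y (Sum.inl i)) + ∑ c, y (Sum.inr c) • q2 V (ξ c) := by
  funext a
  simp [Matrix.mulVec, dotProduct, kM, l1, Fintype.sum_sum_type, Finset.sum_apply, mul_comm]

theorem ka_kE_symm (i j : Fin m) : (kE i j).IsSymm := by
  unfold kE Matrix.IsSymm
  rw [Matrix.transpose_add, Matrix.transpose_single, Matrix.transpose_single, add_comm]

theorem ka_kK_symm (i j : Fin m) : (kK ξ π V (kE i j)).IsSymm := by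
  have h := ka_kE_symm i j
  unfold Matrix.IsSymm at h ⊢
  unfold kK
  rw [Matrix.transpose_sub, Matrix.transpose_smul, h, Matrix.transpose_sum]
  simp only [Matrix.transpose_smul, Matrix.transpose_vecMulVec]

theorem ka_par (hS : V ∈ kS ξ π) (hV : Rel2 V) (τ : Fin m × Fin m × Fin m → ℂ) :
    Par V (kX ξ π V *ᵥ τ) := by
  have h := quad hV (A := fun s : Fin m × Fin m => kK ξ π V (kE s.1 s.2))
    (fun s => ka_kK_symm s.1 s.2) (fun s => ⟨fun i => kC ξ π V (kE s.1 s.2) (Sum.inl i), by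
      unfold kK
      rw [ka_l2_sub, ka_l2_smul, hS s.1 s.2, ka_mulVec, ka_l2_sum]
      simp only [ka_l2_smul]
      exact add_sub_cancel_right _ _⟩) (fun s j => τ (s.1, s.2, j))
  have e : kX ξ π V *ᵥ τ =
      ∑ s : Fin m × Fin m, kK ξ π V (kE s.1 s.2) *ᵥ fun j => τ (s.1, s.2, j) := by
    funext i
    simp [Matrix.mulVec, dotProduct, kX, Fintype.sum_prod_type, Finset.sum_apply]
  rw [e]
  exact h

theorem ka_kE_eq (i j : Fin m) : kE i j =
    Matrix.vecMulVec (Pi.single i 1 + Pi.single j 1) (Pi.single i 1 + Pi.single j 1) -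
      Matrix.vecMulVec (Pi.single i 1) (Pi.single i 1) -
      Matrix.vecMulVec (Pi.single j 1) (Pi.single j 1) := by
  unfold kE
  rw [Matrix.single_eq_single_vecMulVec_single, Matrix.single_eq_single_vecMulVec_single,
    Matrix.add_vecMulVec, Matrix.vecMulVec_add, Matrix.vecMulVec_add]
  abel

theorem ka_mem (hs : ∀ i j, V.2 i j = V.2 j i) (hD : kD ξ π V ≠ 0)
    (h : ∀ η, ∃ y, q2 V η = kM ξ V *ᵥ y) : V ∈ kS ξ π := by
  have _ := hs
  have _ := hD
  intro i j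
  obtain ⟨y1, h1⟩ := h (Pi.single i 1 + Pi.single j 1)
  obtain ⟨y2, h2⟩ := h (Pi.single i 1)
  obtain ⟨y3, h3⟩ := h (Pi.single j 1)
  have e : l2 V (kE i j) = kM ξ V *ᵥ (y1 - y2 - y3) := by
    rw [ka_kE_eq, ka_l2_sub, ka_l2_sub, Matrix.mulVec_sub, Matrix.mulVec_sub, ← h1, ← h2, ← h3]
    rfl
  unfold kC kD
  rw [e, Matrix.mulVec_mulVec (y1 - y2 - y3), Matrix.mul_assoc, Matrix.adjugate_mul, Matrix.smul_mulVec,
    Matrix.one_mulVec, Matrix.mulVec_smul]

theorem ka_holD : Differentiable ℂ (kD ξ π) := kag_kD.1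

theorem ka_holX (i : Fin m) (s : Fin m × Fin m × Fin m) :
    Differentiable ℂ (fun V => kX ξ π V i s) := (kag_kK (kE s.1 s.2.1) i s.2.2).1

theorem ka_holS (i j : Fin m) (a : Fin N) : Differentiable ℂ
    (fun V => (kD ξ π V • l2 V (kE i j) - kM ξ V *ᵥ kC ξ π V (kE i j)) a) :=
  ((kag_kD.mul (kag_l2 (A := fun _ => kE i j) (fun _ _ => KaG.const _) a)).sub
    (KaG.sum _ fun x => (kag_kM a x).mul (kag_kC (kE i j) x))).1

theorem ka_closed : IsClosed (kS ξ π) := by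
  have e : kS ξ π = ⋂ i, ⋂ j, ⋂ a,
      {V | (kD ξ π V • l2 V (kE i j) - kM ξ V *ᵥ kC ξ π V (kE i j)) a = 0} := by
    ext V
    simp only [kS, mem_ofPred_eq, mem_iInter]
    refine forall₂_congr fun i j => ?_
    rw [← sub_eq_zero, funext_iff]
    rfl
  rw [e]
  exact isClosed_iInter fun i => isClosed_iInter fun j => isClosed_iInter fun a =>
    isClosed_eq (ka_holS i j a).continuous continuous_const

theorem ka_holP (τ : Fin m × Fin m × Fin m → ℂ) (a b : Fin N) :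
    Differentiable ℂ (fun V : J2 m N => q2 V (kX ξ π V *ᵥ τ) a * l1 V (kX ξ π V *ᵥ τ) b -
      q2 V (kX ξ π V *ᵥ τ) b * l1 V (kX ξ π V *ᵥ τ) a) ∧
    PB (fun V : J2 m N => ‖V‖) univ
      (fun V => q2 V (kX ξ π V *ᵥ τ) a * l1 V (kX ξ π V *ᵥ τ) b -
        q2 V (kX ξ π V *ᵥ τ) b * l1 V (kX ξ π V *ᵥ τ) a) :=
  ((kag_q2 (kag_kX τ) a).mul (kag_l1 (kag_kX τ) b)).sub
    ((kag_q2 (kag_kX τ) b).mul (kag_l1 (kag_kX τ) a))

end Pool.Agent.Lib.MP_601e9e_an.Rg
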