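import Pool.Agent.Lib.MP_601e9e_an.Rg.Mid

open Complex Filter Topology Set Metric MeasureTheory
open scoped ComplexConjugate ContDiff

namespace Pool.Agent.Lib.MP_601e9e_an.Rg

section pairs

variable {m : ℕ} {B : Set (Xs m)} {ψ a b a' b' : Xs m → ℂ}

theorem l2_zero (h : Tst B ψ) {p : Xs m} (hp : p ∉ B) : ψ p = 0 :=
  image_eq_zero_of_notMem_tsupport fun hq => hp (h.2.2 hq)

theorem l2_cont_conj (hb : ContinuousOn b B) : ContinuousOn (fun p => conj (b p)) B :=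
  Complex.continuous_conj.comp_continuousOn hb

theorem l2_cd_conj (hb : ContDiffOn ℝ 1 b B) : ContDiffOn ℝ 1 (fun p => conj (b p)) B :=
  (Complex.conjCLE.contDiff (n := 1)).comp_contDiffOn hb

theorem l2_int (h : Tst B ψ) (ha : ContinuousOn a B) (hb : ContinuousOn b B) :
    Integrable (fun p => ψ p * (a p * conj (b p))) :=
  h.integrable_mul (ha.mul (l2_cont_conj hb))

theorem l2_da (hB : IsOpen B) (ha : ContDiffOn ℝ 1 a B) {p : Xs m} (hp : p ∈ B) :
    DifferentiableAt ℝ a p :=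
  (ha.differentiableOn one_ne_zero).differentiableAt (hB.mem_nhds hp)

theorem l2_ibpx (hB : IsOpen B) (h : Tst B ψ) (ξ : Fin m → ℂ) (ha : ContDiffOn ℝ 1 a B)
    (hb : ContDiffOn ℝ 1 b B) (ha' : ContinuousOn a' B) (hb' : ContinuousOn b' B)
    (h1 : ∀ p ∈ B, Lx ξ a p = a' p) (h2 : ∀ p ∈ B, Lb ξ b p = b' p) :
    ∫ p, ψ p * (a' p * conj (b p)) =
      -(∫ p, Lx ξ ψ p * (a p * conj (b p))) - ∫ p, ψ p * (a p * conj (b' p)) := by
  rw [← ibp_Lx hB h (ha.mul (l2_cd_conj hb)) ξ, eq_sub_iff_add_eq,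
    ← integral_add (l2_int h ha' hb.continuousOn) (l2_int h ha.continuousOn hb')]
  refine integral_congr_ae (Eventually.of_forall fun p => ?_)
  by_cases hp : p ∈ B
  · have e := Lx_mul ξ (l2_da hB ha hp) (l2_da hB (l2_cd_conj hb) hp)
    simp only [e, Lx_conj ξ (l2_da hB hb hp), h1 p hp, h2 p hp]
    ring
  · simp [l2_zero h hp]

theorem l2_ibpb (hB : IsOpen B) (h : Tst B ψ) (ξ : Fin m → ℂ) (ha : ContDiffOn ℝ 1 a B)
    (hb : ContDiffOn ℝ 1 b B) (ha' : ContinuousOn a' B) (hb' : ContinuousOn b' B)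
    (h1 : ∀ p ∈ B, Lb ξ a p = a' p) (h2 : ∀ p ∈ B, Lx ξ b p = b' p) :
    ∫ p, ψ p * (a p * conj (b' p)) =
      -(∫ p, Lb ξ ψ p * (a p * conj (b p))) - ∫ p, ψ p * (a' p * conj (b p)) := by
  rw [← ibp_Lb hB h (ha.mul (l2_cd_conj hb)) ξ, eq_sub_iff_add_eq,
    ← integral_add (l2_int h ha.continuousOn hb') (l2_int h ha' hb.continuousOn)]
  refine integral_congr_ae (Eventually.of_forall fun p => ?_)
  by_cases hp : p ∈ B
  · have e := Lb_mul ξ (l2_da hB ha hp) (l2_da hB (l2_cd_conj hb) hp)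
    simp only [e, Lb_conj ξ (l2_da hB hb hp), h1 p hp, h2 p hp]
    ring
  · simp [l2_zero h hp]

theorem l2_cl (c : ℂ) : ∫ p, ψ p * ((c * a p) * conj (b p)) = c * ∫ p, ψ p * (a p * conj (b p)) := by
  rw [← integral_const_mul]
  exact integral_congr_ae (Eventually.of_forall fun p => by ring)

theorem l2_cr (c : ℂ) :
    ∫ p, ψ p * (a p * conj (c * b p)) = conj c * ∫ p, ψ p * (a p * conj (b p)) := by
  rw [← integral_const_mul]
  exact integral_congr_ae (Eventually.of_forall fun p => by simp only [map_mul]; ring)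

theorem l2_int_Lx (hB : IsOpen B) (h : Tst B ψ) (ξ : Fin m → ℂ) : ∫ p, Lx ξ ψ p = 0 := by
  have e := ibp_Lx hB h (f := fun _ => (1 : ℂ)) contDiffOn_const ξ
  simp only [Lx, fderiv_fun_const, Pi.zero_apply, zero_apply, mul_zero,
    sub_zero, zero_div, add_zero, integral_zero, mul_one] at e
  simpa [Lx] using e.symm

theorem l2_int_Lb (hB : IsOpen B) (h : Tst B ψ) (ξ : Fin m → ℂ) : ∫ p, Lb ξ ψ p = 0 := by
  have e := ibp_Lb hB h (f := fun _ => (1 : ℂ)) contDiffOn_const ξ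
  simp only [Lb, fderiv_fun_const, Pi.zero_apply, zero_apply, mul_zero,
    sub_zero, zero_div, add_zero, integral_zero, mul_one] at e
  simpa [Lb] using e.symm

/-- The abstract induction on the order. -/
theorem l2_ind {κ : Type*} {l : Filter κ} (hB : IsOpen B) (ξ : Fin m → ℂ) (k : ℕ)
    (c : ℕ → ℕ → κ → Xs m → ℂ) (w : ℕ → ℂ)
    (hc : ∀ᶠ x in l, ∀ j i, ContDiffOn ℝ 1 (c j i x) B ∧
      (∀ p ∈ B, Lx ξ (c j i x) p = c (j + 1) i x p) ∧
      ∀ p ∈ B, Lb ξ (c j i x) p = w j * c (j - 1) (i + 1) x p)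
    (h0 : ∀ i ≤ k, Small l B (c 0 i)) (j : ℕ) :
    ∀ i, j + 2 * i ≤ 2 * k → Small l B (c j i) := by
  have hcc : ∀ j i, ∀ᶠ x in l, ContinuousOn (c j i x) B := fun j i =>
    hc.mono fun x hx => (hx j i).1.continuousOn
  induction j using Nat.strong_induction_on with
  | _ j ih =>
  intro i hji
  cases j with
  | zero => exact h0 i (by omega)
  | succ j =>
    have hf : Small l B (c j i) := ih j (by omega) i (by omega)
    have hg : Small l B (c (j - 1) (i + 1)) := by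
      rcases Nat.eq_zero_or_pos j with rfl | hj
      · exact h0 _ (by omega)
      · exact ih _ (by omega) _ (by omega)
    refine small_of_tst hB (hcc _ _) fun χ hχ _ => ?_
    have t1 := hf.pair hf (hcc _ _) (hcc _ _) ((hχ.lb ξ).lx ξ)
    have t2 := hf.pair hg (hcc _ _) (hcc _ _) (hχ.lb ξ)
    have t3 : Tendsto (fun x => ∫ p, (χ p : ℂ) * (c j (i + 1) x p * conj (c j i x p))) l (𝓝 0) := by
      rcases Nat.eq_zero_or_pos j with rfl | hj
      · exact (h0 _ (by omega)).pair hf (hcc _ _) (hcc _ _) hχ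
      · have s1 := hg.pair hf (hcc _ _) (hcc _ _) (hχ.lx ξ)
        have s2 := hg.pair hg (hcc _ _) (hcc _ _) hχ
        have s3 := s1.neg.sub (s2.const_mul (conj (w j)))
        simp only [neg_zero, mul_zero, sub_zero] at s3
        refine s3.congr' (hc.mono fun x hx => ?_)
        have e := l2_ibpx hB hχ ξ (hx (j - 1) (i + 1)).1 (hx j i).1
          (hx (j - 1 + 1) (i + 1)).1.continuousOn
          (continuousOn_const.mul (hx (j - 1) (i + 1)).1.continuousOn)
          (hx (j - 1) (i + 1)).2.1 (hx j i).2.2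
        simp only [Pi.mul_apply] at e
        rw [l2_cr, Nat.sub_add_cancel hj] at e
        exact e.symm
    have t4 := (t1.neg.sub (t2.const_mul (conj (w j)))).neg.sub (t3.const_mul (w (j + 1)))
    simp only [neg_zero, mul_zero, sub_zero] at t4
    refine t4.congr' (hc.mono fun x hx => ?_)
    have e1 := l2_ibpb hB hχ ξ (hx (j + 1) i).1 (hx j i).1
      (continuousOn_const.mul (hx (j + 1 - 1) (i + 1)).1.continuousOn)
      (hx (j + 1) i).1.continuousOn (hx (j + 1) i).2.2 (hx j i).2.1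
    have e2 := l2_ibpx hB (hχ.lb ξ) ξ (hx j i).1 (hx j i).1 (hx (j + 1) i).1.continuousOn
      (continuousOn_const.mul (hx (j - 1) (i + 1)).1.continuousOn) (hx j i).2.1 (hx j i).2.2
    simp only [Pi.mul_apply] at e1 e2
    rw [l2_cr] at e2
    rw [l2_cl, e2, Nat.add_sub_cancel] at e1
    exact e1.symm

end pairs

variable {m N k : ℕ} {r δ : ℝ} {F : Fin N → Zs m → ℂ}

theorem l2_hol (hF : Hyp m N k r F) (a : Fin N) (i : ℕ) :
    DifferentiableOn ℂ ((dd (ew m))^[i] (F a)) (Dom m r) :=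
  hol_jet (isOpen_Dom r) (hF.hol a) i (ew m)

theorem l2_ev (hδ : Sm m r δ) : ∀ᶠ t in 𝓝[>] (0 : ℝ), t ∈ Ioo 0 δ :=
  Ioo_mem_nhdsGT hδ.1

/-- Tangential jets of order at most `2k` are Cauchy in `L²`. -/
theorem small_cj (hF : Hyp m N k r F) (hδ : Sm m r δ) (ξ : Fin m → ℂ) (a : Fin N) (j i : ℕ)
    (hji : j + 2 * i ≤ 2 * k) :
    Small ((𝓝[>] (0 : ℝ)) ×ˢ (𝓝[>] (0 : ℝ))) (ball (0 : Xs m) δ)
      (fun x p => cj ((dd (ew m))^[i] (F a)) ξ j x.1 p - cj ((dd (ew m))^[i] (F a)) ξ j x.2 p) := by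
  refine l2_ind isOpen_ball ξ k
    (fun j i (x : ℝ × ℝ) p =>
      cj ((dd (ew m))^[i] (F a)) ξ j x.1 p - cj ((dd (ew m))^[i] (F a)) ξ j x.2 p)
    (fun j => 2 * I * j * bil ξ (star ξ)) ?_ ?_ j i hji
  · filter_upwards [(l2_ev hδ).prod_mk (l2_ev hδ)] with x hx j i
    have c1 := contDiffOn_cj hδ (l2_hol hF a i) ξ j hx.1
    have c2 := contDiffOn_cj hδ (l2_hol hF a i) ξ j hx.2
    refine ⟨c1.sub c2, fun p hp => ?_, fun p hp => ?_⟩
    · rw [Lx_sub ξ (l2_da isOpen_ball c1 hp) (l2_da isOpen_ball c2 hp),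
        Lx_cj hδ (l2_hol hF a i) ξ j hx.1 hp, Lx_cj hδ (l2_hol hF a i) ξ j hx.2 hp]
    · rw [Lb_sub ξ (l2_da isOpen_ball c1 hp) (l2_da isOpen_ball c2 hp),
        Lb_cj hδ (l2_hol hF a i) ξ ξ j hx.1 hp, Lb_cj hδ (l2_hol hF a i) ξ ξ j hx.2 hp,
        Function.iterate_succ_apply']
      ring
  · intro i hi
    obtain ⟨C, hC⟩ := hF.bnd
    exact mid hδ (l2_hol hF a i) (M := C) fun Z hZ => hC a i hi Z hZ

theorem l2_sum (hF : Hyp m N k r F) (hδ : Sm m r δ) (ξ η : Fin m → ℂ) (i j : ℕ)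
    {ψ : Xs m → ℂ} (hψ : Tst (ball 0 δ) ψ) {t : ℝ} (ht : t ∈ Ioo 0 δ) :
    ∫ p, ψ p * ∑ a, cj (F a) ξ i t p * conj (cj (F a) η j t p) =
      ∑ a, ∫ p, ψ p * (cj (F a) ξ i t p * conj (cj (F a) η j t p)) := by
  rw [← integral_finsetSum _ fun a _ => l2_int hψ
    (contDiffOn_cj hδ (hF.hol a) ξ i ht).continuousOn
    (contDiffOn_cj hδ (hF.hol a) η j ht).continuousOn]
  simp only [Finset.mul_sum]

theorem l2_base (hF : Hyp m N k r F) (hδ : Sm m r δ) (ξ η : Fin m → ℂ)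
    {ψ : Xs m → ℂ} (hψ : Tst (ball 0 δ) ψ) :
    Tendsto (fun t => ∫ p, ψ p * ∑ a, cj (F a) ξ 0 t p * conj (cj (F a) η 0 t p)) (𝓝[>] 0)
      (𝓝 (∫ p, ψ p)) := by
  obtain ⟨C, hC⟩ := hF.bnd
  have hs : ∀ t p, ∑ a, cj (F a) ξ 0 t p * conj (cj (F a) η 0 t p) =
      ((∑ a, ‖F a (pt p t)‖ ^ 2 : ℝ) : ℂ) := by
    intro t p
    push_cast
    refine Finset.sum_congr rfl fun a _ => ?_
    change F a (pt p t) * conj (F a (pt p t)) = _
    rw [Complex.mul_conj, Complex.normSq_eq_norm_sq]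
    push_cast
    rfl
  have hi : Integrable ψ := by
    simpa using hψ.integrable_mul (f := fun _ => (1 : ℂ)) continuousOn_const
  refine tendsto_integral_filter_of_dominated_convergence (fun p => ‖ψ p‖ * (N * C ^ 2)) ?_ ?_
    (hi.norm.mul_const _) ?_
  · filter_upwards [l2_ev hδ] with t ht
    refine (hψ.integrable_mul ?_).aestronglyMeasurable
    exact continuousOn_finsetSum _ fun a _ =>
      (contDiffOn_cj hδ (hF.hol a) ξ 0 ht).continuousOn.mul
        (l2_cont_conj (contDiffOn_cj hδ (hF.hol a) η 0 ht).continuousOn)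
  · filter_upwards [l2_ev hδ] with t ht
    refine Eventually.of_forall fun p => ?_
    by_cases hp : p ∈ ball (0 : Xs m) δ
    · rw [norm_mul, hs, Complex.norm_real, Real.norm_of_nonneg (by positivity)]
      refine mul_le_mul_of_nonneg_left ?_ (norm_nonneg _)
      calc ∑ a, ‖F a (pt p t)‖ ^ 2 ≤ ∑ _a : Fin N, C ^ 2 :=
            Finset.sum_le_sum fun a _ =>
              pow_le_pow_left₀ (norm_nonneg _) (hC a 0 (Nat.zero_le _) _ (hδ.pt_mem hp ht)) 2
        _ = N * C ^ 2 := by simp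
    · simp [l2_zero hψ hp]
  · refine Eventually.of_forall fun p => ?_
    by_cases hp : p ∈ ball (0 : Xs m) δ
    · have h1 := hδ.2 p (mem_ball_zero_iff.1 hp).le 0 (by simpa using hδ.1.le)
      have h2 := hF.bdry p (by linarith [hF.rpos])
      have h3 := ((Complex.continuous_ofReal.tendsto 1).comp h2).const_mul (ψ p)
      simp only [hs]
      simpa using h3
    · simp [l2_zero hψ hp]

theorem l2_weak (hF : Hyp m N k r F) (hδ : Sm m r δ) (ξ η : Fin m → ℂ)
    (hξη : bil ξ (star η) = 0) (i j : ℕ) : ∀ {ψ : Xs m → ℂ}, Tst (ball 0 δ) ψ →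
    Tendsto (fun t => ∫ p, ψ p * ∑ a, cj (F a) ξ i t p * conj (cj (F a) η j t p)) (𝓝[>] 0)
      (𝓝 (if i = 0 ∧ j = 0 then ∫ p, ψ p else 0)) := by
  have hηξ : bil η (star ξ) = 0 := by
    have e := congrArg conj hξη
    rw [conj_bil, star_star, map_zero, bil_comm] at e
    exact e
  induction i with
  | zero =>
    induction j with
    | zero => intro ψ hψ; simpa using l2_base hF hδ ξ η hψ
    | succ j ih =>
      intro ψ hψ
      have h1 := (ih (hψ.lb η)).neg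
      rw [l2_int_Lb isOpen_ball hψ, ite_self, neg_zero] at h1
      rw [if_neg (by omega)]
      refine h1.congr' ((l2_ev hδ).mono fun t ht => ?_)
      simp only
      rw [l2_sum hF hδ ξ η 0 j (hψ.lb η) ht, l2_sum hF hδ ξ η 0 (j + 1) hψ ht,
        ← Finset.sum_neg_distrib]
      refine Finset.sum_congr rfl fun a _ => ?_
      have e := l2_ibpb isOpen_ball hψ η (contDiffOn_cj hδ (hF.hol a) ξ 0 ht)
        (contDiffOn_cj hδ (hF.hol a) η j ht) (a' := fun _ => 0) continuousOn_const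
        (contDiffOn_cj hδ (hF.hol a) η (j + 1) ht).continuousOn
        (fun p hp => by rw [Lb_cj hδ (hF.hol a) ξ η 0 ht hp, hξη]; ring)
        (fun p hp => Lx_cj hδ (hF.hol a) η j ht hp)
      rw [e]
      simp
  | succ i ih =>
    intro ψ hψ
    have h1 := (ih (hψ.lx ξ)).neg
    rw [l2_int_Lx isOpen_ball hψ, ite_self, neg_zero] at h1
    rw [if_neg (by omega)]
    refine h1.congr' ((l2_ev hδ).mono fun t ht => ?_)
    simp only
    rw [l2_sum hF hδ ξ η i j (hψ.lx ξ) ht, l2_sum hF hδ ξ η (i + 1) j hψ ht,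
      ← Finset.sum_neg_distrib]
    refine Finset.sum_congr rfl fun a _ => ?_
    have e := l2_ibpx isOpen_ball hψ ξ (contDiffOn_cj hδ (hF.hol a) ξ i ht)
      (contDiffOn_cj hδ (hF.hol a) η j ht) (b' := fun _ => 0)
      (contDiffOn_cj hδ (hF.hol a) ξ (i + 1) ht).continuousOn continuousOn_const
      (fun p hp => Lx_cj hδ (hF.hol a) ξ i ht hp)
      (fun p hp => by rw [Lb_cj hδ (hF.hol a) η ξ j ht hp, hηξ]; ring)
    rw [e]
    simp

/-- The weak orthogonality relations. -/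
theorem weak_rel (hF : Hyp m N k r F) (hδ : Sm m r δ) (ξ η : Fin m → ℂ)
    (hξη : bil ξ (star η) = 0) (i j : ℕ) {ψ : Xs m → ℂ} (hψ : Tst (ball 0 δ) ψ) :
    Tendsto (fun t => ∫ p, ψ p * (∑ a, cj (F a) ξ i t p * conj (cj (F a) η j t p) -
      if i = 0 ∧ j = 0 then 1 else 0)) (𝓝[>] 0) (𝓝 0) := by
  have hi : Integrable ψ := by
    simpa using hψ.integrable_mul (f := fun _ => (1 : ℂ)) continuousOn_const
  have h1 := (l2_weak hF hδ ξ η hξη i j hψ).sub_const (if i = 0 ∧ j = 0 then ∫ p, ψ p else 0)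
  rw [sub_self] at h1
  refine h1.congr' ((l2_ev hδ).mono fun t ht => ?_)
  have h2 : Integrable fun p => ψ p * ∑ a, cj (F a) ξ i t p * conj (cj (F a) η j t p) :=
    hψ.integrable_mul (continuousOn_finsetSum _ fun a _ =>
      (contDiffOn_cj hδ (hF.hol a) ξ i ht).continuousOn.mul
        (l2_cont_conj (contDiffOn_cj hδ (hF.hol a) η j ht).continuousOn))
  simp only [mul_sub]
  rw [integral_sub h2 (hi.mul_const _), integral_mul_const]
  split_ifs <;> simp

end Pool.Agent.Lib.MP_601e9e_an.Rg
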