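import Pool.Agent.Lib.MP_601e9e_an.Rg.Ibp
import Pool.Agent.Lib.MP_601e9e_an.Rg.Act

open Complex Filter Topology Set Metric MeasureTheory
open scoped ComplexConjugate ContDiff

namespace Pool.Agent.Lib.MP_601e9e_an.Rg

variable {m : ℕ} {r δ : ℝ} {g : Zs m → ℂ}

theorem md_int {B : Set (Xs m)} {ψ : Xs m → ℂ} (hψ : Tst B ψ) : Integrable ψ := by
  have h := hψ.integrable_mul (f := fun _ => (1 : ℂ)) continuousOn_const
  simpa using h

theorem md_zero {ψ : Xs m → ℂ} {p : Xs m} (hp : p ∉ tsupport ψ) : ψ p = 0 :=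
  image_eq_zero_of_notMem_tsupport hp

theorem md_deriv {B : Set (Xs m)} {ψ : Xs m → ℂ} (hψ : Tst B ψ) {U : Set ℝ} (hU : IsOpen U)
    {F F' : ℝ → Xs m → ℂ} (hF : ∀ τ ∈ U, ContinuousOn (F τ) B)
    (hF' : ContinuousOn (fun x : ℝ × Xs m => F' x.1 x.2) (U ×ˢ B))
    (hd : ∀ τ ∈ U, ∀ p ∈ B, HasDerivAt (fun s => F s p) (F' τ p) τ) {τ : ℝ} (hτ : τ ∈ U) :
    HasDerivAt (fun s => ∫ p, ψ p * F s p) (∫ p, ψ p * F' τ p) τ := by
  obtain ⟨ε, hε, hsub⟩ : ∃ ε > 0, closedBall τ ε ⊆ U :=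
    Metric.nhds_basis_closedBall.mem_iff.1 (hU.mem_nhds hτ)
  have hc : IsCompact (closedBall τ ε ×ˢ tsupport ψ) := (isCompact_closedBall τ ε).prod hψ.2.1
  obtain ⟨K, hK⟩ := hc.exists_bound_of_continuousOn (hF'.mono (prod_mono hsub hψ.2.2))
  have hF'c : ContinuousOn (F' τ) B :=
    hF'.comp (f := fun p : Xs m => (τ, p)) (Continuous.continuousOn (by fun_prop))
      (fun p hp => ⟨hτ, hp⟩)
  refine (hasDerivAt_integral_of_dominated_loc_of_deriv_le (μ := volume)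
    (F := fun s p => ψ p * F s p) (F' := fun s p => ψ p * F' s p)
    (bound := fun p => ‖ψ p‖ * K) (closedBall_mem_nhds τ hε) ?_ ?_ ?_ ?_ ?_ ?_).2
  · filter_upwards [hU.mem_nhds hτ] with s hs
    exact (hψ.integrable_mul (hF s hs)).aestronglyMeasurable
  · exact hψ.integrable_mul (hF τ hτ)
  · exact (hψ.integrable_mul hF'c).aestronglyMeasurable
  · refine Eventually.of_forall fun p s hs => ?_
    by_cases hp : p ∈ tsupport ψ
    · rw [norm_mul]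
      exact mul_le_mul_of_nonneg_left (hK (s, p) ⟨hs, hp⟩) (norm_nonneg _)
    · simp [md_zero hp]
  · exact (md_int hψ).norm.mul_const K
  · refine Eventually.of_forall fun p s hs => ?_
    by_cases hp : p ∈ tsupport ψ
    · exact (hd s (hsub hs) p (hψ.2.2 hp)).const_mul (ψ p)
    · simp only [md_zero hp, zero_mul]
      exact hasDerivAt_const s 0

theorem md_bound {B : Set (Xs m)} {ψ f : Xs m → ℂ} (hψ : Tst B ψ) {K : ℝ}
    (hf : ∀ p ∈ B, ‖f p‖ ≤ K) : ‖∫ p, ψ p * f p‖ ≤ (∫ p, ‖ψ p‖) * K := by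
  rw [← integral_mul_const]
  refine norm_integral_le_of_norm_le ((md_int hψ).norm.mul_const K) ?_
  refine Eventually.of_forall fun p => ?_
  by_cases hp : p ∈ tsupport ψ
  · rw [norm_mul]
    exact mul_le_mul_of_nonneg_left (hf p (hψ.2.2 hp)) (norm_nonneg _)
  · simp [md_zero hp]

theorem md_congr {B : Set (Xs m)} {ψ f f' : Xs m → ℂ} (hψ : Tst B ψ)
    (hf : ∀ p ∈ B, f p = f' p) : ∫ p, ψ p * f p = ∫ p, ψ p * f' p := by
  refine integral_congr_ae (Eventually.of_forall fun p => ?_)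
  by_cases hp : p ∈ tsupport ψ
  · simp only [hf p (hψ.2.2 hp)]
  · simp [md_zero hp]

theorem md_cont (hδ : Sm m r δ) (hg : DifferentiableOn ℂ g (Dom m r)) {t : ℝ}
    (ht : t ∈ Ioo 0 δ) : ContinuousOn (cj g 0 0 t) (ball 0 δ) :=
  (contDiffOn_cj hδ hg 0 0 ht).continuousOn

theorem md_cont2 (hδ : Sm m r δ) (hg : DifferentiableOn ℂ g (Dom m r)) {t s : ℝ}
    (ht : t ∈ Ioo 0 δ) (hs : s ∈ Ioo 0 δ) :
    ContinuousOn (fun p => cj g 0 0 t p * conj (cj g 0 0 s p)) (ball 0 δ) :=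
  (md_cont hδ hg ht).mul (continuous_conj.comp_continuousOn (md_cont hδ hg hs))

theorem md_le (hδ : Sm m r δ) {M : ℝ} (hM : ∀ Z ∈ Dom m r, ‖g Z‖ ≤ M) {t s : ℝ}
    (ht : t ∈ Ioo 0 δ) (hs : s ∈ Ioo 0 δ) {p : Xs m} (hp : p ∈ ball (0 : Xs m) δ) :
    ‖cj g 0 0 t p * conj (cj g 0 0 s p)‖ ≤ M ^ 2 := by
  have h1 : ‖cj g 0 0 t p‖ ≤ M := hM _ (hδ.pt_mem hp ht)
  have h2 : ‖cj g 0 0 s p‖ ≤ M := hM _ (hδ.pt_mem hp hs)
  rw [norm_mul, Complex.norm_conj, sq]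
  exact mul_le_mul h1 h2 (norm_nonneg _) ((norm_nonneg _).trans h1)

/-- The pairing of two levels moves little along the antidiagonal. -/
theorem md_anti (hδ : Sm m r δ) (hg : DifferentiableOn ℂ g (Dom m r)) {M : ℝ}
    (hM : ∀ Z ∈ Dom m r, ‖g Z‖ ≤ M) {ψ : Xs m → ℂ} (hψ : Tst (ball 0 δ) ψ) :
    ∃ C : ℝ, 0 ≤ C ∧ ∀ t ∈ Ioo 0 δ, ∀ s ∈ Ioo 0 δ,
      ‖(∫ p, ψ p * (cj g 0 0 t p * conj (cj g 0 0 s p))) -
        ∫ p, ψ p * (cj g 0 0 ((t + s) / 2) p * conj (cj g 0 0 ((t + s) / 2) p))‖ ≤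
        C * |t - s| := by
  have hg' : DifferentiableOn ℂ (dd (ew m) g) (Dom m r) := hol_dd (isOpen_Dom r) hg (ew m)
  have hC : 0 ≤ (∫ p, ‖Lt ψ p‖) * M ^ 2 :=
    mul_nonneg (integral_nonneg fun _ => norm_nonneg _) (sq_nonneg M)
  refine ⟨(∫ p, ‖Lt ψ p‖) * M ^ 2, hC, fun t ht s hs => ?_⟩
  set σ : ℝ := (t + s) / 2 with hσ
  set U : Set ℝ := {τ | σ + τ ∈ Ioo 0 δ ∧ σ - τ ∈ Ioo 0 δ} with hUdef
  have hU : IsOpen U :=
    (isOpen_Ioo.preimage (f := fun τ : ℝ => σ + τ) (by fun_prop)).inter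
      (isOpen_Ioo.preimage (f := fun τ : ℝ => σ - τ) (by fun_prop))
  have hUc : Convex ℝ U := by
    intro x hx y hy a b ha hb hab
    have h1 := convex_Ioo (𝕜 := ℝ) (0 : ℝ) δ hx.1 hy.1 ha hb hab
    have h2 := convex_Ioo (𝕜 := ℝ) (0 : ℝ) δ hx.2 hy.2 ha hb hab
    have hb' : b = 1 - a := by linarith
    subst hb'
    simp only [smul_eq_mul] at h1 h2 ⊢
    refine ⟨?_, ?_⟩
    · convert h1 using 1
      ring
    · convert h2 using 1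
      ring
  have hplus : ∀ G : Zs m → ℂ, DifferentiableOn ℂ G (Dom m r) →
      ContinuousOn (fun x : ℝ × Xs m => cj G 0 0 (σ + x.1) x.2) (U ×ˢ ball 0 δ) := fun G hG =>
    (continuousOn_cj hδ hG 0 0).comp (f := fun x : ℝ × Xs m => (σ + x.1, x.2))
      (Continuous.continuousOn (by fun_prop)) (fun x hx => ⟨hx.1.1, hx.2⟩)
  have hminus : ∀ G : Zs m → ℂ, DifferentiableOn ℂ G (Dom m r) →
      ContinuousOn (fun x : ℝ × Xs m => conj (cj G 0 0 (σ - x.1) x.2)) (U ×ˢ ball 0 δ) :=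
    fun G hG => continuous_conj.comp_continuousOn
      ((continuousOn_cj hδ hG 0 0).comp (f := fun x : ℝ × Xs m => (σ - x.1, x.2))
        (Continuous.continuousOn (by fun_prop)) (fun x hx => ⟨hx.1.2, hx.2⟩))
  have hder : ∀ τ ∈ U, HasDerivAt
      (fun τ' => ∫ p, ψ p * (cj g 0 0 (σ + τ') p * conj (cj g 0 0 (σ - τ') p)))
      (∫ p, ψ p * (I * (cj (dd (ew m) g) 0 0 (σ + τ) p * conj (cj g 0 0 (σ - τ) p) +
        cj g 0 0 (σ + τ) p * conj (cj (dd (ew m) g) 0 0 (σ - τ) p)))) τ := by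
    intro τ hτ
    refine md_deriv hψ hU (F := fun τ' p => cj g 0 0 (σ + τ') p * conj (cj g 0 0 (σ - τ') p))
      (F' := fun τ' p => I * (cj (dd (ew m) g) 0 0 (σ + τ') p * conj (cj g 0 0 (σ - τ') p) +
        cj g 0 0 (σ + τ') p * conj (cj (dd (ew m) g) 0 0 (σ - τ') p)))
      (fun τ' hτ' => md_cont2 hδ hg hτ'.1 hτ'.2) ?_ ?_ hτ
    · exact continuousOn_const.mul (((hplus _ hg').mul (hminus _ hg)).add
        ((hplus _ hg).mul (hminus _ hg')))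
    · intro τ' hτ' p hp
      have h1 := (hasDerivAt_cj hδ hg 0 0 hτ'.1 hp).comp_const_add σ τ'
      have h2 := ((hasDerivAt_cj hδ hg 0 0 hτ'.2 hp).comp_const_sub σ τ').star
      refine (h1.mul h2).congr_deriv ?_
      simp only [RCLike.star_def, map_neg, map_mul, Complex.conj_I]
      ring
  have hbd : ∀ τ ∈ U,
      ‖∫ p, ψ p * (I * (cj (dd (ew m) g) 0 0 (σ + τ) p * conj (cj g 0 0 (σ - τ) p) +
        cj g 0 0 (σ + τ) p * conj (cj (dd (ew m) g) 0 0 (σ - τ) p)))‖ ≤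
        (∫ p, ‖Lt ψ p‖) * M ^ 2 := by
    intro τ hτ
    have hc1 := contDiffOn_cj hδ hg 0 0 hτ.1
    have hc2 := contDiffOn_cj hδ hg 0 0 hτ.2
    have hc3 : ContDiffOn ℝ 1 (fun p => conj (cj g 0 0 (σ - τ) p)) (ball 0 δ) :=
      (Complex.conjCLE.contDiff (n := 1)).comp_contDiffOn hc2
    have e1 : ∫ p, ψ p * (I * (cj (dd (ew m) g) 0 0 (σ + τ) p * conj (cj g 0 0 (σ - τ) p) +
        cj g 0 0 (σ + τ) p * conj (cj (dd (ew m) g) 0 0 (σ - τ) p))) =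
        ∫ p, ψ p * (I * Lt (fun q => cj g 0 0 (σ + τ) q * conj (cj g 0 0 (σ - τ) q)) p) := by
      refine md_congr hψ fun p hp => ?_
      have hn : ball (0 : Xs m) δ ∈ 𝓝 p := isOpen_ball.mem_nhds hp
      have d1 : DifferentiableAt ℝ (cj g 0 0 (σ + τ)) p :=
        (hc1.contDiffAt hn).differentiableAt one_ne_zero
      have d2 : DifferentiableAt ℝ (cj g 0 0 (σ - τ)) p :=
        (hc2.contDiffAt hn).differentiableAt one_ne_zero
      have d3 : DifferentiableAt ℝ (fun q => conj (cj g 0 0 (σ - τ) q)) p :=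
        (hc3.contDiffAt hn).differentiableAt one_ne_zero
      rw [Lt_mul d1 d3, Lt_conj d2, Lt_cj hδ hg 0 0 hτ.1 hp, Lt_cj hδ hg 0 0 hτ.2 hp]
    have e2 : ∫ p, ψ p * (I * Lt (fun q => cj g 0 0 (σ + τ) q * conj (cj g 0 0 (σ - τ) q)) p) =
        I * ∫ p, ψ p * Lt (fun q => cj g 0 0 (σ + τ) q * conj (cj g 0 0 (σ - τ) q)) p := by
      rw [← integral_const_mul]
      refine integral_congr_ae (Eventually.of_forall fun p => ?_)
      simp only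
      ring
    rw [e1, e2, ibp_Lt isOpen_ball hψ (hc1.mul hc3), norm_mul, Complex.norm_I, one_mul, norm_neg]
    exact md_bound hψ.lt fun p hp => md_le hδ hM hτ.1 hτ.2 hp
  have h0 : (0 : ℝ) ∈ U := by
    have h1 : σ ∈ Ioo 0 δ := ⟨by rw [hσ]; linarith [ht.1, hs.1], by rw [hσ]; linarith [ht.2, hs.2]⟩
    exact ⟨by simpa using h1, by simpa using h1⟩
  have e3 : σ + (t - s) / 2 = t := by rw [hσ]; ring
  have e4 : σ - (t - s) / 2 = s := by rw [hσ]; ring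
  have h1 : (t - s) / 2 ∈ U := ⟨by rw [e3]; exact ht, by rw [e4]; exact hs⟩
  have h2 := hUc.norm_image_sub_le_of_norm_hasDerivWithin_le
    (fun τ hτ => (hder τ hτ).hasDerivWithinAt) hbd h0 h1
  simp only [e3, e4, add_zero, sub_zero] at h2
  refine h2.trans (mul_le_mul_of_nonneg_left ?_ hC)
  rw [Real.norm_eq_abs, abs_div, abs_two]
  linarith [abs_nonneg (t - s)]

/-- A bounded function that is nearly midpoint convex has a limit at the end point. -/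
theorem md_lim {N : ℝ → ℝ} {d C K : ℝ} (hd : 0 < d) (hC : 0 ≤ C)
    (hK : ∀ t ∈ Ioo 0 d, |N t| ≤ K)
    (h : ∀ t ∈ Ioo 0 d, ∀ s ∈ Ioo 0 d, 2 * N ((t + s) / 2) ≤ N t + N s + C * |t - s|) :
    ∃ L, Tendsto N (𝓝[>] 0) (𝓝 L) := by
  have hI : ∀ e : ℝ, 0 < e → Ioo 0 e ∈ 𝓝[>] (0 : ℝ) := fun e he => Ioo_mem_nhdsGT he
  have hb1 : IsBoundedUnder (· ≤ ·) (𝓝[>] (0 : ℝ)) N :=
    isBoundedUnder_of_eventually_le (a := K)
      (by filter_upwards [hI d hd] with t ht using (abs_le.1 (hK t ht)).2)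
  have hb2 : IsBoundedUnder (· ≥ ·) (𝓝[>] (0 : ℝ)) N :=
    isBoundedUnder_of_eventually_ge (a := -K)
      (by filter_upwards [hI d hd] with t ht using (abs_le.1 (hK t ht)).1)
  refine ⟨limsup N (𝓝[>] 0), tendsto_of_le_liminf_of_limsup_le ?_ le_rfl hb1 hb2⟩
  set L := limsup N (𝓝[>] (0 : ℝ)) with hL
  set l := liminf N (𝓝[>] (0 : ℝ)) with hl
  refine le_of_forall_pos_le_add fun ε hε => ?_
  have e1 : ∀ᶠ s in 𝓝[>] (0 : ℝ), N s < L + ε / 5 :=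
    eventually_lt_of_limsup_lt (by linarith) hb1
  obtain ⟨η, hη, hηs⟩ : ∃ η : ℝ, 0 < η ∧ ∀ s ∈ Ioo 0 η, N s < L + ε / 5 := by
    obtain ⟨u, hu, hsub⟩ := mem_nhdsGT_iff_exists_Ioo_subset.1 e1
    exact ⟨u, hu, fun s hs => hsub hs⟩
  have hpos : 0 < min (min (η / 2) (d / 2)) (ε / (10 * (C + 1))) := by positivity
  have f1 : ∃ᶠ s in 𝓝[>] (0 : ℝ), L - ε / 5 < N s :=
    frequently_lt_of_lt_limsup hb2.isCoboundedUnder_le (by linarith)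
  obtain ⟨σ, hσ1, hσ2⟩ := (f1.and_eventually (hI _ hpos)).exists
  have f2 : ∃ᶠ s in 𝓝[>] (0 : ℝ), N s < l + ε / 5 :=
    frequently_lt_of_liminf_lt hb1.isCoboundedUnder_ge (by linarith)
  obtain ⟨t, ht1, ht2⟩ := (f2.and_eventually (hI _ hσ2.1)).exists
  have a1 : σ < η / 2 := hσ2.2.trans_le ((min_le_left _ _).trans (min_le_left _ _))
  have a2 : σ < d / 2 := hσ2.2.trans_le ((min_le_left _ _).trans (min_le_right _ _))
  have a3 : σ < ε / (10 * (C + 1)) := hσ2.2.trans_le (min_le_right _ _)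
  have a4 : σ * (10 * (C + 1)) < ε := (lt_div_iff₀ (by positivity)).1 a3
  have b1 := h t ⟨ht2.1, by linarith [ht2.2]⟩ (2 * σ - t)
    ⟨by linarith [ht2.2, hσ2.1], by linarith [ht2.1]⟩
  have b2 := hηs (2 * σ - t) ⟨by linarith [ht2.2, hσ2.1], by linarith [ht2.1]⟩
  have b3 : (t + (2 * σ - t)) / 2 = σ := by ring
  have b4 : |t - (2 * σ - t)| ≤ 2 * σ := abs_le.2 ⟨by linarith [ht2.1], by linarith [ht2.2, hσ2.1]⟩
  have b5 : C * |t - (2 * σ - t)| ≤ C * (2 * σ) := mul_le_mul_of_nonneg_left b4 hC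
  rw [b3] at b1
  nlinarith [hσ2.1]

theorem md_real (χ : Xs m → ℝ) (f : Xs m → ℂ) :
    ∫ p, (χ p : ℂ) * (f p * conj (f p)) = ((∫ p, χ p * ‖f p‖ ^ 2 : ℝ) : ℂ) := by
  rw [← integral_complex_ofReal]
  refine integral_congr_ae (Eventually.of_forall fun p => ?_)
  simp only
  rw [Complex.mul_conj, Complex.normSq_eq_norm_sq]
  push_cast
  ring

theorem md_expand (hδ : Sm m r δ) (hg : DifferentiableOn ℂ g (Dom m r)) {ψ : Xs m → ℂ}
    (hψ : Tst (ball 0 δ) ψ) {t s : ℝ} (ht : t ∈ Ioo 0 δ) (hs : s ∈ Ioo 0 δ) :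
    ∫ p, ψ p * ((cj g 0 0 t p - cj g 0 0 s p) * conj (cj g 0 0 t p - cj g 0 0 s p)) =
      ((∫ p, ψ p * (cj g 0 0 t p * conj (cj g 0 0 t p))) +
        ∫ p, ψ p * (cj g 0 0 s p * conj (cj g 0 0 s p))) -
      ((∫ p, ψ p * (cj g 0 0 t p * conj (cj g 0 0 s p))) +
        ∫ p, ψ p * (cj g 0 0 s p * conj (cj g 0 0 t p))) := by
  have i1 := hψ.integrable_mul (md_cont2 hδ hg ht ht)
  have i2 := hψ.integrable_mul (md_cont2 hδ hg hs hs)
  have i3 := hψ.integrable_mul (md_cont2 hδ hg ht hs)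
  have i4 := hψ.integrable_mul (md_cont2 hδ hg hs ht)
  rw [← integral_add i1 i2, ← integral_add i3 i4]
  refine Eq.trans ?_ (integral_sub (i1.add i2) (i3.add i4))
  refine integral_congr_ae (Eventually.of_forall fun p => ?_)
  simp only [map_sub]
  ring

/-- A bounded holomorphic function is Cauchy in `L²` on the levels. -/
theorem mid (hδ : Sm m r δ) (hg : DifferentiableOn ℂ g (Dom m r)) {M : ℝ}
    (hM : ∀ Z ∈ Dom m r, ‖g Z‖ ≤ M) :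
    Small ((𝓝[>] (0 : ℝ)) ×ˢ (𝓝[>] (0 : ℝ))) (ball (0 : Xs m) δ)
      (fun x p => g (pt p x.1) - g (pt p x.2)) := by
  have hI : Ioo 0 δ ∈ 𝓝[>] (0 : ℝ) := Ioo_mem_nhdsGT hδ.1
  have hII : ∀ᶠ x in (𝓝[>] (0 : ℝ)) ×ˢ (𝓝[>] (0 : ℝ)), x.1 ∈ Ioo 0 δ ∧ x.2 ∈ Ioo 0 δ :=
    (tendsto_fst.eventually hI).and (tendsto_snd.eventually hI)
  change Small _ _ (fun (x : ℝ × ℝ) p => cj g 0 0 x.1 p - cj g 0 0 x.2 p)
  refine small_of_tst isOpen_ball ?_ fun χ hχ hχ0 => ?_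
  · filter_upwards [hII] with x hx
    exact (md_cont hδ hg hx.1).sub (md_cont hδ hg hx.2)
  obtain ⟨C, hC, hanti⟩ := md_anti hδ hg hM hχ
  set Γ : ℝ → ℝ → ℂ := fun t s => ∫ p, (χ p : ℂ) * (cj g 0 0 t p * conj (cj g 0 0 s p)) with hΓ
  set N : ℝ → ℝ := fun t => ∫ p, χ p * ‖cj g 0 0 t p‖ ^ 2 with hN
  have hΓN : ∀ t, Γ t t = (N t : ℂ) := fun t => md_real χ _
  have hanti' : ∀ t ∈ Ioo 0 δ, ∀ s ∈ Ioo 0 δ, ‖Γ t s - (N ((t + s) / 2) : ℂ)‖ ≤ C * |t - s| := by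
    intro t ht s hs
    rw [← hΓN]
    exact hanti t ht s hs
  have hexp : ∀ t ∈ Ioo 0 δ, ∀ s ∈ Ioo 0 δ,
      ∫ p, (χ p : ℂ) * ((cj g 0 0 t p - cj g 0 0 s p) * conj (cj g 0 0 t p - cj g 0 0 s p)) =
        (Γ t t + Γ s s) - (Γ t s + Γ s t) := fun t ht s hs => md_expand hδ hg hχ ht hs
  have hK : ∀ t ∈ Ioo 0 δ, |N t| ≤ (∫ p, ‖(χ p : ℂ)‖) * M ^ 2 := by
    intro t ht
    have h1 : ‖Γ t t‖ ≤ (∫ p, ‖(χ p : ℂ)‖) * M ^ 2 :=
      md_bound hχ fun p hp => md_le hδ hM ht ht hp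
    rwa [hΓN, Complex.norm_real, Real.norm_eq_abs] at h1
  have hmid : ∀ t ∈ Ioo 0 δ, ∀ s ∈ Ioo 0 δ,
      2 * N ((t + s) / 2) ≤ N t + N s + 2 * C * |t - s| := by
    intro t ht s hs
    have h1 := hexp t ht s hs
    rw [md_real χ (fun p => cj g 0 0 t p - cj g 0 0 s p), hΓN, hΓN] at h1
    have h2 : 0 ≤ ∫ p, χ p * ‖cj g 0 0 t p - cj g 0 0 s p‖ ^ 2 :=
      integral_nonneg fun p => mul_nonneg (hχ0 p) (sq_nonneg _)
    have h3 := congrArg Complex.re h1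
    simp only [Complex.ofReal_re, Complex.sub_re, Complex.add_re] at h3
    have h4 := (Complex.abs_re_le_norm _).trans (hanti' t ht s hs)
    have h5 := (Complex.abs_re_le_norm _).trans (hanti' s hs t ht)
    rw [add_comm s t, abs_sub_comm s t] at h5
    simp only [Complex.ofReal_re, Complex.sub_re] at h4 h5
    linarith [(abs_le.1 h4).1, (abs_le.1 h5).1]
  obtain ⟨L, hL⟩ := md_lim hδ.1 (by positivity : 0 ≤ 2 * C) hK hmid
  have hz : Tendsto (fun x : ℝ × ℝ => x) ((𝓝[>] (0 : ℝ)) ×ˢ (𝓝[>] (0 : ℝ))) (𝓝 (0, 0)) := by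
    rw [nhds_prod_eq]
    exact tendsto_id.mono_right (Filter.prod_mono nhdsWithin_le_nhds nhdsWithin_le_nhds)
  have hσ : Tendsto (fun x : ℝ × ℝ => (x.1 + x.2) / 2) ((𝓝[>] (0 : ℝ)) ×ˢ (𝓝[>] (0 : ℝ)))
      (𝓝[>] 0) := by
    refine tendsto_nhdsWithin_iff.2 ⟨?_, ?_⟩
    · have hc : Continuous (fun x : ℝ × ℝ => (x.1 + x.2) / 2) := by fun_prop
      simpa [Function.comp_def] using (hc.tendsto (0, 0)).comp hz
    · filter_upwards [hII] with x hx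
      have h1 := hx.1.1
      have h2 := hx.2.1
      exact mem_Ioi.2 (by linarith)
  have hlim : Tendsto (fun x : ℝ × ℝ => Γ x.1 x.2) ((𝓝[>] (0 : ℝ)) ×ˢ (𝓝[>] (0 : ℝ)))
      (𝓝 (L : ℂ)) := by
    have h1 : Tendsto (fun x : ℝ × ℝ => (N ((x.1 + x.2) / 2) : ℂ))
        ((𝓝[>] (0 : ℝ)) ×ˢ (𝓝[>] (0 : ℝ))) (𝓝 (L : ℂ)) :=
      (Complex.continuous_ofReal.tendsto L).comp (hL.comp hσ)
    have h2 : Tendsto (fun x : ℝ × ℝ => Γ x.1 x.2 - (N ((x.1 + x.2) / 2) : ℂ))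
        ((𝓝[>] (0 : ℝ)) ×ˢ (𝓝[>] (0 : ℝ))) (𝓝 0) := by
      refine squeeze_zero_norm' (a := fun x : ℝ × ℝ => C * |x.1 - x.2|) ?_ ?_
      · filter_upwards [hII] with x hx using hanti' _ hx.1 _ hx.2
      · have hc : Continuous (fun x : ℝ × ℝ => C * |x.1 - x.2|) := by fun_prop
        simpa [Function.comp_def] using (hc.tendsto (0, 0)).comp hz
    simpa using h2.add h1
  have t1 := hlim.comp (tendsto_fst.prodMk tendsto_fst :
    Tendsto (fun x : ℝ × ℝ => (x.1, x.1)) ((𝓝[>] (0 : ℝ)) ×ˢ (𝓝[>] (0 : ℝ))) _)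
  have t2 := hlim.comp (tendsto_snd.prodMk tendsto_snd :
    Tendsto (fun x : ℝ × ℝ => (x.2, x.2)) ((𝓝[>] (0 : ℝ)) ×ˢ (𝓝[>] (0 : ℝ))) _)
  have t3 := hlim.comp (tendsto_snd.prodMk tendsto_fst :
    Tendsto (fun x : ℝ × ℝ => (x.2, x.1)) ((𝓝[>] (0 : ℝ)) ×ˢ (𝓝[>] (0 : ℝ))) _)
  have t4 := (t1.add t2).sub (hlim.add t3)
  rw [sub_self] at t4
  refine t4.congr' ?_
  filter_upwards [hII] with x hx
  exact (hexp _ hx.1 _ hx.2).symm

end Pool.Agent.Lib.MP_601e9e_an.Rg
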