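import Pool.Agent.Lib.MP_601e9e_an.Rg.Defs2
import Pool.Agent.Lib.MP_601e9e_an.Rg.Bu
import Pool.Agent.Lib.MP_601e9e_an.Rg.Poly

open Complex Filter Topology Set Metric MeasureTheory
open scoped ComplexConjugate ContDiff Matrix

namespace Pool.Agent.Lib.MP_601e9e_an.Rg

variable {m N k : ℕ} {r e e' : ℝ} {f g : ℝ → Xs m → ℂ} {F : Fin N → Zs m → ℂ}

theorem ord_h96_shrink {δ δ' C : ℝ} (hle : δ' ≤ δ)
    (h : ∀ p ∈ ball (0 : Xs m) δ, ∀ t ∈ Ioo 0 δ, ‖f t p‖ ≤ C * t ^ e) :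
    ∀ p ∈ ball (0 : Xs m) δ', ∀ t ∈ Ioo 0 δ', ‖f t p‖ ≤ C * t ^ e :=
  fun p hp t ht => h p (ball_subset_ball hle hp) t ⟨ht.1, ht.2.trans_le hle⟩

theorem Ord.mono (h : Ord e f) (he : e' ≤ e) : Ord e' f := by
  obtain ⟨δ, hδ, C, h⟩ := h
  refine ⟨min δ 1, lt_min hδ one_pos, |C|, fun p hp t ht => ?_⟩
  refine (ord_h96_shrink (min_le_left δ 1) h p hp t ht).trans ?_
  exact mul_le_mul (le_abs_self C)
    (Real.rpow_le_rpow_of_exponent_ge ht.1 (ht.2.le.trans (min_le_right _ _)) he)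
    (Real.rpow_nonneg ht.1.le _) (abs_nonneg C)

theorem Ord.of_le (h : Ord e f) {δ : ℝ} (hδ : 0 < δ)
    (hfg : ∀ p ∈ ball (0 : Xs m) δ, ∀ t ∈ Ioo 0 δ, ‖g t p‖ ≤ ‖f t p‖) : Ord e g := by
  obtain ⟨δ', hδ', C, h⟩ := h
  refine ⟨min δ' δ, lt_min hδ' hδ, C, fun p hp t ht => ?_⟩
  exact (hfg p (ball_subset_ball (min_le_right _ _) hp) t
    ⟨ht.1, ht.2.trans_le (min_le_right _ _)⟩).trans (ord_h96_shrink (min_le_left _ _) h p hp t ht)

theorem Ord.congr (h : Ord e f) {δ : ℝ} (hδ : 0 < δ)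
    (hfg : ∀ p ∈ ball (0 : Xs m) δ, ∀ t ∈ Ioo 0 δ, f t p = g t p) : Ord e g :=
  h.of_le hδ fun p hp t ht => by rw [hfg p hp t ht]

theorem Ord.zero (e : ℝ) : Ord e (fun (_ : ℝ) (_ : Xs m) => (0 : ℂ)) :=
  ⟨1, one_pos, 0, fun _ _ _ _ => by simp⟩

theorem Ord.const (c : ℂ) : Ord 0 (fun (_ : ℝ) (_ : Xs m) => c) :=
  ⟨1, one_pos, ‖c‖, fun _ _ _ _ => by simp⟩

theorem Ord.add (hf : Ord e f) (hg : Ord e g) : Ord e (fun t p => f t p + g t p) := by
  obtain ⟨δ, hδ, C, h⟩ := hf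
  obtain ⟨δ', hδ', D, h'⟩ := hg
  refine ⟨min δ δ', lt_min hδ hδ', C + D, fun p hp t ht => (norm_add_le _ _).trans ?_⟩
  rw [add_mul]
  exact add_le_add (ord_h96_shrink (min_le_left _ _) h p hp t ht)
    (ord_h96_shrink (min_le_right _ _) h' p hp t ht)

theorem Ord.sub (hf : Ord e f) (hg : Ord e g) : Ord e (fun t p => f t p - g t p) := by
  obtain ⟨δ, hδ, C, h⟩ := hf
  obtain ⟨δ', hδ', D, h'⟩ := hg
  refine ⟨min δ δ', lt_min hδ hδ', C + D, fun p hp t ht => (norm_sub_le _ _).trans ?_⟩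
  rw [add_mul]
  exact add_le_add (ord_h96_shrink (min_le_left _ _) h p hp t ht)
    (ord_h96_shrink (min_le_right _ _) h' p hp t ht)

theorem Ord.mul (hf : Ord e f) (hg : Ord e' g) : Ord (e + e') (fun t p => f t p * g t p) := by
  obtain ⟨δ, hδ, C, h⟩ := hf
  obtain ⟨δ', hδ', D, h'⟩ := hg
  refine ⟨min δ δ', lt_min hδ hδ', C * D, fun p hp t ht => ?_⟩
  have h1 := ord_h96_shrink (min_le_left δ δ') h p hp t ht
  have h2 := ord_h96_shrink (min_le_right δ δ') h' p hp t ht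
  rw [norm_mul, Real.rpow_add ht.1, mul_mul_mul_comm]
  exact mul_le_mul h1 h2 (norm_nonneg _) ((norm_nonneg _).trans h1)

theorem Ord.const_mul (hf : Ord e f) (c : ℂ) : Ord e (fun t p => c * f t p) := by
  simpa using (Ord.const c).mul hf

theorem Ord.cnj (hf : Ord e f) : Ord e (fun t p => conj (f t p)) :=
  hf.of_le one_pos fun _ _ _ _ => by simp

theorem Ord.sum {ι : Type*} (s : Finset ι) {G : ι → ℝ → Xs m → ℂ} (h : ∀ i ∈ s, Ord e (G i)) :
    Ord e (fun t p => ∑ i ∈ s, G i t p) := by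
  classical
  induction s using Finset.induction_on with
  | empty => simpa using Ord.zero (m := m) e
  | insert a s ha ih =>
    simp only [Finset.sum_insert ha]
    exact (h a (by simp)).add (ih fun i hi => h i (by simp [hi]))

theorem Ord.prod {ι : Type*} (s : Finset ι) (c : ι → ℝ) {G : ι → ℝ → Xs m → ℂ}
    (h : ∀ i ∈ s, Ord (c i) (G i)) : Ord (∑ i ∈ s, c i) (fun t p => ∏ i ∈ s, G i t p) := by
  classical
  induction s using Finset.induction_on with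
  | empty => simpa using Ord.const (m := m) 1
  | insert a s ha ih =>
    simp only [Finset.prod_insert ha, Finset.sum_insert ha]
    exact (h a (by simp)).mul (ih fun i hi => h i (by simp [hi]))

theorem Ord.det {n : Type*} [Fintype n] [DecidableEq n] {M : ℝ → Xs m → Matrix n n ℂ}
    (u v : n → ℝ) (h : ∀ i j, Ord (u i + v j) (fun t p => M t p i j)) :
    Ord (∑ i, u i + ∑ j, v j) (fun t p => (M t p).det) := by
  simp only [Matrix.det_apply']
  refine Ord.sum _ fun σ _ => Ord.const_mul ?_ _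
  have := Ord.prod Finset.univ (fun j => u (σ j) + v j) fun j _ => h (σ j) j
  rwa [Finset.sum_add_distrib, Equiv.sum_comp σ u] at this

theorem Ord.cont {φ : ℝ × Xs m → ℂ} (h : Continuous φ) : Ord 0 (fun t p => φ (t, p)) := by
  obtain ⟨C, hC⟩ := (isCompact_closedBall (0 : ℝ × Xs m) 1).exists_bound_of_continuousOn
    h.continuousOn
  refine ⟨1, one_pos, C, fun p hp t ht => ?_⟩
  rw [Real.rpow_zero, mul_one]
  refine hC _ (mem_closedBall_zero_iff.2 ?_)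
  rw [Prod.norm_def]
  exact max_le (by rw [Real.norm_eq_abs, abs_of_pos ht.1]; exact ht.2.le)
    (mem_ball_zero_iff.1 hp).le

/-- One radius and one constant for finitely many families. -/
theorem Ord.unif {ι : Type*} [Finite ι] {c : ι → ℝ} {G : ι → ℝ → Xs m → ℂ}
    (h : ∀ i, Ord (c i) (G i)) {δ₀ : ℝ} (h0 : 0 < δ₀) :
    ∃ δ : ℝ, 0 < δ ∧ δ ≤ δ₀ ∧ ∃ C : ℝ, 1 ≤ C ∧ ∀ i, ∀ p ∈ ball (0 : Xs m) δ, ∀ t ∈ Ioo 0 δ,
      ‖G i t p‖ ≤ C * t ^ c i := by
  choose d hd D hD using h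
  obtain ⟨B, hB⟩ := Finite.exists_le (fun i => (d i)⁻¹)
  obtain ⟨C, hC⟩ := Finite.exists_le D
  have hb : 0 < max B 1 := lt_max_of_lt_right one_pos
  refine ⟨min δ₀ (max B 1)⁻¹, lt_min h0 (inv_pos.2 hb), min_le_left _ _, max C 1,
    le_max_right _ _, fun i p hp t ht => ?_⟩
  have hle : min δ₀ (max B 1)⁻¹ ≤ d i :=
    (min_le_right _ _).trans ((inv_le_comm₀ hb (hd i)).2 ((hB i).trans (le_max_left _ _)))
  exact (ord_h96_shrink hle (hD i) p hp t ht).trans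
    (mul_le_mul_of_nonneg_right ((hC i).trans (le_max_left _ _)) (Real.rpow_nonneg ht.1.le _))

theorem ord_h96_dist (p : Xs m) {t : ℝ} (ht : 0 < t) : ‖pt p t - pt p (-t)‖ ≤ 2 * t := by
  refine (pi_norm_le_iff_of_nonneg (by linarith)).2 fun o => ?_
  cases o with
  | none =>
    have : (pt p t - pt p (-t)) none = I * ((2 * t : ℝ) : ℂ) := by
      simp only [pt, Pi.sub_apply, mk_none]
      push_cast
      ring
    rw [this, norm_mul, Complex.norm_I, one_mul, Complex.norm_real, Real.norm_eq_abs,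
      abs_of_pos (by linarith)]
  | some j =>
    simp only [pt, Pi.sub_apply, mk_some, sub_self, norm_zero]
    linarith

theorem ord_diff {φ : Zs m → ℂ} (h : Differentiable ℂ φ) :
    Ord 1 (fun t p => φ (pt p t) - φ (pt p (-t))) := by
  have h1 : ContDiff ℂ 1 φ := contDiff_iff_contDiffAt.2 fun x =>
    MP_08f711_an.contDiffAt_one_of_differentiableOn isOpen_univ h.differentiableOn (mem_univ x)
  obtain ⟨C, hC⟩ := (isCompact_closedBall (0 : Zs m) 1).exists_bound_of_continuousOn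
    (h1.continuous_fderiv one_ne_zero).continuousOn
  have C0 : 0 ≤ C := (norm_nonneg _).trans (hC 0 (mem_closedBall_self zero_le_one))
  obtain ⟨δ, hδ⟩ := exists_Sm (m := m) (r := 2) two_pos
  refine ⟨δ, hδ.1, C * 2, fun p hp t ht => ?_⟩
  have hp' := (mem_ball_zero_iff.1 hp).le
  have m1 : pt p t ∈ closedBall (0 : Zs m) 1 := mem_closedBall_zero_iff.2
    (by linarith [hδ.2 p hp' t (by rw [abs_of_pos ht.1]; exact ht.2.le)])
  have m2 : pt p (-t) ∈ closedBall (0 : Zs m) 1 := mem_closedBall_zero_iff.2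
    (by linarith [hδ.2 p hp' (-t) (by rw [abs_neg, abs_of_pos ht.1]; exact ht.2.le)])
  refine ((convex_closedBall (0 : Zs m) 1).norm_image_sub_le_of_norm_fderiv_le
    (fun x _ => h x) hC m2 m1).trans ?_
  rw [Real.rpow_one, mul_assoc]
  exact mul_le_mul_of_nonneg_left (ord_h96_dist p ht.1) C0

/-- Boundary uniqueness with a rate. -/
theorem bu0 (hF : Hyp m N k r F) {φ : Zs m × (Fin m → ℂ) → ℂ}
    (hφ : DifferentiableOn ℂ φ (Dom m r ×ˢ univ)) (he : 0 < e)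
    (h : Ord e (fun t p => φ (pt p t, star p.1))) :
    ∀ x ∈ Dom m r ×ˢ (univ : Set (Fin m → ℂ)), φ x = 0 := by
  obtain ⟨δ₁, hδ₁, C₁, h₁⟩ := h.mono he.le
  obtain ⟨δ₂, hδ₂, C, h₂⟩ := h
  obtain ⟨δ₃, hδ₃⟩ := exists_Sm (m := m) hF.rpos
  have hδ : Sm m r (min (min δ₁ δ₂) δ₃) :=
    hδ₃.mono (lt_min (lt_min hδ₁ hδ₂) hδ₃.1) (min_le_right _ _)
  have k₁ := ord_h96_shrink ((min_le_left _ δ₃).trans (min_le_left δ₁ δ₂)) h₁
  have k₂ := ord_h96_shrink ((min_le_left _ δ₃).trans (min_le_right δ₁ δ₂)) h₂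
  refine bu hF hδ (ι := Unit) (fun _ => 0) (K := 0) (Nat.zero_le _) hφ
    (PB.of_bound (C := C₁) fun x hx => by simpa using k₁ x.2 hx.2 x.1 hx.1)
    fun p hp _ _ t ht t0 _ => ?_
  refine squeeze_zero_norm (fun n => k₂ p hp (t n) (ht n)) ?_
  have := (t0.rpow_const (p := e) (Or.inr he.le)).const_mul C
  rwa [Real.zero_rpow he.ne', mul_zero] at this

end Pool.Agent.Lib.MP_601e9e_an.Rg
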