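import Pool.Agent.Lib.MP_601e9e_an.Rg.Ov1

open Complex Filter Topology Set Metric MeasureTheory
open scoped ComplexConjugate ContDiff Matrix

namespace Pool.Agent.Lib.MP_601e9e_an.Rg

variable {a β γ θ : ℝ} {χ : ℝ → ℝ}

theorem ovc_kap {t p q : ℝ} {w : ℂ} (ht : 0 ≤ t) (hp : 0 < p) (hq : 0 < q)
    (h1 : p ≤ ‖w - t * I‖) (h2 : q ≤ ‖w + t / 2 * I‖) : ‖kap t w‖ ≤ t / (p * q) := by
  rw [kap, norm_div, norm_mul, Complex.norm_real, Real.norm_of_nonneg ht]
  exact div_le_div_of_nonneg_left ht (mul_pos hp hq) (mul_le_mul h1 h2 hq.le (norm_nonneg _))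

theorem ovc_re1 (t u y : ℝ) : |u| ≤ ‖(u : ℂ) + y * I - t * I‖ := by
  simpa using abs_re_le_norm ((u : ℂ) + y * I - t * I)

theorem ovc_re2 (t u y : ℝ) : |u| ≤ ‖(u : ℂ) + y * I + t / 2 * I‖ := by
  simpa using abs_re_le_norm ((u : ℂ) + y * I + t / 2 * I)

theorem ovc_im1 (t u y : ℝ) : |y - t| ≤ ‖(u : ℂ) + y * I - t * I‖ := by
  simpa using abs_im_le_norm ((u : ℂ) + y * I - t * I)

theorem ovc_im2 (t u y : ℝ) : |y + t / 2| ≤ ‖(u : ℂ) + y * I + t / 2 * I‖ := by
  simpa using abs_im_le_norm ((u : ℂ) + y * I + t / 2 * I)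

theorem ovc_mem {u y : ℝ} (hu : u ∈ Ioo (-a) a) (h0 : 0 < y) (h1 : y < 2 * a) :
    (u : ℂ) + y * I ∈ Rc a := by
  refine ⟨?_, ?_, ?_⟩
  · simpa using abs_lt.2 ⟨hu.1, hu.2⟩
  · simpa using h0
  · simpa using h1

theorem ovc_supp (hχ : Cut a χ) {u : ℝ} (h : χ u ≠ 0) : u ∈ Ioo (-a) a :=
  hχ.supp (subset_tsupport _ h)

theorem ovc_der (hχ : Cut a χ) {u : ℝ} (h : deriv χ u ≠ 0) : u ∈ Ioo (-a) a ∧ a / 2 ≤ |u| := by
  refine ⟨hχ.supp (support_deriv_subset h), not_lt.1 fun hu => h ?_⟩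
  have e : χ =ᶠ[𝓝 u] fun _ => 1 := by
    filter_upwards [(isOpen_lt continuous_abs continuous_const).mem_nhds hu] with v hv
    exact hχ.one v hv
  rw [e.deriv_eq, deriv_const]

theorem ovc_int (hχ : Cut a χ) : Integrable χ :=
  hχ.smooth.continuous.integrable_of_hasCompactSupport hχ.cpt

theorem ovc_int_der (hχ : Cut a χ) : Integrable fun u => |deriv χ u| :=
  ((hχ.smooth.continuous_deriv (by simp)).integrable_of_hasCompactSupport hχ.cpt.deriv).abs

theorem ovc_int_mul (hχ : Cut a χ) {F : ℝ → ℂ} (hF : ContinuousOn F (Ioo (-a) a)) :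
    Integrable fun u => (χ u : ℂ) * F u := by
  have h : IntegrableOn (fun u => (χ u : ℂ) * F u) (tsupport χ) :=
    ((continuous_ofReal.comp hχ.smooth.continuous).continuousOn.mul
      (hF.mono hχ.supp)).integrableOn_compact hχ.cpt
  refine (integrableOn_iff_integrable_of_support_subset fun u hu => ?_).1 h
  refine subset_tsupport _ fun e => hu ?_
  simp [e]

theorem ov_far (ha : 0 < a) (hχ : Cut a χ) (hβ : 0 ≤ β) (hβ1 : β < 1) :
    ∃ C : ℝ, ∀ t ∈ Ioo 0 (a / 2), ∀ (M : ℝ) (g : ℂ → ℂ), 0 ≤ M →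
      (∀ w ∈ Rc a, ‖g w‖ ≤ M * w.im ^ (-β)) →
      ‖Lam χ (fun w => kap t w * g w) (t / 4) a -
        ∫ u : ℝ, χ u * (kap t (u + (t / 4 : ℝ) * I) * g (u + (t / 4 : ℝ) * I))‖ ≤ C * M * t := by
  have _ := hβ
  refine ⟨(∫ u, χ u) * (a ^ (-β) / (a / 2 * a)) +
    (∫ u, |deriv χ u|) / (a / 2 * (a / 2)) * (a ^ (-β + 1) / (-β + 1)), fun t ht M g hM hg => ?_⟩
  obtain ⟨ht0, hta⟩ := ht
  have hA : ‖∫ u : ℝ, (χ u : ℂ) * (kap t (u + a * I) * g (u + a * I))‖ ≤
      (∫ u, χ u) * (t / (a / 2 * a) * (M * a ^ (-β))) := by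
    rw [← integral_mul_const]
    refine norm_integral_le_of_norm_le ((ovc_int hχ).mul_const _) (Eventually.of_forall fun u => ?_)
    by_cases h : χ u = 0
    · simp [h]
    rw [norm_mul, norm_mul, Complex.norm_real, Real.norm_of_nonneg (hχ.nonneg u)]
    refine mul_le_mul_of_nonneg_left (mul_le_mul ?_ ?_ (norm_nonneg _) (by positivity))
      (hχ.nonneg u)
    · refine ovc_kap ht0.le (by positivity) ha (le_trans ?_ (ovc_im1 t u a))
        (le_trans ?_ (ovc_im2 t u a))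
      · exact le_trans (by linarith) (le_abs_self _)
      · exact le_trans (by linarith) (le_abs_self _)
    · simpa using hg _ (ovc_mem (ovc_supp hχ h) ha (by linarith))
  have hD : 0 ≤ ∫ u, |deriv χ u| := integral_nonneg fun u => abs_nonneg _
  have hB : ‖∫ y in (t / 4)..a, ∫ u : ℝ, ((deriv χ u : ℝ) : ℂ) *
      (kap t (u + y * I) * g (u + y * I))‖ ≤
      ∫ y in (t / 4)..a, (∫ u, |deriv χ u|) * (t / (a / 2 * (a / 2)) * M) * y ^ (-β) := by
    refine intervalIntegral.norm_integral_le_of_norm_le (by linarith)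
      (Eventually.of_forall fun y hy => ?_)
      ((intervalIntegral.intervalIntegrable_rpow' (by linarith)).const_mul _)
    have hy0 : 0 < y := lt_trans (by positivity) hy.1
    rw [mul_assoc, ← integral_mul_const]
    refine norm_integral_le_of_norm_le ((ovc_int_der hχ).mul_const _)
      (Eventually.of_forall fun u => ?_)
    by_cases h : deriv χ u = 0
    · simp [h]
    obtain ⟨hu, hu2⟩ := ovc_der hχ h
    rw [norm_mul, norm_mul, Complex.norm_real, Real.norm_eq_abs, mul_assoc]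
    refine mul_le_mul_of_nonneg_left (mul_le_mul ?_ ?_ (norm_nonneg _) (by positivity))
      (abs_nonneg _)
    · exact ovc_kap ht0.le (by positivity) (by positivity) (hu2.trans (ovc_re1 t u y))
        (hu2.trans (ovc_re2 t u y))
    · simpa using hg _ (ovc_mem hu hy0 (by linarith [hy.2]))
  rw [intervalIntegral.integral_const_mul, integral_rpow (Or.inl (by linarith))] at hB
  have hp : 0 ≤ (t / 4) ^ (-β + 1) := by positivity
  have hb1 : 0 < -β + 1 := by linarith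
  have hB2 : (∫ u, |deriv χ u|) * (t / (a / 2 * (a / 2)) * M) *
      ((a ^ (-β + 1) - (t / 4) ^ (-β + 1)) / (-β + 1)) ≤
      (∫ u, |deriv χ u|) * (t / (a / 2 * (a / 2)) * M) * (a ^ (-β + 1) / (-β + 1)) :=
    mul_le_mul_of_nonneg_left (div_le_div_of_nonneg_right (by linarith) hb1.le) (by positivity)
  have e : ∀ x y z : ℂ, x - y - I * z - x = -(y + I * z) := fun x y z => by ring
  rw [Lam, e, norm_neg]
  refine (norm_add_le _ _).trans ?_
  rw [norm_mul, norm_I, one_mul]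
  refine (add_le_add hA (hB.trans hB2)).trans (le_of_eq ?_)
  ring

theorem ov_low (ha : 0 < a) (hχ : Cut a χ) :
    ∃ t₀ : ℝ, 0 < t₀ ∧ ∀ t ∈ Ioo 0 t₀, 1 ≤ ‖Lam χ (kap t) (t / 4) a‖ := by
  obtain ⟨C, hC⟩ := ov_far (β := 0) ha hχ le_rfl one_pos
  refine ⟨min (a / 2) (7 / (25 * (|C| + 1))), by positivity, fun t ht => ?_⟩
  have ht0 : 0 < t := ht.1
  have hta : t < a / 2 := ht.2.trans_le (min_le_left _ _)
  have htC : t < 7 / (25 * (|C| + 1)) := ht.2.trans_le (min_le_right _ _)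
  have h := hC t ⟨ht0, hta⟩ 1 (fun _ => 1) zero_le_one (by simp)
  simp only [mul_one] at h
  have hk : ∀ u : ℝ, (χ u : ℂ) * kap t (u + (t / 4 : ℝ) * I) =
      ((χ u * (t / (u ^ 2 + 9 * t ^ 2 / 16)) : ℝ) : ℂ) := fun u => by
    rw [kap]
    push_cast
    congr 2
    linear_combination (-9 / 16 * (t : ℂ) ^ 2) * I_mul_I
  simp only [hk] at h
  rw [integral_complex_ofReal] at h
  have hint : Integrable fun u : ℝ => χ u * (t / (u ^ 2 + 9 * t ^ 2 / 16)) :=
    (hχ.smooth.continuous.mul (continuous_const.div (by fun_prop)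
      fun u => by positivity)).integrable_of_hasCompactSupport hχ.cpt.mul_right
  have hlow : 32 / 25 ≤ ∫ u : ℝ, χ u * (t / (u ^ 2 + 9 * t ^ 2 / 16)) := by
    have h1 : ∫ u : ℝ, (Icc (-t) t).indicator (fun _ => 16 / (25 * t)) u = 32 / 25 := by
      rw [integral_indicator_const _ measurableSet_Icc, Real.volume_real_Icc_of_le (by linarith),
        smul_eq_mul]
      field_simp
      ring
    rw [← h1]
    refine integral_mono_of_nonneg (Eventually.of_forall fun u => ?_) hint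
      (Eventually.of_forall fun u => ?_)
    · exact indicator_nonneg (fun _ _ => by positivity) u
    · by_cases hu : u ∈ Icc (-t) t
      · have h2 : |u| ≤ t := abs_le.2 hu
        have h3 : u ^ 2 ≤ t ^ 2 := by nlinarith [hu.1, hu.2]
        simp only [indicator_of_mem hu, hχ.one u (h2.trans_lt hta), one_mul]
        rw [div_le_div_iff₀ (by positivity) (by positivity)]
        nlinarith
      · simp only [indicator_of_notMem hu]
        exact mul_nonneg (hχ.nonneg u) (by positivity)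
  have h4 := norm_sub_norm_le ((∫ u : ℝ, χ u * (t / (u ^ 2 + 9 * t ^ 2 / 16)) : ℝ) : ℂ)
    (Lam χ (kap t) (t / 4) a)
  rw [norm_sub_rev, Complex.norm_real, Real.norm_of_nonneg (by linarith)] at h4
  have h5 : C * t ≤ 7 / 25 := by
    rw [lt_div_iff₀ (by positivity)] at htC
    nlinarith [le_abs_self C]
  have h6 := h4.trans h
  linarith

theorem ovc_diff (ha : 0 < a) {t s u : ℝ} (ht : t ∈ Ioo 0 a) (hs : s ∈ Ioo 0 (t / 4))
    (hu : u ∈ Ioo (-a) a) : ‖kap t (u + s * I) - kap t u‖ ≤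
      t * (3 * a) / (3 * t / 4 * (t / 2) * (t * (t / 2))) * s := by
  obtain ⟨ht0, hta⟩ := ht
  obtain ⟨hs0, hst⟩ := hs
  have n1 : 3 * t / 4 ≤ ‖(u : ℂ) + s * I - t * I‖ :=
    le_trans (le_trans (by linarith) (neg_le_abs _)) (ovc_im1 t u s)
  have n2 : t / 2 ≤ ‖(u : ℂ) + s * I + t / 2 * I‖ :=
    le_trans (le_trans (by linarith) (le_abs_self _)) (ovc_im2 t u s)
  have n3 : t ≤ ‖(u : ℂ) - t * I‖ := by
    simpa [abs_of_pos ht0] using ovc_im1 t u 0
  have n4 : t / 2 ≤ ‖(u : ℂ) + t / 2 * I‖ := by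
    have := ovc_im2 t u 0
    rw [zero_add, abs_of_pos (by positivity)] at this
    simpa using this
  have z1 : (u : ℂ) + s * I - t * I ≠ 0 := norm_pos_iff.1 (lt_of_lt_of_le (by positivity) n1)
  have z2 : (u : ℂ) + s * I + t / 2 * I ≠ 0 := norm_pos_iff.1 (lt_of_lt_of_le (by positivity) n2)
  have z3 : (u : ℂ) - t * I ≠ 0 := norm_pos_iff.1 (lt_of_lt_of_le ht0 n3)
  have z4 : (u : ℂ) + t / 2 * I ≠ 0 := norm_pos_iff.1 (lt_of_lt_of_le (by positivity) n4)
  have n5 : ‖((2 * u : ℝ) : ℂ) + ((s - t / 2 : ℝ) : ℂ) * I‖ ≤ 3 * a := by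
    refine (norm_add_le _ _).trans ?_
    rw [norm_mul, norm_I, mul_one, Complex.norm_real, Complex.norm_real, Real.norm_eq_abs,
      Real.norm_eq_abs]
    have h1 : |2 * u| ≤ 2 * a := abs_le.2 ⟨by linarith [hu.1], by linarith [hu.2]⟩
    have h2 : |s - t / 2| ≤ a := abs_le.2 ⟨by linarith, by linarith⟩
    linarith
  rw [kap, kap, div_sub_div _ _ (mul_ne_zero z1 z2) (mul_ne_zero z3 z4)]
  have e : (t : ℂ) * ((u - t * I) * (u + t / 2 * I)) -
      (u + s * I - t * I) * (u + s * I + t / 2 * I) * t =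
      -(t * ((((2 * u : ℝ) : ℂ) + ((s - t / 2 : ℝ) : ℂ) * I) * (s * I))) := by
    push_cast
    ring
  rw [e, norm_div, norm_neg, norm_mul, norm_mul, norm_mul, norm_mul, norm_mul, norm_mul, norm_I,
    Complex.norm_real, Complex.norm_real, Real.norm_of_nonneg ht0.le, Real.norm_of_nonneg hs0.le,
    mul_one, div_mul_eq_mul_div (t * (3 * a)), mul_assoc t (3 * a) s]
  gcongr

theorem ov_flat (ha : 0 < a) (hχ : Cut a χ) {t : ℝ} (ht : t ∈ Ioo 0 a) :
    ∃ C : ℝ, ∀ (M : ℝ) (g f : ℂ → ℂ), Pair a β γ M g f → ∀ s ∈ Ioo 0 (t / 4),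
      ‖(∫ u : ℝ, χ u * (kap t (u + s * I) * g (u + s * I) * conj (f (u + s * I)))) -
        ∫ u : ℝ, χ u * kap t u * (g (u + s * I) * conj (f (u + s * I)))‖ ≤
        C * M ^ 2 * s ^ (1 - β - γ) := by
  refine ⟨(∫ u, χ u) * (t * (3 * a) / (3 * t / 4 * (t / 2) * (t * (t / 2)))),
    fun M g f hP s hs => ?_⟩
  have ht0 := ht.1
  have hs0 := hs.1
  have hM := hP.pos
  have hs2 : s < 2 * a := by linarith [hs.2, ht.2]
  have hl : Continuous fun u : ℝ => (u : ℂ) + s * I := by fun_prop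
  have hm : MapsTo (fun u : ℝ => (u : ℂ) + s * I) (Ioo (-a) a) (Rc a) :=
    fun u hu => ovc_mem hu hs0 hs2
  have cg : ContinuousOn (fun u : ℝ => g (u + s * I)) (Ioo (-a) a) :=
    hP.hg.continuousOn.comp hl.continuousOn hm
  have cf : ContinuousOn (fun u : ℝ => conj (f (u + s * I))) (Ioo (-a) a) :=
    continuous_conj.comp_continuousOn (hP.hf.continuousOn.comp hl.continuousOn hm)
  have ck : ∀ y : ℝ, 0 ≤ y → y < t → Continuous fun u : ℝ => kap t (u + y * I) := by
    intro y h0 h1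
    refine continuous_const.div (by fun_prop) fun u => mul_ne_zero ?_ ?_
    · exact norm_pos_iff.1 (lt_of_lt_of_le (abs_pos.2 (by linarith)) (ovc_im1 t u y))
    · exact norm_pos_iff.1 (lt_of_lt_of_le (abs_pos.2 (by linarith)) (ovc_im2 t u y))
  have ck0 : Continuous fun u : ℝ => kap t u := by simpa using ck 0 le_rfl ht0
  have i1 := ovc_int_mul hχ (((ck s hs0.le (by linarith [hs.2])).continuousOn.mul cg).mul cf)
  have i2 : Integrable fun u : ℝ =>
      (χ u : ℂ) * kap t u * (g (u + s * I) * conj (f (u + s * I))) := by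
    simpa only [mul_assoc, Pi.mul_apply] using ovc_int_mul hχ (ck0.continuousOn.mul (cg.mul cf))
  have hpw : s ^ (1 - β - γ) = s * (s ^ (-β) * s ^ (-γ)) := by
    rw [show 1 - β - γ = 1 + (-β + -γ) by ring, Real.rpow_add hs0, Real.rpow_add hs0,
      Real.rpow_one]
  simp only [Pi.mul_apply] at i1
  rw [← integral_sub i1 i2, mul_assoc, mul_assoc, ← integral_mul_const]
  refine norm_integral_le_of_norm_le ((ovc_int hχ).mul_const _) (Eventually.of_forall fun u => ?_)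
  by_cases h : χ u = 0
  · simp [h]
  have hu := ovc_supp hχ h
  have e : (χ u : ℂ) * (kap t (u + s * I) * g (u + s * I) * conj (f (u + s * I))) -
      χ u * kap t u * (g (u + s * I) * conj (f (u + s * I))) =
      χ u * ((kap t (u + s * I) - kap t u) * (g (u + s * I) * conj (f (u + s * I)))) := by ring
  rw [e, norm_mul, norm_mul, norm_mul, Complex.norm_real, Real.norm_of_nonneg (hχ.nonneg u),
    Complex.norm_conj]
  refine mul_le_mul_of_nonneg_left ?_ (hχ.nonneg u)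
  have b1 : ‖g (u + s * I)‖ ≤ M * s ^ (-β) := by simpa using hP.bg _ (hm hu)
  have b2 : ‖f (u + s * I)‖ ≤ M * s ^ (-γ) := by simpa using hP.bf _ (hm hu)
  refine (mul_le_mul (ovc_diff ha ht hs hu) (mul_le_mul b1 b2 (norm_nonneg _) (by positivity))
    (by positivity) (by positivity)).trans (le_of_eq ?_)
  rw [hpw]
  ring

end Pool.Agent.Lib.MP_601e9e_an.Rg
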