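import Pool.Agent.Lib.MP_601e9e_an.Rg.OvB
import Pool.Agent.Lib.MP_601e9e_an.Rg.OvC

open Complex Filter Topology Set Metric MeasureTheory
open scoped ComplexConjugate ContDiff Matrix

namespace Pool.Agent.Lib.MP_601e9e_an.Rg

variable {a β γ θ : ℝ}

theorem h55_kap_smooth {t : ℝ} (ht : 0 < t) : ContDiff ℝ ∞ (fun u : ℝ => kap t u) := by
  have hu : ContDiff ℝ ∞ (fun u : ℝ => (u : ℂ)) := ofRealCLM.contDiff
  unfold kap
  have hne : ∀ u : ℝ, ((u : ℂ) - t * I) * ((u : ℂ) + t / 2 * I) ≠ 0 := by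
    intro u
    refine mul_ne_zero (fun h => ?_) (fun h => ?_)
    · have := congrArg Complex.im h
      simp at this
      exact ht.ne' this
    · have := congrArg Complex.im h
      simp at this
      exact ht.ne' this
  have hd : ContDiff ℝ ∞ (fun u : ℝ => ((u : ℂ) - t * I) * ((u : ℂ) + t / 2 * I)) :=
    (hu.sub contDiff_const).mul (hu.add contDiff_const)
  simp only [div_eq_mul_inv (t : ℂ) (_ * _)]
  exact contDiff_const.mul (hd.inv hne)

theorem ov (ha : 0 < a) (hβ : 0 ≤ β) (hγ : 0 ≤ γ) (hθ0 : 0 ≤ θ) (hθ : θ < 1 - β - γ) :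
    ∃ C t₀ : ℝ, 0 < t₀ ∧ ∀ t ∈ Ioo 0 t₀, ∃ ψ : ℝ → ℂ, ContDiff ℝ ∞ ψ ∧ HasCompactSupport ψ ∧
      tsupport ψ ⊆ Ioo (-a) a ∧ ∃ C' : ℝ, ∀ (M : ℝ) (g f : ℂ → ℂ), Pair a β γ M g f →
        ∀ s ∈ Ioo 0 (t / 4),
          ‖g (t * I) * conj (f (t * I)) -
            ∫ u : ℝ, ψ u * (g (u + s * I) * conj (f (u + s * I)))‖ ≤
          C * M ^ 2 * t ^ θ + C' * M ^ 2 * s ^ (1 - β - γ) := by
  obtain ⟨χ, hχ⟩ := exists_cut ha
  obtain ⟨C₁, h₁⟩ := ov_far (β := β) ha hχ hβ (by linarith)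
  obtain ⟨C₂, h₂⟩ := ov_level ha hχ hβ hγ hθ0 hθ
  obtain ⟨C₃, h₃⟩ := ov_down ha hχ hβ hγ hθ0 hθ
  obtain ⟨t₁, ht₁, hlow⟩ := ov_low ha hχ
  refine ⟨|C₁| + C₂ + C₃, min t₁ (min (a / 2) 1), lt_min ht₁ (lt_min (by linarith) one_pos),
    fun t ht => ?_⟩
  have ht0 : 0 < t := ht.1
  have htt : t < t₁ := ht.2.trans_le (min_le_left _ _)
  have hta : t < a / 2 := ht.2.trans_le ((min_le_right _ _).trans (min_le_left _ _))
  have ht1 : t < 1 := ht.2.trans_le ((min_le_right _ _).trans (min_le_right _ _))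
  have htm : t ∈ Ioo 0 (min a 1) := ⟨ht0, lt_min (by linarith) ht1⟩
  have hL := hlow t ⟨ht0, htt⟩
  set L := Lam χ (kap t) (t / 4) a with hLdef
  have hL0 : L ≠ 0 := by
    intro h
    rw [h, norm_zero] at hL
    linarith
  obtain ⟨C', h₄⟩ := ov_flat (β := β) (γ := γ) ha hχ (t := t) ⟨ht0, by linarith⟩
  have hsub : Function.support (fun u : ℝ => (χ u : ℂ) * kap t u * L⁻¹) ⊆ Function.support χ := by
    intro u hu h
    exact hu (by simp [h])
  refine ⟨fun u => χ u * kap t u * L⁻¹, ?_, hχ.cpt.mono hsub,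
    (closure_mono hsub).trans hχ.supp, C', fun M g f hP s hs => ?_⟩
  · exact ((ofRealCLM.contDiff.comp hχ.smooth).mul (h55_kap_smooth ht0)).mul contDiff_const
  have hM := hP.pos
  have hmem : ((t : ℂ) * I) ∈ Rc a := by
    refine ⟨by simpa using ha, by simpa using ht0, ?_⟩
    simp
    linarith
  have hf : ‖conj (f (t * I))‖ ≤ M * t ^ (-γ) := by
    have := hP.bf _ hmem
    simpa using this
  have e₁ := h₁ t ⟨ht0, hta⟩ M g hM hP.bg
  have e₂ := h₂ t htm M g f hP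
  have e₃ := h₃ t htm M g f hP s hs
  have e₄ := h₄ M g f hP s hs
  rw [ov_rep hχ ⟨ht0, by linarith⟩ hP.hg, ← hLdef] at e₁
  set T₁ := ∫ u : ℝ, χ u * (kap t (u + (t / 4 : ℝ) * I) * g (u + (t / 4 : ℝ) * I)) with hT₁
  set T₂ := ∫ u : ℝ, χ u * (kap t (u + (t / 4 : ℝ) * I) * g (u + (t / 4 : ℝ) * I) *
    conj (f (u + (t / 4 : ℝ) * I))) with hT₂
  set T₃ := ∫ u : ℝ, χ u * (kap t (u + s * I) * g (u + s * I) * conj (f (u + s * I))) with hT₃
  set T₄ := ∫ u : ℝ, χ u * kap t u * (g (u + s * I) * conj (f (u + s * I))) with hT₄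
  have hint : (∫ u : ℝ, (χ u : ℂ) * kap t u * L⁻¹ * (g (u + s * I) * conj (f (u + s * I)))) =
      T₄ * L⁻¹ := by
    rw [hT₄, ← integral_mul_const]
    congr 1
    funext u
    ring
  have hpow : t * t ^ (-γ) ≤ t ^ θ := by
    have : t * t ^ (-γ) = t ^ (1 - γ) := by
      rw [sub_eq_add_neg, Real.rpow_add ht0, Real.rpow_one]
    rw [this]
    exact Real.rpow_le_rpow_of_exponent_ge ht0 ht1.le (by linarith)
  have e₀ : ‖(g (t * I) * L - T₁) * conj (f (t * I))‖ ≤ |C₁| * M ^ 2 * t ^ θ := by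
    rw [norm_mul]
    have hA : ‖g (t * I) * L - T₁‖ ≤ |C₁| * M * t :=
      e₁.trans (by gcongr; exact le_abs_self _)
    calc ‖g (t * I) * L - T₁‖ * ‖conj (f (t * I))‖ ≤ (|C₁| * M * t) * (M * t ^ (-γ)) := by
          gcongr
      _ = |C₁| * M ^ 2 * (t * t ^ (-γ)) := by ring
      _ ≤ |C₁| * M ^ 2 * t ^ θ := by gcongr
  have hid : g (t * I) * conj (f (t * I)) - T₄ * L⁻¹ =
      ((g (t * I) * L - T₁) * conj (f (t * I)) + (T₁ * conj (f (t * I)) - T₂) + (T₂ - T₃) +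
        (T₃ - T₄)) * L⁻¹ := by
    field_simp
    ring
  beta_reduce
  rw [hint, hid, norm_mul, norm_inv]
  have hinv : ‖L‖⁻¹ ≤ 1 := inv_le_one_of_one_le₀ hL
  refine (mul_le_of_le_one_right (norm_nonneg _) hinv).trans ?_
  refine (norm_add_le _ _).trans ?_
  refine (add_le_add ((norm_add_le _ _).trans (add_le_add (norm_add_le _ _) le_rfl)) le_rfl).trans ?_
  linarith

end Pool.Agent.Lib.MP_601e9e_an.Rg
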