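import Pool.Agent.Lib.MP_601e9e_an.Rg.Defs2

open Complex Filter Topology Set Metric MeasureTheory
open scoped ComplexConjugate ContDiff Matrix

namespace Pool.Agent.Lib.MP_601e9e_an.Rg

variable {a t : ℝ} {χ : ℝ → ℝ}

theorem o1_int1 {K : Set ℝ} (hK : IsCompact K) {φ : ℝ → ℝ} (hφ : Continuous φ)
    (h0 : ∀ u, u ∉ K → φ u = 0) {U : Set ℂ} {G : ℂ → ℂ} (hG : ContinuousOn G U) {y : ℝ}
    (hin : ∀ u ∈ K, (u : ℂ) + y * I ∈ U) :
    Integrable (fun u : ℝ => (φ u : ℂ) * G (u + y * I)) := by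
  have h1 : ContinuousOn (fun u : ℝ => (φ u : ℂ) * G (u + y * I)) K := by
    refine ContinuousOn.mul (by fun_prop) ?_
    exact hG.comp (by fun_prop) hin
  have h2 := (h1.integrableOn_compact (μ := volume) hK).of_forall_sdiff_eq_zero
    MeasurableSet.univ (fun u hu => by simp [h0 u hu.2])
  exact integrableOn_univ.1 h2

theorem o1_int2 {K : Set ℝ} (hK : IsCompact K) {φ : ℝ → ℝ} (hφ : Continuous φ)
    (h0 : ∀ u, u ∉ K → φ u = 0) {U : Set ℂ} {G : ℂ → ℂ} (hG : ContinuousOn G U) {y₁ y₂ : ℝ}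
    (hy : y₁ ≤ y₂) (hin : ∀ u ∈ K, ∀ y ∈ Icc y₁ y₂, (u : ℂ) + y * I ∈ U) :
    Integrable (Function.uncurry fun (y u : ℝ) => (φ u : ℂ) * G (u + y * I))
      ((volume.restrict (uIoc y₁ y₂)).prod volume) := by
  have h1 : ContinuousOn (Function.uncurry fun (y u : ℝ) => (φ u : ℂ) * G (u + y * I))
      (Icc y₁ y₂ ×ˢ K) := by
    refine ContinuousOn.mul (f := fun x : ℝ × ℝ => (φ x.2 : ℂ))
      (g := fun x : ℝ × ℝ => G (x.2 + x.1 * I)) (by fun_prop) ?_
    exact hG.comp (by fun_prop) fun x hx => hin _ hx.2 _ hx.1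
  have h2 := (h1.integrableOn_compact (μ := volume.prod volume) (isCompact_Icc.prod hK)).mono_set
    (prod_mono (Ioc_subset_Icc_self (a := y₁) (b := y₂)) (subset_refl K))
  have h3 := h2.of_forall_sdiff_eq_zero (t := Ioc y₁ y₂ ×ˢ univ)
    (measurableSet_Ioc.prod MeasurableSet.univ) (fun x hx => by
      have : x.2 ∉ K := fun h => hx.2 ⟨hx.1.1, h⟩
      simp [Function.uncurry, h0 _ this])
  rw [uIoc_of_le hy, Measure.restrict_prod_eq_prod_univ]
  exact h3

theorem o1_du {b : ℂ → ℂ} {u y : ℝ} (hb : DifferentiableAt ℂ b (u + y * I)) :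
    HasDerivAt (fun s : ℝ => b (s + y * I)) (deriv b (u + y * I)) u := by
  have h1 : HasDerivAt (fun s : ℂ => s + y * I) 1 (u : ℂ) := (hasDerivAt_id _).add_const _
  have h2 := (HasDerivAt.comp (u : ℂ) hb.hasDerivAt h1).comp_ofReal
  simpa using h2

theorem o1_dy {b : ℂ → ℂ} {u y : ℝ} (hb : DifferentiableAt ℂ b (u + y * I)) :
    HasDerivAt (fun s : ℝ => b (u + s * I)) (deriv b (u + y * I) * I) y := by
  have h1 : HasDerivAt (fun s : ℂ => u + s * I) I (y : ℂ) := by
    simpa using ((hasDerivAt_id (y : ℂ)).mul_const I).const_add (u : ℂ)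
  have h2 := (HasDerivAt.comp (y : ℂ) hb.hasDerivAt h1).comp_ofReal
  simpa using h2

theorem ov_ftc (hχ : ContDiff ℝ 1 χ) (hcs : HasCompactSupport χ) {U : Set ℂ} (hU : IsOpen U)
    {b f : ℂ → ℂ} (hb : DifferentiableOn ℂ b U) (hf : DifferentiableOn ℂ f U) {y₁ y₂ : ℝ}
    (hy : y₁ ≤ y₂) (hin : ∀ u ∈ tsupport χ, ∀ y ∈ Icc y₁ y₂, (u : ℂ) + y * I ∈ U) :
    (∫ u : ℝ, χ u * (b (u + y₂ * I) * conj (f (u + y₂ * I)))) -
      (∫ u : ℝ, χ u * (b (u + y₁ * I) * conj (f (u + y₁ * I)))) =
    ∫ y in y₁..y₂, ∫ u : ℝ, (-I * (deriv χ u : ℝ) * (b (u + y * I) * conj (f (u + y * I))) -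
      2 * I * χ u * (b (u + y * I) * conj (deriv f (u + y * I)))) := by
  have hK : IsCompact (tsupport χ) := hcs
  have hc : Continuous χ := hχ.continuous
  have hc' : Continuous (deriv χ) := hχ.continuous_deriv le_rfl
  have h0 : ∀ u, u ∉ tsupport χ → χ u = 0 := fun u hu => image_eq_zero_of_notMem_tsupport hu
  have h0' : ∀ u, u ∉ tsupport χ → deriv χ u = 0 := fun u hu => deriv_of_notMem_tsupport hu
  have cb : ContinuousOn b U := hb.continuousOn
  have cf : ContinuousOn (fun w => conj (f w)) U :=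
    continuous_conj.comp_continuousOn hf.continuousOn
  have cb' : ContinuousOn (deriv b) U := (hb.deriv hU).continuousOn
  have cf' : ContinuousOn (fun w => conj (deriv f w)) U :=
    continuous_conj.comp_continuousOn (hf.deriv hU).continuousOn
  have cA : ContinuousOn (fun w => b w * conj (f w)) U := cb.mul cf
  have cB : ContinuousOn (fun w => deriv b w * conj (f w)) U := cb'.mul cf
  have cC : ContinuousOn (fun w => b w * conj (deriv f w)) U := cb.mul cf'
  have cD : ContinuousOn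
      (fun w => I * (deriv b w * conj (f w)) - I * (b w * conj (deriv f w))) U :=
    (continuousOn_const.mul cB).sub (continuousOn_const.mul cC)
  have hy1 : y₁ ∈ Icc y₁ y₂ := ⟨le_rfl, hy⟩
  have hy2 : y₂ ∈ Icc y₁ y₂ := ⟨hy, le_rfl⟩
  have step1 : ∀ u : ℝ, (χ u : ℂ) * (b (u + y₂ * I) * conj (f (u + y₂ * I))) -
      χ u * (b (u + y₁ * I) * conj (f (u + y₁ * I))) =
      ∫ y in y₁..y₂, (χ u : ℂ) * (I * (deriv b (u + y * I) * conj (f (u + y * I))) -
        I * (b (u + y * I) * conj (deriv f (u + y * I)))) := by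
    intro u
    by_cases hu : u ∈ tsupport χ
    · symm
      refine intervalIntegral.integral_eq_sub_of_hasDerivAt
        (f := fun y : ℝ => (χ u : ℂ) * (b (u + y * I) * conj (f (u + y * I)))) ?_ ?_
      · intro y hy'
        rw [uIcc_of_le hy] at hy'
        have hn := hU.mem_nhds (hin u hu y hy')
        have h1 := o1_dy (hb.differentiableAt hn)
        have h2 := (o1_dy (hf.differentiableAt hn)).star
        have h3 := (h1.mul h2).const_mul (χ u : ℂ)
        refine h3.congr_deriv ?_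
        simp only [RCLike.star_def, map_mul, conj_I]
        ring
      · refine ContinuousOn.intervalIntegrable ?_
        rw [uIcc_of_le hy]
        refine continuousOn_const.mul ?_
        exact cD.comp (f := fun y : ℝ => (u : ℂ) + y * I) (by fun_prop) (hin u hu)
    · simp [h0 u hu]
  rw [← integral_sub (o1_int1 hK hc h0 cA fun u hu => hin u hu _ hy2)
    (o1_int1 hK hc h0 cA fun u hu => hin u hu _ hy1)]
  simp only [step1]
  rw [← intervalIntegral_integral_swap (o1_int2 hK hc h0 cD hy hin)]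
  refine intervalIntegral.integral_congr fun y hy' => ?_
  rw [uIcc_of_le hy] at hy'
  have hin' : ∀ u ∈ tsupport χ, (u : ℂ) + y * I ∈ U := fun u hu => hin u hu y hy'
  have iA := o1_int1 hK hc h0 cA hin'
  have iA' := o1_int1 hK hc' h0' cA hin'
  have iB := o1_int1 hK hc h0 cB hin'
  have iC := o1_int1 hK hc h0 cC hin'
  have iD := o1_int1 hK hc h0 cD hin'
  have step2 : ∫ u : ℝ, (((deriv χ u : ℝ) : ℂ) * (b (u + y * I) * conj (f (u + y * I))) +
      χ u * (deriv b (u + y * I) * conj (f (u + y * I))) +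
      χ u * (b (u + y * I) * conj (deriv f (u + y * I)))) = 0 := by
    refine integral_eq_zero_of_hasDerivAt_of_integrable ?_ ((iA'.add iB).add iC) iA
    intro u
    by_cases hu : u ∈ tsupport χ
    · have hn := hU.mem_nhds (hin' u hu)
      have h1 := o1_du (hb.differentiableAt hn)
      have h2 := (o1_du (hf.differentiableAt hn)).star
      have h3 : HasDerivAt (fun s : ℝ => (χ s : ℂ)) ((deriv χ u : ℝ) : ℂ) u :=
        ((hχ.differentiable one_ne_zero u).hasDerivAt).ofReal_comp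
      have h4 := h3.mul (h1.mul h2)
      refine h4.congr_deriv ?_
      simp only [RCLike.star_def, Pi.mul_apply]
      ring
    · have h1 : (fun s : ℝ => (χ s : ℂ) * (b (s + y * I) * conj (f (s + y * I)))) =ᶠ[𝓝 u]
          fun _ => 0 := by
        filter_upwards [(isClosed_tsupport χ).isOpen_compl.mem_nhds hu] with s hs
        simp [h0 s hs]
      have h2 := (hasDerivAt_const u (0 : ℂ)).congr_of_eventuallyEq h1
      simpa [h0 u hu, h0' u hu] using h2
  have iE : Integrable fun u : ℝ =>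
      I * (((deriv χ u : ℝ) : ℂ) * (b (u + y * I) * conj (f (u + y * I))) +
      χ u * (deriv b (u + y * I) * conj (f (u + y * I))) +
      χ u * (b (u + y * I) * conj (deriv f (u + y * I)))) := ((iA'.add iB).add iC).const_mul I
  have step3 : (fun u : ℝ => -I * (deriv χ u : ℝ) * (b (u + y * I) * conj (f (u + y * I))) -
      2 * I * χ u * (b (u + y * I) * conj (deriv f (u + y * I)))) = fun u : ℝ =>
      (χ u : ℂ) * (I * (deriv b (u + y * I) * conj (f (u + y * I))) -
        I * (b (u + y * I) * conj (deriv f (u + y * I)))) -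
      I * (((deriv χ u : ℝ) : ℂ) * (b (u + y * I) * conj (f (u + y * I))) +
      χ u * (deriv b (u + y * I) * conj (f (u + y * I))) +
      χ u * (b (u + y * I) * conj (deriv f (u + y * I)))) := by
    funext u
    ring
  show _ = ∫ u : ℝ, _
  rw [step3, integral_sub iD iE, integral_const_mul, step2, mul_zero, sub_zero]

theorem o1_open (a : ℝ) : IsOpen (Rc a) := by
  have h1 : IsOpen {w : ℂ | |w.re| < a} := isOpen_lt (by fun_prop) continuous_const
  have h2 : IsOpen {w : ℂ | 0 < w.im} := isOpen_lt continuous_const (by fun_prop)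
  have h3 : IsOpen {w : ℂ | w.im < 2 * a} := isOpen_lt (by fun_prop) continuous_const
  exact h1.inter (h2.inter h3)

theorem o1_lam (hχ : ContDiff ℝ 1 χ) (hcs : HasCompactSupport χ) {U : Set ℂ} (hU : IsOpen U)
    {b : ℂ → ℂ} (hb : DifferentiableOn ℂ b U) {y₁ y₂ : ℝ}
    (hy : y₁ ≤ y₂) (hin : ∀ u ∈ tsupport χ, ∀ y ∈ Icc y₁ y₂, (u : ℂ) + y * I ∈ U) :
    Lam χ b y₁ y₂ = 0 := by
  have h := ov_ftc hχ hcs hU hb (differentiableOn_const (1 : ℂ)) hy hin
  simp only [map_one, mul_one, deriv_const', map_zero, mul_zero, sub_zero, mul_assoc,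
    integral_const_mul, intervalIntegral.integral_const_mul] at h
  unfold Lam
  linear_combination -h

theorem o1_ne {u y : ℝ} (h : u ≠ 0 ∨ y ≠ t) : (u : ℂ) + y * I - t * I ≠ 0 := by
  intro h1
  have h2 := congrArg Complex.re h1
  have h3 := congrArg Complex.im h1
  simp at h2 h3
  rcases h with h | h
  · exact h h2
  · exact h (by linarith)

theorem o1_ne' (ht : 0 < t) {w : ℂ} (hw : 0 < w.im) : w + t / 2 * I ≠ 0 := by
  intro h1
  have h3 := congrArg Complex.im h1
  simp at h3
  linarith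

/-- The functional evaluates at the pole of the kernel. -/
theorem ov_rep (hχ : Cut a χ) (ht : t ∈ Ioo 0 a) {g : ℂ → ℂ} (hg : DifferentiableOn ℂ g (Rc a)) :
    Lam χ (fun w => kap t w * g w) (t / 4) a = g (t * I) * Lam χ (kap t) (t / 4) a := by
  obtain ⟨ht0, hta⟩ := ht
  have ha : 0 < a := ht0.trans hta
  have hχ1 : ContDiff ℝ 1 χ := hχ.smooth.of_le (by exact_mod_cast le_top)
  have hK : IsCompact (tsupport χ) := hχ.cpt
  have hc : Continuous χ := hχ1.continuous
  have hc' : Continuous (deriv χ) := hχ1.continuous_deriv le_rfl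
  have h0 : ∀ u, u ∉ tsupport χ → χ u = 0 := fun u hu => image_eq_zero_of_notMem_tsupport hu
  have hy : t / 4 ≤ a := by linarith
  have hw0 : (t : ℂ) * I ∈ Rc a := by
    refine ⟨by simpa using ha, by simpa using ht0, ?_⟩
    simp only [mul_im, ofReal_re, I_im, mul_one, ofReal_im, I_re, mul_zero, add_zero]
    linarith
  have hin : ∀ u ∈ tsupport χ, ∀ y ∈ Icc (t / 4) a, (u : ℂ) + y * I ∈ Rc a := by
    intro u hu y hy'
    have h1 := hχ.supp hu
    refine ⟨?_, ?_, ?_⟩
    · simpa using abs_lt.2 h1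
    · simp only [add_im, ofReal_im, mul_im, ofReal_re, I_im, mul_one, I_re, mul_zero, add_zero,
        zero_add]
      linarith [hy'.1]
    · simp only [add_im, ofReal_im, mul_im, ofReal_re, I_im, mul_one, I_re, mul_zero, add_zero,
        zero_add]
      linarith [hy'.2]
  set h : ℂ → ℂ := fun w => t * dslope g (t * I) w / (w + t / 2 * I) with hh
  have hhol : DifferentiableOn ℂ h (Rc a) := by
    refine DifferentiableOn.div ?_ (by fun_prop) fun w hw => o1_ne' ht0 hw.2.1
    exact ((differentiableOn_dslope ((o1_open a).mem_nhds hw0)).2 hg).const_mul _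
  have hlam := o1_lam hχ1 hχ.cpt (o1_open a) hhol hy hin
  have key : ∀ w : ℂ, w - t * I ≠ 0 → kap t w * g w = g (t * I) * kap t w + h w := by
    intro w hw
    have h1 := sub_smul_dslope g (t * I) w
    rw [smul_eq_mul] at h1
    have h2 : g w = g (t * I) + (w - t * I) * dslope g (t * I) w := by linear_combination -h1
    rw [h2]
    simp only [hh, kap, div_eq_mul_inv, mul_inv]
    linear_combination
      (t * dslope g (t * I) w * (w + t * 2⁻¹ * I)⁻¹) * mul_inv_cancel₀ hw
  set V : Set ℂ := Rc a ∩ {w | w - t * I ≠ 0} with hV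
  have ck : ContinuousOn (kap t) V := by
    refine ContinuousOn.div (by fun_prop) (by fun_prop) fun w hw => ?_
    exact mul_ne_zero hw.2 (o1_ne' ht0 hw.1.2.1)
  have ch : ContinuousOn h V := hhol.continuousOn.mono inter_subset_left
  have level : ∀ (K : Set ℝ) (φ : ℝ → ℝ) (y : ℝ), IsCompact K → Continuous φ →
      (∀ u, u ∉ K → φ u = 0) → (∀ u ∈ K, (u : ℂ) + y * I ∈ V) →
      ∫ u : ℝ, (φ u : ℂ) * (kap t (u + y * I) * g (u + y * I)) =
        g (t * I) * (∫ u : ℝ, (φ u : ℂ) * kap t (u + y * I)) +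
          ∫ u : ℝ, (φ u : ℂ) * h (u + y * I) := by
    intro K φ y hK hφ hz hm
    rw [← integral_const_mul,
      ← integral_add ((o1_int1 hK hφ hz ck hm).const_mul _) (o1_int1 hK hφ hz ch hm)]
    refine integral_congr_ae (Eventually.of_forall fun u => ?_)
    by_cases hu : u ∈ K
    · simp only [key _ (hm u hu).2]
      ring
    · simp [hz u hu]
  have l1 := level _ χ (t / 4) hK hc h0 fun u hu =>
    ⟨hin u hu _ ⟨le_rfl, hy⟩, o1_ne (Or.inr (by linarith))⟩
  have l2 := level _ χ a hK hc h0 fun u hu =>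
    ⟨hin u hu _ ⟨hy, le_rfl⟩, o1_ne (Or.inr hta.ne')⟩
  set K' : Set ℝ := tsupport χ ∩ {u | a / 2 ≤ |u|} with hK'
  have hK'c : IsCompact K' := hK.inter_right (isClosed_le continuous_const continuous_abs)
  have hz : ∀ u, u ∉ K' → deriv χ u = 0 := by
    intro u hu
    by_cases hu1 : u ∈ tsupport χ
    · have hu2 : |u| < a / 2 := lt_of_not_ge fun h => hu ⟨hu1, h⟩
      have h1 : χ =ᶠ[𝓝 u] fun _ => 1 := by
        filter_upwards [(isOpen_lt continuous_abs continuous_const).mem_nhds hu2] with s hs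
        exact hχ.one s hs
      rw [h1.deriv_eq, deriv_const]
    · exact deriv_of_notMem_tsupport hu1
  have hm : ∀ u ∈ K', ∀ y ∈ Icc (t / 4) a, (u : ℂ) + y * I ∈ V := by
    intro u hu y hy'
    refine ⟨hin u hu.1 y hy', o1_ne (Or.inl ?_)⟩
    rintro rfl
    have h1 : a / 2 ≤ |(0 : ℝ)| := hu.2
    rw [abs_zero] at h1
    linarith
  have ii : ∀ G : ℂ → ℂ, ContinuousOn G V → IntervalIntegrable
      (fun y : ℝ => ∫ u : ℝ, ((deriv χ u : ℝ) : ℂ) * G (u + y * I)) volume (t / 4) a := by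
    intro G hG
    exact intervalIntegrable_iff.2 (o1_int2 hK'c hc' hz hG hy hm).integral_prod_left
  have l3 : ∫ y in (t / 4)..a, ∫ u : ℝ,
      ((deriv χ u : ℝ) : ℂ) * (kap t (u + y * I) * g (u + y * I)) =
      g (t * I) * (∫ y in (t / 4)..a, ∫ u : ℝ, ((deriv χ u : ℝ) : ℂ) * kap t (u + y * I)) +
        ∫ y in (t / 4)..a, ∫ u : ℝ, ((deriv χ u : ℝ) : ℂ) * h (u + y * I) := by
    rw [← intervalIntegral.integral_const_mul,
      ← intervalIntegral.integral_add ((ii _ ck).const_mul _) (ii _ ch)]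
    refine intervalIntegral.integral_congr fun y hy' => ?_
    rw [uIcc_of_le hy] at hy'
    exact level K' (deriv χ) y hK'c hc' hz fun u hu => hm u hu y hy'
  unfold Lam at hlam ⊢
  rw [l1, l2, l3]
  linear_combination hlam

theorem exists_cut (ha : 0 < a) : ∃ χ, Cut a χ := by
  let φ : ContDiffBump (0 : ℝ) := ⟨a / 2, 3 * a / 4, by linarith, by linarith⟩
  refine ⟨φ, φ.contDiff, φ.hasCompactSupport, ?_, ?_, fun u => φ.nonneg, fun u => φ.le_one⟩
  · rw [φ.tsupport_eq]
    intro u hu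
    have h1 : |u| ≤ 3 * a / 4 := by simpa using hu
    have h2 := abs_le.1 h1
    exact ⟨by linarith [h2.1], by linarith [h2.2]⟩
  · intro u hu
    refine φ.one_of_mem_closedBall ?_
    simpa using hu.le

end Pool.Agent.Lib.MP_601e9e_an.Rg
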