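import Pool.Agent.Lib.MP_601e9e_an.Rg.Ov1

open Complex Filter Topology Set Metric MeasureTheory
open scoped ComplexConjugate ContDiff Matrix

namespace Pool.Agent.Lib.MP_601e9e_an.Rg

variable {a β γ θ : ℝ} {χ : ℝ → ℝ}

theorem ovb_open (a : ℝ) : IsOpen (Rc a) :=
  (isOpen_lt (continuous_abs.comp continuous_re) continuous_const).inter
    ((isOpen_lt continuous_const continuous_im).inter (isOpen_lt continuous_im continuous_const))

theorem ovb_mem {u y : ℝ} (hu : u ∈ Ioo (-a) a) (h0 : 0 < y) (h1 : y < 2 * a) :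
    (u : ℂ) + y * I ∈ Rc a := by
  refine ⟨?_, ?_, ?_⟩
  · simpa using abs_lt.2 hu
  · simpa using h0
  · simpa using h1

theorem ovb_kap {t u y : ℝ} (ht : 0 < t) (h0 : 0 ≤ y) (h1 : y ≤ t / 4) :
    ‖kap t (u + y * I)‖ ≤ t / (u ^ 2 + t ^ 2 / 4) := by
  have hq : 0 < u ^ 2 + t ^ 2 / 4 := by positivity
  have a1 : u ^ 2 + t ^ 2 / 4 ≤ ‖(u : ℂ) + y * I - t * I‖ ^ 2 := by
    rw [Complex.sq_norm, normSq_apply]
    simp
    nlinarith
  have a2 : u ^ 2 + t ^ 2 / 4 ≤ ‖(u : ℂ) + y * I + t / 2 * I‖ ^ 2 := by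
    rw [Complex.sq_norm, normSq_apply]
    simp
    nlinarith
  have a3 : u ^ 2 + t ^ 2 / 4 ≤ ‖(u : ℂ) + y * I - t * I‖ * ‖(u : ℂ) + y * I + t / 2 * I‖ := by
    refine le_of_sq_le_sq ?_ (by positivity)
    rw [mul_pow, sq]
    exact mul_le_mul a1 a2 hq.le (by positivity)
  rw [kap, norm_div, norm_mul, Complex.norm_real, Real.norm_of_nonneg ht.le]
  exact div_le_div_of_nonneg_left ht.le hq a3

theorem ovb_diff {t : ℝ} (ht : 0 < t) : DifferentiableOn ℂ (kap t) (Rc a ∩ {w | w.im < t}) := by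
  intro w hw
  have h1 : w - t * I ≠ 0 := fun h => by
    have := congrArg im h
    have h2 : w.im < t := hw.2
    simp at this
    linarith
  have h2 : w + t / 2 * I ≠ 0 := fun h => by
    have := congrArg im h
    have h2 : 0 < w.im := hw.1.2.1
    simp at this
    linarith
  refine DifferentiableAt.differentiableWithinAt ?_
  unfold kap
  exact (differentiableAt_const _).div (by fun_prop) (mul_ne_zero h1 h2)

theorem ovb_int (hχ : Cut a χ) {h : ℝ → ℂ} (hh : ContinuousOn h (Ioo (-a) a)) :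
    Integrable fun u => (χ u : ℂ) * h u := by
  have h1 : ContinuousOn (fun u => (χ u : ℂ) * h u) (tsupport χ) :=
    (continuous_ofReal.comp hχ.smooth.continuous).continuousOn.mul (hh.mono hχ.supp)
  refine (h1.integrableOn_compact hχ.cpt).integrable_of_forall_notMem_eq_zero fun u hu => ?_
  simp [image_eq_zero_of_notMem_tsupport hu]

theorem ovb_cont {U : Set ℂ} {b : ℂ → ℂ} (hb : DifferentiableOn ℂ b U) {y : ℝ}
    (h : ∀ u ∈ Ioo (-a) a, (u : ℂ) + y * I ∈ U) :
    ContinuousOn (fun u : ℝ => b (u + y * I)) (Ioo (-a) a) :=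
  hb.continuousOn.comp (by fun_prop) h

theorem ovb_seg {t M u : ℝ} {g f : ℂ → ℂ} (hγ : 0 ≤ γ) (ht : 0 < t) (hta : t < a)
    (h : Pair a β γ M g f) (hu : u ∈ Ioo (-a) a) :
    ‖f (t * I) - f (u + (t / 4 : ℝ) * I)‖ ≤ M * (t / 4) ^ (-γ) * (|u| + t) := by
  have hs : ∀ w ∈ {w : ℂ | w.re < a} ∩ {w | -a < w.re} ∩ ({w | t / 4 ≤ w.im} ∩ {w | w.im < 2 * a}),
      w ∈ Rc a := fun w hw =>
    ⟨abs_lt.2 ⟨hw.1.2, hw.1.1⟩, lt_of_lt_of_le (by positivity) hw.2.1, hw.2.2⟩
  have key := Convex.norm_image_sub_le_of_norm_deriv_le (f := f) (C := M * (t / 4) ^ (-γ))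
    (x := u + (t / 4 : ℝ) * I) (y := t * I)
    (fun w hw => h.hf.differentiableAt ((ovb_open a).mem_nhds (hs w hw)))
    (fun w hw => (h.bd w (hs w hw)).trans (mul_le_mul_of_nonneg_left
      (Real.rpow_le_rpow_of_nonpos (by positivity) hw.2.1 (by linarith)) h.pos))
    (((convex_halfSpace_re_lt a).inter (convex_halfSpace_re_gt (-a))).inter
      ((convex_halfSpace_im_ge (t / 4)).inter (convex_halfSpace_im_lt (2 * a))))
    ⟨⟨by simpa using hu.2, by simpa using hu.1⟩, by simp, by simp; linarith⟩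
    ⟨⟨by simp; linarith, by simp; linarith⟩, by simp; linarith, by simp; linarith⟩
  refine key.trans (mul_le_mul_of_nonneg_left ?_ (mul_nonneg h.pos (by positivity)))
  refine (Complex.norm_le_abs_re_add_abs_im _).trans ?_
  have : |t - t / 4| ≤ t := by rw [abs_le]; constructor <;> linarith
  simpa using this

theorem ovb_tail {t u ε : ℝ} (ht : 0 < t) (ht1 : t < 1) (hε : 0 < ε) (hu : |u| < a) :
    t / (u ^ 2 + t ^ 2 / 4) * (|u| + t) ≤
      8 * ((a + 1) / t) ^ ε * (1 + ‖u / t‖) ^ (-(1 + ε)) := by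
  have hx : 1 + ‖u / t‖ = (|u| + t) / t := by
    rw [Real.norm_eq_abs, abs_div, abs_of_pos ht]
    field_simp
    ring
  have hp : 0 < |u| + t := by positivity
  have h1 : t / (u ^ 2 + t ^ 2 / 4) * (|u| + t) ≤ 8 * ((|u| + t) / t)⁻¹ := by
    rw [inv_div, div_mul_eq_mul_div, ← mul_div_assoc, div_le_div_iff₀ (by positivity) hp, ← sq_abs u]
    nlinarith [mul_nonneg ht.le (sq_nonneg (2 * |u| - t)), mul_nonneg ht.le (sq_nonneg |u|),
      abs_nonneg u]
  have h2 : ((|u| + t) / t)⁻¹ = ((|u| + t) / t) ^ ε * ((|u| + t) / t) ^ (-(1 + ε)) := by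
    rw [← Real.rpow_add (by positivity), ← Real.rpow_neg_one]
    congr 1
    ring
  have h3 : ((|u| + t) / t) ^ ε ≤ ((a + 1) / t) ^ ε :=
    Real.rpow_le_rpow (by positivity) (div_le_div_of_nonneg_right (by linarith) ht.le) hε.le
  rw [hx, mul_assoc]
  refine h1.trans (mul_le_mul_of_nonneg_left ?_ (by norm_num))
  rw [h2]
  exact mul_le_mul_of_nonneg_right h3 (by positivity)

theorem ov_level (ha : 0 < a) (hχ : Cut a χ) (hβ : 0 ≤ β) (hγ : 0 ≤ γ) (hθ0 : 0 ≤ θ)
    (hθ : θ < 1 - β - γ) :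
    ∃ C : ℝ, ∀ t ∈ Ioo 0 (min a 1), ∀ (M : ℝ) (g f : ℂ → ℂ), Pair a β γ M g f →
      ‖(∫ u : ℝ, χ u * (kap t (u + (t / 4 : ℝ) * I) * g (u + (t / 4 : ℝ) * I))) *
          conj (f (t * I)) -
        ∫ u : ℝ, χ u * (kap t (u + (t / 4 : ℝ) * I) * g (u + (t / 4 : ℝ) * I) *
          conj (f (u + (t / 4 : ℝ) * I)))‖ ≤ C * M ^ 2 * t ^ θ := by
  obtain ⟨ε, hε⟩ : ∃ ε, ε = 1 - β - γ - θ := ⟨_, rfl⟩
  have hε0 : 0 < ε := by linarith
  have hK : Integrable fun v : ℝ => (1 + ‖v‖) ^ (-(1 + ε)) :=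
    integrable_one_add_norm (by simpa using hε0)
  refine ⟨4 ^ β * 4 ^ γ * (8 * (a + 1) ^ ε) * ∫ v : ℝ, (1 + ‖v‖) ^ (-(1 + ε)),
    fun t ht M g f h => ?_⟩
  have ht0 := ht.1
  have hta : t < a := ht.2.trans_le (min_le_left _ _)
  have ht1 : t < 1 := ht.2.trans_le (min_le_right _ _)
  have hm : ∀ u ∈ Ioo (-a) a, (u : ℂ) + (t / 4 : ℝ) * I ∈ Rc a := fun u hu =>
    ovb_mem hu (by positivity) (by linarith)
  have c1 := ovb_cont (ovb_diff (a := a) ht0) fun u hu => ⟨hm u hu, by simp; linarith⟩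
  have c2 := ovb_cont h.hg hm
  have c3 := ovb_cont h.hf hm
  have i1 := (ovb_int hχ (c1.mul c2)).mul_const (conj (f (t * I)))
  have i2 := ovb_int hχ ((c1.mul c2).mul (continuous_conj.comp_continuousOn c3))
  simp only [Pi.mul_apply, Function.comp_apply] at i1 i2
  rw [← integral_mul_const, ← integral_sub i1 i2]
  have hb := (hK.comp_div ht0.ne').const_mul
    (M * (t / 4) ^ (-β) * (M * (t / 4) ^ (-γ)) * (8 * ((a + 1) / t) ^ ε))
  have hM := h.pos
  refine (norm_integral_le_of_norm_le hb (Eventually.of_forall fun u => ?_)).trans (le_of_eq ?_)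
  · by_cases hu : u ∈ tsupport χ
    · have hu' := hχ.supp hu
      have b1 := ovb_kap (u := u) ht0 (y := t / 4) (by positivity) le_rfl
      have b2 : ‖g (u + (t / 4 : ℝ) * I)‖ ≤ M * (t / 4) ^ (-β) := by simpa using h.bg _ (hm u hu')
      have b3 := ovb_seg hγ ht0 hta h hu'
      have b4 := ovb_tail ht0 ht1 hε0 (abs_lt.2 hu')
      have b5 : ‖(χ u : ℂ)‖ ≤ 1 := by
        rw [Complex.norm_real, Real.norm_of_nonneg (hχ.nonneg u)]
        exact hχ.le_one u
      rw [mul_assoc, ← mul_sub, ← mul_sub, ← map_sub, norm_mul, norm_mul, norm_mul,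
        Complex.norm_conj]
      calc _ ≤ 1 * (t / (u ^ 2 + t ^ 2 / 4) * (M * (t / 4) ^ (-β)) *
            (M * (t / 4) ^ (-γ) * (|u| + t))) := by gcongr
        _ = M * (t / 4) ^ (-β) * (M * (t / 4) ^ (-γ)) *
            (t / (u ^ 2 + t ^ 2 / 4) * (|u| + t)) := by ring
        _ ≤ M * (t / 4) ^ (-β) * (M * (t / 4) ^ (-γ)) *
            (8 * ((a + 1) / t) ^ ε * (1 + ‖u / t‖) ^ (-(1 + ε))) := by gcongr
        _ = _ := by ring
    · simp only [image_eq_zero_of_notMem_tsupport hu, ofReal_zero, zero_mul, sub_zero, norm_zero]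
      positivity
  · rw [integral_const_mul, Measure.integral_comp_div (fun v : ℝ => (1 + ‖v‖) ^ (-(1 + ε))),
      abs_of_pos ht0, smul_eq_mul, Real.div_rpow ht0.le (by norm_num),
      Real.div_rpow ht0.le (by norm_num), Real.div_rpow (by positivity) ht0.le,
      Real.rpow_neg (by norm_num : (0 : ℝ) ≤ 4), Real.rpow_neg (by norm_num : (0 : ℝ) ≤ 4)]
    have e : t ^ θ = t ^ (-β) * t ^ (-γ) / t ^ ε * t := by
      rw [← Real.rpow_add ht0, ← Real.rpow_sub ht0, ← Real.rpow_add_one ht0.ne']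
      congr 1
      linarith
    rw [e]
    field_simp

theorem ov_down (ha : 0 < a) (hχ : Cut a χ) (hβ : 0 ≤ β) (hγ : 0 ≤ γ) (hθ0 : 0 ≤ θ)
    (hθ : θ < 1 - β - γ) :
    ∃ C : ℝ, ∀ t ∈ Ioo 0 (min a 1), ∀ (M : ℝ) (g f : ℂ → ℂ), Pair a β γ M g f →
      ∀ s ∈ Ioo 0 (t / 4),
      ‖(∫ u : ℝ, χ u * (kap t (u + (t / 4 : ℝ) * I) * g (u + (t / 4 : ℝ) * I) *
          conj (f (u + (t / 4 : ℝ) * I)))) -
        ∫ u : ℝ, χ u * (kap t (u + s * I) * g (u + s * I) * conj (f (u + s * I)))‖ ≤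
        C * M ^ 2 * t ^ θ := by
  obtain ⟨D, hD⟩ := (hχ.smooth.continuous_deriv (by simp)).bounded_above_of_compact_support
    hχ.cpt.deriv
  have hD0 : 0 ≤ D := (norm_nonneg _).trans (hD 0)
  have hr : 0 < 1 - β - γ := by linarith
  refine ⟨(D + 2) * (2 * Real.pi) / (1 - β - γ), fun t ht M g f h s hs => ?_⟩
  have ht0 := ht.1
  have hta : t < a := ht.2.trans_le (min_le_left _ _)
  have ht1 : t < 1 := ht.2.trans_le (min_le_right _ _)
  have hM := h.pos
  have key := ov_ftc (χ := χ) (hχ.smooth.of_le (by simp)) hχ.cpt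
    ((ovb_open a).inter (isOpen_lt continuous_im continuous_const))
    (b := fun w => kap t w * g w) ((ovb_diff ht0).mul (h.hg.mono inter_subset_left))
    (h.hf.mono inter_subset_left) hs.2.le fun u hu y hy =>
      ⟨ovb_mem (hχ.supp hu) (hs.1.trans_le hy.1) (by linarith [hy.2]), by
        simp; linarith [hy.2]⟩
  rw [key]
  have e1 : ∀ u : ℝ, t / (u ^ 2 + t ^ 2 / 4) = 4 / t * (1 + (u / (t / 2)) ^ 2)⁻¹ := fun u => by
    field_simp
    ring
  have i1 : Integrable fun u : ℝ => t / (u ^ 2 + t ^ 2 / 4) := by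
    simp only [e1]
    exact (integrable_inv_one_add_sq.comp_div (by positivity)).const_mul _
  have i2 : ∫ u : ℝ, t / (u ^ 2 + t ^ 2 / 4) = 2 * Real.pi := by
    simp only [e1]
    rw [integral_const_mul, Measure.integral_comp_div (fun v : ℝ => (1 + v ^ 2)⁻¹),
      integral_univ_inv_one_add_sq, abs_of_pos (by positivity), smul_eq_mul]
    field_simp
    ring
  refine (intervalIntegral.norm_integral_le_of_norm_le
    (g := fun y => (D + 2) * (2 * Real.pi) * M ^ 2 * y ^ (-β - γ)) hs.2.le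
    (Eventually.of_forall fun y hy => ?_)
    ((intervalIntegral.intervalIntegrable_rpow' (by linarith)).const_mul _)).trans ?_
  · have hy0 : 0 < y := hs.1.trans hy.1
    refine (norm_integral_le_of_norm_le (i1.const_mul ((D + 2) * M ^ 2 * y ^ (-β - γ)))
      (Eventually.of_forall fun u => ?_)).trans (le_of_eq ?_)
    · by_cases hu : u ∈ tsupport χ
      · have hm := ovb_mem (hχ.supp hu) hy0 (show y < 2 * a by linarith [hy.2])
        have b1 := ovb_kap (u := u) ht0 hy0.le hy.2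
        have b2 : ‖g (u + y * I)‖ ≤ M * y ^ (-β) := by simpa using h.bg _ hm
        have b3 : ‖f (u + y * I)‖ ≤ M * y ^ (-γ) := by simpa using h.bf _ hm
        have b4 : ‖deriv f (u + y * I)‖ ≤ M * y ^ (-γ) := by simpa using h.bd _ hm
        have b5 : ‖χ u‖ ≤ 1 := by
          rw [Real.norm_of_nonneg (hχ.nonneg u)]
          exact hχ.le_one u
        have b6 := hD u
        refine (norm_sub_le _ _).trans ?_
        simp only [norm_mul, norm_neg, norm_I, Complex.norm_real, Complex.norm_conj,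
          Complex.norm_ofNat, one_mul, mul_one]
        calc _ ≤ D * (t / (u ^ 2 + t ^ 2 / 4) * (M * y ^ (-β)) * (M * y ^ (-γ))) +
              2 * 1 * (t / (u ^ 2 + t ^ 2 / 4) * (M * y ^ (-β)) * (M * y ^ (-γ))) := by gcongr
          _ = _ := by rw [sub_eq_add_neg, Real.rpow_add hy0]; ring
      · have h0 : deriv χ u = 0 := by
          by_contra h0
          exact hu (support_deriv_subset h0)
        simp only [image_eq_zero_of_notMem_tsupport hu, h0, ofReal_zero, mul_zero, zero_mul,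
          sub_zero, norm_zero]
        positivity
    · rw [integral_const_mul, i2]
      ring
  · rw [intervalIntegral.integral_const_mul, integral_rpow (Or.inl (by linarith)),
      show -β - γ + 1 = 1 - β - γ by ring]
    have b1 : 0 ≤ s ^ (1 - β - γ) := Real.rpow_nonneg hs.1.le _
    have b2 : (t / 4) ^ (1 - β - γ) ≤ t ^ (1 - β - γ) :=
      Real.rpow_le_rpow (by positivity) (by linarith) hr.le
    have b3 : t ^ (1 - β - γ) ≤ t ^ θ := Real.rpow_le_rpow_of_exponent_ge ht0 ht1.le hθ.le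
    have b4 : 0 ≤ (D + 2) * (2 * Real.pi) * M ^ 2 := by positivity
    calc _ ≤ (D + 2) * (2 * Real.pi) * M ^ 2 * (t ^ θ / (1 - β - γ)) := by
          gcongr
          linarith
      _ = _ := by ring

end Pool.Agent.Lib.MP_601e9e_an.Rg
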