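import Pool.Agent.Lib.MP_601e9e_an.Rg.Ov
import Pool.Agent.Lib.MP_601e9e_an.Rg.Ord
import Pool.Agent.Lib.MP_601e9e_an.Rg.L2

open Complex Filter Topology Set Metric MeasureTheory
open scoped ComplexConjugate ContDiff Matrix

namespace Pool.Agent.Lib.MP_601e9e_an.Rg

variable {m N k : ℕ} {r : ℝ} {F : Fin N → Zs m → ℂ}

theorem rh_int {E : Type*} [TopologicalSpace E] [MeasurableSpace E] [OpensMeasurableSpace E]
    {μ : Measure E} [IsFiniteMeasureOnCompacts μ] {U : Set E} (hU : IsOpen U) {ψ h : E → ℂ}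
    (hψ : Continuous ψ) (hc : HasCompactSupport ψ) (hs : tsupport ψ ⊆ U)
    (hh : ContinuousOn h U) : Integrable (fun x => ψ x * h x) μ :=
  ((hψ.continuousOn.mul hh).continuous_of_tsupport_subset hU
    (tsupport_mul_subset_left.trans hs)).integrable_of_hasCompactSupport hc.mul_right

theorem rh_bump {z₀ : Fin m → ℂ} (b : ContDiffBump z₀) :
    ContDiff ℝ ∞ (fun z => ((b z : ℝ) : ℂ)) ∧
      tsupport (fun z => ((b z : ℝ) : ℂ)) ⊆ closedBall z₀ b.rOut := by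
  refine ⟨ofRealCLM.contDiff.comp b.contDiff, ?_⟩
  refine closure_minimal (fun z hz => ?_) isClosed_closedBall
  have : z ∈ Function.support b := fun h => hz (by simp [h])
  rw [b.support_eq] at this
  exact ball_subset_closedBall this

theorem rh_bint {z₀ : Fin m → ℂ} (b : ContDiffBump z₀) {U : Set (Fin m → ℂ)} (hU : IsOpen U)
    (hb : closedBall z₀ b.rOut ⊆ U) {h : (Fin m → ℂ) → ℂ} (hh : ContinuousOn h U) :
    Integrable (fun z => ((b z : ℝ) : ℂ) * h z) :=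
  rh_int hU (rh_bump b).1.continuous
    ((isCompact_closedBall z₀ b.rOut).of_isClosed_subset (isClosed_tsupport _) (rh_bump b).2)
    ((rh_bump b).2.trans hb) hh

theorem rh_le {z₀ : Fin m → ℂ} (b : ContDiffBump z₀) {h : (Fin m → ℂ) → ℂ} {K : ℝ}
    (hK : ∀ z ∈ closedBall z₀ b.rOut, ‖h z‖ ≤ K) :
    ‖∫ z, ((b z : ℝ) : ℂ) * h z‖ ≤ K * ∫ z, b z := by
  rw [← integral_const_mul]
  refine norm_integral_le_of_norm_le (b.integrable.const_mul K) (Eventually.of_forall fun z => ?_)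
  rw [norm_mul, Complex.norm_real, Real.norm_of_nonneg b.nonneg, mul_comm]
  by_cases hz : z ∈ closedBall z₀ b.rOut
  · exact mul_le_mul_of_nonneg_right (hK z hz) b.nonneg
  · have : b z = 0 := b.zero_of_le_dist (not_le.1 (mt mem_closedBall.2 hz)).le
    simp [this]

theorem rh_loc {z₀ : Fin m → ℂ} {U : Set (Fin m → ℂ)} (hU : IsOpen U) (hz : z₀ ∈ U)
    {h : (Fin m → ℂ) → ℂ} (hh : ContinuousOn h U) {K : ℝ}
    (H : ∀ b : ContDiffBump z₀, closedBall z₀ b.rOut ⊆ U →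
      ‖∫ z, ((b z : ℝ) : ℂ) * h z‖ ≤ K * ∫ z, b z) : ‖h z₀‖ ≤ K := by
  refine le_of_forall_pos_le_add fun ε hε => ?_
  have h1 : ∀ᶠ z in 𝓝 z₀, z ∈ U ∧ dist (h z) (h z₀) < ε :=
    (hU.eventually_mem hz).and
      (Metric.tendsto_nhds.1 (hh.continuousAt (hU.mem_nhds hz)).tendsto ε hε)
  obtain ⟨ρ, hρ, h2⟩ := nhds_basis_closedBall.eventually_iff.1 h1
  let b : ContDiffBump z₀ := ⟨ρ / 2, ρ, by linarith, by linarith⟩
  have hb : closedBall z₀ b.rOut ⊆ U := fun z hz => (h2 hz).1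
  have hp : 0 < ∫ z, b z := b.integral_pos
  have h3 := H b hb
  have h4 := rh_le b (h := fun z => h z₀ - h z) (K := ε) fun z hz => by
    rw [← dist_eq_norm, dist_comm]; exact (h2 hz).2.le
  have h5 : ∫ z, ((b z : ℝ) : ℂ) * (h z₀ - h z) =
      ((∫ z, b z : ℝ) : ℂ) * h z₀ - ∫ z, ((b z : ℝ) : ℂ) * h z := by
    simp only [mul_sub]
    rw [integral_sub (rh_bint b hU hb continuousOn_const) (rh_bint b hU hb hh), integral_mul_const,
      integral_complex_ofReal]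
  rw [h5] at h4
  have h6 := norm_sub_norm_le (((∫ z, b z : ℝ) : ℂ) * h z₀) (∫ z, ((b z : ℝ) : ℂ) * h z)
  rw [norm_mul, Complex.norm_real, Real.norm_of_nonneg hp.le] at h6
  refine le_of_mul_le_mul_left ?_ hp
  linarith

theorem rh_cont {δ : ℝ} (hF : Hyp m N k r F) (hδ : Sm m r δ) (ξ η : Fin m → ℂ) (i j : ℕ) {t : ℝ}
    (ht : t ∈ Ioo 0 δ) : ContinuousOn (pr F ξ η i j t) (ball 0 δ) :=
  (continuousOn_finsetSum _ fun a _ => (contDiffOn_cj hδ (hF.hol a) ξ i ht).continuousOn.mul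
    (l2_cont_conj (contDiffOn_cj hδ (hF.hol a) η j ht).continuousOn)).sub continuousOn_const

theorem rh_mem {δ u₀ u : ℝ} {z : Fin m → ℂ} (hz : ‖z‖ < δ) (h0 : |u₀| < δ / 2) (hu : |u| < δ / 2) :
    ((z, u₀ + u) : Xs m) ∈ ball (0 : Xs m) δ := by
  rw [mem_ball_zero_iff, Prod.norm_def, Real.norm_eq_abs]
  exact max_lt hz ((abs_add_le _ _).trans_lt (by linarith))

/-- The jets along the vertical line over a boundary point. -/
noncomputable def rhL (g : Zs m → ℂ) (ξ : Fin m → ℂ) (i : ℕ) (z : Fin m → ℂ) (u₀ : ℝ) (w : ℂ) : ℂ :=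
  jet g i (pt (z, u₀) 0 + w • ew m) (tv (star z) ξ)

theorem rhL_eq (g : Zs m → ℂ) (ξ : Fin m → ℂ) (i : ℕ) (z : Fin m → ℂ) (u₀ u y : ℝ) :
    rhL g ξ i z u₀ (u + y * I) = cj g ξ i y (z, u₀ + u) := by
  rw [rhL, bu_pt]; rfl

theorem rh_der {δ u₀ : ℝ} {z : Fin m → ℂ} {g : Zs m → ℂ} (hδ : Sm m r δ)
    (hg : DifferentiableOn ℂ g (Dom m r)) (ξ : Fin m → ℂ) (i : ℕ) (hz : ‖z‖ < δ)
    (h0 : |u₀| < δ / 2) {w : ℂ} (hw : w ∈ Rc (δ / 2)) :
    HasDerivAt (rhL g ξ i z u₀) (rhL (dd (ew m) g) ξ i z u₀ w) w := by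
  have hm : pt (z, u₀) 0 + w • ew m ∈ Dom m r := by
    rw [← re_add_im w, bu_pt]
    exact hδ.pt_mem (rh_mem hz h0 hw.1) ⟨hw.2.1, by linarith [hw.2.2]⟩
  have h := hasDerivAt_line (isOpen_Dom r) (hol_jet (isOpen_Dom r) hg i (tv (star z) ξ))
    (pt (z, u₀) 0) (ew m) hm
  rw [← jet_dd (isOpen_Dom r) hg _ _ i hm] at h
  exact h

theorem rh_bd {δ u₀ M e : ℝ} {z : Fin m → ℂ} {g : Zs m → ℂ} {ξ : Fin m → ℂ} {i : ℕ}
    (h : ∀ p ∈ ball (0 : Xs m) δ, ∀ t ∈ Ioo 0 δ, ‖cj g ξ i t p‖ ≤ M * t ^ e) (hz : ‖z‖ < δ)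
    (h0 : |u₀| < δ / 2) {w : ℂ} (hw : w ∈ Rc (δ / 2)) : ‖rhL g ξ i z u₀ w‖ ≤ M * w.im ^ e := by
  have := h _ (rh_mem hz h0 hw.1) w.im ⟨hw.2.1, by linarith [hw.2.2]⟩
  rwa [← rhL_eq, re_add_im] at this

theorem rh_one {δ β γ M : ℝ} (hδ : δ ≤ 1) (hM : 1 ≤ M) (hβ : 0 ≤ β) (hγ : 0 ≤ γ) :
    Pair (δ / 2) β γ M (fun _ => 1) (fun _ => 1) := by
  have key : ∀ e : ℝ, 0 ≤ e → ∀ w ∈ Rc (δ / 2), (1 : ℝ) ≤ M * w.im ^ (-e) := fun e he w hw =>
    one_le_mul_of_one_le_of_one_le hM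
      (Real.one_le_rpow_of_pos_of_le_one_of_nonpos hw.2.1 (by linarith [hw.2.2]) (by linarith))
  refine ⟨by linarith, differentiableOn_const _, differentiableOn_const _, fun w hw => ?_,
    fun w hw => ?_, fun w hw => ?_⟩
  · simpa using key β hβ w hw
  · simpa using key γ hγ w hw
  · simpa using zero_le_one.trans (key γ hγ w hw)

theorem rh_tst {δ u₀ : ℝ} {z₀ : Fin m → ℂ} (b : ContDiffBump z₀)
    (hb : closedBall z₀ b.rOut ⊆ ball 0 δ) {ψ : ℝ → ℂ} (h1 : ContDiff ℝ ∞ ψ)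
    (h2 : HasCompactSupport ψ) (h3 : tsupport ψ ⊆ Ioo (-(δ / 2)) (δ / 2)) (h0 : |u₀| < δ / 2) :
    Tst (ball 0 δ) (fun p : Xs m => ((b p.1 : ℝ) : ℂ) * ψ (p.2 - u₀)) := by
  have hK : IsCompact (closedBall z₀ b.rOut ×ˢ ((fun u => u₀ + u) '' tsupport ψ)) :=
    (isCompact_closedBall _ _).prod (h2.isCompact.image (by fun_prop))
  have hs : tsupport (fun p : Xs m => ((b p.1 : ℝ) : ℂ) * ψ (p.2 - u₀)) ⊆
      closedBall z₀ b.rOut ×ˢ ((fun u => u₀ + u) '' tsupport ψ) := by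
    refine closure_minimal (fun p hp => ?_) hK.isClosed
    exact ⟨(rh_bump b).2 (subset_tsupport _ (left_ne_zero_of_mul hp)), p.2 - u₀,
      subset_tsupport _ (right_ne_zero_of_mul hp), by simp⟩
  refine ⟨((rh_bump b).1.comp contDiff_fst).mul (h1.comp (contDiff_snd.sub contDiff_const)),
    hK.of_isClosed_subset (isClosed_tsupport _) hs, hs.trans ?_⟩
  rintro ⟨z, v⟩ ⟨hz, u, hu, rfl⟩
  exact rh_mem (mem_ball_zero_iff.1 (hb hz)) h0 (abs_lt.2 (h3 hu))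

theorem rho (hF : Hyp m N k r F) (ξ η : Fin m → ℂ) (hξη : bil ξ (star η) = 0) (i j : ℕ)
    {β γ θ : ℝ} (hβ : 0 ≤ β) (hγ : 0 ≤ γ) (hθ0 : 0 ≤ θ) (hθ : θ < 1 - β - γ)
    (h1 : ∀ a, Ord (-β) (cj (F a) ξ i)) (h2 : ∀ a, Ord (-γ) (cj (F a) η j))
    (h3 : ∀ a, Ord (-γ) (cj (dd (ew m) (F a)) η j)) : Ord θ (pr F ξ η i j) := by
  obtain ⟨δ₀, hδ₀⟩ := exists_Sm (m := m) hF.rpos
  obtain ⟨δ, hpos, hle, M, hM, hb⟩ := Ord.unif (ι := Fin N ⊕ Fin N ⊕ Fin N)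
    (c := Sum.elim (fun _ => -β) fun _ => -γ)
    (G := Sum.elim (fun a => cj (F a) ξ i)
      (Sum.elim (fun a => cj (F a) η j) fun a => cj (dd (ew m) (F a)) η j))
    (by rintro (a | a | a); exacts [h1 a, h2 a, h3 a]) (lt_min hδ₀.1 one_pos)
  have hδ : Sm m r δ := hδ₀.mono hpos (hle.trans (min_le_left _ _))
  have hδ1 : δ ≤ 1 := hle.trans (min_le_right _ _)
  obtain ⟨C, t₀, ht₀, hov⟩ := ov (half_pos hpos) hβ hγ hθ0 hθ
  refine ⟨min (δ / 2) t₀, lt_min (half_pos hpos) ht₀, (N + 1) * (C * M ^ 2), ?_⟩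
  rintro ⟨z₀, u₀⟩ hp t ht
  rw [mem_ball_zero_iff, Prod.norm_def, max_lt_iff, Real.norm_eq_abs] at hp
  have hz₀ : ‖z₀‖ < δ := by linarith [hp.1, min_le_left (δ / 2) t₀]
  have h0 : |u₀| < δ / 2 := hp.2.trans_le (min_le_left _ _)
  have htδ : t ∈ Ioo 0 δ := ⟨ht.1, by linarith [ht.2, min_le_left (δ / 2) t₀]⟩
  obtain ⟨ψ, p1, p2, p3, C', hψ⟩ := hov t ⟨ht.1, ht.2.trans_le (min_le_right _ _)⟩
  have step : ∀ s ∈ Ioo 0 (t / 4), ∀ z : Fin m → ℂ, ‖z‖ < δ →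
      ‖pr F ξ η i j t (z, u₀) - ∫ u : ℝ, ψ u * pr F ξ η i j s (z, u₀ + u)‖ ≤
        (N + 1) * (C * M ^ 2 * t ^ θ + C' * M ^ 2 * s ^ (1 - β - γ)) := by
    intro s hs z hz
    have hsδ : s ∈ Ioo 0 δ := ⟨hs.1, by linarith [hs.2, htδ.2, ht.1]⟩
    have hP : ∀ a, Pair (δ / 2) β γ M (rhL (F a) ξ i z u₀) (rhL (F a) η j z u₀) := fun a =>
      ⟨by linarith,
        fun w hw => (rh_der hδ (hF.hol a) ξ i hz h0 hw).differentiableAt.differentiableWithinAt,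
        fun w hw => (rh_der hδ (hF.hol a) η j hz h0 hw).differentiableAt.differentiableWithinAt,
        fun w hw => rh_bd (hb (.inl a)) hz h0 hw, fun w hw => rh_bd (hb (.inr (.inl a))) hz h0 hw,
        fun w hw => by
          rw [(rh_der hδ (hF.hol a) η j hz h0 hw).deriv]
          exact rh_bd (hb (.inr (.inr a))) hz h0 hw⟩
    have e0 : ∀ (g : Zs m → ℂ) (ζ : Fin m → ℂ) (l : ℕ),
        rhL g ζ l z u₀ (t * I) = cj g ζ l t (z, u₀) := fun g ζ l => by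
      simpa using rhL_eq g ζ l z u₀ 0 t
    have a1 := fun a => hψ M _ _ (hP a) s hs
    have a2 := hψ M _ _ (rh_one hδ1 hM hβ hγ) s hs
    simp only [e0, rhL_eq] at a1
    simp only [map_one, mul_one] at a2
    have hc : ∀ (g : Zs m → ℂ), DifferentiableOn ℂ g (Dom m r) → ∀ (ζ : Fin m → ℂ) (l : ℕ),
        ContinuousOn (fun u : ℝ => cj g ζ l s (z, u₀ + u)) (Ioo (-(δ / 2)) (δ / 2)) :=
      fun g hg ζ l => (contDiffOn_cj hδ hg ζ l hsδ).continuousOn.comp (by fun_prop)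
        fun u hu => rh_mem hz h0 (abs_lt.2 hu)
    have i1 : ∀ a, Integrable fun u : ℝ =>
        ψ u * (cj (F a) ξ i s (z, u₀ + u) * conj (cj (F a) η j s (z, u₀ + u))) := fun a =>
      rh_int isOpen_Ioo p1.continuous p2 p3 ((hc _ (hF.hol a) ξ i).mul
        (continuous_conj.comp_continuousOn (hc _ (hF.hol a) η j)))
    have i2 : Integrable ψ := p1.continuous.integrable_of_hasCompactSupport p2
    have e1 : pr F ξ η i j t (z, u₀) - ∫ u : ℝ, ψ u * pr F ξ η i j s (z, u₀ + u) =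
        ∑ a, (cj (F a) ξ i t (z, u₀) * conj (cj (F a) η j t (z, u₀)) - ∫ u : ℝ,
          ψ u * (cj (F a) ξ i s (z, u₀ + u) * conj (cj (F a) η j s (z, u₀ + u)))) -
        (1 - ∫ u, ψ u) * if i = 0 ∧ j = 0 then 1 else 0 := by
      simp only [pr, mul_sub, Finset.mul_sum]
      rw [integral_sub (integrable_finsetSum _ fun a _ => i1 a) (i2.mul_const _),
        integral_finsetSum _ fun a _ => i1 a, integral_mul_const, Finset.sum_sub_distrib]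
      ring
    rw [e1]
    refine (norm_sub_le _ _).trans ?_
    have b1 := (norm_sum_le _ _).trans (Finset.sum_le_sum (s := Finset.univ) fun a _ => a1 a)
    rw [Finset.sum_const, Finset.card_univ, Fintype.card_fin, nsmul_eq_mul] at b1
    have b2 : ‖(1 - ∫ u, ψ u) * if i = 0 ∧ j = 0 then 1 else 0‖ ≤
        C * M ^ 2 * t ^ θ + C' * M ^ 2 * s ^ (1 - β - γ) := by
      split_ifs
      · rwa [mul_one]
      · rw [mul_zero, norm_zero]; exact (norm_nonneg _).trans a2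
    linarith
  have hct : ContinuousOn (fun z : Fin m → ℂ => pr F ξ η i j t (z, u₀)) (ball 0 δ) :=
    (rh_cont hF hδ ξ η i j htδ).comp (by fun_prop) fun z hz => by
      simpa using rh_mem (u := 0) (mem_ball_zero_iff.1 hz) h0 (by simpa using hpos)
  rw [mul_assoc]
  refine rh_loc isOpen_ball (mem_ball_zero_iff.2 hz₀) hct fun b hbU => ?_
  have hT := rh_tst b hbU p1 p2 p3 h0
  have l1 := ((tendsto_const_nhds (x := ∫ z, ((b z : ℝ) : ℂ) * pr F ξ η i j t (z, u₀))).sub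
    (weak_rel hF hδ ξ η hξη i j hT)).norm
  rw [sub_zero] at l1
  have l2 : Tendsto (fun s : ℝ =>
      (N + 1) * (C * M ^ 2 * t ^ θ + C' * M ^ 2 * s ^ (1 - β - γ)) * ∫ z, b z) (𝓝[>] 0)
      (𝓝 ((N + 1) * (C * M ^ 2 * t ^ θ + C' * M ^ 2 * (0 : ℝ) ^ (1 - β - γ)) * ∫ z, b z)) := by
    have := (Real.continuousAt_rpow_const 0 (1 - β - γ) (Or.inr (by linarith))).tendsto.mono_left
      (nhdsWithin_le_nhds (s := Ioi 0))
    exact (((this.const_mul _).const_add _).const_mul _).mul_const _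
  rw [Real.zero_rpow (by linarith), mul_zero, add_zero] at l2
  refine le_of_tendsto_of_tendsto l1 l2 ?_
  filter_upwards [Ioo_mem_nhdsGT (show (0 : ℝ) < t / 4 by linarith [ht.1])] with s hs
  have hsδ : s ∈ Ioo 0 δ := ⟨hs.1, by linarith [hs.2, htδ.2, ht.1]⟩
  have j1 := hT.integrable_mul (rh_cont hF hδ ξ η i j hsδ)
  rw [Measure.volume_eq_prod] at j1
  have e2 : ∀ z : Fin m → ℂ,
      ∫ v : ℝ, ((b z : ℝ) : ℂ) * ψ (v - u₀) * pr F ξ η i j s (z, v) =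
        ((b z : ℝ) : ℂ) * ∫ u : ℝ, ψ u * pr F ξ η i j s (z, u₀ + u) := fun z => by
    rw [← integral_add_left_eq_self _ u₀, ← integral_const_mul]
    simp only [add_sub_cancel_left, mul_assoc]
  have j2 := j1.integral_prod_left
  have e3 := integral_prod _ j1
  simp only [e2] at j2 e3
  change ‖_ - ∫ p : Xs m, ((b p.1 : ℝ) : ℂ) * ψ (p.2 - u₀) * pr F ξ η i j s p‖ ≤ _
  rw [Measure.volume_eq_prod, e3, ← integral_sub (rh_bint b isOpen_ball hbU hct) j2]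
  simp only [← mul_sub]
  exact rh_le b fun z hz => step s hs z (mem_ball_zero_iff.1 (hbU hz))

end Pool.Agent.Lib.MP_601e9e_an.Rg
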