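import Pool.Agent.Lib.MP_601e9e_an.Rg.Line
import Pool.Agent.Lib.MP_601e9e_an.Rg.Rat
import Pool.Agent.Lib.MP_601e9e_an.Rg.Deg
import Pool.Agent.Lib.MP_601e9e_an.Rg.DegLine

open Complex Filter Topology Set Metric MeasureTheory
open scoped ComplexConjugate ContDiff

namespace Pool.Agent.Lib.MP_601e9e_an.Rg

variable {m N k : ℕ} {r : ℝ} {F : Fin N → Zs m → ℂ}

theorem siegel (hF : Hyp m N k r F) (hm : 0 < m) {K : ℕ} (hK : K ≤ 2 * k) (hN : N ≤ m * K) :
    ∃ (q : MvPolynomial (Option (Fin m)) ℂ) (P : Fin N → MvPolynomial (Option (Fin m)) ℂ),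
      q ≠ 0 ∧ q.totalDegree ≤ K * (K - 1) / 2 ∧ (∀ a, (P a).totalDegree ≤ K * (K - 1) / 2) ∧
      ∀ Z ∈ Dom m r, ∀ a, MvPolynomial.eval Z q * F a Z = MvPolynomial.eval Z (P a) := by
  classical
  have hdep := line_dep hF hm (bu_of_hyp hF hK) hN
  obtain ⟨q, P, hq0, hP⟩ := rational hF hm (bu_of_hyp hF hK) hdep
  obtain ⟨δ, hδ⟩ := exists_Sm (m := m) hF.rpos
  have hDo := isOpen_Dom (m := m) r
  have hDc := convex_Dom (m := m) r
  have hmem : pt (0 : Xs m) (δ / 2) ∈ Dom m r :=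
    hδ.pt_mem (mem_ball_self hδ.1) ⟨by linarith [hδ.1], by linarith [hδ.1]⟩
  let Q : Option (Fin N) → MvPolynomial (Option (Fin m)) ℂ := fun o => o.elim q P
  have hG : ∀ o, DifferentiableOn ℂ (hat F o) (Dom m r) := by
    intro o
    cases o with
    | none => exact differentiableOn_const _
    | some a => exact hF.hol a
  have hquad : ∀ p ∈ ball (0 : Xs m) δ, ∑ a, ‖MvPolynomial.eval (pt p 0) (Q (some a))‖ ^ 2 =
      ‖MvPolynomial.eval (pt p 0) (Q none)‖ ^ 2 := by
    intro p hp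
    have hpt : Tendsto (fun t : ℝ => pt p t) (𝓝[>] 0) (𝓝 (pt p 0)) := by
      have : Continuous (fun t : ℝ => pt p t) :=
        continuous_pt.comp (continuous_const.prodMk continuous_id)
      exact this.continuousAt.tendsto.mono_left nhdsWithin_le_nhds
    have hev : ∀ R : MvPolynomial (Option (Fin m)) ℂ,
        Tendsto (fun t : ℝ => ‖MvPolynomial.eval (pt p t) R‖ ^ 2) (𝓝[>] 0)
          (𝓝 (‖MvPolynomial.eval (pt p 0) R‖ ^ 2)) := fun R =>
      (((hol_eval R).continuous.continuousAt.tendsto.comp hpt).norm).pow 2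
    have hr : ‖pt p 0‖ < r := by
      have h1 := hδ.2 p (mem_ball_zero_iff.1 hp).le 0 (by simpa using hδ.1.le)
      linarith [norm_nonneg (pt p 0)]
    have h1 := (hev q).mul (hF.bdry p hr)
    have h2 := tendsto_finsetSum Finset.univ fun a _ => hev (P a)
    rw [mul_one] at h1
    refine tendsto_nhds_unique_of_eventuallyEq h2 h1 ?_
    filter_upwards [Ioo_mem_nhdsGT hδ.1] with t ht
    rw [Finset.mul_sum]
    refine Finset.sum_congr rfl fun a _ => ?_
    rw [← hP _ (hδ.pt_mem hp ht) a, norm_mul, mul_pow]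
  have hdepQ : ∀ Z v : Zs m, ¬ Ind (fun o Y => MvPolynomial.eval Y (Q o)) (K + 1) Z v := by
    intro Z v hI
    obtain ⟨π, hπ⟩ := exists_left (M := jm (fun o Y => MvPolynomial.eval Y (Q o)) (K + 1) Z v) hI
    have hol : DifferentiableOn ℂ (fun x : Zs m × Zs m =>
        (π * jm (fun o Y => MvPolynomial.eval Y (Q o)) (K + 1) x.1 x.2).det) univ := by
      refine hol_det fun i j => ?_
      simp only [Matrix.mul_apply, jm, Matrix.of_apply]
      refine DifferentiableOn.fun_sum fun o _ => DifferentiableOn.const_mul ?_ _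
      have := hol_jet2 isOpen_univ (hol_eval (Q o)).differentiableOn j
      rwa [univ_prod_univ] at this
    obtain ⟨x, hx, hx0⟩ := exists_ne_zero isOpen_univ convex_univ hol ⟨(Z, v), mem_univ _, hπ⟩
      (hDo.prod isOpen_univ) ⟨(pt 0 (δ / 2), v), ⟨hmem, mem_univ _⟩, mem_univ _⟩
    refine dep_mul hDo hG (hol_eval q).differentiableOn
      (H := fun o Y => MvPolynomial.eval Y (Q o)) ?_ hx.1.1 (hdep _ hx.1.1 x.2) (ind_of_det hx0)
    intro o Y hY
    cases o with
    | none => simp [Q]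
    | some a => exact (hP Y hY a).symm
  obtain ⟨O, hO, hne, hl⟩ := deg_lines hm Q hq0 hδ.1 hquad hdepQ
  obtain ⟨g, Q', hg, hd⟩ := degLine Q (a₀ := none) hq0 _ hO hne hl
  have hq : q = g * Q' none := hg none
  have hg0 : g ≠ 0 := fun h => hq0 (by rw [hq, h, zero_mul])
  have hq'0 : Q' none ≠ 0 := fun h => hq0 (by rw [hq, h, mul_zero])
  refine ⟨Q' none, fun a => Q' (some a), hq'0, hd none, fun a => hd (some a), fun Z hZ a => ?_⟩
  obtain ⟨Y, hY, hY0⟩ := exists_eval_ne_zero hg0 hDo ⟨_, hmem⟩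
  have := eq_zero_of_mul hDo hDc (hol_eval g).differentiableOn
    (h := fun Z => MvPolynomial.eval Z (Q' none) * F a Z - MvPolynomial.eval Z (Q' (some a)))
    (((hol_eval _).differentiableOn.mul (hF.hol a)).sub (hol_eval _).differentiableOn)
    ⟨Y, hY, hY0⟩ (fun X hX => by
      have h1 := hP X hX a
      have h2 : P a = g * Q' (some a) := hg (some a)
      rw [hq, h2, map_mul, map_mul] at h1
      linear_combination h1) Z hZ
  exact sub_eq_zero.1 this

end Pool.Agent.Lib.MP_601e9e_an.Rg
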